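import Mathlib
import Pool.Agent.H977R3.CM.Aut
import Pool.Agent.TH119.MX.Gal
import Pool.Agent.R389.Mono
import Pool.Agent.Q99.CT.Basic
import Pool.Agent.Q90.WR.Gal

/-!
# Automorphisms of the complex numbers acting on roots of unity and on characters
-/

set_option autoImplicit false
set_option linter.unusedSectionVars false

namespace Pool.Agent.Helper606_LC

open Pool.Agent.H541R3.ART Pool.Agent.W446.AS Pool.Agent.R389

/-- For `k` a unit modulo `N` there is an automorphism of `ℂ` which acts as the `k`-th power map on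
the `N`-th roots of unity. -/
theorem exists_aut_pow {N : ℕ} (hN : 0 < N) (k : (ZMod N)ˣ) :
    ∃ σ : ℂ ≃+* ℂ, ∀ z : ℂ, z ^ N = 1 → σ z = z ^ (k : ZMod N).val := by
  have hN' : NeZero N := ⟨hN.ne'⟩
  have hcyc : IsCyclotomicExtension {N} ℚ (CyclotomicField N ℚ) :=
    CyclotomicField.isCyclotomicExtension N ℚ
  have hirr : Irreducible (Polynomial.cyclotomic N ℚ) := Polynomial.cyclotomic.irreducible_rat hN
  let g : CyclotomicField N ℚ ≃ₐ[ℚ] CyclotomicField N ℚ := (IsCyclotomicExtension.autEquivPow (CyclotomicField N ℚ) hirr).symm k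
  obtain ⟨j⟩ : Nonempty (CyclotomicField N ℚ →+* ℂ) := inferInstance
  obtain ⟨σ, hσ⟩ := Pool.Agent.H977R3.CM.exists_aut j (g : CyclotomicField N ℚ ≃+* CyclotomicField N ℚ)
  have hμ := IsCyclotomicExtension.zeta_spec N ℚ (CyclotomicField N ℚ)
  set μ := IsCyclotomicExtension.zeta N ℚ (CyclotomicField N ℚ) with hμdef
  refine ⟨σ, fun z hz => ?_⟩
  have hjμ : IsPrimitiveRoot (j μ) N := hμ.map_of_injective j.injective
  obtain ⟨i, -, rfl⟩ := hjμ.eq_pow_of_pow_eq_one hz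
  have h1 : g μ = μ ^ (k : ZMod N).val := by
    have h2 := hμ.autToPow_spec ℚ g
    have h3 : hμ.autToPow ℚ g = k := by
      have h4 := (IsCyclotomicExtension.autEquivPow (CyclotomicField N ℚ) hirr).apply_symm_apply k
      exact h4
    rw [h3] at h2
    exact h2.symm
  rw [map_pow, hσ]
  have h5 : (g : CyclotomicField N ℚ ≃+* CyclotomicField N ℚ) μ = g μ := rfl
  rw [h5, h1, map_pow, ← pow_mul, ← pow_mul, mul_comm]

/-- Every automorphism of `ℂ` acts as a power map on the `N`-th roots of unity. -/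
theorem exists_pow_aut {N : ℕ} (hN : 0 < N) (σ : ℂ ≃+* ℂ) :
    ∃ k : (ZMod N)ˣ, ∀ z : ℂ, z ^ N = 1 → σ z = z ^ (k : ZMod N).val := by
  have hN' : NeZero N := ⟨hN.ne'⟩
  have hζ : IsPrimitiveRoot (Complex.exp (2 * Real.pi * Complex.I / N)) N :=
    Complex.isPrimitiveRoot_exp N hN.ne'
  set ζ := Complex.exp (2 * Real.pi * Complex.I / N)
  have hσ : IsPrimitiveRoot (σ ζ) N := hζ.map_of_injective σ.injective
  obtain ⟨j, hjN, hj, hj'⟩ := hζ.isPrimitiveRoot_iff.mp hσ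
  refine ⟨ZMod.unitOfCoprime j hj, fun z hz => ?_⟩
  obtain ⟨i, -, rfl⟩ := hζ.eq_pow_of_pow_eq_one hz
  rw [ZMod.coe_unitOfCoprime, ZMod.val_natCast, Nat.mod_eq_of_lt hjN, map_pow, ← hj', ← pow_mul,
    ← pow_mul, mul_comm]

/-- the power twist of a function on a group -/
def pw {G X : Type*} [Group G] {N : ℕ} (k : (ZMod N)ˣ) (f : G → X) : G → X :=
  fun g => f (g ^ (k : ZMod N).val)

section pw

section monoid

variable {M : Type*} [Monoid M] {N : ℕ}

lemma pow_val_mul (hN : 0 < N) {g : M} (hg : g ^ N = 1) (k l : (ZMod N)ˣ) :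
    g ^ ((k * l : (ZMod N)ˣ) : ZMod N).val = (g ^ (k : ZMod N).val) ^ (l : ZMod N).val := by
  have hN' : NeZero N := ⟨hN.ne'⟩
  rw [← pow_mul, Units.val_mul, ZMod.val_mul]
  exact (pow_eq_pow_mod _ hg).symm

lemma pow_val_one (hN : 0 < N) {g : M} (hg : g ^ N = 1) :
    g ^ ((1 : (ZMod N)ˣ) : ZMod N).val = g := by
  have hN' : NeZero N := ⟨hN.ne'⟩
  rcases Nat.lt_or_ge 1 N with h | h
  · have : Fact (1 < N) := ⟨h⟩
    rw [Units.val_one, ZMod.val_one, pow_one]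
  · have h1 : N = 1 := le_antisymm h hN
    subst h1
    rw [pow_one] at hg
    rw [hg, one_pow]

end monoid

variable {G : Type} [Group G] {N : ℕ}

lemma pow_card_dvd [Finite G] (hG : Nat.card G ∣ N) (g : G) : g ^ N = 1 := by
  obtain ⟨m, rfl⟩ := hG
  rw [pow_mul, pow_card_eq_one', one_pow]

variable {X : Type*}

lemma pw_mul [Finite G] (hN : 0 < N) (hG : Nat.card G ∣ N) (k l : (ZMod N)ˣ) (f : G → X) :
    pw (k * l) f = pw k (pw l f) := by
  funext g
  change f (g ^ ((k * l : (ZMod N)ˣ) : ZMod N).val) = f ((g ^ (k : ZMod N).val) ^ (l : ZMod N).val)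
  rw [pow_val_mul hN (pow_card_dvd hG g)]

lemma pw_one [Finite G] (hN : 0 < N) (hG : Nat.card G ∣ N) (f : G → X) :
    pw (1 : (ZMod N)ˣ) f = f := by
  funext g
  change f (g ^ ((1 : (ZMod N)ˣ) : ZMod N).val) = f g
  rw [pow_val_one hN (pow_card_dvd hG g)]

/-- automorphisms of `ℂ` act on characters as power maps -/
lemma char_pow {V : Type} [AddCommGroup V] [Module ℂ V] [FiniteDimensional ℂ V]
    (ρ : Representation ℂ G V) (hN : 0 < N) {k : (ZMod N)ˣ} {σ : ℂ ≃+* ℂ}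
    (hσ : ∀ z : ℂ, z ^ N = 1 → σ z = z ^ (k : ZMod N).val) {g : G} (hg : g ^ N = 1) :
    σ (ρ.character g) = ρ.character (g ^ (k : ZMod N).val) := by
  have hζ : IsPrimitiveRoot (Complex.exp (2 * Real.pi * Complex.I / N)) N :=
    Complex.isPrimitiveRoot_exp N hN.ne'
  set ζ := Complex.exp (2 * Real.pi * Complex.I / N)
  obtain ⟨m, hm⟩ := Pool.Agent.Q99.CT.char_expand ρ g hN hg hζ
  have h1 := hm 1
  rw [pow_one] at h1
  rw [h1, hm _, map_sum]
  refine Finset.sum_congr rfl fun i _ => ?_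
  rw [map_mul, map_natCast, map_pow, mul_one, hσ ζ hζ.pow_eq_one, ← pow_mul, mul_comm i]

lemma irr_pow (hN : 0 < N) {k : (ZMod N)ˣ} {σ : ℂ ≃+* ℂ}
    (hσ : ∀ z : ℂ, z ^ N = 1 → σ z = z ^ (k : ZMod N).val) {χ : G → ℂ} (hχ : χ ∈ Irr G)
    {g : G} (hg : g ^ N = 1) : σ (χ g) = χ (g ^ (k : ZMod N).val) := by
  obtain ⟨n, ρ, -, rfl⟩ := hχ
  exact char_pow ρ hN hσ hg

/-- Galois conjugates of irreducible characters -/
lemma irr_aut (σ : ℂ ≃+* ℂ) {χ : G → ℂ} (hχ : χ ∈ Irr G) : (fun g => σ (χ g)) ∈ Irr G := by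
  obtain ⟨n, ρ, hρ, h⟩ := hχ
  have h1 : Pool.Agent.Helper884.IC.IsIrrChar χ :=
    ⟨Fin n → ℂ, inferInstance, inferInstance, inferInstance, ρ, hρ, h⟩
  obtain ⟨V, _, _, _, τ, hτ, h2⟩ := Pool.Agent.Q90.WR.irr_gal σ h1
  rw [h2]
  exact irr_of_irred ((irred_iff τ).mpr hτ)

lemma irr_pw [Finite G] (hN : 0 < N) (hG : Nat.card G ∣ N) (k : (ZMod N)ˣ) {χ : G → ℂ}
    (hχ : χ ∈ Irr G) : pw k χ ∈ Irr G := by
  obtain ⟨σ, hσ⟩ := exists_aut_pow hN k
  have h1 : pw k χ = fun g => σ (χ g) := by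
    funext g
    exact (irr_pow hN hσ hχ (pow_card_dvd hG g)).symm
  rw [h1]
  exact irr_aut σ hχ

lemma pw_bij [Finite G] (hG : Nat.card G ∣ N) (k : (ZMod N)ˣ) :
    Function.Bijective (fun g : G => g ^ (k : ZMod N).val) := by
  have h1 : (Nat.card G).Coprime (k : ZMod N).val :=
    Nat.Coprime.coprime_dvd_left hG (ZMod.val_coe_unit_coprime k).symm
  exact (powCoprime h1).bijective

/-- power twists are isometries -/
lemma pr_pw [Finite G] (hG : Nat.card G ∣ N) (k : (ZMod N)ˣ) (a b : G → ℂ) :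
    pr (pw k a) (pw k b) = pr a b := by
  classical
  have : Fintype G := Fintype.ofFinite G
  rw [pr_eq, pr_eq]
  congr 1
  rw [← (pw_bij hG k).sum_comp (fun g => a g * b g⁻¹)]
  refine Finset.sum_congr rfl fun g _ => ?_
  change a (g ^ _) * b (g⁻¹ ^ _) = a (g ^ _) * b (g ^ _)⁻¹
  rw [inv_pow]

end pw

/-- units modulo `N` which act trivially on the `N`-th roots of unity whose order is not divisible
by `m` -/
def Ug (N m : ℕ) : Set (ZMod N)ˣ :=
  {k | ∀ z : ℂ, z ^ N = 1 → ¬ m ∣ orderOf z → z ^ (k : ZMod N).val = z}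

lemma ug_lin {G : Type} [Group G] [Finite G] {N : ℕ} (hG : Nat.card G ∣ N) {m : ℕ}
    {u : (ZMod N)ˣ} (hu : u ∈ Ug N m) (μ : G →* ℂˣ) (hμ : ¬ m ∣ orderOf μ) :
    pw u (fun g => ((μ g : ℂˣ) : ℂ)) = fun g => ((μ g : ℂˣ) : ℂ) := by
  funext g
  change ((μ (g ^ (u : ZMod N).val) : ℂˣ) : ℂ) = ((μ g : ℂˣ) : ℂ)
  rw [map_pow, Units.val_pow_eq_pow_val]
  apply hu
  · rw [← Units.val_pow_eq_pow_val, ← map_pow, pow_card_dvd hG, map_one, Units.val_one]
  · intro h
    apply hμ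
    refine h.trans ?_
    rw [orderOf_units]
    apply orderOf_dvd_of_pow_eq_one
    rw [← MonoidHom.pow_apply, pow_orderOf_eq_one, MonoidHom.one_apply]

end Pool.Agent.Helper606_LC
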