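import Mathlib

/-!
# Delta functions on finite abelian groups as sums of functions with periods
-/

set_option autoImplicit false
set_option linter.unusedSectionVars false

namespace Pool.Agent.Helper606_LC

section chars

variable {P : Type*} [CommGroup P] {F : Type*} [Field F]

lemma order_dvd_one {q : ℕ} (hq : q.Prime) {x : P} (hx : orderOf x = q) (ψ : P →* Fˣ)
    {i j : ℕ} (hi : i < q) (hj : j < q) (hij : i ≠ j) (h : ψ x ^ i = ψ x ^ j) : ψ x = 1 := by
  have h1 : orderOf (ψ x) ∣ q := by rw [← hx]; exact orderOf_map_dvd ψ x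
  rcases (Nat.dvd_prime hq).mp h1 with h2 | h2
  · exact orderOf_eq_one_iff.mp h2
  · exfalso
    apply hij
    have h3 := pow_injOn_Iio_orderOf (x := ψ x)
    rw [h2] at h3
    exact h3 hi hj h

/-- characters avoiding at most `q` elements of order `q` -/
lemma exists_char_avoid
    (hsep : ∀ x : P, x ≠ 1 → ∃ φ : P →* Fˣ, φ x ≠ 1) {q : ℕ} (hq : q.Prime) (T : Finset P)
    (hT : ∀ t ∈ T, orderOf t = q) (hc : T.card ≤ q) : ∃ ψ : P →* Fˣ, ∀ t ∈ T, ψ t ≠ 1 := by
  classical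
  induction T using Finset.induction_on with
  | empty => exact ⟨1, by simp⟩
  | insert t T ht ih =>
    rw [Finset.card_insert_of_notMem ht] at hc
    obtain ⟨ψ, hψ⟩ := ih (fun s hs => hT s (Finset.mem_insert_of_mem hs)) (by omega)
    by_cases hψt : ψ t = 1
    swap
    · refine ⟨ψ, fun s hs => ?_⟩
      rcases Finset.mem_insert.mp hs with rfl | hs
      · exact hψt
      · exact hψ s hs
    have ht1 : t ≠ 1 := by
      rintro rfl
      have h1 := hT 1 (Finset.mem_insert_self _ _)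
      rw [orderOf_one] at h1
      exact hq.one_lt.ne h1
    obtain ⟨φ, hφ⟩ := hsep t ht1
    by_contra hcon
    push Not at hcon
    let c : Option (Fin q) → (P →* Fˣ) := fun o => o.elim φ (fun j => ψ * φ ^ (j : ℕ))
    choose f hf hf1 using fun o => hcon (c o)
    have hcard : (insert t T).card < (Finset.univ : Finset (Option (Fin q))).card := by
      rw [Finset.card_insert_of_notMem ht, Finset.card_univ, Fintype.card_option, Fintype.card_fin]
      omega
    obtain ⟨x, -, y, -, hxy, hfxy⟩ := Finset.exists_ne_map_eq_of_card_lt_of_maps_to hcard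
      (fun o _ => hf o)
    have hbad : ∀ s ∈ insert t T, ¬ (φ s = 1 ∧ ψ s = 1) := by
      rintro s hs ⟨h1, h2⟩
      rcases Finset.mem_insert.mp hs with rfl | hs
      · exact hφ h1
      · exact hψ s hs h2
    apply hbad (f x) (hf x)
    have hx := hf1 x
    have hy := hf1 y
    rw [← hfxy] at hy
    set s := f x with hs
    have hso : orderOf s = q := hT s (hf x)
    cases x with
    | none =>
      cases y with
      | none => exact absurd rfl hxy
      | some j =>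
        have h1 : φ s = 1 := hx
        have h2 : ψ s * φ s ^ (j : ℕ) = 1 := hy
        rw [h1, one_pow, mul_one] at h2
        exact ⟨h1, h2⟩
    | some i =>
      have h1 : ψ s * φ s ^ (i : ℕ) = 1 := hx
      cases y with
      | none =>
        have h2 : φ s = 1 := hy
        rw [h2, one_pow, mul_one] at h1
        exact ⟨h2, h1⟩
      | some j =>
        have h2 : ψ s * φ s ^ (j : ℕ) = 1 := hy
        have h3 : φ s ^ (i : ℕ) = φ s ^ (j : ℕ) := mul_left_cancel (h1.trans h2.symm)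
        have h4 : φ s = 1 := order_dvd_one hq hso φ i.2 j.2
          (fun h => hxy (congrArg some (Fin.ext h))) h3
        rw [h4, one_pow, mul_one] at h1
        exact ⟨h4, h1⟩

/-- characters avoiding few elements of each prime order -/
lemma exists_char (hsep : ∀ x : P, x ≠ 1 → ∃ φ : P →* Fˣ, φ x ≠ 1) (T : Finset P)
    (hT : ∀ t ∈ T, (orderOf t).Prime)
    (hc : ∀ q : ℕ, q.Prime → (T.filter (fun t => orderOf t = q)).card ≤ q) :
    ∃ ψ : P →* Fˣ, ∀ t ∈ T, ψ t ≠ 1 := by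
  classical
  let Q : Finset ℕ := T.image orderOf
  have hQ : ∀ q ∈ Q, q.Prime := by
    intro q hq
    obtain ⟨t, ht, rfl⟩ := Finset.mem_image.mp hq
    exact hT t ht
  have h1 : ∀ q : ℕ, ∃ ψ : P →* Fˣ, q.Prime → ∀ t ∈ T, orderOf t = q → ψ t ≠ 1 := by
    intro q
    by_cases hq : q.Prime
    · obtain ⟨ψ, hψ⟩ := exists_char_avoid hsep hq (T.filter (fun t => orderOf t = q))
        (fun t ht => (Finset.mem_filter.mp ht).2) (hc q hq)
      exact ⟨ψ, fun _ t ht hto => hψ t (Finset.mem_filter.mpr ⟨ht, hto⟩)⟩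
    · exact ⟨1, fun h => absurd h hq⟩
  choose ψ hψ using h1
  refine ⟨∏ q ∈ Q, ψ q ^ (∏ r ∈ Q.erase q, r), fun t ht => ?_⟩
  set r := orderOf t with hr
  have hrQ : r ∈ Q := Finset.mem_image.mpr ⟨t, ht, rfl⟩
  have hrp := hQ r hrQ
  have h2 : (∏ q ∈ Q, ψ q ^ (∏ r ∈ Q.erase q, r)) t = ψ r t ^ (∏ r ∈ Q.erase r, r) := by
    rw [MonoidHom.finsetProd_apply]
    rw [Finset.prod_eq_single r]
    · rfl
    · intro q hq hqr
      have h3 : r ∣ ∏ r ∈ Q.erase q, r :=
        Finset.dvd_prod_of_mem _ (Finset.mem_erase.mpr ⟨hqr.symm, hrQ⟩)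
      obtain ⟨m, hm⟩ := h3
      rw [MonoidHom.pow_apply, hm, pow_mul, ← map_pow, hr, pow_orderOf_eq_one, map_one, one_pow]
    · intro h
      exact absurd hrQ h
  rw [h2]
  intro h4
  have h5 : orderOf (ψ r t) ∣ ∏ r ∈ Q.erase r, r := orderOf_dvd_of_pow_eq_one h4
  have h6 : orderOf (ψ r t) ∣ r := by rw [hr]; exact orderOf_map_dvd (ψ r) t
  rcases (Nat.dvd_prime hrp).mp h6 with h7 | h7
  · exact hψ r hrp t ht rfl (orderOf_eq_one_iff.mp h7)
  · rw [h7] at h5
    obtain ⟨q, hq, hrq⟩ := (Prime.dvd_finsetProd_iff hrp.prime _).mp h5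
    have hq' := Finset.mem_erase.mp hq
    exact hq'.1 ((Nat.prime_dvd_prime_iff_eq hrp (hQ q hq'.2)).mp hrq).symm

end chars

section vanish

variable {Γ : Type*} [CommGroup Γ]

/-- sums of periodic functions -/
lemma sum_periodic [Fintype Γ] {R : Type*} [AddCommMonoid R] (u : Γ) (f : Γ → R)
    (hf : ∀ γ, f (γ * u) = f γ) : ∃ r : R, ∑ γ, f γ = orderOf u • r := by
  classical
  let B : Subgroup Γ := Subgroup.zpowers u
  have hfB : ∀ γ : Γ, ∀ b ∈ B, f (γ * b) = f γ := by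
    intro γ b hb
    obtain ⟨n, rfl⟩ := (mem_powers_iff_mem_zpowers).mpr hb
    clear hb
    simp only
    induction n with
    | zero => rw [pow_zero, mul_one]
    | succ n ih => rw [pow_succ, ← mul_assoc, hf, ih]
  let e : (Γ ⧸ B) × B → Γ := fun x => x.1.out * x.2
  have hmk : ∀ x : (Γ ⧸ B) × B, ((e x : Γ) : Γ ⧸ B) = x.1 := by
    intro x
    change ((x.1.out * (x.2 : Γ) : Γ) : Γ ⧸ B) = x.1
    rw [QuotientGroup.mk_mul_of_mem _ x.2.2, QuotientGroup.out_eq']
  have he : Function.Bijective e := by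
    constructor
    · intro x y hxy
      have h1 : x.1 = y.1 := by rw [← hmk x, ← hmk y, hxy]
      refine Prod.ext h1 (Subtype.ext ?_)
      have h2 : x.1.out * (x.2 : Γ) = y.1.out * (y.2 : Γ) := hxy
      rw [h1] at h2
      exact mul_left_cancel h2
    · intro γ
      refine ⟨⟨(γ : Γ ⧸ B), ⟨(γ : Γ ⧸ B).out⁻¹ * γ, ?_⟩⟩, ?_⟩
      · rw [← QuotientGroup.eq, QuotientGroup.out_eq']
      · change (γ : Γ ⧸ B).out * ((γ : Γ ⧸ B).out⁻¹ * γ) = γ
        rw [mul_inv_cancel_left]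
  refine ⟨∑ c : Γ ⧸ B, f c.out, ?_⟩
  rw [← he.sum_comp f, Fintype.sum_prod_type, Finset.smul_sum]
  refine Finset.sum_congr rfl fun c _ => ?_
  have h3 : ∀ b : B, f (e (c, b)) = f c.out := fun b => hfB c.out b b.2
  rw [Finset.sum_congr rfl (fun b _ => h3 b), Finset.sum_const, Finset.card_univ]
  congr 1
  rw [← Nat.card_eq_fintype_card, Nat.card_zpowers]

variable {F : Type*} [Field F]

lemma sum_vanish [Fintype Γ] {ℓ : ℕ} [CharP F ℓ] (ψ : Γ →* Fˣ) {u : Γ}
    (hu : ψ u ≠ 1 ∨ ℓ ∣ orderOf u) {b : Γ → ℤ} (hb : ∀ γ, b (γ * u) = b γ) :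
    ∑ γ, ((ψ γ : Fˣ) : F) * (b γ : F) = 0 := by
  classical
  by_cases h1 : ψ u = 1
  · have h2 : ℓ ∣ orderOf u := hu.resolve_left (fun h => h h1)
    obtain ⟨r, hr⟩ := sum_periodic u (fun γ => ((ψ γ : Fˣ) : F) * (b γ : F)) (by
      intro γ
      rw [map_mul, h1, mul_one, hb])
    rw [hr, nsmul_eq_mul]
    have h3 : ((orderOf u : ℕ) : F) = 0 := (CharP.cast_eq_zero_iff F ℓ _).mpr h2
    rw [h3, zero_mul]
  · have h2 : ∑ γ, ((ψ γ : Fˣ) : F) * (b γ : F)
        = ((ψ u : Fˣ) : F) * ∑ γ, ((ψ γ : Fˣ) : F) * (b γ : F) := by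
      conv_lhs => rw [← Equiv.sum_comp (Equiv.mulRight u)]
      rw [Finset.mul_sum]
      refine Finset.sum_congr rfl fun γ _ => ?_
      rw [Equiv.coe_mulRight, hb, map_mul, Units.val_mul]
      ring
    have h3 : (1 - ((ψ u : Fˣ) : F)) * ∑ γ, ((ψ γ : Fˣ) : F) * (b γ : F) = 0 := by
      rw [sub_mul, one_mul, ← h2, sub_self]
    rcases mul_eq_zero.mp h3 with h4 | h4
    · exfalso
      apply h1
      apply Units.ext
      rw [Units.val_one]
      exact (sub_eq_zero.mp h4).symm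
    · exact h4

/-- the group generated by the functions with a period in a given list -/
def Per {ι : Type*} (I : Finset ι) (β : ι → Γ) : AddSubgroup (Γ → ℤ) :=
  AddSubgroup.closure {b | ∃ i ∈ I, ∀ γ, b (γ * β i) = b γ}

theorem per_delta [Finite Γ] {ι : Type*} {I : Finset ι} {β : ι → Γ} {ℓ : ℕ} [CharP F ℓ]
    (ψ : Γ →* Fˣ) (hψ : ∀ i ∈ I, ψ (β i) ≠ 1 ∨ ℓ ∣ orderOf (β i)) {f : Γ → ℤ} (hf : f ∈ Per I β)
    {M : ℤ} (h1 : f 1 = M) (h0 : ∀ γ, γ ≠ 1 → f γ = 0) : (ℓ : ℤ) ∣ M := by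
  classical
  have : Fintype Γ := Fintype.ofFinite Γ
  let Φ : (Γ → ℤ) →+ F := AddMonoidHom.mk' (fun f => ∑ γ, ((ψ γ : Fˣ) : F) * (f γ : F)) (by
    intro a b
    simp only [Pi.add_apply, Int.cast_add, mul_add, Finset.sum_add_distrib])
  have h2 : Per I β ≤ Φ.ker := by
    rw [Per, AddSubgroup.closure_le]
    rintro b ⟨i, hi, hb⟩
    exact sum_vanish ψ (hψ i hi) hb
  have h3 : ∑ γ, ((ψ γ : Fˣ) : F) * (f γ : F) = 0 := h2 hf
  rw [Finset.sum_eq_single 1] at h3
  · rw [map_one, Units.val_one, one_mul, h1] at h3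
    exact (CharP.intCast_eq_zero_iff F ℓ M).mp h3
  · intro γ _ hγ
    rw [h0 γ hγ]
    simp
  · intro h
    exact absurd (Finset.mem_univ _) h

/-- **Delta functions are not sums of functions with few periods.** -/
theorem per_count [Finite Γ] {ι : Type*} {I : Finset ι} {β : ι → Γ}
    (hβ : ∀ i ∈ I, (orderOf (β i)).Prime) {ℓ : ℕ} [hℓF : Fact ℓ.Prime]
    (hc : ∀ q : ℕ, q.Prime → q ≠ ℓ → (I.filter (fun i => orderOf (β i) = q)).card ≤ q) :
    ∃ ψ : Γ →* (AlgebraicClosure (ZMod ℓ))ˣ,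
      ∀ i ∈ I, ψ (β i) ≠ 1 ∨ ℓ ∣ orderOf (β i) := by
  classical
  have hℓ : ℓ.Prime := hℓF.out
  obtain ⟨a, m, hm, ham⟩ := Nat.exists_eq_pow_mul_and_not_dvd (Nat.card_pos (α := Γ)).ne' ℓ
    hℓ.ne_one
  let π : Γ →* Γ := powMonoidHom (ℓ ^ a)
  let P : Subgroup Γ := π.range
  have hPm : ∀ x : P, x ^ m = 1 := by
    rintro ⟨x, y, rfl⟩
    apply Subtype.ext
    change (y ^ (ℓ ^ a)) ^ m = 1
    rw [← pow_mul, ← ham, pow_card_eq_one']
  have hexp : Monoid.exponent P ∣ m := Monoid.exponent_dvd_of_forall_pow_eq_one hPm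
  have hne : NeZero ((Monoid.exponent P : ℕ) : AlgebraicClosure (ZMod ℓ)) := by
    refine ⟨fun h => hm ?_⟩
    exact ((CharP.cast_eq_zero_iff (AlgebraicClosure (ZMod ℓ)) ℓ _).mp h).trans hexp
  have hsep : ∀ x : P, x ≠ 1 → ∃ φ : P →* (AlgebraicClosure (ZMod ℓ))ˣ, φ x ≠ 1 := by
    intro x hx
    exact CommGroup.exists_apply_ne_one_of_hasEnoughRootsOfUnity P _ hx
  let J := I.filter (fun i => orderOf (β i) ≠ ℓ)
  let T : Finset P := J.image (fun i => π.rangeRestrict (β i))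
  have hord : ∀ i ∈ J, orderOf (π.rangeRestrict (β i)) = orderOf (β i) := by
    intro i hi
    obtain ⟨hi, hil⟩ := Finset.mem_filter.mp hi
    have h1 : orderOf (π.rangeRestrict (β i)) ∣ orderOf (β i) := orderOf_map_dvd _ _
    rcases (Nat.dvd_prime (hβ i hi)).mp h1 with h2 | h2
    · exfalso
      have h3 : π.rangeRestrict (β i) = 1 := orderOf_eq_one_iff.mp h2
      have h4 : β i ^ (ℓ ^ a) = 1 := congrArg Subtype.val h3
      have h5 : orderOf (β i) ∣ ℓ ^ a := orderOf_dvd_of_pow_eq_one h4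
      exact hil ((Nat.prime_dvd_prime_iff_eq (hβ i hi) hℓ).mp ((hβ i hi).dvd_of_dvd_pow h5))
    · exact h2
  obtain ⟨ψ, hψ⟩ := exists_char hsep T (by
    intro t ht
    obtain ⟨i, hi, rfl⟩ := Finset.mem_image.mp ht
    rw [hord i hi]
    exact hβ i (Finset.mem_filter.mp hi).1) (by
    intro q hq
    by_cases hqℓ : q = ℓ
    · have h1 : T.filter (fun t => orderOf t = q) = ∅ := by
        rw [Finset.filter_eq_empty_iff]
        intro t ht
        obtain ⟨i, hi, rfl⟩ := Finset.mem_image.mp ht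
        rw [hord i hi, hqℓ]
        exact (Finset.mem_filter.mp hi).2
      rw [h1, Finset.card_empty]
      exact Nat.zero_le _
    · refine le_trans ?_ (hc q hq hqℓ)
      have h1 : T.filter (fun t => orderOf t = q)
          ⊆ (I.filter (fun i => orderOf (β i) = q)).image (fun i => π.rangeRestrict (β i)) := by
        intro t ht
        obtain ⟨ht, hto⟩ := Finset.mem_filter.mp ht
        obtain ⟨i, hi, rfl⟩ := Finset.mem_image.mp ht
        rw [hord i hi] at hto
        exact Finset.mem_image.mpr ⟨i, Finset.mem_filter.mpr ⟨(Finset.mem_filter.mp hi).1, hto⟩, rfl⟩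
      exact (Finset.card_le_card h1).trans Finset.card_image_le)
  refine ⟨ψ.comp π.rangeRestrict, fun i hi => ?_⟩
  by_cases hil : orderOf (β i) = ℓ
  · right; rw [hil]
  · left
    exact hψ _ (Finset.mem_image.mpr ⟨i, Finset.mem_filter.mpr ⟨hi, hil⟩, rfl⟩)

/-- at most six elements -/
theorem per_six {ι : Type*} {I : Finset ι} {β : ι → Γ} (hI : I.card ≤ 6) :
    ∃ ℓ : ℕ, ℓ.Prime ∧
      ∀ q : ℕ, q.Prime → q ≠ ℓ → (I.filter (fun i => orderOf (β i) = q)).card ≤ q := by
  classical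
  by_cases h : ∃ ℓ : ℕ, ℓ.Prime ∧ ℓ < (I.filter (fun i => orderOf (β i) = ℓ)).card
  · obtain ⟨ℓ, hℓ, hlt⟩ := h
    refine ⟨ℓ, hℓ, fun q hq hqℓ => ?_⟩
    by_contra hcon
    push Not at hcon
    have h1 : (I.filter (fun i => orderOf (β i) = ℓ)).card
        + (I.filter (fun i => orderOf (β i) = q)).card ≤ I.card := by
      rw [← Finset.card_union_of_disjoint]
      · exact Finset.card_le_card (Finset.union_subset (Finset.filter_subset _ _)
          (Finset.filter_subset _ _))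
      · rw [Finset.disjoint_left]
        intro i hi hi'
        exact hqℓ ((Finset.mem_filter.mp hi').2.symm.trans (Finset.mem_filter.mp hi).2)
    have h2 := hℓ.two_le
    have h3 := hq.two_le
    omega
  · push Not at h
    exact ⟨2, Nat.prime_two, fun q hq _ => h q hq⟩

end vanish

end Pool.Agent.Helper606_LC
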