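import Mathlib
import Pool.Agent.Helper606_LC.Aut
import Pool.Agent.Helper606_LC.Comb
import Pool.Agent.H302R3.HypP

/-!
# Integrality of multiplicities and Galois orbits of characters
-/

set_option autoImplicit false
set_option linter.unusedSectionVars false

namespace Pool.Agent.Helper606_LC

open Pool.Agent.H541R3.ART Pool.Agent.W446.AS Pool.Agent.R389 Pool.Agent.H302R3 MulAction

section orbit

variable {G : Type} [Group G] [Finite G] {N : ℕ}

/-- the stabilizer of a function under power twists -/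
def stb (hN : 0 < N) (hG : Nat.card G ∣ N) (χ : G → ℂ) : Subgroup (ZMod N)ˣ where
  carrier := {k | pw k χ = χ}
  mul_mem' := by
    intro a b ha hb
    change pw (a * b) χ = χ
    rw [pw_mul hN hG, show pw b χ = χ from hb, show pw a χ = χ from ha]
  one_mem' := pw_one hN hG χ
  inv_mem' := by
    intro a ha
    change pw a⁻¹ χ = χ
    conv_lhs => rw [← show pw a χ = χ from ha]
    rw [← pw_mul hN hG, inv_mul_cancel, pw_one hN hG]

/-- the Galois group of the field of values -/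
def Gam (hN : 0 < N) (hG : Nat.card G ∣ N) (χ : G → ℂ) : Type := (ZMod N)ˣ ⧸ stb hN hG χ

noncomputable instance (hN : 0 < N) (hG : Nat.card G ∣ N) (χ : G → ℂ) :
    CommGroup (Gam hN hG χ) := inferInstanceAs (CommGroup ((ZMod N)ˣ ⧸ stb hN hG χ))

/-- the projection -/
def gmk (hN : 0 < N) (hG : Nat.card G ∣ N) (χ : G → ℂ) : (ZMod N)ˣ →* Gam hN hG χ :=
  QuotientGroup.mk' (stb hN hG χ)

/-- the conjugates of `χ` -/
noncomputable def cj (hN : 0 < N) (hG : Nat.card G ∣ N) (χ : G → ℂ)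
    (γ : Gam hN hG χ) : G → ℂ := pw (Quotient.out (s := QuotientGroup.leftRel (stb hN hG χ)) γ) χ

variable (hN : 0 < N) (hG : Nat.card G ∣ N) (χ : G → ℂ)

lemma gmk_surj : Function.Surjective (gmk hN hG χ) := QuotientGroup.mk'_surjective _

lemma gmk_eq_one {k : (ZMod N)ˣ} : gmk hN hG χ k = 1 ↔ pw k χ = χ :=
  QuotientGroup.eq_one_iff k

lemma gam_finite : Finite (Gam hN hG χ) := by
  have hN' : NeZero N := ⟨hN.ne'⟩
  exact Finite.of_surjective _ (gmk_surj hN hG χ)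

lemma cj_mk (k : (ZMod N)ˣ) : cj hN hG χ (gmk hN hG χ k) = pw k χ := by
  obtain ⟨s, hs⟩ := QuotientGroup.mk_out_eq_mul (stb hN hG χ) k
  have h1 : cj hN hG χ (gmk hN hG χ k) = pw (k * (s : (ZMod N)ˣ)) χ := by
    rw [← hs]
    rfl
  rw [h1, pw_mul hN hG]
  congr 1
  exact s.2

lemma cj_mul (γ : Gam hN hG χ) (u : (ZMod N)ˣ) :
    cj hN hG χ (γ * gmk hN hG χ u) = pw u (cj hN hG χ γ) := by
  obtain ⟨k, rfl⟩ := gmk_surj hN hG χ γ
  rw [← map_mul, cj_mk, cj_mk, mul_comm, pw_mul hN hG]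

lemma cj_eq_iff (γ : Gam hN hG χ) : cj hN hG χ γ = χ ↔ γ = 1 := by
  obtain ⟨k, rfl⟩ := gmk_surj hN hG χ γ
  rw [cj_mk, gmk_eq_one]

lemma cj_irr {χ : G → ℂ} (hχ : χ ∈ Irr G) (γ : Gam hN hG χ) :
    cj hN hG χ γ ∈ Irr G := irr_pw hN hG _ hχ

end orbit

section hyp

variable {G : Type} [Group G] [Finite G] {N : ℕ}

lemma pr_lin_pw (hG : Nat.card G ∣ N) {m : ℕ} {u : (ZMod N)ˣ} (hu : u ∈ Ug N m) (μ : G →* ℂˣ)
    (hμ : ¬ m ∣ orderOf μ) (θ : G → ℂ) :
    pr (fun g => ((μ g : ℂˣ) : ℂ)) (pw u θ) = pr (fun g => ((μ g : ℂˣ) : ℂ)) θ := by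
  have h1 := pr_pw hG u (fun g => ((μ g : ℂˣ) : ℂ)) θ
  rw [ug_lin hG hu μ hμ] at h1
  exact h1

/-- the multiplicity of an induced linear character -/
lemma pr_mono_nat {H : Subgroup G} (W : Subgroup H) (ψ : W →* ℂˣ) {χ : G → ℂ} (hχ : χ ∈ Irr G) :
    ∃ n : ℕ, pr (fun h : H => χ h) (ind W (fun w => ((ψ w : ℂˣ) : ℂ))) = n ∧
      ∃ (K : Subgroup G) (μ : K →* ℂˣ),
        (∑ᶠ h : K, χ h * (((μ h)⁻¹ : ℂˣ) : ℂ)) = n * Nat.card K ∧ orderOf ψ ∣ orderOf μ := by
  classical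
  have h1 : pr (fun h : H => χ h) (ind W (fun w => ((ψ w : ℂˣ) : ℂ)))
      = pr (fun w : W => χ ((w : H) : G)) (fun w => ((ψ w : ℂˣ) : ℂ)) :=
    frob' W _ (F := fun h : H => χ h) (fun g x => Irr.conj hχ (g : G) (x : G))
  let e := W.equivMapOfInjective H.subtype H.subtype_injective
  obtain ⟨n, hn⟩ := exists_mult hχ (W.map H.subtype) (ψ.comp e.symm.toMonoidHom)
  refine ⟨n, ?_, W.map H.subtype, ψ.comp e.symm.toMonoidHom, hn, ?_⟩
  · rw [h1]
    have : Fintype W := Fintype.ofFinite W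
    have : Fintype (W.map H.subtype) := Fintype.ofFinite _
    rw [pr_eq]
    rw [finsum_eq_sum_of_fintype, ← Equiv.sum_comp e.toEquiv] at hn
    have h2 : ∀ w : W, χ ((e.toEquiv w : W.map H.subtype) : G) *
        ((((ψ.comp e.symm.toMonoidHom) (e.toEquiv w))⁻¹ : ℂˣ) : ℂ)
        = χ ((w : H) : G) * ((ψ w⁻¹ : ℂˣ) : ℂ) := by
      intro w
      have h3 : (ψ.comp e.symm.toMonoidHom) (e.toEquiv w) = ψ w := by
        change ψ (e.symm (e w)) = ψ w
        rw [MulEquiv.symm_apply_apply]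
      rw [h3, map_inv]
      rfl
    rw [Finset.sum_congr rfl (fun w _ => h2 w)] at hn
    rw [hn]
    have h4 : Nat.card (W.map H.subtype) = Nat.card W := (Nat.card_congr e.toEquiv).symm
    rw [h4]
    have h5 : (Nat.card W : ℂ) ≠ 0 := card_ne
    field_simp
  · apply orderOf_dvd_of_pow_eq_one
    ext w
    have h3 : ψ w = (ψ.comp e.symm.toMonoidHom) (e w) := by
      change ψ w = ψ (e.symm (e w))
      rw [MulEquiv.symm_apply_apply]
    rw [MonoidHom.pow_apply, h3, ← MonoidHom.pow_apply, pow_orderOf_eq_one]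
    rfl

variable {ι : Type*} {I : Finset ι} {m : ι → ℕ} (hN : 0 < N) (hG : Nat.card G ∣ N) {χ : G → ℂ}
  {β : ι → Gam hN hG χ}

lemma pr_expand {a : G → ℂ} (ha : ∀ g x : G, a (x * g * x⁻¹) = a g) (b : G → ℂ) :
    pr a b = ∑ φ ∈ irrF G, pr a φ * pr φ b := by
  classical
  have : Fintype G := Fintype.ofFinite G
  conv_lhs => rw [pr_eq]
  have h1 : ∀ g : G, a g * b g⁻¹ = ∑ φ ∈ irrF G, pr a φ * (φ g * b g⁻¹) := by
    intro g
    rw [class_expand ha g, Finset.sum_mul]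
    exact Finset.sum_congr rfl fun φ _ => by ring
  rw [Finset.sum_congr rfl (fun g _ => h1 g), Finset.sum_comm, Finset.mul_sum]
  refine Finset.sum_congr rfl fun φ _ => ?_
  rw [← Finset.mul_sum, pr_eq φ b]
  ring

/-- hyperelementary subgroups -/
lemma hyp_per (hχ : χ ∈ Irr G) (hβ : ∀ i ∈ I, ∃ u ∈ Ug N (m i), gmk hN hG χ u = β i)
    (hD : ∀ (K : Subgroup G) (μ : K →* ℂˣ), (∑ᶠ h : K, χ h * (((μ h)⁻¹ : ℂˣ) : ℂ)) ≠ 0 →
      ∃ i ∈ I, ¬ m i ∣ orderOf μ)
    {ℓ : ℕ} (hℓ : ℓ.Prime) {H : Subgroup G} (hH : HypP ℓ H) :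
    ∃ f ∈ Per I β, ∀ γ, pr (fun h : H => χ h) (fun h : H => cj hN hG χ γ h) = f γ := by
  classical
  have hHN : Nat.card H ∣ N := H.card_subgroup_dvd_card.trans hG
  have hmono : ∀ φ ∈ Irr H, Mono φ := fun φ hφ => hyp_mono hℓ (Nat.card H) H rfl hH φ hφ
  have key : ∀ φ ∈ Irr H, ∃ f ∈ Per I β, ∀ γ,
      pr (fun h : H => χ h) φ * pr φ (fun h : H => cj hN hG χ γ h) = f γ := by
    intro φ hφ
    obtain ⟨W, ψ, hφW⟩ := hmono φ hφ
    obtain ⟨n, hn, K, μ, hK, hord⟩ := pr_mono_nat W ψ hχ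
    rw [← hφW] at hn
    have hWN : Nat.card W ∣ N := W.card_subgroup_dvd_card.trans hHN
    by_cases hn0 : n = 0
    · refine ⟨0, zero_mem _, fun γ => ?_⟩
      rw [hn, hn0]
      simp
    have hne : (∑ᶠ h : K, χ h * (((μ h)⁻¹ : ℂˣ) : ℂ)) ≠ 0 := by
      rw [hK]
      exact mul_ne_zero (by exact_mod_cast hn0) card_ne
    obtain ⟨i, hi, hmi⟩ := hD K μ hne
    have hψ : ¬ m i ∣ orderOf ψ := fun h => hmi (h.trans hord)
    have h1 : ∀ γ, ∃ k : ℕ, pr φ (fun h : H => cj hN hG χ γ h) = k := by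
      intro γ
      obtain ⟨k, hk, -⟩ := pr_mono_nat W ψ (cj_irr hN hG hχ γ)
      rw [← hφW] at hk
      exact ⟨k, by rw [pr_comm, hk]⟩
    choose k hk using h1
    refine ⟨fun γ => (n : ℤ) * k γ, ?_, fun γ => by rw [hn, hk]; push_cast; rfl⟩
    apply AddSubgroup.subset_closure
    refine ⟨i, hi, fun γ => ?_⟩
    have h2 : (k (γ * β i) : ℂ) = k γ := by
      rw [← hk, ← hk]
      have h3 : ∀ γ, pr φ (fun h : H => cj hN hG χ γ h)
          = pr (fun w : W => ((ψ w : ℂˣ) : ℂ)) (fun w : W => cj hN hG χ γ ((w : H) : G)) := by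
        intro γ
        rw [hφW]
        exact frob W _ (F := fun h : H => cj hN hG χ γ h)
          (fun g x => Irr.conj (cj_irr hN hG hχ γ) (g : G) (x : G))
      rw [h3, h3]
      obtain ⟨u, hu, hub⟩ := hβ i hi
      have h4 : (fun w : W => cj hN hG χ (γ * β i) ((w : H) : G))
          = pw u (fun w : W => cj hN hG χ γ ((w : H) : G)) := by
        rw [← hub, cj_mul]
        rfl
      rw [h4]
      exact pr_lin_pw hWN hu ψ hψ _
    have h5 : k (γ * β i) = k γ := by exact_mod_cast h2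
    simp only [h5]
  choose! f hf hf1 using key
  refine ⟨∑ φ ∈ irrF H, f φ, sum_mem fun φ hφ => hf φ (mem_irrF.mp hφ), fun γ => ?_⟩
  rw [pr_expand (a := fun h : H => χ h) (fun g x => Irr.conj hχ (g : G) (x : G))]
  rw [Finset.sum_apply, Int.cast_sum]
  exact Finset.sum_congr rfl fun φ hφ => hf1 φ (mem_irrF.mp hφ) γ

/-- the sum of a class function weighted by fixed-point counts -/
lemma sum_count [Fintype G] {θ : G → ℂ} (hθ : ∀ g x : G, θ (x * g * x⁻¹) = θ g)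
    (X : Type) [MulAction G X] [Finite X] :
    ∑ g : G, θ g * (Nat.card {x : X // g • x = x} : ℂ) = Nat.card G *
      ∑ᶠ ω : Quotient (orbitRel G X), (Nat.card (stabilizer G ω.out) : ℂ)⁻¹ *
        ∑ᶠ g : stabilizer G ω.out, θ g := by
  classical
  have : Fintype X := Fintype.ofFinite _
  let F : X → ℂ := fun x => ∑ g : G, if g • x = x then θ g else 0
  have hinv : ∀ (h : G) (x : X), F (h • x) = F x := by
    intro h x
    change ∑ g : G, (if g • h • x = h • x then θ g else 0) = ∑ g : G, if g • x = x then θ g else 0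
    rw [← Equiv.sum_comp (MulAut.conj h).toEquiv
      (fun g => if g • h • x = h • x then θ g else 0)]
    refine Finset.sum_congr rfl fun g _ => ?_
    have e1 : (MulAut.conj h).toEquiv g = h * g * h⁻¹ := rfl
    rw [e1, hθ]
    have e2 : ((h * g * h⁻¹) • h • x = h • x) ↔ (g • x = x) := by
      rw [smul_smul, inv_mul_cancel_right, mul_smul]
      exact smul_left_cancel_iff h
    by_cases hgx : g • x = x
    · rw [if_pos hgx, if_pos (e2.mpr hgx)]
    · rw [if_neg hgx, if_neg (fun h => hgx (e2.mp h))]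
  have hsum : ∑ g : G, θ g * (Nat.card {x : X // g • x = x} : ℂ) = ∑ x : X, F x := by
    rw [Finset.sum_comm]
    refine Finset.sum_congr rfl fun g _ => ?_
    rw [← Finset.sum_filter, Finset.sum_const, nsmul_eq_mul, mul_comm,
      Nat.card_eq_fintype_card, Fintype.card_subtype]
  have hstab : ∀ x : X, F x = ∑ᶠ g : stabilizer G x, θ g := by
    intro x
    have : Fintype (stabilizer G x) := Fintype.ofFinite _
    rw [finsum_eq_sum_of_fintype]
    change (∑ g : G, if g • x = x then θ g else 0) = _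
    rw [← Finset.sum_filter]
    exact Finset.sum_subtype _ (by simp) θ
  let mk : X → Quotient (orbitRel G X) := Quotient.mk _
  rw [hsum, ← Finset.sum_fiberwise_of_maps_to (s := Finset.univ) (t := Finset.univ)
    (g := mk) (fun _ _ => Finset.mem_univ _), finsum_eq_sum_of_fintype, Finset.mul_sum]
  refine Finset.sum_congr rfl fun ω _ => ?_
  have hconst : ∀ x ∈ Finset.univ.filter (fun x => mk x = ω), F x = F ω.out := by
    intro x hx
    have h2 := (Finset.mem_filter.mp hx).2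
    have h3 : mk x = mk ω.out := by
      rw [h2]; exact (Quotient.out_eq ω).symm
    have h4 := Quotient.exact h3
    obtain ⟨h, hh⟩ := orbitRel_apply.mp h4
    rw [← hh, hinv]
  rw [Finset.sum_congr rfl hconst, Finset.sum_const, nsmul_eq_mul, hstab]
  have hcard : (Finset.univ.filter (fun x => mk x = ω)).card
      * Nat.card (stabilizer G ω.out) = Nat.card G := by
    have : Fintype (orbit G ω.out) := Fintype.ofFinite _
    have : Fintype (stabilizer G ω.out) := Fintype.ofFinite _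
    have h5 := card_orbit_mul_card_stabilizer_eq_card_group G ω.out
    rw [Nat.card_eq_fintype_card, Nat.card_eq_fintype_card, ← h5]
    congr 1
    rw [← Fintype.card_subtype]
    refine Fintype.card_congr (Equiv.subtypeEquivRight fun x => ?_)
    constructor
    · intro h2
      have h3 : mk x = mk ω.out := by
        rw [h2]; exact (Quotient.out_eq ω).symm
      exact orbitRel_apply.mp (Quotient.exact h3)
    · intro h2
      have h3 : mk x = mk ω.out := Quotient.sound (orbitRel_apply.mpr h2)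
      rw [h3]; exact Quotient.out_eq ω
  rw [← hcard]
  have h6 : (Nat.card (stabilizer G ω.out) : ℂ) ≠ 0 := card_ne
  push_cast
  field_simp

/-- fixed-point counts of finite sets with hyperelementary stabilizers -/
lemma count_per (hχ : χ ∈ Irr G) (hβ : ∀ i ∈ I, ∃ u ∈ Ug N (m i), gmk hN hG χ u = β i)
    (hD : ∀ (K : Subgroup G) (μ : K →* ℂˣ), (∑ᶠ h : K, χ h * (((μ h)⁻¹ : ℂˣ) : ℂ)) ≠ 0 →
      ∃ i ∈ I, ¬ m i ∣ orderOf μ)
    {ℓ : ℕ} (hℓ : ℓ.Prime) {c : G → ℕ} (hc : HypPCount ℓ c) :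
    ∃ f ∈ Per I β, ∀ γ, pr (fun g => (c g : ℂ) * χ g) (cj hN hG χ γ) = f γ := by
  classical
  have : Fintype G := Fintype.ofFinite G
  obtain ⟨X, _, _, hX, hcX⟩ := hc
  have key : ∀ ω : Quotient (orbitRel G X), ∃ f ∈ Per I β, ∀ γ,
      pr (fun h : stabilizer G ω.out => χ h) (fun h : stabilizer G ω.out => cj hN hG χ γ h) = f γ :=
    fun ω => hyp_per hN hG hχ hβ hD hℓ (hX ω.out)
  choose f hf hf1 using key
  have : Fintype X := Fintype.ofFinite _
  refine ⟨∑ ω : Quotient (orbitRel G X), f ω, sum_mem fun ω _ => hf ω, fun γ => ?_⟩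
  rw [Finset.sum_apply, Int.cast_sum, pr_eq]
  have h1 : ∀ g : G, (c g : ℂ) * χ g * cj hN hG χ γ g⁻¹
      = χ g * cj hN hG χ γ g⁻¹ * (Nat.card {x : X // g • x = x} : ℂ) := by
    intro g
    rw [hcX]
    ring
  rw [Finset.sum_congr rfl (fun g _ => h1 g), sum_count (θ := fun g => χ g * cj hN hG χ γ g⁻¹) ?_ X,
    ← mul_assoc, inv_mul_cancel₀ card_ne, one_mul, finsum_eq_sum_of_fintype]
  · refine Finset.sum_congr rfl fun ω _ => ?_
    rw [← hf1 ω γ]
    rfl
  · intro g x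
    have h2 : (x * g * x⁻¹)⁻¹ = x * g⁻¹ * x⁻¹ := by group
    rw [h2, Irr.conj hχ, Irr.conj (cj_irr hN hG hχ γ)]

end hyp

section ideal

variable (G : Type) [Group G] [Finite G]

/-- the group generated by the fixed-point counts -/
def Cnt (ℓ : ℕ) : AddSubgroup (G → ℤ) :=
  AddSubgroup.closure {f | ∃ c : G → ℕ, HypPCount ℓ c ∧ f = fun g => (c g : ℤ)}

variable {G}

/-- a constant prime to `ℓ` -/
lemma exists_const {ℓ : ℕ} (hℓ : ℓ.Prime) : ∃ M : ℤ, ¬ (ℓ : ℤ) ∣ M ∧ (fun _ => M) ∈ Cnt G ℓ := by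
  classical
  have : Fintype G := Fintype.ofFinite G
  obtain ⟨F, hF, hF1⟩ := exists_all_prime_to (G := G) hℓ
  have hmul : ∀ f ∈ Cnt G ℓ, (fun g => f g * (F g : ℤ)) ∈ Cnt G ℓ := by
    let Φ : (G → ℤ) →+ (G → ℤ) := AddMonoidHom.mk' (fun f g => f g * (F g : ℤ)) (by
      intro a b
      funext g
      simp only [Pi.add_apply, add_mul])
    have h1 : Cnt G ℓ ≤ (Cnt G ℓ).comap Φ := by
      conv_lhs => rw [Cnt]
      rw [AddSubgroup.closure_le]
      rintro f ⟨c, hc, rfl⟩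
      apply AddSubgroup.subset_closure
      refine ⟨fun g => c g * F g, hc.mul hF, ?_⟩
      funext g
      change (c g : ℤ) * (F g : ℤ) = _
      push_cast
      rfl
    exact fun f hf => h1 hf
  have hFmem : (fun g => (F g : ℤ)) ∈ Cnt G ℓ := AddSubgroup.subset_closure ⟨F, hF, rfl⟩
  have key : ∀ T : Finset ℕ, (∀ v ∈ T, ¬ ℓ ∣ v) → ∃ M : ℤ, ¬ (ℓ : ℤ) ∣ M ∧
      (fun g => (∏ v ∈ T, ((F g : ℤ) - v)) - M) ∈ Cnt G ℓ := by
    intro T
    induction T using Finset.induction_on with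
    | empty =>
      intro _
      refine ⟨1, ?_, ?_⟩
      · intro h
        have h1 : (ℓ : ℤ) ∣ ((1 : ℕ) : ℤ) := by exact_mod_cast h
        have h2 := Int.natCast_dvd_natCast.mp h1
        exact hℓ.one_lt.ne' (Nat.dvd_one.mp h2)
      · simp only [Finset.prod_empty, sub_self]
        exact zero_mem _
    | insert v T hv ih =>
      intro hT
      obtain ⟨M, hM, hM1⟩ := ih (fun w hw => hT w (Finset.mem_insert_of_mem hw))
      have hvℓ := hT v (Finset.mem_insert_self _ _)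
      refine ⟨-(v : ℤ) * M, ?_, ?_⟩
      · intro h
        rw [neg_mul, dvd_neg] at h
        rcases (Nat.prime_iff_prime_int.mp hℓ).dvd_or_dvd h with h1 | h1
        · exact hvℓ (Int.natCast_dvd_natCast.mp h1)
        · exact hM h1
      · have h1 : (fun g => (∏ w ∈ insert v T, ((F g : ℤ) - w)) - (-(v : ℤ) * M))
            = (fun g => (fun g => (∏ w ∈ T, ((F g : ℤ) - w)) - M) g * (F g : ℤ))
              + M • (fun g => (F g : ℤ))
              + (-(v : ℤ)) • (fun g => (∏ w ∈ T, ((F g : ℤ) - w)) - M) := by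
          funext g
          rw [Finset.prod_insert hv]
          simp only [Pi.add_apply, Pi.smul_apply, smul_eq_mul]
          ring
        rw [h1]
        exact add_mem (add_mem (hmul _ hM1) (zsmul_mem hFmem _)) (zsmul_mem hM1 _)
  obtain ⟨M, hM, hM1⟩ := key (Finset.univ.image F) (by
    intro v hv
    obtain ⟨g, -, rfl⟩ := Finset.mem_image.mp hv
    exact hF1 g)
  refine ⟨M, hM, ?_⟩
  have h1 : (fun _ : G => M)
      = - (fun g => (∏ v ∈ Finset.univ.image F, ((F g : ℤ) - v)) - M) := by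
    funext g
    have h2 : ∏ v ∈ Finset.univ.image F, ((F g : ℤ) - v) = 0 :=
      Finset.prod_eq_zero (Finset.mem_image.mpr ⟨g, Finset.mem_univ g, rfl⟩) (sub_self _)
    simp only [Pi.neg_apply, h2]
    ring
  rw [h1]
  exact neg_mem hM1

end ideal

section main

variable {G : Type} [Group G] [Finite G] {N : ℕ} {ι : Type*} {I : Finset ι} {m : ι → ℕ}
  (hN : 0 < N) (hG : Nat.card G ∣ N) {χ : G → ℂ} {β : ι → Gam hN hG χ}

/-- **Integrality.** If every linear constituent of a restriction of `χ` has order not divisible by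
some `m i`, then a multiple prime to `ℓ` of the delta function on the Galois orbit of `χ` is a
sum of functions with periods. -/
theorem delta_mem (hχ : χ ∈ Irr G)
    (hβ : ∀ i ∈ I, ∃ u ∈ Ug N (m i), gmk hN hG χ u = β i)
    (hD : ∀ (K : Subgroup G) (μ : K →* ℂˣ), (∑ᶠ h : K, χ h * (((μ h)⁻¹ : ℂˣ) : ℂ)) ≠ 0 →
      ∃ i ∈ I, ¬ m i ∣ orderOf μ)
    {ℓ : ℕ} (hℓ : ℓ.Prime) :
    ∃ (M : ℤ) (f : Gam hN hG χ → ℤ), ¬ (ℓ : ℤ) ∣ M ∧ f ∈ Per I β ∧ f 1 = M ∧
      ∀ γ, γ ≠ 1 → f γ = 0 := by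
  classical
  have : Fintype G := Fintype.ofFinite G
  obtain ⟨M, hM, hM1⟩ := exists_const (G := G) hℓ
  have key : ∀ j ∈ Cnt G ℓ, ∃ f ∈ Per I β, ∀ γ,
      pr (fun g => (j g : ℂ) * χ g) (cj hN hG χ γ) = f γ := by
    intro j hj
    induction hj using AddSubgroup.closure_induction with
    | mem j hj =>
      obtain ⟨c, hc, rfl⟩ := hj
      obtain ⟨f, hf, hf1⟩ := count_per hN hG hχ hβ hD hℓ hc
      refine ⟨f, hf, fun γ => ?_⟩
      rw [← hf1 γ]
      simp only [Int.cast_natCast]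
    | zero =>
      refine ⟨0, zero_mem _, fun γ => ?_⟩
      rw [pr_eq]
      simp
    | add a b _ _ ha hb =>
      obtain ⟨f, hf, hf1⟩ := ha
      obtain ⟨f', hf', hf1'⟩ := hb
      refine ⟨f + f', add_mem hf hf', fun γ => ?_⟩
      rw [Pi.add_apply, Int.cast_add, ← hf1, ← hf1', ← pr_add]
      congr 1
      funext g
      simp only [Pi.add_apply, Int.cast_add]
      ring
    | neg a _ ha =>
      obtain ⟨f, hf, hf1⟩ := ha
      refine ⟨-f, neg_mem hf, fun γ => ?_⟩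
      rw [Pi.neg_apply, Int.cast_neg, ← hf1, ← pr_neg]
      congr 1
      funext g
      simp only [Pi.neg_apply, Int.cast_neg]
      ring
  obtain ⟨f, hf, hf1⟩ := key _ hM1
  have h1 : ∀ γ, pr (fun g => (M : ℂ) * χ g) (cj hN hG χ γ) = M * pr χ (cj hN hG χ γ) := by
    intro γ
    rw [pr_eq, pr_eq]
    have h2 : ∀ g : G, (M : ℂ) * χ g * cj hN hG χ γ g⁻¹ = M * (χ g * cj hN hG χ γ g⁻¹) :=
      fun g => mul_assoc _ _ _
    rw [Finset.sum_congr rfl (fun g _ => h2 g), ← Finset.mul_sum]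
    ring
  refine ⟨M, f, hM, hf, ?_, fun γ hγ => ?_⟩
  · have h2 := hf1 1
    rw [h1, (cj_eq_iff hN hG χ 1).mpr rfl, pr_self hχ, mul_one] at h2
    exact_mod_cast h2.symm
  · have h2 := hf1 γ
    have hne : χ ≠ cj hN hG χ γ := fun h => hγ ((cj_eq_iff hN hG χ γ).mp h.symm)
    rw [h1, pr_ne hχ (cj_irr hN hG hχ γ) hne, mul_zero] at h2
    exact_mod_cast h2.symm

/-- the criterion with a modular character of the Galois group -/
theorem crit {F : Type*} [Field F] {ℓ : ℕ} [CharP F ℓ] (hℓ : ℓ.Prime) (hχ : χ ∈ Irr G)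
    (hβ : ∀ i ∈ I, ∃ u ∈ Ug N (m i), gmk hN hG χ u = β i)
    (ψ : Gam hN hG χ →* Fˣ) (hψ : ∀ i ∈ I, ψ (β i) ≠ 1 ∨ ℓ ∣ orderOf (β i)) :
    ∃ (K : Subgroup G) (μ : K →* ℂˣ), (∑ᶠ h : K, χ h * (((μ h)⁻¹ : ℂˣ) : ℂ)) ≠ 0 ∧
      ∀ i ∈ I, m i ∣ orderOf μ := by
  by_contra hcon
  push Not at hcon
  have hfin := gam_finite hN hG χ
  obtain ⟨M, f, hM, hf, h1, h0⟩ := delta_mem hN hG hχ hβ hcon hℓ
  exact hM (per_delta ψ hψ hf h1 h0)

/-- the criterion with few elements of each prime order -/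
theorem crit_count (hχ : χ ∈ Irr G)
    (hβ : ∀ i ∈ I, ∃ u ∈ Ug N (m i), gmk hN hG χ u = β i)
    (hp : ∀ i ∈ I, (orderOf (β i)).Prime) {ℓ : ℕ} (hℓ : ℓ.Prime)
    (hc : ∀ q : ℕ, q.Prime → q ≠ ℓ → (I.filter (fun i => orderOf (β i) = q)).card ≤ q) :
    ∃ (K : Subgroup G) (μ : K →* ℂˣ), (∑ᶠ h : K, χ h * (((μ h)⁻¹ : ℂˣ) : ℂ)) ≠ 0 ∧
      ∀ i ∈ I, m i ∣ orderOf μ := by
  have hfin := gam_finite hN hG χ
  have : Fact ℓ.Prime := ⟨hℓ⟩
  obtain ⟨ψ, hψ⟩ := per_count hp hc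
  have : CharP (AlgebraicClosure (ZMod ℓ)) ℓ := inferInstance
  exact crit hN hG hℓ hχ hβ ψ hψ

end main

end Pool.Agent.Helper606_LC
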