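import Mathlib
import Pool.Agent.Helper606_LC.Comb

/-!
# Characters missing few elements of prime order
-/

set_option autoImplicit false
set_option linter.unusedSectionVars false

namespace Pool.Agent.Helper606_LC

section avg

variable {P : Type*} [CommGroup P] {F : Type*} [Field F] {ι : Type*}

lemma card_triv [Finite (P →* Fˣ)] (hsep : ∀ x : P, x ≠ 1 → ∃ φ : P →* Fˣ, φ x ≠ 1) {q : ℕ}
    (hq : q.Prime) {x : P} (hx : orderOf x = q) :
    Nat.card {ψ : P →* Fˣ // ψ x = 1} * q ≤ Nat.card (P →* Fˣ) := by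
  let ev : (P →* Fˣ) →* Fˣ :=
    { toFun := fun ψ => ψ x
      map_one' := rfl
      map_mul' := fun _ _ => rfl }
  have h1 := Subgroup.card_eq_card_quotient_mul_card_subgroup ev.ker
  have h2 : Nat.card ((P →* Fˣ) ⧸ ev.ker) = Nat.card ev.range :=
    Nat.card_congr (QuotientGroup.quotientKerEquivRange ev).toEquiv
  have h3 : Nat.card {ψ : P →* Fˣ // ψ x = 1} = Nat.card ev.ker := Nat.card_congr
    { toFun := fun ψ => ⟨ψ.1, ψ.2⟩
      invFun := fun ψ => ⟨ψ.1, ψ.2⟩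
      left_inv := fun _ => rfl
      right_inv := fun _ => rfl }
  have hx1 : x ≠ 1 := by
    rintro rfl
    rw [orderOf_one] at hx
    exact hq.one_lt.ne hx
  obtain ⟨φ, hφ⟩ := hsep x hx1
  have h4 : orderOf (φ x) = q := by
    have h5 : orderOf (φ x) ∣ q := by rw [← hx]; exact orderOf_map_dvd φ x
    rcases (Nat.dvd_prime hq).mp h5 with h6 | h6
    · exact absurd (orderOf_eq_one_iff.mp h6) hφ
    · exact h6
  have hfr : Finite ev.range := Set.finite_range ev
  have h5 : q ≤ Nat.card ev.range := by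
    have h6 : orderOf (⟨φ x, φ, rfl⟩ : ev.range) = q := by
      rw [← h4, ← Subgroup.orderOf_coe]
    rw [← h6]
    exact Nat.le_of_dvd Nat.card_pos (orderOf_dvd_natCard _)
  rw [h3, h1, h2, mul_comm]
  exact Nat.mul_le_mul_right _ h5

/-- averaging over the dual group -/
lemma avg_char [Finite (P →* Fˣ)] (hsep : ∀ x : P, x ≠ 1 → ∃ φ : P →* Fˣ, φ x ≠ 1) {q : ℕ}
    (hq : q.Prime) (T : Finset ι) (β : ι → P) (hT : ∀ i ∈ T, orderOf (β i) = q) (w : ι → ℕ)
    (hw : ∀ i ∈ T, 0 < w i) (hne : T.Nonempty) [DecidableEq F] :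
    ∃ ψ : P →* Fˣ, q * ∑ i ∈ T.filter (fun i => ψ (β i) = 1), w i + 1 ≤ ∑ i ∈ T, w i := by
  classical
  by_contra hcon
  push Not at hcon
  have : Fintype (P →* Fˣ) := Fintype.ofFinite _
  have hW : 0 < ∑ i ∈ T, w i := Finset.sum_pos hw hne
  set W := ∑ i ∈ T, w i with hWdef
  -- the sum over all characters
  have h1 : ∑ ψ : P →* Fˣ, ∑ i ∈ T.filter (fun i => ψ (β i) = 1), w i
      = ∑ i ∈ T, w i * Nat.card {ψ : P →* Fˣ // ψ (β i) = 1} := by
    have h2 : ∀ ψ : P →* Fˣ, ∑ i ∈ T.filter (fun i => ψ (β i) = 1), w i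
        = ∑ i ∈ T, if ψ (β i) = 1 then w i else 0 := fun ψ => Finset.sum_filter _ _
    rw [Finset.sum_congr rfl (fun ψ _ => h2 ψ), Finset.sum_comm]
    refine Finset.sum_congr rfl fun i _ => ?_
    rw [← Finset.sum_filter, Finset.sum_const, smul_eq_mul, mul_comm]
    congr 1
    rw [Nat.card_eq_fintype_card, Fintype.card_subtype]
  have h3 : q * ∑ ψ : P →* Fˣ, ∑ i ∈ T.filter (fun i => ψ (β i) = 1), w i
      ≤ W * Nat.card (P →* Fˣ) := by
    rw [h1, Finset.mul_sum, hWdef, Finset.sum_mul]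
    refine Finset.sum_le_sum fun i hi => ?_
    have h4 := card_triv hsep hq (hT i hi)
    calc q * (w i * Nat.card {ψ : P →* Fˣ // ψ (β i) = 1})
        = w i * (Nat.card {ψ : P →* Fˣ // ψ (β i) = 1} * q) := by ring
      _ ≤ w i * Nat.card (P →* Fˣ) := Nat.mul_le_mul_left _ h4
  have h5 : (T.filter (fun i => (1 : P →* Fˣ) (β i) = 1)) = T :=
    Finset.filter_true_of_mem fun _ _ => rfl
  rw [← Finset.add_sum_erase _ _ (Finset.mem_univ (1 : P →* Fˣ)), h5, mul_add, ← hWdef] at h3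
  have h6 : ∑ ψ ∈ Finset.univ.erase (1 : P →* Fˣ), W
      ≤ ∑ ψ ∈ Finset.univ.erase (1 : P →* Fˣ),
        q * ∑ i ∈ T.filter (fun i => ψ (β i) = 1), w i := by
    refine Finset.sum_le_sum fun ψ _ => ?_
    have := hcon ψ
    omega
  rw [Finset.sum_const, Finset.card_erase_of_mem (Finset.mem_univ _), Finset.card_univ,
    ← Nat.card_eq_fintype_card, smul_eq_mul, ← Finset.mul_sum] at h6
  have h7 : 0 < Nat.card (P →* Fˣ) := Nat.card_pos
  have h8 := hq.two_le
  obtain ⟨D, hD⟩ : ∃ D, Nat.card (P →* Fˣ) = D + 1 := ⟨Nat.card (P →* Fˣ) - 1, by omega⟩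
  rw [hD, Nat.add_sub_cancel] at h6
  rw [hD] at h3
  have h9 : 2 * W ≤ q * W := Nat.mul_le_mul_right _ h8
  have h10 : W * (D + 1) = D * W + W := by ring
  omega

/-- characters missing few elements of each prime order -/
lemma miss_char [Finite (P →* Fˣ)] (hsep : ∀ x : P, x ≠ 1 → ∃ φ : P →* Fˣ, φ x ≠ 1)
    (T : Finset ι) (β : ι → P) (hT : ∀ i ∈ T, (orderOf (β i)).Prime) (w : ι → ℕ)
    (hw : ∀ i ∈ T, 0 < w i) [DecidableEq F] :
    ∃ ψ : P →* Fˣ, ∀ q ∈ T.image (fun i => orderOf (β i)),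
      q * ∑ i ∈ T.filter (fun i => orderOf (β i) = q ∧ ψ (β i) = 1), w i + 1
        ≤ ∑ i ∈ T.filter (fun i => orderOf (β i) = q), w i := by
  classical
  set Q : Finset ℕ := T.image (fun i => orderOf (β i)) with hQdef
  have hQ : ∀ q ∈ Q, q.Prime := by
    intro q hq
    obtain ⟨t, ht, rfl⟩ := Finset.mem_image.mp hq
    exact hT t ht
  have h1 : ∀ q : ℕ, ∃ ψ : P →* Fˣ, q ∈ Q →
      q * ∑ i ∈ (T.filter (fun i => orderOf (β i) = q)).filter (fun i => ψ (β i) = 1), w i + 1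
        ≤ ∑ i ∈ T.filter (fun i => orderOf (β i) = q), w i := by
    intro q
    by_cases hq : q ∈ Q
    · obtain ⟨ψ, hψ⟩ := avg_char hsep (hQ q hq) (T.filter (fun i => orderOf (β i) = q)) β
        (fun i hi => (Finset.mem_filter.mp hi).2) w
        (fun i hi => hw i (Finset.mem_filter.mp hi).1) (by
          obtain ⟨t, ht, htq⟩ := Finset.mem_image.mp hq
          exact ⟨t, Finset.mem_filter.mpr ⟨ht, htq⟩⟩)
      exact ⟨ψ, fun _ => hψ⟩
    · exact ⟨1, fun h => absurd h hq⟩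
  choose ψ hψ using h1
  set Ψ : P →* Fˣ := ∏ q ∈ Q, ψ q ^ (∏ r ∈ Q.erase q, r) with hΨ
  have key : ∀ i ∈ T, Ψ (β i) = 1 ↔ ψ (orderOf (β i)) (β i) = 1 := by
    intro i hi
    set r := orderOf (β i) with hr
    have hrQ : r ∈ Q := Finset.mem_image.mpr ⟨i, hi, rfl⟩
    have hrp := hQ r hrQ
    have h2 : Ψ (β i) = ψ r (β i) ^ (∏ r ∈ Q.erase r, r) := by
      rw [hΨ, MonoidHom.finsetProd_apply, Finset.prod_eq_single r]
      · rfl
      · intro q hq hqr
        obtain ⟨m, hm⟩ : r ∣ ∏ r ∈ Q.erase q, r :=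
          Finset.dvd_prod_of_mem _ (Finset.mem_erase.mpr ⟨hqr.symm, hrQ⟩)
        rw [MonoidHom.pow_apply, hm, pow_mul, ← map_pow, hr, pow_orderOf_eq_one, map_one, one_pow]
      · intro h
        exact absurd hrQ h
    rw [h2]
    constructor
    · intro h4
      have h5 : orderOf (ψ r (β i)) ∣ ∏ r ∈ Q.erase r, r := orderOf_dvd_of_pow_eq_one h4
      have h6 : orderOf (ψ r (β i)) ∣ r := by
        rw [hr]; exact orderOf_map_dvd (ψ (orderOf (β i))) (β i)
      rcases (Nat.dvd_prime hrp).mp h6 with h7 | h7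
      · exact orderOf_eq_one_iff.mp h7
      · exfalso
        rw [h7] at h5
        obtain ⟨q, hq, hrq⟩ := (Prime.dvd_finsetProd_iff hrp.prime _).mp h5
        have hq' := Finset.mem_erase.mp hq
        exact hq'.1 ((Nat.prime_dvd_prime_iff_eq hrp (hQ q hq'.2)).mp hrq).symm
    · intro h4
      rw [h4, one_pow]
  refine ⟨Ψ, fun q hq => ?_⟩
  have h3 : T.filter (fun i => orderOf (β i) = q ∧ Ψ (β i) = 1)
      = (T.filter (fun i => orderOf (β i) = q)).filter (fun i => ψ q (β i) = 1) := by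
    ext i
    rw [Finset.mem_filter, Finset.mem_filter, Finset.mem_filter]
    constructor
    · rintro ⟨hi, rfl, h4⟩
      exact ⟨⟨hi, rfl⟩, (key i hi).mp h4⟩
    · rintro ⟨⟨hi, rfl⟩, h4⟩
      exact ⟨hi, rfl, (key i hi).mpr h4⟩
  rw [h3]
  exact hψ q hq

end avg

/-- the numerical inequality -/
lemma five_le (Q : Finset ℕ) (hQ : ∀ q ∈ Q, q.Prime) {r : ℕ} (hr : r ∈ Q) (W M S : ℕ → ℕ)
    (hW : ∀ q ∈ Q, q * M q + 1 ≤ W q) (hM : ∀ q ∈ Q, M q ≤ M r)
    (hS : ∀ q ∈ Q.erase r, S q ≤ M q) :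
    ∑ q ∈ Q.erase r, S q = 0 ∨ 5 * ∑ q ∈ Q.erase r, S q + 2 ≤ ∑ q ∈ Q, W q := by
  classical
  rcases (Q.erase r).eq_empty_or_nonempty with he | hne
  · left; rw [he, Finset.sum_empty]
  right
  let c : ℕ → ℕ := fun q => if q = 2 then 3 else if q = 3 then 2 else 0
  have hc : ∀ q ∈ Q, 5 ≤ q + c q := by
    intro q hq
    have hq' := hQ q hq
    by_cases h2 : q = 2
    · subst h2; simp [c]
    by_cases h3 : q = 3
    · subst h3; simp [c]
    have h4 := hq'.two_le
    have h5 : q ≠ 4 := by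
      rintro rfl
      exact absurd hq' (by norm_num)
    omega
  have hcr : ∑ q ∈ Q.erase r, c q ≤ r := by
    have h1 : ∑ q ∈ Q.erase r, c q ≤ ∑ q ∈ ({2, 3} : Finset ℕ).erase r, c q := by
      have h2 : ∑ q ∈ Q.erase r, c q = ∑ q ∈ (Q.erase r).filter (fun q => q = 2 ∨ q = 3), c q := by
        rw [Finset.sum_filter]
        refine Finset.sum_congr rfl fun q _ => ?_
        by_cases h3 : q = 2 ∨ q = 3
        · rw [if_pos h3]
        · rw [if_neg h3]
          push Not at h3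
          simp [c, h3.1, h3.2]
      rw [h2]
      apply Finset.sum_le_sum_of_subset
      intro q hq
      obtain ⟨hq1, hq2⟩ := Finset.mem_filter.mp hq
      rw [Finset.mem_erase]
      exact ⟨(Finset.mem_erase.mp hq1).1, by simpa using hq2⟩
    refine h1.trans ?_
    by_cases h2 : r = 2
    · subst h2; decide
    by_cases h3 : r = 3
    · subst h3; decide
    have h4 : ({2, 3} : Finset ℕ).erase r = {2, 3} := by
      apply Finset.erase_eq_of_notMem
      simp [h2, h3]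
    rw [h4]
    have h5 := (hQ r hr).two_le
    have h6 : r ≠ 4 := by
      rintro rfl
      exact absurd (hQ 4 hr) (by norm_num)
    have h7 : ∑ q ∈ ({2, 3} : Finset ℕ), c q = 5 := by decide
    rw [h7]
    omega
  have h1 : 5 * ∑ q ∈ Q.erase r, S q ≤ ∑ q ∈ Q.erase r, q * M q + r * M r := by
    calc 5 * ∑ q ∈ Q.erase r, S q = ∑ q ∈ Q.erase r, 5 * S q := Finset.mul_sum _ _ _
      _ ≤ ∑ q ∈ Q.erase r, (q * M q + c q * M r) := by
          refine Finset.sum_le_sum fun q hq => ?_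
          have h2 := hc q (Finset.mem_of_mem_erase hq)
          have h3 := hM q (Finset.mem_of_mem_erase hq)
          calc 5 * S q ≤ (q + c q) * M q := Nat.mul_le_mul h2 (hS q hq)
            _ = q * M q + c q * M q := by ring
            _ ≤ q * M q + c q * M r := Nat.add_le_add_left (Nat.mul_le_mul_left _ h3) _
      _ = ∑ q ∈ Q.erase r, q * M q + (∑ q ∈ Q.erase r, c q) * M r := by
          rw [Finset.sum_add_distrib, Finset.sum_mul]
      _ ≤ _ := Nat.add_le_add_left (Nat.mul_le_mul_right _ hcr) _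
  have h2 : ∑ q ∈ Q.erase r, q * M q + (Q.erase r).card ≤ ∑ q ∈ Q.erase r, W q := by
    rw [Finset.card_eq_sum_ones, ← Finset.sum_add_distrib]
    exact Finset.sum_le_sum fun q hq => hW q (Finset.mem_of_mem_erase hq)
  have h3 := hW r hr
  have h4 := Finset.add_sum_erase Q W hr
  have h5 : 1 ≤ (Q.erase r).card := hne.card_pos
  omega

/-- characters missing few elements, weighted form -/
theorem per_weight {Γ : Type*} [CommGroup Γ] [Finite Γ] {ι : Type*} {I : Finset ι} {β : ι → Γ}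
    (hβ : ∀ i ∈ I, (orderOf (β i)).Prime) (w : ι → ℕ) (hw : ∀ i ∈ I, 0 < w i) :
    ∃ ℓ : ℕ, ∃ _ : Fact ℓ.Prime, ∃ (ψ : Γ →* (AlgebraicClosure (ZMod ℓ))ˣ) (E : Finset ι), E ⊆ I ∧
      (∀ i ∈ I, i ∉ E → ψ (β i) ≠ 1 ∨ ℓ ∣ orderOf (β i)) ∧
      (E = ∅ ∨ 5 * ∑ i ∈ E, w i + 2 ≤ ∑ i ∈ I, w i) := by
  classical
  rcases I.eq_empty_or_nonempty with he | hne
  · subst he
    exact ⟨2, ⟨Nat.prime_two⟩, 1, ∅, Finset.Subset.refl _, by simp, Or.inl rfl⟩
  set Q : Finset ℕ := I.image (fun i => orderOf (β i)) with hQdef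
  have hQ : ∀ q ∈ Q, q.Prime := by
    intro q hq
    obtain ⟨t, ht, rfl⟩ := Finset.mem_image.mp hq
    exact hβ t ht
  let W : ℕ → ℕ := fun q => ∑ i ∈ I.filter (fun i => orderOf (β i) = q), w i
  let M : ℕ → ℕ := fun q => (W q - 1) / q
  have hWp : ∀ q ∈ Q, 0 < W q := by
    intro q hq
    obtain ⟨t, ht, rfl⟩ := Finset.mem_image.mp hq
    exact Finset.sum_pos (fun i hi => hw i (Finset.mem_filter.mp hi).1)
      ⟨t, Finset.mem_filter.mpr ⟨ht, rfl⟩⟩
  have hWM : ∀ q ∈ Q, q * M q + 1 ≤ W q := by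
    intro q hq
    have h1 := Nat.mul_div_le (W q - 1) q
    have h2 := hWp q hq
    change q * ((W q - 1) / q) + 1 ≤ W q
    omega
  obtain ⟨ℓ, hℓQ, hmax⟩ := Finset.exists_max_image Q M (hne.image _)
  have hℓ : ℓ.Prime := hQ ℓ hℓQ
  have hℓF : Fact ℓ.Prime := ⟨hℓ⟩
  -- the part of order prime to `ℓ`
  obtain ⟨a, m, hm, ham⟩ := Nat.exists_eq_pow_mul_and_not_dvd (Nat.card_pos (α := Γ)).ne' ℓ
    hℓ.ne_one
  let π : Γ →* Γ := powMonoidHom (ℓ ^ a)
  let P : Subgroup Γ := π.range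
  have hPm : ∀ x : P, x ^ m = 1 := by
    rintro ⟨x, y, rfl⟩
    apply Subtype.ext
    change (y ^ (ℓ ^ a)) ^ m = 1
    rw [← pow_mul, ← ham, pow_card_eq_one']
  have hexp : Monoid.exponent P ∣ m := Monoid.exponent_dvd_of_forall_pow_eq_one hPm
  have hne' : NeZero ((Monoid.exponent P : ℕ) : AlgebraicClosure (ZMod ℓ)) := by
    refine ⟨fun h => hm ?_⟩
    exact ((CharP.cast_eq_zero_iff (AlgebraicClosure (ZMod ℓ)) ℓ _).mp h).trans hexp
  have hsep : ∀ x : P, x ≠ 1 → ∃ φ : P →* (AlgebraicClosure (ZMod ℓ))ˣ, φ x ≠ 1 := by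
    intro x hx
    exact CommGroup.exists_apply_ne_one_of_hasEnoughRootsOfUnity P _ hx
  have hfin : Finite (P →* (AlgebraicClosure (ZMod ℓ))ˣ) := Finite.of_equiv P
    (CommGroup.monoidHom_mulEquiv_of_hasEnoughRootsOfUnity P (AlgebraicClosure (ZMod ℓ))).some.symm.toEquiv
  let J := I.filter (fun i => orderOf (β i) ≠ ℓ)
  have hord : ∀ i ∈ J, orderOf (π.rangeRestrict (β i)) = orderOf (β i) := by
    intro i hi
    obtain ⟨hi, hil⟩ := Finset.mem_filter.mp hi
    have h1 : orderOf (π.rangeRestrict (β i)) ∣ orderOf (β i) := orderOf_map_dvd _ _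
    rcases (Nat.dvd_prime (hβ i hi)).mp h1 with h2 | h2
    · exfalso
      have h3 : π.rangeRestrict (β i) = 1 := orderOf_eq_one_iff.mp h2
      have h4 : β i ^ (ℓ ^ a) = 1 := congrArg Subtype.val h3
      have h5 : orderOf (β i) ∣ ℓ ^ a := orderOf_dvd_of_pow_eq_one h4
      exact hil ((Nat.prime_dvd_prime_iff_eq (hβ i hi) hℓ).mp ((hβ i hi).dvd_of_dvd_pow h5))
    · exact h2
  obtain ⟨ψ, hψ⟩ := miss_char hsep J (fun i => π.rangeRestrict (β i)) (by
    intro i hi
    rw [hord i hi]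
    exact hβ i (Finset.mem_filter.mp hi).1) w (fun i hi => hw i (Finset.mem_filter.mp hi).1)
  let E : Finset ι := J.filter (fun i => ψ (π.rangeRestrict (β i)) = 1)
  let S : ℕ → ℕ := fun q => ∑ i ∈ E.filter (fun i => orderOf (β i) = q), w i
  have hJq : ∀ q, q ≠ ℓ → J.filter (fun i => orderOf (π.rangeRestrict (β i)) = q)
      = I.filter (fun i => orderOf (β i) = q) := by
    intro q hq
    ext i
    constructor
    · intro h0
      obtain ⟨hi, h1⟩ := Finset.mem_filter.mp h0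
      rw [hord i hi] at h1
      exact Finset.mem_filter.mpr ⟨(Finset.mem_filter.mp hi).1, h1⟩
    · intro h0
      obtain ⟨hi, h1⟩ := Finset.mem_filter.mp h0
      have h2 : i ∈ J := Finset.mem_filter.mpr ⟨hi, by rw [h1]; exact hq⟩
      exact Finset.mem_filter.mpr ⟨h2, by rw [hord i h2]; exact h1⟩
  have hS : ∀ q ∈ Q.erase ℓ, S q ≤ M q := by
    intro q hq
    obtain ⟨hqℓ, hqQ⟩ := Finset.mem_erase.mp hq
    obtain ⟨t, ht, htq⟩ := Finset.mem_image.mp hqQ
    have htJ : t ∈ J := Finset.mem_filter.mpr ⟨ht, by rw [htq]; exact hqℓ⟩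
    have h1 := hψ q (Finset.mem_image.mpr ⟨t, htJ, by
      change orderOf (π.rangeRestrict (β t)) = q
      rw [hord t htJ]; exact htq⟩)
    rw [hJq q hqℓ] at h1
    have h2 : J.filter (fun i => orderOf (π.rangeRestrict (β i)) = q ∧
        ψ (π.rangeRestrict (β i)) = 1) = E.filter (fun i => orderOf (β i) = q) := by
      ext i
      constructor
      · intro h0
        obtain ⟨hi, h3, h4⟩ := Finset.mem_filter.mp h0
        rw [hord i hi] at h3
        exact Finset.mem_filter.mpr ⟨Finset.mem_filter.mpr ⟨hi, h4⟩, h3⟩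
      · intro h0
        obtain ⟨h5, h3⟩ := Finset.mem_filter.mp h0
        obtain ⟨hi, h4⟩ := Finset.mem_filter.mp h5
        exact Finset.mem_filter.mpr ⟨hi, by rw [hord i hi]; exact h3, h4⟩
    rw [h2] at h1
    change S q ≤ (W q - 1) / q
    rw [Nat.le_div_iff_mul_le (hQ q hqQ).pos]
    have h3 : q * S q + 1 ≤ W q := h1
    have h4 : S q * q = q * S q := mul_comm _ _
    omega
  have hfive := five_le Q hQ hℓQ W M S hWM hmax hS
  have hEsum : ∑ i ∈ E, w i = ∑ q ∈ Q.erase ℓ, S q := by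
    rw [← Finset.sum_fiberwise_of_maps_to (s := E) (t := Q.erase ℓ) (g := fun i => orderOf (β i))]
    intro i hi
    obtain ⟨hi1, -⟩ := Finset.mem_filter.mp hi
    obtain ⟨hi2, hi3⟩ := Finset.mem_filter.mp hi1
    exact Finset.mem_erase.mpr ⟨hi3, Finset.mem_image.mpr ⟨i, hi2, rfl⟩⟩
  have hIsum : ∑ i ∈ I, w i = ∑ q ∈ Q, W q := by
    rw [← Finset.sum_fiberwise_of_maps_to (s := I) (t := Q) (g := fun i => orderOf (β i))]
    intro i hi
    exact Finset.mem_image.mpr ⟨i, hi, rfl⟩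
  refine ⟨ℓ, hℓF, ψ.comp π.rangeRestrict, E, ?_, ?_, ?_⟩
  · exact (Finset.filter_subset _ _).trans (Finset.filter_subset _ _)
  · intro i hi hiE
    by_cases hil : orderOf (β i) = ℓ
    · right; rw [hil]
    · left
      intro h1
      exact hiE (Finset.mem_filter.mpr ⟨Finset.mem_filter.mpr ⟨hi, hil⟩, h1⟩)
  · rw [hEsum, hIsum]
    rcases hfive with h1 | h1
    · left
      rw [← hEsum] at h1
      rw [Finset.eq_empty_iff_forall_notMem]
      intro i hi
      have h2 := Finset.sum_eq_zero_iff.mp h1 i hi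
      have h3 := hw i (Finset.mem_filter.mp (Finset.mem_filter.mp hi).1).1
      omega
    · right; exact h1

end Pool.Agent.Helper606_LC
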