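import Mathlib
import Pool.Agent.Helper606_LC.Comb2

/-!
# Characters of finite abelian groups and involutions
-/

set_option autoImplicit false
set_option linter.unusedSectionVars false

namespace Pool.Agent.Helper606_LC

section sep

variable {Γ : Type*} [CommGroup Γ] [Finite Γ] {ℓ : ℕ} [hℓF : Fact ℓ.Prime]

/-- separation of elements by characters -/
lemma sep_char {x : Γ} (hx : x ≠ 1) (hxℓ : (orderOf x).Coprime ℓ) :
    ∃ φ : Γ →* (AlgebraicClosure (ZMod ℓ))ˣ, φ x ≠ 1 := by
  classical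
  have hℓ : ℓ.Prime := hℓF.out
  obtain ⟨a, m, hm, ham⟩ := Nat.exists_eq_pow_mul_and_not_dvd (Nat.card_pos (α := Γ)).ne' ℓ
    hℓ.ne_one
  let π : Γ →* Γ := powMonoidHom (ℓ ^ a)
  let P : Subgroup Γ := π.range
  have hPm : ∀ x : P, x ^ m = 1 := by
    rintro ⟨x, y, rfl⟩
    apply Subtype.ext
    change (y ^ (ℓ ^ a)) ^ m = 1
    rw [← pow_mul, ← ham, pow_card_eq_one']
  have hexp : Monoid.exponent P ∣ m := Monoid.exponent_dvd_of_forall_pow_eq_one hPm
  have hne : NeZero ((Monoid.exponent P : ℕ) : AlgebraicClosure (ZMod ℓ)) := by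
    refine ⟨fun h => hm ?_⟩
    exact ((CharP.cast_eq_zero_iff (AlgebraicClosure (ZMod ℓ)) ℓ _).mp h).trans hexp
  have hx1 : π.rangeRestrict x ≠ 1 := by
    intro h
    have h1 : x ^ (ℓ ^ a) = 1 := congrArg Subtype.val h
    have h2 : orderOf x ∣ ℓ ^ a := orderOf_dvd_of_pow_eq_one h1
    have h3 : orderOf x = 1 := Nat.Coprime.eq_one_of_dvd (Nat.Coprime.pow_right a hxℓ) h2
    exact hx (orderOf_eq_one_iff.mp h3)
  obtain ⟨φ, hφ⟩ := CommGroup.exists_apply_ne_one_of_hasEnoughRootsOfUnity P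
    (AlgebraicClosure (ZMod ℓ)) hx1
  exact ⟨φ.comp π.rangeRestrict, hφ⟩

/-- characters missing few elements of each prime order -/
lemma miss_gam {ι : Type*} (T : Finset ι) (β : ι → Γ) (hT : ∀ i ∈ T, (orderOf (β i)).Prime)
    (hTℓ : ∀ i ∈ T, orderOf (β i) ≠ ℓ) [DecidableEq (AlgebraicClosure (ZMod ℓ))] :
    ∃ ψ : Γ →* (AlgebraicClosure (ZMod ℓ))ˣ, ∀ i ∈ T,
      orderOf (β i) * (T.filter (fun j => orderOf (β j) = orderOf (β i) ∧ ψ (β j) = 1)).card + 1
        ≤ (T.filter (fun j => orderOf (β j) = orderOf (β i))).card := by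
  classical
  have hℓ : ℓ.Prime := hℓF.out
  obtain ⟨a, m, hm, ham⟩ := Nat.exists_eq_pow_mul_and_not_dvd (Nat.card_pos (α := Γ)).ne' ℓ
    hℓ.ne_one
  let π : Γ →* Γ := powMonoidHom (ℓ ^ a)
  let P : Subgroup Γ := π.range
  have hPm : ∀ x : P, x ^ m = 1 := by
    rintro ⟨x, y, rfl⟩
    apply Subtype.ext
    change (y ^ (ℓ ^ a)) ^ m = 1
    rw [← pow_mul, ← ham, pow_card_eq_one']
  have hexp : Monoid.exponent P ∣ m := Monoid.exponent_dvd_of_forall_pow_eq_one hPm
  have hne : NeZero ((Monoid.exponent P : ℕ) : AlgebraicClosure (ZMod ℓ)) := by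
    refine ⟨fun h => hm ?_⟩
    exact ((CharP.cast_eq_zero_iff (AlgebraicClosure (ZMod ℓ)) ℓ _).mp h).trans hexp
  have hsep : ∀ x : P, x ≠ 1 → ∃ φ : P →* (AlgebraicClosure (ZMod ℓ))ˣ, φ x ≠ 1 := by
    intro x hx
    exact CommGroup.exists_apply_ne_one_of_hasEnoughRootsOfUnity P _ hx
  have hfin : Finite (P →* (AlgebraicClosure (ZMod ℓ))ˣ) := Finite.of_equiv P
    (CommGroup.monoidHom_mulEquiv_of_hasEnoughRootsOfUnity P (AlgebraicClosure (ZMod ℓ))).some.symm.toEquiv
  have hord : ∀ i ∈ T, orderOf (π.rangeRestrict (β i)) = orderOf (β i) := by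
    intro i hi
    have h1 : orderOf (π.rangeRestrict (β i)) ∣ orderOf (β i) := orderOf_map_dvd _ _
    rcases (Nat.dvd_prime (hT i hi)).mp h1 with h2 | h2
    · exfalso
      have h3 : π.rangeRestrict (β i) = 1 := orderOf_eq_one_iff.mp h2
      have h4 : β i ^ (ℓ ^ a) = 1 := congrArg Subtype.val h3
      have h5 : orderOf (β i) ∣ ℓ ^ a := orderOf_dvd_of_pow_eq_one h4
      exact hTℓ i hi ((Nat.prime_dvd_prime_iff_eq (hT i hi) hℓ).mp ((hT i hi).dvd_of_dvd_pow h5))
    · exact h2
  obtain ⟨ψ, hψ⟩ := miss_char hsep T (fun i => π.rangeRestrict (β i)) (by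
    intro i hi
    rw [hord i hi]
    exact hT i hi) (fun _ => 1) (fun _ _ => Nat.one_pos)
  refine ⟨ψ.comp π.rangeRestrict, fun i hi => ?_⟩
  have h1 := hψ (orderOf (β i)) (Finset.mem_image.mpr ⟨i, hi, hord i hi⟩)
  simp only [Finset.sum_const, smul_eq_mul, mul_one] at h1
  have h2 : T.filter (fun j => orderOf (π.rangeRestrict (β j)) = orderOf (β i)
      ∧ ψ (π.rangeRestrict (β j)) = 1)
      = T.filter (fun j => orderOf (β j) = orderOf (β i) ∧ (ψ.comp π.rangeRestrict) (β j) = 1) := by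
    ext j
    constructor
    · intro h
      obtain ⟨hj, h3, h4⟩ := Finset.mem_filter.mp h
      rw [hord j hj] at h3
      exact Finset.mem_filter.mpr ⟨hj, h3, h4⟩
    · intro h
      obtain ⟨hj, h3, h4⟩ := Finset.mem_filter.mp h
      exact Finset.mem_filter.mpr ⟨hj, by rw [hord j hj]; exact h3, h4⟩
  have h3 : T.filter (fun j => orderOf (π.rangeRestrict (β j)) = orderOf (β i))
      = T.filter (fun j => orderOf (β j) = orderOf (β i)) := by
    ext j
    constructor
    · intro h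
      obtain ⟨hj, h3⟩ := Finset.mem_filter.mp h
      rw [hord j hj] at h3
      exact Finset.mem_filter.mpr ⟨hj, h3⟩
    · intro h
      obtain ⟨hj, h3⟩ := Finset.mem_filter.mp h
      exact Finset.mem_filter.mpr ⟨hj, by rw [hord j hj]; exact h3⟩
  rw [h2, h3] at h1
  exact h1

/-- combining characters of odd order and of order a power of two -/
lemma combine_two {F : Type*} [Field F] (ψ ψ₂ : Γ →* Fˣ) :
    ∃ Ψ : Γ →* Fˣ, (∀ x, Odd (orderOf x) → (Ψ x = 1 ↔ ψ x = 1)) ∧
      ∀ x, x ^ 2 = 1 → (Ψ x = 1 ↔ ψ₂ x = 1) := by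
  obtain ⟨s, m, hm, hsm⟩ := Nat.exists_eq_pow_mul_and_not_dvd (Nat.card_pos (α := Γ)).ne' 2
    (by norm_num)
  have hmo : Odd m := by rwa [← Nat.not_even_iff_odd, even_iff_two_dvd]
  refine ⟨ψ ^ (2 ^ s) * ψ₂ ^ m, fun x hx => ?_, fun x hx => ?_⟩
  · have h1 : x ^ m = 1 := by
      apply orderOf_dvd_iff_pow_eq_one.mp
      have h2 : orderOf x ∣ 2 ^ s * m := by rw [← hsm]; exact orderOf_dvd_natCard x
      have h3 : Nat.Coprime (orderOf x) (2 ^ s) := by
        apply Nat.Coprime.pow_right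
        exact (Nat.coprime_two_right).mpr hx
      exact h3.dvd_of_dvd_mul_left h2
    have h2 : (ψ ^ (2 ^ s) * ψ₂ ^ m) x = ψ x ^ (2 ^ s) := by
      rw [MonoidHom.mul_apply, MonoidHom.pow_apply, MonoidHom.pow_apply, ← map_pow ψ₂, h1, map_one,
        mul_one]
    rw [h2]
    constructor
    · intro h3
      have h4 : orderOf (ψ x) ∣ 2 ^ s := orderOf_dvd_of_pow_eq_one h3
      have h5 : orderOf (ψ x) ∣ orderOf x := orderOf_map_dvd ψ x
      have h6 : Nat.Coprime (orderOf x) (2 ^ s) := by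
        apply Nat.Coprime.pow_right
        exact (Nat.coprime_two_right).mpr hx
      have h7 : orderOf (ψ x) ∣ 1 := by
        rw [← Nat.Coprime.gcd_eq_one h6]
        exact Nat.dvd_gcd h5 h4
      exact orderOf_eq_one_iff.mp (Nat.dvd_one.mp h7)
    · intro h3
      rw [h3, one_pow]
  · have h1 : ψ x ^ (2 ^ s) = 1 := by
      by_cases hx1 : x = 1
      · rw [hx1, map_one, one_pow]
      have h2 : orderOf x = 2 := orderOf_eq_prime hx hx1
      have h3 : 2 ∣ 2 ^ s * m := by rw [← hsm, ← h2]; exact orderOf_dvd_natCard x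
      have h4 : 2 ∣ 2 ^ s := by
        rcases (Nat.Prime.dvd_mul Nat.prime_two).mp h3 with h | h
        · exact h
        · exact absurd h hm
      obtain ⟨t, ht⟩ := h4
      rw [ht, pow_mul, ← map_pow, hx, map_one, one_pow]
    have h2 : (ψ ^ (2 ^ s) * ψ₂ ^ m) x = ψ₂ x := by
      rw [MonoidHom.mul_apply, MonoidHom.pow_apply, MonoidHom.pow_apply, h1, one_mul]
      obtain ⟨t, ht⟩ := hmo
      rw [ht, pow_succ, pow_mul, ← map_pow, hx, map_one, one_pow, one_mul]
    rw [h2]

/-- characters which do not vanish on generators of a group of involutions -/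
lemma greedy {ι : Type*} (hℓ2 : ℓ ≠ 2) (z : Γ) (hz : z ^ 2 = 1) (B : Finset ι) (t : ι → Γ)
    (ht : ∀ i ∈ B, t i ^ 2 = 1) :
    ∃ (B₀ : Finset ι) (ψ : Γ →* (AlgebraicClosure (ZMod ℓ))ˣ), B₀ ⊆ B ∧ (z ≠ 1 → ψ z ≠ 1) ∧
      (∀ i ∈ B₀, ψ (t i) ≠ 1) ∧ ∀ i ∈ B, t i ∈ Subgroup.closure (insert z (t '' (B₀ : Set ι))) := by
  classical
  have hcop : ∀ (K : Subgroup Γ) (x : Γ), x ^ 2 = 1 → x ∉ K →
      ∃ φ : Γ →* (AlgebraicClosure (ZMod ℓ))ˣ, φ x ≠ 1 ∧ ∀ y ∈ K, φ y = 1 := by
    intro K x hx hxK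
    have hne : (QuotientGroup.mk' K x) ≠ 1 := by
      intro h
      exact hxK ((QuotientGroup.eq_one_iff x).mp h)
    have hord : orderOf (QuotientGroup.mk' K x) = 2 := by
      apply orderOf_eq_prime _ hne
      rw [← map_pow, hx, map_one]
    obtain ⟨φ, hφ⟩ := sep_char (ℓ := ℓ) hne (by
      rw [hord]
      exact (Nat.coprime_primes Nat.prime_two hℓF.out).mpr hℓ2.symm)
    refine ⟨φ.comp (QuotientGroup.mk' K), hφ, fun y hy => ?_⟩
    have h1 : QuotientGroup.mk' K y = 1 := (QuotientGroup.eq_one_iff y).mpr hy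
    rw [MonoidHom.comp_apply, h1, map_one]
  induction B using Finset.induction_on with
  | empty =>
    by_cases hz1 : z = 1
    · exact ⟨∅, 1, Finset.Subset.refl _, fun h => absurd hz1 h, by simp, by simp⟩
    · obtain ⟨φ, hφ, -⟩ := hcop ⊥ z hz (by rw [Subgroup.mem_bot]; exact hz1)
      exact ⟨∅, φ, Finset.Subset.refl _, fun _ => hφ, by simp, by simp⟩
  | insert i B hi ih =>
    obtain ⟨B₀, ψ, hB₀, hψz, hψ, hcl⟩ := ih (fun j hj => ht j (Finset.mem_insert_of_mem hj))
    set K := Subgroup.closure (insert z (t '' (B₀ : Set ι))) with hK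
    by_cases hiK : t i ∈ K
    · refine ⟨B₀, ψ, hB₀.trans (Finset.subset_insert _ _), hψz, hψ, fun j hj => ?_⟩
      rcases Finset.mem_insert.mp hj with rfl | hj
      · exact hiK
      · exact hcl j hj
    · have hsub : insert i B₀ ⊆ insert i B := Finset.insert_subset_insert i hB₀
      have hle : K ≤ Subgroup.closure (insert z (t '' ((insert i B₀ : Finset ι) : Set ι))) := by
        apply Subgroup.closure_mono
        apply Set.insert_subset_insert
        apply Set.image_mono
        rw [Finset.coe_insert]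
        exact Set.subset_insert _ _
      have hcl' : ∀ j ∈ insert i B,
          t j ∈ Subgroup.closure (insert z (t '' ((insert i B₀ : Finset ι) : Set ι))) := by
        intro j hj
        rcases Finset.mem_insert.mp hj with rfl | hj
        · apply Subgroup.subset_closure
          right
          exact ⟨j, by simp, rfl⟩
        · exact hle (hcl j hj)
      by_cases hψi : ψ (t i) = 1
      · obtain ⟨ω, hω, hωK⟩ := hcop K (t i) (ht i (Finset.mem_insert_self _ _)) hiK
        refine ⟨insert i B₀, ψ * ω, hsub, fun h => ?_, fun j hj => ?_, hcl'⟩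
        · rw [MonoidHom.mul_apply, hωK z (Subgroup.subset_closure (Set.mem_insert _ _)), mul_one]
          exact hψz h
        · rcases Finset.mem_insert.mp hj with rfl | hj
          · rw [MonoidHom.mul_apply, hψi, one_mul]
            exact hω
          · rw [MonoidHom.mul_apply, hωK (t j) (Subgroup.subset_closure
              (Set.mem_insert_of_mem _ ⟨j, hj, rfl⟩)), mul_one]
            exact hψ j hj
      · refine ⟨insert i B₀, ψ, hsub, hψz, fun j hj => ?_, hcl'⟩
        rcases Finset.mem_insert.mp hj with rfl | hj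
        · exact hψi
        · exact hψ j hj

end sep

section theta

variable {W : Type*} [CommGroup W]

/-- the homomorphism from the group of order two given by an involution -/
noncomputable def hTwo (w : W) (hw : w ^ 2 = 1) : Multiplicative (ZMod 2) →* W where
  toFun := fun x => w ^ (Multiplicative.toAdd x).val
  map_one' := by
    change w ^ (0 : ZMod 2).val = 1
    rw [ZMod.val_zero, pow_zero]
  map_mul' := by
    intro x y
    change w ^ (Multiplicative.toAdd x + Multiplicative.toAdd y).val = _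
    rw [ZMod.val_add, ← pow_eq_pow_mod _ hw, pow_add]

/-- the homomorphism given by finitely many involutions -/
noncomputable def thTwo {ι : Type*} (S : Finset ι) (w : ι → W) (hw : ∀ i, w i ^ 2 = 1) :
    (S → Multiplicative (ZMod 2)) →* W :=
  ∏ i : S, (hTwo (w i) (hw i)).comp (Pi.evalMonoidHom (fun _ : S => Multiplicative (ZMod 2)) i)

lemma thTwo_apply {ι : Type*} (S : Finset ι) (w : ι → W) (hw : ∀ i, w i ^ 2 = 1)
    (f : S → Multiplicative (ZMod 2)) :
    thTwo S w hw f = ∏ i : S, w i ^ (Multiplicative.toAdd (f i)).val := by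
  rw [thTwo, MonoidHom.finsetProd_apply]
  rfl

lemma card_two_fun {ι : Type*} (S : Finset ι) :
    Nat.card (S → Multiplicative (ZMod 2)) = 2 ^ S.card := by
  classical
  rw [Nat.card_eq_fintype_card, Fintype.card_fun, Fintype.card_coe]
  congr 1

lemma two_fun_sq {ι : Type*} (S : Finset ι) (f : S → Multiplicative (ZMod 2)) : f ^ 2 = 1 := by
  funext i
  change (f i) ^ 2 = 1
  have h : ∀ x : Multiplicative (ZMod 2), x ^ 2 = 1 := by decide
  exact h (f i)

/-- groups generated by few involutions are small -/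
lemma card_closure_two {ι : Type*} [Finite W] (S : Finset ι) (w : ι → W) (hw : ∀ i, w i ^ 2 = 1) :
    Nat.card (Subgroup.closure (w '' (S : Set ι))) ≤ 2 ^ S.card := by
  classical
  have hle : Subgroup.closure (w '' (S : Set ι)) ≤ (thTwo S w hw).range := by
    rw [Subgroup.closure_le]
    rintro _ ⟨i, hi, rfl⟩
    refine ⟨Pi.mulSingle ⟨i, hi⟩ (Multiplicative.ofAdd (1 : ZMod 2)), ?_⟩
    rw [thTwo_apply, Finset.prod_eq_single ⟨i, hi⟩]
    · rw [Pi.mulSingle_eq_same, toAdd_ofAdd]
      change w i ^ (1 : ZMod 2).val = w i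
      rw [ZMod.val_one, pow_one]
    · intro j _ hj
      rw [Pi.mulSingle_eq_of_ne hj, toAdd_one, ZMod.val_zero, pow_zero]
    · intro h
      exact absurd (Finset.mem_univ _) h
  have h1 : Nat.card (Subgroup.closure (w '' (S : Set ι))) ≤ Nat.card (thTwo S w hw).range :=
    Nat.le_of_dvd Nat.card_pos (Subgroup.card_dvd_of_le hle)
  refine h1.trans ?_
  rw [← card_two_fun S]
  exact Nat.card_le_card_of_surjective (thTwo S w hw).rangeRestrict
    (thTwo S w hw).rangeRestrict_surjective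

end theta

end Pool.Agent.Helper606_LC
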