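import Mathlib
import Pool.Agent.Helper606_LC.Core
import Pool.Agent.Helper199.RepDim

/-!
# Conductors and Galois automorphisms; eigenvectors
-/

set_option autoImplicit false
set_option linter.unusedSectionVars false

namespace Pool.Agent.Helper606_LC

open Pool.Agent.H541R3.ART Pool.Agent.W446.AS Pool.Agent.R389

/-- the cyclotomic field generated by the roots of unity of order dividing `m` -/
noncomputable abbrev Qc (m : ℕ) : IntermediateField ℚ ℂ := IntermediateField.adjoin ℚ {z : ℂ | z ^ m = 1}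

lemma fix_of_mem {m : ℕ} {σ : ℂ ≃+* ℂ} (hσ : ∀ z : ℂ, z ^ m = 1 → σ z = z) {z : ℂ}
    (hz : z ∈ Qc m) : σ z = z := by
  induction hz using IntermediateField.adjoin_induction with
  | mem x hx => exact hσ x hx
  | algebraMap x =>
    have h1 : (algebraMap ℚ ℂ) x = (x : ℂ) := rfl
    rw [h1, map_ratCast]
  | add a b _ _ ha hb => rw [map_add, ha, hb]
  | inv a _ ha => rw [map_inv₀, ha]
  | mul a b _ _ ha hb => rw [map_mul, ha, hb]

lemma mem_of_fix {m : ℕ} {z : ℂ}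
    (hz : ∀ σ : ℂ ≃+* ℂ, (∀ z : ℂ, z ^ m = 1 → σ z = z) → σ z = z) : z ∈ Qc m := by
  by_contra hcon
  obtain ⟨σ, h1, h2⟩ := Pool.Agent.TH119.MX.exists_move (F := (Qc m).toSubfield) hcon
  apply h2
  apply hz
  intro w hw
  exact h1 w (IntermediateField.subset_adjoin ℚ _ hw)

lemma pow_eq_of_modEq {M : Type*} [Monoid M] {z : M} {n a b : ℕ} (hz : z ^ n = 1)
    (h : a ≡ b [MOD n]) : z ^ a = z ^ b := by
  rw [pow_eq_pow_mod a hz, pow_eq_pow_mod b hz, h]

section mov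

variable {G : Type} [Group G] [Finite G] {N : ℕ}

/-- characters with values in a cyclotomic field -/
lemma pw_of_mem (hN : 0 < N) (hG : Nat.card G ∣ N) {χ : G → ℂ} (hχ : χ ∈ Irr G) {n : ℕ}
    (h : ∀ g, χ g ∈ Qc n) {k : (ZMod N)ˣ} (hnN : n ∣ N)
    (hk : ∀ z : ℂ, z ^ n = 1 → z ^ (k : ZMod N).val = z) : pw k χ = χ := by
  obtain ⟨σ, hσ⟩ := exists_aut_pow hN k
  funext g
  rw [show pw k χ g = χ (g ^ (k : ZMod N).val) from rfl, ← irr_pow hN hσ hχ (pow_card_dvd hG g)]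
  apply fix_of_mem _ (h g)
  intro z hz
  rw [hσ z, hk z hz]
  obtain ⟨c, rfl⟩ := hnN
  rw [pow_mul, hz, one_pow]

/-- **Conductors.** If `p ^ a` divides the conductor of `χ`, then `χ` is moved by an automorphism
which fixes the roots of unity of order not divisible by `p ^ a`. -/
theorem exists_mov (hN : 0 < N) (hG : Nat.card G ∣ N) {χ : G → ℂ} (hχ : χ ∈ Irr G) {n : ℕ}
    (hn : 0 < n) (hnN : n ∣ N) (h : ∀ g, χ g ∈ Qc n)
    (hmin : ∀ m : ℕ, 0 < m → (∀ g, χ g ∈ Qc m) → n ≤ m) {p a : ℕ} (hp : p.Prime)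
    (ha : 0 < a) (hpa : p ^ a ∣ n) : ∃ u ∈ Ug N (p ^ a), pw u χ ≠ χ := by
  have hN' : NeZero N := ⟨hN.ne'⟩
  by_contra hcon
  push Not at hcon
  have hpn : p ∣ n := (dvd_pow_self p ha.ne').trans hpa
  obtain ⟨n₁, hn₁⟩ := hpn
  have hn₁0 : 0 < n₁ := by
    rcases Nat.eq_zero_or_pos n₁ with h0 | h0
    · rw [h0, mul_zero] at hn₁; omega
    · exact h0
  have hlt : n₁ < n := by
    rw [hn₁]
    have := hp.two_le
    nlinarith
  refine absurd (hmin n₁ hn₁0 fun g => mem_of_fix fun σ hσ => ?_) (not_le.mpr hlt)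
  -- decompose `N`
  obtain ⟨v, M, hM, hNM⟩ := Nat.exists_eq_pow_mul_and_not_dvd hN.ne' p hp.ne_one
  have hav : a ≤ v := by
    have h1 : p ^ a ∣ p ^ v * M := by rw [← hNM]; exact hpa.trans hnN
    have h2 : Nat.Coprime (p ^ a) M := Nat.Coprime.pow_left a ((Nat.Prime.coprime_iff_not_dvd hp).mpr hM)
    have h3 : p ^ a ∣ p ^ v := h2.dvd_of_dvd_mul_right h1
    exact (Nat.pow_dvd_pow_iff_le_right hp.one_lt).mp h3
  let N₁ := p ^ (a - 1) * M
  have hN₁ : N₁ ∣ N := by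
    rw [hNM]
    exact Nat.mul_dvd_mul_right (pow_dvd_pow p (by omega)) M
  -- the power of `σ`
  obtain ⟨kσ, hkσ⟩ := exists_pow_aut hN σ
  have hk1 : (kσ : ZMod N).val ≡ 1 [MOD n₁] := by
    have hζ : IsPrimitiveRoot (Complex.exp (2 * Real.pi * Complex.I / n₁)) n₁ :=
      Complex.isPrimitiveRoot_exp n₁ hn₁0.ne'
    set ζ := Complex.exp (2 * Real.pi * Complex.I / n₁)
    have h1 : ζ ^ (kσ : ZMod N).val = ζ ^ 1 := by
      rw [← hkσ ζ, hσ ζ hζ.pow_eq_one, pow_one]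
      have h2 : n₁ ∣ N := (Dvd.intro_left p hn₁.symm).trans hnN
      obtain ⟨c, hc⟩ := h2
      rw [hc, pow_mul, hζ.pow_eq_one, one_pow]
    rw [pow_eq_pow_mod _ hζ.pow_eq_one, pow_eq_pow_mod 1 hζ.pow_eq_one] at h1
    exact hζ.pow_inj (Nat.mod_lt _ hn₁0) (Nat.mod_lt _ hn₁0) h1
  have hnp : ¬ p ^ a ∣ N₁ := by
    intro h1
    apply hM
    have h2 : p ^ a = p ^ (a - 1) * p := by rw [← pow_succ]; congr 1; omega
    rw [h2] at h1
    exact Nat.dvd_of_mul_dvd_mul_left (pow_pos hp.pos _) h1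
  have hgcd : Nat.gcd n N₁ ∣ n₁ := by
    obtain ⟨c, hc⟩ := Nat.gcd_dvd_left n N₁
    have hpc : p ∣ c := by
      by_contra hpc
      have h1 : p ^ a ∣ Nat.gcd n N₁ * c := by rw [← hc]; exact hpa
      have h2 : Nat.Coprime (p ^ a) c := Nat.Coprime.pow_left a ((Nat.Prime.coprime_iff_not_dvd hp).mpr hpc)
      exact hnp ((h2.dvd_of_dvd_mul_right h1).trans (Nat.gcd_dvd_right n N₁))
    obtain ⟨c', rfl⟩ := hpc
    refine ⟨c', ?_⟩
    have h1 : p * n₁ = p * (Nat.gcd n N₁ * c') := by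
      rw [← hn₁, mul_left_comm]
      exact hc
    exact Nat.eq_of_mul_eq_mul_left hp.pos h1
  -- the other factor
  obtain ⟨k, hk1n, hkN₁⟩ := Nat.chineseRemainder' (n := n) (m := N₁) (a := 1)
    (b := (kσ : ZMod N).val) ((hk1.symm).of_dvd hgcd)
  have hkcop : k.Coprime N := by
    apply Nat.coprime_of_dvd
    intro r hr hrk hrN
    by_cases hrp : r ∣ n
    · have h1 : k ≡ 1 [MOD r] := hk1n.of_dvd hrp
      have h2 : r ∣ 1 := (Nat.ModEq.dvd_iff h1 (dvd_refl r)).mp hrk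
      exact hr.one_lt.ne' (Nat.dvd_one.mp h2)
    · have hrN₁ : r ∣ N₁ := by
        have h3 : r ∣ p ^ v * M := by rw [← hNM]; exact hrN
        rcases hr.dvd_mul.mp h3 with h4 | h4
        · exfalso
          apply hrp
          have h5 := (Nat.prime_dvd_prime_iff_eq hr hp).mp (hr.dvd_of_dvd_pow h4)
          rw [h5, hn₁]
          exact dvd_mul_right p n₁
        · exact h4.mul_left _
      have h1 : k ≡ (kσ : ZMod N).val [MOD r] := hkN₁.of_dvd hrN₁
      have h2 : r ∣ (kσ : ZMod N).val := (Nat.ModEq.dvd_iff h1 (dvd_refl r)).mp hrk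
      have h3 := ZMod.val_coe_unit_coprime kσ
      have h4 : r ∣ 1 := by rw [← h3]; exact Nat.dvd_gcd h2 hrN
      exact hr.one_lt.ne' (Nat.dvd_one.mp h4)
  let K : (ZMod N)ˣ := ZMod.unitOfCoprime k hkcop
  have hK : ∀ z : ℂ, z ^ N = 1 → z ^ (K : ZMod N).val = z ^ k := by
    intro z hz
    apply pow_eq_of_modEq hz
    rw [ZMod.coe_unitOfCoprime, ZMod.val_natCast]
    exact Nat.mod_modEq k N
  have h1 : pw K χ = χ := by
    apply pw_of_mem hN hG hχ h hnN
    intro z hz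
    have hzN : z ^ N = 1 := by
      obtain ⟨c, hc⟩ := hnN
      rw [hc, pow_mul, hz, one_pow]
    rw [hK z hzN, pow_eq_of_modEq hz hk1n, pow_one]
  have h2 : K⁻¹ * kσ ∈ Ug N (p ^ a) := by
    intro z hz hpz
    have hz1 : z ^ N₁ = 1 := by
      apply orderOf_dvd_iff_pow_eq_one.mp
      have h3 : orderOf z ∣ N := orderOf_dvd_of_pow_eq_one hz
      have h0 : 0 < orderOf z := Nat.pos_of_dvd_of_pos h3 hN
      obtain ⟨w, R, hR, hzR⟩ := Nat.exists_eq_pow_mul_and_not_dvd h0.ne' p hp.ne_one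
      have hwa : w ≤ a - 1 := by
        by_contra hcon2
        apply hpz
        rw [hzR]
        exact (pow_dvd_pow p (by omega)).mul_right R
      have hRM : R ∣ M := by
        have h4 : R ∣ p ^ v * M := by
          rw [← hNM]
          exact (Dvd.intro_left (p ^ w) hzR.symm).trans h3
        have h5 : Nat.Coprime R (p ^ v) :=
          (Nat.Coprime.pow_left v ((Nat.Prime.coprime_iff_not_dvd hp).mpr hR)).symm
        exact h5.dvd_of_dvd_mul_left h4
      rw [hzR]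
      exact mul_dvd_mul (pow_dvd_pow p hwa) hRM
    have h3 : z ^ (kσ : ZMod N).val = z ^ (K : ZMod N).val := by
      rw [hK z hz]
      exact (pow_eq_of_modEq hz1 hkN₁).symm
    rw [mul_comm, pow_val_mul hN hz, h3, ← pow_val_mul hN hz, mul_inv_cancel, pow_val_one hN hz]
  have h3 : pw kσ χ = χ := by
    have h4 := hcon _ h2
    have h5 : kσ = K * (K⁻¹ * kσ) := by rw [mul_inv_cancel_left]
    rw [h5, pw_mul hN hG, h4, h1]
  have h4 : σ (χ g) = χ (g ^ (kσ : ZMod N).val) := irr_pow hN hkσ hχ (pow_card_dvd hG g)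
  rw [h4]
  exact congrFun h3 g

lemma ug_one {m : ℕ} (hN : 0 < N) : (1 : (ZMod N)ˣ) ∈ Ug N m := fun _ hz _ => pow_val_one hN hz

lemma ug_mul {m : ℕ} (hN : 0 < N) {k l : (ZMod N)ˣ} (hk : k ∈ Ug N m) (hl : l ∈ Ug N m) :
    k * l ∈ Ug N m := by
  intro z hz hm
  rw [pow_val_mul hN hz, hk z hz hm, hl z hz hm]

lemma ug_pow {m : ℕ} (hN : 0 < N) {k : (ZMod N)ˣ} (hk : k ∈ Ug N m) (t : ℕ) : k ^ t ∈ Ug N m := by
  induction t with
  | zero => rw [pow_zero]; exact ug_one hN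
  | succ t ih => rw [pow_succ]; exact ug_mul hN ih hk

/-- an element of prime order in the image of `Ug` -/
lemma exists_prime_order (hN : 0 < N) (hG : Nat.card G ∣ N) {χ : G → ℂ} {m : ℕ} {u : (ZMod N)ˣ}
    (hu : u ∈ Ug N m) (h : pw u χ ≠ χ) :
    ∃ v ∈ Ug N m, (orderOf (gmk hN hG χ v)).Prime := by
  have hfin := gam_finite hN hG χ
  have h1 : gmk hN hG χ u ≠ 1 := fun h1 => h ((gmk_eq_one hN hG χ).mp h1)
  have h2 : orderOf (gmk hN hG χ u) ≠ 1 := fun h2 => h1 (orderOf_eq_one_iff.mp h2)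
  obtain ⟨q, hq, hqd⟩ := Nat.exists_prime_and_dvd h2
  refine ⟨u ^ (orderOf (gmk hN hG χ u) / q), ug_pow hN hu _, ?_⟩
  rw [map_pow, orderOf_pow_orderOf_div (orderOf_pos _).ne' hqd]
  exact hq

end mov

section eig

variable {G : Type} [Group G] [Finite G]

/-- multiplicities and eigenvectors -/
lemma mult_ne_iff {V : Type} [AddCommGroup V] [Module ℂ V] [FiniteDimensional ℂ V]
    (ρ : Representation ℂ G V) (H : Subgroup G) (μ : H →* ℂˣ) :
    (∑ᶠ h : H, ρ.character h * (((μ h)⁻¹ : ℂˣ) : ℂ)) ≠ 0 ↔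
      ∃ v : V, v ≠ 0 ∧ ∀ h : H, ρ h v = ((μ h : ℂˣ) : ℂ) • v := by
  classical
  have : Fintype H := Fintype.ofFinite H
  have hc : (Nat.card H : ℂ) ≠ 0 := card_ne
  let P : V →ₗ[ℂ] V := (Nat.card H : ℂ)⁻¹ • ∑ a : H, (((μ a)⁻¹ : ℂˣ) : ℂ) • ρ a
  have hP : ∀ v, P v = (Nat.card H : ℂ)⁻¹ • ∑ a : H, (((μ a)⁻¹ : ℂˣ) : ℂ) • ρ a v := by
    intro v
    simp [P, LinearMap.sum_apply]
  have htr : (∑ᶠ h : H, ρ.character h * (((μ h)⁻¹ : ℂˣ) : ℂ))
      = Nat.card H * LinearMap.trace ℂ V P := by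
    rw [finsum_eq_sum_of_fintype]
    change _ = _ * LinearMap.trace ℂ V ((Nat.card H : ℂ)⁻¹ • ∑ a : H, (((μ a)⁻¹ : ℂˣ) : ℂ) • ρ a)
    rw [map_smul, map_sum, smul_eq_mul, ← mul_assoc, mul_inv_cancel₀ hc, one_mul]
    refine Finset.sum_congr rfl fun h _ => ?_
    rw [map_smul, smul_eq_mul, mul_comm]
    rfl
  have hPw : ∀ v, (∀ a : H, ρ a v = ((μ a : ℂˣ) : ℂ) • v) → P v = v := by
    intro v hv
    rw [hP]
    have h1 : ∀ a : H, (((μ a)⁻¹ : ℂˣ) : ℂ) • ρ a v = v := by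
      intro a
      rw [hv, smul_smul, ← Units.val_mul, inv_mul_cancel, Units.val_one, one_smul]
    rw [Finset.sum_congr rfl (fun a _ => h1 a), Finset.sum_const, Finset.card_univ,
      ← Nat.card_eq_fintype_card, ← Nat.cast_smul_eq_nsmul ℂ, smul_smul, inv_mul_cancel₀ hc,
      one_smul]
  have hwP : ∀ (a : H) (v : V), ρ a (P v) = ((μ a : ℂˣ) : ℂ) • P v := by
    intro a v
    rw [hP, map_smul, map_sum, smul_comm ((μ a : ℂˣ) : ℂ) ((Nat.card H : ℂ)⁻¹)]
    congr 1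
    rw [Finset.smul_sum, ← Equiv.sum_comp (Equiv.mulLeft a) (fun b : H => ((μ a : ℂˣ) : ℂ) •
      (((μ b)⁻¹ : ℂˣ) : ℂ) • ρ b v)]
    refine Finset.sum_congr rfl fun b _ => ?_
    rw [map_smul, Equiv.coe_mulLeft, map_mul, mul_inv_rev, smul_smul, ← Units.val_mul,
      mul_comm (μ b)⁻¹, ← mul_assoc, mul_inv_cancel, one_mul, Subgroup.coe_mul, map_mul,
      Module.End.mul_apply]
  have hproj : LinearMap.IsProj (LinearMap.range P) P := by
    constructor
    · intro x; exact LinearMap.mem_range_self P x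
    · rintro x ⟨y, rfl⟩
      exact hPw _ (fun a => hwP a y)
  rw [htr, hproj.trace]
  constructor
  · intro h
    have h1 : Module.finrank ℂ (LinearMap.range P) ≠ 0 := by
      intro h2
      apply h
      rw [h2]
      simp
    have h2 : Nontrivial (LinearMap.range P) := by
      by_contra h3
      rw [not_nontrivial_iff_subsingleton] at h3
      exact h1 Module.finrank_zero_of_subsingleton
    obtain ⟨⟨w, x, rfl⟩, hw⟩ := exists_ne (0 : LinearMap.range P)
    exact ⟨P x, fun h4 => hw (Subtype.ext h4), fun a => hwP a x⟩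
  · rintro ⟨v, hv, hμ⟩
    have h1 : Nontrivial (LinearMap.range P) :=
      ⟨⟨v, v, hPw v hμ⟩, 0, fun h2 => hv (congrArg Subtype.val h2)⟩
    have h2 : 0 < Module.finrank ℂ (LinearMap.range P) := Module.finrank_pos
    exact mul_ne_zero hc (by exact_mod_cast h2.ne')

/-- some linear constituent of the restriction to a subgroup has order divisible by `d` -/
def HasOrd (χ : G → ℂ) (d : ℕ) : Prop :=
  ∃ (K : Subgroup G) (μ : K →* ℂˣ), (∑ᶠ h : K, χ h * (((μ h)⁻¹ : ℂˣ) : ℂ)) ≠ 0 ∧ d ∣ orderOf μ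

lemma orderOf_hom_dvd {K : Type*} [Group K] [Finite K] (μ : K →* ℂˣ) :
    ∃ x : K, orderOf (μ x) = orderOf μ := by
  have hcyc : IsCyclic μ.range := by
    have : Finite μ.range := Finite.of_surjective _ μ.rangeRestrict_surjective
    exact isCyclic_of_injective_ringHom ((Units.coeHom ℂ).comp μ.range.subtype) (by
      intro a b h
      exact Subtype.ext (Units.ext h))
  obtain ⟨⟨_, x, rfl⟩, hx⟩ := hcyc.exists_generator
  refine ⟨x, Nat.dvd_antisymm ?_ ?_⟩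
  · apply orderOf_dvd_of_pow_eq_one
    rw [← MonoidHom.pow_apply, pow_orderOf_eq_one, MonoidHom.one_apply]
  · apply orderOf_dvd_of_pow_eq_one
    ext y
    obtain ⟨j, hj⟩ := hx ⟨μ y, y, rfl⟩
    have h1 : μ x ^ j = μ y := congrArg Subtype.val hj
    rw [MonoidHom.pow_apply, ← h1, ← zpow_natCast, ← zpow_mul, mul_comm, zpow_mul, zpow_natCast,
      pow_orderOf_eq_one, one_zpow]
    rfl

/-- in terms of eigenvalues -/
lemma hasOrd_iff {V : Type} [AddCommGroup V] [Module ℂ V] [FiniteDimensional ℂ V]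
    (ρ : Representation ℂ G V) (d : ℕ) :
    HasOrd ρ.character d ↔ ∃ (g : G) (z : ℂ) (v : V), v ≠ 0 ∧ ρ g v = z • v ∧ d ∣ orderOf z := by
  constructor
  · rintro ⟨K, μ, h1, h2⟩
    obtain ⟨v, hv, hμ⟩ := (mult_ne_iff ρ K μ).mp h1
    obtain ⟨x, hx⟩ := orderOf_hom_dvd μ
    refine ⟨x, _, v, hv, hμ x, ?_⟩
    rw [orderOf_units, hx]
    exact h2
  · rintro ⟨g, z, v, hv, hz, hd⟩
    have hzo : z ^ orderOf g = 1 := by
      have h1 : ∀ n : ℕ, ρ (g ^ n) v = z ^ n • v := by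
        intro n
        induction n with
        | zero => rw [pow_zero, pow_zero, map_one, one_smul]; rfl
        | succ n ih =>
          rw [pow_succ', pow_succ', map_mul, Module.End.mul_apply, ih, map_smul, hz, smul_smul,
            mul_comm]
      have h2 := h1 (orderOf g)
      rw [pow_orderOf_eq_one, map_one, Module.End.one_apply] at h2
      have h3 : (1 - z ^ orderOf g) • v = 0 := by rw [sub_smul, one_smul, ← h2, sub_self]
      rcases smul_eq_zero.mp h3 with h4 | h4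
      · exact (sub_eq_zero.mp h4).symm
      · exact absurd h4 hv
    have hz0 : z ≠ 0 := by
      rintro rfl
      rw [zero_pow (orderOf_pos g).ne'] at hzo
      exact zero_ne_one hzo
    let Z : ℂˣ := Units.mk0 z hz0
    have hZ : Z ^ orderOf g = 1 := Units.ext (by rw [Units.val_pow_eq_pow_val]; exact hzo)
    obtain ⟨μ, hμ⟩ : ∃ μ : Subgroup.zpowers g →* ℂˣ,
        μ ⟨g, Subgroup.mem_zpowers g⟩ = Z := by
      have hcyc : IsCyclic (Subgroup.zpowers g) := inferInstance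
      have hgen : ∀ x : Subgroup.zpowers g, x ∈ Subgroup.zpowers (⟨g, Subgroup.mem_zpowers g⟩ :
          Subgroup.zpowers g) := by
        rintro ⟨x, j, hj⟩
        exact ⟨j, Subtype.ext (by simpa using hj)⟩
      refine ⟨monoidHomOfForallMemZpowers hgen (g' := Z) ?_, ?_⟩
      · rw [Subgroup.orderOf_mk]
        exact orderOf_dvd_of_pow_eq_one hZ
      · exact monoidHomOfForallMemZpowers_apply_gen _ _
    refine ⟨Subgroup.zpowers g, μ, (mult_ne_iff ρ _ μ).mpr ⟨v, hv, ?_⟩, ?_⟩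
    · rintro ⟨x, hx⟩
      obtain ⟨j, rfl⟩ := (mem_powers_iff_mem_zpowers).mpr hx
      have h1 : (⟨g ^ j, hx⟩ : Subgroup.zpowers g) = ⟨g, Subgroup.mem_zpowers g⟩ ^ j :=
        Subtype.ext (by simp)
      have h2 : ∀ n : ℕ, ρ (g ^ n) v = z ^ n • v := by
        intro n
        induction n with
        | zero => rw [pow_zero, pow_zero, map_one, one_smul]; rfl
        | succ n ih =>
          rw [pow_succ', pow_succ', map_mul, Module.End.mul_apply, ih, map_smul, hz, smul_smul,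
            mul_comm]
      have h3 : μ (⟨g ^ j, hx⟩ : Subgroup.zpowers g) = Z ^ j := by rw [h1, map_pow, hμ]
      change ρ (g ^ j) v = ((μ (⟨g ^ j, hx⟩ : Subgroup.zpowers g) : ℂˣ) : ℂ) • v
      rw [h2, h3, Units.val_pow_eq_pow_val]
      rfl
    · refine hd.trans ?_
      have h1 : orderOf z = orderOf Z := (orderOf_units (y := Z))
      rw [h1, ← hμ]
      apply orderOf_dvd_of_pow_eq_one
      rw [← MonoidHom.pow_apply, pow_orderOf_eq_one, MonoidHom.one_apply]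

/-- exact orders -/
lemma exact_ord {V : Type} [AddCommGroup V] [Module ℂ V] [FiniteDimensional ℂ V]
    (ρ : Representation ℂ G V) {d : ℕ} (h : HasOrd ρ.character d) :
    ∃ (K : Subgroup G) (μ : K →* ℂˣ),
      (∑ᶠ h : K, ρ.character h * (((μ h)⁻¹ : ℂˣ) : ℂ)) ≠ 0 ∧ orderOf μ = d := by
  obtain ⟨K, μ, h1, h2⟩ := h
  obtain ⟨v, hv, hμ⟩ := (mult_ne_iff ρ K μ).mp h1
  obtain ⟨x, hx⟩ := orderOf_hom_dvd μ
  obtain ⟨c, hc⟩ := h2
  have hc0 : c ≠ 0 := by
    rintro rfl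
    rw [mul_zero] at hc
    have h3 : IsOfFinOrder (μ x) := μ.isOfFinOrder (isOfFinOrder_of_finite x)
    have h4 := h3.orderOf_pos
    omega
  let y : G := ((x ^ c : K) : G)
  have hyK : Subgroup.zpowers y ≤ K := by
    rw [Subgroup.zpowers_le]
    exact (x ^ c : K).2
  let ν : Subgroup.zpowers y →* ℂˣ := μ.comp (Subgroup.inclusion hyK)
  have hνy : ν ⟨y, Subgroup.mem_zpowers y⟩ = μ x ^ c := by
    change μ (x ^ c) = _
    rw [map_pow]
  have hord : orderOf (μ x ^ c) = d := by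
    have h3 : c ∣ orderOf (μ x) := by
      rw [hx, hc]
      exact dvd_mul_left c d
    rw [orderOf_pow_of_dvd hc0 h3, hx, hc, Nat.mul_div_cancel _ (Nat.pos_of_ne_zero hc0)]
  refine ⟨Subgroup.zpowers y, ν, (mult_ne_iff ρ _ ν).mpr ⟨v, hv, fun h => ?_⟩,
    Nat.dvd_antisymm ?_ ?_⟩
  · exact hμ (Subgroup.inclusion hyK h)
  · apply orderOf_dvd_of_pow_eq_one
    ext ⟨w, hw⟩
    obtain ⟨j, rfl⟩ := (mem_powers_iff_mem_zpowers).mpr hw
    have h3 : (⟨y ^ j, hw⟩ : Subgroup.zpowers y) = ⟨y, Subgroup.mem_zpowers y⟩ ^ j :=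
      Subtype.ext (by simp)
    have h4 : ν (⟨y ^ j, hw⟩ : Subgroup.zpowers y) = (μ x ^ c) ^ j := by rw [h3, map_pow, hνy]
    change (((ν ^ d) (⟨y ^ j, hw⟩ : Subgroup.zpowers y) : ℂˣ) : ℂ) = 1
    rw [MonoidHom.pow_apply, h4, ← pow_mul, mul_comm, pow_mul, ← hord, pow_orderOf_eq_one, one_pow,
      Units.val_one]
  · rw [← hord, ← hνy]
    apply orderOf_dvd_of_pow_eq_one
    rw [← MonoidHom.pow_apply, pow_orderOf_eq_one, MonoidHom.one_apply]

end eig

end Pool.Agent.Helper606_LC
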