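import Mathlib
import Pool.Agent.Helper606_LC.Cond

/-!
# At most six primes
-/

set_option autoImplicit false
set_option linter.unusedSectionVars false

namespace Pool.Agent.Helper606_LC

open Pool.Agent.H541R3.ART Pool.Agent.W446.AS Pool.Agent.R389

/-- some unit modulo `N` acting trivially on the roots of unity of order not divisible by `m`
moves `χ` -/
def Mov {G : Type} [Group G] (N m : ℕ) (χ : G → ℂ) : Prop := ∃ u ∈ Ug N m, pw u χ ≠ χ

section six

variable {G : Type} [Group G] [Finite G] {N : ℕ}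

lemma prod_dvd_of_forall {I : Finset ℕ} {a : ℕ → ℕ} (hI : ∀ p ∈ I, p.Prime) {r : ℕ}
    (h : ∀ p ∈ I, p ^ a p ∣ r) : ∏ p ∈ I, p ^ a p ∣ r := by
  classical
  apply Finset.prod_dvd_of_isRelPrime
  · intro p hp q hq hpq
    exact Nat.coprime_iff_isRelPrime.mp
      (Nat.Coprime.pow _ _ ((Nat.coprime_primes (hI p hp) (hI q hq)).mpr hpq))
  · exact h

/-- at most six primes at a time -/
theorem six_core (hN : 0 < N) (hG : Nat.card G ∣ N) {χ : G → ℂ} (hχ : χ ∈ Irr G) {I : Finset ℕ}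
    {a : ℕ → ℕ} (hI : ∀ p ∈ I, p.Prime) (hmov : ∀ p ∈ I, Mov N (p ^ a p) χ) (hc : I.card ≤ 6) :
    HasOrd χ (∏ p ∈ I, p ^ a p) := by
  classical
  have h1 : ∀ p ∈ I, ∃ v ∈ Ug N (p ^ a p), (orderOf (gmk hN hG χ v)).Prime := by
    intro p hp
    obtain ⟨u, hu, hu1⟩ := hmov p hp
    exact exists_prime_order hN hG hu hu1
  choose! v hv hv1 using h1
  obtain ⟨ℓ, hℓ, hcount⟩ := per_six (β := fun p => gmk hN hG χ (v p)) hc
  obtain ⟨K, μ, h2, h3⟩ := crit_count hN hG hχ (I := I) (m := fun p => p ^ a p)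
    (β := fun p => gmk hN hG χ (v p)) (fun p hp => ⟨v p, hv p hp, rfl⟩) hv1 hℓ hcount
  exact ⟨K, μ, h2, prod_dvd_of_forall hI h3⟩

/-- the same with a divisor of the conductor -/
theorem six_cond {χ : G → ℂ} (hχ : χ ∈ Irr G) {n : ℕ}
    (hn : 0 < n) (h : ∀ g, χ g ∈ Qc n)
    (hmin : ∀ m : ℕ, 0 < m → (∀ g, χ g ∈ Qc m) → n ≤ m) {d : ℕ} (hd : d ∣ n)
    (hc : d.primeFactors.card ≤ 6) : HasOrd χ d := by
  have hd0 : d ≠ 0 := by
    rintro rfl
    rw [zero_dvd_iff] at hd
    omega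
  have hN : 0 < Nat.card G * n := Nat.mul_pos Nat.card_pos hn
  have h1 : d = ∏ p ∈ d.primeFactors, p ^ d.factorization p :=
    (Nat.prod_factorization_pow_eq_self hd0).symm
  rw [h1]
  refine six_core hN (dvd_mul_right _ _) hχ (fun p hp => Nat.prime_of_mem_primeFactors hp)
    (fun p hp => ?_) hc
  exact exists_mov hN (dvd_mul_right _ _) hχ hn (dvd_mul_left _ _) h hmin
    (Nat.prime_of_mem_primeFactors hp)
    ((Nat.prime_of_mem_primeFactors hp).factorization_pos_of_dvd hd0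
      (Nat.dvd_of_mem_primeFactors hp)) ((Nat.ordProj_dvd d p).trans hd)

end six

section fdrep

open CategoryTheory

lemma irred_of_simple {G : Type} [Group G] (V : FDRep ℂ G) (hV : Simple V) : Irred V.ρ := by
  refine ⟨?_, fun W hW => ?_⟩
  · obtain ⟨v, hv⟩ := Pool.Agent.Helper199.RepDim.simple_nonzero V
    exact ⟨v, 0, hv⟩
  · by_cases h : W = ⊥
    · left; exact h
    · right; exact Pool.Agent.Helper199.RepDim.simple_top V W hW h

lemma irr_of_simple {G : Type} [Group G] (V : FDRep ℂ G) (hV : Simple V) :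
    V.character ∈ Irr G := by
  have h : V.character = Representation.character (V.ρ : Representation ℂ G V) := rfl
  rw [h]
  exact irr_of_irred (irred_of_simple V hV)

end fdrep

end Pool.Agent.Helper606_LC
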