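import Mathlib
import Pool.Agent.Helper606_LC.Six

/-!
# An isometry between class functions of a group and of a subgroup
-/

set_option autoImplicit false
set_option linter.unusedSectionVars false

namespace Pool.Agent.Helper606_LC

open Pool.Agent.H541R3.ART Pool.Agent.W446.AS Pool.Agent.R389

section iso

variable {G : Type} [Group G] [Finite G]

/-- sums of class functions supported on a set with a trivial intersection property -/
lemma sum_iso [Fintype G] (H : Subgroup G) [Fintype H] (S : Set G)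
    (hcov : ∀ s ∈ S, ∃ x, x * s * x⁻¹ ∈ H)
    (hSc : ∀ s ∈ S, ∀ x, x * s * x⁻¹ ∈ S)
    (hTI : ∀ s ∈ S, s ∈ H → ∀ x, x * s * x⁻¹ ∈ H → x ∈ H)
    {f : G → ℂ} (hf : ∀ g x, f (x * g * x⁻¹) = f g) (h0 : ∀ g, g ∉ S → f g = 0) :
    (Nat.card G : ℂ)⁻¹ * ∑ g : G, f g = (Nat.card H : ℂ)⁻¹ * ∑ h : H, f h := by
  classical
  have hA : ∑ x : G, ∑ g : G, (if x * g * x⁻¹ ∈ H then f g else 0)
      = Nat.card G * ∑ h : H, f h := by
    have h1 : ∀ x : G, ∑ g : G, (if x * g * x⁻¹ ∈ H then f g else 0) = ∑ h : H, f h := by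
      intro x
      have h2 : ∀ g : G, (if x * g * x⁻¹ ∈ H then f g else 0)
          = (fun y : G => if y ∈ H then f y else 0) ((MulAut.conj x).toEquiv g) := by
        intro g
        change _ = if x * g * x⁻¹ ∈ H then f (x * g * x⁻¹) else 0
        rw [hf]
      rw [Finset.sum_congr rfl (fun g _ => h2 g),
        Equiv.sum_comp (MulAut.conj x).toEquiv (fun y : G => if y ∈ H then f y else 0),
        ← Finset.sum_filter]
      exact Finset.sum_subtype _ (by simp) f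
    rw [Finset.sum_congr rfl (fun x _ => h1 x), Finset.sum_const, Finset.card_univ, nsmul_eq_mul,
      ← Nat.card_eq_fintype_card]
  have hB : ∑ x : G, ∑ g : G, (if x * g * x⁻¹ ∈ H then f g else 0)
      = Nat.card H * ∑ g : G, f g := by
    rw [Finset.sum_comm, Finset.mul_sum]
    refine Finset.sum_congr rfl fun g _ => ?_
    by_cases hg : g ∈ S
    · obtain ⟨x₀, hx₀⟩ := hcov g hg
      rw [← Finset.sum_filter, Finset.sum_const, nsmul_eq_mul]
      congr 1
      norm_cast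
      rw [← Fintype.card_subtype, ← Nat.card_eq_fintype_card]
      refine Nat.card_congr ⟨fun x => ⟨x.1 * x₀⁻¹, ?_⟩, fun h => ⟨(h : G) * x₀, ?_⟩, ?_, ?_⟩
      · apply hTI _ (hSc g hg x₀) hx₀
        have h1 : x.1 * x₀⁻¹ * (x₀ * g * x₀⁻¹) * (x.1 * x₀⁻¹)⁻¹ = x.1 * g * x.1⁻¹ := by group
        rw [h1]
        exact x.2
      · have h1 : (h : G) * x₀ * g * ((h : G) * x₀)⁻¹ = h * (x₀ * g * x₀⁻¹) * (h : G)⁻¹ := by group
        rw [h1]
        exact H.mul_mem (H.mul_mem h.2 hx₀) (H.inv_mem h.2)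
      · intro x
        apply Subtype.ext
        simp
      · intro h
        apply Subtype.ext
        simp
    · rw [h0 g hg, mul_zero]
      refine Finset.sum_eq_zero fun x _ => ?_
      split_ifs <;> rfl
  rw [hA] at hB
  have hG : (Nat.card G : ℂ) ≠ 0 := card_ne
  have hH : (Nat.card H : ℂ) ≠ 0 := card_ne
  field_simp
  linear_combination -hB

lemma pr_iso (H : Subgroup G) (S : Set G)
    (hcov : ∀ s ∈ S, ∃ x, x * s * x⁻¹ ∈ H)
    (hSc : ∀ s ∈ S, ∀ x, x * s * x⁻¹ ∈ S)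
    (hTI : ∀ s ∈ S, s ∈ H → ∀ x, x * s * x⁻¹ ∈ H → x ∈ H)
    {a b : G → ℂ} (ha : ∀ g x, a (x * g * x⁻¹) = a g) (hb : ∀ g x, b (x * g * x⁻¹) = b g)
    (h0 : ∀ g, g ∉ S → a g = 0) :
    pr a b = pr (fun h : H => a h) (fun h : H => b h) := by
  classical
  have : Fintype G := Fintype.ofFinite G
  have : Fintype H := Fintype.ofFinite H
  rw [pr_eq, pr_eq]
  refine sum_iso H S hcov hSc hTI (f := fun g => a g * b g⁻¹) ?_ ?_
  · intro g x
    have h1 : (x * g * x⁻¹)⁻¹ = x * g⁻¹ * x⁻¹ := by group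
    rw [h1, ha, hb]
  · intro g hg
    rw [h0 g hg, zero_mul]

/-- multiplicities in a restriction -/
lemma pr_res_nat (H : Subgroup G) {χ : G → ℂ} (hχ : χ ∈ Irr G) {η : H → ℂ} (hη : η ∈ Irr H) :
    ∃ n : ℕ, pr (fun h : H => χ h) η = n := by
  classical
  have : Fintype H := Fintype.ofFinite H
  obtain ⟨n, ρ, -, rfl⟩ := hχ
  obtain ⟨m, τ, -, rfl⟩ := hη
  have hH : (Nat.card H : ℂ) ≠ 0 := card_ne
  have : Invertible (Nat.card H : ℂ) := invertibleOfNonzero hH
  let σ : Representation ℂ H (Fin n → ℂ) := ρ.comp H.subtype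
  have h := Representation.card_inv_mul_sum_char_mul_char_eq_finrank τ σ
  refine ⟨Module.finrank ℂ (Representation.IntertwiningMap τ σ), ?_⟩
  rw [← h, pr_eq]
  rfl

/-- generalized characters of norm two and degree zero -/
lemma norm_two {β : G → ℂ} (hβ : Virt β) (h1 : β 1 = 0) (h2 : pr β β = 2) :
    ∃ φ ∈ Irr G, ∃ φ' ∈ Irr G, φ ≠ φ' ∧ β = φ - φ' ∧ pr β φ = 1 := by
  classical
  choose! b hb using fun φ (hφ : φ ∈ Irr G) => hβ.pr_int hφ
  choose! d hd hd1 using fun φ (hφ : φ ∈ Irr G) => irr_deg_pos hφ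
  have hexp : ∀ g, β g = ∑ φ ∈ irrF G, (b φ : ℂ) * φ g := by
    intro g
    rw [hβ.expand g]
    exact Finset.sum_congr rfl fun φ hφ => by rw [hb φ (mem_irrF.mp hφ)]
  have hsq : ∑ φ ∈ irrF G, b φ ^ 2 = 2 := by
    have h3 : pr β β = ∑ φ ∈ irrF G, ((b φ : ℂ)) ^ 2 := by
      rw [pr_expand (fun g x => hβ.conj g x)]
      refine Finset.sum_congr rfl fun φ hφ => ?_
      rw [pr_comm φ β, hb φ (mem_irrF.mp hφ), sq]
    rw [h2] at h3
    exact_mod_cast h3.symm
  have hdeg : ∑ φ ∈ irrF G, b φ * (d φ : ℤ) = 0 := by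
    have h3 : β 1 = ∑ φ ∈ irrF G, (b φ : ℂ) * (d φ : ℂ) := by
      rw [hexp 1]
      exact Finset.sum_congr rfl fun φ hφ => by rw [hd1 φ (mem_irrF.mp hφ)]
    rw [h1] at h3
    exact_mod_cast h3.symm
  -- a positive and a negative coefficient
  have hpos : ∃ φ ∈ irrF G, 0 < b φ := by
    by_contra hcon
    push Not at hcon
    have h3 : ∀ φ ∈ irrF G, b φ * (d φ : ℤ) ≤ 0 := fun φ hφ =>
      mul_nonpos_of_nonpos_of_nonneg (hcon φ hφ) (Int.natCast_nonneg _)
    have h4 := (Finset.sum_eq_zero_iff_of_nonpos h3).mp hdeg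
    have h5 : ∑ φ ∈ irrF G, b φ ^ 2 = 0 := by
      refine Finset.sum_eq_zero fun φ hφ => ?_
      rcases mul_eq_zero.mp (h4 φ hφ) with h6 | h6
      · rw [h6]; ring
      · have := hd φ (mem_irrF.mp hφ)
        omega
    omega
  have hneg : ∃ φ ∈ irrF G, b φ < 0 := by
    by_contra hcon
    push Not at hcon
    have h3 : ∀ φ ∈ irrF G, 0 ≤ b φ * (d φ : ℤ) := fun φ hφ =>
      mul_nonneg (hcon φ hφ) (Int.natCast_nonneg _)
    have h4 := (Finset.sum_eq_zero_iff_of_nonneg h3).mp hdeg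
    have h5 : ∑ φ ∈ irrF G, b φ ^ 2 = 0 := by
      refine Finset.sum_eq_zero fun φ hφ => ?_
      rcases mul_eq_zero.mp (h4 φ hφ) with h6 | h6
      · rw [h6]; ring
      · have := hd φ (mem_irrF.mp hφ)
        omega
    omega
  obtain ⟨φ, hφ, hφb⟩ := hpos
  obtain ⟨φ', hφ', hφb'⟩ := hneg
  have hne : φ ≠ φ' := by
    rintro rfl
    omega
  have hsub : ({φ, φ'} : Finset (G → ℂ)) ⊆ irrF G := by
    intro ψ hψ
    rcases Finset.mem_insert.mp hψ with rfl | hψ
    · exact hφ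
    · rw [Finset.mem_singleton.mp hψ]; exact hφ'
  have h3 := Finset.sum_sdiff (f := fun ψ => b ψ ^ 2) hsub
  rw [Finset.sum_pair hne, hsq] at h3
  have h4 : 0 ≤ ∑ ψ ∈ irrF G \ {φ, φ'}, b ψ ^ 2 := Finset.sum_nonneg fun ψ _ => sq_nonneg _
  have h5 : b φ = 1 := by nlinarith
  have h6 : b φ' = -1 := by nlinarith
  have h7 : ∑ ψ ∈ irrF G \ {φ, φ'}, b ψ ^ 2 = 0 := by
    rw [h5, h6] at h3
    omega
  have h8 := (Finset.sum_eq_zero_iff_of_nonneg (fun ψ _ => sq_nonneg (b ψ))).mp h7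
  refine ⟨φ, mem_irrF.mp hφ, φ', mem_irrF.mp hφ', hne, ?_, ?_⟩
  · funext g
    rw [hexp g, ← Finset.sum_sdiff hsub, Finset.sum_pair hne, h5, h6, Finset.sum_eq_zero]
    · rw [Pi.sub_apply]
      push_cast
      ring
    · intro ψ hψ
      have h9 : b ψ = 0 := by
        have := h8 ψ hψ
        exact pow_eq_zero_iff (two_ne_zero) |>.mp this
      rw [h9]
      simp
  · rw [hb φ (mem_irrF.mp hφ), h5]
    simp

end iso

section reduce

variable {G : Type} [Group G] [Finite G] {N : ℕ}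

lemma pow_ug (hN : 0 < N) {m : ℕ} {u : (ZMod N)ˣ} (hu : u ∈ Ug N m) {M : Type*} [Monoid M]
    {g : M} (hg : g ^ N = 1) (hm : ¬ m ∣ orderOf g) : g ^ (u : ZMod N).val = g := by
  have hgN : orderOf g ∣ N := orderOf_dvd_of_pow_eq_one hg
  have h0 : 0 < orderOf g := Nat.pos_of_dvd_of_pos hgN hN
  have hζ : IsPrimitiveRoot (Complex.exp (2 * Real.pi * Complex.I / orderOf g)) (orderOf g) :=
    Complex.isPrimitiveRoot_exp (orderOf g) h0.ne'
  set ζ := Complex.exp (2 * Real.pi * Complex.I / orderOf g)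
  have h1 : ζ ^ (u : ZMod N).val = ζ := by
    apply hu
    · obtain ⟨c, hc⟩ := hgN
      rw [hc, pow_mul, hζ.pow_eq_one, one_pow]
    · rw [← hζ.eq_orderOf]
      exact hm
  have h2 : ζ ^ ((u : ZMod N).val % orderOf g) = ζ ^ (1 % orderOf g) := by
    rw [← pow_eq_pow_mod _ hζ.pow_eq_one, ← pow_eq_pow_mod _ hζ.pow_eq_one, h1, pow_one]
  have h3 := hζ.pow_inj (Nat.mod_lt _ h0) (Nat.mod_lt _ h0) h2
  have h4 : g ^ (u : ZMod N).val = g ^ 1 :=
    pow_eq_of_modEq (pow_orderOf_eq_one g) h3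
  rw [h4, pow_one]

lemma pw_class (k : (ZMod N)ˣ) {f : G → ℂ} (hf : ∀ g x : G, f (x * g * x⁻¹) = f g) (g x : G) :
    pw k f (x * g * x⁻¹) = pw k f g := by
  change f ((x * g * x⁻¹) ^ _) = f (g ^ _)
  rw [conj_pow, hf]

lemma pw_sub (k : (ZMod N)ˣ) (a b : G → ℂ) : pw k (a - b) = pw k a - pw k b := rfl

lemma pr_sub_left (a b c : G → ℂ) : pr (a - b) c = pr a c - pr b c := pr_sub a b c

lemma pr_sub_right (a b c : G → ℂ) : pr c (a - b) = pr c a - pr c b := by
  rw [pr_comm, pr_sub, pr_comm, pr_comm b]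

lemma pr_ite {χ χ' : G → ℂ} (hχ : χ ∈ Irr G) (hχ' : χ' ∈ Irr G) [Decidable (χ = χ')] :
    pr χ χ' = if χ = χ' then 1 else 0 := by
  split_ifs with h
  · rw [h, pr_self hχ']
  · exact pr_ne hχ hχ' h

/-- **Reduction.** -/
theorem reduce (hN : 0 < N) (hG : Nat.card G ∣ N) {χ : G → ℂ} (hχ : χ ∈ Irr G) (H : Subgroup G)
    {m : ℕ}
    (hcov : ∀ s : G, m ∣ orderOf s → ∃ x, x * s * x⁻¹ ∈ H)
    (hTI : ∀ s : G, m ∣ orderOf s → s ∈ H → ∀ x, x * s * x⁻¹ ∈ H → x ∈ H)
    {u : (ZMod N)ˣ} (hu : u ∈ Ug N m) (hmv : pw u χ ≠ χ) :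
    ∃ η ∈ Irr H, pr (fun h : H => χ h) η ≠ 0 ∧ ∀ k : (ZMod N)ˣ, pw k η = η → pw k χ = χ := by
  classical
  have hHN : Nat.card H ∣ N := H.card_subgroup_dvd_card.trans hG
  set χ' : G → ℂ := pw u χ with hχ'def
  have hχ' : χ' ∈ Irr G := irr_pw hN hG u hχ
  have hcl : ∀ g x : G, χ (x * g * x⁻¹) = χ g := fun g x => Irr.conj hχ g x
  have hcl' : ∀ g x : G, χ' (x * g * x⁻¹) = χ' g := fun g x => Irr.conj hχ' g x
  let S : Set G := {g | m ∣ orderOf g}
  have hSc : ∀ s ∈ S, ∀ x, x * s * x⁻¹ ∈ S := by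
    intro s hs x
    have h1 : orderOf (x * s * x⁻¹) = orderOf s := by
      have h2 : x * s * x⁻¹ = MulAut.conj x s := rfl
      rw [h2, MulEquiv.orderOf_eq]
    change m ∣ orderOf (x * s * x⁻¹)
    rw [h1]
    exact hs
  set α : G → ℂ := χ - χ' with hα
  have hαcl : ∀ g x : G, α (x * g * x⁻¹) = α g := by
    intro g x
    rw [hα, Pi.sub_apply, Pi.sub_apply, hcl, hcl']
  have hα0 : ∀ g, g ∉ S → α g = 0 := by
    intro g hg
    change χ g - χ (g ^ (u : ZMod N).val) = 0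
    rw [pow_ug hN hu (pow_card_dvd hG g) hg, sub_self]
  -- norm of the restriction
  let β : H → ℂ := fun h => α h
  have hVχ : ∀ {θ : G → ℂ}, θ ∈ Irr G → Virt (fun h : H => θ h) := fun hθ =>
    Virt.comp (AddSubgroup.subset_closure hθ) H.subtype
  have hβV : Virt β := by
    have h1 : β = (fun h : H => χ h) - (fun h : H => χ' h) := rfl
    rw [h1]
    exact sub_mem (S := AddSubgroup (H → ℂ)) (hVχ hχ) (hVχ hχ')
  have hβ1 : β 1 = 0 := by
    change χ ((1 : H) : G) - χ (((1 : H) : G) ^ _) = 0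
    rw [Subgroup.coe_one, one_pow, sub_self]
  have hne : χ ≠ χ' := fun h => hmv h.symm
  have hαα : pr α α = 2 := by
    rw [hα, pr_sub_left, pr_sub_right, pr_sub_right, pr_self hχ, pr_self hχ', pr_ne hχ hχ' hne,
      pr_ne hχ' hχ hne.symm]
    norm_num
  have hββ : pr β β = 2 := by
    rw [← hαα]
    exact (pr_iso H S hcov hSc hTI hαcl hαcl hα0).symm
  obtain ⟨φ, hφ, φ', hφ', hφne, hβφ, hβφ1⟩ := norm_two hβV hβ1 hββ
  refine ⟨φ, hφ, ?_, ?_⟩
  · intro h0
    have h1 : pr β φ = pr (fun h : H => χ h) φ - pr (fun h : H => χ' h) φ := pr_sub_left _ _ _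
    obtain ⟨n', hn'⟩ := pr_res_nat H hχ' hφ
    rw [h0, hn', hβφ1] at h1
    have h2 : ((1 + n' : ℕ) : ℂ) = ((0 : ℕ) : ℂ) := by
      push_cast
      linear_combination h1
    have h3 := Nat.cast_injective h2
    omega
  · intro k hk
    by_contra hkχ
    -- the difference
    set χk : G → ℂ := pw k χ with hχk
    set χk' : G → ℂ := pw k χ' with hχk'
    have hχkI : χk ∈ Irr G := irr_pw hN hG k hχ
    have hχkI' : χk' ∈ Irr G := irr_pw hN hG k hχ'
    let γ : G → ℂ := pw k α - α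
    have hγcl : ∀ g x : G, γ (x * g * x⁻¹) = γ g := by
      intro g x
      change pw k α (x * g * x⁻¹) - α (x * g * x⁻¹) = pw k α g - α g
      rw [pw_class k hαcl, hαcl]
    have hγ0 : ∀ g, g ∉ S → γ g = 0 := by
      intro g hg
      change α (g ^ (k : ZMod N).val) - α g = 0
      have h1 : g ^ (k : ZMod N).val ∉ S := by
        intro h1
        apply hg
        have h2 : orderOf (g ^ (k : ZMod N).val) ∣ orderOf g := orderOf_pow_dvd _
        exact Dvd.dvd.trans h1 h2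
      rw [hα0 _ h1, hα0 g hg, sub_self]
    have hiso : pr γ γ = pr (fun h : H => γ h) (fun h : H => γ h) :=
      pr_iso H S hcov hSc hTI hγcl hγcl hγ0
    -- upper bound
    have hup : pr (fun h : H => γ h) (fun h : H => γ h) = 0 ∨
        pr (fun h : H => γ h) (fun h : H => γ h) = 2 := by
      have h1 : (fun h : H => γ h) = φ' - pw k φ' := by
        have h2 : (fun h : H => γ h) = pw k β - β := rfl
        rw [h2, hβφ, pw_sub, hk]
        abel
      have hI : pw k φ' ∈ Irr H := irr_pw hN hHN k hφ'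
      rw [h1, pr_sub_left, pr_sub_right, pr_sub_right, pr_self hφ', pr_self hI]
      by_cases h3 : φ' = pw k φ'
      · left
        rw [← h3, pr_self hφ']
        ring
      · right
        rw [pr_ne hφ' hI h3, pr_ne hI hφ' (Ne.symm h3)]
        norm_num
    -- lower bound
    have hcomm : χk' = pw u χk := by
      rw [hχk', hχ'def, hχk, ← pw_mul hN hG, ← pw_mul hN hG, mul_comm]
    have h12 : χk ≠ χk' := by
      intro h
      apply hne
      have h1 : pw k⁻¹ χk = χ := by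
        rw [hχk, ← pw_mul hN hG, inv_mul_cancel, pw_one hN hG]
      have h2 : pw k⁻¹ χk' = χ' := by
        rw [hχk', ← pw_mul hN hG, inv_mul_cancel, pw_one hN hG]
      rw [← h1, ← h2, h]
    have h34 : χk' ≠ χ' := by
      intro h
      apply hkχ
      have h1 : pw u⁻¹ χk' = χk := by
        rw [hcomm, ← pw_mul hN hG, inv_mul_cancel, pw_one hN hG]
      have h2 : pw u⁻¹ χ' = χ := by
        rw [hχ'def, ← pw_mul hN hG, inv_mul_cancel, pw_one hN hG]
      rw [← h1, ← h2, h]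
    have hlow : pr γ γ = 4 + 2 * (if χk = χ' then 1 else 0) + 2 * (if χ = χk' then 1 else 0) := by
      have h1 : γ = χk - χk' - (χ - χ') := rfl
      rw [h1]
      simp only [pr_sub_left, pr_sub_right, pr_ite hχ hχ, pr_ite hχ hχ', pr_ite hχ hχkI,
        pr_ite hχ hχkI', pr_ite hχ' hχ, pr_ite hχ' hχ', pr_ite hχ' hχkI, pr_ite hχ' hχkI',
        pr_ite hχkI hχ, pr_ite hχkI hχ', pr_ite hχkI hχkI, pr_ite hχkI hχkI', pr_ite hχkI' hχ,
        pr_ite hχkI' hχ', pr_ite hχkI' hχkI, pr_ite hχkI' hχkI']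
      simp only [if_neg hne, if_neg hne.symm, if_neg h12, if_neg h12.symm, if_neg h34,
        if_neg h34.symm, if_neg hkχ, if_neg (Ne.symm hkχ), if_true, if_pos]
      have e1 : (if χ' = χk then (1 : ℂ) else 0) = if χk = χ' then 1 else 0 := by
        simp only [eq_comm]
      have e2 : (if χk' = χ then (1 : ℂ) else 0) = if χ = χk' then 1 else 0 := by
        simp only [eq_comm]
      rw [e1, e2]
      ring
    rw [hiso] at hlow
    have hre : (4 : ℝ) ≤ (pr (fun h : H => γ h) (fun h : H => γ h)).re := by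
      rw [hlow]
      split_ifs <;> norm_num
    rcases hup with h | h
    · rw [h] at hre
      norm_num at hre
    · rw [h] at hre
      norm_num at hre

end reduce

end Pool.Agent.Helper606_LC
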