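import Mathlib
import Pool.Agent.Helper606_LC.Core
import Pool.Agent.Helper606_LC.Iso

/-!
# Integrality and characters fixed by a subgroup of the stabilizer
-/

set_option autoImplicit false
set_option linter.unusedSectionVars false

namespace Pool.Agent.Helper606_LC

open Pool.Agent.H541R3.ART Pool.Agent.W446.AS Pool.Agent.R389 Pool.Agent.H302R3 MulAction

/-- sums of invariant functions which vanish on fixed points -/
lemma sum_no_fixed {S X F : Type*} [Group S] [Finite S] [Fintype X] [MulAction S X] [Field F]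
    {ℓ : ℕ} [CharP F ℓ] [Fact ℓ.Prime] (hS : IsPGroup ℓ S) (A : X → F)
    (hA : ∀ (s : S) (x : X), A (s • x) = A x) (h0 : ∀ x, (∀ s : S, s • x = x) → A x = 0) :
    ∑ x, A x = 0 := by
  classical
  have h1 : ∑ x, A x = ∑ v ∈ Finset.univ.image A, ∑ x ∈ Finset.univ.filter (fun x => A x = v), A x :=
    (Finset.sum_fiberwise_of_maps_to (fun x hx => Finset.mem_image_of_mem A hx) A).symm
  rw [h1]
  refine Finset.sum_eq_zero fun v _ => ?_
  have h2 : ∑ x ∈ Finset.univ.filter (fun x => A x = v), A x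
      = ((Finset.univ.filter (fun x => A x = v)).card : F) * v := by
    rw [Finset.sum_congr rfl (fun x hx => (Finset.mem_filter.mp hx).2), Finset.sum_const,
      nsmul_eq_mul]
  rw [h2]
  by_cases hv : v = 0
  · rw [hv, mul_zero]
  let act : MulAction S {x : X // A x = v} :=
    { smul := fun s x => ⟨s • x.1, by rw [hA]; exact x.2⟩
      one_smul := fun x => Subtype.ext (one_smul S x.1)
      mul_smul := fun s t x => Subtype.ext (mul_smul s t x.1) }
  have h3 := hS.card_modEq_card_fixedPoints {x : X // A x = v}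
  have h4 : IsEmpty (fixedPoints S {x : X // A x = v}) := by
    constructor
    rintro ⟨⟨x, hx⟩, hfx⟩
    apply hv
    rw [← hx]
    exact h0 x fun s => congrArg Subtype.val (hfx s)
  have h5 : Nat.card (fixedPoints S {x : X // A x = v}) = 0 := Nat.card_of_isEmpty
  rw [h5] at h3
  have h6 : ℓ ∣ Nat.card {x : X // A x = v} := (Nat.modEq_zero_iff_dvd).mp h3
  have h7 : Nat.card {x : X // A x = v} = (Finset.univ.filter (fun x => A x = v)).card := by
    rw [Nat.card_eq_fintype_card, Fintype.card_subtype]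
  rw [h7] at h6
  rw [(CharP.cast_eq_zero_iff F ℓ _).mpr h6, zero_mul]

section gen

variable {G : Type} [Group G] [Finite G] {N : ℕ} (hN : 0 < N) (hG : Nat.card G ∣ N) {χ : G → ℂ}

/-- fixed-point counts of finite sets with hyperelementary stabilizers -/
lemma count_gen (hχ : χ ∈ Irr G) {ℓ : ℕ} (J : AddSubgroup (Gam hN hG χ → ℤ))
    (hJ : ∀ H : Subgroup G, HypP ℓ H →
      ∃ f ∈ J, ∀ γ, pr (fun h : H => χ h) (fun h : H => cj hN hG χ γ h) = f γ)
    {c : G → ℕ} (hc : HypPCount ℓ c) :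
    ∃ f ∈ J, ∀ γ, pr (fun g => (c g : ℂ) * χ g) (cj hN hG χ γ) = f γ := by
  classical
  have : Fintype G := Fintype.ofFinite G
  obtain ⟨X, _, _, hX, hcX⟩ := hc
  have key : ∀ ω : Quotient (orbitRel G X), ∃ f ∈ J, ∀ γ,
      pr (fun h : stabilizer G ω.out => χ h) (fun h : stabilizer G ω.out => cj hN hG χ γ h) = f γ :=
    fun ω => hJ _ (hX ω.out)
  choose f hf hf1 using key
  have : Fintype X := Fintype.ofFinite _
  refine ⟨∑ ω : Quotient (orbitRel G X), f ω, sum_mem fun ω _ => hf ω, fun γ => ?_⟩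
  rw [Finset.sum_apply, Int.cast_sum, pr_eq]
  have h1 : ∀ g : G, (c g : ℂ) * χ g * cj hN hG χ γ g⁻¹
      = χ g * cj hN hG χ γ g⁻¹ * (Nat.card {x : X // g • x = x} : ℂ) := by
    intro g
    rw [hcX]
    ring
  rw [Finset.sum_congr rfl (fun g _ => h1 g), sum_count (θ := fun g => χ g * cj hN hG χ γ g⁻¹) ?_ X,
    ← mul_assoc, inv_mul_cancel₀ card_ne, one_mul, finsum_eq_sum_of_fintype]
  · refine Finset.sum_congr rfl fun ω _ => ?_
    rw [← hf1 ω γ]
    rfl
  · intro g x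
    have h2 : (x * g * x⁻¹)⁻¹ = x * g⁻¹ * x⁻¹ := by group
    rw [h2, Irr.conj hχ, Irr.conj (cj_irr hN hG hχ γ)]

/-- **Integrality.** A multiple prime to `ℓ` of the delta function on the Galois orbit of `χ` lies in
every group of functions which contains the functions coming from hyperelementary subgroups. -/
theorem delta_gen (hχ : χ ∈ Irr G) {ℓ : ℕ} (hℓ : ℓ.Prime) (J : AddSubgroup (Gam hN hG χ → ℤ))
    (hJ : ∀ H : Subgroup G, HypP ℓ H →
      ∃ f ∈ J, ∀ γ, pr (fun h : H => χ h) (fun h : H => cj hN hG χ γ h) = f γ) :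
    ∃ (M : ℤ) (f : Gam hN hG χ → ℤ), ¬ (ℓ : ℤ) ∣ M ∧ f ∈ J ∧ f 1 = M ∧
      ∀ γ, γ ≠ 1 → f γ = 0 := by
  classical
  have : Fintype G := Fintype.ofFinite G
  obtain ⟨M, hM, hM1⟩ := exists_const (G := G) hℓ
  have key : ∀ j ∈ Cnt G ℓ, ∃ f ∈ J, ∀ γ,
      pr (fun g => (j g : ℂ) * χ g) (cj hN hG χ γ) = f γ := by
    intro j hj
    induction hj using AddSubgroup.closure_induction with
    | mem j hj =>
      obtain ⟨c, hc, rfl⟩ := hj
      obtain ⟨f, hf, hf1⟩ := count_gen hN hG hχ J hJ hc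
      refine ⟨f, hf, fun γ => ?_⟩
      rw [← hf1 γ]
      simp only [Int.cast_natCast]
    | zero =>
      refine ⟨0, zero_mem _, fun γ => ?_⟩
      rw [pr_eq]
      simp
    | add a b _ _ ha hb =>
      obtain ⟨f, hf, hf1⟩ := ha
      obtain ⟨f', hf', hf1'⟩ := hb
      refine ⟨f + f', add_mem hf hf', fun γ => ?_⟩
      rw [Pi.add_apply, Int.cast_add, ← hf1, ← hf1', ← pr_add]
      congr 1
      funext g
      simp only [Pi.add_apply, Int.cast_add]
      ring
    | neg a _ ha =>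
      obtain ⟨f, hf, hf1⟩ := ha
      refine ⟨-f, neg_mem hf, fun γ => ?_⟩
      rw [Pi.neg_apply, Int.cast_neg, ← hf1, ← pr_neg]
      congr 1
      funext g
      simp only [Pi.neg_apply, Int.cast_neg]
      ring
  obtain ⟨f, hf, hf1⟩ := key _ hM1
  have h1 : ∀ γ, pr (fun g => (M : ℂ) * χ g) (cj hN hG χ γ) = M * pr χ (cj hN hG χ γ) := by
    intro γ
    rw [pr_eq, pr_eq]
    have h2 : ∀ g : G, (M : ℂ) * χ g * cj hN hG χ γ g⁻¹ = M * (χ g * cj hN hG χ γ g⁻¹) :=
      fun g => mul_assoc _ _ _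
    rw [Finset.sum_congr rfl (fun g _ => h2 g), ← Finset.mul_sum]
    ring
  refine ⟨M, f, hM, hf, ?_, fun γ hγ => ?_⟩
  · have h2 := hf1 1
    rw [h1, (cj_eq_iff hN hG χ 1).mpr rfl, pr_self hχ, mul_one] at h2
    exact_mod_cast h2.symm
  · have h2 := hf1 γ
    have hne : χ ≠ cj hN hG χ γ := fun h => hγ ((cj_eq_iff hN hG χ γ).mp h.symm)
    rw [h1, pr_ne hχ (cj_irr hN hG hχ γ) hne, mul_zero] at h2
    exact_mod_cast h2.symm

/-- **The criterion with fixed characters.** -/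
theorem crit_fixed {F : Type*} [Field F] {ℓ : ℕ} [CharP F ℓ] (hℓ : ℓ.Prime) (hχ : χ ∈ Irr G)
    {ι : Type*} {I : Finset ι} {m : ι → ℕ}
    (S : Subgroup (ZMod N)ˣ) (hS : IsPGroup ℓ S) (hSχ : ∀ s ∈ S, pw s χ = χ)
    (ψ : Gam hN hG χ →* Fˣ)
    (hψ : ∀ i ∈ I, ∃ u ∈ Ug N (m i), ψ (gmk hN hG χ u) ≠ 1 ∨ ℓ ∣ orderOf (gmk hN hG χ u)) :
    ∃ (H : Subgroup G) (φ : H → ℂ), HypP ℓ H ∧ φ ∈ Irr H ∧ pr (fun h : H => χ h) φ ≠ 0 ∧
      (∀ s ∈ S, pw s φ = φ) ∧ ∀ i ∈ I, ∃ u ∈ Ug N (m i), pw u φ ≠ φ := by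
  classical
  have hfin := gam_finite hN hG χ
  have : Fintype (Gam hN hG χ) := Fintype.ofFinite _
  have : Fact ℓ.Prime := ⟨hℓ⟩
  have hN' : NeZero N := ⟨hN.ne'⟩
  by_contra hcon
  push Not at hcon
  let Φ : (Gam hN hG χ → ℤ) →+ F :=
    AddMonoidHom.mk' (fun f => ∑ γ, ((ψ γ : Fˣ) : F) * (f γ : F)) (by
      intro a b
      simp only [Pi.add_apply, Int.cast_add, mul_add, Finset.sum_add_distrib])
  obtain ⟨M, f, hM, hf, h1, h0⟩ := delta_gen hN hG hχ hℓ Φ.ker (by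
    intro H hH
    have hHN : Nat.card H ∣ N := H.card_subgroup_dvd_card.trans hG
    choose! n hn using fun φ (hφ : φ ∈ Irr H) => pr_res_nat H hχ hφ
    have hk : ∀ φ ∈ Irr H, ∀ γ, ∃ k : ℕ, pr φ (fun h : H => cj hN hG χ γ h) = k := by
      intro φ hφ γ
      obtain ⟨k, hk⟩ := pr_res_nat H (cj_irr hN hG hχ γ) hφ
      exact ⟨k, by rw [pr_comm]; exact hk⟩
    choose! k hk using hk
    refine ⟨fun γ => ∑ φ ∈ irrF H, (n φ : ℤ) * k φ γ, ?_, fun γ => ?_⟩
    swap
    · rw [pr_expand (a := fun h : H => χ h) (fun g x => Irr.conj hχ (g : G) (x : G))]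
      push_cast
      refine Finset.sum_congr rfl fun φ hφ => ?_
      rw [hn φ (mem_irrF.mp hφ), hk φ (mem_irrF.mp hφ)]
    -- the value at `ψ`
    change ∑ γ, ((ψ γ : Fˣ) : F) * (((∑ φ ∈ irrF H, (n φ : ℤ) * k φ γ : ℤ)) : F) = 0
    have h2 : ∑ γ, ((ψ γ : Fˣ) : F) * (((∑ φ ∈ irrF H, (n φ : ℤ) * k φ γ : ℤ)) : F)
        = ∑ φ ∈ irrF H, (n φ : F) * ∑ γ, ((ψ γ : Fˣ) : F) * (((k φ γ : ℕ) : ℤ) : F) := by
      simp only [Finset.mul_sum, Int.cast_sum, Int.cast_mul, Int.cast_natCast]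
      rw [Finset.sum_comm]
      refine Finset.sum_congr rfl fun φ _ => Finset.sum_congr rfl fun γ _ => ?_
      ring
    rw [h2]
    let act : MulAction S (irrF H) :=
      { smul := fun s x => ⟨pw (s : (ZMod N)ˣ) x.1,
          mem_irrF.mpr (irr_pw hN hHN _ (mem_irrF.mp x.2))⟩
        one_smul := fun x => Subtype.ext (pw_one hN hHN x.1)
        mul_smul := fun s t x => Subtype.ext (pw_mul hN hHN (s : (ZMod N)ˣ) t x.1) }
    rw [← Finset.sum_coe_sort (irrF H) (fun φ => (n φ : F) *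
      ∑ γ, ((ψ γ : Fˣ) : F) * (((k φ γ : ℕ) : ℤ) : F))]
    refine sum_no_fixed hS _ ?_ ?_
    · rintro ⟨s, hs⟩ ⟨φ, hφ⟩
      change (n (pw s φ) : F) * ∑ γ, ((ψ γ : Fˣ) : F) * (((k (pw s φ) γ : ℕ) : ℤ) : F)
        = (n φ : F) * ∑ γ, ((ψ γ : Fˣ) : F) * (((k φ γ : ℕ) : ℤ) : F)
      have hφ' := mem_irrF.mp hφ
      have hsφ : pw s φ ∈ Irr H := irr_pw hN hHN s hφ'
      have hres : ∀ θ : G → ℂ, pw s θ = θ → pw s (fun h : H => θ h) = fun h : H => θ h := by
        intro θ hθ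
        funext h
        exact congrFun hθ (h : G)
      have h3 : n (pw s φ) = n φ := by
        have h4 : ((n (pw s φ) : ℕ) : ℂ) = n φ := by
          rw [← hn _ hsφ, ← hn _ hφ']
          conv_lhs => rw [← hres χ (hSχ s hs)]
          exact pr_pw hHN s _ _
        exact_mod_cast h4
      have h5 : ∀ γ, k (pw s φ) γ = k φ γ := by
        intro γ
        have h6 : ((k (pw s φ) γ : ℕ) : ℂ) = k φ γ := by
          rw [← hk _ hsφ, ← hk _ hφ']
          have h7 : pw s (cj hN hG χ γ) = cj hN hG χ γ := by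
            rw [← cj_mul, (gmk_eq_one hN hG χ).mpr (hSχ s hs), mul_one]
          conv_lhs => rw [← hres _ h7]
          exact pr_pw hHN s _ _
        exact_mod_cast h6
      rw [h3]
      congr 1
      exact Finset.sum_congr rfl fun γ _ => by rw [h5]
    · rintro ⟨φ, hφ⟩ hfix
      have hφ' := mem_irrF.mp hφ
      by_cases hn0 : pr (fun h : H => χ h) φ = 0
      · have h3 : n φ = 0 := by
          have h4 := hn φ hφ'
          rw [hn0] at h4
          exact_mod_cast h4.symm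
        change (n φ : F) * _ = 0
        rw [h3, Nat.cast_zero, zero_mul]
      · obtain ⟨i, hi, hui⟩ := hcon H φ hH hφ' hn0 (fun s hs => congrArg Subtype.val (hfix ⟨s, hs⟩))
        obtain ⟨u, hu, hu1⟩ := hψ i hi
        change (n φ : F) * ∑ γ, ((ψ γ : Fˣ) : F) * (((k φ γ : ℕ) : ℤ) : F) = 0
        rw [sum_vanish ψ hu1 (b := fun γ => ((k φ γ : ℕ) : ℤ)) ?_, mul_zero]
        intro γ
        have h6 : ((k φ (γ * gmk hN hG χ u) : ℕ) : ℂ) = k φ γ := by
          rw [← hk _ hφ', ← hk _ hφ', cj_mul]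
          conv_lhs => rw [← hui u hu]
          exact pr_pw hHN u φ (fun h : H => cj hN hG χ γ h)
        have h7 : k φ (γ * gmk hN hG χ u) = k φ γ := by exact_mod_cast h6
        exact_mod_cast h7)
  apply hM
  have h3 : ∑ γ, ((ψ γ : Fˣ) : F) * (f γ : F) = 0 := hf
  rw [Finset.sum_eq_single 1] at h3
  · rw [map_one, Units.val_one, one_mul, h1] at h3
    exact (CharP.intCast_eq_zero_iff F ℓ M).mp h3
  · intro γ _ hγ
    rw [h0 γ hγ]
    simp
  · intro h
    exact absurd (Finset.mem_univ _) h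

end gen

end Pool.Agent.Helper606_LC
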