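import Mathlib
import Pool.Agent.Helper606_LC.Iso

/-!
# Reductions
-/

set_option autoImplicit false
set_option linter.unusedSectionVars false

namespace Pool.Agent.Helper606_LC

open Pool.Agent.H541R3.ART Pool.Agent.W446.AS Pool.Agent.R389

section cyc

/-- all `p`-subgroups are cyclic -/
def CycP (p : ℕ) (G : Type*) [Group G] : Prop := ∀ Q : Subgroup G, IsPGroup p Q → IsCyclic Q

variable {G : Type} [Group G] [Finite G] {p : ℕ}

lemma cycP_of_sylow [Fact p.Prime] (P : Sylow p G) (hP : IsCyclic P) : CycP p G := by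
  intro Q hQ
  obtain ⟨P', hP'⟩ := hQ.exists_le_sylow
  have h1 : IsCyclic P' := isCyclic_of_surjective (P.equiv P').toMonoidHom (P.equiv P').surjective
  exact isCyclic_of_injective (Subgroup.inclusion hP') (Subgroup.inclusion_injective hP')

lemma CycP.sub (h : CycP p G) (H : Subgroup G) : CycP p H := by
  intro Q hQ
  have h1 : IsCyclic (Q.map H.subtype) := h _ (hQ.map H.subtype)
  let e := Q.equivMapOfInjective H.subtype H.subtype_injective
  exact isCyclic_of_injective e.toMonoidHom e.injective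

lemma sylow_surj (hp : p.Prime) {Y : Type} [Group Y] [Finite Y] {π : G →* Y}
    (hπ : Function.Surjective π) (hY : IsPGroup p Y) (P : Sylow p G) :
    ∀ y : Y, ∃ x ∈ (P : Subgroup G), π x = y := by
  have : Fact p.Prime := ⟨hp⟩
  intro y
  have h1 : (P : Subgroup G) ⊔ π.ker = ⊤ := by
    have h2 : ((P : Subgroup G) ⊔ π.ker).index = 1 := by
      have h3 : ((P : Subgroup G) ⊔ π.ker).index ∣ (P : Subgroup G).index :=
        Subgroup.index_dvd_of_le le_sup_left
      have h4 : ((P : Subgroup G) ⊔ π.ker).index ∣ π.ker.index :=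
        Subgroup.index_dvd_of_le le_sup_right
      obtain ⟨n, hn⟩ := IsPGroup.iff_card.mp hY
      have h5 : π.ker.index = p ^ n := by
        rw [Subgroup.index_eq_card, ← hn]
        exact Nat.card_congr (QuotientGroup.quotientKerEquivOfSurjective π hπ).toEquiv
      rw [h5] at h4
      obtain ⟨m, -, hm⟩ := (Nat.dvd_prime_pow hp).mp h4
      rw [hm] at h3 ⊢
      rcases Nat.eq_zero_or_pos m with h0 | h0
      · rw [h0, pow_zero]
      · exact absurd ((dvd_pow_self p h0.ne').trans h3) P.not_dvd_index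
    exact Subgroup.index_eq_one.mp h2
  obtain ⟨g, rfl⟩ := hπ y
  have hg : g ∈ (P : Subgroup G) ⊔ π.ker := by rw [h1]; exact Subgroup.mem_top g
  rw [Subgroup.mem_sup_of_normal_right] at hg
  obtain ⟨x, hx, k, hk, rfl⟩ := hg
  refine ⟨x, hx, ?_⟩
  rw [map_mul, MonoidHom.mem_ker.mp hk, mul_one]

lemma CycP.quot (hp : p.Prime) (h : CycP p G) {Y : Type} [Group Y] [Finite Y] {π : G →* Y}
    (hπ : Function.Surjective π) : CycP p Y := by
  have : Fact p.Prime := ⟨hp⟩
  intro Q hQ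
  let Q' : Subgroup G := Q.comap π
  let f : Q' →* Q := π.subgroupComap Q
  have hf : Function.Surjective f := by
    rintro ⟨y, hy⟩
    obtain ⟨g, rfl⟩ := hπ y
    exact ⟨⟨g, hy⟩, rfl⟩
  obtain ⟨P⟩ : Nonempty (Sylow p Q') := inferInstance
  have hP : IsCyclic P := h.sub Q' P P.isPGroup'
  refine isCyclic_of_surjective (f.comp (P : Subgroup Q').subtype) ?_
  intro y
  obtain ⟨x, hx, rfl⟩ := sylow_surj hp hf hQ P y
  exact ⟨⟨x, hx⟩, rfl⟩

/-- in a cyclic subgroup there is only one subgroup of each order -/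
lemma cyc_mem {Q : Subgroup G} (hQ : IsCyclic Q) {x y : G} (hx : x ∈ Q) (hy : y ∈ Q)
    (h : orderOf x = orderOf y) : Subgroup.zpowers x = Subgroup.zpowers y := by
  classical
  have : Fintype Q := Fintype.ofFinite Q
  have key : ∀ x y : G, x ∈ Q → y ∈ Q → orderOf x = orderOf y → y ∈ Subgroup.zpowers x := by
    intro x y hx hy h
    have h0 : 0 < orderOf x := orderOf_pos x
    let T : Finset Q := Finset.univ.filter fun a : Q => a ^ orderOf x = 1
    have h1 : T.card ≤ orderOf x := IsCyclic.card_pow_eq_one_le h0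
    let Z : Finset Q := (Finset.range (orderOf x)).image fun i => (⟨x, hx⟩ : Q) ^ i
    have hZT : Z ⊆ T := by
      intro z hz
      obtain ⟨i, -, rfl⟩ := Finset.mem_image.mp hz
      rw [Finset.mem_filter]
      refine ⟨Finset.mem_univ _, ?_⟩
      have h2 : (⟨x, hx⟩ : Q) ^ orderOf x = 1 := Subtype.ext (by simp [pow_orderOf_eq_one])
      rw [← pow_mul, mul_comm, pow_mul, h2, one_pow]
    have hZc : Z.card = orderOf x := by
      rw [Finset.card_image_of_injOn, Finset.card_range]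
      intro i hi j hj hij
      have h2 : x ^ i = x ^ j := by
        have := congrArg Subtype.val hij
        simpa using this
      exact pow_injOn_Iio_orderOf (Finset.mem_range.mp hi) (Finset.mem_range.mp hj) h2
    have h3 : Z = T := Finset.eq_of_subset_of_card_le hZT (by rw [hZc]; exact h1)
    have h4 : (⟨y, hy⟩ : Q) ∈ T := by
      rw [Finset.mem_filter]
      refine ⟨Finset.mem_univ _, Subtype.ext ?_⟩
      simp [h, pow_orderOf_eq_one]
    rw [← h3] at h4
    obtain ⟨i, -, hi⟩ := Finset.mem_image.mp h4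
    refine ⟨i, ?_⟩
    have h5 := congrArg Subtype.val hi
    simpa using h5
  apply le_antisymm
  · rw [Subgroup.zpowers_le]
    exact key y x hy hx h.symm
  · rw [Subgroup.zpowers_le]
    exact key x y hx hy h

lemma zpowers_conj (x g : G) {y : G} :
    y ∈ Subgroup.zpowers (g * x * g⁻¹) ↔ g⁻¹ * y * g ∈ Subgroup.zpowers x := by
  constructor
  · rintro ⟨k, rfl⟩
    refine ⟨k, ?_⟩
    simp only
    rw [conj_zpow]
    group
  · rintro ⟨k, hk⟩
    refine ⟨k, ?_⟩
    simp only at hk ⊢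
    rw [conj_zpow, hk]
    group

lemma orderOf_conj' (x g : G) : orderOf (g * x * g⁻¹) = orderOf x := by
  have h2 : g * x * g⁻¹ = MulAut.conj g x := rfl
  rw [h2, MulEquiv.orderOf_eq]

/-- elements of the same `p`-power order generate conjugate subgroups -/
lemma cyc_conj (hp : p.Prime) (h : CycP p G) {a : ℕ} {x y : G} (hx : orderOf x = p ^ a)
    (hy : orderOf y = p ^ a) :
    ∃ g, Subgroup.zpowers (g * x * g⁻¹) = Subgroup.zpowers y := by
  have : Fact p.Prime := ⟨hp⟩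
  have hpx : IsPGroup p (Subgroup.zpowers x) := IsPGroup.of_card (n := a) (by
    rw [Nat.card_zpowers, hx])
  have hpy : IsPGroup p (Subgroup.zpowers y) := IsPGroup.of_card (n := a) (by
    rw [Nat.card_zpowers, hy])
  obtain ⟨P, hP⟩ := hpx.exists_le_sylow
  obtain ⟨P', hP'⟩ := hpy.exists_le_sylow
  obtain ⟨g, hg⟩ := MulAction.exists_smul_eq G P P'
  refine ⟨g, cyc_mem (h P' P'.isPGroup') ?_ (hP' (Subgroup.mem_zpowers y)) ?_⟩
  · rw [← hg]
    have h1 : x ∈ (P : Subgroup G) := hP (Subgroup.mem_zpowers x)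
    have h2 : g * x * g⁻¹ ∈ ((g • P : Sylow p G) : Subgroup G) := by
      rw [Sylow.coe_subgroup_smul]
      exact ⟨x, h1, rfl⟩
    exact h2
  · rw [orderOf_conj', hx, hy]

/-- the distinguished power of order `p ^ a` -/
lemma exists_power {p a : ℕ} {s : G} (hs : p ^ a ∣ orderOf s) :
    orderOf (s ^ (orderOf s / p ^ a)) = p ^ a :=
  orderOf_pow_orderOf_div (orderOf_pos s).ne' hs

variable {a : ℕ} {x₀ : G}

lemma cover (hp : p.Prime) (h : CycP p G) (hx₀ : orderOf x₀ = p ^ a) {s : G}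
    (hs : p ^ a ∣ orderOf s) :
    ∃ x, x * s * x⁻¹ ∈ Subgroup.normalizer (Subgroup.zpowers x₀ : Set G) := by
  obtain ⟨g, hg⟩ := cyc_conj hp h (exists_power hs) hx₀
  refine ⟨g, ?_⟩
  rw [← hg, Subgroup.mem_normalizer_iff]
  intro y
  rw [zpowers_conj, zpowers_conj]
  have h1 : g⁻¹ * (g * s * g⁻¹ * y * (g * s * g⁻¹)⁻¹) * g = s * (g⁻¹ * y * g) * s⁻¹ := by group
  rw [h1]
  set w := s ^ (orderOf s / p ^ a) with hw
  have hcomm : s * w * s⁻¹ = w := by rw [hw]; exact (Commute.self_pow s _).mul_inv_cancel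
  constructor
  · rintro ⟨k, hk⟩
    refine ⟨k, ?_⟩
    simp only at hk ⊢
    rw [← hk, ← conj_zpow, hcomm]
  · rintro ⟨k, hk⟩
    refine ⟨k, ?_⟩
    simp only at hk ⊢
    have h2 : g⁻¹ * y * g = s⁻¹ * (s * (g⁻¹ * y * g) * s⁻¹) * s := by group
    rw [h2, ← hk]
    have h3 : s⁻¹ * w ^ k * s = (s⁻¹ * w * s) ^ k := by
      have := conj_zpow (i := k) (a := s⁻¹) (b := w)
      rw [inv_inv] at this
      exact this.symm
    have h4 : s⁻¹ * w * s = w := by
      have h5 : s * w = w * s := mul_inv_eq_iff_eq_mul.mp hcomm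
      rw [mul_assoc, ← h5, inv_mul_cancel_left]
    rw [h3, h4]

lemma norm_eq (hp : p.Prime) (h : CycP p G) (hx₀ : orderOf x₀ = p ^ a) {s : G}
    (hs : p ^ a ∣ orderOf s) (hsH : s ∈ Subgroup.normalizer (Subgroup.zpowers x₀ : Set G)) :
    Subgroup.zpowers (s ^ (orderOf s / p ^ a)) = Subgroup.zpowers x₀ := by
  have : Fact p.Prime := ⟨hp⟩
  set w := s ^ (orderOf s / p ^ a) with hw
  have hwo : orderOf w = p ^ a := exists_power hs
  have hpx : IsPGroup p (Subgroup.zpowers w) := IsPGroup.of_card (n := a) (by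
    rw [Nat.card_zpowers, hwo])
  have hpy : IsPGroup p (Subgroup.zpowers x₀) := IsPGroup.of_card (n := a) (by
    rw [Nat.card_zpowers, hx₀])
  have hle : Subgroup.zpowers w ≤ Subgroup.normalizer (Subgroup.zpowers x₀ : Set G) := by
    rw [Subgroup.zpowers_le]
    exact Subgroup.pow_mem _ hsH _
  have hsup := hpx.to_sup_of_normal_right' hpy hle
  exact cyc_mem (h _ hsup) (Subgroup.mem_sup_left (Subgroup.mem_zpowers w))
    (Subgroup.mem_sup_right (Subgroup.mem_zpowers x₀)) (by rw [hwo, hx₀])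

lemma tint (hp : p.Prime) (h : CycP p G) (hx₀ : orderOf x₀ = p ^ a) {s : G}
    (hs : p ^ a ∣ orderOf s) (hsH : s ∈ Subgroup.normalizer (Subgroup.zpowers x₀ : Set G)) {x : G}
    (hx : x * s * x⁻¹ ∈ Subgroup.normalizer (Subgroup.zpowers x₀ : Set G)) :
    x ∈ Subgroup.normalizer (Subgroup.zpowers x₀ : Set G) := by
  have h1 := norm_eq hp h hx₀ hs hsH
  have h2 := norm_eq hp h hx₀ (s := x * s * x⁻¹) (by rw [orderOf_conj']; exact hs) hx
  rw [orderOf_conj', conj_pow] at h2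
  set w := s ^ (orderOf s / p ^ a) with hw
  rw [Subgroup.mem_normalizer_iff]
  intro y
  conv_rhs => rw [← h2]
  rw [zpowers_conj, ← h1]
  have h3 : x⁻¹ * (x * y * x⁻¹) * x = y := by group
  rw [h3]

end cyc

section up

variable {G : Type} [Group G] [Finite G] {N : ℕ}

lemma sum_mult {H : Subgroup G} {χ : G → ℂ} (hχ : χ ∈ Irr G) (K : Subgroup H) (μ : K →* ℂˣ)
    [Fintype K] :
    ∑ h : K, χ ((h : H) : G) * (((μ h)⁻¹ : ℂˣ) : ℂ)
      = ∑ φ ∈ irrF H, pr (fun h : H => χ h) φ * ∑ h : K, φ h * (((μ h)⁻¹ : ℂˣ) : ℂ) := by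
  have h1 : ∀ h : K, χ ((h : H) : G) * (((μ h)⁻¹ : ℂˣ) : ℂ)
      = ∑ φ ∈ irrF H, pr (fun h : H => χ h) φ * (φ h * (((μ h)⁻¹ : ℂˣ) : ℂ)) := by
    intro h
    have h2 := class_expand (f := fun h : H => χ h) (fun g x => Irr.conj hχ (g : G) (x : G)) (h : H)
    rw [h2, Finset.sum_mul]
    exact Finset.sum_congr rfl fun φ _ => by ring
  rw [Finset.sum_congr rfl (fun h _ => h1 h), Finset.sum_comm]
  exact Finset.sum_congr rfl fun φ _ => by rw [← Finset.mul_sum]

/-- linear constituents of constituents -/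
lemma hasOrd_up {H : Subgroup G} {χ : G → ℂ} (hχ : χ ∈ Irr G) {η : H → ℂ} (hη : η ∈ Irr H)
    (hne : pr (fun h : H => χ h) η ≠ 0) {d : ℕ} (h : HasOrd η d) : HasOrd χ d := by
  classical
  obtain ⟨K, μ, h1, h2⟩ := h
  have : Fintype K := Fintype.ofFinite K
  let e := K.equivMapOfInjective H.subtype H.subtype_injective
  refine ⟨K.map H.subtype, μ.comp e.symm.toMonoidHom, ?_, ?_⟩
  · have : Fintype (K.map H.subtype) := Fintype.ofFinite _
    rw [finsum_eq_sum_of_fintype] at h1 ⊢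
    rw [← Equiv.sum_comp e.toEquiv]
    have h3 : ∀ w : K, χ ((e.toEquiv w : K.map H.subtype) : G) *
        ((((μ.comp e.symm.toMonoidHom) (e.toEquiv w))⁻¹ : ℂˣ) : ℂ)
        = χ ((w : H) : G) * (((μ w)⁻¹ : ℂˣ) : ℂ) := by
      intro w
      have h4 : (μ.comp e.symm.toMonoidHom) (e.toEquiv w) = μ w := by
        change μ (e.symm (e w)) = μ w
        rw [MulEquiv.symm_apply_apply]
      rw [h4]
      rfl
    rw [Finset.sum_congr rfl (fun w _ => h3 w), sum_mult hχ K μ]
    choose! n hn using fun φ (hφ : φ ∈ Irr H) => pr_res_nat H hχ hφ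
    choose! l hl using fun φ (hφ : φ ∈ Irr H) => exists_mult hφ K μ
    have h5 : ∑ φ ∈ irrF H, pr (fun h : H => χ h) φ * ∑ h : K, φ h * (((μ h)⁻¹ : ℂˣ) : ℂ)
        = ((∑ φ ∈ irrF H, n φ * l φ : ℕ) : ℂ) * Nat.card K := by
      rw [Nat.cast_sum, Finset.sum_mul]
      refine Finset.sum_congr rfl fun φ hφ => ?_
      have h6 := hl φ (mem_irrF.mp hφ)
      rw [finsum_eq_sum_of_fintype] at h6
      rw [hn φ (mem_irrF.mp hφ), h6]
      push_cast
      ring
    rw [h5]
    refine mul_ne_zero ?_ card_ne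
    have h6 : 0 < ∑ φ ∈ irrF H, n φ * l φ := by
      refine Finset.sum_pos' (fun _ _ => Nat.zero_le _) ⟨η, mem_irrF.mpr hη, ?_⟩
      refine Nat.mul_pos (Nat.pos_of_ne_zero ?_) (Nat.pos_of_ne_zero ?_)
      · intro h7
        apply hne
        rw [hn η hη, h7]
        simp
      · intro h7
        apply h1
        have h8 := hl η hη
        rw [finsum_eq_sum_of_fintype, h7] at h8
        rw [h8]
        simp
    exact_mod_cast h6.ne'
  · refine h2.trans ?_
    apply orderOf_dvd_of_pow_eq_one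
    ext w
    have h3 : μ w = (μ.comp e.symm.toMonoidHom) (e w) := by
      change μ w = μ (e.symm (e w))
      rw [MulEquiv.symm_apply_apply]
    rw [MonoidHom.pow_apply, h3, ← MonoidHom.pow_apply, pow_orderOf_eq_one]
    rfl

/-- induced characters -/
lemma ind_constit {H : Subgroup G} {χ : G → ℂ} (hχ : χ ∈ Irr G) {ψ : H → ℂ} (h : χ = ind H ψ) :
    pr (fun h : H => χ h) ψ ≠ 0 := by
  have h1 := frob' H ψ (F := χ) (fun g x => Irr.conj hχ g x)
  rw [← h1, ← h, pr_self hχ]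
  exact one_ne_zero

lemma pow_mem_iff (hN : 0 < N) (hG : Nat.card G ∣ N) (H : Subgroup G) (k : (ZMod N)ˣ) (g : G) :
    g ^ (k : ZMod N).val ∈ H ↔ g ∈ H := by
  constructor
  · intro h
    have h1 : (g ^ (k : ZMod N).val) ^ ((k⁻¹ : (ZMod N)ˣ) : ZMod N).val = g := by
      rw [← pow_val_mul hN (pow_card_dvd hG g), mul_inv_cancel, pow_val_one hN (pow_card_dvd hG g)]
    rw [← h1]
    exact H.pow_mem h _
  · exact fun h => H.pow_mem h _

lemma pw_ind (hN : 0 < N) (hG : Nat.card G ∣ N) (H : Subgroup G) (k : (ZMod N)ˣ) (ψ : H → ℂ) :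
    pw k (ind H ψ) = ind H (pw k ψ) := by
  classical
  have : Fintype G := Fintype.ofFinite G
  funext g
  change ind H ψ (g ^ (k : ZMod N).val) = _
  rw [ind_eq, ind_eq]
  congr 1
  refine Finset.sum_congr rfl fun x _ => ?_
  have h1 : x⁻¹ * g ^ (k : ZMod N).val * x = (x⁻¹ * g * x) ^ (k : ZMod N).val := by
    have := conj_pow (i := (k : ZMod N).val) (a := x⁻¹) (b := g)
    rw [inv_inv] at this
    exact this.symm
  rw [h1]
  by_cases h : x⁻¹ * g * x ∈ H
  · rw [ext_mem _ _ h, ext_mem _ _ ((pow_mem_iff hN hG H k _).mpr h)]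
    rfl
  · rw [ext_not _ _ h, ext_not _ _ (fun h' => h ((pow_mem_iff hN hG H k _).mp h'))]

/-- existence of an element of order `q` in the image of `Ug` in the Galois group -/
def Asg (hN : 0 < N) (hG : Nat.card G ∣ N) (χ : G → ℂ) (m q : ℕ) : Prop :=
  ∃ u ∈ Ug N m, orderOf (gmk hN hG χ u) = q

lemma asg_mono (hN : 0 < N) {G' : Type} [Group G'] [Finite G'] (hG : Nat.card G ∣ N)
    (hG' : Nat.card G' ∣ N) {χ : G → ℂ} {η : G' → ℂ}
    (hst : ∀ k : (ZMod N)ˣ, pw k η = η → pw k χ = χ) {m q : ℕ} (h : Asg hN hG χ m q) :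
    Asg hN hG' η m q := by
  obtain ⟨u, hu, rfl⟩ := h
  have hfin := gam_finite hN hG' η
  have h1 : orderOf (gmk hN hG χ u) ∣ orderOf (gmk hN hG' η u) := by
    apply orderOf_dvd_of_pow_eq_one
    rw [← map_pow, gmk_eq_one]
    apply hst
    rw [← gmk_eq_one hN hG', map_pow, pow_orderOf_eq_one]
  refine ⟨u ^ (orderOf (gmk hN hG' η u) / orderOf (gmk hN hG χ u)), ug_pow hN hu _, ?_⟩
  rw [map_pow, orderOf_pow_orderOf_div (orderOf_pos _).ne' h1]

lemma Asg.mov (hN : 0 < N) (hG : Nat.card G ∣ N) {χ : G → ℂ} {m q : ℕ} (hq : q ≠ 1)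
    (h : Asg hN hG χ m q) : ∃ u ∈ Ug N m, pw u χ ≠ χ := by
  obtain ⟨u, hu, h1⟩ := h
  refine ⟨u, hu, fun h2 => hq ?_⟩
  rw [← h1, (gmk_eq_one hN hG χ).mpr h2, orderOf_one]

end up

end Pool.Agent.Helper606_LC
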