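import Mathlib
import Pool.Agent.Helper606_LC.Red

/-!
# The main induction
-/

set_option autoImplicit false
set_option linter.unusedSectionVars false

namespace Pool.Agent.Helper606_LC

open Pool.Agent.H541R3.ART Pool.Agent.W446.AS Pool.Agent.R389 Pool.Agent.H302R2

section scalar

variable {G : Type} [Group G] [Finite G]

lemma eig_pow {V : Type} [AddCommGroup V] [Module ℂ V] {ρ : Representation ℂ G V} {g : G} {z : ℂ}
    {v : V} (h : ρ g v = z • v) (n : ℕ) : ρ (g ^ n) v = z ^ n • v := by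
  induction n with
  | zero => rw [pow_zero, pow_zero, map_one, one_smul]; rfl
  | succ n ih =>
    rw [pow_succ', pow_succ', map_mul, Module.End.mul_apply, ih, map_smul, h, smul_smul, mul_comm]

lemma eig_fin {V : Type} [AddCommGroup V] [Module ℂ V] {ρ : Representation ℂ G V} {g : G} {z : ℂ}
    {v : V} (hv : v ≠ 0) (h : ρ g v = z • v) : z ^ orderOf g = 1 := by
  have h2 := eig_pow h (orderOf g)
  rw [pow_orderOf_eq_one, map_one, Module.End.one_apply] at h2
  have h3 : (1 - z ^ orderOf g) • v = 0 := by rw [sub_smul, one_smul, ← h2, sub_self]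
  rcases smul_eq_zero.mp h3 with h4 | h4
  · exact (sub_eq_zero.mp h4).symm
  · exact absurd h4 hv

/-- central elements of prime power order -/
lemma hasOrd_central {V : Type} [AddCommGroup V] [Module ℂ V] [FiniteDimensional ℂ V]
    {ρ : Representation ℂ G V} (hρ : Irred ρ) (hf : ∀ g, ρ g = 1 → g = 1) {p a : ℕ} (hp : p.Prime)
    {x₀ : G} (hx₀ : orderOf x₀ = p ^ a) (hc : x₀ ∈ Subgroup.center G) {d : ℕ} (hd : ¬ p ∣ d)
    (h : HasOrd ρ.character d) : HasOrd ρ.character (p ^ a * d) := by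
  obtain ⟨ω, hω⟩ := hρ.central
  obtain ⟨g, z, v, hv, hz, hdz⟩ := (hasOrd_iff ρ d).mp h
  set w : ℂ := ((ω ⟨x₀, hc⟩ : ℂˣ) : ℂ) with hw
  have hωx : ∀ v, ρ x₀ v = w • v := fun v => hω ⟨x₀, hc⟩ v
  have hwo : orderOf w = p ^ a := by
    rw [← hx₀]
    apply Nat.dvd_antisymm
    · exact orderOf_dvd_of_pow_eq_one (eig_fin hv (hωx v))
    · apply orderOf_dvd_of_pow_eq_one
      apply hf
      refine LinearMap.ext fun v => ?_
      rw [eig_pow (hωx v), pow_orderOf_eq_one, one_smul, Module.End.one_apply]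
  have hzpos : 0 < orderOf z := Nat.pos_of_dvd_of_pos (orderOf_dvd_of_pow_eq_one (eig_fin hv hz))
    (orderOf_pos g)
  obtain ⟨t, m, hm, htm⟩ := Nat.exists_eq_pow_mul_and_not_dvd hzpos.ne' p hp.ne_one
  have hzt : orderOf (z ^ p ^ t) = m := by
    rw [orderOf_pow_of_dvd (pow_pos hp.pos t).ne' ⟨m, htm⟩, htm,
      Nat.mul_div_cancel_left _ (pow_pos hp.pos t)]
  have hdm : d ∣ m := by
    have h1 : Nat.Coprime d (p ^ t) :=
      (Nat.Coprime.pow_left t ((Nat.Prime.coprime_iff_not_dvd hp).mpr hd)).symm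
    rw [htm] at hdz
    exact h1.dvd_of_dvd_mul_left hdz
  refine (hasOrd_iff ρ _).mpr ⟨x₀ * g ^ p ^ t, w * z ^ p ^ t, v, hv, ?_, ?_⟩
  · rw [map_mul, Module.End.mul_apply, eig_pow hz, map_smul, hωx, smul_smul, mul_comm]
  · rw [(Commute.all w (z ^ p ^ t)).orderOf_mul_eq_mul_orderOf_of_coprime ?_, hwo, hzt]
    · exact mul_dvd_mul_left _ hdm
    · rw [hwo, hzt]
      exact Nat.Coprime.pow_left a ((Nat.Prime.coprime_iff_not_dvd hp).mpr hm)

end scalar

open Classical in
/-- the primes in `I` whose Sylow subgroups are not cyclic -/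
noncomputable def badP (G : Type*) [Group G] (I : Finset ℕ) : Finset ℕ :=
  I.filter fun p => ¬ CycP p G

lemma card_lt_of_ne {G : Type} [Group G] [Finite G] {H : Subgroup G} (hH : H ≠ ⊤) :
    Nat.card H < Nat.card G := by
  rcases lt_or_eq_of_le (Nat.le_of_dvd Nat.card_pos H.card_subgroup_dvd_card) with h | h
  · exact h
  · exact absurd (Subgroup.eq_top_of_card_eq H h) hH

/-- **The main induction.** -/
theorem main_ind {N : ℕ} (hN : 0 < N) (a q : ℕ → ℕ) {ℓ : ℕ} (hℓ : ℓ.Prime) :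
    ∀ (n : ℕ) (G : Type) [Group G] [Finite G] (hG : Nat.card G ∣ N), Nat.card G = n →
      ∀ χ ∈ Irr G, ∀ I : Finset ℕ, (∀ p ∈ I, p.Prime) → (∀ p ∈ I, (q p).Prime) →
      (∀ p ∈ I, Asg hN hG χ (p ^ a p) (q p)) →
      (∀ r : ℕ, r.Prime → r ≠ ℓ → ((badP G I).filter (fun p => q p = r)).card ≤ r) →
      HasOrd χ (∏ p ∈ I, p ^ a p) := by
  intro n
  induction n using Nat.strong_induction_on with
  | _ n ih =>
  intro G _ _ hG hn χ hχ I
  classical
  induction I using Finset.strongInduction with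
  | H I ihI =>
  intro hI hq hA hcount
  -- passing to a smaller group
  have hbad : ∀ {G' : Type} [Group G'] [Finite G'], (∀ p ∈ I, CycP p G → CycP p G') →
      ∀ r : ℕ, r.Prime → r ≠ ℓ → ((badP G' I).filter (fun p => q p = r)).card ≤ r := by
    intro G' _ _ h r hr hrℓ
    refine le_trans (Finset.card_le_card ?_) (hcount r hr hrℓ)
    intro p hp
    obtain ⟨hp1, hp2⟩ := Finset.mem_filter.mp hp
    obtain ⟨hp3, hp4⟩ := Finset.mem_filter.mp hp1
    exact Finset.mem_filter.mpr ⟨Finset.mem_filter.mpr ⟨hp3, fun h5 => hp4 (h p hp3 h5)⟩, hp2⟩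
  have hsub : ∀ (H : Subgroup G), H ≠ ⊤ → ∀ η ∈ Irr H, pr (fun h : H => χ h) η ≠ 0 →
      (∀ k : (ZMod N)ˣ, pw k η = η → pw k χ = χ) → HasOrd χ (∏ p ∈ I, p ^ a p) := by
    intro H hH η hη hne hst
    have hHN : Nat.card H ∣ N := H.card_subgroup_dvd_card.trans hG
    refine hasOrd_up hχ hη hne ?_
    refine ih (Nat.card H) (by rw [← hn]; exact card_lt_of_ne hH) H hHN rfl η hη I hI hq
      (fun p hp => asg_mono hN hG hHN hst (hA p hp)) ?_
    exact hbad fun p _ h => h.sub H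
  by_cases hgood : ∃ p ∈ I, CycP p G
  swap
  · -- all primes are bad
    push Not at hgood
    have hbadI : badP G I = I := Finset.filter_true_of_mem fun p hp => hgood p hp
    rw [hbadI] at hcount
    choose! u hu hu1 using hA
    obtain ⟨K, μ, h2, h3⟩ := crit_count hN hG hχ (I := I) (m := fun p => p ^ a p)
      (β := fun p => gmk hN hG χ (u p)) (fun p hp => ⟨u p, hu p hp, rfl⟩)
      (fun p hp => by rw [hu1 p hp]; exact hq p hp) hℓ (by
        intro r hr hrℓ
        refine le_trans (Finset.card_le_card ?_) (hcount r hr hrℓ)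
        intro p hp
        obtain ⟨hp1, hp2⟩ := Finset.mem_filter.mp hp
        exact Finset.mem_filter.mpr ⟨hp1, by rw [← hu1 p hp1]; exact hp2⟩)
    exact ⟨K, μ, h2, prod_dvd_of_forall hI h3⟩
  obtain ⟨p, hpI, hcyc⟩ := hgood
  have hp := hI p hpI
  obtain ⟨m, ρ, hρ, rfl⟩ := exists_rep hχ
  by_cases hf : ∀ g, ρ g = 1 → g = 1
  swap
  · -- not faithful
    push Not at hf
    obtain ⟨g₀, hg₀, hg₁⟩ := hf
    let π : G →* G ⧸ ρ.ker := QuotientGroup.mk' _
    have hπ : Function.Surjective π := QuotientGroup.mk'_surjective _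
    obtain ⟨ψ, hψ, hψ1⟩ := descend_irr hπ hρ (by
      intro g hg
      rw [QuotientGroup.ker_mk', MonoidHom.mem_ker] at hg
      exact hg)
    have hlt : Nat.card (G ⧸ ρ.ker) < n := by
      have h2 := Subgroup.card_eq_card_quotient_mul_card_subgroup ρ.ker
      have h3 : 1 < Nat.card ρ.ker := by
        have : Nontrivial ρ.ker := ⟨⟨g₀, MonoidHom.mem_ker.mpr hg₀⟩, 1, fun h =>
          hg₁ (congrArg Subtype.val h)⟩
        exact Finite.one_lt_card
      have h4 : 0 < Nat.card (G ⧸ ρ.ker) := Nat.card_pos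
      rw [hn] at h2
      rw [h2]
      nlinarith
    have hQN : Nat.card (G ⧸ ρ.ker) ∣ N := (Subgroup.card_quotient_dvd_card ρ.ker).trans hG
    have hst : ∀ k : (ZMod N)ˣ, pw k ψ = ψ → pw k ρ.character = ρ.character := by
      intro k hk
      funext g
      change ρ.character (g ^ (k : ZMod N).val) = ρ.character g
      rw [hψ1, hψ1, map_pow]
      exact congrFun hk (π g)
    have h1 := ih _ hlt (G ⧸ ρ.ker) hQN rfl ψ hψ I hI hq
      (fun p hp => asg_mono hN hG hQN hst (hA p hp)) (hbad fun r hr h => h.quot (hI r hr) hπ)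
    obtain ⟨m', τ, -, rfl⟩ := exists_rep hψ
    obtain ⟨y, z, v, hv, hz, hd⟩ := (hasOrd_iff τ _).mp h1
    obtain ⟨g, rfl⟩ := hπ y
    have h2 : ρ.character = Representation.character (τ.comp π) := funext hψ1
    rw [h2]
    exact (hasOrd_iff (τ.comp π) _).mpr ⟨g, z, v, hv, hz, hd⟩
  -- an element of order `p ^ a p`
  obtain ⟨u, hu, hmv⟩ := (hA p hpI).mov hN hG (hq p hpI).ne_one
  obtain ⟨s, hs⟩ : ∃ s : G, p ^ a p ∣ orderOf s := by
    by_contra hcon
    push Not at hcon
    apply hmv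
    funext g
    change ρ.character (g ^ (u : ZMod N).val) = ρ.character g
    rw [pow_ug hN hu (pow_card_dvd hG g) (hcon g)]
  set x₀ := s ^ (orderOf s / p ^ a p) with hx₀def
  have hx₀ : orderOf x₀ = p ^ a p := exists_power hs
  by_cases hH : Subgroup.normalizer (Subgroup.zpowers x₀ : Set G) = ⊤
  swap
  · obtain ⟨η, hη, hne, hst⟩ := reduce hN hG hχ _ (fun s hs => cover hp hcyc hx₀ hs)
      (fun s hs hsH x hx => tint hp hcyc hx₀ hs hsH hx) hu hmv
    exact hsub _ hH η hη hne hst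
  have hnormal : (Subgroup.zpowers x₀).Normal := Subgroup.normalizer_eq_top_iff.mp hH
  by_cases hcen : Subgroup.zpowers x₀ ≤ Subgroup.center G
  swap
  · obtain ⟨H, hH1, ψ, hψ, hχψ⟩ := clifford_char hρ hf (Subgroup.zpowers x₀) (zpowers_comm x₀) hcen
    refine hsub H hH1 ψ hψ (ind_constit hχ hχψ) fun k hk => ?_
    rw [hχψ, pw_ind hN hG, hk]
  -- central scalars
  have h1 := ihI (I.erase p) (Finset.erase_ssubset hpI)
    (fun r hr => hI r (Finset.mem_of_mem_erase hr)) (fun r hr => hq r (Finset.mem_of_mem_erase hr))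
    (fun r hr => hA r (Finset.mem_of_mem_erase hr)) (by
      intro r hr hrℓ
      refine le_trans (Finset.card_le_card ?_) (hcount r hr hrℓ)
      intro t ht
      obtain ⟨ht1, ht2⟩ := Finset.mem_filter.mp ht
      obtain ⟨ht3, ht4⟩ := Finset.mem_filter.mp ht1
      exact Finset.mem_filter.mpr ⟨Finset.mem_filter.mpr ⟨Finset.mem_of_mem_erase ht3, ht4⟩, ht2⟩)
  rw [← Finset.mul_prod_erase I (fun p => p ^ a p) hpI]
  refine hasOrd_central hρ hf hp hx₀ (hcen (Subgroup.mem_zpowers x₀)) ?_ h1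
  intro hdvd
  obtain ⟨r, hr, hpr⟩ := (Prime.dvd_finsetProd_iff hp.prime _).mp hdvd
  have h2 := (Nat.prime_dvd_prime_iff_eq hp (hI r (Finset.mem_of_mem_erase hr))).mp
    (hp.dvd_of_dvd_pow hpr)
  exact (Finset.mem_erase.mp hr).1 h2.symm

end Pool.Agent.Helper606_LC
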