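import Mathlib
import Pool.Agent.Helper606_LC.Psi

/-!
# Tame primes
-/

set_option autoImplicit false
set_option linter.unusedSectionVars false

namespace Pool.Agent.Helper606_LC

open Pool.Agent.H541R3.ART Pool.Agent.W446.AS Pool.Agent.R389 Pool.Agent.H302R2

/-- in every `p`-subgroup the elements of order divisible by `p ^ a` lie in a cyclic subgroup -/
def CyP (p a : ℕ) (G : Type*) [Group G] : Prop :=
  ∀ Q : Subgroup G, IsPGroup p Q → ∃ C : Subgroup G, IsCyclic C ∧ ∀ x ∈ Q, p ^ a ∣ orderOf x → x ∈ C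

section cy

variable {G : Type} [Group G] [Finite G] {p a : ℕ}

lemma CyP.sub (h : CyP p a G) (H : Subgroup G) : CyP p a H := by
  intro Q hQ
  obtain ⟨C, hC, hQC⟩ := h _ (hQ.map H.subtype)
  refine ⟨C.comap H.subtype, ?_, fun x hx hxa => ?_⟩
  · exact isCyclic_of_injective (H.subtype.subgroupComap C) (by
      rintro ⟨x, hx⟩ ⟨y, hy⟩ hxy
      apply Subtype.ext
      apply Subtype.ext
      exact congrArg (fun z : C => (z : G)) hxy)
  · rw [Subgroup.mem_comap]
    refine hQC _ ⟨x, hx, rfl⟩ ?_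
    rw [Subgroup.coe_subtype, Subgroup.orderOf_coe]
    exact hxa

lemma CyP.quot (hp : p.Prime) (h : CyP p a G) {Y : Type} [Group Y] [Finite Y] {π : G →* Y}
    (hπ : Function.Surjective π) : CyP p a Y := by
  have : Fact p.Prime := ⟨hp⟩
  intro Q hQ
  let Q' : Subgroup G := Q.comap π
  let f : Q' →* Q := π.subgroupComap Q
  have hf : Function.Surjective f := by
    rintro ⟨y, hy⟩
    obtain ⟨g, rfl⟩ := hπ y
    exact ⟨⟨g, hy⟩, rfl⟩
  obtain ⟨P⟩ : Nonempty (Sylow p Q') := inferInstance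
  obtain ⟨C, hC, hPC⟩ := h ((P : Subgroup Q').map Q'.subtype) (P.isPGroup'.map Q'.subtype)
  refine ⟨C.map π, ?_, fun y hy hya => ?_⟩
  · exact isCyclic_of_surjective (π.subgroupMap C) (π.subgroupMap_surjective C)
  · obtain ⟨x, hx, hxy⟩ := sylow_surj hp hf hQ P ⟨y, hy⟩
    have h1 : π (x : G) = y := congrArg Subtype.val hxy
    refine ⟨x, hPC _ ⟨x, hx, rfl⟩ ?_, h1⟩
    rw [← h1] at hya
    exact hya.trans (orderOf_map_dvd π (x : G))

/-- two elements of order `p ^ a` in a `p`-subgroup generate the same subgroup -/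
lemma CyP.mem (h : CyP p a G) {Q : Subgroup G} (hQ : IsPGroup p Q) {x y : G} (hx : x ∈ Q)
    (hy : y ∈ Q) (hxo : orderOf x = p ^ a) (hyo : orderOf y = p ^ a) :
    Subgroup.zpowers x = Subgroup.zpowers y := by
  obtain ⟨C, hC, hQC⟩ := h Q hQ
  exact cyc_mem hC (hQC x hx (by rw [hxo])) (hQC y hy (by rw [hyo])) (by rw [hxo, hyo])

lemma CyP.conj (hp : p.Prime) (h : CyP p a G) {x y : G} (hx : orderOf x = p ^ a)
    (hy : orderOf y = p ^ a) :
    ∃ g, Subgroup.zpowers (g * x * g⁻¹) = Subgroup.zpowers y := by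
  have : Fact p.Prime := ⟨hp⟩
  have hpx : IsPGroup p (Subgroup.zpowers x) := IsPGroup.of_card (n := a) (by
    rw [Nat.card_zpowers, hx])
  have hpy : IsPGroup p (Subgroup.zpowers y) := IsPGroup.of_card (n := a) (by
    rw [Nat.card_zpowers, hy])
  obtain ⟨P, hP⟩ := hpx.exists_le_sylow
  obtain ⟨P', hP'⟩ := hpy.exists_le_sylow
  obtain ⟨g, hg⟩ := MulAction.exists_smul_eq G P P'
  refine ⟨g, h.mem P'.isPGroup' ?_ (hP' (Subgroup.mem_zpowers y)) ?_ hy⟩
  · rw [← hg]
    have h1 : x ∈ (P : Subgroup G) := hP (Subgroup.mem_zpowers x)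
    have h2 : g * x * g⁻¹ ∈ ((g • P : Sylow p G) : Subgroup G) := by
      rw [Sylow.coe_subgroup_smul]
      exact ⟨x, h1, rfl⟩
    exact h2
  · rw [orderOf_conj', hx]

lemma CyP.red (hp : p.Prime) (h : CyP p a G) {x₀ : G} (hx₀ : orderOf x₀ = p ^ a) :
    (∀ s : G, p ^ a ∣ orderOf s →
      ∃ x, x * s * x⁻¹ ∈ Subgroup.normalizer (Subgroup.zpowers x₀ : Set G)) ∧
    (∀ s : G, p ^ a ∣ orderOf s → s ∈ Subgroup.normalizer (Subgroup.zpowers x₀ : Set G) →
      ∀ x, x * s * x⁻¹ ∈ Subgroup.normalizer (Subgroup.zpowers x₀ : Set G) →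
      x ∈ Subgroup.normalizer (Subgroup.zpowers x₀ : Set G)) := by
  have : Fact p.Prime := ⟨hp⟩
  have hpy : IsPGroup p (Subgroup.zpowers x₀) := IsPGroup.of_card (n := a) (by
    rw [Nat.card_zpowers, hx₀])
  have hnorm : ∀ s : G, p ^ a ∣ orderOf s →
      s ∈ Subgroup.normalizer (Subgroup.zpowers x₀ : Set G) →
      Subgroup.zpowers (s ^ (orderOf s / p ^ a)) = Subgroup.zpowers x₀ := by
    intro s hs hsH
    have hwo : orderOf (s ^ (orderOf s / p ^ a)) = p ^ a := exists_power hs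
    have hpx : IsPGroup p (Subgroup.zpowers (s ^ (orderOf s / p ^ a))) :=
      IsPGroup.of_card (n := a) (by rw [Nat.card_zpowers, hwo])
    have hle : Subgroup.zpowers (s ^ (orderOf s / p ^ a))
        ≤ Subgroup.normalizer (Subgroup.zpowers x₀ : Set G) := by
      rw [Subgroup.zpowers_le]
      exact Subgroup.pow_mem _ hsH _
    have hsup := hpx.to_sup_of_normal_right' hpy hle
    exact h.mem hsup (Subgroup.mem_sup_left (Subgroup.mem_zpowers _))
      (Subgroup.mem_sup_right (Subgroup.mem_zpowers x₀)) hwo hx₀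
  refine ⟨?_, ?_⟩
  · intro s hs
    obtain ⟨g, hg⟩ := h.conj hp (exists_power hs) hx₀
    refine ⟨g, ?_⟩
    rw [← hg, Subgroup.mem_normalizer_iff]
    intro y
    rw [zpowers_conj, zpowers_conj]
    have h1 : g⁻¹ * (g * s * g⁻¹ * y * (g * s * g⁻¹)⁻¹) * g = s * (g⁻¹ * y * g) * s⁻¹ := by group
    rw [h1]
    set w := s ^ (orderOf s / p ^ a) with hw
    have hcomm : s * w * s⁻¹ = w := by rw [hw]; exact (Commute.self_pow s _).mul_inv_cancel
    constructor
    · rintro ⟨k, hk⟩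
      refine ⟨k, ?_⟩
      simp only at hk ⊢
      rw [← hk, ← conj_zpow, hcomm]
    · rintro ⟨k, hk⟩
      refine ⟨k, ?_⟩
      simp only at hk ⊢
      have h2 : g⁻¹ * y * g = s⁻¹ * (s * (g⁻¹ * y * g) * s⁻¹) * s := by group
      rw [h2, ← hk]
      have h3 : s⁻¹ * w ^ k * s = (s⁻¹ * w * s) ^ k := by
        have := conj_zpow (i := k) (a := s⁻¹) (b := w)
        rw [inv_inv] at this
        exact this.symm
      have h4 : s⁻¹ * w * s = w := by
        have h5 : s * w = w * s := mul_inv_eq_iff_eq_mul.mp hcomm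
        rw [mul_assoc, ← h5, inv_mul_cancel_left]
      rw [h3, h4]
  · intro s hs hsH x hx
    have h1 := hnorm s hs hsH
    have h2 := hnorm (x * s * x⁻¹) (by rw [orderOf_conj']; exact hs) hx
    rw [orderOf_conj', conj_pow] at h2
    set w := s ^ (orderOf s / p ^ a) with hw
    rw [Subgroup.mem_normalizer_iff]
    intro y
    conv_rhs => rw [← h2]
    rw [zpowers_conj, ← h1]
    have h3 : x⁻¹ * (x * y * x⁻¹) * x = y := by group
    rw [h3]

lemma cyP_of_sylow [Fact p.Prime] (P : Sylow p G)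
    (hP : ∃ C : Subgroup G, IsCyclic C ∧ ∀ x ∈ P, p ^ a ∣ orderOf x → x ∈ C) : CyP p a G := by
  obtain ⟨C, hC, hPC⟩ := hP
  intro Q hQ
  obtain ⟨P', hP'⟩ := hQ.exists_le_sylow
  obtain ⟨g, hg⟩ := MulAction.exists_smul_eq G P P'
  refine ⟨C.map (MulAut.conj g).toMonoidHom, ?_, fun x hx hxa => ?_⟩
  · exact isCyclic_of_surjective ((MulAut.conj g).toMonoidHom.subgroupMap C)
      ((MulAut.conj g).toMonoidHom.subgroupMap_surjective C)
  · have h1 : x ∈ (P' : Subgroup G) := hP' hx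
    rw [← hg, Sylow.coe_subgroup_smul] at h1
    obtain ⟨y, hy, hyx⟩ := h1
    refine ⟨y, hPC y hy ?_, hyx⟩
    have h2 : g * y * g⁻¹ = x := hyx
    rw [← h2, orderOf_conj'] at hxa
    exact hxa

end cy

end Pool.Agent.Helper606_LC
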