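import Mathlib
import Pool.Agent.Helper606_LC.Tame

/-!
# Groups of symplectic type
-/

set_option autoImplicit false
set_option linter.unusedSectionVars false

namespace Pool.Agent.Helper606_LC

open Pool.Agent.H541R3.ART Pool.Agent.W446.AS Pool.Agent.R389 Pool.Agent.H302R2
open scoped commutatorElement

/-- characteristic abelian subgroups are central -/
def CharAb (A : Type) [Group A] : Prop :=
  ∀ K : Subgroup A, K.Characteristic → (∀ x ∈ K, ∀ y ∈ K, x * y = y * x) → K ≤ Subgroup.center A

section symp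

variable {A : Type} [Group A] {p : ℕ}

lemma CharAb.comm (h : CharAb A) (hn : Group.IsNilpotent A) (x y : A) :
    ⁅x, y⁆ ∈ Subgroup.center A := by
  obtain ⟨n, hn⟩ := Subgroup.nilpotent_iff_lowerCentralSeries.mp hn
  have key : ∀ k, (⊤ : Subgroup A).lowerCentralSeries (k + 1) ≤ Subgroup.center A →
      (⊤ : Subgroup A).lowerCentralSeries 1 ≤ Subgroup.center A := by
    intro k
    induction k with
    | zero => exact fun h => h
    | succ k ih =>
      intro hk
      apply ih
      have hchar : ((⊤ : Subgroup A).lowerCentralSeries (k + 1)).Characteristic := inferInstance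
      have h5 : (⊤ : Subgroup A).lowerCentralSeries (k + 1) ≤
          ⁅(⊤ : Subgroup A), (⊤ : Subgroup A)⁆ :=
        (⊤ : Subgroup A).lowerCentralSeries_antitone (Nat.le_add_left 1 k)
      have h1 : ⁅(⊤ : Subgroup A).lowerCentralSeries (k + 1), (⊤ : Subgroup A)⁆ ≤
        Subgroup.center A := hk
      generalize (⊤ : Subgroup A).lowerCentralSeries (k + 1) = K at hchar h1 h5
      have h2 : ⁅⁅K, (⊤ : Subgroup A)⁆, (⊤ : Subgroup A)⁆ = ⊥ :=
        Subgroup.commutator_top_right_eq_bot_iff_le_center.mpr h1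
      have h3 : ⁅⁅(⊤ : Subgroup A), K⁆, (⊤ : Subgroup A)⁆ = ⊥ := by
        rw [Subgroup.commutator_comm ⊤ K]; exact h2
      have h4 : ⁅⁅(⊤ : Subgroup A), (⊤ : Subgroup A)⁆, K⁆ = ⊥ :=
        Subgroup.commutator_commutator_eq_bot_of_rotate h3 h2
      refine h K hchar fun x hx y hy => ?_
      have h6 := Subgroup.commutator_eq_bot_iff_le_centralizer.mp h4 (h5 hx)
      rw [Subgroup.mem_centralizer_iff] at h6
      exact (h6 y hy).symm
  have h0 : (⊤ : Subgroup A).lowerCentralSeries (n + 1) ≤ Subgroup.center A := by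
    have h1 : (⊤ : Subgroup A).lowerCentralSeries (n + 1) ≤ (⊤ : Subgroup A).lowerCentralSeries n :=
      (⊤ : Subgroup A).lowerCentralSeries_antitone (Nat.le_succ n)
    rw [hn] at h1
    exact h1.trans bot_le
  exact key n h0 (Subgroup.commutator_mem_commutator (Subgroup.mem_top x) (Subgroup.mem_top y))

lemma comm_pow_right {x y : A} (h : ⁅x, y⁆ ∈ Subgroup.center A) (j : ℕ) :
    ⁅x, y ^ j⁆ = ⁅x, y⁆ ^ j := by
  have h1 : x * y * x⁻¹ = ⁅x, y⁆ * y := by rw [commutatorElement_def]; group
  have h2 : Commute ⁅x, y⁆ y := by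
    rw [Subgroup.mem_center_iff] at h
    exact (h y).symm
  rw [commutatorElement_def x (y ^ j), ← conj_pow, h1, h2.mul_pow, mul_inv_cancel_right]

lemma comm_pow_left {x y : A} (h : ⁅x, y⁆ ∈ Subgroup.center A) (i : ℕ) :
    ⁅x ^ i, y⁆ = ⁅x, y⁆ ^ i := by
  have h1 : ⁅y, x⁆ ∈ Subgroup.center A := by
    rw [← commutatorElement_inv]
    exact inv_mem h
  rw [← commutatorElement_inv, comm_pow_right h1, ← commutatorElement_inv x y, inv_pow, inv_inv]

lemma closure_comm {S : Set A} (h : ∀ x ∈ S, ∀ y ∈ S, x * y = y * x) :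
    ∀ x ∈ Subgroup.closure S, ∀ y ∈ Subgroup.closure S, x * y = y * x := by
  have h1 : Subgroup.closure S ≤ Subgroup.centralizer S := by
    rw [Subgroup.closure_le]
    intro x hx
    rw [SetLike.mem_coe, Subgroup.mem_centralizer_iff]
    exact fun y hy => h y hy x hx
  have h2 : Subgroup.closure S ≤ Subgroup.centralizer (Subgroup.closure S : Set A) := by
    rw [Subgroup.closure_le]
    intro x hx
    rw [SetLike.mem_coe, Subgroup.mem_centralizer_iff]
    intro y hy
    have h3 := h1 hy
    rw [Subgroup.mem_centralizer_iff] at h3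
    exact (h3 x hx).symm
  intro x hx y hy
  have h3 := h2 hx
  rw [Subgroup.mem_centralizer_iff] at h3
  exact (h3 y hy).symm

lemma CharAb.pow [Finite A] (hp : p.Prime) (hA : IsPGroup p A) (h : CharAb A) (x : A) :
    x ^ p ∈ Subgroup.center A := by
  have : Fact p.Prime := ⟨hp⟩
  have hn : Group.IsNilpotent A := hA.isNilpotent
  have key : ∀ m, (∀ x : A, x ^ p ^ (m + 1) ∈ Subgroup.center A) →
      ∀ x : A, x ^ p ∈ Subgroup.center A := by
    intro m
    induction m with
    | zero =>
      intro h1 x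
      have := h1 x
      rwa [zero_add, pow_one] at this
    | succ m ih =>
      intro h1
      apply ih
      have h2 : ∀ x y : A, ⁅x, y⁆ ^ p ^ (m + 1 + 1) = 1 := by
        intro x y
        rw [← comm_pow_left (h.comm hn x y)]
        have h3 := h1 x
        rw [Subgroup.mem_center_iff] at h3
        rw [commutatorElement_eq_one_iff_mul_comm]
        exact (h3 y).symm
      let S : Set A := Set.range fun x : A => x ^ p ^ (m + 1)
      have h3 : (Subgroup.closure S).Characteristic := by
        rw [Subgroup.characteristic_iff_map_le]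
        intro φ
        rw [MonoidHom.map_closure]
        apply Subgroup.closure_mono
        rintro _ ⟨_, ⟨x, rfl⟩, rfl⟩
        refine ⟨φ x, ?_⟩
        change (φ x) ^ p ^ (m + 1) = φ (x ^ p ^ (m + 1))
        rw [map_pow]
      have h4 := h _ h3 (closure_comm (by
        rintro _ ⟨x, rfl⟩ _ ⟨y, rfl⟩
        simp only
        rw [← commutatorElement_eq_one_iff_mul_comm, comm_pow_right, comm_pow_left (h.comm hn x y),
          ← pow_mul]
        · have h5 : p ^ (m + 1) * p ^ (m + 1) = p ^ (m + 1 + 1) * p ^ m := by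
            rw [← pow_add, ← pow_add]
            congr 1
            omega
          rw [h5, pow_mul, h2, one_pow]
        · exact h.comm hn _ _))
      intro x
      exact h4 (Subgroup.subset_closure ⟨x, rfl⟩)
  obtain ⟨k, hk⟩ := IsPGroup.iff_card.mp hA
  refine key k (fun x => ?_) x
  have h1 : x ^ p ^ (k + 1) = 1 := by
    rw [pow_succ, pow_mul, ← hk, pow_card_eq_one', one_pow]
  rw [h1]
  exact one_mem _

lemma mul_pow_two {x y : A} (h : ⁅y, x⁆ ∈ Subgroup.center A) (n : ℕ) :
    (x * y) ^ n = x ^ n * y ^ n * ⁅y, x⁆ ^ (n.choose 2) := by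
  induction n with
  | zero => simp
  | succ n ih =>
    have hc : ∀ z : A, ∀ k : ℕ, ⁅y, x⁆ ^ k * z = z * ⁅y, x⁆ ^ k := by
      intro z k
      have h1 := Subgroup.pow_mem _ h k
      rw [Subgroup.mem_center_iff] at h1
      exact (h1 z).symm
    have h2 : y ^ n * x = ⁅y, x⁆ ^ n * (x * y ^ n) := by
      rw [← comm_pow_left h, commutatorElement_def]
      group
    rw [pow_succ, ih, Nat.choose_succ_succ' n 1, Nat.choose_one_right, pow_add ⁅y, x⁆]
    calc x ^ n * y ^ n * ⁅y, x⁆ ^ n.choose 2 * (x * y)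
        = x ^ n * (y ^ n * x) * y * ⁅y, x⁆ ^ n.choose 2 := by
          rw [mul_assoc, hc]; group
      _ = x ^ n * (⁅y, x⁆ ^ n * (x * y ^ n)) * y * ⁅y, x⁆ ^ n.choose 2 := by rw [h2]
      _ = x ^ n * x * (y ^ n * y) * ⁅y, x⁆ ^ n * ⁅y, x⁆ ^ n.choose 2 := by
          rw [hc]
          have h3 : x ^ n * (x * y ^ n * ⁅y, x⁆ ^ n) * y = x ^ n * x * y ^ n * (⁅y, x⁆ ^ n * y) := by
            group
          rw [h3, hc]
          group
      _ = x ^ (n + 1) * y ^ (n + 1) * (⁅y, x⁆ ^ n * ⁅y, x⁆ ^ n.choose 2) := by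
          rw [← pow_succ, ← pow_succ, mul_assoc]

lemma card_dual (N : Type) [Group N] [Finite N] :
    Nat.card (N →* ℂˣ) * Nat.card (commutator N) = Nat.card N := by
  have : NeZero (Monoid.exponent (Abelianization N)) :=
    ⟨Monoid.exponent_ne_zero_of_finite⟩
  have h1 : Nat.card (N →* ℂˣ) = Nat.card (Abelianization N →* ℂˣ) :=
    Nat.card_congr Abelianization.lift
  rw [h1, Nat.card_congr (CommGroup.monoidHom_mulEquiv_of_hasEnoughRootsOfUnity
    (Abelianization N) ℂ).some.toEquiv]
  exact (Subgroup.card_eq_card_quotient_mul_card_subgroup (commutator N)).symm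

/-- duality for the commutator pairing -/
lemma duality [Finite A] (hcm : ∀ x y : A, ⁅x, y⁆ ∈ Subgroup.center A)
    (ζ : Subgroup.center A →* ℂˣ) (hζ : Function.Injective ζ) (B : Subgroup A)
    (hC : ∀ y : A, (∀ b ∈ B, y * b = b * y) → y ∈ Subgroup.center A) (x : A) :
    ∃ b ∈ B, ∃ z ∈ Subgroup.center A, b * z = x := by
  classical
  have hcc : ∀ c ∈ Subgroup.center A, ∀ z : A, z * c = c * z := fun c hc =>
    Subgroup.mem_center_iff.mp hc
  let F : A →* (B →* ℂˣ) :=
    { toFun := fun y =>
        { toFun := fun b => ζ ⟨⁅y, (b : A)⁆, hcm _ _⟩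
          map_one' := by
            have h1 : (⟨⁅y, ((1 : B) : A)⁆, hcm _ _⟩ : Subgroup.center A) = 1 := by
              apply Subtype.ext
              simp
            rw [h1, map_one]
          map_mul' := by
            intro b b'
            rw [← map_mul]
            congr 1
            apply Subtype.ext
            change ⁅y, (b : A) * (b' : A)⁆ = ⁅y, (b : A)⁆ * ⁅y, (b' : A)⁆
            have h1 : ⁅y, (b : A) * (b' : A)⁆ = ⁅y, (b : A)⁆ * (b * ⁅y, (b' : A)⁆) * (b : A)⁻¹ := by
              simp only [commutatorElement_def]; group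
            rw [h1, hcc _ (hcm y b') b]
            group }
      map_one' := by
        ext b
        change ((ζ ⟨⁅(1 : A), (b : A)⁆, hcm _ _⟩ : ℂˣ) : ℂ) = 1
        have h1 : (⟨⁅(1 : A), (b : A)⁆, hcm _ _⟩ : Subgroup.center A) = 1 := by
          apply Subtype.ext
          simp
        rw [h1, map_one, Units.val_one]
      map_mul' := by
        intro y y'
        ext b
        change ((ζ ⟨⁅y * y', (b : A)⁆, hcm _ _⟩ : ℂˣ) : ℂ) =
          ((ζ ⟨⁅y, (b : A)⁆, hcm _ _⟩ * ζ ⟨⁅y', (b : A)⁆, hcm _ _⟩ : ℂˣ) : ℂ)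
        rw [← map_mul]
        congr 2
        apply Subtype.ext
        change ⁅y * y', (b : A)⁆ = ⁅y, (b : A)⁆ * ⁅y', (b : A)⁆
        have h1 : ⁅y * y', (b : A)⁆ = y * ⁅y', (b : A)⁆ * (b * y⁻¹ * (b : A)⁻¹) := by
          simp only [commutatorElement_def]; group
        rw [h1, hcc _ (hcm y' b) y, mul_assoc, ← hcc _ (hcm y' b)]
        congr 1
        simp only [commutatorElement_def]
        group }
  have hF : ∀ (y : A) (b : B), F y b = ζ ⟨⁅y, (b : A)⁆, hcm _ _⟩ := fun _ _ => rfl
  have hker : F.ker = Subgroup.center A := by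
    ext y
    rw [MonoidHom.mem_ker]
    constructor
    · intro h
      apply hC
      intro b hb
      have h1 := DFunLike.congr_fun h (⟨b, hb⟩ : B)
      rw [hF, MonoidHom.one_apply, ← map_one ζ] at h1
      have h2 := congrArg Subtype.val (hζ h1)
      exact commutatorElement_eq_one_iff_mul_comm.mp h2
    · intro h
      ext b
      have h1 : (⟨⁅y, (b : A)⁆, hcm _ _⟩ : Subgroup.center A) = 1 := by
        apply Subtype.ext
        exact commutatorElement_eq_one_iff_mul_comm.mpr (hcc y h b).symm
      rw [hF, h1, map_one, MonoidHom.one_apply]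
  let D : Subgroup B := (Subgroup.center A).subgroupOf B
  -- homomorphisms trivial on `D`
  have hfac : ∀ y : A, D ≤ (F y).ker := by
    intro y b hb
    rw [MonoidHom.mem_ker, hF]
    have h1 : (⟨⁅y, (b : A)⁆, hcm _ _⟩ : Subgroup.center A) = 1 := by
      apply Subtype.ext
      exact commutatorElement_eq_one_iff_mul_comm.mpr (hcc (b : A) (Subgroup.mem_subgroupOf.mp hb) y)
    rw [h1, map_one]
  have hfin : Finite (B ⧸ D →* ℂˣ) := by
    refine Nat.finite_of_card_ne_zero fun h0 => ?_
    have h1 := card_dual (B ⧸ D)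
    rw [h0, zero_mul] at h1
    exact (Nat.card_pos (α := B ⧸ D)).ne h1
  let J : F.range → (B ⧸ D →* ℂˣ) := fun f =>
    QuotientGroup.lift D (f : B →* ℂˣ) (by
      obtain ⟨y, hy⟩ := f.2
      rw [← hy]
      exact fun b hb => hfac y hb)
  have hJ : Function.Injective J := by
    intro f f' h
    apply Subtype.ext
    ext b
    have h1 := DFunLike.congr_fun h (QuotientGroup.mk b : B ⧸ D)
    exact congrArg Units.val h1
  have h1 : Nat.card F.range ≤ Nat.card (B ⧸ D) := by
    refine (Nat.card_le_card_of_injective J hJ).trans ?_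
    have h2 := card_dual (B ⧸ D)
    have h3 : 0 < Nat.card (commutator (B ⧸ D)) := Nat.card_pos
    nlinarith
  have h2 : (Subgroup.center A).index = Nat.card F.range := by
    rw [← hker, Subgroup.index_ker]
  have h3 : Nat.card (B ⧸ D) = (Subgroup.center A).relIndex B := rfl
  have h4 : (Subgroup.center A).relIndex (B ⊔ Subgroup.center A) = (Subgroup.center A).relIndex B :=
    Subgroup.relIndex_sup_right B (Subgroup.center A)
  have h5 := Subgroup.relIndex_mul_index (H := Subgroup.center A) (K := B ⊔ Subgroup.center A)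
    le_sup_right
  have h6 : (B ⊔ Subgroup.center A).index = 1 := by
    rw [h4, h2] at h5
    have h7 : 0 < (Subgroup.center A).relIndex B := by
      rw [← h3]; exact Nat.card_pos
    have h8 : (B ⊔ Subgroup.center A).index ≤ 1 := by
      by_contra hcon
      push Not at hcon
      have : 2 * (Subgroup.center A).relIndex B ≤ (Subgroup.center A).relIndex B := by
        calc 2 * (Subgroup.center A).relIndex B
            ≤ (B ⊔ Subgroup.center A).index * (Subgroup.center A).relIndex B :=
              Nat.mul_le_mul_right _ hcon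
          _ = Nat.card F.range := by rw [mul_comm]; exact h5
          _ ≤ _ := h1
      omega
    have h9 : (B ⊔ Subgroup.center A).index ≠ 0 := Subgroup.FiniteIndex.index_ne_zero
    omega
  have h7 : x ∈ B ⊔ Subgroup.center A := by
    rw [Subgroup.index_eq_one.mp h6]
    exact Subgroup.mem_top x
  rw [Subgroup.mem_sup_of_normal_right] at h7
  exact h7

/-- central elements of the right order, from a power homomorphism -/
lemma exists_central_order [Finite A] (hp : p.Prime) {s a : ℕ} (hsa : s < a)
    (h : CharAb A) (hcm : ∀ x y : A, ⁅x, y⁆ ∈ Subgroup.center A)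
    (ζ : Subgroup.center A →* ℂˣ) (hζ : Function.Injective ζ)
    (hmul : ∀ x y : A, (x * y) ^ p ^ s = x ^ p ^ s * y ^ p ^ s)
    (hqz : ∀ x : A, x ^ p ^ s ∈ Subgroup.center A) {x₀ : A} (hx₀ : orderOf x₀ = p ^ a) :
    ∃ z ∈ Subgroup.center A, orderOf z = p ^ a := by
  have : Fact p.Prime := ⟨hp⟩
  let B : Subgroup A :=
    { carrier := {y | y ^ p ^ s = 1}
      mul_mem' := by
        intro x y hx hy
        simp only [Set.mem_setOf_eq] at hx hy ⊢
        rw [hmul, hx, hy, one_mul]
      one_mem' := by simp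
      inv_mem' := by
        intro x hx
        simp only [Set.mem_setOf_eq] at hx ⊢
        rw [inv_pow, hx, inv_one] }
  have hB : ∀ y, y ∈ B ↔ y ^ p ^ s = 1 := fun y => Iff.rfl
  let C : Subgroup A := Subgroup.centralizer (B : Set A)
  have hC : ∀ y, y ∈ C ↔ ∀ b ∈ B, b * y = y * b := fun y => Subgroup.mem_centralizer_iff
  have hCchar : C.Characteristic := by
    rw [Subgroup.characteristic_iff_map_le]
    intro φ
    rintro _ ⟨y, hy, rfl⟩
    rw [hC]
    intro b hb
    have h1 : φ.symm b ∈ B := by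
      rw [hB, ← map_pow, (hB b).mp hb, map_one]
    have h2 := (hC y).mp hy _ h1
    have h3 := congrArg φ h2
    rw [map_mul, map_mul, MulEquiv.apply_symm_apply] at h3
    exact h3
  let f : C →* ℂˣ :=
    { toFun := fun y => ζ ⟨(y : A) ^ p ^ s, hqz y⟩
      map_one' := by
        have h1 : (⟨((1 : C) : A) ^ p ^ s, hqz _⟩ : Subgroup.center A) = 1 := by
          apply Subtype.ext
          simp
        rw [h1, map_one]
      map_mul' := by
        intro x y
        rw [← map_mul]
        congr 1
        apply Subtype.ext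
        exact hmul x y }
  have hfr : Finite f.range := Set.finite_range f
  have hcyc : IsCyclic f.range := isCyclic_subgroup_units f.range
  have hCab : ∀ x ∈ C, ∀ y ∈ C, x * y = y * x := by
    have h1 : f.rangeRestrict.ker ≤ Subgroup.center C := by
      intro x hx
      rw [MonoidHom.ker_rangeRestrict, MonoidHom.mem_ker] at hx
      have h2 : (x : A) ∈ B := by
        rw [hB]
        have h3 : ζ ⟨(x : A) ^ p ^ s, hqz x⟩ = ζ 1 := by rw [map_one]; exact hx
        exact congrArg Subtype.val (hζ h3)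
      rw [Subgroup.mem_center_iff]
      intro y
      exact Subtype.ext ((hC y).mp y.2 x h2).symm
    intro x hx y hy
    exact congrArg Subtype.val (commutative_of_cyclic_center_quotient f.rangeRestrict h1
      (⟨x, hx⟩ : C) ⟨y, hy⟩)
  have hCz : C ≤ Subgroup.center A := h C hCchar hCab
  obtain ⟨b, hb, z, hz, hbz⟩ := duality hcm ζ hζ B (fun y hy => hCz ((hC y).mpr fun b hb =>
    (hy b hb).symm)) x₀
  refine ⟨z, hz, ?_⟩
  have h1 : x₀ ^ p ^ s = z ^ p ^ s := by
    rw [← hbz, hmul, (hB b).mp hb, one_mul]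
  obtain ⟨k, rfl⟩ : ∃ k, a = k + 1 := ⟨a - 1, by omega⟩
  have h2 : ∀ j, s ≤ j → z ^ p ^ j = x₀ ^ p ^ j := by
    intro j hj
    have h3 : p ^ j = p ^ s * p ^ (j - s) := by rw [← pow_add]; congr 1; omega
    rw [h3, pow_mul, ← h1, ← pow_mul]
  apply orderOf_eq_prime_pow
  · rw [h2 k (by omega)]
    intro h3
    have h4 := orderOf_dvd_of_pow_eq_one h3
    rw [hx₀] at h4
    have h5 := (Nat.pow_dvd_pow_iff_le_right hp.one_lt).mp h4
    omega
  · rw [h2 (k + 1) (by omega), ← hx₀, pow_orderOf_eq_one]

/-- a group of symplectic type has central elements of large order -/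
lemma CharAb.central [Finite A] (hp : p.Prime) (hA : IsPGroup p A) (h : CharAb A)
    (ζ : Subgroup.center A →* ℂˣ) (hζ : Function.Injective ζ) {a : ℕ} (ha : 0 < a)
    (h4 : p ^ a ≠ 4) {x₀ : A} (hx₀ : orderOf x₀ = p ^ a) :
    ∃ z ∈ Subgroup.center A, orderOf z = p ^ a := by
  have : Fact p.Prime := ⟨hp⟩
  have hcm := h.comm hA.isNilpotent
  have hpz := h.pow hp hA
  have hcp : ∀ x y : A, ⁅x, y⁆ ^ p = 1 := by
    intro x y
    rw [← comm_pow_left (hcm x y), commutatorElement_eq_one_iff_mul_comm]
    exact (Subgroup.mem_center_iff.mp (hpz x) y).symm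
  by_cases ha1 : a = 1
  · subst ha1
    rw [pow_one] at hx₀ ⊢
    have hnt : Nontrivial A := by
      refine ⟨⟨x₀, 1, ?_⟩⟩
      rintro rfl
      rw [orderOf_one] at hx₀
      exact hp.one_lt.ne hx₀
    have h1 : Nontrivial (Subgroup.center A) := hA.center_nontrivial
    obtain ⟨k, hk⟩ := IsPGroup.iff_card.mp (hA.to_subgroup (Subgroup.center A))
    have h2 : p ∣ Nat.card (Subgroup.center A) := by
      rw [hk]
      apply dvd_pow_self
      rintro rfl
      rw [pow_zero] at hk
      have := Finite.one_lt_card (α := Subgroup.center A)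
      omega
    obtain ⟨z, hz⟩ := exists_prime_orderOf_dvd_card' p h2
    exact ⟨z, z.2, by rw [Subgroup.orderOf_coe]; exact hz⟩
  by_cases hp2 : p = 2
  · subst hp2
    have ha3 : 2 < a := by
      rcases lt_trichotomy a 2 with h5 | h5 | h5
      · omega
      · subst h5; exact absurd rfl h4
      · exact h5
    refine exists_central_order hp (s := 2) ha3 h hcm ζ hζ ?_ ?_ hx₀
    · intro x y
      rw [mul_pow_two (hcm y x)]
      have h5 : (2 ^ 2).choose 2 = 2 * 3 := by decide
      rw [h5, pow_mul, hcp, one_pow, mul_one]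
    · intro x
      rw [pow_succ, pow_mul, pow_one]
      exact Subgroup.pow_mem _ (hpz x) 2
  · refine exists_central_order hp (s := 1) (by omega) h hcm ζ hζ ?_ ?_ hx₀
    · intro x y
      rw [pow_one, mul_pow_two (hcm y x)]
      have h5 : p ∣ p.choose 2 := hp.dvd_choose_self (by norm_num) (by
        rcases hp.two_le.lt_or_eq with h6 | h6
        · exact h6
        · exact absurd h6.symm hp2)
      obtain ⟨k, hk⟩ := h5
      rw [hk, pow_mul, hcp, one_pow, mul_one]
    · intro x
      rw [pow_one]
      exact hpz x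

end symp

end Pool.Agent.Helper606_LC
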