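import Mathlib
import Pool.Agent.Helper606_LC.Symp

/-!
# Normal subgroups of prime power order
-/

set_option autoImplicit false
set_option linter.unusedSectionVars false

namespace Pool.Agent.Helper606_LC

open Pool.Agent.H541R3.ART Pool.Agent.W446.AS Pool.Agent.R389 Pool.Agent.H302R2
open scoped commutatorElement

variable {G : Type} [Group G] [Finite G] {p a : ℕ}

/-- inversion of elements of order four in an extraspecial normal subgroup -/
lemma inv_four {A : Subgroup G} (hAn : A.Normal)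
    (hcm : ∀ x ∈ A, ∀ y ∈ A, ⁅x, y⁆ ∈ Subgroup.center G)
    (hsq : ∀ x ∈ A, ∀ y ∈ A, ⁅x, y⁆ ^ 2 = 1)
    {w s : G} (hw : w ∈ A) (hws : w * s = s * w) (hwc : w ∉ Subgroup.center G)
    (hcA : ∀ x ∈ A, (∀ y ∈ A, x * y = y * x) → x ∈ Subgroup.center G) {m : ℕ} (hm : Odd m)
    (hs : s ^ m = 1)
    (huniq : ∀ c ∈ Subgroup.center G, c ^ 2 = 1 → c ≠ 1 → c = w ^ 2) :
    ∃ y, y * w * y⁻¹ = w ^ 3 ∧ y * s * y⁻¹ = s := by
  obtain ⟨y₀, hy₀, hne⟩ : ∃ y₀ ∈ A, ⁅y₀, w⁆ ≠ 1 := by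
    by_contra hcon
    push Not at hcon
    apply hwc
    refine hcA w hw fun y hy => ?_
    have := hcon y hy
    rw [commutatorElement_eq_one_iff_mul_comm] at this
    exact this.symm
  set c := ⁅y₀, w⁆ with hc
  have hcz : c ∈ Subgroup.center G := hcm _ hy₀ _ hw
  have hcc : ∀ z : G, z * c = c * z := Subgroup.mem_center_iff.mp hcz
  have hc2 : c ^ 2 = 1 := hsq _ hy₀ _ hw
  have hcw : c = w ^ 2 := huniq c hcz hc2 hne
  -- powers of `y₀ s`
  have h1 : ∀ k : ℕ, (y₀ * s) ^ k * w * ((y₀ * s) ^ k)⁻¹ = c ^ k * w := by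
    intro k
    induction k with
    | zero => simp
    | succ k ih =>
      have h2 : (y₀ * s) * w * (y₀ * s)⁻¹ = c * w := by
        have h3 : (y₀ * s) * w * (y₀ * s)⁻¹ = y₀ * (s * w * s⁻¹) * y₀⁻¹ := by group
        rw [h3, ← hws, mul_inv_cancel_right, hc, commutatorElement_def, inv_mul_cancel_right]
      have h3 : (y₀ * s) ^ (k + 1) * w * ((y₀ * s) ^ (k + 1))⁻¹
          = (y₀ * s) ^ k * ((y₀ * s) * w * (y₀ * s)⁻¹) * ((y₀ * s) ^ k)⁻¹ := by
        rw [pow_succ]; group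
      rw [h3, h2, ← mul_assoc, hcc, mul_assoc c, mul_assoc c, ih, pow_succ', mul_assoc]
  -- `(y₀ s) ^ m` lies in `A`
  have h2 : ∀ k : ℕ, (y₀ * s) ^ k * (s ^ k)⁻¹ ∈ A := by
    intro k
    induction k with
    | zero => simp
    | succ k ih =>
      have h3 : (y₀ * s) ^ (k + 1) * (s ^ (k + 1))⁻¹
          = ((y₀ * s) ^ k * (s ^ k)⁻¹) * (s ^ k * y₀ * (s ^ k)⁻¹) := by
        rw [pow_succ, pow_succ]; group
      rw [h3]
      exact A.mul_mem ih (hAn.conj_mem _ hy₀ _)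
  set y₁ := (y₀ * s) ^ m with hy₁
  have hy₁A : y₁ ∈ A := by
    have := h2 m
    rwa [hs, inv_one, mul_one] at this
  have h3 : s * y₁ * s⁻¹ = ⁅y₀⁻¹, y₁⁆ * y₁ := by
    have h4 : (y₀ * s) * y₁ * (y₀ * s)⁻¹ = y₁ := by
      rw [hy₁, (Commute.self_pow (y₀ * s) m).eq, mul_inv_cancel_right]
    have h5 : s * y₁ * s⁻¹ = y₀⁻¹ * ((y₀ * s) * y₁ * (y₀ * s)⁻¹) * y₀ := by group
    rw [h5, h4, commutatorElement_def]
    group
  set ε := ⁅y₀⁻¹, y₁⁆ with hε
  have hεz : ε ∈ Subgroup.center G := hcm _ (A.inv_mem hy₀) _ hy₁A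
  have hεc : ∀ z : G, z * ε = ε * z := Subgroup.mem_center_iff.mp hεz
  have hε2 : ε ^ 2 = 1 := hsq _ (A.inv_mem hy₀) _ hy₁A
  have h4 : ∀ k : ℕ, s ^ k * y₁ * (s ^ k)⁻¹ = ε ^ k * y₁ := by
    intro k
    induction k with
    | zero => simp
    | succ k ih =>
      have h5 : s ^ (k + 1) * y₁ * (s ^ (k + 1))⁻¹ = s ^ k * (s * y₁ * s⁻¹) * (s ^ k)⁻¹ := by
        rw [pow_succ]; group
      rw [h5, h3, ← mul_assoc, hεc, mul_assoc ε, mul_assoc ε, ih, pow_succ', mul_assoc]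
  have h5 : ε ^ m = 1 := by
    have := h4 m
    rw [hs, one_mul, inv_one, mul_one] at this
    exact (mul_eq_right.mp this.symm)
  have h6 : ∀ x : G, x ^ 2 = 1 → x ^ m = x := by
    intro x hx
    obtain ⟨k, rfl⟩ := hm
    rw [pow_add, pow_mul, hx, one_pow, pow_one, one_mul]
  have h7 : ε = 1 := by rw [← h6 ε hε2, h5]
  refine ⟨y₁, ?_, ?_⟩
  · rw [h1 m, h6 c hc2, hcw]
    group
  · rw [h7, one_mul] at h3
    have h8 : s * y₁ = y₁ * s := mul_inv_eq_iff_eq_mul.mp h3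
    rw [← h8, mul_inv_cancel_right]

/-- the reduction for normal subgroups of prime power order -/
lemma normal_step {V : Type} [AddCommGroup V] [Module ℂ V] [FiniteDimensional ℂ V]
    {ρ : Representation ℂ G V} (hρ : Irred ρ) (hf : ∀ g, ρ g = 1 → g = 1) (hp : p.Prime)
    (ha : 0 < a) (A : Subgroup G) (hAn : A.Normal) (hAp : IsPGroup p A) {x₀ : G} (hx₀A : x₀ ∈ A)
    (hx₀ : orderOf x₀ = p ^ a)
    (hab : ∀ B : Subgroup G, B.Normal → (∀ x y : B, x * y = y * x) → B ≤ Subgroup.center G)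
    (hall : p ^ a = 4 → ∀ w : G, (∃ k, orderOf w = p ^ k) → p ^ a ∣ orderOf w → w ∈ A)
    {N : ℕ} (hN : 0 < N) (hG : Nat.card G ∣ N) {u : (ZMod N)ˣ} (hu : u ∈ Ug N (p ^ a))
    (hmv : pw u ρ.character ≠ ρ.character) : ∃ z ∈ Subgroup.center G, orderOf z = p ^ a := by
  have : Fact p.Prime := ⟨hp⟩
  obtain ⟨ω, hω⟩ := hρ.central
  have hωinj : Function.Injective ω := by
    rw [injective_iff_map_eq_one]
    intro z hz
    apply Subtype.ext
    apply hf
    refine LinearMap.ext fun v => ?_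
    rw [hω, hz, Units.val_one, one_smul, Module.End.one_apply]
  -- characteristic abelian subgroups
  have hchar0 : ∀ K : Subgroup A, K.Characteristic → (∀ x ∈ K, ∀ y ∈ K, x * y = y * x) →
      ∀ x ∈ K, (x : G) ∈ Subgroup.center G := by
    intro K hK hKab x hx
    have h1 : (K.map A.subtype).Normal := inferInstance
    refine hab _ h1 ?_ (⟨x, hx, rfl⟩ : (x : G) ∈ K.map A.subtype)
    rintro ⟨_, ⟨x, hx, rfl⟩⟩ ⟨_, ⟨y, hy, rfl⟩⟩
    apply Subtype.ext
    exact congrArg (fun z : A => (z : G)) (hKab x hx y hy)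
  have hchar : CharAb A := by
    intro K hK hKab x hx
    have h1 := hchar0 K hK hKab x hx
    rw [Subgroup.mem_center_iff] at h1 ⊢
    exact fun y => Subtype.ext (h1 y)
  have hcen : ∀ x : A, x ∈ Subgroup.center A → (x : G) ∈ Subgroup.center G := by
    refine hchar0 _ inferInstance ?_
    intro x _ y hy
    exact Subgroup.mem_center_iff.mp hy x
  let ι : Subgroup.center A →* Subgroup.center G :=
    { toFun := fun x => ⟨((x : A) : G), hcen x x.2⟩
      map_one' := rfl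
      map_mul' := fun _ _ => rfl }
  have hι : Function.Injective ι := by
    intro x y h
    apply Subtype.ext
    apply Subtype.ext
    exact congrArg (fun z : Subgroup.center G => (z : G)) h
  by_cases h4 : p ^ a = 4
  swap
  · obtain ⟨z, hz, hzo⟩ := hchar.central hp hAp (ω.comp ι) (hωinj.comp hι) ha h4
      (x₀ := ⟨x₀, hx₀A⟩) (by rw [← Subgroup.orderOf_coe]; exact hx₀)
    exact ⟨z, hcen z hz, by rw [Subgroup.orderOf_coe]; exact hzo⟩
  -- the case of order four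
  by_contra hcon
  push Not at hcon
  rw [h4] at hcon hu hx₀
  have hp2 : p = 2 := by
    have h1 : p ∣ 2 ^ 2 := by
      rw [show (2 : ℕ) ^ 2 = 4 from rfl, ← h4]
      exact dvd_pow_self p ha.ne'
    exact (Nat.prime_dvd_prime_iff_eq hp Nat.prime_two).mp (hp.dvd_of_dvd_pow h1)
  subst hp2
  have hall' : ∀ w : G, (∃ k, orderOf w = 2 ^ k) → 4 ∣ orderOf w → w ∈ A := by
    intro w hw hw4
    exact hall h4 w hw (by rw [h4]; exact hw4)
  have hcm : ∀ x ∈ A, ∀ y ∈ A, ⁅x, y⁆ ∈ Subgroup.center G := by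
    intro x hx y hy
    exact hcen _ (hchar.comm hAp.isNilpotent ⟨x, hx⟩ ⟨y, hy⟩)
  have hpz : ∀ x ∈ A, x ^ 2 ∈ Subgroup.center G := by
    intro x hx
    exact hcen _ (hchar.pow hp hAp ⟨x, hx⟩)
  have hsq : ∀ x ∈ A, ∀ y ∈ A, ⁅x, y⁆ ^ 2 = 1 := by
    intro x hx y hy
    rw [← comm_pow_left (hcm x hx y hy), commutatorElement_eq_one_iff_mul_comm]
    exact (Subgroup.mem_center_iff.mp (hpz x hx) y).symm
  have hcA : ∀ x ∈ A, (∀ y ∈ A, x * y = y * x) → x ∈ Subgroup.center G := by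
    intro x hx hxy
    refine hcen ⟨x, hx⟩ ?_
    rw [Subgroup.mem_center_iff]
    exact fun y => Subtype.ext (hxy y y.2).symm
  apply hmv
  funext g
  change ρ.character (g ^ (u : ZMod N).val) = ρ.character g
  by_cases hg4 : 4 ∣ orderOf g
  swap
  · rw [pow_ug hN hu (pow_card_dvd hG g) hg4]
  -- the decomposition of `g`
  obtain ⟨e, m, hm, hem⟩ := Nat.exists_eq_two_pow_mul_odd (orderOf_pos g).ne'
  have he : 2 ≤ e := by
    rw [hem] at hg4
    have h1 : 2 ^ 2 ∣ 2 ^ e * m := hg4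
    have h2 : Nat.Coprime (2 ^ 2) m := Nat.Coprime.pow_left 2 (Nat.coprime_two_left.mpr hm)
    exact (Nat.pow_dvd_pow_iff_le_right (by norm_num)).mp (h2.dvd_of_dvd_mul_right h1)
  have hco : Nat.Coprime (2 ^ e) m := Nat.Coprime.pow_left e (Nat.coprime_two_left.mpr hm)
  obtain ⟨t, ht1, ht2⟩ : ∃ t, t ≡ 1 [MOD 2 ^ e] ∧ t ≡ 0 [MOD m] :=
    ⟨Nat.chineseRemainder hco 1 0, (Nat.chineseRemainder hco 1 0).2⟩
  obtain ⟨t', ht1', ht2'⟩ : ∃ t, t ≡ 0 [MOD 2 ^ e] ∧ t ≡ 1 [MOD m] :=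
    ⟨Nat.chineseRemainder hco 0 1, (Nat.chineseRemainder hco 0 1).2⟩
  have hgd : g = g ^ t * g ^ t' := by
    rw [← pow_add]
    conv_lhs => rw [← pow_one g]
    rw [pow_eq_pow_iff_modEq, hem]
    refine (Nat.modEq_and_modEq_iff_modEq_mul hco).mp ⟨?_, ?_⟩
    · exact (ht1.add ht1').symm
    · exact (ht2.add ht2').symm
  set w := g ^ t with hwdef
  set s := g ^ t' with hsdef
  have hws : w * s = s * w := by rw [hwdef, hsdef, ← pow_add, ← pow_add, add_comm]
  have hw2 : w ^ 2 ^ e = 1 := by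
    rw [hwdef, ← pow_mul]
    apply orderOf_dvd_iff_pow_eq_one.mp
    rw [hem, mul_comm]
    exact mul_dvd_mul ((Nat.modEq_zero_iff_dvd).mp ht2) (dvd_refl _)
  have hsm : s ^ m = 1 := by
    rw [hsdef, ← pow_mul]
    apply orderOf_dvd_iff_pow_eq_one.mp
    rw [hem]
    exact mul_dvd_mul ((Nat.modEq_zero_iff_dvd).mp ht1') (dvd_refl _)
  have hwsq : w ^ 2 ≠ 1 := by
    intro h1
    rw [hwdef, ← pow_mul] at h1
    have h2 := orderOf_dvd_of_pow_eq_one h1
    have h3 : 2 ^ 2 ∣ t * 2 := ((pow_dvd_pow 2 he).trans (by rw [hem]; exact dvd_mul_right _ _)).trans h2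
    have h4 : t ≡ 1 [MOD 2] := ht1.of_dvd (dvd_pow_self 2 (by omega))
    have h5 : t % 2 = 1 := h4
    omega
  have hwA : w ∈ A := by
    obtain ⟨k, -, hk⟩ := (Nat.dvd_prime_pow Nat.prime_two).mp (orderOf_dvd_of_pow_eq_one hw2)
    refine hall' w ⟨k, hk⟩ ?_
    rw [hk]
    rcases Nat.lt_or_ge k 2 with h1 | h1
    · exfalso
      apply hwsq
      apply orderOf_dvd_iff_pow_eq_one.mp
      rw [hk]
      calc 2 ^ k ∣ 2 ^ 1 := pow_dvd_pow 2 (by omega)
        _ = 2 := by norm_num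
    · exact pow_dvd_pow 2 h1
  -- central elements have order not divisible by four
  have hno : ∀ c ∈ Subgroup.center G, ¬ 4 ∣ orderOf c := by
    intro c hc h1
    exact hcon (c ^ (orderOf c / 4)) (Subgroup.pow_mem _ hc _)
      (orderOf_pow_orderOf_div (orderOf_pos c).ne' h1)
  have hw4 : w ^ 4 = 1 := by
    by_contra h1
    have h2 := hno _ (hpz w hwA)
    obtain ⟨k, -, hk⟩ := (Nat.dvd_prime_pow Nat.prime_two).mp
      (orderOf_dvd_of_pow_eq_one (x := w ^ 2) (n := 2 ^ e) (by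
        rw [← pow_mul, mul_comm, pow_mul, hw2, one_pow]))
    rw [hk] at h2
    have h3 : k < 2 := by
      by_contra h4
      push Not at h4
      exact h2 (pow_dvd_pow 2 h4)
    apply h1
    have h4 : (w ^ 2) ^ 2 = 1 := by
      apply orderOf_dvd_iff_pow_eq_one.mp
      rw [hk]
      calc 2 ^ k ∣ 2 ^ 1 := pow_dvd_pow 2 (by omega)
        _ = 2 := by norm_num
    rw [← pow_mul] at h4
    exact h4
  have hwo : orderOf w = 4 := by
    have h1 : orderOf w = 2 ^ (1 + 1) := orderOf_eq_prime_pow (p := 2) (n := 1)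
      (by rw [pow_one]; exact hwsq) hw4
    exact h1
  have hsu : s ^ (u : ZMod N).val = s := by
    refine pow_ug hN hu (pow_card_dvd hG s) fun h1 => ?_
    have h2 := h1.trans (orderOf_dvd_of_pow_eq_one hsm)
    obtain ⟨k, rfl⟩ := hm
    omega
  have hwu : (w ^ 2) ^ (u : ZMod N).val = w ^ 2 := by
    refine pow_ug hN hu (pow_card_dvd hG _) fun h1 => ?_
    have h2 := h1.trans (orderOf_dvd_of_pow_eq_one (x := w ^ 2) (n := 2) (by
      rw [← pow_mul]; exact hw4))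
    omega
  have huodd : (u : ZMod N).val % 2 = 1 := by
    by_contra h1
    have h2 : 2 ∣ (u : ZMod N).val := by omega
    obtain ⟨k, hk⟩ := h2
    rw [hk, ← pow_mul] at hwu
    have h3 : w ^ (2 * (2 * k)) = 1 := by
      rw [← mul_assoc, pow_mul, show 2 * 2 = 4 from rfl, hw4, one_pow]
    rw [h3] at hwu
    exact hwsq hwu.symm
  have hwu2 : w ^ (u : ZMod N).val = w ∨ w ^ (u : ZMod N).val = w ^ 3 := by
    have h1 : w ^ (u : ZMod N).val = w ^ ((u : ZMod N).val % 4) := by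
      rw [← hwo, pow_mod_orderOf]
    have h2 : (u : ZMod N).val % 4 = 1 ∨ (u : ZMod N).val % 4 = 3 := by omega
    rcases h2 with h2 | h2
    · left; rw [h1, h2, pow_one]
    · right; rw [h1, h2]
  have hgu : g ^ (u : ZMod N).val = w ^ (u : ZMod N).val * s := by
    conv_lhs => rw [hgd]
    rw [(show Commute w s from hws).mul_pow, hsu]
  rcases hwu2 with h1 | h1
  · rw [hgu, h1, ← hgd]
  · -- inversion
    have hwc : w ∉ Subgroup.center G := by
      intro h2
      exact hno w h2 (by rw [hwo])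
    have huniq : ∀ c ∈ Subgroup.center G, c ^ 2 = 1 → c ≠ 1 → c = w ^ 2 := by
      intro c hc hc2 hc1
      have h2 : ∀ (x : G) (hx : x ∈ Subgroup.center G), x ^ 2 = 1 → x ≠ 1 →
          ω ⟨x, hx⟩ = -1 := by
        intro x hx hx2 hx1
        have h3 : (ω ⟨x, hx⟩) ^ 2 = 1 := by
          rw [← map_pow]
          have h4 : (⟨x, hx⟩ : Subgroup.center G) ^ 2 = 1 := Subtype.ext hx2
          rw [h4, map_one]
        have h3' : ω ⟨x, hx⟩ = 1 ∨ ω ⟨x, hx⟩ = -1 := by
          have h4 : ((ω ⟨x, hx⟩ : ℂˣ) : ℂ) * ((ω ⟨x, hx⟩ : ℂˣ) : ℂ) = 1 := by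
            rw [← Units.val_mul, ← sq, h3, Units.val_one]
          rcases mul_self_eq_one_iff.mp h4 with h5 | h5
          · left; exact Units.ext h5
          · right; exact Units.ext (by rw [h5, Units.val_neg, Units.val_one])
        rcases h3' with h5 | h5
        · exfalso
          apply hx1
          have h6 := hωinj (h5.trans (map_one ω).symm)
          exact congrArg Subtype.val h6
        · exact h5
      have h3 := h2 c hc hc2 hc1
      have h4 := h2 (w ^ 2) (hpz w hwA) (by rw [← pow_mul]; exact hw4) hwsq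
      have h5 := hωinj (h3.trans h4.symm)
      exact congrArg Subtype.val h5
    obtain ⟨y, hy1, hy2⟩ := inv_four hAn hcm hsq hwA hws hwc hcA hm hsm huniq
    have h2 : y * g * y⁻¹ = g ^ (u : ZMod N).val := by
      rw [hgu, h1, ← hy1]
      conv_lhs => rw [hgd]
      have h3 : y * (w * s) * y⁻¹ = (y * w * y⁻¹) * (y * s * y⁻¹) := by group
      rw [h3, hy2]
    rw [← h2]
    exact Irr.conj (irr_of_irred hρ) g y

end Pool.Agent.Helper606_LC
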