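import Mathlib
import Pool.Agent.Helper606_LC.Step

/-!
# Sylow subgroups sharing elements of large order
-/

set_option autoImplicit false
set_option linter.unusedSectionVars false

namespace Pool.Agent.Helper606_LC

open Pool.Agent.H541R3.ART Pool.Agent.W446.AS Pool.Agent.R389 Pool.Agent.H302R2

/-- a Sylow `p`-subgroup containing one element of order divisible by `p ^ a` of another Sylow
`p`-subgroup contains all of them -/
def SaP (p a : ℕ) (G : Type*) [Group G] : Prop :=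
  ∀ P P' : Sylow p G, ∀ x ∈ P, x ∈ P' → p ^ a ∣ orderOf x → ∀ y ∈ P, p ^ a ∣ orderOf y → y ∈ P'

/-- the normalizer of a `p`-subgroup controls the elements of order divisible by `p ^ a` -/
def RedQ (p a : ℕ) (G : Type*) [Group G] (x₀ : G) : Prop :=
  ∃ A : Subgroup G, IsPGroup p A ∧ x₀ ∈ A ∧
    (∀ s : G, p ^ a ∣ orderOf s → ∃ x, x * s * x⁻¹ ∈ Subgroup.normalizer (A : Set G)) ∧
    (∀ s : G, p ^ a ∣ orderOf s → s ∈ Subgroup.normalizer (A : Set G) →
      ∀ x, x * s * x⁻¹ ∈ Subgroup.normalizer (A : Set G) → x ∈ Subgroup.normalizer (A : Set G)) ∧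
    ((∀ x y : A, x * y = y * x) ∨
      (A.Normal → ∀ w : G, (∃ k, orderOf w = p ^ k) → p ^ a ∣ orderOf w → w ∈ A))

section share

variable {G : Type} [Group G] [Finite G] {p a : ℕ}

lemma CyP.redQ (hp : p.Prime) (h : CyP p a G) {x₀ : G} (hx₀ : orderOf x₀ = p ^ a) :
    RedQ p a G x₀ := by
  obtain ⟨h1, h2⟩ := h.red hp hx₀
  exact ⟨Subgroup.zpowers x₀, IsPGroup.of_card (n := a) (by rw [Nat.card_zpowers, hx₀]),
    Subgroup.mem_zpowers x₀, h1, h2, Or.inl (zpowers_comm x₀)⟩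

lemma SaP.sub [Fact p.Prime] (h : SaP p a G) (H : Subgroup G) : SaP p a H := by
  have key : ∀ P : Sylow p H, ∃ Q : Sylow p G, ∀ x : H, x ∈ P ↔ (x : G) ∈ Q := by
    intro P
    obtain ⟨Q, hQ⟩ := (P.isPGroup'.map H.subtype).exists_le_sylow
    refine ⟨Q, fun x => ⟨fun hx => hQ ⟨x, hx, rfl⟩, fun hx => ?_⟩⟩
    have h1 : (P : Subgroup H) ≤ (Q : Subgroup G).subgroupOf H := by
      intro y hy
      rw [Subgroup.mem_subgroupOf]
      exact hQ ⟨y, hy, rfl⟩
    have h2 : IsPGroup p ((Q : Subgroup G).subgroupOf H) :=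
      Q.isPGroup'.comap_of_injective H.subtype H.subtype_injective
    have h3 := P.is_maximal' h2 h1
    have h4 : x ∈ (Q : Subgroup G).subgroupOf H := by
      rw [Subgroup.mem_subgroupOf]; exact hx
    rw [h3] at h4
    exact h4
  intro P P' x hx hx' hxa y hy hya
  obtain ⟨Q, hQ⟩ := key P
  obtain ⟨Q', hQ'⟩ := key P'
  rw [hQ']
  exact h Q Q' x ((hQ x).mp hx) ((hQ' x).mp hx') (by rw [Subgroup.orderOf_coe]; exact hxa) y
    ((hQ y).mp hy) (by rw [Subgroup.orderOf_coe]; exact hya)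

lemma SaP.quot [hpf : Fact p.Prime] (h : SaP p a G) {Y : Type} [Group Y] [Finite Y] {π : G →* Y}
    (hπ : Function.Surjective π) : SaP p a Y := by
  have hp := hpf.out
  -- images of Sylow subgroups
  have key : ∀ P : Sylow p Y, ∃ Q : Sylow p G, ∀ y, y ∈ P ↔ ∃ x ∈ Q, π x = y := by
    intro P
    let Q' : Subgroup G := (P : Subgroup Y).comap π
    let f : Q' →* P := π.subgroupComap (P : Subgroup Y)
    have hf : Function.Surjective f := by
      rintro ⟨y, hy⟩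
      obtain ⟨g, rfl⟩ := hπ y
      exact ⟨⟨g, hy⟩, rfl⟩
    obtain ⟨R⟩ : Nonempty (Sylow p Q') := inferInstance
    obtain ⟨Q, hQ⟩ := (R.isPGroup'.map Q'.subtype).exists_le_sylow
    have h1 : (P : Subgroup Y) ≤ (Q : Subgroup G).map π := by
      intro y hy
      obtain ⟨x, hx, hxy⟩ := sylow_surj hp hf P.isPGroup' R ⟨y, hy⟩
      exact ⟨x, hQ ⟨x, hx, rfl⟩, congrArg Subtype.val hxy⟩
    have h2 := P.is_maximal' (Q.isPGroup'.map π) h1
    refine ⟨Q, fun y => ?_⟩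
    constructor
    · intro hy
      obtain ⟨x, hx, hxy⟩ := h1 hy
      exact ⟨x, hx, hxy⟩
    · rintro ⟨x, hx, rfl⟩
      have h3 : π x ∈ (Q : Subgroup G).map π := ⟨x, hx, rfl⟩
      rw [h2] at h3
      exact h3
  intro P P' y hy hy' hya z hz hza
  obtain ⟨Q, hQ⟩ := key P
  obtain ⟨Q', hQ'⟩ := key P'
  obtain ⟨x, hx, hxy⟩ := (hQ y).mp hy
  obtain ⟨x', hx', hxy'⟩ := (hQ' y).mp hy'
  have hxa : p ^ a ∣ orderOf x := by
    rw [← hxy] at hya
    exact hya.trans (orderOf_map_dvd π x)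
  have hxa' : p ^ a ∣ orderOf x' := by
    rw [← hxy'] at hya
    exact hya.trans (orderOf_map_dvd π x')
  let W : Subgroup G := (Subgroup.zpowers y).comap π
  have hxW : x ∈ W := by
    rw [Subgroup.mem_comap, hxy]; exact Subgroup.mem_zpowers y
  have hxW' : x' ∈ W := by
    rw [Subgroup.mem_comap, hxy']; exact Subgroup.mem_zpowers y
  obtain ⟨R, hR⟩ : ∃ R : Sylow p W, (⟨x, hxW⟩ : W) ∈ R := by
    have h1 : IsPGroup p (Subgroup.zpowers (⟨x, hxW⟩ : W)) := by
      have h2 : IsPGroup p ((Q : Subgroup G).subgroupOf W) :=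
        Q.isPGroup'.comap_of_injective W.subtype W.subtype_injective
      refine h2.to_le ?_
      rw [Subgroup.zpowers_le, Subgroup.mem_subgroupOf]
      exact hx
    obtain ⟨R, hR⟩ := h1.exists_le_sylow
    exact ⟨R, hR (Subgroup.mem_zpowers _)⟩
  obtain ⟨R', hR'⟩ : ∃ R : Sylow p W, (⟨x', hxW'⟩ : W) ∈ R := by
    have h1 : IsPGroup p (Subgroup.zpowers (⟨x', hxW'⟩ : W)) := by
      have h2 : IsPGroup p ((Q' : Subgroup G).subgroupOf W) :=
        Q'.isPGroup'.comap_of_injective W.subtype W.subtype_injective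
      refine h2.to_le ?_
      rw [Subgroup.zpowers_le, Subgroup.mem_subgroupOf]
      exact hx'
    obtain ⟨R, hR⟩ := h1.exists_le_sylow
    exact ⟨R, hR (Subgroup.mem_zpowers _)⟩
  obtain ⟨w, hw⟩ := MulAction.exists_smul_eq W R R'
  -- write `w = k * x ^ j` with `k` in the kernel
  obtain ⟨j, hj⟩ : ∃ j : ℤ, y ^ j = π (w : G) := w.2
  let k : G := (w : G) * (x ^ j)⁻¹
  have hk : k ∈ π.ker := by
    rw [MonoidHom.mem_ker, map_mul, map_inv, map_zpow, hxy, hj, mul_inv_cancel]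
  have h1 : k * x * k⁻¹ = w * x * (w : G)⁻¹ := by
    have h2 : (x ^ j)⁻¹ * x * x ^ j = x := by
      rw [← zpow_neg]
      have h3 : x ^ (-j) * x = x * x ^ (-j) := (Commute.refl x).zpow_left (-j)
      rw [h3, mul_assoc, ← zpow_add, neg_add_cancel, zpow_zero, mul_one]
    have h3 : k * x * k⁻¹ = (w : G) * ((x ^ j)⁻¹ * x * x ^ j) * (w : G)⁻¹ := by
      change (w : G) * (x ^ j)⁻¹ * x * ((w : G) * (x ^ j)⁻¹)⁻¹ = _
      group
    rw [h3, h2]
  -- `k x k⁻¹` lies in `R'`, which lies in `Q'`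
  have h2 : w * (⟨x, hxW⟩ : W) * w⁻¹ ∈ R' := by
    rw [← hw]
    exact ⟨_, hR, rfl⟩
  obtain ⟨Q₂, hQ₂⟩ := (R'.isPGroup'.map W.subtype).exists_le_sylow
  have h3 : k * x * k⁻¹ ∈ Q₂ := by
    rw [h1]
    exact hQ₂ ⟨_, h2, rfl⟩
  have h4 : k * x * k⁻¹ ∈ Q' := by
    refine h Q₂ Q' x' (hQ₂ ⟨⟨x', hxW'⟩, hR', rfl⟩) hx' hxa' _ h3 ?_
    rw [orderOf_conj']
    exact hxa
  have h5 : k * x * k⁻¹ ∈ k • Q := ⟨x, hx, rfl⟩
  -- conclusion
  obtain ⟨t, ht, htz⟩ := (hQ z).mp hz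
  have h6 : k * t * k⁻¹ ∈ Q' := by
    refine h (k • Q) Q' _ h5 h4 (by rw [orderOf_conj']; exact hxa) _ ⟨t, ht, rfl⟩ ?_
    rw [orderOf_conj']
    rw [← htz] at hza
    exact hza.trans (orderOf_map_dvd π t)
  rw [hQ']
  refine ⟨_, h6, ?_⟩
  rw [map_mul, map_mul, map_inv, MonoidHom.mem_ker.mp hk, htz]
  simp

lemma SaP.redQ [Fact p.Prime] (h : SaP p a G) {x₀ : G} (hx₀ : orderOf x₀ = p ^ a) :
    RedQ p a G x₀ := by
  have hp : p.Prime := Fact.out
  have hpg : ∀ x : G, orderOf x = p ^ a → IsPGroup p (Subgroup.zpowers x) := fun x hx =>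
    IsPGroup.of_card (n := a) (by rw [Nat.card_zpowers, hx])
  obtain ⟨P, hP⟩ := (hpg x₀ hx₀).exists_le_sylow
  have hx₀P : x₀ ∈ P := hP (Subgroup.mem_zpowers x₀)
  let T : Set G := {x | x ∈ P ∧ p ^ a ∣ orderOf x}
  let A : Subgroup G := Subgroup.closure T
  have hAP : A ≤ P := by
    rw [Subgroup.closure_le]
    exact fun x hx => hx.1
  have hx₀A : x₀ ∈ A := Subgroup.subset_closure ⟨hx₀P, by rw [hx₀]⟩
  have hAp : IsPGroup p A := P.isPGroup'.to_le hAP
  have hconj : ∀ (Q : Sylow p G) (g x : G), x ∈ Q → g * x * g⁻¹ ∈ g • Q := fun Q g x hx =>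
    ⟨x, hx, rfl⟩
  have hconj' : ∀ (Q : Sylow p G) (g x : G), x ∈ g • Q → g⁻¹ * x * g ∈ Q := by
    rintro Q g x ⟨y, hy, rfl⟩
    have h1 : g⁻¹ * (g * y * g⁻¹) * g = y := by group
    change g⁻¹ * (g * y * g⁻¹) * g ∈ Q
    rw [h1]
    exact hy
  -- elements preserving `T` normalize `A`
  have hnorm : ∀ g : G, (∀ x ∈ T, g * x * g⁻¹ ∈ T) → g ∈ Subgroup.normalizer (A : Set G) := by
    intro g hg
    have h1 : A.map (MulAut.conj g).toMonoidHom ≤ A := by
      rw [MonoidHom.map_closure]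
      apply Subgroup.closure_mono
      rintro _ ⟨x, hx, rfl⟩
      exact hg x hx
    have h2 : A.map (MulAut.conj g).toMonoidHom = A := by
      apply Subgroup.eq_of_le_of_card_ge h1
      rw [Subgroup.card_map_of_injective (MulAut.conj g).injective]
    rw [Subgroup.mem_normalizer_iff]
    intro y
    constructor
    · intro hy
      exact h1 ⟨y, hy, rfl⟩
    · intro hy
      have h3 : g * y * g⁻¹ ∈ A.map (MulAut.conj g).toMonoidHom := by rw [h2]; exact hy
      obtain ⟨z, hz, hzy⟩ := h3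
      have h4 : g * z * g⁻¹ = g * y * g⁻¹ := hzy
      have h5 : z = y := by
        have := congrArg (fun t => g⁻¹ * t * g) h4
        have h6 : ∀ t : G, g⁻¹ * (g * t * g⁻¹) * g = t := fun t => by group
        rwa [h6, h6] at this
      rw [← h5]
      exact hz
  -- elements with a conjugate of an element of `T` in `T`
  have hT : ∀ g x : G, x ∈ T → g * x * g⁻¹ ∈ P → ∀ y ∈ T, g * y * g⁻¹ ∈ T := by
    intro g x hx hgx y hy
    refine ⟨?_, by rw [orderOf_conj']; exact hy.2⟩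
    exact h (g • P) P (g * x * g⁻¹) (hconj P g x hx.1) hgx (by rw [orderOf_conj']; exact hx.2) _
      (hconj P g y hy.1) (by rw [orderOf_conj']; exact hy.2)
  refine ⟨A, hAp, hx₀A, ?_, ?_, Or.inr ?_⟩
  · intro s hs
    have hwo : orderOf (s ^ (orderOf s / p ^ a)) = p ^ a := exists_power hs
    obtain ⟨Q, hQ⟩ := (hpg _ hwo).exists_le_sylow
    obtain ⟨g, hg⟩ := MulAction.exists_smul_eq G Q P
    have hwQ : s ^ (orderOf s / p ^ a) ∈ Q := hQ (Subgroup.mem_zpowers _)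
    refine ⟨g, hnorm _ (hT _ (g * s ^ (orderOf s / p ^ a) * g⁻¹) ⟨?_, ?_⟩ ?_)⟩
    · rw [← hg]; exact hconj Q g _ hwQ
    · rw [orderOf_conj', hwo]
    · have h1 : g * s * g⁻¹ * (g * s ^ (orderOf s / p ^ a) * g⁻¹) * (g * s * g⁻¹)⁻¹
          = g * (s * s ^ (orderOf s / p ^ a) * s⁻¹) * g⁻¹ := by group
      rw [h1, (Commute.self_pow s _).mul_inv_cancel, ← hg]
      exact hconj Q g _ hwQ
  · intro s hs hsH x hx
    have hmem : ∀ t : G, orderOf t = p ^ a → t ∈ Subgroup.normalizer (A : Set G) → t ∈ T := by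
      intro t hto htH
      have hle : Subgroup.zpowers t ≤ Subgroup.normalizer (A : Set G) := by
        rw [Subgroup.zpowers_le]; exact htH
      have hsup := (hpg t hto).to_sup_of_normal_right' hAp hle
      obtain ⟨Q₂, hQ₂⟩ := hsup.exists_le_sylow
      refine ⟨?_, by rw [hto]⟩
      exact h Q₂ P x₀ (hQ₂ (Subgroup.mem_sup_right hx₀A)) hx₀P (by rw [hx₀]) t
        (hQ₂ (Subgroup.mem_sup_left (Subgroup.mem_zpowers t))) (by rw [hto])
    have hwo : orderOf (s ^ (orderOf s / p ^ a)) = p ^ a := exists_power hs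
    have h1 := hmem _ hwo (Subgroup.pow_mem _ hsH _)
    have h2 := hmem (x * s ^ (orderOf s / p ^ a) * x⁻¹) (by rw [orderOf_conj', hwo]) (by
      rw [← conj_pow]
      exact Subgroup.pow_mem _ hx _)
    exact hnorm x (hT x _ h1 h2.1)
  · intro hAn w hwk hwa
    obtain ⟨k, hk⟩ := hwk
    have hpw : IsPGroup p (Subgroup.zpowers w) := IsPGroup.of_card (n := k) (by
      rw [Nat.card_zpowers, hk])
    obtain ⟨Q, hQ⟩ := hpw.exists_le_sylow
    have hAQ : A ≤ Q := by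
      have h1 : (Q : Subgroup G) ⊔ A ≤ Q := by
        have h2 := Q.isPGroup'.to_sup_of_normal_right hAp
        rw [Q.is_maximal' h2 le_sup_left]
      exact le_sup_right.trans h1
    exact Subgroup.subset_closure ⟨h Q P x₀ (hAQ hx₀A) hx₀P (by rw [hx₀]) w
      (hQ (Subgroup.mem_zpowers w)) hwa, hwa⟩

end share

end Pool.Agent.Helper606_LC
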