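import Mathlib
import Pool.Agent.Helper606_LC.Psi
import Pool.Agent.Helper606_LC.Share
import Pool.Agent.Helper606_LC.Comb2

/-!
# The main induction with tame primes
-/

set_option autoImplicit false
set_option linter.unusedSectionVars false

namespace Pool.Agent.Helper606_LC

open Pool.Agent.H541R3.ART Pool.Agent.W446.AS Pool.Agent.R389 Pool.Agent.H302R2

/-- tame primes -/
def Tm (p a : ℕ) (G : Type*) [Group G] : Prop := CyP p a G ∨ SaP p a G

lemma Tm.sub {G : Type} [Group G] [Finite G] {p a : ℕ} (hp : p.Prime) (h : Tm p a G)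
    (H : Subgroup G) : Tm p a H := by
  have : Fact p.Prime := ⟨hp⟩
  exact h.imp (fun h => h.sub H) (fun h => h.sub H)

lemma Tm.quot {G : Type} [Group G] [Finite G] {p a : ℕ} (hp : p.Prime) (h : Tm p a G) {Y : Type}
    [Group Y] [Finite Y] {π : G →* Y} (hπ : Function.Surjective π) : Tm p a Y := by
  have : Fact p.Prime := ⟨hp⟩
  exact h.imp (fun h => h.quot hp hπ) (fun h => h.quot hπ)

lemma Tm.redQ {G : Type} [Group G] [Finite G] {p a : ℕ} (hp : p.Prime) (h : Tm p a G) {x₀ : G}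
    (hx₀ : orderOf x₀ = p ^ a) : RedQ p a G x₀ := by
  have : Fact p.Prime := ⟨hp⟩
  rcases h with h | h
  · exact h.redQ hp hx₀
  · exact h.redQ hx₀

open Classical in
/-- the wild primes in `I` -/
noncomputable def wildP (G : Type*) [Group G] (a : ℕ → ℕ) (I : Finset ℕ) : Finset ℕ :=
  I.filter fun p => ¬ Tm p (a p) G

/-- **The main induction.** -/
theorem main_psi2 {N : ℕ} (hN : 0 < N) (a : ℕ → ℕ) {F : Type*} [Field F] {ℓ : ℕ} [CharP F ℓ]
    (hℓ : ℓ.Prime) (ψ : (ZMod N)ˣ →* Fˣ) :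
    ∀ (n : ℕ) (G : Type) [Group G] [Finite G] (hG : Nat.card G ∣ N), Nat.card G = n →
      ∀ χ ∈ Irr G, (∀ k, pw k χ = χ → ψ k = 1) → ∀ I : Finset ℕ, (∀ p ∈ I, p.Prime) →
      (∀ p ∈ I, 0 < a p) →
      (∀ p ∈ I, ∃ u ∈ Ug N (p ^ a p), pw u χ ≠ χ) →
      (∀ p ∈ wildP G a I, ∃ u ∈ Ug N (p ^ a p), ψ u ≠ 1 ∨ ℓ ∣ orderOf (gmk hN hG χ u)) →
      HasOrd χ (∏ p ∈ I, p ^ a p) := by
  intro n
  induction n using Nat.strong_induction_on with
  | _ n ih =>
  intro G _ _ hG hn χ hχ hψ I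
  classical
  induction I using Finset.strongInduction with
  | H I ihI =>
  intro hI ha hA hB
  -- passing to a smaller group
  have hpass : ∀ {G' : Type} [Group G'] [Finite G'] (hG' : Nat.card G' ∣ N), Nat.card G' < n →
      (∀ p ∈ I, Tm p (a p) G → Tm p (a p) G') → ∀ η ∈ Irr G',
      (∀ k : (ZMod N)ˣ, pw k η = η → pw k χ = χ) → HasOrd η (∏ p ∈ I, p ^ a p) := by
    intro G' _ _ hG' hlt hcyc η hη hst
    have hfin := gam_finite hN hG' η
    refine ih (Nat.card G') hlt G' hG' rfl η hη (fun k hk => hψ k (hst k hk)) I hI ha ?_ ?_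
    · intro p hp
      obtain ⟨u, hu, hu1⟩ := hA p hp
      exact ⟨u, hu, fun h => hu1 (hst u h)⟩
    · intro p hp
      obtain ⟨hp1, hp2⟩ := Finset.mem_filter.mp hp
      obtain ⟨u, hu, hu1⟩ := hB p (Finset.mem_filter.mpr ⟨hp1, fun h => hp2 (hcyc p hp1 h)⟩)
      refine ⟨u, hu, hu1.imp_right fun h => h.trans ?_⟩
      apply orderOf_dvd_of_pow_eq_one
      rw [← map_pow, gmk_eq_one]
      apply hst
      rw [← gmk_eq_one hN hG', map_pow, pow_orderOf_eq_one]
  have hsub : ∀ (H : Subgroup G), H ≠ ⊤ → ∀ η ∈ Irr H, pr (fun h : H => χ h) η ≠ 0 →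
      (∀ k : (ZMod N)ˣ, pw k η = η → pw k χ = χ) → HasOrd χ (∏ p ∈ I, p ^ a p) := by
    intro H hH η hη hne hst
    have hHN : Nat.card H ∣ N := H.card_subgroup_dvd_card.trans hG
    refine hasOrd_up hχ hη hne ?_
    exact hpass hHN (by rw [← hn]; exact card_lt_of_ne hH) (fun p hp h => h.sub (hI p hp) H) η hη
      hst
  by_cases hgood : ∃ p ∈ I, Tm p (a p) G
  swap
  · -- all primes are wild
    push Not at hgood
    have hbadI : wildP G a I = I := Finset.filter_true_of_mem fun p hp => hgood p hp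
    rw [hbadI] at hB
    choose! u hu hu1 using hB
    obtain ⟨ψ', hψ'⟩ := exists_lift hN hG ψ hψ
    obtain ⟨K, μ, h2, h3⟩ := crit hN hG hℓ hχ (I := I) (m := fun p => p ^ a p)
      (β := fun p => gmk hN hG χ (u p)) (fun p hp => ⟨u p, hu p hp, rfl⟩) ψ'
      (fun p hp => by rw [hψ']; exact hu1 p hp)
    exact ⟨K, μ, h2, prod_dvd_of_forall hI h3⟩
  obtain ⟨p, hpI, htm⟩ := hgood
  have hp := hI p hpI
  obtain ⟨m, ρ, hρ, rfl⟩ := exists_rep hχ
  by_cases hf : ∀ g, ρ g = 1 → g = 1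
  swap
  · -- not faithful
    push Not at hf
    obtain ⟨g₀, hg₀, hg₁⟩ := hf
    let π : G →* G ⧸ ρ.ker := QuotientGroup.mk' _
    have hπ : Function.Surjective π := QuotientGroup.mk'_surjective _
    obtain ⟨φ, hφ, hφ1⟩ := descend_irr hπ hρ (by
      intro g hg
      rw [QuotientGroup.ker_mk', MonoidHom.mem_ker] at hg
      exact hg)
    have hlt : Nat.card (G ⧸ ρ.ker) < n := by
      have h2 := Subgroup.card_eq_card_quotient_mul_card_subgroup ρ.ker
      have h3 : 1 < Nat.card ρ.ker := by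
        have : Nontrivial ρ.ker := ⟨⟨g₀, MonoidHom.mem_ker.mpr hg₀⟩, 1, fun h =>
          hg₁ (congrArg Subtype.val h)⟩
        exact Finite.one_lt_card
      have h4 : 0 < Nat.card (G ⧸ ρ.ker) := Nat.card_pos
      rw [hn] at h2
      rw [h2]
      nlinarith
    have hQN : Nat.card (G ⧸ ρ.ker) ∣ N := (Subgroup.card_quotient_dvd_card ρ.ker).trans hG
    have hst : ∀ k : (ZMod N)ˣ, pw k φ = φ → pw k ρ.character = ρ.character := by
      intro k hk
      funext g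
      change ρ.character (g ^ (k : ZMod N).val) = ρ.character g
      rw [hφ1, hφ1, map_pow]
      exact congrFun hk (π g)
    have h1 := hpass hQN hlt (fun r hr h => h.quot (hI r hr) hπ) φ hφ hst
    obtain ⟨m', τ, -, rfl⟩ := exists_rep hφ
    obtain ⟨y, z, v, hv, hz, hd⟩ := (hasOrd_iff τ _).mp h1
    obtain ⟨g, rfl⟩ := hπ y
    have h2 : ρ.character = Representation.character (τ.comp π) := funext hφ1
    rw [h2]
    exact (hasOrd_iff (τ.comp π) _).mpr ⟨g, z, v, hv, hz, hd⟩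
  -- an element of order `p ^ a p`
  obtain ⟨u, hu, hmv⟩ := hA p hpI
  obtain ⟨s, hs⟩ : ∃ s : G, p ^ a p ∣ orderOf s := by
    by_contra hcon
    push Not at hcon
    apply hmv
    funext g
    change ρ.character (g ^ (u : ZMod N).val) = ρ.character g
    rw [pow_ug hN hu (pow_card_dvd hG g) (hcon g)]
  have hx₀ : orderOf (s ^ (orderOf s / p ^ a p)) = p ^ a p := exists_power hs
  obtain ⟨A, hAp, hx₀A, hcov, htint, hlast⟩ := htm.redQ hp hx₀
  by_cases hH : Subgroup.normalizer (A : Set G) = ⊤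
  swap
  · obtain ⟨η, hη, hne, hst⟩ := reduce hN hG hχ _ hcov htint hu hmv
    exact hsub _ hH η hη hne hst
  have hnormal : A.Normal := Subgroup.normalizer_eq_top_iff.mp hH
  by_cases hab : ∀ B : Subgroup G, B.Normal → (∀ x y : B, x * y = y * x) → B ≤ Subgroup.center G
  swap
  · push Not at hab
    obtain ⟨B, hBn, hBc, hBz⟩ := hab
    obtain ⟨H, hH1, φ, hφ, hχφ⟩ := clifford_char hρ hf B hBc hBz
    refine hsub H hH1 φ hφ (ind_constit hχ hχφ) fun k hk => ?_
    rw [hχφ, pw_ind hN hG, hk]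
  -- a central element of order `p ^ a p`
  obtain ⟨z, hz, hzo⟩ : ∃ z ∈ Subgroup.center G, orderOf z = p ^ a p := by
    rcases hlast with h | h
    · exact ⟨_, hab A hnormal h hx₀A, hx₀⟩
    · exact normal_step hρ hf hp (ha p hpI) A hnormal hAp hx₀A hx₀ hab (fun _ => h hnormal) hN hG
        hu hmv
  have h1 := ihI (I.erase p) (Finset.erase_ssubset hpI)
    (fun r hr => hI r (Finset.mem_of_mem_erase hr)) (fun r hr => ha r (Finset.mem_of_mem_erase hr))
    (fun r hr => hA r (Finset.mem_of_mem_erase hr))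
    (by
      intro t ht
      obtain ⟨ht1, ht2⟩ := Finset.mem_filter.mp ht
      exact hB t (Finset.mem_filter.mpr ⟨Finset.mem_of_mem_erase ht1, ht2⟩))
  rw [← Finset.mul_prod_erase I (fun p => p ^ a p) hpI]
  refine hasOrd_central hρ hf hp hzo hz ?_ h1
  intro hdvd
  obtain ⟨r, hr, hpr⟩ := (Prime.dvd_finsetProd_iff hp.prime _).mp hdvd
  have h2 := (Nat.prime_dvd_prime_iff_eq hp (hI r (Finset.mem_of_mem_erase hr))).mp
    (hp.dvd_of_dvd_pow hpr)
  exact (Finset.mem_erase.mp hr).1 h2.symm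

/-- the universal bound for the missed primes -/
theorem missed {N : ℕ} (hN : 0 < N) {G : Type} [Group G] [Finite G] (hG : Nat.card G ∣ N)
    {χ : G → ℂ} (hχ : χ ∈ Irr G) {I : Finset ℕ} {a : ℕ → ℕ} (hI : ∀ p ∈ I, p.Prime)
    (ha : ∀ p ∈ I, 0 < a p) (hmov : ∀ p ∈ I, ∃ u ∈ Ug N (p ^ a p), pw u χ ≠ χ) (w : ℕ → ℕ)
    (hw : ∀ p ∈ I, 0 < w p) :
    ∃ E ⊆ wildP G a I, HasOrd χ (∏ p ∈ I \ E, p ^ a p) ∧
      (E = ∅ ∨ 5 * ∑ p ∈ E, w p + 2 ≤ ∑ p ∈ wildP G a I, w p) := by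
  classical
  have hfin := gam_finite hN hG χ
  have h1 : ∀ p ∈ I, ∃ v ∈ Ug N (p ^ a p), (orderOf (gmk hN hG χ v)).Prime := by
    intro p hp
    obtain ⟨u, hu, hu1⟩ := hmov p hp
    exact exists_prime_order hN hG hu hu1
  choose! v hv hv1 using h1
  have hbI : ∀ p ∈ wildP G a I, p ∈ I := fun p hp => (Finset.mem_filter.mp hp).1
  obtain ⟨ℓ, hℓF, ψ, E, hEI, hψ, hE⟩ := per_weight (I := wildP G a I)
    (β := fun p => gmk hN hG χ (v p)) (fun p hp => hv1 p (hbI p hp)) w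
    (fun p hp => hw p (hbI p hp))
  have : CharP (AlgebraicClosure (ZMod ℓ)) ℓ := inferInstance
  refine ⟨E, hEI, ?_, hE⟩
  refine main_psi2 hN a hℓF.out (ψ.comp (gmk hN hG χ)) _ G hG rfl χ hχ ?_ (I \ E)
    (fun p hp => hI p (Finset.mem_sdiff.mp hp).1) (fun p hp => ha p (Finset.mem_sdiff.mp hp).1)
    (fun p hp => hmov p (Finset.mem_sdiff.mp hp).1) ?_
  · intro k hk
    rw [MonoidHom.comp_apply, (gmk_eq_one hN hG χ).mpr hk, map_one]
  · intro p hp
    obtain ⟨hp1, hp2⟩ := Finset.mem_filter.mp hp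
    obtain ⟨hp3, hp4⟩ := Finset.mem_sdiff.mp hp1
    exact ⟨v p, hv p hp3, hψ p (Finset.mem_filter.mpr ⟨hp3, hp2⟩) hp4⟩

end Pool.Agent.Helper606_LC
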