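import Mathlib
import Pool.Agent.Helper606_LC.Psi2
import Pool.Agent.Helper606_LC.Six

/-!
# Divisors of the conductor and wild primes
-/

set_option autoImplicit false
set_option linter.unusedSectionVars false

namespace Pool.Agent.Helper606_LC

open Pool.Agent.H541R3.ART Pool.Agent.W446.AS Pool.Agent.R389

/-- the universal bound, for divisors of the conductor -/
theorem missed_cond {G : Type} [Group G] [Finite G] {χ : G → ℂ} (hχ : χ ∈ Irr G) {n : ℕ}
    (hn : 0 < n) (h : ∀ g, χ g ∈ Qc n)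
    (hmin : ∀ m : ℕ, 0 < m → (∀ g, χ g ∈ Qc m) → n ≤ m) {d : ℕ} (hd : d ∣ n) (w : ℕ → ℕ)
    (hw : ∀ p ∈ d.primeFactors, 0 < w p) :
    ∃ e : ℕ, e ∣ d ∧ Nat.Coprime e (d / e) ∧ HasOrd χ e ∧
      (d / e).primeFactors ⊆ wildP G d.factorization d.primeFactors ∧
      (e = d ∨ 5 * ∑ p ∈ (d / e).primeFactors, w p + 2
        ≤ ∑ p ∈ wildP G d.factorization d.primeFactors, w p) := by
  classical
  have hd0 : d ≠ 0 := by
    rintro rfl
    rw [zero_dvd_iff] at hd
    omega
  have hN : 0 < Nat.card G * n := Nat.mul_pos Nat.card_pos hn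
  have hpr : ∀ p ∈ d.primeFactors, p.Prime := fun p hp => Nat.prime_of_mem_primeFactors hp
  have hpos : ∀ p ∈ d.primeFactors, 0 < d.factorization p := fun p hp =>
    (hpr p hp).factorization_pos_of_dvd hd0 (Nat.dvd_of_mem_primeFactors hp)
  obtain ⟨E, hE, h1, h2⟩ := missed hN (dvd_mul_right (Nat.card G) n) hχ (I := d.primeFactors)
    (a := d.factorization) hpr hpos
    (fun p hp => exists_mov hN (dvd_mul_right _ _) hχ hn (dvd_mul_left _ _) h hmin (hpr p hp)
      (hpos p hp) ((Nat.ordProj_dvd d p).trans hd)) w hw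
  have hEI : E ⊆ d.primeFactors := hE.trans (Finset.filter_subset _ _)
  have hprod : (∏ p ∈ d.primeFactors \ E, p ^ d.factorization p) * ∏ p ∈ E, p ^ d.factorization p
      = d := by
    rw [Finset.prod_sdiff hEI]
    exact Nat.prod_factorization_pow_eq_self hd0
  set e := ∏ p ∈ d.primeFactors \ E, p ^ d.factorization p with he
  set f := ∏ p ∈ E, p ^ d.factorization p with hf
  have he0 : 0 < e := Finset.prod_pos fun p hp =>
    pow_pos (hpr p (Finset.mem_sdiff.mp hp).1).pos _
  have hdiv : d / e = f := by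
    rw [← hprod, Nat.mul_div_cancel_left _ he0]
  have hfac : f.primeFactors = E := by
    ext q
    rw [Nat.mem_primeFactors]
    constructor
    · rintro ⟨hq, hqf, -⟩
      obtain ⟨p, hp, hqp⟩ := (Prime.dvd_finsetProd_iff hq.prime _).mp hqf
      have h3 := (Nat.prime_dvd_prime_iff_eq hq (hpr p (hEI hp))).mp (hq.dvd_of_dvd_pow hqp)
      rw [h3]; exact hp
    · intro hq
      refine ⟨hpr q (hEI hq), ?_, ?_⟩
      · exact (dvd_pow_self q (hpos q (hEI hq)).ne').trans
          (Finset.dvd_prod_of_mem (fun p => p ^ d.factorization p) hq)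
      · exact (Finset.prod_pos fun p hp => pow_pos (hpr p (hEI hp)).pos _).ne'
  have hco : Nat.Coprime e f := by
    rw [he, hf]
    refine Nat.Coprime.prod_left fun p hp => Nat.Coprime.prod_right fun q hq => ?_
    refine Nat.Coprime.pow _ _ ((Nat.coprime_primes (hpr p (Finset.mem_sdiff.mp hp).1)
      (hpr q (hEI hq))).mpr ?_)
    rintro rfl
    exact (Finset.mem_sdiff.mp hp).2 hq
  refine ⟨e, ⟨f, hprod.symm⟩, by rw [hdiv]; exact hco, h1, by rw [hdiv, hfac]; exact hE, ?_⟩
  rcases h2 with h2 | h2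
  · left
    rw [← hprod, hf, h2, Finset.prod_empty, mul_one]
  · right
    rw [hdiv, hfac]
    exact h2

end Pool.Agent.Helper606_LC
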