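import Mathlib
import Pool.Agent.Helper606_LC.Fin
import Pool.Agent.R389.Quat
import Pool.Agent.R389.Del

/-!
# Sums of irreducible characters and comparison of norms
-/

set_option autoImplicit false
set_option linter.unusedSectionVars false

namespace Pool.Agent.Helper606_LC

open Pool.Agent.H541R3.ART Pool.Agent.W446.AS Pool.Agent.R389

/-- sums of irreducible characters -/
def Chr (G : Type) [Group G] : AddSubmonoid (G → ℂ) := AddSubmonoid.closure (Irr G)

variable {G : Type} [Group G]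

lemma irr_chr {a : G → ℂ} (h : a ∈ Irr G) : a ∈ Chr G := AddSubmonoid.subset_closure h

lemma chr_virt {a : G → ℂ} (h : a ∈ Chr G) : Virt a := by
  have h1 : Chr G ≤ (AddSubgroup.closure (Irr G)).toAddSubmonoid := by
    rw [Chr, AddSubmonoid.closure_le]
    exact AddSubgroup.subset_closure
  exact h1 h

lemma chr_class {a : G → ℂ} (h : a ∈ Chr G) (g x : G) : a (x * g * x⁻¹) = a g :=
  (chr_virt h).conj g x

variable [Finite G]

lemma chr_of_rep {V : Type} [AddCommGroup V] [Module ℂ V] [FiniteDimensional ℂ V]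
    (ρ : Representation ℂ G V) : ρ.character ∈ Chr G := char_memP _ ρ rfl

lemma chr_mul {a b : G → ℂ} (ha : a ∈ Chr G) (hb : b ∈ Chr G) : a * b ∈ Chr G := by
  induction ha using AddSubmonoid.closure_induction with
  | mem a ha =>
    induction hb using AddSubmonoid.closure_induction with
    | mem b hb =>
      obtain ⟨n, ρ, -, rfl⟩ := ha
      obtain ⟨m, σ, -, rfl⟩ := hb
      rw [← Representation.char_tensor]
      exact chr_of_rep _
    | zero => rw [mul_zero]; exact zero_mem _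
    | add x y _ _ hx hy => rw [mul_add]; exact add_mem hx hy
  | zero => rw [zero_mul]; exact zero_mem _
  | add x y _ _ hx hy => rw [add_mul]; exact add_mem hx hy

lemma chr_comp {H : Type} [Group H] [Finite H] (φ : H →* G) {a : G → ℂ} (ha : a ∈ Chr G) :
    (fun h => a (φ h)) ∈ Chr H := by
  induction ha using AddSubmonoid.closure_induction with
  | mem a ha =>
    obtain ⟨n, ρ, -, rfl⟩ := ha
    exact chr_of_rep (ρ.comp φ)
  | zero => exact zero_mem _
  | add x y _ _ hx hy => exact add_mem hx hy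

lemma pr_add' (a b c : G → ℂ) : pr a (b + c) = pr a b + pr a c := by
  rw [pr_comm, pr_add, pr_comm b, pr_comm c]

lemma pr_zero' (a : G → ℂ) : pr a 0 = 0 := by rw [pr_comm, pr_zero_left]

lemma chr_pr_nat {a b : G → ℂ} (ha : a ∈ Chr G) (hb : b ∈ Chr G) : ∃ n : ℕ, pr a b = n := by
  classical
  induction ha using AddSubmonoid.closure_induction with
  | mem a ha =>
    induction hb using AddSubmonoid.closure_induction with
    | mem b hb =>
      by_cases h : a = b
      · exact ⟨1, by rw [h, pr_self hb, Nat.cast_one]⟩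
      · exact ⟨0, by rw [pr_ne ha hb h, Nat.cast_zero]⟩
    | zero => exact ⟨0, by rw [pr_zero', Nat.cast_zero]⟩
    | add x y _ _ hx hy =>
      obtain ⟨n, hn⟩ := hx
      obtain ⟨m, hm⟩ := hy
      exact ⟨n + m, by rw [pr_add', hn, hm, Nat.cast_add]⟩
  | zero => exact ⟨0, by rw [pr_zero_left, Nat.cast_zero]⟩
  | add x y _ _ hx hy =>
    obtain ⟨n, hn⟩ := hx
    obtain ⟨m, hm⟩ := hy
    exact ⟨n + m, by rw [pr_add, hn, hm, Nat.cast_add]⟩

lemma chr_one_nat {a : G → ℂ} (ha : a ∈ Chr G) : ∃ d : ℕ, a 1 = d := by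
  induction ha using AddSubmonoid.closure_induction with
  | mem a ha =>
    obtain ⟨d, -, hd⟩ := irr_deg_pos ha
    exact ⟨d, hd⟩
  | zero => exact ⟨0, by simp⟩
  | add x y _ _ hx hy =>
    obtain ⟨n, hn⟩ := hx
    obtain ⟨m, hm⟩ := hy
    exact ⟨n + m, by rw [Pi.add_apply, hn, hm, Nat.cast_add]⟩

lemma chr_pr_ne {a : G → ℂ} (ha : a ∈ Chr G) (h0 : a ≠ 0) : pr a a ≠ 0 := by
  classical
  intro h
  apply h0
  have h1 : ∀ φ ∈ irrF G, ∃ n : ℕ, pr a φ = n := fun φ hφ =>
    chr_pr_nat ha (irr_chr (mem_irrF.mp hφ))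
  choose! n hn using h1
  rw [pr_expand (chr_class ha)] at h
  have h2 : ((∑ φ ∈ irrF G, n φ * n φ : ℕ) : ℂ) = 0 := by
    rw [← h, Nat.cast_sum]
    refine Finset.sum_congr rfl fun φ hφ => ?_
    rw [Nat.cast_mul, pr_comm φ, hn φ hφ]
  have h3 : ∑ φ ∈ irrF G, n φ * n φ = 0 := by exact_mod_cast h2
  have h4 := Finset.sum_eq_zero_iff.mp h3
  funext g
  rw [class_expand (chr_class ha) g, Pi.zero_apply]
  refine Finset.sum_eq_zero fun φ hφ => ?_
  have h5 : n φ = 0 := by
    have := h4 φ hφ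
    exact mul_self_eq_zero.mp this
  rw [hn φ hφ, h5, Nat.cast_zero, zero_mul]

lemma chr_irr {a : G → ℂ} (ha : a ∈ Chr G) (h : pr a a = 1) : a ∈ Irr G := by
  obtain ⟨d, hd⟩ := chr_one_nat ha
  exact irr_of_norm (chr_virt ha) h hd

lemma pr_sum_left {ι : Type*} (B : Finset ι) (c : ι → ℂ) (φ : ι → G → ℂ) (b : G → ℂ) :
    pr (fun g => ∑ i ∈ B, c i * φ i g) b = ∑ i ∈ B, c i * pr (φ i) b := by
  classical
  have : Fintype G := Fintype.ofFinite G
  simp only [pr_eq]
  have h1 : ∀ g : G, (∑ i ∈ B, c i * φ i g) * b g⁻¹ = ∑ i ∈ B, c i * (φ i g * b g⁻¹) := by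
    intro g
    rw [Finset.sum_mul]
    exact Finset.sum_congr rfl fun i _ => mul_assoc _ _ _
  rw [Finset.sum_congr rfl (fun g _ => h1 g), Finset.sum_comm, Finset.mul_sum]
  refine Finset.sum_congr rfl fun i _ => ?_
  rw [← Finset.mul_sum]
  ring

lemma pr_sum_right {ι : Type*} (B : Finset ι) (c : ι → ℂ) (φ : ι → G → ℂ) (b : G → ℂ) :
    pr b (fun g => ∑ i ∈ B, c i * φ i g) = ∑ i ∈ B, c i * pr b (φ i) := by
  rw [pr_comm, pr_sum_left]
  exact Finset.sum_congr rfl fun i _ => by rw [pr_comm]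

lemma pr_const_left (c : ℂ) (a b : G → ℂ) : pr (fun g => c * a g) b = c * pr a b := by
  have h := pr_sum_left (Finset.univ : Finset Unit) (fun _ => c) (fun _ => a) b
  simpa using h

/-- **Comparison of norms.** -/
lemma norm_comp {ι : Type*} (B : Finset ι) (f : ι → ℕ) (hf : ∀ i ∈ B, f i ≠ 0)
    (φ : ι → G → ℂ) (hφ : ∀ i ∈ B, φ i ∈ Chr G) (h0 : ∀ i ∈ B, φ i ≠ 0)
    (h : pr (fun g => ∑ i ∈ B, (f i : ℂ) * φ i g) (fun g => ∑ i ∈ B, (f i : ℂ) * φ i g)
      = ∑ i ∈ B, (f i : ℂ) ^ 2) :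
    (∀ i ∈ B, pr (φ i) (φ i) = 1) ∧ ∀ i ∈ B, ∀ j ∈ B, i ≠ j → pr (φ i) (φ j) = 0 := by
  classical
  have h1 : ∀ i, ∀ j, ∃ n : ℕ, i ∈ B → j ∈ B → pr (φ i) (φ j) = n := by
    intro i j
    by_cases hi : i ∈ B
    · by_cases hj : j ∈ B
      · obtain ⟨n, hn⟩ := chr_pr_nat (hφ i hi) (hφ j hj)
        exact ⟨n, fun _ _ => hn⟩
      · exact ⟨0, fun _ h => absurd h hj⟩
    · exact ⟨0, fun h _ => absurd h hi⟩
  choose n hn using h1
  rw [pr_sum_left] at h
  have h2 : ∑ i ∈ B, ∑ j ∈ B, f i * (f j * n i j) = ∑ i ∈ B, f i ^ 2 := by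
    have h3 : ((∑ i ∈ B, ∑ j ∈ B, f i * (f j * n i j) : ℕ) : ℂ) = ((∑ i ∈ B, f i ^ 2 : ℕ) : ℂ) := by
      push_cast
      rw [← h]
      refine Finset.sum_congr rfl fun i hi => ?_
      rw [pr_sum_right, Finset.mul_sum]
      exact Finset.sum_congr rfl fun j hj => by rw [hn i j hi hj]
    exact_mod_cast h3
  have hpos : ∀ i ∈ B, 1 ≤ n i i := by
    intro i hi
    rw [Nat.one_le_iff_ne_zero]
    intro h3
    have h4 := hn i i hi hi
    rw [h3, Nat.cast_zero] at h4
    exact chr_pr_ne (hφ i hi) (h0 i hi) h4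
  have hle : ∀ i ∈ B, f i ^ 2 ≤ ∑ j ∈ B, f i * (f j * n i j) := by
    intro i hi
    calc f i ^ 2 = f i * (f i * 1) := by ring
      _ ≤ f i * (f i * n i i) :=
        Nat.mul_le_mul_left _ (Nat.mul_le_mul_left _ (hpos i hi))
      _ ≤ ∑ j ∈ B, f i * (f j * n i j) :=
        Finset.single_le_sum (f := fun j => f i * (f j * n i j)) (fun j _ => Nat.zero_le _) hi
  have heq : ∀ i ∈ B, f i ^ 2 = ∑ j ∈ B, f i * (f j * n i j) :=
    (Finset.sum_eq_sum_iff_of_le hle).mp h2.symm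
  constructor
  · intro i hi
    rw [hn i i hi hi]
    have h3 : f i * (f i * n i i) ≤ f i ^ 2 := by
      rw [heq i hi]
      exact Finset.single_le_sum (f := fun j => f i * (f j * n i j)) (fun j _ => Nat.zero_le _) hi
    have h4 : n i i ≤ 1 := by
      have h5 : 0 < f i * f i := Nat.mul_pos (Nat.pos_of_ne_zero (hf i hi))
        (Nat.pos_of_ne_zero (hf i hi))
      have h6 : (f i * f i) * n i i ≤ (f i * f i) * 1 := by
        calc (f i * f i) * n i i = f i * (f i * n i i) := by ring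
          _ ≤ f i ^ 2 := h3
          _ = (f i * f i) * 1 := by ring
      exact Nat.le_of_mul_le_mul_left h6 h5
    have h5 : n i i = 1 := le_antisymm h4 (hpos i hi)
    rw [h5, Nat.cast_one]
  · intro i hi j hj hij
    rw [hn i j hi hj]
    have h3 := heq i hi
    rw [← Finset.add_sum_erase _ _ hi] at h3
    have h4 : f i * (f j * n i j) ≤ ∑ j ∈ B.erase i, f i * (f j * n i j) :=
      Finset.single_le_sum (f := fun j => f i * (f j * n i j)) (fun j _ => Nat.zero_le _)
        (Finset.mem_erase.mpr ⟨hij.symm, hj⟩)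
    have h5 : f i ^ 2 ≤ f i * (f i * n i i) := by
      calc f i ^ 2 = f i * (f i * 1) := by ring
        _ ≤ f i * (f i * n i i) := Nat.mul_le_mul_left _ (Nat.mul_le_mul_left _ (hpos i hi))
    have h6 : f i * (f j * n i j) = 0 := by omega
    rcases mul_eq_zero.mp h6 with h7 | h7
    · exact absurd h7 (hf i hi)
    rcases mul_eq_zero.mp h7 with h8 | h8
    · exact absurd h8 (hf j hj)
    rw [h8, Nat.cast_zero]

end Pool.Agent.Helper606_LC
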