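import Mathlib
import Pool.Agent.Helper606_LC.Sa

/-!
# Characters over an invariant character of a normal subgroup
-/

set_option autoImplicit false
set_option linter.unusedSectionVars false

namespace Pool.Agent.Helper606_LC

open Pool.Agent.H541R3.ART Pool.Agent.W446.AS Pool.Agent.R389

section basic

variable {G : Type} [Group G]

/-- the restriction to `H` is irreducible -/
def IrrOn (H : Subgroup G) (a : G → ℂ) : Prop := (fun h : H => a h) ∈ Irr H

/-- the restriction of `β` to `K` is a multiple of `ν` -/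
def Ov (K : Subgroup G) (ν β : G → ℂ) : Prop := ∀ k ∈ K, β k * ν 1 = β 1 * ν k

lemma irr_surj {A B : Type} [Group A] [Group B] (e : A →* B) (he : Function.Surjective e)
    {a : B → ℂ} (ha : a ∈ Irr B) : (fun x => a (e x)) ∈ Irr A := by
  obtain ⟨n, ρ, hρ, rfl⟩ := exists_rep ha
  have h1 : Irred (ρ.comp e) := by
    refine ⟨hρ.1, fun W hW => hρ.2 W fun g v hv => ?_⟩
    obtain ⟨x, rfl⟩ := he g
    exact hW x v hv
  exact irr_of_irred h1

lemma irrOn_subgroupOf {H N : Subgroup G} (h : H ≤ N) (a : G → ℂ) :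
    IrrOn (H.subgroupOf N) (fun n : N => a n) ↔ IrrOn H a := by
  constructor
  · intro h1
    exact irr_surj (Subgroup.subgroupOfEquivOfLe h).symm.toMonoidHom
      (Subgroup.subgroupOfEquivOfLe h).symm.surjective h1
  · intro h1
    exact irr_surj (Subgroup.subgroupOfEquivOfLe h).toMonoidHom
      (Subgroup.subgroupOfEquivOfLe h).surjective h1

lemma irrOn_one_ne [Finite G] {H : Subgroup G} {a : G → ℂ} (h : IrrOn H a) : a 1 ≠ 0 := by
  obtain ⟨d, hd, hd1⟩ := irr_deg_pos h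
  have h1 : a 1 = d := hd1
  rw [h1]
  exact_mod_cast hd.ne'

lemma irrOn_congr {H : Subgroup G} {a b : G → ℂ} (hab : ∀ h ∈ H, a h = b h) (h : IrrOn H a) :
    IrrOn H b := by
  have h1 : (fun h : H => a h) = fun h : H => b h := funext fun h => hab h h.2
  rw [IrrOn, ← h1]
  exact h

lemma irrOn_top {a : G → ℂ} : IrrOn (⊤ : Subgroup G) a ↔ a ∈ Irr G := by
  constructor
  · intro h
    exact irr_surj (Subgroup.topEquiv (G := G)).symm.toMonoidHom
      (Subgroup.topEquiv (G := G)).symm.surjective h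
  · intro h
    exact irr_surj (Subgroup.topEquiv (G := G)).toMonoidHom
      (Subgroup.topEquiv (G := G)).surjective h

end basic

variable {G : Type} [Group G] [Finite G]

open Classical in
/-- `|G : K| ν` on `K`, zero elsewhere -/
noncomputable def Jf (K : Subgroup G) (ν : G → ℂ) (g : G) : ℂ :=
  if g ∈ K then (K.index : ℂ) * ν g else 0

lemma pr_Jf (K : Subgroup G) (ν b : G → ℂ) :
    pr (Jf K ν) b = pr (fun k : K => ν k) (fun k : K => b k) := by
  classical
  have : Fintype G := Fintype.ofFinite G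
  have : Fintype K := Fintype.ofFinite K
  rw [pr_eq, pr_eq]
  have h1 : ∑ g : G, Jf K ν g * b g⁻¹ = (K.index : ℂ) * ∑ k : K, ν k * b (k : G)⁻¹ := by
    have h2 : ∀ g : G, Jf K ν g * b g⁻¹ = if g ∈ K then (K.index : ℂ) * (ν g * b g⁻¹) else 0 := by
      intro g
      rw [Jf]
      by_cases hg : g ∈ K
      · rw [if_pos hg, if_pos hg, mul_assoc]
      · rw [if_neg hg, if_neg hg, zero_mul]
    rw [Finset.sum_congr rfl (fun g _ => h2 g), ← Finset.sum_filter, ← Finset.mul_sum]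
    congr 1
    exact Finset.sum_subtype _ (by simp) (fun g => ν g * b g⁻¹)
  rw [h1]
  have h3 : (Nat.card G : ℂ) = Nat.card K * K.index := by
    rw [← Nat.cast_mul, Subgroup.card_mul_index]
  have h4 : (Nat.card K : ℂ) ≠ 0 := card_ne
  have h5 : (K.index : ℂ) ≠ 0 := by exact_mod_cast Subgroup.index_ne_zero_of_finite
  rw [h3, ← mul_assoc, mul_inv, mul_assoc ((Nat.card K : ℂ)⁻¹), inv_mul_cancel₀ h5, mul_one]
  rfl

variable {K : Subgroup G}

lemma Jf_class (hK : K.Normal) {ν : G → ℂ} (hinv : ∀ g, ∀ k ∈ K, ν (g * k * g⁻¹) = ν k) (g x : G) :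
    Jf K ν (x * g * x⁻¹) = Jf K ν g := by
  classical
  rw [Jf, Jf]
  by_cases hg : g ∈ K
  · rw [if_pos hg, if_pos (hK.conj_mem g hg x), hinv x g hg]
  · rw [if_neg hg, if_neg]
    intro h
    apply hg
    have h1 := hK.conj_mem _ h x⁻¹
    have h2 : x⁻¹ * (x * g * x⁻¹) * x⁻¹⁻¹ = g := by group
    rwa [h2] at h1

lemma pr_Jf_Jf {ν : G → ℂ} (hν : IrrOn K ν) : pr (Jf K ν) (Jf K ν) = K.index := by
  classical
  rw [pr_Jf]
  have h1 : (fun k : K => Jf K ν k) = fun k : K => (K.index : ℂ) * ν k := by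
    funext k
    rw [Jf, if_pos k.2]
  rw [h1, pr_comm, pr_const_left (K.index : ℂ) (fun k : K => ν k), pr_self hν, mul_one]

lemma pr_of_over {ν : G → ℂ} (hν : IrrOn K ν) {β : G → ℂ} (h : Ov K ν β) :
    pr (Jf K ν) β = β 1 / ν 1 := by
  rw [pr_Jf]
  have h1 : (fun k : K => β k) = fun k : K => (β 1 / ν 1) * ν k := by
    funext k
    have h2 := h k k.2
    have h3 := irrOn_one_ne hν
    field_simp
    exact h2
  rw [h1, pr_comm, pr_const_left (β 1 / ν 1) (fun k : K => ν k), pr_self hν, mul_one]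

/-- **The characters over an invariant character.** -/
lemma J_data (hK : K.Normal) {ν : G → ℂ} (hν : IrrOn K ν)
    (hinv : ∀ g, ∀ k ∈ K, ν (g * k * g⁻¹) = ν k) :
    ∃ (B : Finset (G → ℂ)) (n : (G → ℂ) → ℕ), (∀ β, β ∈ B ↔ β ∈ Irr G ∧ Ov K ν β) ∧
      (∀ β ∈ B, n β ≠ 0) ∧ (∀ g, Jf K ν g = ∑ β ∈ B, (n β : ℂ) * β g) ∧
      ∑ β ∈ B, (n β : ℂ) ^ 2 = K.index := by
  classical
  have hcl := Jf_class hK hinv
  have hnat : ∀ β, ∃ n : ℕ, β ∈ Irr G → pr (Jf K ν) β = n := by
    intro β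
    by_cases hβ : β ∈ Irr G
    · obtain ⟨n, hn⟩ := chr_pr_nat (irr_chr hν) (chr_comp K.subtype (irr_chr hβ))
      exact ⟨n, fun _ => by rw [pr_Jf]; exact hn⟩
    · exact ⟨0, fun h => absurd h hβ⟩
  choose n hn using hnat
  have hexp : ∀ g, Jf K ν g = ∑ β ∈ irrF G, (n β : ℂ) * β g := by
    intro g
    rw [class_expand (fun g x => hcl g x) g]
    exact Finset.sum_congr rfl fun β hβ => by rw [hn β (mem_irrF.mp hβ)]
  have hsq : ∑ β ∈ irrF G, (n β : ℂ) ^ 2 = K.index := by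
    rw [← pr_Jf_Jf hν, pr_expand (fun g x => hcl g x)]
    exact Finset.sum_congr rfl fun β hβ => by
      rw [pr_comm β, hn β (mem_irrF.mp hβ), pow_two]
  -- constituents are over `ν`
  have hov : ∀ β ∈ Irr G, n β ≠ 0 → Ov K ν β := by
    intro β hβ hnβ
    have h1 : ∀ μ ∈ Irr K, μ ≠ (fun k : K => ν k) → pr (fun k : K => β k) μ = 0 := by
      intro μ hμ hne
      have h2 : pr (fun k : K => Jf K ν k) μ = 0 := by
        have h3 : (fun k : K => Jf K ν k) = fun k : K => (K.index : ℂ) * ν k := by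
          funext k
          rw [Jf, if_pos k.2]
        rw [h3, pr_const_left (K.index : ℂ) (fun k : K => ν k), pr_comm, pr_ne hμ hν hne, mul_zero]
      have h3 : (fun k : K => Jf K ν k)
          = fun k : K => ∑ β ∈ irrF G, (n β : ℂ) * (fun k : K => β k) k := by
        funext k
        exact hexp k
      rw [h3, pr_sum_left (irrF G) (fun β => (n β : ℂ)) (fun β (k : K) => β k)] at h2
      have h4 : ∀ η ∈ irrF G, ∃ m : ℕ, pr (fun k : K => η k) μ = m := fun η hη =>
        chr_pr_nat (chr_comp K.subtype (irr_chr (mem_irrF.mp hη))) (irr_chr hμ)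
      choose! m hm using h4
      have h5 : ((∑ η ∈ irrF G, n η * m η : ℕ) : ℂ) = 0 := by
        rw [← h2, Nat.cast_sum]
        exact Finset.sum_congr rfl fun η hη => by rw [Nat.cast_mul, hm η hη]
      have h6 : ∑ η ∈ irrF G, n η * m η = 0 := by exact_mod_cast h5
      have h7 := Finset.sum_eq_zero_iff.mp h6 β (mem_irrF.mpr hβ)
      rcases mul_eq_zero.mp h7 with h8 | h8
      · exact absurd h8 hnβ
      · rw [hm β (mem_irrF.mpr hβ), h8, Nat.cast_zero]
    have h2 : ∀ k : K, β k = pr (fun k : K => β k) (fun k : K => ν k) * ν k := by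
      intro k
      have h3 := class_expand (f := fun k : K => β k)
        (fun g x => chr_class (irr_chr hβ) (g : G) (x : G)) k
      rw [Finset.sum_eq_single (fun k : K => ν k)] at h3
      · exact h3
      · intro μ hμ hne
        rw [h1 μ (mem_irrF.mp hμ) hne, zero_mul]
      · intro h
        exact absurd (mem_irrF.mpr hν) h
    intro k hk
    have h3 := h2 ⟨k, hk⟩
    have h4 := h2 1
    simp only [OneMemClass.coe_one] at h3 h4
    rw [h3, h4]
    ring
  refine ⟨(irrF G).filter (fun β => n β ≠ 0), n, ?_, ?_, ?_, ?_⟩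
  · intro β
    rw [Finset.mem_filter, mem_irrF]
    constructor
    · rintro ⟨h1, h2⟩
      exact ⟨h1, hov β h1 h2⟩
    · rintro ⟨h1, h2⟩
      refine ⟨h1, fun h3 => ?_⟩
      have h4 := pr_of_over hν h2
      rw [hn β h1, h3, Nat.cast_zero] at h4
      obtain ⟨d, hd, hd1⟩ := irr_deg_pos h1
      have h5 : β 1 ≠ 0 := by rw [hd1]; exact_mod_cast hd.ne'
      exact div_ne_zero h5 (irrOn_one_ne hν) h4.symm
  · intro β hβ
    exact (Finset.mem_filter.mp hβ).2
  · intro g
    rw [hexp g, Finset.sum_filter]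
    refine Finset.sum_congr rfl fun β _ => ?_
    by_cases h : n β = 0
    · rw [if_neg (not_not.mpr h), h, Nat.cast_zero, zero_mul]
    · rw [if_pos h]
  · rw [← hsq, Finset.sum_filter]
    refine Finset.sum_congr rfl fun β _ => ?_
    by_cases h : n β = 0
    · rw [if_neg (not_not.mpr h), h, Nat.cast_zero]
      norm_num
    · rw [if_pos h]

/-- **Multiplication by a character with irreducible product below.** -/
theorem mul_corr (hK : K.Normal) {α ν : G → ℂ} (hα : α ∈ Chr G) (hν : IrrOn K ν)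
    (hinv : ∀ g, ∀ k ∈ K, ν (g * k * g⁻¹) = ν k) (hαν : IrrOn K (α * ν)) :
    (∀ β ∈ Irr G, Ov K ν β → α * β ∈ Irr G) ∧
    (∀ β ∈ Irr G, ∀ β' ∈ Irr G, Ov K ν β → Ov K ν β' → α * β = α * β' → β = β') ∧
    ∀ χ ∈ Irr G, Ov K (α * ν) χ → ∃ β ∈ Irr G, Ov K ν β ∧ χ = α * β := by
  classical
  obtain ⟨B, n, hB, hn, hJ, hsq⟩ := J_data hK hν hinv
  have hJα : ∀ g, Jf K (α * ν) g = ∑ β ∈ B, (n β : ℂ) * (α * β) g := by
    intro g
    have h1 : Jf K (α * ν) g = α g * Jf K ν g := by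
      rw [Jf, Jf]
      by_cases hg : g ∈ K
      · rw [if_pos hg, if_pos hg, Pi.mul_apply]
        ring
      · rw [if_neg hg, if_neg hg, mul_zero]
    rw [h1, hJ g, Finset.mul_sum]
    refine Finset.sum_congr rfl fun β _ => ?_
    rw [Pi.mul_apply]
    ring
  have hα1 : α 1 ≠ 0 := by
    have := irrOn_one_ne hαν
    rw [Pi.mul_apply] at this
    exact left_ne_zero_of_mul this
  have hirr : ∀ β ∈ B, β ∈ Irr G := fun β hβ => ((hB β).mp hβ).1
  have key := norm_comp B n hn (fun β => α * β) (fun β hβ => chr_mul hα (irr_chr (hirr β hβ)))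
    (fun β hβ h0 => by
      obtain ⟨d, hd, hd1⟩ := irr_deg_pos (hirr β hβ)
      have h5 : β 1 ≠ 0 := by rw [hd1]; exact_mod_cast hd.ne'
      have h6 := congrFun h0 1
      rw [Pi.mul_apply, Pi.zero_apply] at h6
      exact mul_ne_zero hα1 h5 h6) (by
      have h1 : (fun g => ∑ β ∈ B, (n β : ℂ) * (α * β) g) = Jf K (α * ν) :=
        funext fun g => (hJα g).symm
      rw [h1, pr_Jf_Jf hαν, hsq])
  have hirr2 : ∀ β ∈ B, α * β ∈ Irr G := fun β hβ =>
    chr_irr (chr_mul hα (irr_chr (hirr β hβ))) (key.1 β hβ)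
  refine ⟨fun β hβ h => hirr2 β ((hB β).mpr ⟨hβ, h⟩), ?_, ?_⟩
  · intro β hβ β' hβ' h h' heq
    by_contra hne
    have h1 := key.2 β ((hB β).mpr ⟨hβ, h⟩) β' ((hB β').mpr ⟨hβ', h'⟩) hne
    have h2 := key.1 β ((hB β).mpr ⟨hβ, h⟩)
    rw [← heq] at h1
    rw [h1] at h2
    exact zero_ne_one h2
  · intro χ hχ h
    have h1 := pr_of_over hαν h
    have h2 : pr (Jf K (α * ν)) χ ≠ 0 := by
      rw [h1]
      obtain ⟨d, hd, hd1⟩ := irr_deg_pos hχ
      have h5 : χ 1 ≠ 0 := by rw [hd1]; exact_mod_cast hd.ne'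
      exact div_ne_zero h5 (irrOn_one_ne hαν)
    have h3 : Jf K (α * ν) = fun g => ∑ β ∈ B, (n β : ℂ) * (α * β) g := funext hJα
    rw [h3, pr_sum_left B (fun β => (n β : ℂ)) (fun β => α * β)] at h2
    obtain ⟨β, hβ, hβ1⟩ := Finset.exists_ne_zero_of_sum_ne_zero h2
    refine ⟨β, hirr β hβ, ((hB β).mp hβ).2, ?_⟩
    by_contra hne
    exact hβ1 (by rw [pr_ne (hirr2 β hβ) hχ (fun h => hne h.symm), mul_zero])

/-- **Restriction to a supplement.** -/
theorem res_corr (hK : K.Normal) {ν : G → ℂ} (S : Subgroup G)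
    (hKS : ∀ g : G, ∃ k ∈ K, ∃ s ∈ S, g = k * s) (hν : IrrOn K ν)
    (hinv : ∀ g, ∀ k ∈ K, ν (g * k * g⁻¹) = ν k) (hD : IrrOn (K ⊓ S) ν) :
    (∀ β ∈ Irr G, Ov K ν β → IrrOn S β) ∧
    ∀ β ∈ Irr G, ∀ β' ∈ Irr G, Ov K ν β → Ov K ν β' → (∀ s ∈ S, β s = β' s) → β = β' := by
  classical
  obtain ⟨B, n, hB, hn, hJ, hsq⟩ := J_data hK hν hinv
  have hirr : ∀ β ∈ B, β ∈ Irr G := fun β hβ => ((hB β).mp hβ).1
  have hD' : IrrOn (K.subgroupOf S) (fun s : S => ν s) := by
    have h1 := (irrOn_subgroupOf (H := K ⊓ S) (N := S) inf_le_right ν).mpr hD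
    rwa [Subgroup.inf_subgroupOf_right] at h1
  have hidx : (K.subgroupOf S).index = K.index := by
    have h1 : S ⊔ K = ⊤ := by
      rw [eq_top_iff]
      intro g _
      obtain ⟨k, hk, s, hs, rfl⟩ := hKS g
      exact mul_mem (Subgroup.mem_sup_right hk) (Subgroup.mem_sup_left hs)
    have h2 := Subgroup.relIndex_sup_right S K
    rw [h1, Subgroup.relIndex_top_right] at h2
    exact h2.symm
  have hJS : (fun s : S => Jf K ν s) = Jf (K.subgroupOf S) (fun s : S => ν s) := by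
    funext s
    rw [Jf, Jf, hidx]
    by_cases hs : (s : G) ∈ K
    · rw [if_pos hs, if_pos (Subgroup.mem_subgroupOf.mpr hs)]
    · rw [if_neg hs, if_neg (fun h => hs (Subgroup.mem_subgroupOf.mp h))]
  have key := norm_comp B n hn (fun β => fun s : S => β s)
    (fun β hβ => chr_comp S.subtype (irr_chr (hirr β hβ)))
    (fun β hβ h0 => by
      obtain ⟨d, hd, hd1⟩ := irr_deg_pos (hirr β hβ)
      have h5 : β 1 ≠ 0 := by rw [hd1]; exact_mod_cast hd.ne'
      exact h5 (congrFun h0 1)) (by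
      have h1 : (fun s : S => ∑ β ∈ B, (n β : ℂ) * (fun s : S => β s) s)
          = fun s : S => Jf K ν s := funext fun s => (hJ s).symm
      rw [h1, hJS, pr_Jf_Jf hD', hidx, hsq])
  refine ⟨fun β hβ h => chr_irr (chr_comp S.subtype (irr_chr hβ)) (key.1 β ((hB β).mpr ⟨hβ, h⟩)),
    ?_⟩
  intro β hβ β' hβ' h h' heq
  by_contra hne
  have h1 := key.2 β ((hB β).mpr ⟨hβ, h⟩) β' ((hB β').mpr ⟨hβ', h'⟩) hne
  have h2 := key.1 β ((hB β).mpr ⟨hβ, h⟩)
  have h3 : (fun s : S => β s) = fun s : S => β' s := funext fun s => heq s s.2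
  rw [← h3, h2] at h1
  exact one_ne_zero h1

end Pool.Agent.Helper606_LC
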