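import Mathlib
import Pool.Agent.Helper606_LC.Sb

/-!
# Determinants of representations in terms of characters
-/

set_option autoImplicit false
set_option linter.unusedSectionVars false

namespace Pool.Agent.Helper606_LC

open Pool.Agent.H541R3.ART Pool.Agent.W446.AS Pool.Agent.R389

/-- the determinant of `1 + (c - 1) P` for an idempotent `P` -/
lemma det_idem {V : Type} [AddCommGroup V] [Module ℂ V] [FiniteDimensional ℂ V]
    (f : Module.End ℂ V) (h : f * f = f) :
    ∃ n : ℕ, LinearMap.trace ℂ V f = n ∧ ∀ c : ℂ, LinearMap.det (1 + (c - 1) • f) = c ^ n := by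
  have h1 : LinearMap.IsProj (LinearMap.range f) f := by
    constructor
    · intro x; exact LinearMap.mem_range_self f x
    · rintro x ⟨y, rfl⟩
      exact LinearMap.congr_fun h y
  refine ⟨_, h1.trace, fun c => ?_⟩
  let e := (LinearMap.range f).prodEquivOfIsCompl (LinearMap.ker f) h1.isCompl
  have h2 : (1 + (c - 1) • f : Module.End ℂ V)
      = e.toLinearMap ∘ₗ (LinearMap.prodMap (c • LinearMap.id) LinearMap.id) ∘ₗ
        e.symm.toLinearMap := by
    apply LinearMap.ext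
    intro v
    obtain ⟨w, rfl⟩ := e.surjective v
    obtain ⟨a, b⟩ := w
    have hfe : f (e (a, b)) = a := by
      have : e (a, b) = (a : V) + b := by
        simp [e]
      rw [this, map_add, h1.map_id _ a.2, b.2, add_zero]
    have he : e (a, b) = (a : V) + b := by simp [e]
    simp only [LinearMap.add_apply, Module.End.one_apply, LinearMap.smul_apply,
      LinearMap.comp_apply, LinearEquiv.coe_coe, LinearEquiv.symm_apply_apply,
      LinearMap.prodMap_apply, LinearMap.id_apply]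
    rw [hfe, he]
    have he2 : e (c • a, b) = ((c • a : LinearMap.range f) : V) + b := by simp [e]
    rw [he2, Submodule.coe_smul]
    module
  rw [h2, LinearMap.det_conj, LinearMap.det_prodMap, LinearMap.det_smul, LinearMap.det_id,
    LinearMap.det_id, mul_one, mul_one]

open Pool.Agent.Q99.CT in
lemma pr_orth {V : Type} [AddCommGroup V] [Module ℂ V] {T : Module.End ℂ V} {N : ℕ} (hN : 0 < N)
    {ζ : ℂ} (hζ : IsPrimitiveRoot ζ N) (hT : T ^ N = 1) {i j : ℕ} (hi : i < N) (hj : j < N)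
    (hij : i ≠ j) : Pool.Agent.Q99.CT.pr T N ζ i * Pool.Agent.Q99.CT.pr T N ζ j = 0 := by
  have hz : ζ ≠ 0 := hζ.ne_zero hN.ne'
  conv_lhs => rw [Pool.Agent.Q99.CT.pr]
  rw [smul_mul_assoc, Finset.sum_mul]
  have h1 : ∀ k ∈ Finset.range N, (ζ⁻¹ ^ (i * k)) • T ^ k * Pool.Agent.Q99.CT.pr T N ζ j
      = ((ζ⁻¹ ^ i * ζ ^ j) ^ k) • Pool.Agent.Q99.CT.pr T N ζ j := by
    intro k _
    rw [smul_mul_assoc, Tpow_pr hN hζ hT, smul_smul, mul_pow, ← pow_mul, ← pow_mul]
  rw [Finset.sum_congr rfl h1, ← Finset.sum_smul, geom_zero, zero_smul, smul_zero]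
  · rw [mul_pow, inv_pow, inv_pow, ← pow_mul, ← pow_mul, mul_comm i, mul_comm j, pow_mul, pow_mul,
      hζ.pow_eq_one, one_pow, one_pow, inv_one, one_mul]
  · intro h
    apply hij
    rw [inv_pow, inv_mul_eq_one₀ (pow_ne_zero _ hz)] at h
    exact hζ.pow_inj hi hj h

/-- the standard primitive root of unity -/
noncomputable def zt (o : ℕ) : ℂ := Complex.exp (2 * Real.pi * Complex.I / o)

lemma zt_prim {o : ℕ} (ho : 0 < o) : IsPrimitiveRoot (zt o) o :=
  Complex.isPrimitiveRoot_exp o ho.ne'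

/-- the multiplicity of an eigenvalue, from the values of the character -/
noncomputable def mi {G : Type} [Group G] (a : G → ℂ) (g : G) (i : ℕ) : ℂ :=
  (orderOf g : ℂ)⁻¹ * ∑ k ∈ Finset.range (orderOf g), (zt (orderOf g))⁻¹ ^ (i * k) * a (g ^ k)

/-- the determinant, from the values of the character -/
noncomputable def dt {G : Type} [Group G] (a : G → ℂ) (g : G) : ℂ :=
  ∏ i ∈ Finset.range (orderOf g), (zt (orderOf g) ^ i) ^ ⌊(mi a g i).re⌋₊

section rep

variable {G : Type} [Group G] [Finite G]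

lemma mi_rep {V : Type} [AddCommGroup V] [Module ℂ V] [FiniteDimensional ℂ V]
    (ρ : Representation ℂ G V) (g : G) (i : ℕ) : mi ρ.character g i
      = LinearMap.trace ℂ V (Pool.Agent.Q99.CT.pr (ρ g) (orderOf g) (zt (orderOf g)) i) := by
  rw [mi, Pool.Agent.Q99.CT.pr, map_smul, map_sum, smul_eq_mul]
  congr 1
  refine Finset.sum_congr rfl fun k _ => ?_
  rw [map_smul, smul_eq_mul, ← map_pow]
  rfl

lemma det_dt {V : Type} [AddCommGroup V] [Module ℂ V] [FiniteDimensional ℂ V]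
    (ρ : Representation ℂ G V) (g : G) : LinearMap.det (ρ g) = dt ρ.character g := by
  classical
  have ho : 0 < orderOf g := orderOf_pos g
  set o := orderOf g with hodef
  have hζ := zt_prim ho
  have hT : (ρ g) ^ o = 1 := by rw [← map_pow, hodef, pow_orderOf_eq_one, map_one]
  let P := fun i => Pool.Agent.Q99.CT.pr (ρ g) o (zt o) i
  have hP : ∀ i, P i * P i = P i := fun i => Pool.Agent.Q99.CT.pr_idem ho hζ hT i
  have h1 : ∀ i, ∃ n : ℕ, LinearMap.trace ℂ V (P i) = n ∧
      ∀ c : ℂ, LinearMap.det (1 + (c - 1) • P i) = c ^ n := fun i => det_idem (P i) (hP i)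
  choose n hn hn1 using h1
  have hprod : ∀ s : Finset ℕ, s ⊆ Finset.range o →
      LinearMap.det (1 + ∑ i ∈ s, (zt o ^ i - 1) • P i) = ∏ i ∈ s, (zt o ^ i) ^ n i := by
    intro s
    induction s using Finset.induction_on with
    | empty => intro _; simp
    | insert j s hj ih =>
      intro hs
      have hs' : s ⊆ Finset.range o := (Finset.subset_insert j s).trans hs
      have hjo : j < o := Finset.mem_range.mp (hs (Finset.mem_insert_self j s))
      rw [Finset.prod_insert hj, ← ih hs', ← hn1 j (zt o ^ j), ← map_mul]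
      congr 1
      rw [Finset.sum_insert hj, add_mul, one_mul, mul_add, mul_one, smul_mul_assoc, Finset.mul_sum]
      have h2 : ∑ i ∈ s, P j * ((zt o ^ i - 1) • P i) = 0 := by
        refine Finset.sum_eq_zero fun i hi => ?_
        have hne : j ≠ i := fun h => hj (h ▸ hi)
        rw [mul_smul_comm, pr_orth ho hζ hT hjo (Finset.mem_range.mp (hs' hi)) hne, smul_zero]
      rw [h2, smul_zero, add_zero, add_comm ((zt o ^ j - 1) • P j), ← add_assoc]
  have h3 := hprod (Finset.range o) subset_rfl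
  have h4 : (1 + ∑ i ∈ Finset.range o, (zt o ^ i - 1) • P i : Module.End ℂ V) = ρ g := by
    have h5 : ∑ i ∈ Finset.range o, P i = 1 := Pool.Agent.Q99.CT.sum_pr ho hζ
    have h6 : ∑ i ∈ Finset.range o, (zt o ^ i) • P i = ρ g := by
      rw [← mul_one (ρ g), ← h5, Finset.mul_sum]
      exact Finset.sum_congr rfl fun i _ => (Pool.Agent.Q99.CT.T_pr ho hζ hT i).symm
    simp only [sub_smul, one_smul, Finset.sum_sub_distrib]
    rw [h5, h6]
    abel
  rw [h4] at h3
  rw [h3, dt]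
  refine Finset.prod_congr rfl fun i _ => ?_
  rw [mi_rep, ← hodef]
  change _ = (zt o ^ i) ^ ⌊(LinearMap.trace ℂ V (P i)).re⌋₊
  rw [hn i, Complex.natCast_re, Nat.floor_natCast]

lemma mi_nat {b : G → ℂ} (hb : b ∈ Chr G) (g : G) (i : ℕ) : ∃ n : ℕ, mi b g i = n := by
  induction hb using AddSubmonoid.closure_induction with
  | mem a ha =>
    obtain ⟨n, ρ, -, rfl⟩ := ha
    rw [mi_rep]
    have ho : 0 < orderOf g := orderOf_pos g
    exact Pool.Agent.Q99.CT.trace_idem _ (Pool.Agent.Q99.CT.pr_idem ho (zt_prim ho)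
      (by rw [← map_pow, pow_orderOf_eq_one, map_one]) i)
  | zero => exact ⟨0, by simp [mi]⟩
  | add x y _ _ hx hy =>
    obtain ⟨n, hn⟩ := hx
    obtain ⟨m, hm⟩ := hy
    refine ⟨n + m, ?_⟩
    rw [Nat.cast_add, ← hn, ← hm, mi, mi, mi, ← mul_add, ← Finset.sum_add_distrib]
    congr 1
    refine Finset.sum_congr rfl fun k _ => ?_
    rw [Pi.add_apply, mul_add]

lemma dt_mul_nat {a b : G → ℂ} (hb : b ∈ Chr G) {g : G} {f : ℕ}
    (h : ∀ j : ℕ, a (g ^ j) = (f : ℂ) * b (g ^ j)) : dt a g = dt b g ^ f := by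
  rw [dt, dt, ← Finset.prod_pow]
  refine Finset.prod_congr rfl fun i _ => ?_
  have h1 : mi a g i = (f : ℂ) * mi b g i := by
    rw [mi, mi, mul_left_comm]
    congr 1
    rw [Finset.mul_sum]
    refine Finset.sum_congr rfl fun k _ => ?_
    rw [h]
    ring
  obtain ⟨n, hn⟩ := mi_nat hb g i
  rw [h1, hn, ← Nat.cast_mul, Complex.natCast_re, Nat.floor_natCast, Complex.natCast_re,
    Nat.floor_natCast, mul_comm f n, pow_mul (zt (orderOf g) ^ i)]

lemma dt_congr {a b : G → ℂ} {g : G} (h : ∀ j : ℕ, a (g ^ j) = b (g ^ j)) : dt a g = dt b g := by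
  rw [dt, dt]
  refine Finset.prod_congr rfl fun i _ => ?_
  have h1 : mi a g i = mi b g i := by
    rw [mi, mi]
    congr 1
    exact Finset.sum_congr rfl fun k _ => by rw [h]
  rw [h1]

end rep

lemma dt_map {G H : Type} [Group G] [Group H] (t : H → G) (a : G → ℂ) {h : H}
    (ho : orderOf (t h) = orderOf h) (hp : ∀ j : ℕ, t (h ^ j) = t h ^ j) :
    dt (fun x => a (t x)) h = dt a (t h) := by
  have h1 : ∀ i, mi (fun x => a (t x)) h i = mi a (t h) i := by
    intro i
    rw [mi, mi, ho]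
    congr 1
    exact Finset.sum_congr rfl fun k _ => by rw [hp]
  rw [dt, dt, ho]
  exact Finset.prod_congr rfl fun i _ => by rw [h1]

lemma dt_sub {G : Type} [Group G] {H : Subgroup G} (a : G → ℂ) (h : H) :
    dt (fun x : H => a x) h = dt a (h : G) :=
  dt_map (fun x : H => (x : G)) a (Subgroup.orderOf_coe h) (fun _ => rfl)

section pi

/-- all prime divisors satisfy `π` -/
def IsPi (π : ℕ → Prop) (n : ℕ) : Prop := ∀ q : ℕ, q.Prime → q ∣ n → π q

variable {π π' : ℕ → Prop}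

lemma IsPi.one : IsPi π 1 := fun _ hq h => absurd (Nat.dvd_one.mp h) hq.ne_one

lemma IsPi.dvd {m n : ℕ} (h : IsPi π n) (hmn : m ∣ n) : IsPi π m :=
  fun q hq h1 => h q hq (h1.trans hmn)

lemma IsPi.mul {m n : ℕ} (hm : IsPi π m) (hn : IsPi π n) : IsPi π (m * n) := by
  intro q hq h
  rcases (Nat.Prime.dvd_mul hq).mp h with h | h
  · exact hm q hq h
  · exact hn q hq h

lemma IsPi.pow {m : ℕ} (hm : IsPi π m) (k : ℕ) : IsPi π (m ^ k) :=
  fun q hq h => hm q hq (hq.dvd_of_dvd_pow h)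

/-- complementary sets of primes -/
def Cpl (π π' : ℕ → Prop) : Prop := ∀ q : ℕ, q.Prime → (π' q ↔ ¬ π q)

lemma Cpl.symm (h : Cpl π π') : Cpl π' π := by
  intro q hq
  have := h q hq
  tauto

lemma IsPi.coprime (hc : Cpl π π') {m n : ℕ} (hm : IsPi π m) (hn : IsPi π' n) : Nat.Coprime m n := by
  apply Nat.coprime_of_dvd
  intro q hq h1 h2
  exact (hc q hq).mp (hn q hq h2) (hm q hq h1)

lemma exists_split (hc : Cpl π π') : ∀ n : ℕ, 0 < n → ∃ a b : ℕ, n = a * b ∧ IsPi π a ∧ IsPi π' b := by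
  intro n
  induction n using Nat.strong_induction_on with
  | _ n ih =>
    intro hn
    by_cases h1 : n = 1
    · exact ⟨1, 1, by rw [h1], IsPi.one, IsPi.one⟩
    obtain ⟨q, hq, m, rfl⟩ := Nat.exists_prime_and_dvd h1
    have hm : 0 < m := Nat.pos_of_mul_pos_left hn |> fun h => by
      rcases Nat.eq_zero_or_pos m with h0 | h0
      · rw [h0, mul_zero] at hn; omega
      · exact h0
    obtain ⟨a, b, hab, ha, hb⟩ := ih m (by
      have := hq.two_le
      nlinarith) hm
    have hself : ∀ ρ : ℕ → Prop, ρ q → IsPi ρ q := by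
      intro ρ h r hr hrq
      rw [(Nat.prime_dvd_prime_iff_eq hr hq).mp hrq]
      exact h
    by_cases hπ : π q
    · exact ⟨q * a, b, by rw [hab]; ring, (hself π hπ).mul ha, hb⟩
    · exact ⟨a, q * b, by rw [hab]; ring, ha, (hself π' ((hc q hq).mpr hπ)).mul hb⟩

lemma elt_split (hc : Cpl π π') {G : Type} [Group G] [Finite G] (g : G) :
    ∃ x y : G, g = x * y ∧ IsPi π (orderOf x) ∧ IsPi π' (orderOf y) ∧
      (∃ e : ℕ, x = g ^ e) ∧ ∃ f : ℕ, y = g ^ f := by
  obtain ⟨a, b, hab, ha, hb⟩ := exists_split hc (orderOf g) (orderOf_pos g)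
  have hcop := ha.coprime hc hb
  obtain ⟨e, he1, he2⟩ := Nat.chineseRemainder hcop 1 0
  obtain ⟨f, hf1, hf2⟩ := Nat.chineseRemainder hcop 0 1
  have hpow : ∀ k : ℕ, orderOf g ∣ k → g ^ k = 1 := fun k h => orderOf_dvd_iff_pow_eq_one.mp h
  refine ⟨g ^ e, g ^ f, ?_, ?_, ?_, ⟨e, rfl⟩, ⟨f, rfl⟩⟩
  · rw [← pow_add]
    have h1 : e + f ≡ 1 [MOD a * b] := by
      rw [← Nat.modEq_and_modEq_iff_modEq_mul hcop]
      exact ⟨by simpa using he1.add hf1, by simpa using he2.add hf2⟩
    rw [← hab] at h1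
    have h2 : g ^ (e + f) = g ^ 1 := pow_eq_pow_iff_modEq.mpr h1
    rw [h2, pow_one]
  · refine ha.dvd (orderOf_dvd_of_pow_eq_one ?_)
    rw [← pow_mul]
    apply hpow
    rw [hab, mul_comm a b]
    exact Nat.mul_dvd_mul_right ((Nat.modEq_zero_iff_dvd).mp he2) a
  · refine hb.dvd (orderOf_dvd_of_pow_eq_one ?_)
    rw [← pow_mul]
    apply hpow
    rw [hab]
    exact Nat.mul_dvd_mul_right ((Nat.modEq_zero_iff_dvd).mp hf1) b

/-- if `g ^ m` lies in `K` for some `m` prime to the order of `g` then `g` lies in `K` -/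
lemma mem_of_coprime {G : Type} [Group G] {K : Subgroup G} {g : G} {m : ℕ} (h : g ^ m ∈ K)
    (hc : Nat.Coprime (orderOf g) m) : g ∈ K := by
  have h1 : g ^ (Nat.gcd (orderOf g) m) ∈ K := by
    have h2 := Nat.gcd_eq_gcd_ab (orderOf g) m
    have h3 : g ^ ((Nat.gcd (orderOf g) m : ℕ) : ℤ) = (g ^ m) ^ (Nat.gcdB (orderOf g) m) := by
      rw [h2, zpow_add, zpow_mul, zpow_mul, zpow_natCast, pow_orderOf_eq_one, one_zpow, one_mul,
        zpow_natCast]
    rw [← zpow_natCast, h3]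
    exact K.zpow_mem h _
  rw [Nat.coprime_iff_gcd_eq_one.mp hc, pow_one] at h1
  exact h1

end pi

end Pool.Agent.Helper606_LC
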