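import Mathlib
import Pool.Agent.Helper606_LC.Crit2
import Pool.Agent.Helper606_LC.Main
import Pool.Agent.Helper606_LC.Sc

/-!
# Eigenvalues on hyperelementary groups
-/

set_option autoImplicit false
set_option linter.unusedSectionVars false

namespace Pool.Agent.Helper606_LC

open Pool.Agent.H541R3.ART Pool.Agent.W446.AS Pool.Agent.R389 Pool.Agent.H302R3

section elt

variable {H : Type} [Group H] [Finite H] {V : Type} [AddCommGroup V] [Module ℂ V]
  [FiniteDimensional ℂ V] {ρ : Representation ℂ H V}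

/-- the eigenspaces of a generator of a normal cyclic subgroup span an irreducible module -/
lemma eig_span (hρ : Irred ρ) {c : H} (hc : ∀ u : H, u * c * u⁻¹ ∈ Subgroup.zpowers c) {ε : ℂ}
    {v : V} (hv : v ≠ 0) (hε : ρ c v = ε • v) :
    Submodule.span ℂ {w : V | ∃ (h : H) (j : ℕ), h * c * h⁻¹ = c ^ j ∧ ρ c w = ε ^ j • w} = ⊤ := by
  set S : Set V := {w : V | ∃ (h : H) (j : ℕ), h * c * h⁻¹ = c ^ j ∧ ρ c w = ε ^ j • w} with hS
  have hvS : v ∈ S := ⟨1, 1, by rw [one_mul, inv_one, mul_one, pow_one], by rw [pow_one]; exact hε⟩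
  have hinv : ∀ g : H, ∀ w ∈ Submodule.span ℂ S, ρ g w ∈ Submodule.span ℂ S := by
    intro g w hw
    induction hw using Submodule.span_induction with
    | zero => rw [map_zero]; exact zero_mem _
    | add x y _ _ hx hy => rw [map_add]; exact add_mem hx hy
    | smul a x _ hx => rw [map_smul]; exact Submodule.smul_mem _ a hx
    | mem x hx =>
      obtain ⟨h, j, hj, hx1⟩ := hx
      obtain ⟨i, hi⟩ := (mem_powers_iff_mem_zpowers).mpr (hc g⁻¹)
      rw [inv_inv] at hi
      have hi' : c ^ i = g⁻¹ * c * g := hi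
      apply Submodule.subset_span
      refine ⟨h * g⁻¹, j * i, ?_, ?_⟩
      · rw [pow_mul, ← hj]
        have h1 : (h * c * h⁻¹) ^ i = h * c ^ i * h⁻¹ := by rw [conj_pow]
        rw [h1, hi']
        group
      · have h1 : c * g = g * c ^ i := by rw [hi']; group
        rw [← Module.End.mul_apply, ← map_mul, h1, map_mul, Module.End.mul_apply, eig_pow hx1 i,
          map_smul, ← pow_mul]
  rcases hρ.2 (Submodule.span ℂ S) hinv with h | h
  · exfalso
    apply hv
    have h1 : v ∈ Submodule.span ℂ S := Submodule.subset_span hvS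
    rw [h] at h1
    exact (Submodule.mem_bot ℂ).mp h1
  · exact h

/-- eigenvalues of a generator of a normal cyclic subgroup are conjugate -/
lemma eig_conj (hρ : Irred ρ) {c : H} (hc : ∀ u : H, u * c * u⁻¹ ∈ Subgroup.zpowers c) {ε : ℂ}
    {v : V} (hv : v ≠ 0) (hε : ρ c v = ε • v) {ε' : ℂ} {w : V} (hw : w ≠ 0)
    (hε' : ρ c w = ε' • w) : ∃ (h : H) (j : ℕ), h * c * h⁻¹ = c ^ j ∧ ε ^ j = ε' := by
  by_contra hcon
  push Not at hcon
  have h1 := Module.End.eigenspaces_iSupIndep (ρ c)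
  have h2 := (iSupIndep_def.mp h1) ε'
  have h3 : (⊤ : Submodule ℂ V) ≤ ⨆ μ, ⨆ (_ : μ ≠ ε'), Module.End.eigenspace (ρ c) μ := by
    rw [← eig_span hρ hc hv hε, Submodule.span_le]
    rintro x ⟨h, j, hj, hx⟩
    have h4 : x ∈ Module.End.eigenspace (ρ c) (ε ^ j) := Module.End.mem_eigenspace_iff.mpr hx
    exact Submodule.mem_iSup_of_mem (ε ^ j) (Submodule.mem_iSup_of_mem (hcon h j hj) h4)
  have h4 : w ∈ Module.End.eigenspace (ρ c) ε' := Module.End.mem_eigenspace_iff.mpr hε'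
  apply hw
  exact (Submodule.disjoint_def.mp h2) w h4 (h3 Submodule.mem_top)

/-- eigenvalues and power twists -/
lemma eig_twist {N : ℕ} (hH : Nat.card H ∣ N) {c : H} {ε : ℂ}
    {v : V} (hv : v ≠ 0) (hε : ρ c v = ε • v) {s : (ZMod N)ˣ}
    (hs : pw s ρ.character = ρ.character) : ∃ w : V, w ≠ 0 ∧ ρ c w = ε ^ (s : ZMod N).val • w := by
  classical
  have hzo : ε ^ orderOf c = 1 := eig_fin hv hε
  have hz0 : ε ≠ 0 := by
    rintro rfl
    rw [zero_pow (orderOf_pos c).ne'] at hzo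
    exact zero_ne_one hzo
  let Z : ℂˣ := Units.mk0 ε hz0
  have hZ : Z ^ orderOf c = 1 := Units.ext (by rw [Units.val_pow_eq_pow_val]; exact hzo)
  obtain ⟨μ, hμ⟩ : ∃ μ : Subgroup.zpowers c →* ℂˣ, μ ⟨c, Subgroup.mem_zpowers c⟩ = Z := by
    have hgen : ∀ x : Subgroup.zpowers c, x ∈ Subgroup.zpowers (⟨c, Subgroup.mem_zpowers c⟩ :
        Subgroup.zpowers c) := by
      rintro ⟨x, j, hj⟩
      exact ⟨j, Subtype.ext (by simpa using hj)⟩
    refine ⟨monoidHomOfForallMemZpowers hgen (g' := Z) ?_, ?_⟩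
    · rw [Subgroup.orderOf_mk]
      exact orderOf_dvd_of_pow_eq_one hZ
    · exact monoidHomOfForallMemZpowers_apply_gen _ _
  have h1 : (∑ᶠ h : Subgroup.zpowers c, ρ.character h * (((μ h)⁻¹ : ℂˣ) : ℂ)) ≠ 0 := by
    refine (mult_ne_iff ρ _ μ).mpr ⟨v, hv, ?_⟩
    rintro ⟨x, hx⟩
    obtain ⟨j, rfl⟩ := (mem_powers_iff_mem_zpowers).mpr hx
    have h1 : (⟨c ^ j, hx⟩ : Subgroup.zpowers c) = ⟨c, Subgroup.mem_zpowers c⟩ ^ j :=
      Subtype.ext (by simp)
    have h3 : μ (⟨c ^ j, hx⟩ : Subgroup.zpowers c) = Z ^ j := by rw [h1, map_pow, hμ]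
    change ρ (c ^ j) v = ((μ (⟨c ^ j, hx⟩ : Subgroup.zpowers c) : ℂˣ) : ℂ) • v
    rw [eig_pow hε j, h3, Units.val_pow_eq_pow_val]
    rfl
  have h2 : (∑ᶠ h : Subgroup.zpowers c, ρ.character h *
      ((((μ ^ (s : ZMod N).val) h)⁻¹ : ℂˣ) : ℂ)) ≠ 0 := by
    have : Fintype (Subgroup.zpowers c) := Fintype.ofFinite _
    have hK : Nat.card (Subgroup.zpowers c) ∣ N :=
      (Subgroup.zpowers c).card_subgroup_dvd_card.trans hH
    rw [finsum_eq_sum_of_fintype] at h1 ⊢
    rw [← (pw_bij hK s).sum_comp (fun h : Subgroup.zpowers c =>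
      ρ.character h * (((μ h)⁻¹ : ℂˣ) : ℂ))] at h1
    intro h3
    apply h1
    rw [← h3]
    refine Finset.sum_congr rfl fun h _ => ?_
    have h4 : ρ.character ((h ^ (s : ZMod N).val : Subgroup.zpowers c) : H) = ρ.character (h : H) := by
      have h5 := congrFun hs (h : H)
      rw [Subgroup.coe_pow]
      exact h5
    rw [h4, map_pow, MonoidHom.pow_apply]
  obtain ⟨w, hw, hw1⟩ := (mult_ne_iff ρ _ _).mp h2
  refine ⟨w, hw, ?_⟩
  have h3 := hw1 ⟨c, Subgroup.mem_zpowers c⟩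
  rw [MonoidHom.pow_apply, hμ, Units.val_pow_eq_pow_val] at h3
  exact h3

end elt

/-- **Characters of hyperelementary groups.** -/
theorem hyp_elt {H : Type} [Group H] [Finite H] {N : ℕ} (hN : 0 < N) (hH : Nat.card H ∣ N) {ℓ : ℕ}
    (hℓ : ℓ.Prime) (hyp : HypP ℓ H) {φ : H → ℂ} (hφ : φ ∈ Irr H) :
    ∃ (c : H) (ε : ℂ), (orderOf c).Coprime ℓ ∧ ε ^ orderOf c = 1 ∧
      (∀ s : (ZMod N)ˣ, pw s φ = φ →
        ∃ (h : H) (j : ℕ), h * c * h⁻¹ = c ^ j ∧ ε ^ j = ε ^ (s : ZMod N).val) ∧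
      ∀ p a : ℕ, p.Prime → p ≠ ℓ → 0 < a → (∃ u ∈ Ug N (p ^ a), pw u φ ≠ φ) →
        p ^ a ∣ orderOf ε := by
  obtain ⟨m, ρ, hρ, rfl⟩ := exists_rep hφ
  obtain ⟨c, hcop, hn, hpw⟩ := hyp
  have hnt : Nontrivial (Fin m → ℂ) := hρ.1
  obtain ⟨ε, hε⟩ := Module.End.exists_eigenvalue (ρ c)
  obtain ⟨v, hv1, hv⟩ := hε.exists_hasEigenvector
  have hεv : ρ c v = ε • v := Module.End.mem_eigenspace_iff.mp hv1
  have hεo : ε ^ orderOf c = 1 := eig_fin hv hεv
  refine ⟨c, ε, hcop, hεo, fun s hs => ?_, fun p a hp hpℓ ha ⟨u, hu, hmv⟩ => ?_⟩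
  · obtain ⟨w, hw, hw1⟩ := eig_twist hH hv hεv hs
    exact eig_conj hρ hn hv hεv hw hw1
  · by_contra hcon
    apply hmv
    funext g
    change ρ.character (g ^ (u : ZMod N).val) = ρ.character g
    have hgN : ∀ x : H, x ^ N = 1 := pow_card_dvd hH
    obtain ⟨x, y, hg, hx, hy, ⟨e, he⟩, ⟨f, hf⟩⟩ :=
      elt_split (π := fun q => q = p) (π' := fun q => q ≠ p) (fun q _ => Iff.rfl) g
    have hxy : Commute x y := by
      rw [he, hf]
      exact (Commute.refl g).pow_pow e f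
    have hyu : y ^ (u : ZMod N).val = y := by
      refine pow_ug hN hu (hgN y) fun h => ?_
      exact hy p hp ((dvd_pow_self p ha.ne').trans h) rfl
    have hxc : x ∈ Subgroup.zpowers c := by
      obtain ⟨k, hk⟩ := hpw x
      refine mem_of_coprime hk ?_
      apply Nat.Coprime.pow_right
      apply Nat.coprime_of_dvd
      intro q hq hq1 hq2
      have h1 := hx q hq hq1
      have h2 := (Nat.prime_dvd_prime_iff_eq hq hℓ).mp hq2
      exact hpℓ (h1.symm.trans h2)
    obtain ⟨i, hi⟩ := (mem_powers_iff_mem_zpowers).mpr hxc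
    have hi' : c ^ i = x := hi
    have hρx : ρ (x ^ (u : ZMod N).val) = ρ x := by
      refine LinearMap.ext fun w => ?_
      have hw : w ∈ Submodule.span ℂ {w : Fin m → ℂ | ∃ (h : H) (j : ℕ), h * c * h⁻¹ = c ^ j ∧
          ρ c w = ε ^ j • w} := by
        rw [eig_span hρ hn hv hεv]
        exact Submodule.mem_top
      induction hw using Submodule.span_induction with
      | zero => rw [map_zero, map_zero]
      | add a b _ _ h1 h2 => rw [map_add, map_add, h1, h2]
      | smul a b _ h1 => rw [map_smul, map_smul, h1]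
      | mem w hw =>
        obtain ⟨h, j, hj, hw1⟩ := hw
        have h1 : ρ x w = ((ε ^ j) ^ i) • w := by rw [← hi']; exact eig_pow hw1 i
        rw [eig_pow h1, h1]
        congr 1
        apply hu
        · have h2 : ε ^ N = 1 := by
            obtain ⟨t, ht⟩ := orderOf_dvd_of_pow_eq_one (hgN c)
            rw [ht, pow_mul, hεo, one_pow]
          rw [← pow_mul, ← pow_mul, ← mul_assoc, mul_comm (j * i) N, pow_mul, h2, one_pow]
        · intro h2
          apply hcon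
          refine h2.trans ?_
          rw [← pow_mul]
          exact orderOf_dvd_of_pow_eq_one (by
            rw [← pow_mul, mul_comm, pow_mul, pow_orderOf_eq_one, one_pow])
    have h1 : ρ (g ^ (u : ZMod N).val) = ρ g := by
      rw [hg, hxy.mul_pow, hyu, map_mul, hρx, ← map_mul]
    unfold Representation.character
    rw [h1]

end Pool.Agent.Helper606_LC
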