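import Mathlib
import Pool.Agent.Helper606_LC.HypC

/-!
# Counting involutions in automizers
-/

set_option autoImplicit false
set_option linter.unusedSectionVars false

namespace Pool.Agent.Helper606_LC

/-- elementary abelian quotients of finite abelian groups -/
lemma card_le_ker_sq {A E : Type*} [CommGroup A] [Finite A] [CommGroup E] (f : A →* E)
    (hf : Function.Surjective f) (hE : ∀ x : E, x ^ 2 = 1) :
    Nat.card E ≤ Nat.card (powMonoidHom 2 : A →* A).ker := by
  have : Finite E := Finite.of_surjective f hf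
  have h1 := Subgroup.card_eq_card_quotient_mul_card_subgroup (powMonoidHom 2 : A →* A).ker
  have h2 := Subgroup.card_eq_card_quotient_mul_card_subgroup f.ker
  have h3 : Nat.card (A ⧸ (powMonoidHom 2 : A →* A).ker) = Nat.card (powMonoidHom 2 : A →* A).range :=
    Nat.card_congr (QuotientGroup.quotientKerEquivRange _).toEquiv
  have h4 : Nat.card (A ⧸ f.ker) = Nat.card E :=
    Nat.card_congr (QuotientGroup.quotientKerEquivOfSurjective f hf).toEquiv
  have h5 : (powMonoidHom 2 : A →* A).range ≤ f.ker := by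
    rintro _ ⟨a, rfl⟩
    rw [MonoidHom.mem_ker]
    change f (a ^ 2) = 1
    rw [map_pow, hE]
  have h6 : Nat.card (powMonoidHom 2 : A →* A).range ≤ Nat.card f.ker :=
    Nat.le_of_dvd Nat.card_pos (Subgroup.card_dvd_of_le h5)
  rw [h3] at h1
  rw [h4, h1] at h2
  by_contra hcon
  push Not at hcon
  have h7 : 0 < Nat.card f.ker := Nat.card_pos
  have h8 : Nat.card (powMonoidHom 2 : A →* A).range * Nat.card (powMonoidHom 2 : A →* A).ker
      < Nat.card E * Nat.card f.ker := by
    calc Nat.card (powMonoidHom 2 : A →* A).range * Nat.card (powMonoidHom 2 : A →* A).ker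
        ≤ Nat.card f.ker * Nat.card (powMonoidHom 2 : A →* A).ker := Nat.mul_le_mul_right _ h6
      _ < Nat.card f.ker * Nat.card E := Nat.mul_lt_mul_of_pos_left hcon h7
      _ = Nat.card E * Nat.card f.ker := mul_comm _ _
  omega

/-- involutory automorphisms of a cyclic subgroup -/
theorem inv_count {G : Type} [Group G] [Finite G] {N : ℕ} (hN : 0 < N) {c : G} {ε : ℂ}
    (hε : ε ^ orderOf c = 1) (hεN : ε ^ N = 1)
    {E : Type*} [CommGroup E] (θ : E →* (ZMod N)ˣ) (hE2 : ∀ x : E, x ^ 2 = 1)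
    (hinj : ∀ x : E, ε ^ (θ x : ZMod N).val = ε → x = 1)
    (hconj : ∀ x : E, ∃ (h : G) (j : ℕ), h * c * h⁻¹ = c ^ j ∧ ε ^ j = ε ^ (θ x : ZMod N).val) :
    Nat.card E ≤ Set.ncard {j : ZMod (orderOf c) | j ^ 2 = 1 ∧ IsConj c (c ^ j.val)} := by
  classical
  have hm : 0 < orderOf c := orderOf_pos c
  have hm' : NeZero (orderOf c) := ⟨hm.ne'⟩
  have hN' : NeZero N := ⟨hN.ne'⟩
  have hcm : c ^ orderOf c = 1 := pow_orderOf_eq_one c
  let A : Subgroup (ZMod (orderOf c))ˣ :=
    { carrier := {k | IsConj c (c ^ (k : ZMod (orderOf c)).val) ∧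
        ∃ x : E, ε ^ (k : ZMod (orderOf c)).val = ε ^ (θ x : ZMod N).val}
      mul_mem' := by
        rintro k k' ⟨h1, x, h2⟩ ⟨h1', x', h2'⟩
        refine ⟨?_, x' * x, ?_⟩
        · rw [pow_val_mul hm hcm]
          obtain ⟨a, ha⟩ := isConj_iff.mp h1
          refine h1'.trans (isConj_iff.mpr ⟨a, ?_⟩)
          rw [← ha, conj_pow]
        · rw [pow_val_mul hm hε, h2, map_mul, pow_val_mul hN hεN, ← h2', ← pow_mul, ← pow_mul,
            mul_comm]
      one_mem' := by
        refine ⟨?_, 1, ?_⟩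
        · rw [pow_val_one hm hcm]
        · rw [map_one, pow_val_one hm hε, pow_val_one hN hεN]
      inv_mem' := by
        rintro k ⟨h1, x, h2⟩
        refine ⟨?_, x⁻¹, ?_⟩
        · obtain ⟨a, ha⟩ := isConj_iff.mp h1
          apply IsConj.symm
          refine isConj_iff.mpr ⟨a, ?_⟩
          have h3 : (c ^ (k : ZMod (orderOf c)).val) ^ ((k⁻¹ : (ZMod (orderOf c))ˣ) :
              ZMod (orderOf c)).val = c := by
            rw [← pow_val_mul hm hcm, mul_inv_cancel, pow_val_one hm hcm]
          rw [← ha, conj_pow] at h3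
          exact h3
        · have h3 : (ε ^ (k : ZMod (orderOf c)).val) ^ ((k⁻¹ : (ZMod (orderOf c))ˣ) :
              ZMod (orderOf c)).val = ε := by
            rw [← pow_val_mul hm hε, mul_inv_cancel, pow_val_one hm hε]
          rw [h2] at h3
          rw [map_inv]
          have h4 : ((ε ^ (θ x : ZMod N).val) ^ ((k⁻¹ : (ZMod (orderOf c))ˣ) :
              ZMod (orderOf c)).val) ^ (((θ x)⁻¹ : (ZMod N)ˣ) : ZMod N).val
              = ε ^ ((k⁻¹ : (ZMod (orderOf c))ˣ) : ZMod (orderOf c)).val := by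
            have hz : (ε ^ ((k⁻¹ : (ZMod (orderOf c))ˣ) : ZMod (orderOf c)).val) ^ N = 1 := by
              rw [← pow_mul, mul_comm, pow_mul, hεN, one_pow]
            rw [pow_right_comm ε, ← pow_val_mul hN hz, mul_inv_cancel, pow_val_one hN hz]
          rw [h3] at h4
          exact h4.symm }
  have huniq : ∀ x x' : E, ε ^ (θ x : ZMod N).val = ε ^ (θ x' : ZMod N).val → x = x' := by
    intro x x' h
    have h1 : x * x'⁻¹ = 1 := by
      apply hinj
      rw [map_mul, map_inv, pow_val_mul hN hεN, h, ← pow_val_mul hN hεN, mul_inv_cancel,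
        pow_val_one hN hεN]
    exact mul_inv_eq_one.mp h1
  have hch : ∀ k : A, ∃ x : E, ε ^ ((k : (ZMod (orderOf c))ˣ) : ZMod (orderOf c)).val
      = ε ^ (θ x : ZMod N).val := by
    rintro ⟨k, h1, x, h2⟩
    exact ⟨x, h2⟩
  choose F hF using hch
  let f : A →* E := MonoidHom.mk' F (by
    intro k k'
    apply huniq
    rw [← hF, Subgroup.coe_mul, map_mul, pow_val_mul hm hε, hF k, ← pow_mul,
      mul_comm, pow_mul, hF k', ← pow_mul, mul_comm, pow_mul, pow_val_mul hN hεN])
  have hsurj : Function.Surjective f := by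
    intro x
    obtain ⟨h, j, h1, h2⟩ := hconj x
    have h3 : orderOf (c ^ j) = orderOf c := by rw [← h1]; exact orderOf_conj' c h
    have h4 : Nat.Coprime j (orderOf c) := by
      rw [orderOf_pow] at h3
      have h5 : Nat.gcd (orderOf c) j = 1 := by
        have h6 := Nat.div_mul_cancel (Nat.gcd_dvd_left (orderOf c) j)
        rw [h3] at h6
        nlinarith
      rw [Nat.coprime_comm]
      exact h5
    have hval : ∀ {M : Type} [Monoid M] (z : M), z ^ orderOf c = 1 →
        z ^ ((ZMod.unitOfCoprime j h4 : (ZMod (orderOf c))ˣ) : ZMod (orderOf c)).val = z ^ j := by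
      intro M _ z hz
      rw [ZMod.coe_unitOfCoprime, ZMod.val_natCast]
      exact (pow_eq_pow_mod j hz).symm
    refine ⟨⟨ZMod.unitOfCoprime j h4, ?_, x, ?_⟩, ?_⟩
    · rw [hval c hcm]
      exact isConj_iff.mpr ⟨h, h1⟩
    · rw [hval ε hε, h2]
    · apply huniq
      refine (hF _).symm.trans ?_
      change ε ^ ((ZMod.unitOfCoprime j h4 : (ZMod (orderOf c))ˣ) : ZMod (orderOf c)).val = _
      rw [hval ε hε, h2]
  refine (card_le_ker_sq f hsurj hE2).trans ?_
  let g : (powMonoidHom 2 : A →* A).ker → {j : ZMod (orderOf c) // j ∈ {j : ZMod (orderOf c) |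
      j ^ 2 = 1 ∧ IsConj c (c ^ j.val)}} := fun k =>
    ⟨(((k : A) : (ZMod (orderOf c))ˣ) : ZMod (orderOf c)), by
      constructor
      · have h1 : (k : A) ^ 2 = 1 := k.2
        have h2 := congrArg (fun y : A => ((y : (ZMod (orderOf c))ˣ) : ZMod (orderOf c))) h1
        simpa using h2
      · exact (k : A).2.1⟩
  have hg : Function.Injective g := by
    intro k k' h
    have h1 := congrArg Subtype.val h
    exact Subtype.ext (Subtype.ext (Units.ext h1))
  rw [← Nat.card_coe_set_eq]
  exact Nat.card_le_card_of_injective g hg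

end Pool.Agent.Helper606_LC
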