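import Mathlib
import Pool.Agent.Helper606_LC.Fin

/-!
# Galois groups of fields of values and primes of the conductor
-/

set_option autoImplicit false
set_option linter.unusedSectionVars false

namespace Pool.Agent.Helper606_LC

open Pool.Agent.H541R3.ART Pool.Agent.W446.AS Pool.Agent.R389

section field

variable {G : Type} [Group G] [Finite G] {N : ℕ} (F : IntermediateField ℚ ℂ) (χ : G → ℂ)

/-- the field generated over `F` by the values of `χ` -/
noncomputable abbrev Fv : IntermediateField F ℂ := IntermediateField.adjoin F (Set.range χ)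

/-- a value as an element of the field of values -/
noncomputable def gx (g : G) : Fv F χ := ⟨χ g, IntermediateField.subset_adjoin F _ ⟨g, rfl⟩⟩

/-- `f` acts on the values of `χ` as the power map with exponent `k` -/
def Acts (k : (ZMod N)ˣ) (f : Fv F χ ≃ₐ[F] Fv F χ) : Prop :=
  ∀ g, f (gx F χ g) = gx F χ (g ^ (k : ZMod N).val)

variable {F χ}

lemma aut_ext {f f' : Fv F χ ≃ₐ[F] Fv F χ} (h : ∀ g, f (gx F χ g) = f' (gx F χ g)) : f = f' := by
  have h1 : f.toAlgHom = f'.toAlgHom := by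
    refine IntermediateField.adjoin_algHom_ext F ?_
    rintro _ ⟨g, rfl⟩
    exact h g
  ext x
  exact congrArg Subtype.val (DFunLike.congr_fun h1 x)

lemma Acts.mul (hN : 0 < N) (hG : Nat.card G ∣ N) {k l : (ZMod N)ˣ} {f f' : Fv F χ ≃ₐ[F] Fv F χ}
    (h : Acts F χ k f) (h' : Acts F χ l f') : Acts F χ (k * l) (f * f') := by
  intro g
  rw [AlgEquiv.mul_apply, h' g, h, mul_comm k l, pow_val_mul hN (pow_card_dvd hG g)]

lemma Acts.one (hN : 0 < N) (hG : Nat.card G ∣ N) :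
    Acts F χ (1 : (ZMod N)ˣ) (1 : Fv F χ ≃ₐ[F] Fv F χ) := by
  intro g
  rw [pow_val_one hN (pow_card_dvd hG g)]
  rfl

lemma Acts.pow (hN : 0 < N) (hG : Nat.card G ∣ N) {k : (ZMod N)ˣ} {f : Fv F χ ≃ₐ[F] Fv F χ}
    (h : Acts F χ k f) (j : ℕ) : Acts F χ (k ^ j) (f ^ j) := by
  induction j with
  | zero => rw [pow_zero, pow_zero]; exact Acts.one hN hG
  | succ j ih => rw [pow_succ, pow_succ]; exact ih.mul hN hG h

lemma Acts.eq_iff {k l : (ZMod N)ˣ} {f f' : Fv F χ ≃ₐ[F] Fv F χ}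
    (h : Acts F χ k f) (h' : Acts F χ l f') : f = f' ↔ pw k χ = pw l χ := by
  constructor
  · rintro rfl
    funext g
    have h1 := (h g).symm.trans (h' g)
    exact congrArg Subtype.val h1
  · intro h1
    refine aut_ext fun g => ?_
    rw [h g, h' g]
    exact Subtype.ext (congrFun h1 g)

lemma exists_acts (hN : 0 < N) (hG : Nat.card G ∣ N) (hχ : χ ∈ Irr G) {k : (ZMod N)ˣ}
    {σ : ℂ ≃+* ℂ} (hσ : ∀ z : ℂ, z ^ N = 1 → σ z = z ^ (k : ZMod N).val)
    (hF : ∀ z ∈ F, σ z = z) : ∃ f : Fv F χ ≃ₐ[F] Fv F χ, Acts F χ k f := by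
  let s : ℂ →ₐ[F] ℂ := { (σ : ℂ →+* ℂ) with commutes' := fun z => hF z z.2 }
  have hs : ∀ z, s z = σ z := fun z => rfl
  have hval : ∀ g : G, σ (χ g) = χ (g ^ (k : ZMod N).val) := fun g =>
    irr_pow hN hσ hχ (pow_card_dvd hG g)
  have h1 : (Fv F χ).map s = Fv F χ := by
    rw [IntermediateField.adjoin_map]
    congr 1
    ext z
    constructor
    · rintro ⟨_, ⟨g, rfl⟩, rfl⟩
      exact ⟨g ^ (k : ZMod N).val, (hval g).symm⟩
    · rintro ⟨g, rfl⟩
      obtain ⟨g', hg'⟩ := (pw_bij hG k).2 g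
      refine ⟨χ g', ⟨g', rfl⟩, ?_⟩
      rw [hs, hval]
      exact congrArg χ hg'
  refine ⟨((Fv F χ).equivMap s).trans (IntermediateField.equivOfEq h1), fun g => ?_⟩
  apply Subtype.ext
  exact hval g

end field

section cyc

variable {G : Type} [Group G] [Finite G] {N : ℕ} {F : IntermediateField ℚ ℂ} {χ : G → ℂ}

lemma pow_of_cyc {W : Type} [Group W] {q : ℕ} (hq : q.Prime)
    (hW : ∀ P : Sylow q W, IsCyclic P) {x y : W} (hx : orderOf x = q) (hy : orderOf y = q)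
    (hxy : x * y = y * x) : ∃ t : ℕ, y = x ^ t := by
  have hS : ∀ a ∈ ({x, y} : Set W), ∀ b ∈ ({x, y} : Set W), a * b = b * a := by
    rintro a (rfl | rfl) b (rfl | rfl)
    · rfl
    · exact hxy
    · exact hxy.symm
    · rfl
  have hcomm := closure_comm hS
  have hpow : ∀ a ∈ Subgroup.closure ({x, y} : Set W), a ^ q = 1 := by
    intro a ha
    induction ha using Subgroup.closure_induction with
    | mem a ha =>
      rcases ha with rfl | rfl
      · rw [← hx, pow_orderOf_eq_one]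
      · rw [← hy, pow_orderOf_eq_one]
    | one => exact one_pow q
    | mul a b ha hb iha ihb =>
      have : Commute a b := hcomm a ha b hb
      rw [this.mul_pow, iha, ihb, one_mul]
    | inv a _ iha => rw [inv_pow, iha, inv_one]
  have hH : IsPGroup q (Subgroup.closure ({x, y} : Set W)) := by
    intro a
    exact ⟨1, Subtype.ext (by rw [pow_one]; exact hpow a a.2)⟩
  obtain ⟨P, hP⟩ := hH.exists_le_sylow
  have hc := hW P
  obtain ⟨g₀, hg₀⟩ := hc.exists_generator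
  have hxP : x ∈ P := hP (Subgroup.subset_closure (by simp))
  have hyP : y ∈ P := hP (Subgroup.subset_closure (by simp))
  have hfin : Finite P := by
    obtain ⟨k, hk⟩ := P.2 g₀
    have h1 : IsOfFinOrder g₀ := isOfFinOrder_iff_pow_eq_one.mpr ⟨q ^ k, pow_pos hq.pos _, hk⟩
    have h2 : Finite (Subgroup.zpowers g₀) := h1.finite_zpowers
    have h3 : Subgroup.zpowers g₀ = ⊤ := by
      rw [eq_top_iff]
      exact fun a _ => hg₀ a
    rw [h3] at h2
    exact Finite.of_surjective (Subgroup.topEquiv (G := P)) Subgroup.topEquiv.surjective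
  have htop : IsCyclic (⊤ : Subgroup P) :=
    isCyclic_of_surjective (Subgroup.topEquiv (G := P)).symm (Subgroup.topEquiv (G := P)).symm.surjective
  have h1 := cyc_mem (G := P) htop (x := ⟨x, hxP⟩) (y := ⟨y, hyP⟩) (Subgroup.mem_top _)
    (Subgroup.mem_top _) (by rw [Subgroup.orderOf_mk, Subgroup.orderOf_mk, hx, hy])
  have h2 : (⟨y, hyP⟩ : P) ∈ Subgroup.zpowers (⟨x, hxP⟩ : P) := by
    rw [h1]
    exact Subgroup.mem_zpowers _
  obtain ⟨t, ht⟩ := mem_powers_iff_mem_zpowers.mpr h2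
  exact ⟨t, (congrArg Subtype.val ht).symm⟩

/-- elements of the same prime order -/
lemma same_sub (hN : 0 < N) (hG : Nat.card G ∣ N) {q : ℕ} (hq : q.Prime)
    (hW : ∀ P : Sylow q (Fv F χ ≃ₐ[F] Fv F χ), IsCyclic P) {v v' : (ZMod N)ˣ}
    {f f' : Fv F χ ≃ₐ[F] Fv F χ} (hf : Acts F χ v f) (hf' : Acts F χ v' f')
    (hv : orderOf (gmk hN hG χ v) = q) (hv' : orderOf (gmk hN hG χ v') = q) :
    ∃ t : ℕ, gmk hN hG χ v' = gmk hN hG χ v ^ t := by
  have hgm : ∀ k l : (ZMod N)ˣ, pw k χ = pw l χ ↔ gmk hN hG χ k = gmk hN hG χ l := by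
    intro k l
    have h0 : gmk hN hG χ k = gmk hN hG χ l ↔ pw (k⁻¹ * l) χ = χ := by
      rw [← gmk_eq_one hN hG, map_mul, map_inv, inv_mul_eq_one]
    rw [h0, pw_mul hN hG]
    constructor
    · intro h
      rw [← h, ← pw_mul hN hG, inv_mul_cancel, pw_one hN hG]
    · intro h
      have h1 : pw k (pw k⁻¹ (pw l χ)) = pw l χ := by
        rw [← pw_mul hN hG, mul_inv_cancel, pw_one hN hG]
      rw [← h1, h]
  have hord : ∀ (k : (ZMod N)ˣ) (e : Fv F χ ≃ₐ[F] Fv F χ), Acts F χ k e →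
      orderOf e = orderOf (gmk hN hG χ k) := by
    intro k e he
    refine orderOf_eq_orderOf_iff.mpr fun j => ?_
    rw [(he.pow hN hG j).eq_iff (Acts.one hN hG), hgm, map_pow, map_one]
  have hcomm : f * f' = f' * f := by
    rw [(hf.mul hN hG hf').eq_iff (hf'.mul hN hG hf), mul_comm]
  obtain ⟨t, ht⟩ := pow_of_cyc hq hW ((hord v f hf).trans hv) ((hord v' f' hf').trans hv') hcomm
  refine ⟨t, ?_⟩
  rw [← map_pow, ← hgm, ← hf'.eq_iff (hf.pow hN hG t)]
  exact ht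

/-- a modular character nontrivial on given elements -/
lemma exists_psi {Γ : Type*} [CommGroup Γ] [Finite Γ] {ι : Type*} {I : Finset ι} {β : ι → Γ}
    (hp : ∀ i ∈ I, (orderOf (β i)).Prime) {ℓ : ℕ} [Fact ℓ.Prime]
    (hs : ∀ i ∈ I, ∀ j ∈ I, orderOf (β i) = orderOf (β j) → orderOf (β i) ≠ ℓ →
      ∃ t : ℕ, β j = β i ^ t) :
    ∃ ψ : Γ →* (AlgebraicClosure (ZMod ℓ))ˣ, ∀ i ∈ I, ψ (β i) ≠ 1 ∨ ℓ ∣ orderOf (β i) := by
  classical
  have h1 : ∀ q ∈ I.image (fun i => orderOf (β i)), ∃ i ∈ I, orderOf (β i) = q := by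
    intro q hq
    obtain ⟨i, hi, h⟩ := Finset.mem_image.mp hq
    exact ⟨i, hi, h⟩
  rcases I.eq_empty_or_nonempty with rfl | ⟨i₀, -⟩
  · exact ⟨1, fun i hi => absurd hi (Finset.notMem_empty i)⟩
  have : Nonempty ι := ⟨i₀⟩
  choose! r hr hr1 using h1
  let J := (I.image (fun i => orderOf (β i))).image r
  have hJI : ∀ j ∈ J, j ∈ I := by
    intro j hj
    obtain ⟨q, hq, rfl⟩ := Finset.mem_image.mp hj
    exact hr q hq
  obtain ⟨ψ, hψ⟩ := per_count (I := J) (β := β) (fun j hj => hp j (hJI j hj)) (ℓ := ℓ) (by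
    intro q hq _
    refine le_trans (Finset.card_le_one.mpr ?_) hq.one_le
    intro a ha b hb
    obtain ⟨ha1, ha2⟩ := Finset.mem_filter.mp ha
    obtain ⟨hb1, hb2⟩ := Finset.mem_filter.mp hb
    obtain ⟨qa, hqa, rfl⟩ := Finset.mem_image.mp ha1
    obtain ⟨qb, hqb, rfl⟩ := Finset.mem_image.mp hb1
    rw [hr1 qa hqa] at ha2
    rw [hr1 qb hqb] at hb2
    rw [ha2, hb2])
  refine ⟨ψ, fun i hi => ?_⟩
  by_cases hℓ : orderOf (β i) = ℓ
  · right; rw [hℓ]
  left
  have hq : orderOf (β i) ∈ I.image (fun i => orderOf (β i)) := Finset.mem_image_of_mem _ hi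
  obtain ⟨t, ht⟩ := hs i hi (r (orderOf (β i))) (hr _ hq) (hr1 _ hq).symm hℓ
  rcases hψ _ (Finset.mem_image_of_mem r hq) with h2 | h2
  · intro h3
    apply h2
    rw [ht, map_pow, h3, one_pow]
  · exfalso
    rw [hr1 _ hq] at h2
    exact hℓ ((Nat.prime_dvd_prime_iff_eq Fact.out (hp i hi)).mp h2).symm

end cyc

end Pool.Agent.Helper606_LC
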