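import Mathlib
import Pool.Agent.Helper606_LC.Gal

/-!
# Fields of values with at most one noncyclic Sylow subgroup in the Galois group
-/

set_option autoImplicit false
set_option linter.unusedSectionVars false

namespace Pool.Agent.Helper606_LC

open Pool.Agent.H541R3.ART Pool.Agent.W446.AS Pool.Agent.R389

lemma not_dvd_unitary {n d r p : ℕ} (hn : 0 < n) (hd : d ∣ n) (hdc : Nat.Coprime d (n / d))
    (hp : p.Prime) (hpd : p ∣ d) (hpr : p ∣ r) (hr : r ∣ n) :
    ¬ p ^ d.factorization p ∣ n / r := by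
  intro h
  have hd0 : d ≠ 0 := by
    rintro rfl
    rw [zero_dvd_iff] at hd
    omega
  have h1 : p ^ (d.factorization p + 1) ∣ n := by
    rw [← Nat.div_mul_cancel hr, pow_succ]
    exact mul_dvd_mul h hpr
  have h2 : Nat.Coprime (p ^ (d.factorization p + 1)) (n / d) :=
    Nat.Coprime.pow_left _ (Nat.Coprime.coprime_dvd_left hpd hdc)
  have h3 : p ^ (d.factorization p + 1) ∣ d := by
    apply h2.dvd_of_dvd_mul_left
    rw [Nat.div_mul_cancel hd]
    exact h1
  exact Nat.pow_succ_factorization_not_dvd hd0 hp h3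

/-- **Fields of values.** -/
theorem field_cond {G : Type} [Group G] [Finite G] {χ : G → ℂ} (hχ : χ ∈ Irr G) {n : ℕ}
    (hn : 0 < n) (h : ∀ g, χ g ∈ Qc n)
    (hmin : ∀ m : ℕ, 0 < m → (∀ g, χ g ∈ Qc m) → n ≤ m) {d : ℕ} (hd : d ∣ n)
    (hdc : Nat.Coprime d (n / d)) {ℓ r : ℕ} (hℓ : ℓ.Prime) (hr : r ∣ n)
    (hwr : ∀ p ∈ wildP G d.factorization d.primeFactors, p ∣ r)
    (hW : ∀ q : ℕ, q.Prime → q ≠ ℓ →
      ∀ P : Sylow q (Fv (Qc (n / r)) χ ≃ₐ[Qc (n / r)] Fv (Qc (n / r)) χ), IsCyclic P) :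
    HasOrd χ d := by
  classical
  have hd0 : d ≠ 0 := by
    rintro rfl
    rw [zero_dvd_iff] at hd
    omega
  have hN : 0 < Nat.card G * n := Nat.mul_pos Nat.card_pos hn
  set N := Nat.card G * n with hNdef
  have hG : Nat.card G ∣ N := dvd_mul_right _ _
  have hnN : n ∣ N := dvd_mul_left _ _
  have hfin := gam_finite hN hG χ
  have hpr : ∀ p ∈ d.primeFactors, p.Prime := fun p hp => Nat.prime_of_mem_primeFactors hp
  have hpos : ∀ p ∈ d.primeFactors, 0 < d.factorization p := fun p hp =>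
    (hpr p hp).factorization_pos_of_dvd hd0 (Nat.dvd_of_mem_primeFactors hp)
  have hmov : ∀ p ∈ d.primeFactors, ∃ u ∈ Ug N (p ^ d.factorization p), pw u χ ≠ χ :=
    fun p hp => exists_mov hN hG hχ hn hnN h hmin (hpr p hp) (hpos p hp)
      ((Nat.ordProj_dvd d p).trans hd)
  have h1 : ∀ p ∈ d.primeFactors, ∃ v ∈ Ug N (p ^ d.factorization p),
      (orderOf (gmk hN hG χ v)).Prime := by
    intro p hp
    obtain ⟨u, hu, hu1⟩ := hmov p hp
    exact exists_prime_order hN hG hu hu1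
  choose! v hv hv1 using h1
  have hbI : ∀ p ∈ wildP G d.factorization d.primeFactors, p ∈ d.primeFactors :=
    fun p hp => (Finset.mem_filter.mp hp).1
  have hact : ∀ p ∈ wildP G d.factorization d.primeFactors,
      ∃ f : Fv (Qc (n / r)) χ ≃ₐ[Qc (n / r)] Fv (Qc (n / r)) χ, Acts (Qc (n / r)) χ (v p) f := by
    intro p hp
    obtain ⟨σ, hσ⟩ := exists_aut_pow hN (v p)
    refine exists_acts hN hG hχ hσ fun z hz => fix_of_mem (fun w hw => ?_) hz
    have hwN : w ^ N = 1 := by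
      obtain ⟨c, hc⟩ := (Nat.div_dvd_of_dvd hr).trans hnN
      rw [hc, pow_mul, hw, one_pow]
    rw [hσ w hwN]
    refine hv p (hbI p hp) w hwN fun hpw => ?_
    exact not_dvd_unitary hn hd hdc (hpr p (hbI p hp)) (Nat.dvd_of_mem_primeFactors (hbI p hp))
      (hwr p hp) hr (hpw.trans (orderOf_dvd_of_pow_eq_one hw))
  have : Fact ℓ.Prime := ⟨hℓ⟩
  obtain ⟨ψ, hψ⟩ := exists_psi (I := wildP G d.factorization d.primeFactors)
    (β := fun p => gmk hN hG χ (v p)) (fun p hp => hv1 p (hbI p hp)) (ℓ := ℓ) (by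
      intro p hp p' hp' hord hne
      obtain ⟨f, hf⟩ := hact p hp
      obtain ⟨f', hf'⟩ := hact p' hp'
      exact same_sub hN hG (hv1 p (hbI p hp)) (hW _ (hv1 p (hbI p hp)) hne) hf hf' rfl hord.symm)
  have hprod : ∏ p ∈ d.primeFactors, p ^ d.factorization p = d :=
    Nat.prod_factorization_pow_eq_self hd0
  rw [← hprod]
  have : CharP (AlgebraicClosure (ZMod ℓ)) ℓ := inferInstance
  refine main_psi2 hN d.factorization hℓ (ψ.comp (gmk hN hG χ)) _ G hG rfl χ hχ ?_ d.primeFactors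
    hpr hpos hmov ?_
  · intro k hk
    rw [MonoidHom.comp_apply, (gmk_eq_one hN hG χ).mpr hk, map_one]
  · intro p hp
    exact ⟨v p, hv p (hbI p hp), hψ p hp⟩

end Pool.Agent.Helper606_LC
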