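import Mathlib
import Pool.Agent.Helper606_LC.Sc

/-!
# Extension of invariant characters with a determinant condition
-/

set_option autoImplicit false
set_option linter.unusedSectionVars false

namespace Pool.Agent.Helper606_LC

open Pool.Agent.H541R3.ART Pool.Agent.W446.AS Pool.Agent.R389

variable {G : Type} [Group G] [Finite G] {π π' : ℕ → Prop}

lemma one_irrOn (K : Subgroup G) : IrrOn K (fun _ => (1 : ℂ)) := by
  have h := lin_irr (1 : K →* ℂˣ)
  have h1 : (fun h : K => (((1 : K →* ℂˣ) h : ℂˣ) : ℂ)) = fun _ => 1 := by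
    funext h
    rw [MonoidHom.one_apply, Units.val_one]
  rw [h1] at h
  exact h

/-- equal characters, equivalent representations -/
lemma exists_intertwiner {V : Type} [AddCommGroup V] [Module ℂ V] [FiniteDimensional ℂ V]
    {ρ σ : Representation ℂ G V} (hρ : Irred ρ) (hσ : Irred σ) (h : ρ.character = σ.character) :
    ∃ T : V ≃ₗ[ℂ] V, ∀ g v, T (ρ g v) = σ g (T v) := by
  classical
  have : Fintype G := Fintype.ofFinite G
  have : Invertible (Nat.card G : ℂ) := invertibleOfNonzero card_ne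
  have h1 := (irred_iff ρ).mp hρ
  have h2 := (irred_iff σ).mp hσ
  have h3 := Representation.char_orthonormal σ ρ
  have h4 : (Nat.card G : ℂ)⁻¹ * ∑ g : G, σ.character g * ρ.character g⁻¹ = 1 := by
    rw [← pr_eq, ← h, pr_self (irr_of_irred hρ)]
  by_cases hne : Nonempty (Representation.Equiv ρ σ)
  · obtain ⟨e⟩ := hne
    exact ⟨e.toLinearEquiv, fun g v => Representation.IntertwiningMap.isIntertwining ρ σ e.toIntertwiningMap g v⟩
  · rw [if_neg hne, h4] at h3
    exact absurd h3 one_ne_zero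

/-- every element lies in `K` times a `π'`-element when the index of `K` is a `π'`-number -/
def Stp (π' : ℕ → Prop) (K L : Subgroup G) : Prop := ∀ g ∈ L, ∃ m : ℕ, IsPi π' m ∧ g ^ m ∈ K

lemma pi_mem (hc : Cpl π π') {K L : Subgroup G} (h : Stp π' K L) {x : G} (hx : x ∈ L)
    (hxo : IsPi π (orderOf x)) : x ∈ K := by
  obtain ⟨m, hm, hm1⟩ := h x hx
  exact mem_of_coprime hm1 (hxo.coprime hc hm)

lemma pow_eq_one_of_coprime {M : Type*} [Monoid M] {z : M} {a b : ℕ} (ha : z ^ a = 1)
    (hb : z ^ b = 1) (h : Nat.Coprime a b) : z = 1 := by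
  have h1 : orderOf z ∣ Nat.gcd a b :=
    Nat.dvd_gcd (orderOf_dvd_of_pow_eq_one ha) (orderOf_dvd_of_pow_eq_one hb)
  rw [Nat.coprime_iff_gcd_eq_one.mp h] at h1
  exact orderOf_eq_one_iff.mp (Nat.dvd_one.mp h1)

/-- **Uniqueness of the canonical extension.** -/
theorem ext_unique (hc : Cpl π π') {K : Subgroup G} (hK : K.Normal) (hstep : Stp π' K ⊤)
    {ν α α' : G → ℂ} (hα : α ∈ Irr G) (hα' : α' ∈ Irr G) (hν : IrrOn K ν)
    (h : ∀ k ∈ K, α k = ν k) (h' : ∀ k ∈ K, α' k = ν k) {d : ℕ} (hd : ν 1 = d) (hdπ : IsPi π d)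
    (hD : ∀ g, IsPi π' (orderOf g) → dt α g = 1) (hD' : ∀ g, IsPi π' (orderOf g) → dt α' g = 1) :
    α = α' := by
  have h1 := one_mem K
  have hα1 : α 1 = d := (h 1 h1).trans hd
  have hα'1 : α' 1 = d := (h' 1 h1).trans hd
  have hd0 : (d : ℂ) ≠ 0 := by rw [← hd]; exact irrOn_one_ne hν
  have hmul : IrrOn K (α * fun _ => (1 : ℂ)) := by
    refine irrOn_congr (fun k hk => ?_) hν
    rw [Pi.mul_apply, mul_one, h k hk]
  obtain ⟨-, -, key⟩ := mul_corr hK (irr_chr hα) (one_irrOn K) (fun _ _ _ => rfl) hmul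
  obtain ⟨μ, hμ, hμK, rfl⟩ := key α' hα' (by
    intro k hk
    rw [Pi.mul_apply, Pi.mul_apply, mul_one, mul_one, h k hk, h' k hk, h 1 h1, h' 1 h1]
    ring)
  have hμ1 : μ 1 = 1 := by
    rw [Pi.mul_apply, hα1] at hα'1
    exact mul_left_cancel₀ hd0 (by rw [hα'1, mul_one])
  obtain ⟨lam, hlam⟩ := irr_deg_one hμ hμ1
  have hker : ∀ k ∈ K, lam k = 1 := by
    intro k hk
    apply Units.ext
    rw [← hlam, Units.val_one]
    have := hμK k hk
    rwa [mul_one, hμ1, one_mul] at this
  have hpi : ∀ y : G, IsPi π' (orderOf y) → lam y = 1 := by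
    intro y hy
    obtain ⟨n, ρ, hρ, hρα⟩ := exists_rep hα
    let σ : Representation ℂ G (Fin n → ℂ) :=
      { toFun := fun g => ((lam g : ℂˣ) : ℂ) • ρ g
        map_one' := by simp
        map_mul' := by
          intro a b
          rw [map_mul, map_mul, Units.val_mul, smul_mul_smul_comm] }
    have h2 : σ.character = α * μ := by
      funext g
      change LinearMap.trace ℂ _ (((lam g : ℂˣ) : ℂ) • ρ g) = _
      rw [map_smul, smul_eq_mul, Pi.mul_apply, hlam, hρα, mul_comm]
      rfl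
    have h3 := det_dt σ y
    rw [h2, hD' y hy] at h3
    have h4 : LinearMap.det (σ y) = ((lam y : ℂˣ) : ℂ) ^ n * LinearMap.det (ρ y) := by
      change LinearMap.det (((lam y : ℂˣ) : ℂ) • ρ y) = _
      rw [LinearMap.det_smul]
      simp
    rw [h4, det_dt, ← hρα, hD y hy, mul_one] at h3
    have hn : n = d := by
      have h5 : ρ.character 1 = (Module.finrank ℂ (Fin n → ℂ) : ℂ) := ρ.char_one
      rw [← hρα, hα1] at h5
      have h6 : (d : ℂ) = (n : ℂ) := by simpa using h5
      exact_mod_cast h6.symm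
    have h5 : lam y ^ d = 1 := by
      apply Units.ext
      rw [Units.val_pow_eq_pow_val, ← hn, h3, Units.val_one]
    have h6 : lam y ^ orderOf y = 1 := by rw [← map_pow, pow_orderOf_eq_one, map_one]
    exact pow_eq_one_of_coprime h5 h6 (hdπ.coprime hc hy)
  funext g
  obtain ⟨x, y, hg, hx, hy, -, -⟩ := elt_split hc g
  have h2 : lam g = 1 := by
    rw [hg, map_mul, hker x (pi_mem hc hstep (Subgroup.mem_top x) hx), hpi y hy, one_mul]
  rw [Pi.mul_apply, hlam, h2, Units.val_one, mul_one]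

end Pool.Agent.Helper606_LC
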