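import Mathlib
import Pool.Agent.Helper606_LC.Sd

/-!
# Existence of the canonical extension
-/

set_option autoImplicit false
set_option linter.unusedSectionVars false

namespace Pool.Agent.Helper606_LC

open Pool.Agent.H541R3.ART Pool.Agent.W446.AS Pool.Agent.R389

variable {G : Type} [Group G] [Finite G] {π π' : ℕ → Prop}

lemma index_pi {K : Subgroup G} (hK : K.Normal) (hstep : Stp π' K ⊤) : IsPi π' K.index := by
  intro q hq hqd
  have : Fact q.Prime := ⟨hq⟩
  rw [Subgroup.index_eq_card] at hqd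
  obtain ⟨x, hx⟩ := exists_prime_orderOf_dvd_card' q hqd
  obtain ⟨g, rfl⟩ := QuotientGroup.mk_surjective x
  obtain ⟨m, hm, hm1⟩ := hstep g (Subgroup.mem_top g)
  refine hm q hq ?_
  rw [← hx]
  apply orderOf_dvd_of_pow_eq_one
  rw [← QuotientGroup.mk_pow]
  exact (QuotientGroup.eq_one_iff _).mpr hm1

/-- a function on `G` with values in cosets of `K` and its multiplicativity properties -/
lemma exists_section (K : Subgroup G) : ∃ r : G → G, (∀ k ∈ K, r k = 1) ∧
    (∀ g, ∀ k ∈ K, r (g * k) = r g) ∧ ∀ g, (r g)⁻¹ * g ∈ K := by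
  classical
  refine ⟨fun g => if g ∈ K then 1 else (g : G ⧸ K).out, ?_, ?_, ?_⟩
  · intro k hk
    exact if_pos hk
  · intro g k hk
    by_cases hg : g ∈ K
    · simp only
      rw [if_pos hg, if_pos (K.mul_mem hg hk)]
    · have h1 : g * k ∉ K := fun h => hg (by
        have h2 := K.mul_mem h (K.inv_mem hk)
        rwa [mul_inv_cancel_right] at h2)
      simp only
      rw [if_neg hg, if_neg h1, QuotientGroup.mk_mul_of_mem g hk]
  · intro g
    by_cases hg : g ∈ K
    · simp only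
      rw [if_pos hg, inv_one, one_mul]
      exact hg
    · simp only
      rw [if_neg hg]
      obtain ⟨h, hh⟩ := QuotientGroup.mk_out_eq_mul K g
      rw [hh, mul_inv_rev, inv_mul_cancel_right]
      exact K.inv_mem h.2

/-- normalized intertwiners -/
lemma exists_norm_intertwiner {K : Subgroup G} (hK : K.Normal) {n : ℕ}
    {σ : Representation ℂ K (Fin n → ℂ)} (hσ : Irred σ)
    (hinv : ∀ g : G, ∀ k : K, ∀ hk : g * k * g⁻¹ ∈ K, σ.character ⟨g * k * g⁻¹, hk⟩ = σ.character k)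
    (g : G) : ∃ T : Module.End ℂ (Fin n → ℂ), LinearMap.det T = 1 ∧
      ∀ (k : K) (hk : g * k * g⁻¹ ∈ K), T * σ k = σ ⟨g * k * g⁻¹, hk⟩ * T := by
  have hn := hσ.1
  have hn0 : n ≠ 0 := by
    rintro rfl
    exact not_subsingleton (Fin 0 → ℂ) inferInstance
  let c : K →* K := (MulAut.conjNormal g : MulAut K).toMonoidHom
  have hc : ∀ k : K, ((c k : K) : G) = g * k * g⁻¹ := fun k => MulAut.conjNormal_apply g k
  have hirr : Irred (σ.comp c) := by
    refine ⟨hσ.1, fun W hW => hσ.2 W fun k v hv => ?_⟩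
    obtain ⟨k', rfl⟩ := (MulAut.conjNormal g : MulAut K).surjective k
    exact hW k' v hv
  have hch : σ.character = Representation.character (σ.comp c) := by
    funext k
    change σ.character k = σ.character (c k)
    have h1 : g * k * g⁻¹ ∈ K := hK.conj_mem k k.2 g
    have h2 : c k = ⟨g * k * g⁻¹, h1⟩ := Subtype.ext (hc k)
    rw [h2, hinv g k h1]
  obtain ⟨T, hT⟩ := exists_intertwiner hσ hirr hch
  have hdet : LinearMap.det (T : (Fin n → ℂ) →ₗ[ℂ] (Fin n → ℂ)) ≠ 0 :=
    (LinearEquiv.isUnit_det' T).ne_zero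
  obtain ⟨z, hz⟩ := IsAlgClosed.exists_pow_nat_eq
    ((LinearMap.det (T : (Fin n → ℂ) →ₗ[ℂ] (Fin n → ℂ)))⁻¹) (Nat.pos_of_ne_zero hn0)
  refine ⟨z • (T : (Fin n → ℂ) →ₗ[ℂ] (Fin n → ℂ)), ?_, ?_⟩
  · rw [LinearMap.det_smul, Module.finrank_fin_fun, hz, inv_mul_cancel₀ hdet]
  · intro k hk
    rw [smul_mul_assoc, mul_smul_comm]
    congr 1
    apply LinearMap.ext
    intro v
    have h1 : c k = ⟨g * k * g⁻¹, hk⟩ := Subtype.ext (hc k)
    have h2 := hT k v
    change T (σ k v) = σ ⟨g * k * g⁻¹, hk⟩ (T v)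
    rw [h2, ← h1]
    rfl

/-- **From a projective representation to a representation.** -/
lemma lift_proj {K : Subgroup G} (hK : K.Normal) {n a : ℕ} (hn : n ≠ 0)
    (T : G → Module.End ℂ (Fin n → ℂ)) (hT1 : T 1 = 1)
    (hTK : ∀ g, ∀ k ∈ K, T (g * k) = T g * T k)
    (hcomm : ∀ g, ∀ k ∈ K, T g * T k = T (g * k * g⁻¹) * T g)
    (hdet : ∀ g, LinearMap.det (T g) ^ a = 1) (ha : a ≠ 0)
    (hsc : ∀ g h, ∃ c : ℂ, T g * T h = c • T (g * h))
    (hcop : Nat.Coprime K.index (n * a)) :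
    ∃ ρ : Representation ℂ G (Fin n → ℂ), (∀ k ∈ K, ρ k = T k) ∧
      ∀ g, LinearMap.det (ρ g) ^ (n * a) = 1 := by
  classical
  have : Fintype (G ⧸ K) := Fintype.ofFinite _
  choose c hc using hsc
  have hnt : Nonempty (Fin n) := ⟨⟨0, Nat.pos_of_ne_zero hn⟩⟩
  have hT0 : ∀ g, T g ≠ 0 := by
    intro g h
    have h1 := hdet g
    rw [h, LinearMap.det_zero'', zero_pow ha] at h1
    exact zero_ne_one h1
  have hcancel : ∀ (g : G) (x y : ℂ), x • T g = y • T g → x = y := fun g x y h =>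
    smul_left_injective ℂ (hT0 g) h
  have hcE : ∀ g h, c g h ^ (n * a) = 1 := by
    intro g h
    have h1 := congrArg LinearMap.det (hc g h)
    rw [map_mul, LinearMap.det_smul, Module.finrank_fin_fun] at h1
    have h2 := congrArg (fun z => z ^ a) h1
    simp only [mul_pow, hdet, mul_one] at h2
    rw [pow_mul]
    exact h2.symm
  have hc0 : ∀ g h, c g h ≠ 0 := by
    intro g h h0
    have h1 := hcE g h
    rw [h0, zero_pow (Nat.mul_ne_zero hn ha)] at h1
    exact zero_ne_one h1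
  have hconj : ∀ g : G, ∀ k ∈ K, g⁻¹ * k * g ∈ K := by
    intro g k hk
    have := hK.conj_mem k hk g⁻¹
    rwa [inv_inv] at this
  -- `T k * T h = T (k * h)` for `k ∈ K`
  have hleft : ∀ k ∈ K, ∀ h, T k * T h = T (k * h) := by
    intro k hk h
    have h1 := hcomm h (h⁻¹ * k * h) (hconj h k hk)
    have h2 : h * (h⁻¹ * k * h) * h⁻¹ = k := by group
    have h3 : h * (h⁻¹ * k * h) = k * h := by group
    rw [h2, ← hTK h _ (hconj h k hk), h3] at h1
    exact h1.symm
  have hc2 : ∀ g h, ∀ k ∈ K, c g (h * k) = c g h := by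
    intro g h k hk
    apply hcancel (g * (h * k))
    calc c g (h * k) • T (g * (h * k)) = T g * T (h * k) := (hc g (h * k)).symm
      _ = T g * T h * T k := by rw [hTK h k hk, mul_assoc]
      _ = (c g h • T (g * h)) * T k := by rw [hc g h]
      _ = c g h • T (g * h * k) := by rw [smul_mul_assoc, ← hTK (g * h) k hk]
      _ = c g h • T (g * (h * k)) := by rw [mul_assoc g h k]
  have hc1 : ∀ g h, ∀ k ∈ K, c (g * k) h = c g h := by
    intro g h k hk
    apply hcancel (g * k * h)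
    have h3 : g * (h * (h⁻¹ * k * h)) = g * k * h := by group
    have h4 : k * h = h * (h⁻¹ * k * h) := by group
    calc c (g * k) h • T (g * k * h) = T (g * k) * T h := (hc (g * k) h).symm
      _ = T g * (T k * T h) := by rw [hTK g k hk, mul_assoc]
      _ = T g * T (h * (h⁻¹ * k * h)) := by rw [hleft k hk h, h4]
      _ = c g (h * (h⁻¹ * k * h)) • T (g * (h * (h⁻¹ * k * h))) := hc g _
      _ = c g h • T (g * k * h) := by rw [hc2 g h _ (hconj h k hk), h3]
  have hcK : ∀ k ∈ K, ∀ h, c k h = 1 := by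
    intro k hk h
    apply hcancel (k * h)
    rw [← hc k h, hleft k hk h, one_smul]
  have hassoc : ∀ g h l, c g h * c (g * h) l = c h l * c g (h * l) := by
    intro g h l
    apply hcancel (g * h * l)
    rw [mul_smul, ← hc (g * h) l, ← smul_mul_assoc, ← hc g h, mul_assoc, hc h l, mul_smul_comm,
      hc g (h * l), smul_smul, ← mul_assoc g h l]
  let b : G → ℂ := fun g => ∏ q : G ⧸ K, c g q.out
  have hb0 : ∀ g, b g ≠ 0 := fun g => Finset.prod_ne_zero_iff.mpr fun q _ => hc0 g q.out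
  have hbE : ∀ g, b g ^ (n * a) = 1 := by
    intro g
    rw [← Finset.prod_pow]
    exact Finset.prod_eq_one fun q _ => hcE g q.out
  have hbK : ∀ k ∈ K, b k = 1 := fun k hk => Finset.prod_eq_one fun q _ => hcK k hk q.out
  have hbb : ∀ g h, b g * b h = c g h ^ K.index * b (g * h) := by
    intro g h
    have h1 : ∏ q : G ⧸ K, (c g h * c (g * h) q.out) = ∏ q : G ⧸ K, (c h q.out * c g (h * q.out)) :=
      Finset.prod_congr rfl fun q _ => hassoc g h q.out
    rw [Finset.prod_mul_distrib, Finset.prod_mul_distrib, Finset.prod_const, Finset.card_univ,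
      ← Nat.card_eq_fintype_card, ← Subgroup.index_eq_card] at h1
    have h2 : ∏ q : G ⧸ K, c g (h * q.out) = b g := by
      change _ = ∏ q : G ⧸ K, c g q.out
      rw [← Equiv.prod_comp (MulAction.toPerm h : Equiv.Perm (G ⧸ K)) (fun q => c g q.out)]
      refine Finset.prod_congr rfl fun q _ => ?_
      have h3 : ((h * q.out : G) : G ⧸ K) = h • q := by
        conv_rhs => rw [← QuotientGroup.out_eq' q]
        rfl
      obtain ⟨k, hk⟩ := QuotientGroup.mk_out_eq_mul K (h * q.out)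
      change c g (h * q.out) = c g (h • q).out
      rw [← h3, hk, hc2 g _ k k.2]
    rw [h2] at h1
    change b g * b h = c g h ^ K.index * ∏ q : G ⧸ K, c (g * h) q.out
    rw [h1, mul_comm]
  have hbez : ∃ u v : ℤ, (K.index : ℤ) * u + ((n * a : ℕ) : ℤ) * v = 1 := by
    have h1 := Nat.gcd_eq_gcd_ab K.index (n * a)
    rw [Nat.coprime_iff_gcd_eq_one.mp hcop] at h1
    exact ⟨_, _, h1.symm⟩
  obtain ⟨u, v, huv⟩ := hbez
  let s : G → ℂ := fun g => b g ^ u
  have hs0 : ∀ g, s g ≠ 0 := fun g => zpow_ne_zero u (hb0 g)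
  have hss : ∀ g h, s g * s h = c g h * s (g * h) := by
    intro g h
    change b g ^ u * b h ^ u = c g h * b (g * h) ^ u
    rw [← mul_zpow, hbb, mul_zpow]
    congr 1
    have h1 : c g h ^ ((K.index : ℤ) * u + ((n * a : ℕ) : ℤ) * v) = c g h := by
      rw [huv, zpow_one]
    rw [zpow_add₀ (hc0 g h), zpow_mul, zpow_mul, zpow_natCast, zpow_natCast, hcE, one_zpow,
      mul_one] at h1
    exact h1
  have hsK : ∀ k ∈ K, s k = 1 := by
    intro k hk
    change b k ^ u = 1
    rw [hbK k hk, one_zpow]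
  have hsE : ∀ g, s g ^ (n * a) = 1 := by
    intro g
    change (b g ^ u) ^ (n * a) = 1
    rw [← zpow_natCast, ← zpow_mul, mul_comm u, zpow_mul, zpow_natCast, hbE, one_zpow]
  let ρ : Representation ℂ G (Fin n → ℂ) :=
    { toFun := fun g => (s g)⁻¹ • T g
      map_one' := by rw [hsK 1 K.one_mem, inv_one, one_smul, hT1]
      map_mul' := by
        intro g h
        rw [smul_mul_smul_comm, hc g h, smul_smul, ← mul_inv, hss, mul_inv, mul_right_comm,
          inv_mul_cancel₀ (hc0 g h), one_mul] }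
  refine ⟨ρ, ?_, ?_⟩
  · intro k hk
    change (s k)⁻¹ • T k = T k
    rw [hsK k hk, inv_one, one_smul]
  · intro g
    change LinearMap.det ((s g)⁻¹ • T g) ^ (n * a) = 1
    have h1 : ((s g)⁻¹ ^ n) ^ (n * a) = 1 := by
      rw [← pow_mul, mul_comm n, pow_mul, inv_pow, hsE, inv_one, one_pow]
    have h2 : LinearMap.det (T g) ^ (n * a) = 1 := by
      rw [mul_comm n, pow_mul, hdet, one_pow]
    rw [LinearMap.det_smul, Module.finrank_fin_fun, mul_pow, h1, h2, one_mul]

/-- **Existence of the canonical extension.** -/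
theorem ext_exists (hc : Cpl π π') {K : Subgroup G} (hK : K.Normal) (hstep : Stp π' K ⊤)
    {ν : G → ℂ} (hν : IrrOn K ν) (hinv : ∀ g, ∀ k ∈ K, ν (g * k * g⁻¹) = ν k) {d : ℕ}
    (hd : ν 1 = d) (hdπ : IsPi π d) (hD : ∀ k ∈ K, IsPi π' (orderOf k) → dt ν k = 1) :
    ∃ α ∈ Irr G, (∀ k ∈ K, α k = ν k) ∧ ∀ g, IsPi π' (orderOf g) → dt α g = 1 := by
  classical
  obtain ⟨n, σ, hσ, hσν⟩ := exists_rep hν
  have hσν' : ∀ k : K, σ.character k = ν k := fun k => (congrFun hσν k).symm
  have hnt := hσ.1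
  have hn : n ≠ 0 := by
    rintro rfl
    exact not_subsingleton (Fin 0 → ℂ) inferInstance
  have hnd : n = d := by
    have h5 : σ.character 1 = (Module.finrank ℂ (Fin n → ℂ) : ℂ) := σ.char_one
    rw [hσν' 1, OneMemClass.coe_one, hd] at h5
    have h6 : (d : ℂ) = (n : ℂ) := by simpa using h5
    exact_mod_cast h6.symm
  -- the order of the determinant
  obtain ⟨a, b, hab, ha, hb⟩ := exists_split hc (Nat.card K) Nat.card_pos
  have ha0 : a ≠ 0 := by
    rintro rfl
    rw [zero_mul] at hab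
    exact Nat.card_pos.ne' hab
  have hdetK : ∀ k : K, LinearMap.det (σ k) ^ a = 1 := by
    intro k
    obtain ⟨x, y, hk, hx, hy, -, -⟩ := elt_split hc k
    have h1 : LinearMap.det (σ y) = 1 := by
      rw [det_dt, ← hσν, dt_sub ν y]
      exact hD y y.2 (by rw [Subgroup.orderOf_coe]; exact hy)
    have h2 : LinearMap.det (σ x) ^ a = 1 := by
      have h3 : orderOf x ∣ a := by
        have h4 : orderOf x ∣ a * b := by rw [← hab]; exact orderOf_dvd_natCard x
        exact (hx.coprime hc hb).dvd_of_dvd_mul_right h4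
      rw [← map_pow, ← map_pow, orderOf_dvd_iff_pow_eq_one.mp h3, map_one, map_one]
    rw [hk, map_mul, map_mul, h1, mul_one, h2]
  -- the intertwiners
  have hinv' : ∀ g : G, ∀ k : K, ∀ hk : g * k * g⁻¹ ∈ K,
      σ.character ⟨g * k * g⁻¹, hk⟩ = σ.character k := by
    intro g k hk
    rw [hσν', hσν']
    exact hinv g k k.2
  choose U₀ hU₀ hU₀' using exists_norm_intertwiner hK hσ hinv'
  let U : G → Module.End ℂ (Fin n → ℂ) := fun g => if g = 1 then 1 else U₀ g
  have hU : ∀ g, LinearMap.det (U g) = 1 := by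
    intro g
    by_cases hg : g = 1
    · change LinearMap.det (if g = 1 then 1 else U₀ g) = 1
      rw [if_pos hg, map_one]
    · change LinearMap.det (if g = 1 then 1 else U₀ g) = 1
      rw [if_neg hg, hU₀]
  let S : G → Module.End ℂ (Fin n → ℂ) := fun g => if h : g ∈ K then σ ⟨g, h⟩ else 1
  have hS : ∀ g (h : g ∈ K), S g = σ ⟨g, h⟩ := fun g h => dif_pos h
  have hSmul : ∀ k ∈ K, ∀ l ∈ K, S (k * l) = S k * S l := by
    intro k hk l hl
    rw [hS k hk, hS l hl, hS _ (K.mul_mem hk hl), ← map_mul]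
    rfl
  have hUS : ∀ g, ∀ k ∈ K, U g * S k = S (g * k * g⁻¹) * U g := by
    intro g k hk
    by_cases hg : g = 1
    · have h1 : U g = 1 := if_pos hg
      rw [h1, mul_one, one_mul, hg, one_mul, inv_one, mul_one]
    · have h1 : U g = U₀ g := if_neg hg
      rw [h1, hS k hk, hS _ (hK.conj_mem k hk g)]
      exact hU₀' g ⟨k, hk⟩ (hK.conj_mem k hk g)
  have hSdet : ∀ k ∈ K, LinearMap.det (S k) ^ a = 1 := by
    intro k hk
    rw [hS k hk]
    exact hdetK _
  obtain ⟨r, hr1, hr2, hr3⟩ := exists_section K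
  let T : G → Module.End ℂ (Fin n → ℂ) := fun g => U (r g) * S ((r g)⁻¹ * g)
  have hTk : ∀ k ∈ K, T k = S k := by
    intro k hk
    change U (r k) * S ((r k)⁻¹ * k) = S k
    have h1 : U 1 = 1 := if_pos rfl
    rw [hr1 k hk, inv_one, one_mul, h1, one_mul]
  have hTS : ∀ g, ∀ k ∈ K, T (g * k) = T g * S k := by
    intro g k hk
    change U (r (g * k)) * S ((r (g * k))⁻¹ * (g * k)) = U (r g) * S ((r g)⁻¹ * g) * S k
    rw [hr2 g k hk, ← mul_assoc, hSmul _ (hr3 g) k hk, mul_assoc]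
  have hTcomm : ∀ g, ∀ k ∈ K, T g * S k = S (g * k * g⁻¹) * T g := by
    intro g k hk
    change U (r g) * S ((r g)⁻¹ * g) * S k = S (g * k * g⁻¹) * (U (r g) * S ((r g)⁻¹ * g))
    have h1 : (r g)⁻¹ * g * k = ((r g)⁻¹ * g * k * g⁻¹ * r g) * ((r g)⁻¹ * g) := by group
    have h2 : (r g)⁻¹ * g * k * g⁻¹ * r g ∈ K := by
      have := hK.conj_mem k hk ((r g)⁻¹ * g)
      rwa [mul_inv_rev, inv_inv, ← mul_assoc] at this
    have h3 : r g * ((r g)⁻¹ * g * k * g⁻¹ * r g) * (r g)⁻¹ = g * k * g⁻¹ := by group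
    rw [mul_assoc, ← hSmul _ (hr3 g) k hk, h1, hSmul _ h2 _ (hr3 g), ← mul_assoc, hUS _ _ h2, h3,
      mul_assoc]
  have hTdet : ∀ g, LinearMap.det (T g) ^ a = 1 := by
    intro g
    change LinearMap.det (U (r g) * S ((r g)⁻¹ * g)) ^ a = 1
    rw [map_mul, hU, one_mul]
    exact hSdet _ (hr3 g)
  have hTunit : ∀ g, IsUnit (T g) := by
    intro g
    have h1 : IsUnit (LinearMap.det (T g)) := by
      refine IsUnit.of_pow_eq_one (hTdet g) ha0
    exact (LinearMap.isUnit_iff_isUnit_det _).mpr h1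
  have hsc : ∀ g h, ∃ c : ℂ, T g * T h = c • T (g * h) := by
    intro g h
    obtain ⟨u, hu⟩ := hTunit (g * h)
    obtain ⟨c, hc1⟩ := hσ.scalar ((u⁻¹ : (Module.End ℂ (Fin n → ℂ))ˣ) * (T g * T h)) (by
      intro k v
      have h1 : T g * T h * S k = S (g * h * k * (g * h)⁻¹) * (T g * T h) := by
        have h2 : g * (h * k * h⁻¹) * g⁻¹ = g * h * k * (g * h)⁻¹ := by group
        rw [mul_assoc, hTcomm h k k.2, ← mul_assoc, hTcomm g _ (hK.conj_mem k k.2 h), h2,
          mul_assoc]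
      have h2 : ((u⁻¹ : (Module.End ℂ (Fin n → ℂ))ˣ) : Module.End ℂ (Fin n → ℂ))
          * S (g * h * k * (g * h)⁻¹) = S k * (u⁻¹ : (Module.End ℂ (Fin n → ℂ))ˣ) := by
        rw [Units.inv_mul_eq_iff_eq_mul, ← mul_assoc, Units.eq_mul_inv_iff_mul_eq, hu,
          hTcomm (g * h) k k.2]
      have h3 : ((u⁻¹ : (Module.End ℂ (Fin n → ℂ))ˣ) * (T g * T h)) * S k
          = S k * ((u⁻¹ : (Module.End ℂ (Fin n → ℂ))ˣ) * (T g * T h)) := by
        rw [mul_assoc, h1, ← mul_assoc, h2, mul_assoc]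
      rw [hS k k.2] at h3
      exact LinearMap.congr_fun h3 v)
    refine ⟨c, ?_⟩
    have h4 : ((u⁻¹ : (Module.End ℂ (Fin n → ℂ))ˣ) * (T g * T h)) = c • (1 : Module.End ℂ (Fin n → ℂ)) := by
      apply LinearMap.ext
      intro v
      rw [hc1 v]
      rfl
    rw [Units.inv_mul_eq_iff_eq_mul, hu, mul_smul_comm, mul_one] at h4
    exact h4
  have hcop : Nat.Coprime K.index (n * a) := by
    have h1 : IsPi π (n * a) := by
      rw [hnd]
      exact hdπ.mul ha
    exact (h1.coprime hc (index_pi hK hstep)).symm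
  obtain ⟨ρ, hρK, hρdet⟩ := lift_proj hK hn T (by
      rw [hTk 1 K.one_mem, hS 1 K.one_mem]
      exact map_one σ) (fun g k hk => by rw [hTS g k hk, hTk k hk])
    (fun g k hk => by rw [hTk k hk, hTk _ (hK.conj_mem k hk g), hTcomm g k hk]) hTdet ha0 hsc hcop
  have hρσ : ∀ k : K, ρ k = σ k := by
    intro k
    rw [hρK k k.2, hTk k k.2, hS k k.2]
  have hirr : Irred ρ := by
    refine ⟨hσ.1, fun W hW => hσ.2 W fun k v hv => ?_⟩
    rw [← hρσ k]
    exact hW k v hv
  refine ⟨ρ.character, irr_of_irred hirr, ?_, ?_⟩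
  · intro k hk
    rw [← hσν' ⟨k, hk⟩]
    change LinearMap.trace ℂ _ (ρ k) = LinearMap.trace ℂ _ (σ ⟨k, hk⟩)
    rw [← hρσ ⟨k, hk⟩]
  · intro g hg
    rw [← det_dt]
    have h1 : LinearMap.det (ρ g) ^ orderOf g = 1 := by
      rw [← map_pow, ← map_pow, pow_orderOf_eq_one, map_one, map_one]
    refine pow_eq_one_of_coprime (hρdet g) h1 ?_
    have h2 : IsPi π (n * a) := by
      rw [hnd]
      exact hdπ.mul ha
    exact h2.coprime hc hg

end Pool.Agent.Helper606_LC
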