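import Mathlib
import Pool.Agent.Helper606_LC.Sd2

/-!
# Groups with a normal series whose steps are of two complementary types
-/

set_option autoImplicit false
set_option linter.unusedSectionVars false

namespace Pool.Agent.Helper606_LC

open Pool.Agent.H541R3.ART Pool.Agent.W446.AS Pool.Agent.R389

variable {π π' : ℕ → Prop}

/-- a normal series with steps of type `π` or `π'` -/
def PS (π π' : ℕ → Prop) (G : Type) [Group G] : Prop :=
  ∃ (r : ℕ) (M : ℕ → Subgroup G), M 0 = ⊥ ∧ M r = ⊤ ∧ (∀ i, (M i).Normal) ∧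
    (∀ i, M i ≤ M (i + 1)) ∧ ∀ i, Stp π (M i) (M (i + 1)) ∨ Stp π' (M i) (M (i + 1))

lemma PS.sub {G : Type} [Group G] (h : PS π π' G) (H : Subgroup G) : PS π π' H := by
  obtain ⟨r, M, h0, hr, hn, hle, hst⟩ := h
  have key : ∀ (ρ : ℕ → Prop) (i : ℕ), Stp ρ (M i) (M (i + 1)) →
      Stp ρ ((M i).subgroupOf H) ((M (i + 1)).subgroupOf H) := by
    intro ρ i h g hg
    obtain ⟨m, hm, hm1⟩ := h g (Subgroup.mem_subgroupOf.mp hg)
    exact ⟨m, hm, Subgroup.mem_subgroupOf.mpr hm1⟩
  refine ⟨r, fun i => (M i).subgroupOf H, ?_, ?_, ?_, ?_, ?_⟩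
  · change (M 0).subgroupOf H = ⊥
    rw [h0]
    exact Subgroup.bot_subgroupOf H
  · change (M r).subgroupOf H = ⊤
    rw [hr]
    exact Subgroup.top_subgroupOf H
  · intro i
    have := hn i
    infer_instance
  · intro i x hx
    exact Subgroup.mem_subgroupOf.mpr (hle i (Subgroup.mem_subgroupOf.mp hx))
  · intro i
    exact (hst i).imp (key π i) (key π' i)

lemma PS.map {G Y : Type} [Group G] [Group Y] (h : PS π π' G) {f : G →* Y}
    (hf : Function.Surjective f) : PS π π' Y := by
  obtain ⟨r, M, h0, hr, hn, hle, hst⟩ := h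
  have key : ∀ (ρ : ℕ → Prop) (i : ℕ), Stp ρ (M i) (M (i + 1)) →
      Stp ρ ((M i).map f) ((M (i + 1)).map f) := by
    rintro ρ i h _ ⟨g, hg, rfl⟩
    obtain ⟨m, hm, hm1⟩ := h g hg
    exact ⟨m, hm, g ^ m, hm1, map_pow f g m⟩
  refine ⟨r, fun i => (M i).map f, ?_, ?_, ?_, ?_, ?_⟩
  · change (M 0).map f = ⊥
    rw [h0]
    exact Subgroup.map_bot f
  · change (M r).map f = ⊤
    rw [hr]
    exact Subgroup.map_top_of_surjective f hf
  · intro i
    exact (hn i).map f hf
  · intro i
    exact Subgroup.map_mono (hle i)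
  · intro i
    exact (hst i).imp (key π i) (key π' i)

variable {G : Type} [Group G] [Finite G]

lemma card_pi {L : Subgroup G} (h : Stp π ⊥ L) : IsPi π (Nat.card L) := by
  intro q hq hqd
  have : Fact q.Prime := ⟨hq⟩
  obtain ⟨x, hx⟩ := exists_prime_orderOf_dvd_card' q hqd
  obtain ⟨m, hm, hm1⟩ := h x x.2
  refine hm q hq ?_
  rw [← hx]
  apply orderOf_dvd_of_pow_eq_one
  apply Subtype.ext
  exact Subgroup.mem_bot.mp hm1

/-- **Existence of Hall subgroups.** -/
theorem hall_exists (hc : Cpl π π') : ∀ (n : ℕ) (G : Type) [Group G] [Finite G], Nat.card G = n →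
    PS π π' G → ∃ S : Subgroup G, IsPi π (Nat.card S) ∧ IsPi π' S.index := by
  intro n
  induction n using Nat.strong_induction_on with
  | _ n ih =>
  intro G _ _ hn hPS
  classical
  by_cases htriv : (⊤ : Subgroup G) = ⊥
  · refine ⟨⊤, ?_, ?_⟩
    · rw [htriv, Subgroup.card_bot]
      exact IsPi.one
    · rw [Subgroup.index_top]
      exact IsPi.one
  obtain ⟨r, M, h0, hr, hnm, hle, hst⟩ := id hPS
  have hex : ∃ j, M j ≠ ⊥ := ⟨r, by rw [hr]; exact htriv⟩
  have hj := Nat.find_spec hex
  have hmin : ∀ i < Nat.find hex, M i = ⊥ := fun i hi => not_not.mp (Nat.find_min hex hi)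
  set j := Nat.find hex
  have hj0 : j ≠ 0 := by
    intro h
    rw [h] at hj
    exact hj h0
  obtain ⟨i, hi⟩ := Nat.exists_eq_succ_of_ne_zero hj0
  have hi' : j = i + 1 := hi
  have hbot : M i = ⊥ := hmin i (by omega)
  have hstL : Stp π ⊥ (M j) ∨ Stp π' ⊥ (M j) := by
    have := hst i
    rwa [hbot, ← hi'] at this
  have hLn : (M j).Normal := hnm j
  set L := M j
  let f : G →* G ⧸ L := QuotientGroup.mk' L
  have hf : Function.Surjective f := QuotientGroup.mk'_surjective L
  have hcardL : 1 < Nat.card L := by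
    rw [Subgroup.one_lt_card_iff_ne_bot]
    exact hj
  have hlt : Nat.card (G ⧸ L) < n := by
    have h2 := Subgroup.card_eq_card_quotient_mul_card_subgroup L
    have h4 : 0 < Nat.card (G ⧸ L) := Nat.card_pos
    rw [hn] at h2
    rw [h2]
    nlinarith
  obtain ⟨X', hX1, hX2⟩ := ih _ hlt (G ⧸ L) rfl (hPS.map hf)
  let X := X'.comap f
  have hXi : X.index = X'.index := Subgroup.index_comap_of_surjective X' hf
  have hLX : L ≤ X := by
    intro x hx
    change f x ∈ X'
    have h1 : f x = 1 := (QuotientGroup.eq_one_iff x).mpr hx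
    rw [h1]
    exact X'.one_mem
  have hcard : Nat.card X = Nat.card X' * Nat.card L := by
    have h1 := Subgroup.card_mul_index X
    have h2 := Subgroup.card_mul_index X'
    have h3 := Subgroup.card_eq_card_quotient_mul_card_subgroup L
    rw [hXi] at h1
    have h4 : 0 < X'.index := Nat.pos_of_ne_zero Subgroup.index_ne_zero_of_finite
    apply Nat.eq_of_mul_eq_mul_right h4
    rw [h1, h3, ← h2]
    ring
  rcases hstL with hL | hL
  · refine ⟨X, ?_, by rw [hXi]; exact hX2⟩
    rw [hcard]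
    exact hX1.mul (card_pi hL)
  · have hLπ' := card_pi hL
    have hLc : Nat.card (L.subgroupOf X) = Nat.card L :=
      Nat.card_congr (Subgroup.subgroupOfEquivOfLe hLX).toEquiv
    have hLi : (L.subgroupOf X).index = Nat.card X' := by
      have h1 := Subgroup.card_mul_index (L.subgroupOf X)
      rw [hLc, hcard, mul_comm] at h1
      exact Nat.eq_of_mul_eq_mul_right Nat.card_pos h1
    have hcop : Nat.Coprime (Nat.card (L.subgroupOf X)) (L.subgroupOf X).index := by
      rw [hLc, hLi]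
      exact (hX1.coprime hc hLπ').symm
    obtain ⟨H, hH⟩ := Subgroup.exists_right_complement'_of_coprime hcop
    have hHc : Nat.card H = Nat.card X' := by
      rw [← hLi]
      exact hH.symm.index_eq_card.symm
    refine ⟨H.map X.subtype, ?_, ?_⟩
    · rw [← Nat.card_congr (H.equivMapOfInjective X.subtype X.subtype_injective).toEquiv, hHc]
      exact hX1
    · rw [Subgroup.index_map_subtype, hXi]
      refine IsPi.mul ?_ hX2
      have h1 := Subgroup.card_mul_index H
      rw [hHc, hcard] at h1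
      have h2 : H.index = Nat.card L := Nat.eq_of_mul_eq_mul_left Nat.card_pos h1
      rw [h2]
      exact hLπ'

lemma relIndex_dvd_of_normal {S L : Subgroup G} (hL : L.Normal) : S.relIndex L ∣ S.index := by
  have h1 : Nat.card (S ⊓ L : Subgroup G) * S.relIndex L = Nat.card L := by
    rw [← Subgroup.inf_relIndex_right S L, mul_comm]
    have := Subgroup.card_mul_index ((S ⊓ L).subgroupOf L)
    rw [Nat.card_congr (Subgroup.subgroupOfEquivOfLe (inf_le_right : S ⊓ L ≤ L)).toEquiv] at this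
    rw [mul_comm]
    exact this
  have h2 : Nat.card (S ⊓ L : Subgroup G) * L.relIndex S = Nat.card S := by
    rw [inf_comm, ← Subgroup.inf_relIndex_right L S]
    have := Subgroup.card_mul_index ((L ⊓ S).subgroupOf S)
    rw [Nat.card_congr (Subgroup.subgroupOfEquivOfLe (inf_le_right : L ⊓ S ≤ S)).toEquiv] at this
    exact this
  have h3 : Nat.card L * L.relIndex S = Nat.card (L ⊔ S : Subgroup G) := by
    rw [← Subgroup.relIndex_sup_left S L]
    have := Subgroup.card_mul_index (L.subgroupOf (L ⊔ S))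
    rw [Nat.card_congr (Subgroup.subgroupOfEquivOfLe (le_sup_left : L ≤ L ⊔ S)).toEquiv] at this
    exact this
  have h4 : Nat.card S * S.relIndex (L ⊔ S) = Nat.card (L ⊔ S : Subgroup G) := by
    have := Subgroup.card_mul_index (S.subgroupOf (L ⊔ S))
    rw [Nat.card_congr (Subgroup.subgroupOfEquivOfLe (le_sup_right : S ≤ L ⊔ S)).toEquiv] at this
    exact this
  have h5 : S.relIndex (L ⊔ S) = S.relIndex L := by
    have hS : 0 < Nat.card S := Nat.card_pos
    apply Nat.eq_of_mul_eq_mul_left hS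
    rw [h4, ← h3, ← h1, ← h2]
    ring
  rw [← h5]
  exact Subgroup.relIndex_dvd_index_of_le le_sup_right

/-- a Hall subgroup supplements the steps of its type -/
lemma hall_sup (hc : Cpl π π') {S K L : Subgroup G} (hS' : IsPi π' S.index) (hK : K.Normal)
    (hL : L.Normal) (h : Stp π K L) :
    ∀ g ∈ L, ∃ k ∈ K, ∃ s ∈ S ⊓ L, g = k * s := by
  have h1 : IsPi π (K.relIndex L) := by
    have : (K.subgroupOf L).Normal := inferInstance
    refine index_pi (K := K.subgroupOf L) this ?_
    intro g _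
    obtain ⟨m, hm, hm1⟩ := h g g.2
    exact ⟨m, hm, Subgroup.mem_subgroupOf.mpr hm1⟩
  have h2 : IsPi π' (S.relIndex L) := hS'.dvd (relIndex_dvd_of_normal hL)
  have h3 : (K ⊔ (S ⊓ L)).relIndex L ∣ K.relIndex L := Subgroup.relIndex_dvd_of_le_left L le_sup_left
  have h4 : (K ⊔ (S ⊓ L)).relIndex L ∣ S.relIndex L := by
    rw [← Subgroup.inf_relIndex_right S L]
    exact Subgroup.relIndex_dvd_of_le_left L le_sup_right
  have h5 : (K ⊔ (S ⊓ L)).relIndex L = 1 := by
    have h6 := Nat.dvd_gcd h3 h4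
    rw [Nat.coprime_iff_gcd_eq_one.mp (h1.coprime hc h2)] at h6
    exact Nat.dvd_one.mp h6
  have h6 : L ≤ K ⊔ (S ⊓ L) := Subgroup.relIndex_eq_one.mp h5
  intro g hg
  obtain ⟨k, hk, s, hs, hks⟩ := Subgroup.mem_sup_of_normal_left.mp (h6 hg)
  exact ⟨k, hk, s, hs, hks.symm⟩

/-- a Hall subgroup does not grow at the steps of the other type -/
lemma hall_le (hc : Cpl π π') {S K L : Subgroup G} (hS : IsPi π (Nat.card S)) (h : Stp π' K L) :
    S ⊓ L ≤ K := by
  intro s hs
  refine pi_mem hc h hs.2 (hS.dvd ?_)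
  have h1 := orderOf_dvd_natCard (⟨s, hs.1⟩ : S)
  rwa [Subgroup.orderOf_mk] at h1

end Pool.Agent.Helper606_LC
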