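import Mathlib
import Pool.Agent.Helper606_LC.Se
import Pool.Agent.R403.RS.Frob

/-!
# The correspondences between subgroups of a fixed group
-/

set_option autoImplicit false
set_option linter.unusedSectionVars false

namespace Pool.Agent.Helper606_LC

open Pool.Agent.H541R3.ART Pool.Agent.W446.AS Pool.Agent.R389

variable {G : Type} [Group G] [Finite G] {K L : Subgroup G}

lemma ov_sub {ν β : G → ℂ} (hKL : K ≤ L) :
    Ov (K.subgroupOf L) (fun l : L => ν l) (fun l : L => β l) ↔ Ov K ν β := by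
  constructor
  · intro h k hk
    exact h ⟨k, hKL hk⟩ (Subgroup.mem_subgroupOf.mpr hk)
  · intro h k hk
    exact h k (Subgroup.mem_subgroupOf.mp hk)

lemma ext_irrOn {β : L → ℂ} (h : β ∈ Irr L) : IrrOn L (ext L β) := by
  have h1 : (fun l : L => ext L β l) = β := funext fun l => ext_coe L β l
  rw [IrrOn, h1]
  exact h

/-- products, in a fixed group -/
lemma amb_mul (hK : K.Normal) (hKL : K ≤ L) {α ν : G → ℂ} (hα : IrrOn L α) (hν : IrrOn K ν)
    (hinv : ∀ g ∈ L, ∀ k ∈ K, ν (g * k * g⁻¹) = ν k) (hαν : IrrOn K (α * ν)) :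
    (∀ β, IrrOn L β → Ov K ν β → IrrOn L (α * β)) ∧
    (∀ β β', IrrOn L β → IrrOn L β' → Ov K ν β → Ov K ν β' →
      (∀ l ∈ L, α l * β l = α l * β' l) → ∀ l ∈ L, β l = β' l) ∧
    ∀ χ, IrrOn L χ → Ov K (α * ν) χ →
      ∃ β, IrrOn L β ∧ Ov K ν β ∧ ∀ l ∈ L, χ l = α l * β l := by
  have hK' : (K.subgroupOf L).Normal := inferInstance
  obtain ⟨h1, h2, h3⟩ := mul_corr (K := K.subgroupOf L) hK' (α := fun l : L => α l)
    (ν := fun l : L => ν l) (irr_chr hα) ((irrOn_subgroupOf hKL ν).mpr hν)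
    (fun g k hk => hinv g g.2 k (Subgroup.mem_subgroupOf.mp hk))
    ((irrOn_subgroupOf hKL (α * ν)).mpr hαν)
  refine ⟨?_, ?_, ?_⟩
  · intro β hβ hov
    exact h1 _ hβ ((ov_sub hKL).mpr hov)
  · intro β β' hβ hβ' hov hov' heq l hl
    have h4 := h2 _ hβ _ hβ' ((ov_sub hKL).mpr hov) ((ov_sub hKL).mpr hov')
      (funext fun l => heq l l.2)
    exact congrFun h4 ⟨l, hl⟩
  · intro χ hχ hov
    obtain ⟨β, hβ, hov', heq⟩ := h3 _ hχ ((ov_sub hKL (ν := α * ν)).mpr hov)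
    have h5 : (fun l : L => ext L β l) = β := funext fun l => ext_coe L β l
    refine ⟨ext L β, ext_irrOn hβ, (ov_sub hKL).mp (by rw [h5]; exact hov'), ?_⟩
    intro l hl
    have h6 := congrFun heq ⟨l, hl⟩
    rw [ext_mem L β hl]
    exact h6

/-- restriction to a supplement, in a fixed group -/
lemma amb_res (hK : K.Normal) (hKL : K ≤ L) {S : Subgroup G}
    (hsup : ∀ g ∈ L, ∃ k ∈ K, ∃ s ∈ S ⊓ L, g = k * s) {ν : G → ℂ} (hν : IrrOn K ν)
    (hinv : ∀ g ∈ L, ∀ k ∈ K, ν (g * k * g⁻¹) = ν k) (hD : IrrOn (S ⊓ K) ν) :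
    (∀ β, IrrOn L β → Ov K ν β → IrrOn (S ⊓ L) β) ∧
    ∀ β β', IrrOn L β → IrrOn L β' → Ov K ν β → Ov K ν β' →
      (∀ s ∈ S ⊓ L, β s = β' s) → ∀ l ∈ L, β l = β' l := by
  have hK' : (K.subgroupOf L).Normal := inferInstance
  have hSL : S.subgroupOf L = (S ⊓ L).subgroupOf L := (Subgroup.inf_subgroupOf_right S L).symm
  have hinf : K.subgroupOf L ⊓ S.subgroupOf L = (S ⊓ K).subgroupOf L := by
    ext x
    simp only [Subgroup.mem_inf, Subgroup.mem_subgroupOf]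
    exact and_comm
  obtain ⟨h1, h2⟩ := res_corr (K := K.subgroupOf L) hK' (ν := fun l : L => ν l) (S.subgroupOf L) (by
      intro g
      obtain ⟨k, hk, s, hs, h⟩ := hsup g g.2
      exact ⟨⟨k, hKL hk⟩, Subgroup.mem_subgroupOf.mpr hk, ⟨s, hs.2⟩,
        Subgroup.mem_subgroupOf.mpr hs.1, Subtype.ext h⟩)
    ((irrOn_subgroupOf hKL ν).mpr hν)
    (fun g k hk => hinv g g.2 k (Subgroup.mem_subgroupOf.mp hk)) (by
      rw [hinf]
      exact (irrOn_subgroupOf (inf_le_right.trans hKL) ν).mpr hD)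
  refine ⟨?_, ?_⟩
  · intro β hβ hov
    have h3 := h1 _ hβ ((ov_sub hKL).mpr hov)
    rw [hSL] at h3
    exact (irrOn_subgroupOf inf_le_right β).mp h3
  · intro β β' hβ hβ' hov hov' heq l hl
    have h4 := h2 _ hβ _ hβ' ((ov_sub hKL).mpr hov) ((ov_sub hKL).mpr hov')
      (fun s hs => heq s ⟨Subgroup.mem_subgroupOf.mp hs, s.2⟩)
    exact congrFun h4 ⟨l, hl⟩

variable {π π' : ℕ → Prop}

lemma stp_sub (_ : K ≤ L) (h : Stp π K L) : Stp π (K.subgroupOf L) ⊤ := by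
  intro g _
  obtain ⟨m, hm, hm1⟩ := h g g.2
  exact ⟨m, hm, Subgroup.mem_subgroupOf.mpr hm1⟩

/-- uniqueness of the canonical extension, in a fixed group -/
lemma amb_unique (hc : Cpl π π') (hK : K.Normal) (hKL : K ≤ L) (hst : Stp π' K L)
    {ν α α' : G → ℂ} (hα : IrrOn L α) (hα' : IrrOn L α') (hν : IrrOn K ν)
    (h : ∀ k ∈ K, α k = ν k) (h' : ∀ k ∈ K, α' k = ν k) {d : ℕ} (hd : ν 1 = d) (hdπ : IsPi π d)
    (hD : ∀ g ∈ L, IsPi π' (orderOf g) → dt α g = 1)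
    (hD' : ∀ g ∈ L, IsPi π' (orderOf g) → dt α' g = 1) : ∀ l ∈ L, α l = α' l := by
  have hK' : (K.subgroupOf L).Normal := inferInstance
  have h1 := ext_unique hc (K := K.subgroupOf L) hK' (stp_sub hKL hst) (ν := fun l : L => ν l)
    (α := fun l : L => α l) (α' := fun l : L => α' l) hα hα' ((irrOn_subgroupOf hKL ν).mpr hν)
    (fun k hk => h k (Subgroup.mem_subgroupOf.mp hk))
    (fun k hk => h' k (Subgroup.mem_subgroupOf.mp hk)) hd hdπ
    (fun g hg => by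
      rw [dt_sub α g]
      exact hD g g.2 (by rw [Subgroup.orderOf_coe]; exact hg))
    (fun g hg => by
      rw [dt_sub α' g]
      exact hD' g g.2 (by rw [Subgroup.orderOf_coe]; exact hg))
  intro l hl
  exact congrFun h1 ⟨l, hl⟩

/-- existence of the canonical extension, in a fixed group -/
lemma amb_exists (hc : Cpl π π') (hK : K.Normal) (hKL : K ≤ L) (hst : Stp π' K L)
    {ν : G → ℂ} (hν : IrrOn K ν) (hinv : ∀ g ∈ L, ∀ k ∈ K, ν (g * k * g⁻¹) = ν k) {d : ℕ}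
    (hd : ν 1 = d) (hdπ : IsPi π d) (hD : ∀ k ∈ K, IsPi π' (orderOf k) → dt ν k = 1) :
    ∃ α, IrrOn L α ∧ (∀ k ∈ K, α k = ν k) ∧ ∀ g ∈ L, IsPi π' (orderOf g) → dt α g = 1 := by
  have hK' : (K.subgroupOf L).Normal := inferInstance
  obtain ⟨α, hα, h1, h2⟩ := ext_exists hc (K := K.subgroupOf L) hK' (stp_sub hKL hst)
    (ν := fun l : L => ν l) ((irrOn_subgroupOf hKL ν).mpr hν)
    (fun g k hk => hinv g g.2 k (Subgroup.mem_subgroupOf.mp hk)) hd hdπ
    (fun k hk hk1 => by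
      rw [dt_sub ν k]
      exact hD k (Subgroup.mem_subgroupOf.mp hk) (by rw [Subgroup.orderOf_coe]; exact hk1))
  have h5 : (fun l : L => ext L α l) = α := funext fun l => ext_coe L α l
  refine ⟨ext L α, ext_irrOn hα, ?_, ?_⟩
  · intro k hk
    rw [ext_mem L α (hKL hk)]
    exact h1 ⟨k, hKL hk⟩ (Subgroup.mem_subgroupOf.mpr hk)
  · intro g hg hg1
    have h6 := dt_sub (ext L α) (⟨g, hg⟩ : L)
    rw [h5] at h6
    rw [← h6]
    exact h2 ⟨g, hg⟩ (by rw [Subgroup.orderOf_mk]; exact hg1)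

/-- a character below an irreducible character is invariant -/
lemma ov_inv (hK : K.Normal) (hKL : K ≤ L) {ν β : G → ℂ} (hβ : IrrOn L β) (h : Ov K ν β) :
    ∀ g ∈ L, ∀ k ∈ K, ν (g * k * g⁻¹) = ν k := by
  intro g hg k hk
  have h1 : β (g * k * g⁻¹) = β k :=
    chr_class (irr_chr hβ) (⟨k, hKL hk⟩ : L) (⟨g, hg⟩ : L)
  have h2 := h k hk
  have h3 := h _ (hK.conj_mem k hk g)
  rw [h1, h2] at h3
  exact (mul_left_cancel₀ (irrOn_one_ne hβ) h3).symm

/-- the ratio is a natural number -/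
lemma ov_nat (hKL : K ≤ L) {ν β : G → ℂ} (hν : IrrOn K ν) (hβ : IrrOn L β) (h : Ov K ν β) :
    ∃ f : ℕ, ∀ k ∈ K, β k = (f : ℂ) * ν k := by
  have h1 : (fun k : K => β k) ∈ Chr K := chr_comp (Subgroup.inclusion hKL) (irr_chr hβ)
  obtain ⟨f, hf⟩ := chr_pr_nat h1 (irr_chr hν)
  have h2 : (fun k : K => β k) = fun k : K => (β 1 / ν 1) * ν k := by
    funext k
    have h2 := h k k.2
    have h3 := irrOn_one_ne hν
    field_simp
    exact h2
  rw [h2, pr_const_left (β 1 / ν 1) (fun k : K => ν k), pr_self hν, mul_one] at hf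
  refine ⟨f, fun k hk => ?_⟩
  have h4 := congrFun h2 ⟨k, hk⟩
  simp only at h4
  rw [h4, hf]

/-- the degree divides the order -/
lemma irrOn_deg_dvd {a : G → ℂ} (h : IrrOn K a) : ∃ d : ℕ, a 1 = d ∧ d ∣ Nat.card K := by
  obtain ⟨n, ρ, hρ, hρa⟩ := h
  refine ⟨Module.finrank ℂ (Fin n → ℂ), ?_, Pool.Agent.R403.RS.frob_dvd ρ hρ⟩
  have h1 := congrFun hρa 1
  rw [ρ.char_one] at h1
  exact h1

/-- proportional irreducible characters -/
lemma irrOn_prop {a b : G → ℂ} (ha : IrrOn K a) (hb : IrrOn K b) {x y : ℂ} (hx : x ≠ 0)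
    (h : ∀ k ∈ K, x * a k = y * b k) : ∀ k ∈ K, a k = b k := by
  by_contra hcon
  have hne : (fun k : K => a k) ≠ fun k : K => b k := by
    intro h1
    exact hcon fun k hk => congrFun h1 ⟨k, hk⟩
  have h1 : (fun k : K => x * a k) = fun k : K => y * b k := funext fun k => h k k.2
  have h2 := pr_const_left x (fun k : K => a k) (fun k : K => a k)
  rw [h1, pr_const_left y (fun k : K => b k), pr_self ha, pr_ne hb ha (fun h => hne h.symm),
    mul_zero, mul_one] at h2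
  exact hx h2.symm

end Pool.Agent.Helper606_LC
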