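import Mathlib
import Pool.Agent.Helper606_LC.Sf

/-!
# Factorization of characters along a normal series
-/

set_option autoImplicit false
set_option linter.unusedSectionVars false

namespace Pool.Agent.Helper606_LC

open Pool.Agent.H541R3.ART Pool.Agent.W446.AS Pool.Agent.R389

variable {G : Type} [Group G] [Finite G]

/-- a normal series with Hall subgroups -/
structure Ch (π π' ty ty' : ℕ → Prop) (M : ℕ → Subgroup G) (S H : Subgroup G) : Prop where
  cpl : Cpl π π'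
  tyc : ∀ i, ty' i ↔ ¬ ty i
  bot : M 0 = ⊥
  norm : ∀ i, (M i).Normal
  le : ∀ i, M i ≤ M (i + 1)
  st : ∀ i, ty i → Stp π (M i) (M (i + 1))
  st' : ∀ i, ty' i → Stp π' (M i) (M (i + 1))
  hS : IsPi π (Nat.card S)
  hSi : IsPi π' S.index
  hH : IsPi π' (Nat.card H)
  hHi : IsPi π H.index

/-- `π`-special characters along the series -/
def Gd (π' ty' : ℕ → Prop) (M : ℕ → Subgroup G) : ℕ → (G → ℂ) → Prop
  | 0, α => α 1 = 1
  | i + 1, α => IrrOn (M (i + 1)) α ∧ ∃ ξ, Gd π' ty' M i ξ ∧ Ov (M i) ξ α ∧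
      (ty' i → α 1 = ξ 1 ∧ ∀ g ∈ M (i + 1), IsPi π' (orderOf g) → dt α g = 1)

variable {π π' ty ty' : ℕ → Prop} {M : ℕ → Subgroup G} {S H : Subgroup G}

lemma Ch.symm (h : Ch π π' ty ty' M S H) : Ch π' π ty' ty M H S where
  cpl := h.cpl.symm
  tyc := fun i => by have := h.tyc i; tauto
  bot := h.bot
  norm := h.norm
  le := h.le
  st := h.st'
  st' := h.st
  hS := h.hH
  hSi := h.hHi
  hH := h.hS
  hHi := h.hSi

lemma Ch.cases (h : Ch π π' ty ty' M S H) (i : ℕ) : ty i ∨ ty' i := by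
  have := h.tyc i
  tauto

lemma irrOn_bot {a : G → ℂ} {K : Subgroup G} (hK : K = ⊥) (ha : a 1 = 1) : IrrOn K a := by
  refine irrOn_congr (fun k hk => ?_) (one_irrOn K)
  rw [hK, Subgroup.mem_bot] at hk
  rw [hk, ha]

lemma gd_irr (h : Ch π π' ty ty' M S H) : ∀ (i : ℕ) (α : G → ℂ), Gd π' ty' M i α →
    IrrOn (M i) α := by
  intro i
  cases i with
  | zero => exact fun α hα => irrOn_bot h.bot hα
  | succ i => exact fun α hα => hα.1

lemma ov_eq {K : Subgroup G} {ν α : G → ℂ} (hν : IrrOn K ν) (h : Ov K ν α) (h1 : α 1 = ν 1) :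
    ∀ k ∈ K, α k = ν k := by
  intro k hk
  have h2 := h k hk
  rw [h1, mul_comm] at h2
  exact mul_left_cancel₀ (irrOn_one_ne hν) h2

lemma gd_hall (h : Ch π π' ty ty' M S H) : ∀ (i : ℕ) (α : G → ℂ), Gd π' ty' M i α →
    IrrOn (S ⊓ M i) α := by
  intro i
  induction i with
  | zero =>
    intro α hα
    refine irrOn_bot ?_ hα
    rw [h.bot, inf_bot_eq]
  | succ i ih =>
    rintro α ⟨hα, ξ, hξ, hov, hty'⟩
    have hξi := gd_irr h i ξ hξ
    rcases h.cases i with hty | hty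
    · exact (amb_res (h.norm i) (h.le i)
        (hall_sup h.cpl h.hSi (h.norm i) (h.norm (i + 1)) (h.st i hty)) hξi
        (ov_inv (h.norm i) (h.le i) hα hov) (ih ξ hξ)).1 α hα hov
    · have h1 : S ⊓ M (i + 1) = S ⊓ M i := by
        apply le_antisymm
        · exact le_inf inf_le_left (hall_le h.cpl h.hS (h.st' i hty))
        · exact inf_le_inf_left S (h.le i)
      rw [h1]
      refine irrOn_congr (fun k hk => ?_) (ih ξ hξ)
      exact (ov_eq hξi hov (hty' hty).1 k hk.2).symm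

lemma gd_deg (h : Ch π π' ty ty' M S H) {i : ℕ} {α : G → ℂ} (hα : Gd π' ty' M i α) :
    ∃ d : ℕ, α 1 = d ∧ IsPi π d := by
  obtain ⟨d, hd, hd1⟩ := irrOn_deg_dvd (gd_hall h i α hα)
  exact ⟨d, hd, h.hS.dvd (hd1.trans (Subgroup.card_dvd_of_le inf_le_left))⟩

lemma dt_one (α : G → ℂ) : dt α 1 = 1 := by
  rw [dt, orderOf_one, Finset.range_one, Finset.prod_singleton, pow_zero, one_pow]

lemma gd_dt (h : Ch π π' ty ty' M S H) : ∀ (i : ℕ) (α : G → ℂ), Gd π' ty' M i α →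
    ∀ g ∈ M i, IsPi π' (orderOf g) → dt α g = 1 := by
  intro i
  induction i with
  | zero =>
    intro α _ g hg _
    rw [h.bot, Subgroup.mem_bot] at hg
    rw [hg, dt_one]
  | succ i ih =>
    rintro α ⟨hα, ξ, hξ, hov, hty'⟩ g hg hgo
    rcases h.cases i with hty | hty
    · have hξi := gd_irr h i ξ hξ
      have hgi : g ∈ M i := pi_mem h.cpl.symm (h.st i hty) hg hgo
      obtain ⟨f, hf⟩ := ov_nat (h.le i) hξi hα hov
      have h1 := dt_mul_nat (a := fun m : M i => α m) (b := fun m : M i => ξ m) (irr_chr hξi)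
        (g := ⟨g, hgi⟩) (f := f) (fun j => hf _ (pow_mem hgi j))
      rw [dt_sub, dt_sub, ih ξ hξ g hgi hgo, one_pow] at h1
      exact h1
    · exact (hty' hty).2 g hg hgo

/-- maps which act on characters of the members of the series -/
structure Opt (M : ℕ → Subgroup G) (t : G → G) : Prop where
  mem : ∀ i, ∀ g ∈ M i, t g ∈ M i
  irr : ∀ (i : ℕ) (a : G → ℂ), IrrOn (M i) a → IrrOn (M i) (fun g => a (t g))
  one : t 1 = 1
  pow : ∀ (g : G) (j : ℕ), t (g ^ j) = t g ^ j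
  ord : ∀ g, orderOf (t g) = orderOf g

lemma gd_op {t : G → G} (ht : Opt M t) : ∀ (i : ℕ) (α : G → ℂ), Gd π' ty' M i α →
    Gd π' ty' M i (fun g => α (t g)) := by
  intro i
  induction i with
  | zero =>
    intro α hα
    change α (t 1) = 1
    rw [ht.one]
    exact hα
  | succ i ih =>
    rintro α ⟨hα, ξ, hξ, hov, hty'⟩
    refine ⟨ht.irr _ _ hα, fun g => ξ (t g), ih ξ hξ, ?_, ?_⟩
    · intro k hk
      change α (t k) * ξ (t 1) = α (t 1) * ξ (t k)
      rw [ht.one]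
      exact hov _ (ht.mem i k hk)
    · intro hty
      obtain ⟨h1, h2⟩ := hty' hty
      refine ⟨by
        change α (t 1) = ξ (t 1)
        rw [ht.one]; exact h1, fun g hg hgo => ?_⟩
      rw [dt_map t α (ht.ord g) (ht.pow g)]
      exact h2 _ (ht.mem _ g hg) (by rw [ht.ord]; exact hgo)

/-- special characters do not see the automorphisms which fix the `π`-elements -/
lemma gd_gal (h : Ch π π' ty ty' M S H) {t : G → G} (ht : Opt M t)
    (htπ : ∀ g, IsPi π (orderOf g) → t g = g) : ∀ (i : ℕ) (α : G → ℂ), Gd π' ty' M i α →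
    ∀ g ∈ M i, α (t g) = α g := by
  intro i
  induction i with
  | zero =>
    intro α _ g hg
    rw [h.bot, Subgroup.mem_bot] at hg
    rw [hg, ht.one]
  | succ i ih =>
    rintro α hαG
    have hα' := gd_op ht (i + 1) α hαG
    have hαirr := gd_irr h _ _ hαG
    have hα'irr := gd_irr h _ _ hα'
    have hdt := gd_dt h _ _ hαG
    have hdt' := gd_dt h _ _ hα'
    obtain ⟨hα, ξ, hξ, hov, hty'⟩ := hαG
    have hξi := gd_irr h i ξ hξ
    have hov' : Ov (M i) ξ (fun g => α (t g)) := by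
      intro k hk
      have h1 := hov _ (ht.mem i k hk)
      rw [ih ξ hξ k hk] at h1
      change α (t k) * ξ 1 = α (t 1) * ξ k
      rw [ht.one]
      exact h1
    rcases h.cases i with hty | hty
    · refine (amb_res (h.norm i) (h.le i)
        (hall_sup h.cpl h.hSi (h.norm i) (h.norm (i + 1)) (h.st i hty)) hξi
        (ov_inv (h.norm i) (h.le i) hα hov) (gd_hall h i ξ hξ)).2 _ α hα'irr hαirr hov' hov ?_
      intro s hs
      have h1 : IsPi π (orderOf s) := by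
        have h2 := orderOf_dvd_natCard (⟨s, hs.1⟩ : S)
        rw [Subgroup.orderOf_mk] at h2
        exact h.hS.dvd h2
      rw [htπ s h1]
    · obtain ⟨d, hd, hdπ⟩ := gd_deg h hξ
      refine amb_unique h.cpl (h.norm i) (h.le i) (h.st' i hty) hα'irr hαirr hξi
        (ov_eq hξi hov' ?_) (ov_eq hξi hov (hty' hty).1) hd hdπ hdt' hdt
      rw [ht.one]
      exact (hty' hty).1

/-- products of special characters are irreducible: one step -/
lemma gd_mul_step (h : Ch π π' ty ty' M S H) {i : ℕ} (hty : ty' i)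
    (ih : ∀ ξ η : G → ℂ, Gd π' ty' M i ξ → Gd π ty M i η → IrrOn (M i) (ξ * η)) {α β : G → ℂ}
    (hαG : Gd π' ty' M (i + 1) α) (hβG : Gd π ty M (i + 1) β) : IrrOn (M (i + 1)) (α * β) := by
  obtain ⟨hα, ξ, hξ, hov, hty'⟩ := hαG
  obtain ⟨hβ, η, hη, hovβ, -⟩ := hβG
  have hξi := gd_irr h i ξ hξ
  have hηi := gd_irr h.symm i η hη
  have h1 : IrrOn (M i) (α * η) := by
    refine irrOn_congr (fun k hk => ?_) (ih ξ η hξ hη)
    rw [Pi.mul_apply, Pi.mul_apply, ov_eq hξi hov (hty' hty).1 k hk]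
  exact (amb_mul (h.norm i) (h.le i) hα hηi (ov_inv (h.norm i) (h.le i) hβ hovβ) h1).1 β hβ hovβ

/-- **Products of special characters are irreducible.** -/
theorem gd_mul (h : Ch π π' ty ty' M S H) : ∀ (i : ℕ) (α β : G → ℂ), Gd π' ty' M i α →
    Gd π ty M i β → IrrOn (M i) (α * β) := by
  intro i
  induction i with
  | zero =>
    intro α β hα hβ
    refine irrOn_bot h.bot ?_
    rw [Pi.mul_apply, show α 1 = 1 from hα, show β 1 = 1 from hβ, mul_one]
  | succ i ih =>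
    intro α β hα hβ
    rcases h.cases i with hty | hty
    · rw [mul_comm]
      exact gd_mul_step h.symm hty (fun ξ η hξ hη => by rw [mul_comm]; exact ih η ξ hη hξ) hβ hα
    · exact gd_mul_step h hty ih hα hβ

/-- uniqueness: one step -/
lemma gd_uniq_step (h : Ch π π' ty ty' M S H) {i : ℕ} (hty : ty' i)
    (ih : ∀ ξ ξ' η η' : G → ℂ, Gd π' ty' M i ξ → Gd π' ty' M i ξ' → Gd π ty M i η →
      Gd π ty M i η' → (∀ g ∈ M i, ξ g * η g = ξ' g * η' g) →
      (∀ g ∈ M i, ξ g = ξ' g) ∧ ∀ g ∈ M i, η g = η' g) {α α' β β' : G → ℂ}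
    (hαG : Gd π' ty' M (i + 1) α) (hαG' : Gd π' ty' M (i + 1) α') (hβG : Gd π ty M (i + 1) β)
    (hβG' : Gd π ty M (i + 1) β') (heq : ∀ g ∈ M (i + 1), α g * β g = α' g * β' g) :
    (∀ g ∈ M (i + 1), α g = α' g) ∧ ∀ g ∈ M (i + 1), β g = β' g := by
  have hdt := gd_dt h _ _ hαG
  have hdt' := gd_dt h _ _ hαG'
  obtain ⟨hα, ξ, hξ, hov, hα1⟩ := hαG
  obtain ⟨hα', ξ', hξ', hov', hα1'⟩ := hαG'
  obtain ⟨hβ, η, hη, hovβ, -⟩ := hβG
  obtain ⟨hβ', η', hη', hovβ', -⟩ := hβG'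
  have hξi := gd_irr h i ξ hξ
  have hξi' := gd_irr h i ξ' hξ'
  have hηi := gd_irr h.symm i η hη
  have hηi' := gd_irr h.symm i η' hη'
  have e1 := ov_eq hξi hov (hα1 hty).1
  have e1' := ov_eq hξi' hov' (hα1' hty).1
  have hm := gd_mul h i ξ η hξ hη
  have hm' := gd_mul h i ξ' η' hξ' hη'
  have h1 : ∀ k ∈ M i, (β 1 * η' 1) * (ξ * η) k = (β' 1 * η 1) * (ξ' * η') k := by
    intro k hk
    have h2 := heq k (h.le i hk)
    rw [e1 k hk, e1' k hk] at h2
    have h3 := hovβ k hk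
    have h4 := hovβ' k hk
    rw [Pi.mul_apply, Pi.mul_apply]
    linear_combination (-(ξ k * η' 1)) * h3 + (η 1 * η' 1) * h2 + (ξ' k * η 1) * h4
  have h2 := irrOn_prop hm hm' (mul_ne_zero (irrOn_one_ne hβ) (irrOn_one_ne hηi')) h1
  obtain ⟨h3, h4⟩ := ih ξ ξ' η η' hξ hξ' hη hη' h2
  obtain ⟨d, hd, hdπ⟩ := gd_deg h hξ
  have h5 := amb_unique h.cpl (h.norm i) (h.le i) (h.st' i hty) hα hα' hξi e1
    (fun k hk => by rw [e1' k hk, h3 k hk]) hd hdπ hdt hdt'
  refine ⟨h5, ?_⟩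
  have h6 : IrrOn (M i) (α * η) := by
    refine irrOn_congr (fun k hk => ?_) hm
    rw [Pi.mul_apply, Pi.mul_apply, e1 k hk]
  have h7 : Ov (M i) η β' := by
    intro k hk
    rw [h4 k hk, h4 1 (one_mem _)]
    exact hovβ' k hk
  refine (amb_mul (h.norm i) (h.le i) hα hηi (ov_inv (h.norm i) (h.le i) hβ hovβ) h6).2.1 β β' hβ
    hβ' hovβ h7 fun l hl => ?_
  rw [heq l hl, h5 l hl]

/-- **Uniqueness of the factorization.** -/
theorem gd_uniq (h : Ch π π' ty ty' M S H) : ∀ (i : ℕ) (α α' β β' : G → ℂ),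
    Gd π' ty' M i α → Gd π' ty' M i α' → Gd π ty M i β → Gd π ty M i β' →
    (∀ g ∈ M i, α g * β g = α' g * β' g) → (∀ g ∈ M i, α g = α' g) ∧ ∀ g ∈ M i, β g = β' g := by
  intro i
  induction i with
  | zero =>
    intro α α' β β' hα hα' hβ hβ' _
    constructor
    · intro g hg
      rw [h.bot, Subgroup.mem_bot] at hg
      rw [hg, show α 1 = 1 from hα, show α' 1 = 1 from hα']
    · intro g hg
      rw [h.bot, Subgroup.mem_bot] at hg
      rw [hg, show β 1 = 1 from hβ, show β' 1 = 1 from hβ']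
  | succ i ih =>
    intro α α' β β' hα hα' hβ hβ' heq
    rcases h.cases i with hty | hty
    · have h1 := gd_uniq_step h.symm hty (fun ξ ξ' η η' hξ hξ' hη hη' he =>
        (ih η η' ξ ξ' hη hη' hξ hξ' (fun g hg => by
          rw [mul_comm, he g hg, mul_comm])).symm) hβ hβ' hα hα' (fun g hg => by
          rw [mul_comm, heq g hg, mul_comm])
      exact h1.symm
    · exact gd_uniq_step h hty ih hα hα' hβ hβ' heq

lemma opt_conj (hn : ∀ i, (M i).Normal) (x : G) : Opt M (fun g => x * g * x⁻¹) where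
  mem := fun i g hg => (hn i).conj_mem g hg x
  irr := by
    intro i a ha
    have := hn i
    exact irr_surj (MulAut.conjNormal x : MulAut (M i)).toMonoidHom
      (MulAut.conjNormal x : MulAut (M i)).surjective ha
  one := by rw [mul_one, mul_inv_cancel]
  pow := fun g j => (conj_pow).symm
  ord := fun g => orderOf_conj' g x

lemma opt_pow {N : ℕ} (hN : 0 < N) (hG : Nat.card G ∣ N) (M : ℕ → Subgroup G) (k : (ZMod N)ˣ) :
    Opt M (fun g => g ^ (k : ZMod N).val) where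
  mem := fun i g hg => pow_mem hg _
  irr := by
    intro i a ha
    exact irr_pw hN ((M i).card_subgroup_dvd_card.trans hG) k ha
  one := one_pow _
  pow := fun g j => pow_right_comm g j _
  ord := by
    intro g
    apply Nat.Coprime.orderOf_pow
    exact Nat.Coprime.coprime_dvd_left ((orderOf_dvd_natCard g).trans hG)
      (ZMod.val_coe_unit_coprime k).symm

/-- existence: one step -/
lemma gd_exists_step (h : Ch π π' ty ty' M S H) {χ : G → ℂ}
    (hχ : ∀ g x : G, χ (x * g * x⁻¹) = χ g) {i : ℕ} (hty : ty' i)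
    (hom : ∃ c : ℂ, IrrOn (M (i + 1)) (fun g => c * χ g))
    (ih : ∃ (ξ η : G → ℂ) (c : ℂ), Gd π' ty' M i ξ ∧ Gd π ty M i η ∧
      ∀ g ∈ M i, ξ g * η g = c * χ g) :
    ∃ (α β : G → ℂ) (c : ℂ), Gd π' ty' M (i + 1) α ∧ Gd π ty M (i + 1) β ∧
      ∀ g ∈ M (i + 1), α g * β g = c * χ g := by
  obtain ⟨ξ, η, c, hξ, hη, hc⟩ := ih
  obtain ⟨c', hθ⟩ := hom
  have hξi := gd_irr h i ξ hξ
  have hηi := gd_irr h.symm i η hη
  have hinv : ∀ x : G, (∀ g ∈ M i, ξ (x * g * x⁻¹) = ξ g) ∧ ∀ g ∈ M i, η (x * g * x⁻¹) = η g := by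
    intro x
    have ho := opt_conj h.norm x
    refine gd_uniq h i _ ξ _ η (gd_op ho i ξ hξ) hξ (gd_op ho i η hη) hη fun g hg => ?_
    rw [hc g hg, hc _ (ho.mem i g hg), hχ]
  obtain ⟨d, hd, hdπ⟩ := gd_deg h hξ
  obtain ⟨α, hα, hαξ, hαdt⟩ := amb_exists h.cpl (h.norm i) (h.le i) (h.st' i hty) hξi
    (fun g _ k hk => (hinv g).1 k hk) hd hdπ (gd_dt h i ξ hξ)
  have hm : IrrOn (M i) (α * η) := by
    refine irrOn_congr (fun k hk => ?_) (gd_mul h i ξ η hξ hη)
    rw [Pi.mul_apply, Pi.mul_apply, hαξ k hk]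
  have hαη : ∀ k ∈ M i, (α * η) k = c * χ k := by
    intro k hk
    rw [Pi.mul_apply, hαξ k hk, hc k hk]
  obtain ⟨β, hβ, hβη, heq⟩ := (amb_mul (h.norm i) (h.le i) hα hηi
    (fun g _ k hk => (hinv g).2 k hk) hm).2.2 _ hθ (by
      intro k hk
      rw [hαη k hk, hαη 1 (one_mem _)]
      ring)
  refine ⟨α, β, c', ⟨hα, ξ, hξ, ?_, ?_⟩, ⟨hβ, η, hη, hβη, ?_⟩, ?_⟩
  · intro k hk
    rw [hαξ k hk, hαξ 1 (one_mem _)]
    ring
  · intro _
    exact ⟨hαξ 1 (one_mem _), hαdt⟩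
  · intro h1
    exact absurd h1 ((h.tyc i).mp hty)
  · intro g hg
    exact (heq g hg).symm

/-- **Existence of the factorization.** -/
theorem gd_exists (h : Ch π π' ty ty' M S H) {χ : G → ℂ}
    (hχ : ∀ g x : G, χ (x * g * x⁻¹) = χ g)
    (hom : ∀ j, ∃ c : ℂ, IrrOn (M j) (fun g => c * χ g)) : ∀ i : ℕ,
    ∃ (α β : G → ℂ) (c : ℂ), Gd π' ty' M i α ∧ Gd π ty M i β ∧
      ∀ g ∈ M i, α g * β g = c * χ g := by
  intro i
  induction i with
  | zero =>
    obtain ⟨c, hc⟩ := hom 0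
    have h1 : c * χ 1 ≠ 0 := irrOn_one_ne hc
    refine ⟨fun _ => 1, fun _ => 1, (χ 1)⁻¹, rfl, rfl, fun g hg => ?_⟩
    rw [h.bot, Subgroup.mem_bot] at hg
    rw [hg, inv_mul_cancel₀ (right_ne_zero_of_mul h1), mul_one]
  | succ i ih =>
    rcases h.cases i with hty | hty
    · obtain ⟨ξ, η, c, h1, h2, h3⟩ := ih
      obtain ⟨β, α, c', h4, h5, h6⟩ := gd_exists_step h.symm hχ hty (hom (i + 1))
        ⟨η, ξ, c, h2, h1, fun g hg => by rw [mul_comm, h3 g hg]⟩
      exact ⟨α, β, c', h5, h4, fun g hg => by rw [mul_comm, h6 g hg]⟩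
    · exact gd_exists_step h hχ hty (hom (i + 1)) ih

/-- **Splitting.** -/
theorem split_gal (h : Ch π π' ty ty' M S H) {r : ℕ} (hr : M r = ⊤) {N : ℕ} (hN : 0 < N)
    (hG : Nat.card G ∣ N) {χ : G → ℂ} (hχ : χ ∈ Irr G)
    (hom : ∀ j, ∃ c : ℂ, IrrOn (M j) (fun g => c * χ g)) {k k₁ k₂ : (ZMod N)ˣ} (hk : k = k₁ * k₂)
    (h₁ : ∀ g : G, IsPi π' (orderOf g) → g ^ (k₁ : ZMod N).val = g)
    (h₂ : ∀ g : G, IsPi π (orderOf g) → g ^ (k₂ : ZMod N).val = g) (hfix : pw k χ = χ) :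
    pw k₁ χ = χ := by
  obtain ⟨α, β, c, hα, hβ, heq⟩ := gd_exists h (Irr.conj hχ) hom r
  have htop : ∀ g : G, g ∈ M r := fun g => by rw [hr]; exact Subgroup.mem_top g
  have hfix' : ∀ g, χ (g ^ (k : ZMod N).val) = χ g := fun g => congrFun hfix g
  have ho := opt_pow hN hG M k
  obtain ⟨ha, -⟩ := gd_uniq h r _ α _ β (gd_op ho r α hα) hα (gd_op ho r β hβ) hβ
    (fun g hg => by rw [heq g hg, heq _ (ho.mem r g hg), hfix'])
  have ha' : pw k α = α := funext fun g => ha g (htop g)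
  have h2 : pw k₂ α = α := funext fun g => gd_gal h (opt_pow hN hG M k₂) h₂ r α hα g (htop g)
  have hb1 : pw k₁ β = β := funext fun g =>
    gd_gal h.symm (opt_pow hN hG M k₁) h₁ r β hβ g (htop g)
  have ha1 : pw k₁ α = α := by
    rw [hk, pw_mul hN hG, h2] at ha'
    exact ha'
  have hc : c ≠ 0 := by
    intro h0
    have h3 := heq 1 (htop 1)
    rw [h0, zero_mul] at h3
    exact mul_ne_zero (irrOn_one_ne (gd_irr h r α hα)) (irrOn_one_ne (gd_irr h.symm r β hβ)) h3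
  funext g
  have h3 := heq (g ^ (k₁ : ZMod N).val) (htop _)
  have h4 : α (g ^ (k₁ : ZMod N).val) = α g := congrFun ha1 g
  have h5 : β (g ^ (k₁ : ZMod N).val) = β g := congrFun hb1 g
  rw [h4, h5, heq g (htop g)] at h3
  exact (mul_left_cancel₀ hc h3).symm

end Pool.Agent.Helper606_LC
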