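import Mathlib
import Pool.Agent.Helper606_LC.Sg

/-!
# Homogeneous restriction or induction from a proper subgroup
-/

set_option autoImplicit false
set_option linter.unusedSectionVars false

namespace Pool.Agent.Helper606_LC

open Pool.Agent.H541R3.ART Pool.Agent.W446.AS Pool.Agent.R389

variable {G : Type} [Group G] [Finite G]

/-- convolution of irreducible characters -/
lemma conv_irr [Fintype G] {θ θ' : G → ℂ} (hθ : θ ∈ Irr G) (hθ' : θ' ∈ Irr G) (y : G) :
    ∑ g : G, θ g * θ' (g⁻¹ * y) = (pr θ θ' * Nat.card G / θ' 1) * θ' y := by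
  obtain ⟨n, σ, hσ, rfl⟩ := exists_rep hθ'
  obtain ⟨c, hc1, hc2⟩ := hσ.class_op (θ := θ) (fun g x => Irr.conj hθ g x)
  have h1 : (∑ g : G, θ g • σ g⁻¹) = c • (1 : Module.End ℂ (Fin n → ℂ)) := by
    apply LinearMap.ext
    intro v
    rw [LinearMap.sum_apply]
    exact hc1 v
  have h2 : ∑ g : G, θ g * σ.character (g⁻¹ * y) = c * σ.character y := by
    have h3 := congrArg (fun T : Module.End ℂ (Fin n → ℂ) => LinearMap.trace ℂ _ (T * σ y)) h1
    simp only [Finset.sum_mul, map_sum, smul_mul_assoc, one_mul, map_smul, smul_eq_mul,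
      ← map_mul] at h3
    exact h3
  rw [h2]
  have h3 : σ.character 1 = (Module.finrank ℂ (Fin n → ℂ) : ℂ) := σ.char_one
  have h4 : σ.character 1 ≠ 0 := by
    obtain ⟨d, hd, hd1⟩ := irr_deg_pos hθ'
    rw [hd1]
    exact_mod_cast hd.ne'
  congr 1
  rw [← sum_eq_pr, hc2, ← h3]
  field_simp

variable {K : Subgroup G}

/-- convolution in a fixed group -/
lemma conv_ext [Fintype G] {θ θ' : K → ℂ} (hθ : θ ∈ Irr K) (hθ' : θ' ∈ Irr K) (y : G) :
    ∑ g : G, ext K θ g * ext K θ' (g⁻¹ * y) = (pr θ θ' * Nat.card K / θ' 1) * ext K θ' y := by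
  classical
  have : Fintype K := Fintype.ofFinite K
  by_cases hy : y ∈ K
  · have h1 := conv_irr hθ hθ' ⟨y, hy⟩
    rw [sum_ext K θ (fun g => ext K θ' (g⁻¹ * y)), ext_mem K θ' hy, ← h1]
    refine Finset.sum_congr rfl fun g _ => ?_
    rw [ext_mem K θ' (K.mul_mem (K.inv_mem g.2) hy)]
    rfl
  · rw [ext_not K θ' hy, mul_zero]
    refine Finset.sum_eq_zero fun g _ => ?_
    by_cases hg : g ∈ K
    · have h1 : g⁻¹ * y ∉ K := by
        intro h
        apply hy
        have h2 := K.mul_mem hg h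
        rwa [mul_inv_cancel_left] at h2
      rw [ext_not K θ' h1, mul_zero]
    · rw [ext_not K θ hg, zero_mul]

lemma ext_conj {θ : K → ℂ} (hθ : θ ∈ Irr K) {k : G} (hk : k ∈ K) (y : G) :
    ext K θ (k * y * k⁻¹) = ext K θ y := by
  by_cases hy : y ∈ K
  · rw [ext_mem K θ hy, ext_mem K θ (K.mul_mem (K.mul_mem hk hy) (K.inv_mem hk))]
    exact Irr.conj hθ (⟨y, hy⟩ : K) ⟨k, hk⟩
  · have h1 : k * y * k⁻¹ ∉ K := by
      intro h
      apply hy
      have h2 := K.mul_mem (K.mul_mem (K.inv_mem hk) h) hk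
      have h3 : k⁻¹ * (k * y * k⁻¹) * k = y := by group
      rwa [h3] at h2
    rw [ext_not K θ hy, ext_not K θ h1]

/-- the central projection of an irreducible character of `K` -/
noncomputable def Pj {V : Type} [AddCommGroup V] [Module ℂ V] [Fintype G] (K : Subgroup G)
    (ρ : Representation ℂ G V) (θ : K → ℂ) : Module.End ℂ V :=
  (θ 1 / Nat.card K) • ∑ g : G, ext K θ g⁻¹ • ρ g

lemma Pj_mul {V : Type} [AddCommGroup V] [Module ℂ V] [Fintype G] (ρ : Representation ℂ G V)
    {θ θ' : K → ℂ} (hθ : θ ∈ Irr K) (hθ' : θ' ∈ Irr K) :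
    Pj K ρ θ * Pj K ρ θ' = pr θ θ' • Pj K ρ θ' := by
  classical
  have hcl : ∀ g x : K, θ' (x * g * x⁻¹) = θ' g := fun g x => Irr.conj hθ' g x
  have h1 : (∑ g : G, ext K θ g⁻¹ • ρ g) * (∑ g : G, ext K θ' g⁻¹ • ρ g)
      = (pr θ θ' * Nat.card K / θ' 1) • ∑ g : G, ext K θ' g⁻¹ • ρ g := by
    rw [Finset.sum_mul_sum]
    have h2 : ∀ k : G, ∑ l : G, (ext K θ k⁻¹ • ρ k) * (ext K θ' l⁻¹ • ρ l)
        = ∑ x : G, (ext K θ k⁻¹ * ext K θ' (x⁻¹ * k)) • ρ x := by
      intro k
      rw [← Equiv.sum_comp (Equiv.mulLeft k⁻¹)]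
      refine Finset.sum_congr rfl fun x _ => ?_
      rw [Equiv.coe_mulLeft, smul_mul_smul_comm, ← map_mul, mul_inv_cancel_left, mul_inv_rev,
        inv_inv]
    rw [Finset.sum_congr rfl (fun k _ => h2 k), Finset.sum_comm, Finset.smul_sum]
    refine Finset.sum_congr rfl fun x _ => ?_
    rw [← Finset.sum_smul, smul_smul]
    congr 1
    rw [← conv_ext hθ hθ' x⁻¹, ← Equiv.sum_comp (Equiv.inv G)]
    refine Finset.sum_congr rfl fun g _ => ?_
    rw [Equiv.inv_apply, inv_inv]
    by_cases hg : g ∈ K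
    · congr 1
      have h3 : x⁻¹ * g⁻¹ = g * (g⁻¹ * x⁻¹) * g⁻¹ := by group
      rw [h3, ext_conj hθ' hg]
    · rw [ext_not K θ hg, zero_mul, zero_mul]
  have hd : ∀ η ∈ Irr K, (η 1 : ℂ) ≠ 0 := by
    intro η hη
    obtain ⟨d, hd, hd1⟩ := irr_deg_pos hη
    rw [hd1]
    exact_mod_cast hd.ne'
  have hK : (Nat.card K : ℂ) ≠ 0 := card_ne
  rw [Pj, Pj, smul_mul_smul_comm, h1, smul_smul, smul_smul]
  congr 1
  have h2 := hd θ' hθ'
  by_cases he : θ = θ'
  · rw [he, pr_self hθ']
    field_simp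
  · rw [pr_ne hθ hθ' he]
    simp

lemma Pj_trace {V : Type} [AddCommGroup V] [Module ℂ V] [FiniteDimensional ℂ V] [Fintype G]
    (ρ : Representation ℂ G V) (θ : K → ℂ) :
    LinearMap.trace ℂ V (Pj K ρ θ) = θ 1 * pr (fun k : K => ρ.character k) θ := by
  classical
  have : Fintype K := Fintype.ofFinite K
  rw [Pj, map_smul, map_sum, smul_eq_mul, pr_eq, div_mul_eq_mul_div, mul_div_assoc]
  congr 1
  rw [div_eq_inv_mul]
  congr 1
  have h1 : ∑ g : G, LinearMap.trace ℂ V (ext K θ g⁻¹ • ρ g)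
      = ∑ g : G, ext K θ g * ρ.character g⁻¹ := by
    rw [← Equiv.sum_comp (Equiv.inv G)]
    refine Finset.sum_congr rfl fun g _ => ?_
    rw [Equiv.inv_apply, inv_inv, map_smul, smul_eq_mul]
    rfl
  rw [h1, sum_ext K θ (fun g => ρ.character g⁻¹), ← Equiv.sum_comp (Equiv.inv K)]
  refine Finset.sum_congr rfl fun g _ => ?_
  rw [Equiv.inv_apply, InvMemClass.coe_inv, inv_inv, mul_comm]

/-- conjugate characters -/
lemma Pj_conj {V : Type} [AddCommGroup V] [Module ℂ V] [Fintype G] (ρ : Representation ℂ G V)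
    (hK : K.Normal) (θ : K → ℂ) (x : G) :
    ρ x⁻¹ * Pj K ρ θ * ρ x = Pj K ρ (fun k => θ (MulAut.conjNormal x k)) := by
  classical
  rw [Pj, Pj, mul_smul_comm, smul_mul_assoc, Finset.mul_sum, Finset.sum_mul]
  congr 1
  · congr 1
    rw [map_one]
  · rw [← Equiv.sum_comp (MulAut.conj x).toEquiv]
    refine Finset.sum_congr rfl fun g _ => ?_
    have h1 : (MulAut.conj x).toEquiv g = x * g * x⁻¹ := rfl
    rw [h1, mul_smul_comm, smul_mul_assoc, ← map_mul, ← map_mul]
    have h2 : x⁻¹ * (x * g * x⁻¹) * x = g := by group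
    rw [h2]
    congr 1
    by_cases hg : g⁻¹ ∈ K
    · have h3 : (x * g * x⁻¹)⁻¹ ∈ K := by
        have := hK.conj_mem _ hg x
        have h4 : (x * g * x⁻¹)⁻¹ = x * g⁻¹ * x⁻¹ := by group
        rwa [h4]
      rw [ext_mem K θ h3, ext_mem K _ hg]
      congr 1
      apply Subtype.ext
      rw [MulAut.conjNormal_apply]
      simp only
      group
    · have h3 : (x * g * x⁻¹)⁻¹ ∉ K := by
        intro h
        apply hg
        have := hK.conj_mem _ h x⁻¹
        have h4 : x⁻¹ * (x * g * x⁻¹)⁻¹ * x⁻¹⁻¹ = g⁻¹ := by group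
        rwa [h4] at this
      rw [ext_not K θ h3, ext_not K _ hg]

/-- **Homogeneous or induced.** -/
theorem homog_or_ind (hK : K.Normal) {χ : G → ℂ} (hχ : χ ∈ Irr G) :
    (∃ c : ℂ, IrrOn K (fun g => c * χ g)) ∨
      ∃ H : Subgroup G, H ≠ ⊤ ∧ ∃ φ ∈ Irr H, χ = ind H φ := by
  classical
  have : Fintype G := Fintype.ofFinite G
  obtain ⟨n, ρ, hρ, rfl⟩ := exists_rep hχ
  have hres : (fun k : K => ρ.character k) ∈ Chr K := chr_comp K.subtype (irr_chr hχ)
  have hexp := fun k : K => class_expand (chr_class hres) k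
  have h1 : ρ.character 1 ≠ 0 := by
    obtain ⟨d, hd, hd1⟩ := irr_deg_pos hχ
    rw [hd1]
    exact_mod_cast hd.ne'
  obtain ⟨θ, hθF, hθne⟩ : ∃ θ ∈ irrF K, pr (fun k : K => ρ.character k) θ ≠ 0 := by
    by_contra hcon
    push Not at hcon
    apply h1
    have h2 := hexp 1
    simp only [OneMemClass.coe_one] at h2
    rw [h2]
    exact Finset.sum_eq_zero fun θ hθ => by rw [hcon θ hθ, zero_mul]
  have hθ := mem_irrF.mp hθF
  have hθ1 : θ 1 ≠ 0 := by
    obtain ⟨d, hd, hd1⟩ := irr_deg_pos hθ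
    rw [hd1]
    exact_mod_cast hd.ne'
  have hcj : ∀ x : G, (fun k : K => θ (MulAut.conjNormal x k)) ∈ Irr K := fun x =>
    irr_surj (MulAut.conjNormal x : MulAut K).toMonoidHom
      (MulAut.conjNormal x : MulAut K).surjective hθ
  set P := Pj K ρ θ with hP
  have hPP : P * P = P := by rw [hP, Pj_mul ρ hθ hθ, pr_self hθ, one_smul]
  have hP0 : P ≠ 0 := by
    intro h0
    have h2 := Pj_trace ρ θ
    rw [← hP, h0, map_zero] at h2
    exact mul_ne_zero hθ1 hθne h2.symm
  have hconj : ∀ x : G, P * ρ x = ρ x * Pj K ρ (fun k => θ (MulAut.conjNormal x k)) := by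
    intro x
    rw [← Pj_conj ρ hK θ x, ← hP, ← mul_assoc, ← mul_assoc, ← map_mul, mul_inv_cancel, map_one,
      one_mul]
  let T : Subgroup G :=
    { carrier := {g | (fun k : K => θ (MulAut.conjNormal g k)) = θ}
      mul_mem' := by
        intro a b ha hb
        change (fun k : K => θ (MulAut.conjNormal (a * b) k)) = θ
        funext k
        rw [map_mul, MulAut.mul_apply, congrFun ha (MulAut.conjNormal b k), congrFun hb k]
      one_mem' := by
        change (fun k : K => θ (MulAut.conjNormal (1 : G) k)) = θ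
        funext k
        rw [map_one, MulAut.one_apply]
      inv_mem' := by
        intro a ha
        change (fun k : K => θ (MulAut.conjNormal a⁻¹ k)) = θ
        funext k
        rw [← congrFun ha (MulAut.conjNormal a⁻¹ k), ← MulAut.mul_apply, ← map_mul,
          mul_inv_cancel, map_one, MulAut.one_apply] }
  by_cases hT : T = ⊤
  · left
    have hcomm : ∀ x : G, P * ρ x = ρ x * P := by
      intro x
      have hx : x ∈ T := by rw [hT]; exact Subgroup.mem_top x
      have hx' : (fun k : K => θ (MulAut.conjNormal x k)) = θ := hx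
      rw [hconj x, hx']
    obtain ⟨c, hc⟩ := hρ.scalar P (fun g v => LinearMap.congr_fun (hcomm g) v)
    have hPc : P = c • (1 : Module.End ℂ (Fin n → ℂ)) := LinearMap.ext fun v => hc v
    have hP1 : P = 1 := by
      have h2 : (c * c) • (1 : Module.End ℂ (Fin n → ℂ)) = c • (1 : Module.End ℂ (Fin n → ℂ)) := by
        have h3 := hPP
        rw [hPc, smul_mul_smul_comm, one_mul] at h3
        exact h3
      have hnt := hρ.1
      have h3 : c * c = c := smul_left_injective ℂ (one_ne_zero (α := Module.End ℂ (Fin n → ℂ))) h2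
      have h4 : c ≠ 0 := by
        rintro rfl
        rw [zero_smul] at hPc
        exact hP0 hPc
      have h5 : c = 1 := mul_left_cancel₀ h4 (by rw [h3, mul_one])
      rw [hPc, h5, one_smul]
    have hzero : ∀ η ∈ irrF K, η ≠ θ → pr (fun k : K => ρ.character k) η = 0 := by
      intro η hηF hne
      have hη := mem_irrF.mp hηF
      have h2 : Pj K ρ η = 0 := by
        have h3 := Pj_mul ρ hθ hη
        rw [← hP, hP1, one_mul, pr_ne hθ hη (fun h => hne h.symm), zero_smul] at h3
        exact h3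
      have h3 := Pj_trace ρ η
      rw [h2, map_zero] at h3
      have h4 : η 1 ≠ 0 := by
        obtain ⟨d, hd, hd1⟩ := irr_deg_pos hη
        rw [hd1]
        exact_mod_cast hd.ne'
      rcases mul_eq_zero.mp h3.symm with h5 | h5
      · exact absurd h5 h4
      · exact h5
    refine ⟨(pr (fun k : K => ρ.character k) θ)⁻¹, ?_⟩
    have h2 : (fun k : K => (pr (fun k : K => ρ.character k) θ)⁻¹ * ρ.character k) = θ := by
      funext k
      rw [hexp k, Finset.sum_eq_single θ]
      · rw [← mul_assoc, inv_mul_cancel₀ hθne, one_mul]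
      · intro η hη hne
        rw [hzero η hη hne, zero_mul]
      · intro h
        exact absurd hθF h
    change (fun k : K => (pr (fun k : K => ρ.character k) θ)⁻¹ * ρ.character k) ∈ Irr K
    rw [h2]
    exact hθ
  · right
    obtain ⟨φ, hφ, hφ1⟩ := imprim_char hρ T P (fun v => LinearMap.congr_fun hPP v) hP0
      (by
        intro x hx v
        have hx' : (fun k : K => θ (MulAut.conjNormal x k)) = θ := hx
        have h2 := hconj x
        rw [hx'] at h2
        exact LinearMap.congr_fun h2 v)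
      (by
        intro x hx v
        have h2 : P * (ρ x * P) = 0 := by
          have hne : (fun k : K => θ (MulAut.conjNormal x k)) ≠ θ := hx
          rw [← mul_assoc, hconj x, mul_assoc, hP, Pj_mul ρ (hcj x) hθ, pr_ne (hcj x) hθ hne,
            zero_smul, mul_zero]
        exact LinearMap.congr_fun h2 v)
    exact ⟨T, hT, φ, hφ, hφ1⟩

end Pool.Agent.Helper606_LC
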