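import Mathlib
import Pool.Agent.Helper606_LC.Sh

/-!
# The component of a unit modulo `N` at a prime
-/

set_option autoImplicit false
set_option linter.unusedSectionVars false

namespace Pool.Agent.Helper606_LC

/-- the component of a unit -/
lemma exists_comp {A B : ℕ} [NeZero (A * B)] (hAB : Nat.Coprime A B) :
    ∃ c : (ZMod (A * B))ˣ →* (ZMod (A * B))ˣ,
      (∀ k, (c k : ZMod (A * B)).val ≡ (k : ZMod (A * B)).val [MOD A]) ∧
      ∀ k, (c k : ZMod (A * B)).val ≡ 1 [MOD B] := by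
  let e : ZMod (A * B) ≃+* ZMod A × ZMod B := ZMod.chineseRemainder hAB
  let f : (ZMod (A * B))ˣ →* (ZMod A × ZMod B)ˣ := (Units.mapEquiv e.toMulEquiv).toMonoidHom
  let f' : (ZMod A × ZMod B)ˣ →* (ZMod (A * B))ˣ := (Units.mapEquiv e.symm.toMulEquiv).toMonoidHom
  let g : (ZMod A × ZMod B)ˣ →* (ZMod A × ZMod B)ˣ :=
    Units.map (MonoidHom.prod (MonoidHom.fst (ZMod A) (ZMod B)) 1)
  have hfst : ∀ x : ZMod (A * B), (e x).1 = ((x.val : ℕ) : ZMod A) := by
    intro x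
    rw [ZMod.natCast_val]
    exact Prod.fst_zmod_cast x
  have hsnd : ∀ x : ZMod (A * B), (e x).2 = ((x.val : ℕ) : ZMod B) := by
    intro x
    rw [ZMod.natCast_val]
    exact Prod.snd_zmod_cast x
  have hval : ∀ k, e ((f' (g (f k)) : (ZMod (A * B))ˣ) : ZMod (A * B)) = ((e k).1, 1) := by
    intro k
    change e (e.symm ((e k).1, 1)) = ((e k).1, 1)
    rw [RingEquiv.apply_symm_apply]
  refine ⟨f'.comp (g.comp f), fun k => ?_, fun k => ?_⟩
  · have h1 := congrArg Prod.fst (hval k)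
    rw [hfst, hfst] at h1
    exact (ZMod.natCast_eq_natCast_iff _ _ _).mp h1
  · have h1 := congrArg Prod.snd (hval k)
    rw [hsnd] at h1
    have h2 : ((((f' (g (f k)) : (ZMod (A * B))ˣ) : ZMod (A * B)).val : ℕ) : ZMod B)
        = ((1 : ℕ) : ZMod B) := by rw [h1, Nat.cast_one]
    exact (ZMod.natCast_eq_natCast_iff _ _ _).mp h2

lemma val_modEq_one {N M m : ℕ} (hN : 0 < N) (hM : M ∣ N) {w : (ZMod N)ˣ} (hw : w ∈ Ug N m)
    (hm : ¬ m ∣ M) : (w : ZMod N).val ≡ 1 [MOD M] := by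
  have hM0 : 0 < M := Nat.pos_of_dvd_of_pos hM hN
  have hζ := zt_prim hM0
  have hζN : zt M ^ N = 1 := by
    obtain ⟨c, rfl⟩ := hM
    rw [pow_mul, hζ.pow_eq_one, one_pow]
  have h1 : zt M ^ (w : ZMod N).val = zt M ^ 1 := by
    rw [hw (zt M) hζN (by rw [← hζ.eq_orderOf]; exact hm), pow_one]
  rw [pow_eq_pow_mod _ hζ.pow_eq_one, pow_eq_pow_mod 1 hζ.pow_eq_one] at h1
  exact hζ.pow_inj (Nat.mod_lt _ hM0) (Nat.mod_lt _ hM0) h1

/-- the component at a prime, with its action -/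
theorem exists_comp_prime {N : ℕ} (hN : 0 < N) {p : ℕ} (hp : p.Prime) :
    ∃ c : (ZMod N)ˣ →* (ZMod N)ˣ,
      (∀ k, ∀ {X : Type} [Monoid X] (g : X), g ^ N = 1 → IsPi (fun q => q ≠ p) (orderOf g) →
        g ^ (c k : ZMod N).val = g) ∧
      (∀ k, ∀ {X : Type} [Monoid X] (g : X), g ^ N = 1 → IsPi (fun q => q = p) (orderOf g) →
        g ^ (c k : ZMod N).val = g ^ (k : ZMod N).val) ∧
      (∀ a, 0 < a → ∀ w ∈ Ug N (p ^ a), c w = w) ∧
      ∀ r, r.Prime → r ≠ p → ∀ b, 0 < b → ∀ w ∈ Ug N (r ^ b), c w = 1 := by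
  obtain ⟨v, M, hM, hNM⟩ := Nat.exists_eq_pow_mul_and_not_dvd hN.ne' p hp.ne_one
  have hcop : Nat.Coprime (p ^ v) M :=
    Nat.Coprime.pow_left v ((Nat.Prime.coprime_iff_not_dvd hp).mpr hM)
  subst hNM
  have hne : NeZero (p ^ v * M) := ⟨hN.ne'⟩
  obtain ⟨c, hc1, hc2⟩ := exists_comp hcop
  have hcpl : Cpl (fun q => q = p) (fun q => q ≠ p) := fun q _ => Iff.rfl
  have hMpi : IsPi (fun q => q ≠ p) M := by
    intro q _ hqM hqp
    subst hqp
    exact hM hqM
  have hppi : IsPi (fun q => q = p) (p ^ v) := by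
    intro q hq hqp
    exact (Nat.prime_dvd_prime_iff_eq hq hp).mp (hq.dvd_of_dvd_pow hqp)
  have hval : ∀ x y : (ZMod (p ^ v * M))ˣ, (x : ZMod (p ^ v * M)).val ≡ (y : ZMod (p ^ v * M)).val
      [MOD p ^ v] → (x : ZMod (p ^ v * M)).val ≡ (y : ZMod (p ^ v * M)).val [MOD M] → x = y := by
    intro x y h1 h2
    have h3 := (Nat.modEq_and_modEq_iff_modEq_mul hcop).mp ⟨h1, h2⟩
    apply Units.ext
    apply ZMod.val_injective
    have h4 := h3
    rw [Nat.ModEq, Nat.mod_eq_of_lt (ZMod.val_lt _), Nat.mod_eq_of_lt (ZMod.val_lt _)] at h4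
    exact h4
  refine ⟨c, ?_, ?_, ?_, ?_⟩
  · intro k X _ g hg hgo
    have h1 : orderOf g ∣ M := by
      have h2 : orderOf g ∣ p ^ v * M := orderOf_dvd_of_pow_eq_one hg
      exact (hppi.coprime hcpl hgo).symm.dvd_of_dvd_mul_left h2
    have h2 : g ^ (c k : ZMod (p ^ v * M)).val = g ^ 1 :=
      pow_eq_of_modEq (pow_orderOf_eq_one g) ((hc2 k).of_dvd h1)
    rw [h2, pow_one]
  · intro k X _ g hg hgo
    have h1 : orderOf g ∣ p ^ v := by
      have h2 : orderOf g ∣ p ^ v * M := orderOf_dvd_of_pow_eq_one hg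
      exact (hgo.coprime hcpl hMpi).dvd_of_dvd_mul_right h2
    exact pow_eq_of_modEq (pow_orderOf_eq_one g) ((hc1 k).of_dvd h1)
  · intro a ha w hw
    apply hval
    · exact hc1 w
    · refine (hc2 w).trans (val_modEq_one hN (dvd_mul_left M (p ^ v)) hw ?_).symm
      intro h
      exact hM ((dvd_pow_self p ha.ne').trans h)
  · intro r hr hrp b hb w hw
    have hone : ∀ m : ℕ, m ∣ p ^ v * M →
        ((1 : (ZMod (p ^ v * M))ˣ) : ZMod (p ^ v * M)).val ≡ 1 [MOD m] := by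
      intro m hm
      rcases Nat.lt_or_ge 1 (p ^ v * M) with h | h
      · have : Fact (1 < p ^ v * M) := ⟨h⟩
        rw [Units.val_one, ZMod.val_one]
      · have h1 : p ^ v * M = 1 := le_antisymm h hN
        rw [h1] at hm
        rw [Nat.dvd_one.mp hm]
        exact Nat.modEq_one
    apply hval
    · refine (hc1 w).trans ((val_modEq_one hN (dvd_mul_right (p ^ v) M) hw ?_).trans
        (hone _ (dvd_mul_right _ _)).symm)
      intro h
      have h1 : r ∣ p ^ v := (dvd_pow_self r hb.ne').trans h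
      exact hrp ((Nat.prime_dvd_prime_iff_eq hr hp).mp (hr.dvd_of_dvd_pow h1))
    · exact (hc2 w).trans (hone _ (dvd_mul_left _ _)).symm

end Pool.Agent.Helper606_LC
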