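import Mathlib
import Pool.Agent.Helper606_LC.Psi2
import Pool.Agent.Helper606_LC.Si

/-!
# The main induction with tame primes and `p`-solvable primes
-/

set_option autoImplicit false
set_option linter.unusedSectionVars false

namespace Pool.Agent.Helper606_LC

open Pool.Agent.H541R3.ART Pool.Agent.W446.AS Pool.Agent.R389 Pool.Agent.H302R2

/-- `p`-solvable groups -/
def PSp (p : ℕ) (G : Type) [Group G] : Prop := PS (fun q => q = p) (fun q => q ≠ p) G

lemma PS.swap {π π' : ℕ → Prop} {G : Type} [Group G] (h : PS π π' G) : PS π' π G := by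
  obtain ⟨r, M, h0, hr, hn, hle, hst⟩ := h
  exact ⟨r, M, h0, hr, hn, hle, fun i => (hst i).symm⟩

/-- tame primes or `p`-solvable groups -/
def Tm3 (p a : ℕ) (G : Type) [Group G] : Prop := Tm p a G ∨ PSp p G

lemma Tm3.sub {G : Type} [Group G] [Finite G] {p a : ℕ} (hp : p.Prime) (h : Tm3 p a G)
    (H : Subgroup G) : Tm3 p a H :=
  h.imp (fun h => h.sub hp H) (fun h => PS.sub h H)

lemma Tm3.quot {G : Type} [Group G] [Finite G] {p a : ℕ} (hp : p.Prime) (h : Tm3 p a G) {Y : Type}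
    [Group Y] [Finite Y] {π : G →* Y} (hπ : Function.Surjective π) : Tm3 p a Y :=
  h.imp (fun h => h.quot hp hπ) (fun h => PS.map h hπ)

open Classical in
/-- the wild primes in `I` -/
noncomputable def wildQ (G : Type) [Group G] (a : ℕ → ℕ) (I : Finset ℕ) : Finset ℕ :=
  I.filter fun p => ¬ Tm3 p (a p) G

/-- splitting of the Galois action at a prime -/
theorem split_prime {G : Type} [Group G] [Finite G] {N : ℕ} (hN : 0 < N) (hG : Nat.card G ∣ N)
    {χ : G → ℂ} (hχ : χ ∈ Irr G)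
    (hom : ∀ K : Subgroup G, K.Normal → ∃ c : ℂ, IrrOn K (fun g => c * χ g)) {p : ℕ}
    (hps : PSp p G) {c : (ZMod N)ˣ →* (ZMod N)ˣ}
    (h₁ : ∀ k, ∀ {X : Type} [Monoid X] (g : X), g ^ N = 1 → IsPi (fun q => q ≠ p) (orderOf g) →
        g ^ (c k : ZMod N).val = g)
    (h₂ : ∀ k, ∀ {X : Type} [Monoid X] (g : X), g ^ N = 1 → IsPi (fun q => q = p) (orderOf g) →
        g ^ (c k : ZMod N).val = g ^ (k : ZMod N).val) {k : (ZMod N)ˣ} (hk : pw k χ = χ) :
    pw (c k) χ = χ := by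
  classical
  have hcpl : Cpl (fun q => q = p) (fun q => q ≠ p) := fun q _ => Iff.rfl
  obtain ⟨S, hS, hSi⟩ := hall_exists hcpl _ G rfl hps
  obtain ⟨H, hH, hHi⟩ := hall_exists hcpl.symm _ G rfl hps.swap
  obtain ⟨r, M, h0, hr, hn, hle, hst⟩ := hps
  have hCh : Ch (fun q => q = p) (fun q => q ≠ p)
      (fun i => Stp (fun q => q = p) (M i) (M (i + 1)))
      (fun i => ¬ Stp (fun q => q = p) (M i) (M (i + 1))) M S H :=
    { cpl := hcpl
      tyc := fun i => Iff.rfl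
      bot := h0
      norm := hn
      le := hle
      st := fun i h => h
      st' := fun i h => (hst i).resolve_left h
      hS := hS
      hSi := hSi
      hH := hH
      hHi := hHi }
  refine split_gal hCh hr hN hG hχ (fun j => hom (M j) (hn j)) (k := k) (k₁ := c k)
    (k₂ := (c k)⁻¹ * k) (by rw [mul_inv_cancel_left]) (fun g hg => h₁ k g (pow_card_dvd hG g) hg)
    (fun g hg => ?_) hk
  have hgN := pow_card_dvd hG g
  rw [mul_comm, pow_val_mul hN hgN, ← h₂ k g hgN hg, ← pow_val_mul hN hgN, mul_inv_cancel,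
    pow_val_one hN hgN]

/-- **The main induction.** -/
theorem main_psi3 {N : ℕ} (hN : 0 < N) (a : ℕ → ℕ) {ℓ : ℕ} [hℓF : Fact ℓ.Prime]
    (ψ : (ZMod N)ˣ →* (AlgebraicClosure (ZMod ℓ))ˣ) :
    ∀ (n : ℕ) (G : Type) [Group G] [Finite G] (hG : Nat.card G ∣ N), Nat.card G = n →
      ∀ χ ∈ Irr G, (∀ k, pw k χ = χ → ψ k = 1) → ∀ I : Finset ℕ, (∀ p ∈ I, p.Prime) →
      (∀ p ∈ I, 0 < a p) →
      (∀ p ∈ I, ∃ u ∈ Ug N (p ^ a p), pw u χ ≠ χ) →
      (∀ p ∈ wildQ G a I, ∃ u ∈ Ug N (p ^ a p), ψ u ≠ 1 ∨ ℓ ∣ orderOf (gmk hN hG χ u)) →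
      HasOrd χ (∏ p ∈ I, p ^ a p) := by
  intro n
  induction n using Nat.strong_induction_on with
  | _ n ih =>
  intro G _ _ hG hn χ hχ hψ I
  classical
  induction I using Finset.strongInduction with
  | H I ihI =>
  intro hI ha hA hB
  -- passing to a smaller group
  have hpass : ∀ {G' : Type} [Group G'] [Finite G'] (hG' : Nat.card G' ∣ N), Nat.card G' < n →
      (∀ p ∈ I, Tm3 p (a p) G → Tm3 p (a p) G') → ∀ η ∈ Irr G',
      (∀ k : (ZMod N)ˣ, pw k η = η → pw k χ = χ) → HasOrd η (∏ p ∈ I, p ^ a p) := by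
    intro G' _ _ hG' hlt hcyc η hη hst
    have hfin := gam_finite hN hG' η
    refine ih (Nat.card G') hlt G' hG' rfl η hη (fun k hk => hψ k (hst k hk)) I hI ha ?_ ?_
    · intro p hp
      obtain ⟨u, hu, hu1⟩ := hA p hp
      exact ⟨u, hu, fun h => hu1 (hst u h)⟩
    · intro p hp
      obtain ⟨hp1, hp2⟩ := Finset.mem_filter.mp hp
      obtain ⟨u, hu, hu1⟩ := hB p (Finset.mem_filter.mpr ⟨hp1, fun h => hp2 (hcyc p hp1 h)⟩)
      refine ⟨u, hu, hu1.imp_right fun h => h.trans ?_⟩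
      apply orderOf_dvd_of_pow_eq_one
      rw [← map_pow, gmk_eq_one]
      apply hst
      rw [← gmk_eq_one hN hG', map_pow, pow_orderOf_eq_one]
  have hsub : ∀ (H : Subgroup G), H ≠ ⊤ → ∀ η ∈ Irr H, pr (fun h : H => χ h) η ≠ 0 →
      (∀ k : (ZMod N)ˣ, pw k η = η → pw k χ = χ) → HasOrd χ (∏ p ∈ I, p ^ a p) := by
    intro H hH η hη hne hst
    have hHN : Nat.card H ∣ N := H.card_subgroup_dvd_card.trans hG
    refine hasOrd_up hχ hη hne ?_
    exact hpass hHN (by rw [← hn]; exact card_lt_of_ne hH) (fun p hp h => h.sub (hI p hp) H) η hη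
      hst
  by_cases hhom : ∀ K : Subgroup G, K.Normal → ∃ c : ℂ, IrrOn K (fun g => c * χ g)
  swap
  · push Not at hhom
    obtain ⟨K, hK, hKc⟩ := hhom
    rcases homog_or_ind hK hχ with ⟨c, hc⟩ | ⟨H, hH, φ, hφ, hχφ⟩
    · exact absurd hc (hKc c)
    · refine hsub H hH φ hφ (ind_constit hχ hχφ) fun k hk => ?_
      rw [hχφ, pw_ind hN hG, hk]
  by_cases hgood : ∃ p ∈ I, Tm p (a p) G
  swap
  · -- all primes are wild or `p`-solvable
    push Not at hgood
    have hfin := gam_finite hN hG χ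
    have h1 : ∀ p ∈ I, ∃ v ∈ Ug N (p ^ a p), (orderOf (gmk hN hG χ v)).Prime := by
      intro p hp
      obtain ⟨u, hu, hu1⟩ := hA p hp
      exact exists_prime_order hN hG hu hu1
    choose! v hv hv1 using h1
    have h2 : ∀ p : ℕ, ∃ c : (ZMod N)ˣ →* (ZMod N)ˣ, p.Prime →
        (∀ k, ∀ {X : Type} [Monoid X] (g : X), g ^ N = 1 → IsPi (fun q => q ≠ p) (orderOf g) →
          g ^ (c k : ZMod N).val = g) ∧
        (∀ k, ∀ {X : Type} [Monoid X] (g : X), g ^ N = 1 → IsPi (fun q => q = p) (orderOf g) →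
          g ^ (c k : ZMod N).val = g ^ (k : ZMod N).val) ∧
        (∀ a, 0 < a → ∀ w ∈ Ug N (p ^ a), c w = w) ∧
        ∀ r, r.Prime → r ≠ p → ∀ b, 0 < b → ∀ w ∈ Ug N (r ^ b), c w = 1 := by
      intro p
      by_cases hp : p.Prime
      · obtain ⟨c, hc⟩ := exists_comp_prime hN hp
        exact ⟨c, fun _ => hc⟩
      · exact ⟨1, fun h => absurd h hp⟩
    choose c hc using h2
    have h3 : ∀ p : ℕ, ∃ φ : Gam hN hG χ →* (AlgebraicClosure (ZMod ℓ))ˣ, p ∈ I →
        ¬ ℓ ∣ orderOf (gmk hN hG χ (v p)) → φ (gmk hN hG χ (v p)) ≠ 1 := by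
      intro p
      by_cases hp : p ∈ I
      · obtain ⟨φ, hφ⟩ := per_count (I := ({p} : Finset ℕ)) (β := fun p => gmk hN hG χ (v p))
          (fun i hi => by rw [Finset.mem_singleton.mp hi]; exact hv1 p hp) (ℓ := ℓ)
          (fun q hq _ => (Finset.card_filter_le _ _).trans
            (by rw [Finset.card_singleton]; exact hq.one_lt.le))
        exact ⟨φ, fun _ h => (hφ p (Finset.mem_singleton_self p)).resolve_right h⟩
      · exact ⟨1, fun h => absurd h hp⟩
    choose φ hφ using h3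
    let J : Finset ℕ := I.filter fun p => PSp p G ∧ ψ (v p) = 1 ∧
      ¬ ℓ ∣ orderOf (gmk hN hG χ (v p))
    let ψ₂ : (ZMod N)ˣ →* (AlgebraicClosure (ZMod ℓ))ˣ :=
      ψ * ∏ p ∈ J, ((φ p).comp (gmk hN hG χ)).comp (c p)
    have hψ₂ : ∀ k, ψ₂ k = ψ k * ∏ p ∈ J, φ p (gmk hN hG χ (c p k)) := by
      intro k
      rw [MonoidHom.mul_apply, MonoidHom.finsetProd_apply]
      rfl
    have hJ : ∀ p ∈ J, p ∈ I ∧ PSp p G ∧ ψ (v p) = 1 ∧ ¬ ℓ ∣ orderOf (gmk hN hG χ (v p)) :=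
      fun p hp => Finset.mem_filter.mp hp
    have hker : ∀ k, pw k χ = χ → ψ₂ k = 1 := by
      intro k hk
      rw [hψ₂, hψ k hk, one_mul]
      refine Finset.prod_eq_one fun p hp => ?_
      obtain ⟨hpI, hps, -⟩ := hJ p hp
      obtain ⟨hc1, hc2, -⟩ := hc p (hI p hpI)
      rw [(gmk_eq_one hN hG χ).mpr (split_prime hN hG hχ hhom hps hc1 hc2 hk), map_one]
    have hval : ∀ p ∈ I, ∃ u ∈ Ug N (p ^ a p), ψ₂ u ≠ 1 ∨ ℓ ∣ orderOf (gmk hN hG χ u) := by
      intro p hp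
      by_cases hps : PSp p G
      · by_cases hdv : ℓ ∣ orderOf (gmk hN hG χ (v p))
        · exact ⟨v p, hv p hp, Or.inr hdv⟩
        refine ⟨v p, hv p hp, Or.inl ?_⟩
        by_cases hψv : ψ (v p) = 1
        · have hpJ : p ∈ J := Finset.mem_filter.mpr ⟨hp, hps, hψv, hdv⟩
          rw [hψ₂, hψv, one_mul, Finset.prod_eq_single p]
          · obtain ⟨-, -, hc3, -⟩ := hc p (hI p hp)
            rw [hc3 (a p) (ha p hp) (v p) (hv p hp)]
            exact hφ p hp hdv
          · intro q hq hqp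
            obtain ⟨-, -, -, hc4⟩ := hc q (hI q (hJ q hq).1)
            rw [hc4 p (hI p hp) (fun h => hqp h.symm) (a p) (ha p hp) (v p) (hv p hp), map_one,
              map_one]
          · intro h
            exact absurd hpJ h
        · have h4 : ∏ q ∈ J, φ q (gmk hN hG χ (c q (v p))) = 1 := by
            refine Finset.prod_eq_one fun q hq => ?_
            have hqp : q ≠ p := by
              rintro rfl
              exact hψv (hJ q hq).2.2.1
            obtain ⟨-, -, -, hc4⟩ := hc q (hI q (hJ q hq).1)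
            rw [hc4 p (hI p hp) (fun h => hqp h.symm) (a p) (ha p hp) (v p) (hv p hp), map_one,
              map_one]
          rw [hψ₂, h4, mul_one]
          exact hψv
      · obtain ⟨u, hu, hu1⟩ := hB p (Finset.mem_filter.mpr ⟨hp, fun h =>
          h.elim (hgood p hp) hps⟩)
        refine ⟨u, hu, hu1.imp_left fun h => ?_⟩
        have h4 : ∏ q ∈ J, φ q (gmk hN hG χ (c q u)) = 1 := by
          refine Finset.prod_eq_one fun q hq => ?_
          have hqp : q ≠ p := by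
            rintro rfl
            exact hps (hJ q hq).2.1
          obtain ⟨-, -, -, hc4⟩ := hc q (hI q (hJ q hq).1)
          rw [hc4 p (hI p hp) (fun h => hqp h.symm) (a p) (ha p hp) u hu, map_one, map_one]
        rw [hψ₂, h4, mul_one]
        exact h
    choose! u hu hu1 using hval
    obtain ⟨ψ', hψ'⟩ := exists_lift hN hG ψ₂ hker
    have : CharP (AlgebraicClosure (ZMod ℓ)) ℓ := inferInstance
    obtain ⟨K, μ, h2, h3⟩ := crit hN hG hℓF.out hχ (I := I) (m := fun p => p ^ a p)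
      (β := fun p => gmk hN hG χ (u p)) (fun p hp => ⟨u p, hu p hp, rfl⟩) ψ'
      (fun p hp => by rw [hψ']; exact hu1 p hp)
    exact ⟨K, μ, h2, prod_dvd_of_forall hI h3⟩
  obtain ⟨p, hpI, htm⟩ := hgood
  have hp := hI p hpI
  obtain ⟨m, ρ, hρ, rfl⟩ := exists_rep hχ
  by_cases hf : ∀ g, ρ g = 1 → g = 1
  swap
  · -- not faithful
    push Not at hf
    obtain ⟨g₀, hg₀, hg₁⟩ := hf
    let π : G →* G ⧸ ρ.ker := QuotientGroup.mk' _
    have hπ : Function.Surjective π := QuotientGroup.mk'_surjective _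
    obtain ⟨φ, hφ, hφ1⟩ := descend_irr hπ hρ (by
      intro g hg
      rw [QuotientGroup.ker_mk', MonoidHom.mem_ker] at hg
      exact hg)
    have hlt : Nat.card (G ⧸ ρ.ker) < n := by
      have h2 := Subgroup.card_eq_card_quotient_mul_card_subgroup ρ.ker
      have h3 : 1 < Nat.card ρ.ker := by
        have : Nontrivial ρ.ker := ⟨⟨g₀, MonoidHom.mem_ker.mpr hg₀⟩, 1, fun h =>
          hg₁ (congrArg Subtype.val h)⟩
        exact Finite.one_lt_card
      have h4 : 0 < Nat.card (G ⧸ ρ.ker) := Nat.card_pos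
      rw [hn] at h2
      rw [h2]
      nlinarith
    have hQN : Nat.card (G ⧸ ρ.ker) ∣ N := (Subgroup.card_quotient_dvd_card ρ.ker).trans hG
    have hst : ∀ k : (ZMod N)ˣ, pw k φ = φ → pw k ρ.character = ρ.character := by
      intro k hk
      funext g
      change ρ.character (g ^ (k : ZMod N).val) = ρ.character g
      rw [hφ1, hφ1, map_pow]
      exact congrFun hk (π g)
    have h1 := hpass hQN hlt (fun r hr h => h.quot (hI r hr) hπ) φ hφ hst
    obtain ⟨m', τ, -, rfl⟩ := exists_rep hφ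
    obtain ⟨y, z, v, hv, hz, hd⟩ := (hasOrd_iff τ _).mp h1
    obtain ⟨g, rfl⟩ := hπ y
    have h2 : ρ.character = Representation.character (τ.comp π) := funext hφ1
    rw [h2]
    exact (hasOrd_iff (τ.comp π) _).mpr ⟨g, z, v, hv, hz, hd⟩
  -- an element of order `p ^ a p`
  obtain ⟨u, hu, hmv⟩ := hA p hpI
  obtain ⟨s, hs⟩ : ∃ s : G, p ^ a p ∣ orderOf s := by
    by_contra hcon
    push Not at hcon
    apply hmv
    funext g
    change ρ.character (g ^ (u : ZMod N).val) = ρ.character g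
    rw [pow_ug hN hu (pow_card_dvd hG g) (hcon g)]
  have hx₀ : orderOf (s ^ (orderOf s / p ^ a p)) = p ^ a p := exists_power hs
  obtain ⟨A, hAp, hx₀A, hcov, htint, hlast⟩ := htm.redQ hp hx₀
  by_cases hH : Subgroup.normalizer (A : Set G) = ⊤
  swap
  · obtain ⟨η, hη, hne, hst⟩ := reduce hN hG hχ _ hcov htint hu hmv
    exact hsub _ hH η hη hne hst
  have hnormal : A.Normal := Subgroup.normalizer_eq_top_iff.mp hH
  by_cases hab : ∀ B : Subgroup G, B.Normal → (∀ x y : B, x * y = y * x) → B ≤ Subgroup.center G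
  swap
  · push Not at hab
    obtain ⟨B, hBn, hBc, hBz⟩ := hab
    obtain ⟨H, hH1, φ, hφ, hχφ⟩ := clifford_char hρ hf B hBc hBz
    refine hsub H hH1 φ hφ (ind_constit hχ hχφ) fun k hk => ?_
    rw [hχφ, pw_ind hN hG, hk]
  -- a central element of order `p ^ a p`
  obtain ⟨z, hz, hzo⟩ : ∃ z ∈ Subgroup.center G, orderOf z = p ^ a p := by
    rcases hlast with h | h
    · exact ⟨_, hab A hnormal h hx₀A, hx₀⟩
    · exact normal_step hρ hf hp (ha p hpI) A hnormal hAp hx₀A hx₀ hab (fun _ => h hnormal) hN hG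
        hu hmv
  have h1 := ihI (I.erase p) (Finset.erase_ssubset hpI)
    (fun r hr => hI r (Finset.mem_of_mem_erase hr)) (fun r hr => ha r (Finset.mem_of_mem_erase hr))
    (fun r hr => hA r (Finset.mem_of_mem_erase hr))
    (by
      intro t ht
      obtain ⟨ht1, ht2⟩ := Finset.mem_filter.mp ht
      exact hB t (Finset.mem_filter.mpr ⟨Finset.mem_of_mem_erase ht1, ht2⟩))
  rw [← Finset.mul_prod_erase I (fun p => p ^ a p) hpI]
  refine hasOrd_central hρ hf hp hzo hz ?_ h1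
  intro hdvd
  obtain ⟨r, hr, hpr⟩ := (Prime.dvd_finsetProd_iff hp.prime _).mp hdvd
  have h2 := (Nat.prime_dvd_prime_iff_eq hp (hI r (Finset.mem_of_mem_erase hr))).mp
    (hp.dvd_of_dvd_pow hpr)
  exact (Finset.mem_erase.mp hr).1 h2.symm

/-- the universal bound for the missed primes -/
theorem missed3 {N : ℕ} (hN : 0 < N) {G : Type} [Group G] [Finite G] (hG : Nat.card G ∣ N)
    {χ : G → ℂ} (hχ : χ ∈ Irr G) {I : Finset ℕ} {a : ℕ → ℕ} (hI : ∀ p ∈ I, p.Prime)
    (ha : ∀ p ∈ I, 0 < a p) (hmov : ∀ p ∈ I, ∃ u ∈ Ug N (p ^ a p), pw u χ ≠ χ) (w : ℕ → ℕ)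
    (hw : ∀ p ∈ I, 0 < w p) :
    ∃ E ⊆ wildQ G a I, HasOrd χ (∏ p ∈ I \ E, p ^ a p) ∧
      (E = ∅ ∨ 5 * ∑ p ∈ E, w p + 2 ≤ ∑ p ∈ wildQ G a I, w p) := by
  classical
  have hfin := gam_finite hN hG χ
  have h1 : ∀ p ∈ I, ∃ v ∈ Ug N (p ^ a p), (orderOf (gmk hN hG χ v)).Prime := by
    intro p hp
    obtain ⟨u, hu, hu1⟩ := hmov p hp
    exact exists_prime_order hN hG hu hu1
  choose! v hv hv1 using h1
  have hbI : ∀ p ∈ wildQ G a I, p ∈ I := fun p hp => (Finset.mem_filter.mp hp).1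
  obtain ⟨ℓ, hℓF, ψ, E, hEI, hψ, hE⟩ := per_weight (I := wildQ G a I)
    (β := fun p => gmk hN hG χ (v p)) (fun p hp => hv1 p (hbI p hp)) w
    (fun p hp => hw p (hbI p hp))
  refine ⟨E, hEI, ?_, hE⟩
  refine main_psi3 hN a (ψ.comp (gmk hN hG χ)) _ G hG rfl χ hχ ?_ (I \ E)
    (fun p hp => hI p (Finset.mem_sdiff.mp hp).1) (fun p hp => ha p (Finset.mem_sdiff.mp hp).1)
    (fun p hp => hmov p (Finset.mem_sdiff.mp hp).1) ?_
  · intro k hk
    rw [MonoidHom.comp_apply, (gmk_eq_one hN hG χ).mpr hk, map_one]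
  · intro p hp
    obtain ⟨hp1, hp2⟩ := Finset.mem_filter.mp hp
    obtain ⟨hp3, hp4⟩ := Finset.mem_sdiff.mp hp1
    exact ⟨v p, hv p hp3, hψ p (Finset.mem_filter.mpr ⟨hp3, hp2⟩) hp4⟩

end Pool.Agent.Helper606_LC
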