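import Mathlib
import Pool.Agent.Helper606_LC.Psi3
import Pool.Agent.Helper606_LC.Gal2
import Pool.Agent.Helper606_LC.Six

/-!
# Divisors of the conductor, with `p`-solvable primes counted as tame
-/

set_option autoImplicit false
set_option linter.unusedSectionVars false

namespace Pool.Agent.Helper606_LC

open Pool.Agent.H541R3.ART Pool.Agent.W446.AS Pool.Agent.R389

/-- a normal series with indices that are powers of `p` or prime to `p` -/
lemma psp_of_series {p : ℕ} {G : Type} [Group G] [Finite G] (r : ℕ) (M : ℕ → Subgroup G)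
    (h0 : M 0 = ⊥) (hr : M r = ⊤) (hn : ∀ i, (M i).Normal) (hle : ∀ i, M i ≤ M (i + 1))
    (hp : p.Prime)
    (hst : ∀ i, (∃ k, (M i).relIndex (M (i + 1)) = p ^ k) ∨
      ¬ p ∣ (M i).relIndex (M (i + 1))) : PSp p G := by
  refine ⟨r, M, h0, hr, hn, hle, fun i => ?_⟩
  have hpow : ∀ g ∈ M (i + 1), g ^ (M i).relIndex (M (i + 1)) ∈ M i := by
    intro g hg
    have hnm := hn i
    have h1 : ((M i).subgroupOf (M (i + 1))).Normal := inferInstance
    have h2 := Subgroup.pow_index_mem ((M i).subgroupOf (M (i + 1))) (⟨g, hg⟩ : M (i + 1))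
    exact Subgroup.mem_subgroupOf.mp h2
  rcases hst i with ⟨k, hk⟩ | h
  · left
    intro g hg
    refine ⟨(M i).relIndex (M (i + 1)), ?_, hpow g hg⟩
    intro q hq hqd
    rw [hk] at hqd
    exact (Nat.prime_dvd_prime_iff_eq hq hp).mp (hq.dvd_of_dvd_pow hqd)
  · right
    intro g hg
    refine ⟨(M i).relIndex (M (i + 1)), ?_, hpow g hg⟩
    rintro q _ hqd rfl
    exact h hqd

/-- the universal bound, for divisors of the conductor -/
theorem missed_cond3 {G : Type} [Group G] [Finite G] {χ : G → ℂ} (hχ : χ ∈ Irr G) {n : ℕ}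
    (hn : 0 < n) (h : ∀ g, χ g ∈ Qc n)
    (hmin : ∀ m : ℕ, 0 < m → (∀ g, χ g ∈ Qc m) → n ≤ m) {d : ℕ} (hd : d ∣ n) (w : ℕ → ℕ)
    (hw : ∀ p ∈ d.primeFactors, 0 < w p) :
    ∃ e : ℕ, e ∣ d ∧ Nat.Coprime e (d / e) ∧ HasOrd χ e ∧
      (d / e).primeFactors ⊆ wildQ G d.factorization d.primeFactors ∧
      (e = d ∨ 5 * ∑ p ∈ (d / e).primeFactors, w p + 2
        ≤ ∑ p ∈ wildQ G d.factorization d.primeFactors, w p) := by
  classical
  have hd0 : d ≠ 0 := by
    rintro rfl
    rw [zero_dvd_iff] at hd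
    omega
  have hN : 0 < Nat.card G * n := Nat.mul_pos Nat.card_pos hn
  have hpr : ∀ p ∈ d.primeFactors, p.Prime := fun p hp => Nat.prime_of_mem_primeFactors hp
  have hpos : ∀ p ∈ d.primeFactors, 0 < d.factorization p := fun p hp =>
    (hpr p hp).factorization_pos_of_dvd hd0 (Nat.dvd_of_mem_primeFactors hp)
  obtain ⟨E, hE, h1, h2⟩ := missed3 hN (dvd_mul_right (Nat.card G) n) hχ (I := d.primeFactors)
    (a := d.factorization) hpr hpos
    (fun p hp => exists_mov hN (dvd_mul_right _ _) hχ hn (dvd_mul_left _ _) h hmin (hpr p hp)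
      (hpos p hp) ((Nat.ordProj_dvd d p).trans hd)) w hw
  have hEI : E ⊆ d.primeFactors := hE.trans (Finset.filter_subset _ _)
  have hprod : (∏ p ∈ d.primeFactors \ E, p ^ d.factorization p) * ∏ p ∈ E, p ^ d.factorization p
      = d := by
    rw [Finset.prod_sdiff hEI]
    exact Nat.prod_factorization_pow_eq_self hd0
  set e := ∏ p ∈ d.primeFactors \ E, p ^ d.factorization p with he
  set f := ∏ p ∈ E, p ^ d.factorization p with hf
  have he0 : 0 < e := Finset.prod_pos fun p hp =>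
    pow_pos (hpr p (Finset.mem_sdiff.mp hp).1).pos _
  have hdiv : d / e = f := by
    rw [← hprod, Nat.mul_div_cancel_left _ he0]
  have hfac : f.primeFactors = E := by
    ext q
    rw [Nat.mem_primeFactors]
    constructor
    · rintro ⟨hq, hqf, -⟩
      obtain ⟨p, hp, hqp⟩ := (Prime.dvd_finsetProd_iff hq.prime _).mp hqf
      have h3 := (Nat.prime_dvd_prime_iff_eq hq (hpr p (hEI hp))).mp (hq.dvd_of_dvd_pow hqp)
      rw [h3]; exact hp
    · intro hq
      refine ⟨hpr q (hEI hq), ?_, ?_⟩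
      · exact (dvd_pow_self q (hpos q (hEI hq)).ne').trans
          (Finset.dvd_prod_of_mem (fun p => p ^ d.factorization p) hq)
      · exact (Finset.prod_pos fun p hp => pow_pos (hpr p (hEI hp)).pos _).ne'
  have hco : Nat.Coprime e f := by
    rw [he, hf]
    refine Nat.Coprime.prod_left fun p hp => Nat.Coprime.prod_right fun q hq => ?_
    refine Nat.Coprime.pow _ _ ((Nat.coprime_primes (hpr p (Finset.mem_sdiff.mp hp).1)
      (hpr q (hEI hq))).mpr ?_)
    rintro rfl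
    exact (Finset.mem_sdiff.mp hp).2 hq
  refine ⟨e, ⟨f, hprod.symm⟩, by rw [hdiv]; exact hco, h1, by rw [hdiv, hfac]; exact hE, ?_⟩
  rcases h2 with h2 | h2
  · left
    rw [← hprod, hf, h2, Finset.prod_empty, mul_one]
  · right
    rw [hdiv, hfac]
    exact h2

/-- **Fields of values.** -/
theorem field_cond3 {G : Type} [Group G] [Finite G] {χ : G → ℂ} (hχ : χ ∈ Irr G) {n : ℕ}
    (hn : 0 < n) (h : ∀ g, χ g ∈ Qc n)
    (hmin : ∀ m : ℕ, 0 < m → (∀ g, χ g ∈ Qc m) → n ≤ m) {d : ℕ} (hd : d ∣ n)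
    (hdc : Nat.Coprime d (n / d)) {ℓ r : ℕ} (hℓ : ℓ.Prime) (hr : r ∣ n)
    (hwr : ∀ p ∈ wildQ G d.factorization d.primeFactors, p ∣ r)
    (hW : ∀ q : ℕ, q.Prime → q ≠ ℓ →
      ∀ P : Sylow q (Fv (Qc (n / r)) χ ≃ₐ[Qc (n / r)] Fv (Qc (n / r)) χ), IsCyclic P) :
    HasOrd χ d := by
  classical
  have hd0 : d ≠ 0 := by
    rintro rfl
    rw [zero_dvd_iff] at hd
    omega
  have hN : 0 < Nat.card G * n := Nat.mul_pos Nat.card_pos hn
  set N := Nat.card G * n with hNdef
  have hG : Nat.card G ∣ N := dvd_mul_right _ _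
  have hnN : n ∣ N := dvd_mul_left _ _
  have hfin := gam_finite hN hG χ
  have hpr : ∀ p ∈ d.primeFactors, p.Prime := fun p hp => Nat.prime_of_mem_primeFactors hp
  have hpos : ∀ p ∈ d.primeFactors, 0 < d.factorization p := fun p hp =>
    (hpr p hp).factorization_pos_of_dvd hd0 (Nat.dvd_of_mem_primeFactors hp)
  have hmov : ∀ p ∈ d.primeFactors, ∃ u ∈ Ug N (p ^ d.factorization p), pw u χ ≠ χ :=
    fun p hp => exists_mov hN hG hχ hn hnN h hmin (hpr p hp) (hpos p hp)
      ((Nat.ordProj_dvd d p).trans hd)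
  have h1 : ∀ p ∈ d.primeFactors, ∃ v ∈ Ug N (p ^ d.factorization p),
      (orderOf (gmk hN hG χ v)).Prime := by
    intro p hp
    obtain ⟨u, hu, hu1⟩ := hmov p hp
    exact exists_prime_order hN hG hu hu1
  choose! v hv hv1 using h1
  have hbI : ∀ p ∈ wildQ G d.factorization d.primeFactors, p ∈ d.primeFactors :=
    fun p hp => (Finset.mem_filter.mp hp).1
  have hact : ∀ p ∈ wildQ G d.factorization d.primeFactors,
      ∃ f : Fv (Qc (n / r)) χ ≃ₐ[Qc (n / r)] Fv (Qc (n / r)) χ, Acts (Qc (n / r)) χ (v p) f := by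
    intro p hp
    obtain ⟨σ, hσ⟩ := exists_aut_pow hN (v p)
    refine exists_acts hN hG hχ hσ fun z hz => fix_of_mem (fun w hw => ?_) hz
    have hwN : w ^ N = 1 := by
      obtain ⟨c, hc⟩ := (Nat.div_dvd_of_dvd hr).trans hnN
      rw [hc, pow_mul, hw, one_pow]
    rw [hσ w hwN]
    refine hv p (hbI p hp) w hwN fun hpw => ?_
    exact not_dvd_unitary hn hd hdc (hpr p (hbI p hp)) (Nat.dvd_of_mem_primeFactors (hbI p hp))
      (hwr p hp) hr (hpw.trans (orderOf_dvd_of_pow_eq_one hw))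
  have : Fact ℓ.Prime := ⟨hℓ⟩
  obtain ⟨ψ, hψ⟩ := exists_psi (I := wildQ G d.factorization d.primeFactors)
    (β := fun p => gmk hN hG χ (v p)) (fun p hp => hv1 p (hbI p hp)) (ℓ := ℓ) (by
      intro p hp p' hp' hord hne
      obtain ⟨f, hf⟩ := hact p hp
      obtain ⟨f', hf'⟩ := hact p' hp'
      exact same_sub hN hG (hv1 p (hbI p hp)) (hW _ (hv1 p (hbI p hp)) hne) hf hf' rfl hord.symm)
  have hprod : ∏ p ∈ d.primeFactors, p ^ d.factorization p = d :=
    Nat.prod_factorization_pow_eq_self hd0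
  rw [← hprod]
  refine main_psi3 hN d.factorization (ψ.comp (gmk hN hG χ)) _ G hG rfl χ hχ ?_ d.primeFactors
    hpr hpos hmov ?_
  · intro k hk
    rw [MonoidHom.comp_apply, (gmk_eq_one hN hG χ).mpr hk, map_one]
  · intro p hp
    exact ⟨v p, hv p (hbI p hp), hψ p hp⟩

end Pool.Agent.Helper606_LC
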