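import Mathlib
import Pool.Agent.Helper606_LC.Fin3

/-!
# Subfields of the field of values
-/

set_option autoImplicit false
set_option linter.unusedSectionVars false

namespace Pool.Agent.Helper606_LC

open Pool.Agent.H541R3.ART Pool.Agent.W446.AS Pool.Agent.R389

lemma agree_of_mem {m : ℕ} {σ τ : ℂ ≃+* ℂ} (h : ∀ z : ℂ, z ^ m = 1 → σ z = τ z) {z : ℂ}
    (hz : z ∈ Qc m) : σ z = τ z := by
  have h1 : (σ.trans τ.symm) z = z := by
    refine fix_of_mem (fun w hw => ?_) hz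
    change τ.symm (σ w) = w
    rw [h w hw, RingEquiv.symm_apply_apply]
  have h2 : τ.symm (σ z) = z := h1
  rw [← h2, RingEquiv.apply_symm_apply, h2]

variable {K : IntermediateField ℚ ℂ} {N : ℕ}

/-- subfields of cyclotomic fields are normal -/
lemma map_mem (hN : 0 < N) (hK : K ≤ Qc N) (σ : ℂ ≃+* ℂ) {x : ℂ} (hx : x ∈ K) : σ x ∈ K := by
  by_contra hcon
  obtain ⟨τ, h1, h2⟩ := Pool.Agent.TH119.MX.exists_move (F := K.toSubfield) hcon
  apply h2
  obtain ⟨k, hk⟩ := exists_pow_aut hN σ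
  obtain ⟨l, hl⟩ := exists_pow_aut hN τ
  have h3 : (σ.trans τ) x = (τ.trans σ) x := by
    refine agree_of_mem (m := N) (fun z hz => ?_) (hK hx)
    have hz1 : (z ^ (k : ZMod N).val) ^ N = 1 := by rw [← pow_mul, mul_comm, pow_mul, hz, one_pow]
    have hz2 : (z ^ (l : ZMod N).val) ^ N = 1 := by rw [← pow_mul, mul_comm, pow_mul, hz, one_pow]
    change τ (σ z) = σ (τ z)
    rw [hk z hz, hl z hz, hk _ hz2, hl _ hz1, ← pow_mul, ← pow_mul, mul_comm]
  have h4 : τ (σ x) = σ (τ x) := h3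
  rw [h4, h1 x hx]

/-- the restriction of an automorphism -/
noncomputable def rs (hN : 0 < N) (hK : K ≤ Qc N) (σ : ℂ ≃+* ℂ) : K ≃ₐ[ℚ] K where
  toFun := fun x => ⟨σ x, map_mem hN hK σ x.2⟩
  invFun := fun x => ⟨σ.symm x, map_mem hN hK σ.symm x.2⟩
  left_inv := fun x => Subtype.ext (σ.symm_apply_apply x)
  right_inv := fun x => Subtype.ext (σ.apply_symm_apply x)
  map_mul' := fun x y => Subtype.ext (map_mul σ (x : ℂ) y)
  map_add' := fun x y => Subtype.ext (map_add σ (x : ℂ) y)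
  commutes' := fun r => Subtype.ext (by
    have h1 : (algebraMap ℚ ℂ) r = (r : ℂ) := rfl
    change σ ((algebraMap ℚ ℂ) r) = (algebraMap ℚ ℂ) r
    rw [h1, map_ratCast])

lemma rs_coe (hN : 0 < N) (hK : K ≤ Qc N) (σ : ℂ ≃+* ℂ) (x : K) :
    ((rs hN hK σ x : K) : ℂ) = σ x := rfl

/-- the homomorphism to the Galois group -/
noncomputable def Rk (hN : 0 < N) (hK : K ≤ Qc N) : (ZMod N)ˣ →* (K ≃ₐ[ℚ] K) :=
  MonoidHom.mk' (fun k => rs hN hK (Classical.choose (exists_aut_pow hN k))) (by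
    intro k l
    ext x
    change Classical.choose (exists_aut_pow hN (k * l)) (x : ℂ)
      = Classical.choose (exists_aut_pow hN k) (Classical.choose (exists_aut_pow hN l) (x : ℂ))
    have h1 := Classical.choose_spec (exists_aut_pow hN (k * l))
    have h2 := Classical.choose_spec (exists_aut_pow hN k)
    have h3 := Classical.choose_spec (exists_aut_pow hN l)
    refine agree_of_mem (m := N)
      (τ := (Classical.choose (exists_aut_pow hN l)).trans (Classical.choose (exists_aut_pow hN k)))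
      (fun z hz => ?_) (hK x.2)
    have hz1 : (z ^ (l : ZMod N).val) ^ N = 1 := by rw [← pow_mul, mul_comm, pow_mul, hz, one_pow]
    change _ = Classical.choose (exists_aut_pow hN k) (Classical.choose (exists_aut_pow hN l) z)
    rw [h1 z hz, h3 z hz, h2 _ hz1, mul_comm k l, pow_val_mul hN hz])

lemma Rk_coe (hN : 0 < N) (hK : K ≤ Qc N) (k : (ZMod N)ˣ) {σ : ℂ ≃+* ℂ}
    (hσ : ∀ z : ℂ, z ^ N = 1 → σ z = z ^ (k : ZMod N).val) (x : K) :
    ((Rk hN hK k x : K) : ℂ) = σ x := by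
  change Classical.choose (exists_aut_pow hN k) (x : ℂ) = σ x
  refine agree_of_mem (m := N) (fun z hz => ?_) (hK x.2)
  rw [Classical.choose_spec (exists_aut_pow hN k) z hz, hσ z hz]

/-- **Conductors of fields.** If `p ^ a` divides the conductor of `K`, then `K` is moved by an
automorphism which fixes the roots of unity of order not divisible by `p ^ a`. -/
theorem exists_mov_field (hN : 0 < N) {m : ℕ} (hm : 0 < m) (hmN : m ∣ N) (hK : K ≤ Qc m)
    (hmin : ∀ m' : ℕ, 0 < m' → K ≤ Qc m' → m ≤ m') {p a : ℕ} (hp : p.Prime)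
    (ha : 0 < a) (hpa : p ^ a ∣ m) (hKN : K ≤ Qc N) : ∃ u ∈ Ug N (p ^ a), Rk hN hKN u ≠ 1 := by
  have hN' : NeZero N := ⟨hN.ne'⟩
  by_contra hcon
  push Not at hcon
  have hpn : p ∣ m := (dvd_pow_self p ha.ne').trans hpa
  obtain ⟨n₁, hn₁⟩ := hpn
  have hn₁0 : 0 < n₁ := by
    rcases Nat.eq_zero_or_pos n₁ with h0 | h0
    · rw [h0, mul_zero] at hn₁; omega
    · exact h0
  have hlt : n₁ < m := by
    rw [hn₁]
    have := hp.two_le
    nlinarith
  refine absurd (hmin n₁ hn₁0 fun x hx => mem_of_fix fun σ hσ => ?_) (not_le.mpr hlt)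
  -- decompose `N`
  obtain ⟨v, M, hM, hNM⟩ := Nat.exists_eq_pow_mul_and_not_dvd hN.ne' p hp.ne_one
  have hav : a ≤ v := by
    have h1 : p ^ a ∣ p ^ v * M := by rw [← hNM]; exact hpa.trans hmN
    have h2 : Nat.Coprime (p ^ a) M := Nat.Coprime.pow_left a ((Nat.Prime.coprime_iff_not_dvd hp).mpr hM)
    have h3 : p ^ a ∣ p ^ v := h2.dvd_of_dvd_mul_right h1
    exact (Nat.pow_dvd_pow_iff_le_right hp.one_lt).mp h3
  let N₁ := p ^ (a - 1) * M
  have hN₁ : N₁ ∣ N := by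
    rw [hNM]
    exact Nat.mul_dvd_mul_right (pow_dvd_pow p (by omega)) M
  -- the power of `σ`
  obtain ⟨kσ, hkσ⟩ := exists_pow_aut hN σ
  have hk1 : (kσ : ZMod N).val ≡ 1 [MOD n₁] := by
    have hζ : IsPrimitiveRoot (Complex.exp (2 * Real.pi * Complex.I / n₁)) n₁ :=
      Complex.isPrimitiveRoot_exp n₁ hn₁0.ne'
    set ζ := Complex.exp (2 * Real.pi * Complex.I / n₁)
    have h1 : ζ ^ (kσ : ZMod N).val = ζ ^ 1 := by
      rw [← hkσ ζ, hσ ζ hζ.pow_eq_one, pow_one]
      have h2 : n₁ ∣ N := (Dvd.intro_left p hn₁.symm).trans hmN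
      obtain ⟨c, hc⟩ := h2
      rw [hc, pow_mul, hζ.pow_eq_one, one_pow]
    rw [pow_eq_pow_mod _ hζ.pow_eq_one, pow_eq_pow_mod 1 hζ.pow_eq_one] at h1
    exact hζ.pow_inj (Nat.mod_lt _ hn₁0) (Nat.mod_lt _ hn₁0) h1
  have hnp : ¬ p ^ a ∣ N₁ := by
    intro h1
    apply hM
    have h2 : p ^ a = p ^ (a - 1) * p := by rw [← pow_succ]; congr 1; omega
    rw [h2] at h1
    exact Nat.dvd_of_mul_dvd_mul_left (pow_pos hp.pos _) h1
  have hgcd : Nat.gcd m N₁ ∣ n₁ := by
    obtain ⟨c, hc⟩ := Nat.gcd_dvd_left m N₁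
    have hpc : p ∣ c := by
      by_contra hpc
      have h1 : p ^ a ∣ Nat.gcd m N₁ * c := by rw [← hc]; exact hpa
      have h2 : Nat.Coprime (p ^ a) c := Nat.Coprime.pow_left a ((Nat.Prime.coprime_iff_not_dvd hp).mpr hpc)
      exact hnp ((h2.dvd_of_dvd_mul_right h1).trans (Nat.gcd_dvd_right m N₁))
    obtain ⟨c', rfl⟩ := hpc
    refine ⟨c', ?_⟩
    have h1 : p * n₁ = p * (Nat.gcd m N₁ * c') := by
      rw [← hn₁, mul_left_comm]
      exact hc
    exact Nat.eq_of_mul_eq_mul_left hp.pos h1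
  -- the other factor
  obtain ⟨k, hk1n, hkN₁⟩ := Nat.chineseRemainder' (n := m) (m := N₁) (a := 1)
    (b := (kσ : ZMod N).val) ((hk1.symm).of_dvd hgcd)
  have hkcop : k.Coprime N := by
    apply Nat.coprime_of_dvd
    intro r hr hrk hrN
    by_cases hrp : r ∣ m
    · have h1 : k ≡ 1 [MOD r] := hk1n.of_dvd hrp
      have h2 : r ∣ 1 := (Nat.ModEq.dvd_iff h1 (dvd_refl r)).mp hrk
      exact hr.one_lt.ne' (Nat.dvd_one.mp h2)
    · have hrN₁ : r ∣ N₁ := by
        have h3 : r ∣ p ^ v * M := by rw [← hNM]; exact hrN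
        rcases hr.dvd_mul.mp h3 with h4 | h4
        · exfalso
          apply hrp
          have h5 := (Nat.prime_dvd_prime_iff_eq hr hp).mp (hr.dvd_of_dvd_pow h4)
          rw [h5, hn₁]
          exact dvd_mul_right p n₁
        · exact h4.mul_left _
      have h1 : k ≡ (kσ : ZMod N).val [MOD r] := hkN₁.of_dvd hrN₁
      have h2 : r ∣ (kσ : ZMod N).val := (Nat.ModEq.dvd_iff h1 (dvd_refl r)).mp hrk
      have h3 := ZMod.val_coe_unit_coprime kσ
      have h4 : r ∣ 1 := by rw [← h3]; exact Nat.dvd_gcd h2 hrN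
      exact hr.one_lt.ne' (Nat.dvd_one.mp h4)
  let kK : (ZMod N)ˣ := ZMod.unitOfCoprime k hkcop
  have hkK : ∀ z : ℂ, z ^ N = 1 → z ^ (kK : ZMod N).val = z ^ k := by
    intro z hz
    apply pow_eq_of_modEq hz
    rw [ZMod.coe_unitOfCoprime, ZMod.val_natCast]
    exact Nat.mod_modEq k N
  have h2 : kK⁻¹ * kσ ∈ Ug N (p ^ a) := by
    intro z hz hpz
    have hz1 : z ^ N₁ = 1 := by
      apply orderOf_dvd_iff_pow_eq_one.mp
      have h3 : orderOf z ∣ N := orderOf_dvd_of_pow_eq_one hz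
      have h0 : 0 < orderOf z := Nat.pos_of_dvd_of_pos h3 hN
      obtain ⟨w, R, hR, hzR⟩ := Nat.exists_eq_pow_mul_and_not_dvd h0.ne' p hp.ne_one
      have hwa : w ≤ a - 1 := by
        by_contra hcon2
        apply hpz
        rw [hzR]
        exact (pow_dvd_pow p (by omega)).mul_right R
      have hRM : R ∣ M := by
        have h4 : R ∣ p ^ v * M := by
          rw [← hNM]
          exact (Dvd.intro_left (p ^ w) hzR.symm).trans h3
        have h5 : Nat.Coprime R (p ^ v) :=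
          (Nat.Coprime.pow_left v ((Nat.Prime.coprime_iff_not_dvd hp).mpr hR)).symm
        exact h5.dvd_of_dvd_mul_left h4
      rw [hzR]
      exact mul_dvd_mul (pow_dvd_pow p hwa) hRM
    have h3 : z ^ (kσ : ZMod N).val = z ^ (kK : ZMod N).val := by
      rw [hkK z hz]
      exact (pow_eq_of_modEq hz1 hkN₁).symm
    rw [mul_comm, pow_val_mul hN hz, h3, ← pow_val_mul hN hz, mul_inv_cancel, pow_val_one hN hz]
  have h4 := hcon _ h2
  have h5 : Rk hN hKN kK = 1 := by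
    obtain ⟨τ, hτ⟩ := exists_aut_pow hN kK
    ext x
    rw [Rk_coe hN hKN kK hτ]
    refine fix_of_mem (m := m) (fun z hz => ?_) (hK x.2)
    have hzN : z ^ N = 1 := by
      obtain ⟨c, hc⟩ := hmN
      rw [hc, pow_mul, hz, one_pow]
    rw [hτ z hzN, hkK z hzN, pow_eq_of_modEq hz hk1n, pow_one]
  have h6 : Rk hN hKN kσ = 1 := by
    have h7 : kσ = kK * (kK⁻¹ * kσ) := by rw [mul_inv_cancel_left]
    rw [h7, map_mul, h4, h5, one_mul]
  rw [← Rk_coe hN hKN kσ hkσ ⟨x, hx⟩, h6]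
  rfl

/-- **Subfields of the field of values.** -/
theorem subfield_cond {G : Type} [Group G] [Finite G] {χ : G → ℂ} (hχ : χ ∈ Irr G) {n : ℕ}
    (hn : 0 < n) (h : ∀ g, χ g ∈ Qc n)
    (hmin : ∀ m : ℕ, 0 < m → (∀ g, χ g ∈ Qc m) → n ≤ m) {d : ℕ} (hd : d ∣ n)
    (hKχ : K ≤ IntermediateField.adjoin ℚ (Set.range χ)) {m : ℕ} (hm : 0 < m) (hKm : K ≤ Qc m)
    (hmin' : ∀ m' : ℕ, 0 < m' → K ≤ Qc m' → m ≤ m') {ℓ : ℕ} (hℓ : ℓ.Prime)
    (hdm : ∀ p ∈ wildQ G d.factorization d.primeFactors, p ^ d.factorization p ∣ m)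
    (hW : ∀ q : ℕ, q.Prime → q ≠ ℓ → ∀ P : Sylow q (K ≃ₐ[ℚ] K), IsCyclic P) :
    HasOrd χ d := by
  classical
  have hd0 : d ≠ 0 := by
    rintro rfl
    rw [zero_dvd_iff] at hd
    omega
  have hN : 0 < Nat.card G * n * m := Nat.mul_pos (Nat.mul_pos Nat.card_pos hn) hm
  set N := Nat.card G * n * m with hNdef
  have hG : Nat.card G ∣ N := (dvd_mul_right _ _).mul_right _
  have hnN : n ∣ N := (dvd_mul_left _ _).mul_right _
  have hmN : m ∣ N := dvd_mul_left _ _
  have hKN : K ≤ Qc N := by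
    refine hKm.trans (IntermediateField.adjoin.mono ℚ _ _ ?_)
    intro z hz
    obtain ⟨c, hc⟩ := hmN
    change z ^ N = 1
    rw [hc, pow_mul, show z ^ m = 1 from hz, one_pow]
  have hfin := gam_finite hN hG χ
  have hpr : ∀ p ∈ d.primeFactors, p.Prime := fun p hp => Nat.prime_of_mem_primeFactors hp
  have hpos : ∀ p ∈ d.primeFactors, 0 < d.factorization p := fun p hp =>
    (hpr p hp).factorization_pos_of_dvd hd0 (Nat.dvd_of_mem_primeFactors hp)
  have hmov : ∀ p ∈ d.primeFactors, ∃ u ∈ Ug N (p ^ d.factorization p), pw u χ ≠ χ :=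
    fun p hp => exists_mov hN hG hχ hn hnN h hmin (hpr p hp) (hpos p hp)
      ((Nat.ordProj_dvd d p).trans hd)
  -- elements fixing `χ` fix `K`
  have hfix : ∀ k : (ZMod N)ˣ, pw k χ = χ → Rk hN hKN k = 1 := by
    intro k hk
    obtain ⟨σ, hσ⟩ := exists_aut_pow hN k
    have h1 : ∀ x ∈ IntermediateField.adjoin ℚ (Set.range χ), σ x = x := by
      intro x hx
      induction hx using IntermediateField.adjoin_induction with
      | mem x hx =>
        obtain ⟨g, rfl⟩ := hx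
        rw [irr_pow hN hσ hχ (pow_card_dvd hG g)]
        exact congrFun hk g
      | algebraMap x =>
        have h1 : (algebraMap ℚ ℂ) x = (x : ℂ) := rfl
        rw [h1, map_ratCast]
      | add a b _ _ ha hb => rw [map_add, ha, hb]
      | inv a _ ha => rw [map_inv₀, ha]
      | mul a b _ _ ha hb => rw [map_mul, ha, hb]
    ext x
    rw [Rk_coe hN hKN k hσ]
    exact h1 x (hKχ x.2)
  have hNz : NeZero N := ⟨hN.ne'⟩
  let Γ := (ZMod N)ˣ ⧸ (Rk hN hKN).ker
  have hΓ : Finite Γ := inferInstanceAs (Finite ((ZMod N)ˣ ⧸ (Rk hN hKN).ker))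
  let mk : (ZMod N)ˣ →* Γ := QuotientGroup.mk' _
  have hmk : ∀ k, mk k = 1 ↔ Rk hN hKN k = 1 := fun k =>
    (QuotientGroup.eq_one_iff k).trans MonoidHom.mem_ker
  have hord : ∀ k, orderOf (mk k) = orderOf (Rk hN hKN k) := by
    intro k
    refine orderOf_eq_orderOf_iff.mpr fun j => ?_
    rw [← map_pow, ← map_pow, hmk]
  have hbI : ∀ p ∈ wildQ G d.factorization d.primeFactors, p ∈ d.primeFactors :=
    fun p hp => (Finset.mem_filter.mp hp).1
  have h1 : ∀ p ∈ wildQ G d.factorization d.primeFactors, ∃ v ∈ Ug N (p ^ d.factorization p),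
      (orderOf (mk v)).Prime := by
    intro p hp
    obtain ⟨u, hu, hu1⟩ := exists_mov_field hN hm hmN hKm hmin' (hpr p (hbI p hp))
      (hpos p (hbI p hp)) (hdm p hp) hKN
    have h2 : orderOf (mk u) ≠ 1 := fun h2 => hu1 ((hmk u).mp (orderOf_eq_one_iff.mp h2))
    obtain ⟨q, hq, hqd⟩ := Nat.exists_prime_and_dvd h2
    refine ⟨u ^ (orderOf (mk u) / q), ug_pow hN hu _, ?_⟩
    rw [map_pow, orderOf_pow_orderOf_div (orderOf_pos _).ne' hqd]
    exact hq
  choose! v hv hv1 using h1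
  have : Fact ℓ.Prime := ⟨hℓ⟩
  obtain ⟨ψ, hψ⟩ := exists_psi (I := wildQ G d.factorization d.primeFactors)
    (β := fun p => mk (v p)) hv1 (ℓ := ℓ) (by
      intro p hp p' hp' hoo hne
      have hq := hv1 p hp
      have hcomm : Rk hN hKN (v p) * Rk hN hKN (v p') = Rk hN hKN (v p') * Rk hN hKN (v p) := by
        rw [← map_mul, ← map_mul, mul_comm]
      have ho1 : orderOf (Rk hN hKN (v p)) = orderOf (mk (v p)) := (hord _).symm
      have ho2 : orderOf (Rk hN hKN (v p')) = orderOf (mk (v p)) := by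
        rw [← hord]; exact hoo.symm
      obtain ⟨t, ht⟩ := pow_of_cyc hq (hW _ hq hne) ho1 ho2 hcomm
      refine ⟨t, ?_⟩
      have h3 : mk (v p' * ((v p) ^ t)⁻¹) = 1 := by
        rw [hmk, map_mul, map_inv, map_pow, ht, mul_inv_cancel]
      rw [map_mul, map_inv, map_pow, mul_inv_eq_one] at h3
      exact h3)
  have hprod : ∏ p ∈ d.primeFactors, p ^ d.factorization p = d :=
    Nat.prod_factorization_pow_eq_self hd0
  rw [← hprod]
  refine main_psi3 hN d.factorization (ψ.comp mk) _ G hG rfl χ hχ ?_ d.primeFactors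
    hpr hpos hmov ?_
  · intro k hk
    rw [MonoidHom.comp_apply, (hmk k).mpr (hfix k hk), map_one]
  · intro p hp
    refine ⟨v p, hv p hp, (hψ p hp).imp_right fun h2 => h2.trans ?_⟩
    apply orderOf_dvd_of_pow_eq_one
    rw [← map_pow, hmk]
    apply hfix
    rw [← gmk_eq_one hN hG, map_pow, pow_orderOf_eq_one]

end Pool.Agent.Helper606_LC
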