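import Mathlib
import Pool.Agent.Helper606_LC.Sub

/-!
# Characters of finite abelian groups which are nontrivial on given subgroups
-/

set_option autoImplicit false
set_option linter.unusedSectionVars false

namespace Pool.Agent.Helper606_LC

section one

variable {P : Type*} [CommGroup P] [Finite P] {F : Type*} [Field F] {ι : Type*}

/-- characters trivial on a subgroup -/
lemma card_bad {ℓ : ℕ} [Fact ℓ.Prime] (hP : ¬ ℓ ∣ Nat.card P) (E : Subgroup P) :
    Nat.card {ψ : P →* (AlgebraicClosure (ZMod ℓ))ˣ // ∀ x ∈ E, ψ x = 1} * Nat.card E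
      ≤ Nat.card P := by
  have hexp : Monoid.exponent (P ⧸ E) ∣ Nat.card P :=
    (Group.exponent_dvd_nat_card).trans (Subgroup.card_quotient_dvd_card E)
  have hne : NeZero ((Monoid.exponent (P ⧸ E) : ℕ) : AlgebraicClosure (ZMod ℓ)) := by
    refine ⟨fun h => hP ?_⟩
    exact ((CharP.cast_eq_zero_iff (AlgebraicClosure (ZMod ℓ)) ℓ _).mp h).trans hexp
  have h1 : Nat.card ((P ⧸ E) →* (AlgebraicClosure (ZMod ℓ))ˣ) = Nat.card (P ⧸ E) :=
    CommGroup.card_monoidHom_of_hasEnoughRootsOfUnity _ _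
  have h0 : 0 < Nat.card (P ⧸ E) := Nat.card_pos
  have hfin : Finite ((P ⧸ E) →* (AlgebraicClosure (ZMod ℓ))ˣ) :=
    Nat.finite_of_card_ne_zero (by rw [h1]; exact h0.ne')
  let f : {ψ : P →* (AlgebraicClosure (ZMod ℓ))ˣ // ∀ x ∈ E, ψ x = 1} →
      ((P ⧸ E) →* (AlgebraicClosure (ZMod ℓ))ˣ) := fun ψ => QuotientGroup.lift E ψ.1 ψ.2
  have hf : Function.Injective f := by
    intro ψ φ h
    apply Subtype.ext
    ext x
    exact congrArg Units.val (DFunLike.congr_fun h (QuotientGroup.mk x))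
  have h2 := Nat.card_le_card_of_injective f hf
  rw [h1] at h2
  rw [Subgroup.card_eq_card_quotient_mul_card_subgroup E]
  exact Nat.mul_le_mul_right _ h2

/-- one class -/
lemma exists_psi_class {ℓ : ℕ} [Fact ℓ.Prime] (hP : ¬ ℓ ∣ Nat.card P) {J : Finset ι}
    {E : ι → Subgroup P} {h : ι → ℕ} (h1 : ∀ i ∈ J, 1 < h i)
    (hle : ∀ i ∈ J, h i ≤ Nat.card (E i)) (hs : ∑ i ∈ J, (1 / h i : ℚ) ≤ 1) :
    ∃ ψ : P →* (AlgebraicClosure (ZMod ℓ))ˣ, ∀ i ∈ J, ∃ x ∈ E i, ψ x ≠ 1 := by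
  classical
  by_contra hcon
  push Not at hcon
  have hexp : Monoid.exponent P ∣ Nat.card P := Group.exponent_dvd_nat_card
  have hne : NeZero ((Monoid.exponent P : ℕ) : AlgebraicClosure (ZMod ℓ)) := by
    refine ⟨fun h => hP ?_⟩
    exact ((CharP.cast_eq_zero_iff (AlgebraicClosure (ZMod ℓ)) ℓ _).mp h).trans hexp
  have hcard : Nat.card (P →* (AlgebraicClosure (ZMod ℓ))ˣ) = Nat.card P :=
    CommGroup.card_monoidHom_of_hasEnoughRootsOfUnity _ _
  have h0 : 0 < Nat.card P := Nat.card_pos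
  have hfin : Finite (P →* (AlgebraicClosure (ZMod ℓ))ˣ) :=
    Nat.finite_of_card_ne_zero (by rw [hcard]; exact h0.ne')
  have : Fintype (P →* (AlgebraicClosure (ZMod ℓ))ˣ) := Fintype.ofFinite _
  -- the bad characters
  let B : ι → Finset (P →* (AlgebraicClosure (ZMod ℓ))ˣ) := fun i =>
    Finset.univ.filter fun ψ => ∀ x ∈ E i, ψ x = 1
  have hB : ∀ i ∈ J, ((B i).card : ℚ) ≤ Nat.card P * (1 / h i : ℚ) := by
    intro i hi
    have h2 : (B i).card = Nat.card {ψ : P →* (AlgebraicClosure (ZMod ℓ))ˣ // ∀ x ∈ E i, ψ x = 1} := by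
      rw [Nat.card_eq_fintype_card, Fintype.card_subtype]
    have h3 : (B i).card * h i ≤ Nat.card P := by
      rw [h2]
      exact (Nat.mul_le_mul_left _ (hle i hi)).trans (card_bad hP (E i))
    have h4 : (0 : ℚ) < h i := by exact_mod_cast (zero_lt_one.trans (h1 i hi))
    rw [mul_one_div, le_div_iff₀ h4]
    exact_mod_cast h3
  have hsum : (∑ i ∈ J, ((B i).card : ℚ)) ≤ Nat.card P := by
    refine (Finset.sum_le_sum hB).trans ?_
    rw [← Finset.mul_sum]
    have h5 : (0 : ℚ) ≤ Nat.card P := Nat.cast_nonneg _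
    calc (Nat.card P : ℚ) * ∑ i ∈ J, (1 / h i : ℚ) ≤ Nat.card P * 1 :=
          mul_le_mul_of_nonneg_left hs h5
      _ = Nat.card P := mul_one _
  have hdc : ∑ i ∈ J, (B i).card = ∑ ψ : P →* (AlgebraicClosure (ZMod ℓ))ˣ,
      (J.filter (fun i => ∀ x ∈ E i, ψ x = 1)).card := by
    simp only [Finset.card_eq_sum_ones, B, Finset.sum_filter]
    rw [Finset.sum_comm]
  have hge : Nat.card P - 1 + J.card ≤ ∑ i ∈ J, (B i).card := by
    rw [hdc, ← Finset.add_sum_erase _ _ (Finset.mem_univ (1 : P →* (AlgebraicClosure (ZMod ℓ))ˣ))]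
    have h6 : (J.filter (fun i => ∀ x ∈ E i, (1 : P →* (AlgebraicClosure (ZMod ℓ))ˣ) x = 1)).card
        = J.card := by
      rw [Finset.filter_true_of_mem]
      intro i _ x _
      rfl
    have h7 : ∑ ψ ∈ (Finset.univ : Finset (P →* (AlgebraicClosure (ZMod ℓ))ˣ)).erase 1, 1
        ≤ ∑ ψ ∈ (Finset.univ : Finset (P →* (AlgebraicClosure (ZMod ℓ))ˣ)).erase 1,
          (J.filter (fun i => ∀ x ∈ E i, ψ x = 1)).card := by
      refine Finset.sum_le_sum fun ψ _ => ?_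
      obtain ⟨i, hi, hi1⟩ := hcon ψ
      exact Finset.card_pos.mpr ⟨i, Finset.mem_filter.mpr ⟨hi, hi1⟩⟩
    rw [Finset.sum_const, smul_eq_mul, mul_one, Finset.card_erase_of_mem (Finset.mem_univ _),
      Finset.card_univ, ← Nat.card_eq_fintype_card, hcard] at h7
    rw [h6]
    omega
  obtain ⟨i₀, hi₀, -⟩ := hcon 1
  have hJ : 0 < J.card := Finset.card_pos.mpr ⟨i₀, hi₀⟩
  have h8 : Nat.card P - 1 + J.card ≤ Nat.card P := by
    have h9 : ((Nat.card P - 1 + J.card : ℕ) : ℚ) ≤ (Nat.card P : ℚ) := by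
      refine le_trans ?_ hsum
      exact_mod_cast hge
    exact_mod_cast h9
  have h9 : J.card = 1 := by omega
  obtain ⟨j, hj⟩ := Finset.card_eq_one.mp h9
  rw [hj, Finset.sum_singleton] at hge
  rw [Finset.card_singleton] at hge
  have hjJ : j ∈ J := by rw [hj]; exact Finset.mem_singleton_self j
  have h10 := hB j hjJ
  have h11 := h1 j hjJ
  have h12 : (0 : ℚ) < h j := by exact_mod_cast (zero_lt_one.trans h11)
  rw [mul_one_div, le_div_iff₀ h12] at h10
  have h13 : (B j).card * h j ≤ Nat.card P := by exact_mod_cast h10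
  have h14 : Nat.card P ≤ (B j).card := by omega
  nlinarith

end one

/-- **Characters nontrivial on given subgroups.** -/
theorem exists_psi_sum {Γ : Type*} [CommGroup Γ] [Finite Γ] {ι : Type*} {I : Finset ι}
    {D : ι → Subgroup Γ} {ℓ : ℕ} [hℓF : Fact ℓ.Prime] {c h : ι → ℕ}
    (hℓ : ∀ i ∈ I, ¬ ℓ ∣ Nat.card (D i)) (h1 : ∀ i ∈ I, 1 < h i)
    (hd : ∀ i ∈ I, h i ∣ Nat.card (D i))
    (hco : ∀ i ∈ I, ∀ j ∈ I, c i ≠ c j → Nat.Coprime (h i) (h j))
    (hs : ∀ t, ∑ i ∈ I.filter (fun i => c i = t), (1 / h i : ℚ) ≤ 1) :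
    ∃ ψ : Γ →* (AlgebraicClosure (ZMod ℓ))ˣ, ∀ i ∈ I, ∃ x ∈ D i, ψ x ≠ 1 := by
  classical
  let π : ℕ → ℕ → Prop := fun t q => ∃ i ∈ I, c i = t ∧ q ∣ h i
  have hcpl : ∀ t, Cpl (π t) (fun q => ¬ π t q) := fun t q _ => Iff.rfl
  have hsp : ∀ t, ∃ a b : ℕ, Nat.card Γ = a * b ∧ IsPi (π t) a ∧ IsPi (fun q => ¬ π t q) b :=
    fun t => exists_split (hcpl t) _ Nat.card_pos
  choose A B hAB hA hB using hsp
  have hcop : ∀ t, Nat.Coprime (A t) (B t) := fun t => (hA t).coprime (hcpl t) (hB t)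
  have hℓA : ∀ t, ¬ ℓ ∣ A t := by
    intro t hdvd
    obtain ⟨i, hi, -, hq⟩ := hA t ℓ hℓF.out hdvd
    exact hℓ i hi (hq.trans (hd i hi))
  -- one class
  have hcl : ∀ t, ∃ Ψ : Γ →* (AlgebraicClosure (ZMod ℓ))ˣ,
      (∀ y : Γ, y ^ B t = 1 → Ψ y = 1) ∧ (∀ y : Γ, Ψ y ^ A t = 1) ∧
      ∀ i ∈ I, c i = t → ∃ y ∈ D i, Ψ y ≠ 1 := by
    intro t
    let f : Γ →* Γ := powMonoidHom (B t)
    let P : Subgroup Γ := f.range
    have hPp : ∀ x : P, x ^ A t = 1 := by
      rintro ⟨x, y, rfl⟩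
      apply Subtype.ext
      change (y ^ B t) ^ A t = 1
      rw [← pow_mul, mul_comm, ← hAB t, pow_card_eq_one']
    have hPc : ¬ ℓ ∣ Nat.card P := by
      intro hdvd
      obtain ⟨x, hx⟩ := exists_prime_orderOf_dvd_card' ℓ hdvd
      apply hℓA t
      rw [← hx]
      exact orderOf_dvd_of_pow_eq_one (hPp x)
    let E : ι → Subgroup P := fun i => (f.rangeRestrict.comp (D i).subtype).range
    obtain ⟨ψ, hψ⟩ := exists_psi_class (J := I.filter (fun i => c i = t)) (E := E) (h := h) hPc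
      (fun i hi => h1 i (Finset.mem_filter.mp hi).1) (by
        intro i hi
        obtain ⟨hiI, hit⟩ := Finset.mem_filter.mp hi
        refine Nat.le_of_dvd Nat.card_pos ?_
        set e := f.rangeRestrict.comp (D i).subtype with he
        have h2 := Subgroup.card_eq_card_quotient_mul_card_subgroup e.ker
        have h3 : Nat.card (D i ⧸ e.ker) = Nat.card e.range :=
          Nat.card_congr (QuotientGroup.quotientKerEquivRange e).toEquiv
        rw [h3] at h2
        have h4 : IsPi (fun q => ¬ π t q) (Nat.card e.ker) := by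
          intro q hq hqd
          have : Fact q.Prime := ⟨hq⟩
          obtain ⟨x, hx⟩ := exists_prime_orderOf_dvd_card' q hqd
          refine hB t q hq ?_
          rw [← hx]
          apply orderOf_dvd_of_pow_eq_one
          apply Subtype.ext
          apply Subtype.ext
          have h5 : e x.1 = 1 := x.2
          have h6 : ((e x.1 : P) : Γ) = 1 := by rw [h5]; rfl
          exact h6
        have h5 : IsPi (π t) (h i) := fun q _ hqd => ⟨i, hiI, hit, hqd⟩
        have h6 : Nat.Coprime (h i) (Nat.card e.ker) := h5.coprime (hcpl t) h4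
        have h7 : h i ∣ Nat.card e.range * Nat.card e.ker := by rw [← h2]; exact hd i hiI
        exact h6.dvd_of_dvd_mul_right h7) (hs t)
    refine ⟨ψ.comp f.rangeRestrict, ?_, ?_, ?_⟩
    · intro y hy
      have h2 : f.rangeRestrict y = 1 := Subtype.ext hy
      rw [MonoidHom.comp_apply, h2, map_one]
    · intro y
      rw [MonoidHom.comp_apply, ← map_pow, hPp, map_one]
    · intro i hi hit
      obtain ⟨x, ⟨y, rfl⟩, hx⟩ := hψ i (Finset.mem_filter.mpr ⟨hi, hit⟩)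
      exact ⟨y, y.2, hx⟩
  choose Ψ hΨ1 hΨ2 hΨ3 using hcl
  refine ⟨∏ t ∈ I.image c, Ψ t, fun i hi => ?_⟩
  obtain ⟨y, hy, hy1⟩ := hΨ3 (c i) i hi rfl
  refine ⟨y ^ B (c i), pow_mem hy _, ?_⟩
  rw [MonoidHom.finsetProd_apply, Finset.prod_eq_single (c i)]
  · rw [map_pow]
    intro h2
    apply hy1
    rw [← orderOf_eq_one_iff]
    exact Nat.dvd_one.mp ((hcop (c i)) ▸ Nat.dvd_gcd (orderOf_dvd_of_pow_eq_one (hΨ2 (c i) y))
      (orderOf_dvd_of_pow_eq_one h2))
  · intro s hs' hne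
    apply hΨ1 s
    obtain ⟨j, hj, rfl⟩ := Finset.mem_image.mp hs'
    have h2 : Nat.Coprime (A (c i)) (A (c j)) := by
      apply Nat.coprime_of_dvd
      intro q hq hq1 hq2
      obtain ⟨i', hi', hci, hqi⟩ := hA _ q hq hq1
      obtain ⟨j', hj', hcj, hqj⟩ := hA _ q hq hq2
      have h3 := hco i' hi' j' hj' (by rw [hci, hcj]; exact fun h => hne h.symm)
      exact hq.one_lt.ne' (Nat.dvd_one.mp (h3 ▸ Nat.dvd_gcd hqi hqj))
    have h3 : A (c i) ∣ B (c j) := by
      apply h2.dvd_of_dvd_mul_left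
      rw [← hAB, hAB (c i)]
      exact dvd_mul_right _ _
    obtain ⟨m, hm⟩ := h3
    rw [← pow_mul, hm, ← mul_assoc, mul_comm (B (c i)), ← hAB, pow_mul, pow_card_eq_one', one_pow]
  · intro h2
    exact absurd (Finset.mem_image_of_mem c hi) h2

end Pool.Agent.Helper606_LC
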