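import Mathlib
import Pool.Agent.Helper606_LC.Cnt

/-!
# Inertia groups of characters and their orders
-/

set_option autoImplicit false
set_option linter.unusedSectionVars false

namespace Pool.Agent.Helper606_LC

open Pool.Agent.H541R3.ART Pool.Agent.W446.AS Pool.Agent.R389

variable {G : Type} [Group G] [Finite G] {N : ℕ}

/-- an automorphism fixing the roots of unity of order dividing `n / p` acts on the values as an
element of `Ug` -/
theorem exists_ug (hN : 0 < N) (hG : Nat.card G ∣ N) {χ : G → ℂ} (hχ : χ ∈ Irr G) {n : ℕ}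
    (hn : 0 < n) (hnN : n ∣ N) (h : ∀ g, χ g ∈ Qc n) {p a : ℕ} (hp : p.Prime)
    (ha : 0 < a) (hpa : p ^ a ∣ n) {σ : ℂ ≃+* ℂ} (hσ : ∀ z : ℂ, z ^ (n / p) = 1 → σ z = z) :
    ∃ u ∈ Ug N (p ^ a), ∀ g, σ (χ g) = pw u χ g := by
  have hN' : NeZero N := ⟨hN.ne'⟩
  have hpn : p ∣ n := (dvd_pow_self p ha.ne').trans hpa
  obtain ⟨n₁, hn₁⟩ := hpn
  have hdiv : n / p = n₁ := by rw [hn₁, Nat.mul_div_cancel_left _ hp.pos]
  rw [hdiv] at hσ
  have hn₁0 : 0 < n₁ := by
    rcases Nat.eq_zero_or_pos n₁ with h0 | h0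
    · rw [h0, mul_zero] at hn₁; omega
    · exact h0
  -- decompose `N`
  obtain ⟨v, M, hM, hNM⟩ := Nat.exists_eq_pow_mul_and_not_dvd hN.ne' p hp.ne_one
  have hav : a ≤ v := by
    have h1 : p ^ a ∣ p ^ v * M := by rw [← hNM]; exact hpa.trans hnN
    have h2 : Nat.Coprime (p ^ a) M := Nat.Coprime.pow_left a ((Nat.Prime.coprime_iff_not_dvd hp).mpr hM)
    have h3 : p ^ a ∣ p ^ v := h2.dvd_of_dvd_mul_right h1
    exact (Nat.pow_dvd_pow_iff_le_right hp.one_lt).mp h3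
  let N₁ := p ^ (a - 1) * M
  have hN₁ : N₁ ∣ N := by
    rw [hNM]
    exact Nat.mul_dvd_mul_right (pow_dvd_pow p (by omega)) M
  -- the power of `σ`
  obtain ⟨kσ, hkσ⟩ := exists_pow_aut hN σ
  have hk1 : (kσ : ZMod N).val ≡ 1 [MOD n₁] := by
    have hζ : IsPrimitiveRoot (Complex.exp (2 * Real.pi * Complex.I / n₁)) n₁ :=
      Complex.isPrimitiveRoot_exp n₁ hn₁0.ne'
    set ζ := Complex.exp (2 * Real.pi * Complex.I / n₁)
    have h1 : ζ ^ (kσ : ZMod N).val = ζ ^ 1 := by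
      rw [← hkσ ζ, hσ ζ hζ.pow_eq_one, pow_one]
      have h2 : n₁ ∣ N := (Dvd.intro_left p hn₁.symm).trans hnN
      obtain ⟨c, hc⟩ := h2
      rw [hc, pow_mul, hζ.pow_eq_one, one_pow]
    rw [pow_eq_pow_mod _ hζ.pow_eq_one, pow_eq_pow_mod 1 hζ.pow_eq_one] at h1
    exact hζ.pow_inj (Nat.mod_lt _ hn₁0) (Nat.mod_lt _ hn₁0) h1
  have hnp : ¬ p ^ a ∣ N₁ := by
    intro h1
    apply hM
    have h2 : p ^ a = p ^ (a - 1) * p := by rw [← pow_succ]; congr 1; omega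
    rw [h2] at h1
    exact Nat.dvd_of_mul_dvd_mul_left (pow_pos hp.pos _) h1
  have hgcd : Nat.gcd n N₁ ∣ n₁ := by
    obtain ⟨c, hc⟩ := Nat.gcd_dvd_left n N₁
    have hpc : p ∣ c := by
      by_contra hpc
      have h1 : p ^ a ∣ Nat.gcd n N₁ * c := by rw [← hc]; exact hpa
      have h2 : Nat.Coprime (p ^ a) c := Nat.Coprime.pow_left a ((Nat.Prime.coprime_iff_not_dvd hp).mpr hpc)
      exact hnp ((h2.dvd_of_dvd_mul_right h1).trans (Nat.gcd_dvd_right n N₁))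
    obtain ⟨c', rfl⟩ := hpc
    refine ⟨c', ?_⟩
    have h1 : p * n₁ = p * (Nat.gcd n N₁ * c') := by
      rw [← hn₁, mul_left_comm]
      exact hc
    exact Nat.eq_of_mul_eq_mul_left hp.pos h1
  -- the other factor
  obtain ⟨k, hk1n, hkN₁⟩ := Nat.chineseRemainder' (n := n) (m := N₁) (a := 1)
    (b := (kσ : ZMod N).val) ((hk1.symm).of_dvd hgcd)
  have hkcop : k.Coprime N := by
    apply Nat.coprime_of_dvd
    intro r hr hrk hrN
    by_cases hrp : r ∣ n
    · have h1 : k ≡ 1 [MOD r] := hk1n.of_dvd hrp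
      have h2 : r ∣ 1 := (Nat.ModEq.dvd_iff h1 (dvd_refl r)).mp hrk
      exact hr.one_lt.ne' (Nat.dvd_one.mp h2)
    · have hrN₁ : r ∣ N₁ := by
        have h3 : r ∣ p ^ v * M := by rw [← hNM]; exact hrN
        rcases hr.dvd_mul.mp h3 with h4 | h4
        · exfalso
          apply hrp
          have h5 := (Nat.prime_dvd_prime_iff_eq hr hp).mp (hr.dvd_of_dvd_pow h4)
          rw [h5, hn₁]
          exact dvd_mul_right p n₁
        · exact h4.mul_left _
      have h1 : k ≡ (kσ : ZMod N).val [MOD r] := hkN₁.of_dvd hrN₁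
      have h2 : r ∣ (kσ : ZMod N).val := (Nat.ModEq.dvd_iff h1 (dvd_refl r)).mp hrk
      have h3 := ZMod.val_coe_unit_coprime kσ
      have h4 : r ∣ 1 := by rw [← h3]; exact Nat.dvd_gcd h2 hrN
      exact hr.one_lt.ne' (Nat.dvd_one.mp h4)
  let kK : (ZMod N)ˣ := ZMod.unitOfCoprime k hkcop
  have hkK : ∀ z : ℂ, z ^ N = 1 → z ^ (kK : ZMod N).val = z ^ k := by
    intro z hz
    apply pow_eq_of_modEq hz
    rw [ZMod.coe_unitOfCoprime, ZMod.val_natCast]
    exact Nat.mod_modEq k N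
  have h1 : pw kK χ = χ := by
    apply pw_of_mem hN hG hχ h hnN
    intro z hz
    have hzN : z ^ N = 1 := by
      obtain ⟨c, hc⟩ := hnN
      rw [hc, pow_mul, hz, one_pow]
    rw [hkK z hzN, pow_eq_of_modEq hz hk1n, pow_one]
  refine ⟨kK⁻¹ * kσ, ?_, ?_⟩
  · intro z hz hpz
    have hz1 : z ^ N₁ = 1 := by
      apply orderOf_dvd_iff_pow_eq_one.mp
      have h3 : orderOf z ∣ N := orderOf_dvd_of_pow_eq_one hz
      have h0 : 0 < orderOf z := Nat.pos_of_dvd_of_pos h3 hN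
      obtain ⟨w, R, hR, hzR⟩ := Nat.exists_eq_pow_mul_and_not_dvd h0.ne' p hp.ne_one
      have hwa : w ≤ a - 1 := by
        by_contra hcon2
        apply hpz
        rw [hzR]
        exact (pow_dvd_pow p (by omega)).mul_right R
      have hRM : R ∣ M := by
        have h4 : R ∣ p ^ v * M := by
          rw [← hNM]
          exact (Dvd.intro_left (p ^ w) hzR.symm).trans h3
        have h5 : Nat.Coprime R (p ^ v) :=
          (Nat.Coprime.pow_left v ((Nat.Prime.coprime_iff_not_dvd hp).mpr hR)).symm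
        exact h5.dvd_of_dvd_mul_left h4
      rw [hzR]
      exact mul_dvd_mul (pow_dvd_pow p hwa) hRM
    have h3 : z ^ (kσ : ZMod N).val = z ^ (kK : ZMod N).val := by
      rw [hkK z hz]
      exact (pow_eq_of_modEq hz1 hkN₁).symm
    rw [mul_comm, pow_val_mul hN hz, h3, ← pow_val_mul hN hz, mul_inv_cancel, pow_val_one hN hz]
  · intro g
    have h2 : pw (kK⁻¹ * kσ) χ = pw kσ χ := by
      rw [mul_comm, pw_mul hN hG]
      congr 1
      conv_lhs => rw [← h1]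
      rw [← pw_mul hN hG, inv_mul_cancel, pw_one hN hG]
    rw [h2]
    exact irr_pow hN hkσ hχ (pow_card_dvd hG g)

/-- the subgroup of units acting trivially on the roots of unity of order not divisible by `m` -/
def UgS (hN : 0 < N) (m : ℕ) : Subgroup (ZMod N)ˣ where
  carrier := Ug N m
  mul_mem' := fun hk hl => ug_mul hN hk hl
  one_mem' := ug_one hN
  inv_mem' := by
    intro k hk z hz hm
    have h1 := hk z hz hm
    have hinv : (z ^ (k : ZMod N).val) ^ ((k⁻¹ : (ZMod N)ˣ) : ZMod N).val = z := by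
      rw [← pow_val_mul hN hz, mul_inv_cancel, pow_val_one hN hz]
    rwa [h1] at hinv

/-- the inertia group -/
noncomputable def Dg (hN : 0 < N) (hG : Nat.card G ∣ N) (χ : G → ℂ) (m : ℕ) : Subgroup (Gam hN hG χ) :=
  (UgS hN m).map (gmk hN hG χ)

/-- the number of conjugates over a cyclotomic field -/
noncomputable def ncj (χ : G → ℂ) (m : ℕ) : ℕ :=
  Set.ncard {η : G → ℂ | ∃ σ : ℂ ≃+* ℂ, (∀ z : ℂ, z ^ m = 1 → σ z = z) ∧ ∀ g, η g = σ (χ g)}

theorem ncj_eq (hN : 0 < N) (hG : Nat.card G ∣ N) {χ : G → ℂ} (hχ : χ ∈ Irr G) {n : ℕ}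
    (hn : 0 < n) (hnN : n ∣ N) (h : ∀ g, χ g ∈ Qc n) {p : ℕ} (hp : p.Prime) (hpn : p ∣ n) :
    ncj χ (n / p) = Nat.card (Dg hN hG χ (p ^ n.factorization p)) := by
  have hinj : Function.Injective (cj hN hG χ) := by
    intro γ γ' hγ
    obtain ⟨k, rfl⟩ := gmk_surj hN hG χ γ
    obtain ⟨l, rfl⟩ := gmk_surj hN hG χ γ'
    rw [cj_mk, cj_mk] at hγ
    have h1 : gmk hN hG χ (l⁻¹ * k) = 1 := by
      rw [gmk_eq_one, pw_mul hN hG, hγ, ← pw_mul hN hG, inv_mul_cancel, pw_one hN hG]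
    rw [map_mul, map_inv, inv_mul_eq_one] at h1
    exact h1.symm
  have hfp : 0 < n.factorization p := hp.factorization_pos_of_dvd hn.ne' hpn
  have hset : {η : G → ℂ | ∃ σ : ℂ ≃+* ℂ, (∀ z : ℂ, z ^ (n / p) = 1 → σ z = z) ∧
      ∀ g, η g = σ (χ g)} = cj hN hG χ '' (Dg hN hG χ (p ^ n.factorization p) : Set _) := by
    ext η
    constructor
    · rintro ⟨σ, hσ, hη⟩
      obtain ⟨u, hu, hu1⟩ := exists_ug hN hG hχ hn hnN h hp hfp (Nat.ordProj_dvd n p) hσ
      refine ⟨gmk hN hG χ u, ⟨u, hu, rfl⟩, ?_⟩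
      rw [cj_mk]
      funext g
      rw [hη, hu1]
    · rintro ⟨_, ⟨u, hu, rfl⟩, rfl⟩
      obtain ⟨σ, hσ⟩ := exists_aut_pow hN u
      refine ⟨σ, fun z hz => ?_, fun g => ?_⟩
      · have hzN : z ^ N = 1 := by
          obtain ⟨c, hc⟩ := (Nat.div_dvd_of_dvd hpn).trans hnN
          rw [hc, pow_mul, hz, one_pow]
        rw [hσ z hzN]
        refine hu z hzN fun hd => ?_
        have h1 : p ^ n.factorization p ∣ n / p := hd.trans (orderOf_dvd_of_pow_eq_one hz)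
        have h2 : p ^ (n.factorization p + 1) ∣ n := by
          have h3 := Nat.mul_dvd_mul_right h1 p
          rwa [Nat.div_mul_cancel hpn, ← pow_succ] at h3
        exact Nat.pow_succ_factorization_not_dvd hn.ne' hp h2
      · rw [cj_mk]
        exact (irr_pow hN hσ hχ (pow_card_dvd hG g)).symm
  rw [ncj, hset, Set.ncard_image_of_injective _ hinj]
  exact (Nat.card_coe_set_eq _).symm

/-- **Inertia groups.** -/
theorem inert_cond {χ : G → ℂ} (hχ : χ ∈ Irr G) {n : ℕ}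
    (hn : 0 < n) (h : ∀ g, χ g ∈ Qc n)
    (hmin : ∀ m : ℕ, 0 < m → (∀ g, χ g ∈ Qc m) → n ≤ m) {d : ℕ} (hd : d ∣ n)
    {ℓ : ℕ} (hℓ : ℓ.Prime) {c e : ℕ → ℕ}
    (h1 : ∀ p ∈ wildQ G d.factorization d.primeFactors, ¬ ℓ ∣ ncj χ (n / p) →
      1 < e p ∧ e p ∣ ncj χ (n / p))
    (h2 : ∀ p ∈ wildQ G d.factorization d.primeFactors, ¬ ℓ ∣ ncj χ (n / p) →
      ∀ q ∈ wildQ G d.factorization d.primeFactors, ¬ ℓ ∣ ncj χ (n / q) →
      c p ≠ c q → Nat.Coprime (e p) (e q))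
    (h3 : ∀ t, ∀ S ⊆ wildQ G d.factorization d.primeFactors,
      (∀ p ∈ S, ¬ ℓ ∣ ncj χ (n / p) ∧ c p = t) → ∑ p ∈ S, (1 / e p : ℚ) ≤ 1) :
    HasOrd χ d := by
  classical
  have hd0 : d ≠ 0 := by
    rintro rfl
    rw [zero_dvd_iff] at hd
    omega
  have hN : 0 < Nat.card G * n := Nat.mul_pos Nat.card_pos hn
  set N := Nat.card G * n with hNdef
  have hG : Nat.card G ∣ N := dvd_mul_right _ _
  have hnN : n ∣ N := dvd_mul_left _ _
  have hfin := gam_finite hN hG χ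
  have hpr : ∀ p ∈ d.primeFactors, p.Prime := fun p hp => Nat.prime_of_mem_primeFactors hp
  have hpos : ∀ p ∈ d.primeFactors, 0 < d.factorization p := fun p hp =>
    (hpr p hp).factorization_pos_of_dvd hd0 (Nat.dvd_of_mem_primeFactors hp)
  have hmov : ∀ p ∈ d.primeFactors, ∃ u ∈ Ug N (p ^ d.factorization p), pw u χ ≠ χ :=
    fun p hp => exists_mov hN hG hχ hn hnN h hmin (hpr p hp) (hpos p hp)
      ((Nat.ordProj_dvd d p).trans hd)
  have hbI : ∀ p ∈ wildQ G d.factorization d.primeFactors, p ∈ d.primeFactors :=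
    fun p hp => (Finset.mem_filter.mp hp).1
  have hcard : ∀ p ∈ wildQ G d.factorization d.primeFactors,
      ncj χ (n / p) = Nat.card (Dg hN hG χ (p ^ n.factorization p)) := fun p hp =>
    ncj_eq hN hG hχ hn hnN h (hpr p (hbI p hp))
      ((Nat.dvd_of_mem_primeFactors (hbI p hp)).trans hd)
  have hle : ∀ p ∈ wildQ G d.factorization d.primeFactors,
      Ug N (p ^ n.factorization p) ⊆ Ug N (p ^ d.factorization p) := by
    intro p hp k hk z hz hdz
    refine hk z hz fun h4 => hdz ((pow_dvd_pow p ?_).trans h4)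
    exact (Nat.factorization_le_iff_dvd hd0 hn.ne').mpr hd p
  have : Fact ℓ.Prime := ⟨hℓ⟩
  let J := (wildQ G d.factorization d.primeFactors).filter fun p => ¬ ℓ ∣ ncj χ (n / p)
  have hJ : ∀ p ∈ J, p ∈ wildQ G d.factorization d.primeFactors ∧ ¬ ℓ ∣ ncj χ (n / p) :=
    fun p hp => Finset.mem_filter.mp hp
  obtain ⟨ψ, hψ⟩ := exists_psi_sum (I := J) (D := fun p => Dg hN hG χ (p ^ n.factorization p))
    (ℓ := ℓ) (c := c) (h := e)
    (fun p hp => by rw [← hcard p (hJ p hp).1]; exact (hJ p hp).2)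
    (fun p hp => (h1 p (hJ p hp).1 (hJ p hp).2).1)
    (fun p hp => by rw [← hcard p (hJ p hp).1]; exact (h1 p (hJ p hp).1 (hJ p hp).2).2)
    (fun p hp q hq hne => h2 p (hJ p hp).1 (hJ p hp).2 q (hJ q hq).1 (hJ q hq).2 hne)
    (fun t => h3 t _ ((Finset.filter_subset _ _).trans (Finset.filter_subset _ _))
      fun p hp => ⟨(hJ p (Finset.mem_filter.mp hp).1).2, (Finset.mem_filter.mp hp).2⟩)
  have hprod : ∏ p ∈ d.primeFactors, p ^ d.factorization p = d :=
    Nat.prod_factorization_pow_eq_self hd0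
  rw [← hprod]
  refine main_psi3 hN d.factorization (ψ.comp (gmk hN hG χ)) _ G hG rfl χ hχ ?_ d.primeFactors
    hpr hpos hmov ?_
  · intro k hk
    rw [MonoidHom.comp_apply, (gmk_eq_one hN hG χ).mpr hk, map_one]
  · intro p hp
    by_cases hdv : ℓ ∣ ncj χ (n / p)
    · rw [hcard p hp] at hdv
      obtain ⟨x, hx⟩ := exists_prime_orderOf_dvd_card' ℓ hdv
      obtain ⟨u, hu, hux⟩ := x.2
      refine ⟨u, hle p hp hu, Or.inr ?_⟩
      rw [hux, Subgroup.orderOf_coe, hx]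
    · obtain ⟨x, ⟨u, hu, rfl⟩, hx⟩ := hψ p (Finset.mem_filter.mpr ⟨hp, hdv⟩)
      exact ⟨u, hle p hp hu, Or.inl hx⟩

end Pool.Agent.Helper606_LC
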