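import Mathlib
import Pool.Agent.Helper606_LC.Si
import Pool.Agent.Helper606_LC.Inert

/-!
# Inversion at a prime
-/

set_option autoImplicit false
set_option linter.unusedSectionVars false

namespace Pool.Agent.Helper606_LC

lemma neg_val_mul {N : ℕ} (hN : 0 < N) {z : ℂ} (hz : z ^ N = 1) :
    z ^ ((-1 : (ZMod N)ˣ) : ZMod N).val * z = 1 := by
  have hN' : NeZero N := ⟨hN.ne'⟩
  have h1 : (((((-1 : (ZMod N)ˣ) : ZMod N).val + 1 : ℕ)) : ZMod N) = 0 := by
    rw [Nat.cast_add, ZMod.natCast_zmod_val, Nat.cast_one, Units.val_neg, Units.val_one]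
    ring
  obtain ⟨t, ht⟩ := (ZMod.natCast_eq_zero_iff _ _).mp h1
  rw [← pow_succ, ht, pow_mul, hz, one_pow]

/-- inversion at a prime -/
theorem exists_neg {N : ℕ} (hN : 0 < N) {p : ℕ} (hp : p.Prime) :
    ∃ (c : (ZMod N)ˣ →* (ZMod N)ˣ) (e : (ZMod N)ˣ), e ^ 2 = 1 ∧ e ∈ Ug N p ∧ c e = e ∧
      (∀ r, r.Prime → r ≠ p → ∀ w ∈ Ug N r, c w = 1) ∧
      (∀ k, ∀ z : ℂ, z ^ N = 1 → orderOf z = p → z ^ (c k : ZMod N).val = z ^ (k : ZMod N).val) ∧
      ∀ z : ℂ, z ^ N = 1 → orderOf z = p → z ^ (e : ZMod N).val = z → p = 2 := by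
  obtain ⟨c, h1, h2, h3, h4⟩ := exists_comp_prime hN hp
  have he : c (-1) ∈ Ug N p := by
    intro z hz hpz
    refine h1 (-1) z hz ?_
    intro q _ hqz hqp
    subst hqp
    exact hpz hqz
  refine ⟨c, c (-1), ?_, he, ?_, ?_, ?_, ?_⟩
  · rw [← map_pow, neg_one_sq, map_one]
  · exact h3 1 Nat.one_pos _ (by rw [pow_one]; exact he)
  · intro r hr hrp w hw
    exact h4 r hr hrp 1 Nat.one_pos w (by rw [pow_one]; exact hw)
  · intro k z hz hzo
    refine h2 k z hz ?_
    intro q hq hqz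
    rw [hzo] at hqz
    exact (Nat.prime_dvd_prime_iff_eq hq hp).mp hqz
  · intro z hz hzo hze
    have h5 : z ^ (c (-1) : ZMod N).val = z ^ ((-1 : (ZMod N)ˣ) : ZMod N).val := by
      refine h2 _ z hz ?_
      intro q hq hqz
      rw [hzo] at hqz
      exact (Nat.prime_dvd_prime_iff_eq hq hp).mp hqz
    rw [h5] at hze
    have h6 := neg_val_mul hN hz
    rw [hze, ← sq] at h6
    have h7 : orderOf z ∣ 2 := orderOf_dvd_of_pow_eq_one h6
    rw [hzo] at h7
    exact (Nat.prime_dvd_prime_iff_eq hp Nat.prime_two).mp h7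

lemma ug_step {N : ℕ} (hN : 0 < N) {p a : ℕ} (hp : p.Prime) (ha : 0 < a) (h : 2 ≤ a ∨ p = 2)
    {u : (ZMod N)ˣ} (hu : u ∈ Ug N (p ^ a)) : u ^ p ∈ Ug N (p ^ (a + 1)) := by
  intro z hz hz1
  have hz0 : z ≠ 0 := by
    rintro rfl
    rw [zero_pow hN.ne'] at hz
    exact zero_ne_one hz
  by_cases hz2 : p ^ a ∣ orderOf z
  swap
  · exact ug_pow hN hu p z hz hz2
  have hpz : p ∣ orderOf z := (dvd_pow_self p ha.ne').trans hz2
  have hzp : (z ^ p) ^ (u : ZMod N).val = z ^ p := by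
    apply hu
    · rw [← pow_mul, mul_comm, pow_mul, hz, one_pow]
    · intro h1
      apply hz1
      rw [orderOf_pow_of_dvd hp.ne_zero hpz] at h1
      rw [pow_succ]
      have h2 := Nat.mul_dvd_mul_right h1 p
      rwa [Nat.div_mul_cancel hpz] at h2
  set w : ℂ := z ^ (u : ZMod N).val * z⁻¹ with hw
  have hzw : z ^ (u : ZMod N).val = z * w := by
    rw [hw]
    field_simp
  have hwp : w ^ p = 1 := by
    have h1 : z ^ p * w ^ p = z ^ p * 1 := by
      rw [← mul_pow, ← hzw, ← pow_mul, mul_comm, pow_mul, hzp, mul_one]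
    exact mul_left_cancel₀ (pow_ne_zero p hz0) h1
  have hwu : w ^ (u : ZMod N).val = w := by
    by_cases hw1 : w = 1
    · rw [hw1, one_pow]
    have hwo : orderOf w = p := by
      have : Fact p.Prime := ⟨hp⟩
      exact orderOf_eq_prime hwp hw1
    rcases h with h | h
    · apply hu
      · have h2 : p ∣ N := hpz.trans (orderOf_dvd_of_pow_eq_one hz)
        obtain ⟨t, ht⟩ := h2
        rw [ht, pow_mul, hwp, one_pow]
      · rw [hwo]
        intro h3
        have h4 := Nat.le_of_dvd hp.pos h3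
        have h5 : p ^ 2 ≤ p ^ a := Nat.pow_le_pow_right hp.pos h
        have h6 := hp.one_lt
        nlinarith
    · subst h
      have h2 : 2 ∣ N := hpz.trans (orderOf_dvd_of_pow_eq_one hz)
      have h3 : Nat.Coprime (u : ZMod N).val 2 :=
        Nat.Coprime.coprime_dvd_right h2 (ZMod.val_coe_unit_coprime u)
      have h4 : Odd (u : ZMod N).val := (Nat.coprime_two_right).mp h3
      obtain ⟨t, ht⟩ := h4
      rw [ht, pow_succ, pow_mul, hwp, one_pow, one_mul]
  have key : ∀ j : ℕ, z ^ ((u ^ j : (ZMod N)ˣ) : ZMod N).val = z * w ^ j := by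
    intro j
    induction j with
    | zero => rw [pow_zero, pow_zero, mul_one, pow_val_one hN hz]
    | succ j ih =>
      rw [pow_succ, pow_val_mul hN hz, ih, mul_pow, hzw, ← pow_mul, mul_comm j, pow_mul, hwu,
        pow_succ]
      ring
  rw [key, hwp, mul_one]

/-- the groups of units fixing many roots of unity are `p`-groups -/
lemma ug_pgroup {N : ℕ} (hN : 0 < N) {p a : ℕ} (hp : p.Prime) (ha : 0 < a) (h : 2 ≤ a ∨ p = 2)
    {u : (ZMod N)ˣ} (hu : u ∈ Ug N (p ^ a)) : ∃ j : ℕ, u ^ p ^ j = 1 := by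
  have hN' : NeZero N := ⟨hN.ne'⟩
  have key : ∀ j : ℕ, u ^ p ^ j ∈ Ug N (p ^ (a + j)) := by
    intro j
    induction j with
    | zero => rw [pow_zero, pow_one]; exact hu
    | succ j ih =>
      rw [pow_succ, pow_mul, ← add_assoc]
      exact ug_step hN hp (by omega) (h.imp_left fun h => by omega) ih
  refine ⟨N, ?_⟩
  have h1 : ¬ p ^ (a + N) ∣ N := by
    intro h2
    have h3 := Nat.le_of_dvd hN h2
    have h4 : N < p ^ N := Nat.lt_pow_self hp.one_lt
    have h5 : p ^ N ≤ p ^ (a + N) := Nat.pow_le_pow_right hp.pos (by omega)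
    omega
  have h2 := val_modEq_one hN (dvd_refl N) (key N) h1
  rcases Nat.lt_or_ge 1 N with h3 | h3
  · have : Fact (1 < N) := ⟨h3⟩
    apply Units.ext
    apply ZMod.val_injective
    rw [Units.val_one, ZMod.val_one]
    rw [Nat.ModEq, Nat.mod_eq_of_lt (ZMod.val_lt _), Nat.mod_eq_of_lt h3] at h2
    exact h2
  · have h4 : N = 1 := le_antisymm h3 hN
    subst h4
    exact Subsingleton.elim _ _

lemma ug_order {N : ℕ} (hN : 0 < N) {p a : ℕ} (hp : p.Prime) (ha : 0 < a) (h : 2 ≤ a ∨ p = 2)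
    {u : (ZMod N)ˣ} (hu : u ∈ Ug N (p ^ a)) {Γ : Type*} [Group Γ] (f : (ZMod N)ˣ →* Γ)
    (hf : (orderOf (f u)).Prime) : orderOf (f u) = p := by
  obtain ⟨j, hj⟩ := ug_pgroup hN hp ha h hu
  have h1 : orderOf (f u) ∣ p ^ j := by
    apply orderOf_dvd_of_pow_eq_one
    rw [← map_pow, hj, map_one]
  exact (Nat.prime_dvd_prime_iff_eq hf hp).mp (hf.dvd_of_dvd_pow h1)

/-- the numerical inequality -/
lemma num_three (Q : Finset ℕ) (hQ : ∀ q ∈ Q, q = 3 ∨ 5 ≤ q) (K K' M' M₂ M₃ : ℕ → ℕ)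
    (h2 : ∀ q ∈ Q, q * M₂ q + 1 ≤ K q) (h3 : ∀ q ∈ Q, q ≠ 3 → q * M₃ q + 1 ≤ K q)
    (hK : ∀ q ∈ Q, K q ≤ K' q + 1)
    (hM : ∀ q ∈ Q, 0 < K' q → q * M' q + 1 ≤ K' q) {k dep : ℕ} (hk : 0 < k)
    (hk2 : k ≤ ∑ q ∈ Q, M₂ q) (hk3 : k ≤ dep + ∑ q ∈ Q.erase 3, M₃ q) :
    3 * k + 1 ≤ dep + ∑ q ∈ Q, (K' q - M' q) := by
  classical
  have key : ∀ q ∈ Q, ∀ x : ℕ, q * x + 1 ≤ K q → 0 < x → (q - 1) * x + 1 ≤ K' q - M' q := by
    intro q hq x hx hx0
    have h4 := hK q hq
    have h5 : 3 ≤ q := by rcases hQ q hq with h | h <;> omega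
    have h6 : 0 < K' q := by
      have : 0 < q * x := Nat.mul_pos (by omega) hx0
      omega
    have h7 := hM q hq h6
    obtain ⟨r, rfl⟩ : ∃ r, q = r + 1 := ⟨q - 1, by omega⟩
    rw [Nat.add_sub_cancel]
    have h8 : M' (r + 1) ≤ K' (r + 1) := by nlinarith
    by_contra hcon
    push Not at hcon
    have h9 : K' (r + 1) - M' (r + 1) ≤ r * x := by omega
    have h10 : r * M' (r + 1) + 1 ≤ K' (r + 1) - M' (r + 1) := by
      have h11 : (r + 1) * M' (r + 1) = r * M' (r + 1) + M' (r + 1) := by ring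
      omega
    have h11 : M' (r + 1) < x := by
      by_contra hcon2
      push Not at hcon2
      have h12 : r * x ≤ r * M' (r + 1) := Nat.mul_le_mul_left _ hcon2
      omega
    have h12 : (r + 1) * x = r * x + x := by ring
    omega
  have hterm : ∀ q ∈ Q, 2 * M₂ q + (if q = 3 then 0 else M₃ q) + (if M₂ q = 0 then 0 else 1)
      ≤ K' q - M' q := by
    intro q hq
    by_cases hq3 : q = 3
    · rw [if_pos hq3]
      by_cases hM2 : M₂ q = 0
      · rw [if_pos hM2, hM2]; omega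
      · rw [if_neg hM2]
        have h4 := key q hq (M₂ q) (h2 q hq) (Nat.pos_of_ne_zero hM2)
        subst hq3
        omega
    · rw [if_neg hq3]
      have h5 : 5 ≤ q := (hQ q hq).resolve_left hq3
      have h6 : q * max (M₂ q) (M₃ q) + 1 ≤ K q := by
        rcases le_total (M₂ q) (M₃ q) with h | h
        · rw [max_eq_right h]; exact h3 q hq hq3
        · rw [max_eq_left h]; exact h2 q hq
      by_cases h0 : max (M₂ q) (M₃ q) = 0
      · have h7 : M₂ q = 0 := by
          have := le_max_left (M₂ q) (M₃ q)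
          omega
        have h8 : M₃ q = 0 := by
          have := le_max_right (M₂ q) (M₃ q)
          omega
        rw [if_pos h7, h7, h8]; omega
      · have h4 := key q hq _ h6 (Nat.pos_of_ne_zero h0)
        have h7 := le_max_left (M₂ q) (M₃ q)
        have h8 := le_max_right (M₂ q) (M₃ q)
        have h9 : 4 * max (M₂ q) (M₃ q) ≤ (q - 1) * max (M₂ q) (M₃ q) :=
          Nat.mul_le_mul_right _ (by omega)
        have h10 : (if M₂ q = 0 then 0 else 1) ≤ 1 := by split_ifs <;> omega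
        omega
  have hsum := Finset.sum_le_sum hterm
  rw [Finset.sum_add_distrib, Finset.sum_add_distrib, ← Finset.mul_sum] at hsum
  have h4 : ∑ q ∈ Q, (if q = 3 then 0 else M₃ q) = ∑ q ∈ Q.erase 3, M₃ q := by
    rw [← Finset.filter_ne', Finset.sum_filter]
    refine Finset.sum_congr rfl fun q _ => ?_
    by_cases h : q = 3
    · rw [if_pos h, if_neg (not_not.mpr h)]
    · rw [if_neg h, if_pos h]
  have h5 : 1 ≤ ∑ q ∈ Q, (if M₂ q = 0 then 0 else 1) := by
    by_contra hcon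
    have h6 : ∑ q ∈ Q, (if M₂ q = 0 then 0 else 1) = 0 := by omega
    rw [Finset.sum_eq_zero_iff] at h6
    have h7 : ∑ q ∈ Q, M₂ q = 0 := by
      refine Finset.sum_eq_zero fun q hq => ?_
      by_contra h8
      have := h6 q hq
      rw [if_neg h8] at this
      exact one_ne_zero this
    omega
  rw [h4] at hsum
  omega

end Pool.Agent.Helper606_LC
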