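import Mathlib
import Pool.Agent.Helper606_LC.InvCnt
import Pool.Agent.Helper606_LC.Comb4
import Pool.Agent.Helper606_LC.Neg

/-!
# Elements of prime order in automizers of cyclic subgroups
-/

set_option autoImplicit false
set_option linter.unusedSectionVars false

namespace Pool.Agent.Helper606_LC

open Pool.Agent.H541R3.ART Pool.Agent.W446.AS Pool.Agent.R389 Pool.Agent.H302R3

/-- elementary abelian quotients of finite abelian groups -/
lemma card_le_ker_pow {A E : Type*} [CommGroup A] [Finite A] [CommGroup E] (f : A →* E)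
    (hf : Function.Surjective f) {q : ℕ} (hE : ∀ x : E, x ^ q = 1) :
    Nat.card E ≤ Nat.card (powMonoidHom q : A →* A).ker := by
  have : Finite E := Finite.of_surjective f hf
  have h1 := Subgroup.card_eq_card_quotient_mul_card_subgroup (powMonoidHom q : A →* A).ker
  have h2 := Subgroup.card_eq_card_quotient_mul_card_subgroup f.ker
  have h3 : Nat.card (A ⧸ (powMonoidHom q : A →* A).ker) = Nat.card (powMonoidHom q : A →* A).range :=
    Nat.card_congr (QuotientGroup.quotientKerEquivRange _).toEquiv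
  have h4 : Nat.card (A ⧸ f.ker) = Nat.card E :=
    Nat.card_congr (QuotientGroup.quotientKerEquivOfSurjective f hf).toEquiv
  have h5 : (powMonoidHom q : A →* A).range ≤ f.ker := by
    rintro _ ⟨a, rfl⟩
    rw [MonoidHom.mem_ker]
    change f (a ^ q) = 1
    rw [map_pow, hE]
  have h6 : Nat.card (powMonoidHom q : A →* A).range ≤ Nat.card f.ker :=
    Nat.le_of_dvd Nat.card_pos (Subgroup.card_dvd_of_le h5)
  rw [h3] at h1
  rw [h4, h1] at h2
  by_contra hcon
  push Not at hcon
  have h7 : 0 < Nat.card f.ker := Nat.card_pos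
  have h8 : Nat.card (powMonoidHom q : A →* A).range * Nat.card (powMonoidHom q : A →* A).ker
      < Nat.card E * Nat.card f.ker := by
    calc Nat.card (powMonoidHom q : A →* A).range * Nat.card (powMonoidHom q : A →* A).ker
        ≤ Nat.card f.ker * Nat.card (powMonoidHom q : A →* A).ker := Nat.mul_le_mul_right _ h6
      _ < Nat.card f.ker * Nat.card E := Nat.mul_lt_mul_of_pos_left hcon h7
      _ = Nat.card E * Nat.card f.ker := mul_comm _ _
  omega

/-- automorphisms of order dividing `q` of a cyclic subgroup -/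
theorem aut_count {G : Type} [Group G] [Finite G] {N : ℕ} (hN : 0 < N) {c : G} {ε : ℂ} {q : ℕ}
    (hε : ε ^ orderOf c = 1) (hεN : ε ^ N = 1)
    {E : Type*} [CommGroup E] (θ : E →* (ZMod N)ˣ) (hE2 : ∀ x : E, x ^ q = 1)
    (hinj : ∀ x : E, ε ^ (θ x : ZMod N).val = ε → x = 1)
    (hconj : ∀ x : E, ∃ (h : G) (j : ℕ), h * c * h⁻¹ = c ^ j ∧ ε ^ j = ε ^ (θ x : ZMod N).val) :
    Nat.card E ≤ Set.ncard {j : ZMod (orderOf c) | j ^ q = 1 ∧ IsConj c (c ^ j.val)} := by
  classical
  have hm : 0 < orderOf c := orderOf_pos c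
  have hm' : NeZero (orderOf c) := ⟨hm.ne'⟩
  have hN' : NeZero N := ⟨hN.ne'⟩
  have hcm : c ^ orderOf c = 1 := pow_orderOf_eq_one c
  let A : Subgroup (ZMod (orderOf c))ˣ :=
    { carrier := {k | IsConj c (c ^ (k : ZMod (orderOf c)).val) ∧
        ∃ x : E, ε ^ (k : ZMod (orderOf c)).val = ε ^ (θ x : ZMod N).val}
      mul_mem' := by
        rintro k k' ⟨h1, x, h2⟩ ⟨h1', x', h2'⟩
        refine ⟨?_, x' * x, ?_⟩
        · rw [pow_val_mul hm hcm]
          obtain ⟨a, ha⟩ := isConj_iff.mp h1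
          refine h1'.trans (isConj_iff.mpr ⟨a, ?_⟩)
          rw [← ha, conj_pow]
        · rw [pow_val_mul hm hε, h2, map_mul, pow_val_mul hN hεN, ← h2', ← pow_mul, ← pow_mul,
            mul_comm]
      one_mem' := by
        refine ⟨?_, 1, ?_⟩
        · rw [pow_val_one hm hcm]
        · rw [map_one, pow_val_one hm hε, pow_val_one hN hεN]
      inv_mem' := by
        rintro k ⟨h1, x, h2⟩
        refine ⟨?_, x⁻¹, ?_⟩
        · obtain ⟨a, ha⟩ := isConj_iff.mp h1
          apply IsConj.symm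
          refine isConj_iff.mpr ⟨a, ?_⟩
          have h3 : (c ^ (k : ZMod (orderOf c)).val) ^ ((k⁻¹ : (ZMod (orderOf c))ˣ) :
              ZMod (orderOf c)).val = c := by
            rw [← pow_val_mul hm hcm, mul_inv_cancel, pow_val_one hm hcm]
          rw [← ha, conj_pow] at h3
          exact h3
        · have h3 : (ε ^ (k : ZMod (orderOf c)).val) ^ ((k⁻¹ : (ZMod (orderOf c))ˣ) :
              ZMod (orderOf c)).val = ε := by
            rw [← pow_val_mul hm hε, mul_inv_cancel, pow_val_one hm hε]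
          rw [h2] at h3
          rw [map_inv]
          have h4 : ((ε ^ (θ x : ZMod N).val) ^ ((k⁻¹ : (ZMod (orderOf c))ˣ) :
              ZMod (orderOf c)).val) ^ (((θ x)⁻¹ : (ZMod N)ˣ) : ZMod N).val
              = ε ^ ((k⁻¹ : (ZMod (orderOf c))ˣ) : ZMod (orderOf c)).val := by
            have hz : (ε ^ ((k⁻¹ : (ZMod (orderOf c))ˣ) : ZMod (orderOf c)).val) ^ N = 1 := by
              rw [← pow_mul, mul_comm, pow_mul, hεN, one_pow]
            rw [pow_right_comm ε, ← pow_val_mul hN hz, mul_inv_cancel, pow_val_one hN hz]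
          rw [h3] at h4
          exact h4.symm }
  have huniq : ∀ x x' : E, ε ^ (θ x : ZMod N).val = ε ^ (θ x' : ZMod N).val → x = x' := by
    intro x x' h
    have h1 : x * x'⁻¹ = 1 := by
      apply hinj
      rw [map_mul, map_inv, pow_val_mul hN hεN, h, ← pow_val_mul hN hεN, mul_inv_cancel,
        pow_val_one hN hεN]
    exact mul_inv_eq_one.mp h1
  have hch : ∀ k : A, ∃ x : E, ε ^ ((k : (ZMod (orderOf c))ˣ) : ZMod (orderOf c)).val
      = ε ^ (θ x : ZMod N).val := by
    rintro ⟨k, h1, x, h2⟩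
    exact ⟨x, h2⟩
  choose F hF using hch
  let f : A →* E := MonoidHom.mk' F (by
    intro k k'
    apply huniq
    rw [← hF, Subgroup.coe_mul, map_mul, pow_val_mul hm hε, hF k, ← pow_mul,
      mul_comm, pow_mul, hF k', ← pow_mul, mul_comm, pow_mul, pow_val_mul hN hεN])
  have hsurj : Function.Surjective f := by
    intro x
    obtain ⟨h, j, h1, h2⟩ := hconj x
    have h3 : orderOf (c ^ j) = orderOf c := by rw [← h1]; exact orderOf_conj' c h
    have h4 : Nat.Coprime j (orderOf c) := by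
      rw [orderOf_pow] at h3
      have h5 : Nat.gcd (orderOf c) j = 1 := by
        have h6 := Nat.div_mul_cancel (Nat.gcd_dvd_left (orderOf c) j)
        rw [h3] at h6
        nlinarith
      rw [Nat.coprime_comm]
      exact h5
    have hval : ∀ {M : Type} [Monoid M] (z : M), z ^ orderOf c = 1 →
        z ^ ((ZMod.unitOfCoprime j h4 : (ZMod (orderOf c))ˣ) : ZMod (orderOf c)).val = z ^ j := by
      intro M _ z hz
      rw [ZMod.coe_unitOfCoprime, ZMod.val_natCast]
      exact (pow_eq_pow_mod j hz).symm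
    refine ⟨⟨ZMod.unitOfCoprime j h4, ?_, x, ?_⟩, ?_⟩
    · rw [hval c hcm]
      exact isConj_iff.mpr ⟨h, h1⟩
    · rw [hval ε hε, h2]
    · apply huniq
      refine (hF _).symm.trans ?_
      change ε ^ ((ZMod.unitOfCoprime j h4 : (ZMod (orderOf c))ˣ) : ZMod (orderOf c)).val = _
      rw [hval ε hε, h2]
  refine (card_le_ker_pow f hsurj hE2).trans ?_
  let g : (powMonoidHom q : A →* A).ker → {j : ZMod (orderOf c) // j ∈ {j : ZMod (orderOf c) |
      j ^ q = 1 ∧ IsConj c (c ^ j.val)}} := fun k =>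
    ⟨(((k : A) : (ZMod (orderOf c))ˣ) : ZMod (orderOf c)), by
      constructor
      · have h1 : (k : A) ^ q = 1 := k.2
        have h2 := congrArg (fun y : A => ((y : (ZMod (orderOf c))ˣ) : ZMod (orderOf c))) h1
        simpa using h2
      · exact (k : A).2.1⟩
  have hg : Function.Injective g := by
    intro k k' h
    have h1 := congrArg Subtype.val h
    exact Subtype.ext (Subtype.ext (Units.ext h1))
  rw [← Nat.card_coe_set_eq]
  exact Nat.card_le_card_of_injective g hg

section theta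

variable {W : Type*} [CommGroup W] {q : ℕ} [hq : Fact q.Prime]

/-- the homomorphism from the group of order `q` given by an element -/
noncomputable def hPr (w : W) (hw : w ^ q = 1) : Multiplicative (ZMod q) →* W where
  toFun := fun x => w ^ (Multiplicative.toAdd x).val
  map_one' := by
    change w ^ (0 : ZMod q).val = 1
    rw [ZMod.val_zero, pow_zero]
  map_mul' := by
    intro x y
    change w ^ (Multiplicative.toAdd x + Multiplicative.toAdd y).val = _
    rw [ZMod.val_add, ← pow_eq_pow_mod _ hw, pow_add]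

/-- the homomorphism given by finitely many elements of order dividing `q` -/
noncomputable def thPr {ι : Type*} (S : Finset ι) (w : ι → W) (hw : ∀ i, w i ^ q = 1) :
    (S → Multiplicative (ZMod q)) →* W :=
  ∏ i : S, (hPr (w i) (hw i)).comp (Pi.evalMonoidHom (fun _ : S => Multiplicative (ZMod q)) i)

lemma thPr_apply {ι : Type*} (S : Finset ι) (w : ι → W) (hw : ∀ i, w i ^ q = 1)
    (f : S → Multiplicative (ZMod q)) :
    thPr S w hw f = ∏ i : S, w i ^ (Multiplicative.toAdd (f i)).val := by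
  rw [thPr, MonoidHom.finsetProd_apply]
  rfl

lemma card_pr_fun {ι : Type*} (S : Finset ι) :
    Nat.card (S → Multiplicative (ZMod q)) = q ^ S.card := by
  classical
  rw [Nat.card_fun, Nat.card_eq_fintype_card (α := S), Fintype.card_coe]
  congr 1
  exact Nat.card_zmod q

lemma pr_fun_pow {ι : Type*} (S : Finset ι) (f : S → Multiplicative (ZMod q)) : f ^ q = 1 := by
  funext i
  change (f i) ^ q = 1
  apply Multiplicative.toAdd.injective
  rw [toAdd_pow, toAdd_one, nsmul_eq_mul, CharP.cast_eq_zero, zero_mul]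

/-- groups generated by few elements of order dividing `q` are small -/
lemma card_closure_pr {ι : Type*} [Finite W] (S : Finset ι) (w : ι → W) (hw : ∀ i, w i ^ q = 1) :
    Nat.card (Subgroup.closure (w '' (S : Set ι))) ≤ q ^ S.card := by
  classical
  have hle : Subgroup.closure (w '' (S : Set ι)) ≤ (thPr S w hw).range := by
    rw [Subgroup.closure_le]
    rintro _ ⟨i, hi, rfl⟩
    refine ⟨Pi.mulSingle ⟨i, hi⟩ (Multiplicative.ofAdd (1 : ZMod q)), ?_⟩
    rw [thPr_apply, Finset.prod_eq_single ⟨i, hi⟩]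
    · have : Fact (1 < q) := ⟨hq.out.one_lt⟩
      rw [Pi.mulSingle_eq_same, toAdd_ofAdd, ZMod.val_one, pow_one]
    · intro j _ hj
      rw [Pi.mulSingle_eq_of_ne hj, toAdd_one, ZMod.val_zero, pow_zero]
    · intro h
      exact absurd (Finset.mem_univ _) h
  have h1 : Nat.card (Subgroup.closure (w '' (S : Set ι))) ≤ Nat.card (thPr S w hw).range :=
    Nat.le_of_dvd Nat.card_pos (Subgroup.card_dvd_of_le hle)
  refine h1.trans ?_
  rw [← card_pr_fun (q := q) S]
  exact Nat.card_le_card_of_surjective (thPr S w hw).rangeRestrict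
    (thPr S w hw).rangeRestrict_surjective

end theta

/-- a unit of `p'`-order in `Ug N p` which acts trivially on roots of unity of order `p` is
trivial -/
lemma ug_eq_one {N : ℕ} (hN : 0 < N) {p q : ℕ} (hp : p.Prime) (hq : q.Prime) (hpq : p ≠ q)
    {y : (ZMod N)ˣ} (hy : y ∈ Ug N p) (hyq : y ^ q = 1) {z : ℂ} (hzo : orderOf z = p) (hzy : z ^ (y : ZMod N).val = z) : y = 1 := by
  have h2 : y ∈ Ug N (p ^ 2) := by
    intro w hw hwp
    by_cases hpw : p ∣ orderOf w
    swap
    · exact hy w hw hpw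
    obtain ⟨r, hr⟩ := hpw
    have hw0 : w ≠ 0 := by
      rintro rfl
      rw [zero_pow hN.ne'] at hw
      exact zero_ne_one hw
    have ho0 : 0 < orderOf w := Nat.pos_of_dvd_of_pos (orderOf_dvd_of_pow_eq_one hw) hN
    have hr0 : r ≠ 0 := by
      rintro rfl
      omega
    have hpr : ¬ p ∣ r := by
      rintro ⟨s, rfl⟩
      apply hwp
      rw [hr, sq, ← mul_assoc]
      exact dvd_mul_right _ _
    have h3 : (w ^ r) ^ (y : ZMod N).val = w ^ r := by
      have h4 : (w ^ r) ^ p = 1 := by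
        rw [← pow_mul, mul_comm, ← hr, pow_orderOf_eq_one]
      have hpz : IsPrimitiveRoot z p := by rw [← hzo]; exact IsPrimitiveRoot.orderOf z
      have : NeZero p := ⟨hp.ne_zero⟩
      obtain ⟨i, -, hi⟩ := hpz.eq_pow_of_pow_eq_one h4
      rw [← hi, ← pow_mul, mul_comm, pow_mul, hzy]
    have h4 : (w ^ p) ^ (y : ZMod N).val = w ^ p := by
      apply hy
      · rw [← pow_mul, mul_comm, pow_mul, hw, one_pow]
      · rw [orderOf_pow_of_dvd hp.ne_zero (by rw [hr]; exact dvd_mul_right p r), hr,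
          Nat.mul_div_cancel_left _ hp.pos]
        exact hpr
    set x : ℂ := w ^ (y : ZMod N).val * w⁻¹ with hx
    have hxw : w ^ (y : ZMod N).val = x * w := by
      rw [hx]
      field_simp
    have hx1 : x ^ r = 1 := by
      have h5 : x ^ r * w ^ r = 1 * w ^ r := by
        rw [← mul_pow, ← hxw, one_mul, ← pow_mul, mul_comm, pow_mul, h3]
      exact mul_right_cancel₀ (pow_ne_zero r hw0) h5
    have hx2 : x ^ p = 1 := by
      have h5 : x ^ p * w ^ p = 1 * w ^ p := by
        rw [← mul_pow, ← hxw, one_mul, ← pow_mul, mul_comm, pow_mul, h4]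
      exact mul_right_cancel₀ (pow_ne_zero p hw0) h5
    have hx3 : orderOf x ∣ 1 := by
      rw [← Nat.Coprime.gcd_eq_one ((Nat.Prime.coprime_iff_not_dvd hp).mpr hpr)]
      exact Nat.dvd_gcd (orderOf_dvd_of_pow_eq_one hx2) (orderOf_dvd_of_pow_eq_one hx1)
    rw [hxw, orderOf_eq_one_iff.mp (Nat.dvd_one.mp hx3), one_mul]
  obtain ⟨j, hj⟩ := ug_pgroup hN hp (by norm_num) (Or.inl le_rfl) h2
  have h3 : orderOf y ∣ p ^ j := orderOf_dvd_of_pow_eq_one hj
  have h4 : orderOf y ∣ q := orderOf_dvd_of_pow_eq_one hyq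
  have h5 : Nat.Coprime (p ^ j) q := Nat.Coprime.pow_left j ((Nat.coprime_primes hp hq).mpr hpq)
  have h6 : orderOf y ∣ 1 := by
    rw [← Nat.Coprime.gcd_eq_one h5]
    exact Nat.dvd_gcd h3 h4
  exact orderOf_eq_one_iff.mp (Nat.dvd_one.mp h6)

/-- elements of order `q` in the automizer of a cyclic subgroup of order prime to `q` -/
theorem fixed_count_pr {N : ℕ} (hN : 0 < N) {G : Type} [Group G] [Finite G] (hG : Nat.card G ∣ N)
    {χ : G → ℂ} (hχ : χ ∈ Irr G) {q : ℕ} (hq : q.Prime) {P B₀ : Finset ℕ}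
    (hP : ∀ p ∈ P, p.Prime) (hPq : ∀ p ∈ P, p ≠ q) (v : ℕ → (ZMod N)ˣ)
    (hvU : ∀ p ∈ P, v p ∈ Ug N p) (hvo : ∀ p ∈ P, orderOf (gmk hN hG χ (v p)) = q)
    (hB₀ : B₀ ⊆ P) {w : (ZMod N)ˣ} (hw : w ∈ Ug N q)
    (hcl : ∀ p ∈ P, gmk hN hG χ (v p) ∈ Subgroup.closure (insert (gmk hN hG χ w)
      ((fun i => gmk hN hG χ (v i)) '' (B₀ : Set ℕ)))) :
    ∃ c : G, (orderOf c).Coprime q ∧ q ^ P.card ≤ q ^ B₀.card *
      Set.ncard {j : ZMod (orderOf c) | j ^ q = 1 ∧ IsConj c (c ^ j.val)} := by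
  classical
  have hN' : NeZero N := ⟨hN.ne'⟩
  have hfq : Fact q.Prime := ⟨hq⟩
  have hfin := gam_finite hN hG χ
  -- elements of order `q`
  have ht : ∀ p : ℕ, ∃ t : (ZMod N)ˣ, t ^ q = 1 ∧ (p ∈ P → t ∈ Ug N p ∧ orderOf t = q ∧
      ∃ k : ℕ, t = v p ^ k) := by
    intro p
    by_cases hp : p ∈ P
    · have h1 : q ∣ orderOf (v p) := by
        rw [← hvo p hp]
        exact orderOf_map_dvd _ _
      have h2 : orderOf (v p ^ (orderOf (v p) / q)) = q :=
        orderOf_pow_orderOf_div (orderOf_pos _).ne' h1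
      refine ⟨v p ^ (orderOf (v p) / q), ?_, fun _ => ⟨ug_pow hN (hvU p hp) _, h2, _, rfl⟩⟩
      have h3 := pow_orderOf_eq_one (v p ^ (orderOf (v p) / q))
      rwa [h2] at h3
    · exact ⟨1, one_pow q, fun h => absurd h hp⟩
  choose t ht1 ht2 using ht
  have hcc : ∀ p : ℕ, ∃ c : (ZMod N)ˣ →* (ZMod N)ˣ, p ∈ P → (∀ w ∈ Ug N p, c w = w) ∧
      (∀ r, r.Prime → r ≠ p → ∀ w ∈ Ug N r, c w = 1) ∧
      (∀ k, ∀ z : ℂ, z ^ N = 1 → orderOf z = p → z ^ (c k : ZMod N).val = z ^ (k : ZMod N).val) := by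
    intro p
    by_cases hp : p ∈ P
    · obtain ⟨c, h1, h2, h3, h4⟩ := exists_comp_prime hN (hP p hp)
      refine ⟨c, fun _ => ⟨fun w hw => h3 1 Nat.one_pos w (by rw [pow_one]; exact hw),
        fun r hr hrp w hw => h4 r hr hrp 1 Nat.one_pos w (by rw [pow_one]; exact hw),
        fun k z hz hzo => h2 k z hz ?_⟩⟩
      intro r hr hrz
      rw [hzo] at hrz
      exact (Nat.prime_dvd_prime_iff_eq hr (hP p hp)).mp hrz
    · exact ⟨1, fun h => absurd h hp⟩
  choose cc hcc using hcc
  obtain ⟨s, m, hm, hsm⟩ := Nat.exists_eq_pow_mul_and_not_dvd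
    (Nat.card_pos (α := (ZMod N)ˣ)).ne' q hq.ne_one
  let S : Subgroup (ZMod N)ˣ := (stb hN hG χ).map (powMonoidHom m)
  have hS : IsPGroup q S := by
    rintro ⟨x, y, -, rfl⟩
    refine ⟨s, Subtype.ext ?_⟩
    change (y ^ m) ^ q ^ s = 1
    rw [← pow_mul, mul_comm, ← hsm, pow_card_eq_one']
  have hSχ : ∀ s ∈ S, pw s χ = χ := by
    rintro _ ⟨y, hy, rfl⟩
    exact (stb hN hG χ).pow_mem hy m
  obtain ⟨H, φ, hyp, hφ, -, hfix, hmv⟩ := crit_fixed hN hG hq hχ (I := P)
    (m := fun i => i) S hS hSχ (1 : Gam hN hG χ →* (AlgebraicClosure (ZMod q))ˣ) (by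
      intro p hp
      exact ⟨v p, hvU p hp, Or.inr (by rw [hvo p hp])⟩)
  have hHN : Nat.card H ∣ N := H.card_subgroup_dvd_card.trans hG
  obtain ⟨c, ε, hcop, hεo, hconj, hord⟩ := hyp_elt hN hHN hq hyp hφ
  have hcN : orderOf c ∣ N := (orderOf_dvd_natCard c).trans hHN
  have hεN : ε ^ N = 1 := by
    obtain ⟨t, ht⟩ := hcN
    rw [ht, pow_mul, hεo, one_pow]
  have hεq : ¬ q ∣ orderOf ε := by
    intro h
    have h1 : q ∣ orderOf c := h.trans (orderOf_dvd_of_pow_eq_one hεo)
    have h2 := Nat.Coprime.eq_one_of_dvd hcop.symm h1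
    exact hq.one_lt.ne' h2
  have hpε : ∀ p ∈ P, p ∣ orderOf ε := by
    intro p hp
    have h1 := hord p 1 (hP p hp) (hPq p hp) Nat.one_pos (by rw [pow_one]; exact hmv p hp)
    rwa [pow_one] at h1
  let θ := thPr P t ht1
  let X : Subgroup (ZMod N)ˣ := stb hN hG χ ⊔ UgS hN q
  let π : (ZMod N)ˣ →* (ZMod N)ˣ ⧸ X := QuotientGroup.mk' X
  let f := π.comp θ
  let θE : f.ker →* (ZMod N)ˣ := θ.comp f.ker.subtype
  have hoc : orderOf (c : G) = orderOf c := Subgroup.orderOf_coe c
  refine ⟨(c : G), by rw [hoc]; exact hcop, ?_⟩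
  have hcount : Nat.card f.ker ≤
      Set.ncard {j : ZMod (orderOf (c : G)) | j ^ q = 1 ∧ IsConj (c : G) ((c : G) ^ j.val)} := by
    refine aut_count hN (ε := ε) (by rw [hoc]; exact hεo) hεN θE ?_ ?_ ?_
    · rintro ⟨x, hx⟩
      exact Subtype.ext (pr_fun_pow P x)
    · rintro ⟨x, hx⟩ hεx
      apply Subtype.ext
      change x = 1
      funext i
      obtain ⟨p, hp⟩ := i
      have hpo := hpε p hp
      set z : ℂ := ε ^ (orderOf ε / p) with hz
      have hε0 : orderOf ε ≠ 0 := by
        intro h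
        have h1 := orderOf_dvd_of_pow_eq_one hεN
        rw [h, zero_dvd_iff] at h1
        omega
      have hzo : orderOf z = p := orderOf_pow_orderOf_div hε0 hpo
      have hzN : z ^ N = 1 := by
        rw [hz, ← pow_mul, mul_comm, pow_mul, hεN, one_pow]
      have h1 : z ^ (θ x : ZMod N).val = z := by
        have h2 : ε ^ (θ x : ZMod N).val = ε := hεx
        rw [hz, ← pow_mul, mul_comm, pow_mul, h2]
      rw [← (hcc p hp).2.2 _ z hzN hzo] at h1
      have h2 : cc p (θ x) = t p ^ (Multiplicative.toAdd (x ⟨p, hp⟩)).val := by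
        change cc p (thPr P t ht1 x) = _
        rw [thPr_apply, map_prod, Finset.prod_eq_single ⟨p, hp⟩]
        · rw [map_pow, (hcc p hp).1 _ (ht2 p hp).1]
        · rintro ⟨r, hr⟩ - hrp
          have hrp' : r ≠ p := fun h => hrp (Subtype.ext h)
          rw [map_pow, (hcc p hp).2.1 r (hP r hr) hrp' _ (ht2 r hr).1, one_pow]
        · intro h
          exact absurd (Finset.mem_univ _) h
      rw [h2] at h1
      have h3 : t p ^ (Multiplicative.toAdd (x ⟨p, hp⟩)).val = 1 := by
        refine ug_eq_one hN (hP p hp) hq (hPq p hp) (ug_pow hN (ht2 p hp).1 _) ?_ hzo h1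
        rw [← pow_mul, mul_comm, pow_mul, ht1, one_pow]
      have h4 : q ∣ (Multiplicative.toAdd (x ⟨p, hp⟩)).val := by
        have h5 := orderOf_dvd_of_pow_eq_one h3
        rwa [(ht2 p hp).2.1] at h5
      have h5 : (Multiplicative.toAdd (x ⟨p, hp⟩)).val = 0 :=
        Nat.eq_zero_of_dvd_of_lt h4 (ZMod.val_lt _)
      exact Multiplicative.toAdd.injective ((ZMod.val_eq_zero _).mp h5)
    · rintro ⟨x, hx⟩
      have h1 : θ x ∈ X := (QuotientGroup.eq_one_iff (θ x)).mp hx
      obtain ⟨a, ha, b, hb, hab⟩ := Subgroup.mem_sup.mp h1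
      -- a multiple of `m` which is one modulo `q`
      have hmq : Nat.Coprime m q := ((Nat.Prime.coprime_iff_not_dvd hq).mpr hm).symm
      obtain ⟨m', hm'1, hm'0⟩ := Nat.chineseRemainder hmq 0 1
      obtain ⟨m₁, hm₁⟩ : m ∣ m' := (Nat.modEq_zero_iff_dvd).mp hm'1
      have h2 : (θ x) ^ m' = θ x := by
        have h3 : (θ x) ^ q = 1 := by rw [← map_pow, pr_fun_pow P x, map_one]
        have h4 := pow_eq_of_modEq h3 hm'0
        rw [h4, pow_one]
      have h3 : pw (a ^ m') φ = φ := by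
        refine hfix (a ^ m') ⟨a ^ m₁, (stb hN hG χ).pow_mem ha m₁, ?_⟩
        change (a ^ m₁) ^ m = a ^ m'
        rw [hm₁, ← pow_mul, mul_comm]
      obtain ⟨h, j, hj, hεj⟩ := hconj (a ^ m') h3
      refine ⟨(h : G), j, ?_, ?_⟩
      · have h4 := congrArg (fun y : H => (y : G)) hj
        simpa using h4
      · change ε ^ j = ε ^ (θ x : ZMod N).val
        rw [hεj, ← h2, ← hab, mul_pow, pow_val_mul hN hεN]
        have hz : (ε ^ ((a ^ m' : (ZMod N)ˣ) : ZMod N).val) ^ N = 1 := by
          rw [← pow_mul, mul_comm, pow_mul, hεN, one_pow]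
        have hbm : b ^ m' ∈ Ug N q := ug_pow hN hb m'
        refine (hbm _ hz fun h5 => hεq (h5.trans ?_)).symm
        exact orderOf_dvd_of_pow_eq_one (by
          rw [← pow_mul, mul_comm, pow_mul, pow_orderOf_eq_one, one_pow])
  have hrange : Nat.card f.range ≤ q ^ B₀.card := by
    let ρ : Gam hN hG χ →* (ZMod N)ˣ ⧸ X := QuotientGroup.map (stb hN hG χ) X (MonoidHom.id _)
      (by rw [Subgroup.comap_id]; exact le_sup_left)
    have hρ : ∀ u, ρ (gmk hN hG χ u) = π u := fun _ => rfl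
    let ν : ℕ → (ZMod N)ˣ ⧸ X := fun i => if i ∈ B₀ then π (v i) else 1
    have hν : ∀ i, ν i ^ q = 1 := by
      intro i
      by_cases hi : i ∈ B₀
      · change (if i ∈ B₀ then π (v i) else 1) ^ q = 1
        have h5 := pow_orderOf_eq_one (gmk hN hG χ (v i))
        rw [hvo i (hB₀ hi)] at h5
        rw [if_pos hi, ← hρ, ← map_pow, h5, map_one]
      · change (if i ∈ B₀ then π (v i) else 1) ^ q = 1
        rw [if_neg hi, one_pow]
    let K : Subgroup ((ZMod N)ˣ ⧸ X) := Subgroup.closure (ν '' (B₀ : Set ℕ))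
    have hK : ∀ p ∈ P, π (v p) ∈ K := by
      intro p hp
      have h1 : (Subgroup.closure (insert (gmk hN hG χ w)
          ((fun i => gmk hN hG χ (v i)) '' (B₀ : Set ℕ)))) ≤ K.comap ρ := by
        rw [Subgroup.closure_le]
        rintro y (rfl | ⟨i, hi, rfl⟩)
        · change ρ (gmk hN hG χ w) ∈ K
          rw [hρ]
          have h2 : π w = 1 := (QuotientGroup.eq_one_iff w).mpr
            ((le_sup_right : UgS hN q ≤ X) hw)
          rw [h2]
          exact one_mem _
        · apply Subgroup.subset_closure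
          refine ⟨i, hi, ?_⟩
          change (if i ∈ B₀ then π (v i) else 1) = ρ (gmk hN hG χ (v i))
          rw [if_pos (Finset.mem_coe.mp hi), hρ]
      exact h1 (hcl p hp)
    have hle : f.range ≤ K := by
      rintro _ ⟨x, rfl⟩
      change π (thPr P t ht1 x) ∈ K
      rw [thPr_apply, map_prod]
      refine Finset.prod_induction _ (fun y => y ∈ K) (fun a b ha hb => K.mul_mem ha hb)
        K.one_mem fun i _ => ?_
      obtain ⟨-, -, k, hk⟩ := ht2 i i.2
      rw [map_pow, hk, map_pow]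
      exact K.pow_mem (K.pow_mem (hK i i.2) _) _
    exact (Nat.le_of_dvd Nat.card_pos (Subgroup.card_dvd_of_le hle)).trans
      (card_closure_pr B₀ ν hν)
  have hcard := Subgroup.card_eq_card_quotient_mul_card_subgroup f.ker
  have h4 : Nat.card ((P → Multiplicative (ZMod q)) ⧸ f.ker) = Nat.card f.range :=
    Nat.card_congr (QuotientGroup.quotientKerEquivRange f).toEquiv
  rw [h4, card_pr_fun] at hcard
  rw [hcard]
  exact Nat.mul_le_mul hrange hcount

end Pool.Agent.Helper606_LC
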