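import Mathlib
import Pool.Agent.Helper606_LC.Cnt

/-!
# Irredundant families of subgroups
-/

set_option autoImplicit false
set_option linter.unusedSectionVars false

namespace Pool.Agent.Helper606_LC

section chain

variable {P : Type*} [CommGroup P] [Finite P] {ι : Type*} {ℓ : ℕ} [hℓF : Fact ℓ.Prime]

/-- number of characters trivial on a subgroup -/
lemma card_good (hP : ¬ ℓ ∣ Nat.card P) (E : Subgroup P) :
    Nat.card {ψ : P →* (AlgebraicClosure (ZMod ℓ))ˣ // ∀ x ∈ E, ψ x = 1} * Nat.card E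
      = Nat.card P := by
  have hexp : Monoid.exponent (P ⧸ E) ∣ Nat.card P :=
    (Group.exponent_dvd_nat_card).trans (Subgroup.card_quotient_dvd_card E)
  have hne : NeZero ((Monoid.exponent (P ⧸ E) : ℕ) : AlgebraicClosure (ZMod ℓ)) := by
    refine ⟨fun h => hP ?_⟩
    exact ((CharP.cast_eq_zero_iff (AlgebraicClosure (ZMod ℓ)) ℓ _).mp h).trans hexp
  have h1 : Nat.card ((P ⧸ E) →* (AlgebraicClosure (ZMod ℓ))ˣ) = Nat.card (P ⧸ E) :=
    CommGroup.card_monoidHom_of_hasEnoughRootsOfUnity _ _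
  let f : {ψ : P →* (AlgebraicClosure (ZMod ℓ))ˣ // ∀ x ∈ E, ψ x = 1} →
      ((P ⧸ E) →* (AlgebraicClosure (ZMod ℓ))ˣ) := fun ψ => QuotientGroup.lift E ψ.1 ψ.2
  have hf : Function.Bijective f := by
    constructor
    · intro ψ φ h
      apply Subtype.ext
      ext x
      exact congrArg Units.val (DFunLike.congr_fun h (QuotientGroup.mk x))
    · intro φ
      refine ⟨⟨φ.comp (QuotientGroup.mk' E), fun x hx => ?_⟩, ?_⟩
      · have h2 : QuotientGroup.mk' E x = 1 := (QuotientGroup.eq_one_iff x).mpr hx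
        rw [MonoidHom.comp_apply, h2, map_one]
      · apply MonoidHom.ext
        intro y
        obtain ⟨x, rfl⟩ := QuotientGroup.mk_surjective y
        rfl
  rw [Nat.card_congr (Equiv.ofBijective f hf), h1,
    ← Subgroup.card_eq_card_quotient_mul_card_subgroup E]

/-- one step -/
theorem chain_step (hP : ¬ ℓ ∣ Nat.card P) {T S : Finset ι} [DecidableEq ι] (hST : S ⊆ T)
    (E : ι → Subgroup P)
    (hfail : ∀ ψ : P →* (AlgebraicClosure (ZMod ℓ))ˣ, ∃ i ∈ T, ∀ x ∈ E i, ψ x = 1)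
    {ψ₀ : P →* (AlgebraicClosure (ZMod ℓ))ˣ} (hS : ∀ i ∈ S, ∃ x ∈ E i, ψ₀ x ≠ 1) :
    ∃ j ∈ T \ S, Nat.card ↥(S.sup E ⊔ E j) ≤ (T.card - S.card) * Nat.card ↥(S.sup E) := by
  classical
  have hexp : Monoid.exponent P ∣ Nat.card P := Group.exponent_dvd_nat_card
  have hne : NeZero ((Monoid.exponent P : ℕ) : AlgebraicClosure (ZMod ℓ)) := by
    refine ⟨fun h => hP ?_⟩
    exact ((CharP.cast_eq_zero_iff (AlgebraicClosure (ZMod ℓ)) ℓ _).mp h).trans hexp
  have hcard : Nat.card (P →* (AlgebraicClosure (ZMod ℓ))ˣ) = Nat.card P :=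
    CommGroup.card_monoidHom_of_hasEnoughRootsOfUnity _ _
  have h0 : 0 < Nat.card P := Nat.card_pos
  have hfin : Finite (P →* (AlgebraicClosure (ZMod ℓ))ˣ) :=
    Nat.finite_of_card_ne_zero (by rw [hcard]; exact h0.ne')
  have : Fintype (P →* (AlgebraicClosure (ZMod ℓ))ˣ) := Fintype.ofFinite _
  set B := S.sup E with hB
  let gd : Subgroup P → Finset (P →* (AlgebraicClosure (ZMod ℓ))ˣ) := fun D =>
    Finset.univ.filter fun ψ => ∀ x ∈ D, ψ x = 1
  have hgd : ∀ D : Subgroup P, (gd D).card * Nat.card D = Nat.card P := by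
    intro D
    rw [← card_good hP D, Nat.card_eq_fintype_card (α := {ψ : P →* (AlgebraicClosure (ZMod ℓ))ˣ //
      ∀ x ∈ D, ψ x = 1}), Fintype.card_subtype]
  let A : ι → Finset (P →* (AlgebraicClosure (ZMod ℓ))ˣ) := fun j =>
    (gd B).filter fun η => ∀ x ∈ E j, ψ₀ x * η x = 1
  have hA : ∀ j, (A j).card ≤ (gd (B ⊔ E j)).card := by
    intro j
    rcases (A j).eq_empty_or_nonempty with h | ⟨η₁, h⟩
    · rw [h, Finset.card_empty]
      exact Nat.zero_le _
    · obtain ⟨h1, h2⟩ := Finset.mem_filter.mp h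
      have h1' := (Finset.mem_filter.mp h1).2
      refine Finset.card_le_card_of_injOn (fun η => η * η₁⁻¹) ?_ ?_
      · intro η hη
        obtain ⟨h3, h4⟩ := Finset.mem_filter.mp (Finset.mem_coe.mp hη)
        have h3' := (Finset.mem_filter.mp h3).2
        refine Finset.mem_coe.mpr (Finset.mem_filter.mpr ⟨Finset.mem_univ _, ?_⟩)
        have hle : B ⊔ E j ≤ (η * η₁⁻¹).ker := by
          refine sup_le ?_ ?_
          · intro x hx
            rw [MonoidHom.mem_ker, MonoidHom.mul_apply, MonoidHom.inv_apply, h3' x hx, h1' x hx,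
              inv_one, one_mul]
          · intro x hx
            have h5 : η x = η₁ x := mul_left_cancel ((h4 x hx).trans (h2 x hx).symm)
            rw [MonoidHom.mem_ker, MonoidHom.mul_apply, MonoidHom.inv_apply, h5, mul_inv_cancel]
        intro x hx
        exact MonoidHom.mem_ker.mp (hle hx)
      · intro η _ η' _ h3
        exact mul_right_cancel h3
  have hcov : gd B ⊆ (T \ S).biUnion A := by
    intro η hη
    have hη' := (Finset.mem_filter.mp hη).2
    obtain ⟨i, hi, hi1⟩ := hfail (ψ₀ * η)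
    have hiS : i ∉ S := by
      intro h
      obtain ⟨x, hx, hx1⟩ := hS i h
      apply hx1
      have h2 := hi1 x hx
      have h3 : x ∈ B := (Finset.le_sup (f := E) h) hx
      rwa [MonoidHom.mul_apply, hη' x h3, mul_one] at h2
    refine Finset.mem_biUnion.mpr ⟨i, Finset.mem_sdiff.mpr ⟨hi, hiS⟩, ?_⟩
    exact Finset.mem_filter.mpr ⟨hη, fun x hx => hi1 x hx⟩
  have hsum : (gd B).card ≤ ∑ j ∈ T \ S, (gd (B ⊔ E j)).card :=
    (Finset.card_le_card hcov).trans (Finset.card_biUnion_le.trans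
      (Finset.sum_le_sum fun j _ => hA j))
  by_contra hcon
  push Not at hcon
  have hBpos : 0 < Nat.card B := Nat.card_pos
  have hgB := hgd B
  have hne' : (T \ S).Nonempty := by
    rw [Finset.nonempty_iff_ne_empty]
    intro h
    rw [h, Finset.sum_empty] at hsum
    rw [Nat.le_zero.mp hsum, zero_mul] at hgB
    omega
  have hsd : (T \ S).card = T.card - S.card := Finset.card_sdiff_of_subset hST
  have h1 : ∑ j ∈ T \ S, (gd (B ⊔ E j)).card * ((T.card - S.card) * Nat.card B)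
      < ∑ j ∈ T \ S, Nat.card P := by
    refine Finset.sum_lt_sum_of_nonempty hne' fun j hj => ?_
    rw [← hgd (B ⊔ E j)]
    refine Nat.mul_lt_mul_of_pos_left (hcon j hj) ?_
    rcases Nat.eq_zero_or_pos (gd (B ⊔ E j)).card with h | h
    · have h2 := hgd (B ⊔ E j)
      rw [h, zero_mul] at h2
      omega
    · exact h
  rw [Finset.sum_const, smul_eq_mul, hsd, ← Finset.sum_mul] at h1
  have h2 : (T.card - S.card) * Nat.card P
      ≤ (∑ j ∈ T \ S, (gd (B ⊔ E j)).card) * ((T.card - S.card) * Nat.card B) := by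
    rw [← hgB]
    calc (T.card - S.card) * ((gd B).card * Nat.card B)
        = (gd B).card * ((T.card - S.card) * Nat.card B) := by ring
      _ ≤ _ := Nat.mul_le_mul_right _ hsum
  omega

lemma card_mul_relIdx {W : Type*} [Group W] {H K : Subgroup W} (h : H ≤ K) :
    Nat.card H * H.relIndex K = Nat.card K := by
  have h1 := Subgroup.relIndex_mul_relIndex (⊥ : Subgroup W) H K bot_le h
  rwa [Subgroup.relIndex_bot_left, Subgroup.relIndex_bot_left] at h1

/-- orders of joins -/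
lemma card_sup_mul {A I J : Subgroup P} (h : J ≤ I) :
    Nat.card ↥(A ⊔ I) * Nat.card J ≤ Nat.card ↥(A ⊔ J) * Nat.card I := by
  have h1 : Nat.card ↥(A ⊔ J) * (A ⊔ J).relIndex (A ⊔ I) = Nat.card ↥(A ⊔ I) :=
    card_mul_relIdx (sup_le_sup_left h A)
  have h2 : Nat.card J * J.relIndex I = Nat.card I := card_mul_relIdx h
  have h3 : (A ⊔ J).relIndex (A ⊔ I) ≤ J.relIndex I := by
    have h4 : A ⊔ I = I ⊔ (A ⊔ J) := by
      rw [← sup_assoc, sup_comm I A, sup_assoc, sup_eq_left.mpr h]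
    rw [h4, Subgroup.relIndex_sup_right]
    refine Nat.le_of_dvd ?_ (Subgroup.relIndex_dvd_of_le_left I le_sup_right)
    refine Nat.pos_of_ne_zero fun h5 => ?_
    rw [h5, mul_zero] at h2
    exact Nat.card_pos.ne h2
  rw [← h1, ← h2]
  calc Nat.card ↥(A ⊔ J) * (A ⊔ J).relIndex (A ⊔ I) * Nat.card J
      ≤ Nat.card ↥(A ⊔ J) * J.relIndex I * Nat.card J :=
        Nat.mul_le_mul_right _ (Nat.mul_le_mul_left _ h3)
    _ = _ := by ring

end chain

end Pool.Agent.Helper606_LC
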