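import Mathlib
import Pool.Agent.Helper606_LC.Ch1

/-!
# Irredundant families of subgroups of `q`-groups
-/

set_option autoImplicit false
set_option linter.unusedSectionVars false

namespace Pool.Agent.Helper606_LC

section chain

variable {P : Type*} [CommGroup P] [Finite P] {ι : Type*} {ℓ : ℕ} [hℓF : Fact ℓ.Prime]

/-- orders of irredundant families -/
theorem chain_all {q : ℕ} (hq : q.Prime) (hℓq : ℓ ≠ q) (hPq : IsPGroup q P) {T : Finset ι}
    (E : ι → Subgroup P)
    (hfail : ∀ ψ : P →* (AlgebraicClosure (ZMod ℓ))ˣ, ∃ i ∈ T, ∀ x ∈ E i, ψ x = 1)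
    (hmin : ∀ S ⊂ T, ∃ ψ₀ : P →* (AlgebraicClosure (ZMod ℓ))ˣ, ∀ i ∈ S, ∃ x ∈ E i, ψ₀ x ≠ 1)
    (hE : ∀ i ∈ T, E i ≠ ⊥) :
    Nat.card ↥(T.sup E) ≤ ∏ k ∈ Finset.range T.card, q ^ Nat.log q (k + 1) ∧
      Nat.card ↥(T.sup E) * q ^ (min T.card (q - 1)) ≤ ∏ i ∈ T, Nat.card (E i) := by
  classical
  have hqF : Fact q.Prime := ⟨hq⟩
  have hP : ¬ ℓ ∣ Nat.card P := by
    intro h
    obtain ⟨n, hn⟩ := hPq.exists_card_eq
    rw [hn] at h
    exact hℓq ((Nat.prime_dvd_prime_iff_eq hℓF.out hq).mp (hℓF.out.dvd_of_dvd_pow h))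
  have hcq : ∀ D : Subgroup P, ∃ n, Nat.card D = q ^ n := fun D =>
    (hPq.to_subgroup D).exists_card_eq
  have key : ∀ s ≤ T.card, ∃ S ⊆ T, S.card = s ∧
      Nat.card ↥(S.sup E) ≤ ∏ k ∈ Finset.range s, q ^ Nat.log q (T.card - k) ∧
      Nat.card ↥(S.sup E) * q ^ (s - (T.card - (q - 1))) ≤ ∏ i ∈ S, Nat.card (E i) := by
    intro s
    induction s with
    | zero =>
      intro _
      refine ⟨∅, Finset.empty_subset _, rfl, ?_, ?_⟩
      · rw [Finset.sup_empty, Finset.range_zero, Finset.prod_empty, Subgroup.card_bot]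
      · rw [Finset.sup_empty, Finset.prod_empty, Subgroup.card_bot, Nat.zero_sub, pow_zero, mul_one]
    | succ s ih =>
      intro hs
      obtain ⟨S, hST, hSc, h1, h2⟩ := ih (by omega)
      have hss : S ⊂ T := by
        refine Finset.ssubset_iff_subset_ne.mpr ⟨hST, ?_⟩
        rintro rfl
        omega
      obtain ⟨ψ₀, hψ₀⟩ := hmin S hss
      obtain ⟨j, hj, hj1⟩ := chain_step hP hST E hfail hψ₀
      obtain ⟨hjT, hjS⟩ := Finset.mem_sdiff.mp hj
      rw [hSc] at hj1
      have hins : (insert j S).sup E = S.sup E ⊔ E j := by rw [Finset.sup_insert, sup_comm]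
      have hBpos : 0 < Nat.card ↥(S.sup E) := Nat.card_pos
      have hrel := card_mul_relIdx (le_sup_left : S.sup E ≤ S.sup E ⊔ E j)
      obtain ⟨n, hn⟩ := hcq (S.sup E ⊔ E j)
      obtain ⟨i, -, hi⟩ := (Nat.dvd_prime_pow hq).mp
        ((Dvd.intro_left _ hrel).trans hn.dvd)
      rw [hi] at hrel
      have hqi : q ^ i ≤ T.card - s := by
        rw [← hrel, mul_comm] at hj1
        exact Nat.le_of_mul_le_mul_right hj1 hBpos
      refine ⟨insert j S, Finset.insert_subset hjT hST, ?_, ?_, ?_⟩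
      · rw [Finset.card_insert_of_notMem hjS, hSc]
      · rw [hins, ← hrel, Finset.prod_range_succ]
        refine Nat.mul_le_mul h1 (Nat.pow_le_pow_right hq.pos ?_)
        exact Nat.le_log_of_pow_le hq.one_lt hqi
      · rw [hins, Finset.prod_insert hjS, mul_comm (Nat.card (E j))]
        by_cases hc : T.card - s < q
        · have hi0 : i = 0 := by
            by_contra h3
            have h4 : q ^ 1 ≤ q ^ i := Nat.pow_le_pow_right hq.pos (by omega)
            rw [pow_one] at h4
            omega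
          have h3 : s + 1 - (T.card - (q - 1)) = s - (T.card - (q - 1)) + 1 := by omega
          rw [← hrel, hi0, pow_zero, mul_one, h3, pow_succ, ← mul_assoc]
          refine Nat.mul_le_mul h2 ?_
          obtain ⟨k, hk⟩ := hcq (E j)
          have hk0 : k ≠ 0 := by
            rintro rfl
            rw [pow_zero, Subgroup.card_eq_one] at hk
            exact hE j hjT hk
          rw [hk]
          calc q = q ^ 1 := (pow_one q).symm
            _ ≤ q ^ k := Nat.pow_le_pow_right hq.pos (by omega)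
        · have h3 : s + 1 - (T.card - (q - 1)) = 0 := by
            have := hq.two_le
            omega
          have h4 : s - (T.card - (q - 1)) = 0 := by omega
          rw [h4, pow_zero, mul_one] at h2
          rw [h3, pow_zero, mul_one]
          have h5 : Nat.card ↥(S.sup E ⊔ E j) ≤ Nat.card ↥(S.sup E) * Nat.card (E j) := by
            have h6 := card_sup_mul (A := S.sup E) (I := E j) (J := ⊥) bot_le
            rwa [Subgroup.card_bot, mul_one, sup_bot_eq] at h6
          exact h5.trans (Nat.mul_le_mul_right _ h2)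
  obtain ⟨S, hST, hSc, h1, h2⟩ := key T.card le_rfl
  have hS : S = T := Finset.eq_of_subset_of_card_le hST hSc.ge
  subst hS
  constructor
  · refine h1.trans (le_of_eq ?_)
    rw [← Finset.prod_range_reflect]
    refine Finset.prod_congr rfl fun k hk => ?_
    have := Finset.mem_range.mp hk
    congr 2
    omega
  · have h3 : min S.card (q - 1) = S.card - (S.card - (q - 1)) := by omega
    rw [h3]
    exact h2

/-- joins of families of subgroups -/
lemma card_sup_family {I : Finset ι} {A B : ι → Subgroup P} (h : ∀ i ∈ I, A i ≤ B i) :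
    Nat.card ↥(I.sup B) * ∏ i ∈ I, Nat.card (A i) ≤ Nat.card ↥(I.sup A) * ∏ i ∈ I, Nat.card (B i) := by
  classical
  have key : ∀ (I : Finset ι), (∀ i ∈ I, A i ≤ B i) → ∀ C : Subgroup P,
      Nat.card ↥(C ⊔ I.sup B) * ∏ i ∈ I, Nat.card (A i)
        ≤ Nat.card ↥(C ⊔ I.sup A) * ∏ i ∈ I, Nat.card (B i) := by
    intro I
    induction I using Finset.induction_on with
    | empty => intro _ C; rw [Finset.sup_empty, Finset.sup_empty, Finset.prod_empty, Finset.prod_empty]
    | insert j I hj ih =>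
      intro hI C
      rw [Finset.sup_insert, Finset.sup_insert, Finset.prod_insert hj, Finset.prod_insert hj]
      have h1 := ih (fun i hi => hI i (Finset.mem_insert_of_mem hi)) (C ⊔ B j)
      have h2 := card_sup_mul (A := C ⊔ I.sup A) (hI j (Finset.mem_insert_self j I))
      have e1 : C ⊔ (B j ⊔ I.sup B) = C ⊔ B j ⊔ I.sup B := (sup_assoc _ _ _).symm
      have e2 : C ⊔ B j ⊔ I.sup A = C ⊔ I.sup A ⊔ B j := by rw [sup_assoc, sup_assoc, sup_comm (B j)]
      have e3 : C ⊔ (A j ⊔ I.sup A) = C ⊔ I.sup A ⊔ A j := by rw [sup_assoc, sup_comm (A j)]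
      rw [e1, e3]
      rw [e2] at h1
      calc Nat.card ↥(C ⊔ B j ⊔ I.sup B) * (Nat.card (A j) * ∏ i ∈ I, Nat.card (A i))
          = (Nat.card ↥(C ⊔ B j ⊔ I.sup B) * ∏ i ∈ I, Nat.card (A i)) * Nat.card (A j) := by ring
        _ ≤ (Nat.card ↥(C ⊔ I.sup A ⊔ B j) * ∏ i ∈ I, Nat.card (B i)) * Nat.card (A j) :=
            Nat.mul_le_mul_right _ h1
        _ = (Nat.card ↥(C ⊔ I.sup A ⊔ B j) * Nat.card (A j)) * ∏ i ∈ I, Nat.card (B i) := by ring
        _ ≤ (Nat.card ↥(C ⊔ I.sup A ⊔ A j) * Nat.card (B j)) * ∏ i ∈ I, Nat.card (B i) :=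
            Nat.mul_le_mul_right _ h2
        _ = _ := by ring
  have h1 := key I h ⊥
  rwa [bot_sup_eq, bot_sup_eq] at h1

end chain

end Pool.Agent.Helper606_LC
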