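import Mathlib
import Pool.Agent.Helper606_LC.Ch2

/-!
# Families of subgroups of finite abelian groups and their `q`-parts
-/

set_option autoImplicit false
set_option linter.unusedSectionVars false

namespace Pool.Agent.Helper606_LC

/-- the part of a natural number prime to `q` -/
noncomputable def cpl (n q : ℕ) : ℕ := n / q ^ n.factorization q

/-- the `q`-part of a subgroup of a finite abelian group -/
noncomputable def qpt {Γ : Type*} [CommGroup Γ] (q : ℕ) (J : Subgroup Γ) : Subgroup Γ :=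
  J.map (powMonoidHom (cpl (Nat.card Γ) q))

section part

variable {Γ : Type*} [CommGroup Γ] [Finite Γ] {ι : Type*} {ℓ : ℕ} [hℓF : Fact ℓ.Prime] {q : ℕ}

lemma cpl_mul : q ^ (Nat.card Γ).factorization q * cpl (Nat.card Γ) q = Nat.card Γ :=
  Nat.ordProj_mul_ordCompl_eq_self _ _

lemma cpl_coprime (hq : q.Prime) : Nat.Coprime q (cpl (Nat.card Γ) q) :=
  Nat.coprime_ordCompl hq (Nat.card_pos (α := Γ)).ne'

lemma qpt_le (J : Subgroup Γ) : qpt q J ≤ J := by
  rintro _ ⟨x, hx, rfl⟩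
  exact pow_mem hx _

lemma qpt_pow {J : Subgroup Γ} {x : Γ} (hx : x ∈ qpt q J) :
    x ^ q ^ (Nat.card Γ).factorization q = 1 := by
  obtain ⟨y, -, rfl⟩ := hx
  change (y ^ cpl (Nat.card Γ) q) ^ q ^ (Nat.card Γ).factorization q = 1
  rw [← pow_mul, mul_comm, cpl_mul, pow_card_eq_one']

/-- elements of `q`-power order -/
lemma eq_one_of_cpl (hq : q.Prime) {W : Type*} [Monoid W] {y : W} {k : ℕ} (h1 : y ^ q ^ k = 1)
    (h2 : y ^ cpl (Nat.card Γ) q = 1) : y = 1 := by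
  have h3 : Nat.Coprime (q ^ k) (cpl (Nat.card Γ) q) := Nat.Coprime.pow_left k (cpl_coprime hq)
  rw [← orderOf_eq_one_iff]
  exact Nat.dvd_one.mp (h3 ▸ Nat.dvd_gcd (orderOf_dvd_of_pow_eq_one h1)
    (orderOf_dvd_of_pow_eq_one h2))

lemma qpt_card {J : Subgroup Γ} (hq : q.Prime) : ∃ n, Nat.card (qpt q J) = q ^ n := by
  have hqF : Fact q.Prime := ⟨hq⟩
  have h1 : IsPGroup q (qpt q J) := by
    intro x
    exact ⟨_, Subtype.ext (qpt_pow x.2)⟩
  exact h1.exists_card_eq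

lemma qpt_dvd {J : Subgroup Γ} (hq : q.Prime) (h : q ∣ Nat.card J) : q ∣ Nat.card (qpt q J) := by
  have hqF : Fact q.Prime := ⟨hq⟩
  obtain ⟨x, hx⟩ := exists_prime_orderOf_dvd_card' q h
  have h1 : ((x : Γ)) ^ cpl (Nat.card Γ) q ∈ qpt q J := ⟨x, x.2, rfl⟩
  obtain ⟨n, hn⟩ := qpt_card (J := J) hq
  have h2 : n ≠ 0 := by
    rintro rfl
    rw [pow_zero, Subgroup.card_eq_one] at hn
    rw [hn, Subgroup.mem_bot] at h1
    have h3 : ((x : Γ)) ^ q ^ 1 = 1 := by
      rw [pow_one, ← hx, ← Subgroup.orderOf_coe, pow_orderOf_eq_one]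
    have h4 := eq_one_of_cpl (Γ := Γ) hq h3 h1
    rw [← Subgroup.orderOf_coe, h4, orderOf_one] at hx
    exact hq.one_lt.ne hx
  rw [hn]
  exact dvd_pow_self q h2

lemma qpt_eq {J : Subgroup Γ} (hq : q.Prime) {n : ℕ} (h : Nat.card J = q ^ n) : qpt q J = J := by
  apply Subgroup.eq_of_le_of_card_ge (qpt_le J)
  have h1 : Function.Injective (fun x : J => (⟨(x : Γ) ^ cpl (Nat.card Γ) q, ⟨x, x.2, rfl⟩⟩ :
      qpt q J)) := by
    intro x y hxy
    have h2 : (x : Γ) ^ cpl (Nat.card Γ) q = (y : Γ) ^ cpl (Nat.card Γ) q :=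
      congrArg Subtype.val hxy
    have h3 : ((x * y⁻¹ : J) : Γ) = 1 := by
      refine eq_one_of_cpl (Γ := Γ) hq (k := n) ?_ ?_
      · have h4 : (x * y⁻¹ : J) ^ Nat.card J = 1 := pow_card_eq_one'
        rw [h] at h4
        exact congrArg Subtype.val h4
      · rw [Subgroup.coe_mul, Subgroup.coe_inv, mul_pow, inv_pow, h2, mul_inv_cancel]
    have h4 : x * y⁻¹ = 1 := Subtype.ext h3
    exact mul_inv_eq_one.mp h4
  exact Nat.card_le_card_of_injective _ h1

/-- orders of irredundant families -/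
theorem class_chain (hq : q.Prime) (hℓq : ℓ ≠ q) {T : Finset ι} (J : ι → Subgroup Γ)
    (hfail : ∀ ψ : Γ →* (AlgebraicClosure (ZMod ℓ))ˣ, ∃ i ∈ T, ∀ x ∈ qpt q (J i), ψ x = 1)
    (hmin : ∀ S ⊂ T, ∃ ψ₀ : Γ →* (AlgebraicClosure (ZMod ℓ))ˣ, ∀ i ∈ S, ∃ x ∈ qpt q (J i),
      ψ₀ x ≠ 1)
    (hJ : ∀ i ∈ T, q ∣ Nat.card (J i)) :
    Nat.card ↥(T.sup fun i => qpt q (J i)) ≤ ∏ k ∈ Finset.range T.card, q ^ Nat.log q (k + 1) ∧
      Nat.card ↥(T.sup fun i => qpt q (J i)) * q ^ (min T.card (q - 1))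
        ≤ ∏ i ∈ T, Nat.card (qpt q (J i)) ∧ q + 1 ≤ T.card := by
  classical
  have hqF : Fact q.Prime := ⟨hq⟩
  let f : Γ →* Γ := powMonoidHom (cpl (Nat.card Γ) q)
  let P : Subgroup Γ := f.range
  have hPq : IsPGroup q P := by
    rintro ⟨_, y, rfl⟩
    refine ⟨(Nat.card Γ).factorization q, Subtype.ext ?_⟩
    change (y ^ cpl (Nat.card Γ) q) ^ q ^ (Nat.card Γ).factorization q = 1
    rw [← pow_mul, mul_comm, cpl_mul, pow_card_eq_one']
  have hle : ∀ i, qpt q (J i) ≤ P := by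
    rintro i _ ⟨y, -, rfl⟩
    exact ⟨y, rfl⟩
  let E : ι → Subgroup P := fun i => (qpt q (J i)).subgroupOf P
  have hcE : ∀ i, Nat.card (E i) = Nat.card (qpt q (J i)) := fun i =>
    Nat.card_congr (Subgroup.subgroupOfEquivOfLe (hle i)).toEquiv
  have h1 := chain_all (ℓ := ℓ) hq hℓq hPq (T := T) E (by
    intro ψ
    obtain ⟨i, hi, h2⟩ := hfail (ψ.comp f.rangeRestrict)
    refine ⟨i, hi, fun x hx => ?_⟩
    have hxq : (x : Γ) ∈ qpt q (J i) := hx
    have h3 := h2 x hxq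
    have h4 : f.rangeRestrict x = x ^ cpl (Nat.card Γ) q := Subtype.ext rfl
    rw [MonoidHom.comp_apply, h4, map_pow] at h3
    refine eq_one_of_cpl (Γ := Γ) hq (k := (Nat.card Γ).factorization q) ?_ h3
    rw [← map_pow]
    have h5 : x ^ q ^ (Nat.card Γ).factorization q = 1 := Subtype.ext (qpt_pow hxq)
    rw [h5, map_one]) (by
    intro S hS
    obtain ⟨ψ₀, h2⟩ := hmin S hS
    refine ⟨ψ₀.comp P.subtype, fun i hi => ?_⟩
    obtain ⟨x, hx, hx1⟩ := h2 i hi
    exact ⟨⟨x, hle i hx⟩, hx, hx1⟩) (by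
    intro i hi h2
    have h3 := qpt_dvd hq (hJ i hi)
    rw [← hcE i, h2, Subgroup.card_bot] at h3
    exact hq.one_lt.ne' (Nat.dvd_one.mp h3))
  have hsup : Nat.card ↥(T.sup E) = Nat.card ↥(T.sup fun i => qpt q (J i)) := by
    have h2 : (T.sup E).map P.subtype = T.sup fun i => qpt q (J i) := by
      rw [Finset.apply_sup_eq_sup_comp (fun H : Subgroup P => H.map P.subtype)
        (fun a b => Subgroup.map_sup a b _) (Subgroup.map_bot _)]
      refine Finset.sup_congr rfl fun i _ => ?_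
      change ((qpt q (J i)).subgroupOf P).map P.subtype = qpt q (J i)
      rw [Subgroup.subgroupOf_map_subtype, inf_eq_left.mpr (hle i)]
    rw [← h2]
    exact Nat.card_congr ((T.sup E).equivMapOfInjective P.subtype P.subtype_injective).toEquiv
  rw [hsup, Finset.prod_congr rfl (fun i _ => hcE i)] at h1
  refine ⟨h1.1, h1.2, ?_⟩
  by_contra hcon
  push Not at hcon
  obtain ⟨ψ, hψ⟩ := exists_psi_sum (ℓ := ℓ) (I := T) (D := fun i => qpt q (J i))
    (c := fun _ => 0) (h := fun _ => q) (by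
      intro i hi h2
      obtain ⟨n, hn⟩ := qpt_card (J := J i) hq
      rw [hn] at h2
      exact hℓq ((Nat.prime_dvd_prime_iff_eq hℓF.out hq).mp (hℓF.out.dvd_of_dvd_pow h2)))
    (fun i _ => hq.one_lt) (fun i hi => qpt_dvd hq (hJ i hi))
    (fun i _ j _ h => absurd rfl h) (by
      intro t
      rw [Finset.sum_const, nsmul_eq_mul]
      have h2 : ((T.filter fun i => (fun _ => 0) i = t).card : ℚ) ≤ q := by
        have h3 := (Finset.card_filter_le T fun i => (fun _ => 0) i = t)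
        exact_mod_cast h3.trans (Nat.lt_succ_iff.mp hcon)
      have h3 : (0 : ℚ) < q := by exact_mod_cast hq.pos
      rw [mul_one_div, div_le_one h3]
      exact h2)
  obtain ⟨i, hi, h2⟩ := hfail ψ
  obtain ⟨x, hx, hx1⟩ := hψ i hi
  exact hx1 (h2 x hx)

end part

end Pool.Agent.Helper606_LC
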