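import Mathlib

/-!
# Products over finite sets of primes
-/

set_option autoImplicit false
set_option linter.unusedSectionVars false

namespace Pool.Agent.Helper606_LC

/-- the bounding product -/
def bpr (q n : ℕ) : ℕ := ∏ k ∈ Finset.range n, q ^ Nat.log q (k + 1)

lemma bpr_succ (q n : ℕ) : bpr q (n + 1) = bpr q n * q ^ Nat.log q (n + 1) :=
  Finset.prod_range_succ _ _

lemma card_le_sub {S : Finset ℕ} {lo M : ℕ} (h : ∀ p ∈ S, lo ≤ p ∧ p < M) : S.card ≤ M - lo := by
  have h1 : S ⊆ Finset.Ico lo M := fun p hp => Finset.mem_Ico.mpr (h p hp)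
  have h2 := Finset.card_le_card h1
  rwa [Nat.card_Ico] at h2

/-- induction over the largest element -/
lemma prod_ind {q δ lo n₀ c κ : ℕ} {w : ℕ → ℕ} {R : ℕ → Prop} (hlo : 2 + δ ≤ lo)
    (hel : ∀ p, R p → lo ≤ p ∧ p - 1 ≤ w p)
    (base : ∀ S : Finset ℕ, (∀ p ∈ S, R p) → S.card = n₀ → c * bpr q (n₀ + δ) ≤ κ * ∏ p ∈ S, w p) :
    ∀ (n : ℕ) (S : Finset ℕ), n₀ ≤ n → (∀ p ∈ S, R p) → S.card = n →
      c * bpr q (n + δ) ≤ κ * ∏ p ∈ S, w p := by
  intro n
  induction n with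
  | zero =>
    intro S h0 hS hc
    have h1 : n₀ = 0 := by omega
    subst h1
    exact base S hS hc
  | succ n ih =>
    intro S h0 hS hc
    rcases Nat.lt_or_ge n n₀ with h | h
    · have h1 : n₀ = n + 1 := by omega
      subst h1
      exact base S hS hc
    · have hne : S.Nonempty := Finset.card_pos.mp (by omega)
      set M := S.max' hne with hM
      have hMS : M ∈ S := Finset.max'_mem S hne
      have h1 := ih (S.erase M) h (fun p hp => hS p (Finset.mem_of_mem_erase hp))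
        (by rw [Finset.card_erase_of_mem hMS, hc]; rfl)
      have h2 : (S.erase M).card ≤ M - lo := by
        apply card_le_sub
        intro p hp
        refine ⟨(hel p (hS p (Finset.mem_of_mem_erase hp))).1, ?_⟩
        exact lt_of_le_of_ne (Finset.le_max' S p (Finset.mem_of_mem_erase hp))
          (Finset.ne_of_mem_erase hp)
      rw [Finset.card_erase_of_mem hMS, hc] at h2
      have h3 := hel M (hS M hMS)
      have h4 : q ^ Nat.log q (n + δ + 1) ≤ n + δ + 1 :=
        Nat.pow_log_le_self q (by omega)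
      have h5 : n + 1 + δ = n + δ + 1 := by omega
      rw [h5, bpr_succ, ← Finset.mul_prod_erase S w hMS]
      calc c * (bpr q (n + δ) * q ^ Nat.log q (n + δ + 1))
          = (c * bpr q (n + δ)) * q ^ Nat.log q (n + δ + 1) := by ring
        _ ≤ (κ * ∏ p ∈ S.erase M, w p) * w M := Nat.mul_le_mul h1 (by omega)
        _ = _ := by ring

/-- four elements in increasing order -/
lemma four_sorted {S : Finset ℕ} (h : S.card = 4) : ∃ a b c d, a ∈ S ∧ b ∈ S ∧ c ∈ S ∧ d ∈ S ∧
    a < b ∧ b < c ∧ c < d ∧ ∀ w : ℕ → ℕ, ∏ p ∈ S, w p = w a * w b * w c * w d := by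
  refine ⟨S.orderEmbOfFin h 0, S.orderEmbOfFin h 1, S.orderEmbOfFin h 2, S.orderEmbOfFin h 3,
    S.orderEmbOfFin_mem h 0, S.orderEmbOfFin_mem h 1, S.orderEmbOfFin_mem h 2,
    S.orderEmbOfFin_mem h 3, ?_, ?_, ?_, fun w => ?_⟩
  · exact (S.orderEmbOfFin h).strictMono (by decide)
  · exact (S.orderEmbOfFin h).strictMono (by decide)
  · exact (S.orderEmbOfFin h).strictMono (by decide)
  · rw [← Fin.prod_univ_four (fun i => w (S.orderEmbOfFin h i))]
    have h1 : Finset.univ.map (S.orderEmbOfFin h).toEmbedding = S := by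
      rw [Finset.map_orderEmbOfFin_univ]
    conv_lhs => rw [← h1]
    rw [Finset.prod_map]
    rfl

/-- two elements in increasing order -/
lemma two_sorted {S : Finset ℕ} (h : S.card = 2) : ∃ a b, a ∈ S ∧ b ∈ S ∧
    a < b ∧ ∀ w : ℕ → ℕ, ∏ p ∈ S, w p = w a * w b := by
  refine ⟨S.orderEmbOfFin h 0, S.orderEmbOfFin h 1, S.orderEmbOfFin_mem h 0,
    S.orderEmbOfFin_mem h 1, ?_, fun w => ?_⟩
  · exact (S.orderEmbOfFin h).strictMono (by decide)
  · rw [← Fin.prod_univ_two (fun i => w (S.orderEmbOfFin h i))]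
    have h1 : Finset.univ.map (S.orderEmbOfFin h).toEmbedding = S := by
      rw [Finset.map_orderEmbOfFin_univ]
    conv_lhs => rw [← h1]
    rw [Finset.prod_map]
    rfl

lemma bpr_three_four : bpr 3 4 = 9 := by decide

lemma bpr_two_three : bpr 2 3 = 4 := by decide

lemma mod_six {p : ℕ} (hp : p.Prime) (h : p % 3 = 1) : p % 6 = 1 := by
  rcases hp.eq_two_or_odd with h1 | h1
  · subst h1; omega
  · omega

/-- the class of three -/
lemma numb_three {w : ℕ → ℕ} {S : Finset ℕ}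
    (hS : ∀ p ∈ S, p.Prime ∧ ((p = 3 ∧ 3 ≤ w p) ∨ (p % 3 = 1 ∧ w p = p - 1)))
    (hc : 4 ≤ S.card) : 432 * bpr 3 S.card ≤ ∏ p ∈ S, w p ∧
      (3 ∉ S → 3456 * bpr 3 S.card ≤ ∏ p ∈ S, w p) ∧
      (7 ∉ S → 1728 * bpr 3 S.card ≤ ∏ p ∈ S, w p) := by
  refine ⟨?_, fun h3 => ?_, fun h7 => ?_⟩
  · have h := prod_ind (q := 3) (δ := 0) (lo := 2) (n₀ := 4) (c := 432) (κ := 1) (w := w)
      (R := fun p => p.Prime ∧ ((p = 3 ∧ 3 ≤ w p) ∨ (p % 3 = 1 ∧ w p = p - 1))) le_rfl (by
        rintro p ⟨hp, h1⟩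
        refine ⟨hp.two_le, ?_⟩
        rcases h1 with ⟨rfl, h1⟩ | ⟨-, h1⟩ <;> omega) (by
        intro S hS hcard
        obtain ⟨a, b, c, d, ha, hb, hc', hd, hab, hbc, hcd, hprod⟩ := four_sorted hcard
        rw [hprod, add_zero, bpr_three_four, one_mul]
        obtain ⟨pa, ha'⟩ := hS a ha
        obtain ⟨pb, hb'⟩ := hS b hb
        obtain ⟨pc, hc''⟩ := hS c hc'
        obtain ⟨pd, hd'⟩ := hS d hd
        have ma := mod_six pa
        have mb := mod_six pb
        have mc := mod_six pc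
        have md := mod_six pd
        have ga := pa.two_le
        have wa : 3 ≤ w a := by omega
        have wb : 6 ≤ w b := by omega
        have wc : 12 ≤ w c := by omega
        have wd : 18 ≤ w d := by omega
        calc 432 * 9 = 3 * 6 * 12 * 18 := by norm_num
          _ ≤ _ := Nat.mul_le_mul (Nat.mul_le_mul (Nat.mul_le_mul wa wb) wc) wd)
      S.card S hc hS rfl
    rwa [add_zero, one_mul] at h
  · have h := prod_ind (q := 3) (δ := 0) (lo := 2) (n₀ := 4) (c := 3456) (κ := 1) (w := w)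
      (R := fun p => (p.Prime ∧ ((p = 3 ∧ 3 ≤ w p) ∨ (p % 3 = 1 ∧ w p = p - 1))) ∧ p ≠ 3) le_rfl (by
        rintro p ⟨⟨hp, h1⟩, -⟩
        refine ⟨hp.two_le, ?_⟩
        rcases h1 with ⟨rfl, h1⟩ | ⟨-, h1⟩ <;> omega) (by
        intro S hS hcard
        obtain ⟨a, b, c, d, ha, hb, hc', hd, hab, hbc, hcd, hprod⟩ := four_sorted hcard
        rw [hprod, add_zero, bpr_three_four, one_mul]
        obtain ⟨⟨pa, ha'⟩, na⟩ := hS a ha
        obtain ⟨⟨pb, hb'⟩, nb⟩ := hS b hb
        obtain ⟨⟨pc, hc''⟩, nc⟩ := hS c hc'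
        obtain ⟨⟨pd, hd'⟩, nd⟩ := hS d hd
        have ma := mod_six pa
        have mb := mod_six pb
        have mc := mod_six pc
        have md := mod_six pd
        have ga := pa.two_le
        have wa : 6 ≤ w a := by omega
        have wb : 12 ≤ w b := by omega
        have wc : 18 ≤ w c := by omega
        have wd : 24 ≤ w d := by omega
        calc 3456 * 9 = 6 * 12 * 18 * 24 := by norm_num
          _ ≤ _ := Nat.mul_le_mul (Nat.mul_le_mul (Nat.mul_le_mul wa wb) wc) wd)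
      S.card S hc (fun p hp => ⟨hS p hp, fun h => h3 (h ▸ hp)⟩) rfl
    rwa [add_zero, one_mul] at h
  · have h := prod_ind (q := 3) (δ := 0) (lo := 2) (n₀ := 4) (c := 1728) (κ := 1) (w := w)
      (R := fun p => (p.Prime ∧ ((p = 3 ∧ 3 ≤ w p) ∨ (p % 3 = 1 ∧ w p = p - 1))) ∧ p ≠ 7) le_rfl (by
        rintro p ⟨⟨hp, h1⟩, -⟩
        refine ⟨hp.two_le, ?_⟩
        rcases h1 with ⟨rfl, h1⟩ | ⟨-, h1⟩ <;> omega) (by
        intro S hS hcard
        obtain ⟨a, b, c, d, ha, hb, hc', hd, hab, hbc, hcd, hprod⟩ := four_sorted hcard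
        rw [hprod, add_zero, bpr_three_four, one_mul]
        obtain ⟨⟨pa, ha'⟩, na⟩ := hS a ha
        obtain ⟨⟨pb, hb'⟩, nb⟩ := hS b hb
        obtain ⟨⟨pc, hc''⟩, nc⟩ := hS c hc'
        obtain ⟨⟨pd, hd'⟩, nd⟩ := hS d hd
        have ma := mod_six pa
        have mb := mod_six pb
        have mc := mod_six pc
        have md := mod_six pd
        have ga := pa.two_le
        have wa : 3 ≤ w a := by omega
        have wb : 12 ≤ w b := by omega
        have wc : 18 ≤ w c := by omega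
        have wd : 24 ≤ w d := by omega
        calc 1728 * 9 = 3 * 12 * 18 * 24 := by norm_num
          _ ≤ _ := Nat.mul_le_mul (Nat.mul_le_mul (Nat.mul_le_mul wa wb) wc) wd)
      S.card S hc (fun p hp => ⟨hS p hp, fun h => h7 (h ▸ hp)⟩) rfl
    rwa [add_zero, one_mul] at h

/-- the class of two -/
lemma numb_two {w : ℕ → ℕ} {C : Finset ℕ} (hC : ∀ p ∈ C, p.Prime ∧ (p = 2 ∨ w p = p - 1))
    (hc : 3 ≤ C.card) : ∃ r ∈ C, 4 * bpr 2 C.card ≤ 2 * ∏ p ∈ C.erase r, w p ∧
      (3 ∉ C → 12 * bpr 2 C.card ≤ 2 * ∏ p ∈ C.erase r, w p) ∧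
      (3 ∉ C → 7 ∉ C → 20 * bpr 2 C.card ≤ 2 * ∏ p ∈ C.erase r, w p) := by
  have hne : C.Nonempty := Finset.card_pos.mp (by omega)
  set r := C.min' hne with hr
  have hrC : r ∈ C := Finset.min'_mem C hne
  have hr2 := (hC r hrC).1.two_le
  have hS : ∀ p ∈ C.erase r, p.Prime ∧ 3 ≤ p ∧ w p = p - 1 := by
    intro p hp
    have h1 := Finset.mem_of_mem_erase hp
    have h2 : r < p := lt_of_le_of_ne (Finset.min'_le C p h1) (Finset.ne_of_mem_erase hp).symm
    obtain ⟨h3, h4⟩ := hC p h1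
    refine ⟨h3, by omega, ?_⟩
    rcases h4 with h4 | h4
    · omega
    · exact h4
  have hcard : (C.erase r).card + 1 = C.card := by
    rw [Finset.card_erase_of_mem hrC]
    omega
  refine ⟨r, hrC, ?_, fun h3 => ?_, fun h3 h7 => ?_⟩
  · have h := prod_ind (q := 2) (δ := 1) (lo := 3) (n₀ := 2) (c := 4) (κ := 2) (w := w)
      (R := fun p => p.Prime ∧ 3 ≤ p ∧ w p = p - 1) le_rfl (by
        rintro p ⟨hp, h1, h2⟩
        exact ⟨h1, by omega⟩) (by
        intro S hS hcard
        obtain ⟨a, b, ha, hb, hab, hprod⟩ := two_sorted hcard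
        rw [hprod, bpr_two_three]
        obtain ⟨pa, ha', wa⟩ := hS a ha
        obtain ⟨pb, hb', wb⟩ := hS b hb
        have h4 : b ≠ 4 := by rintro rfl; exact absurd pb (by norm_num)
        have wa' : 2 ≤ w a := by omega
        have wb' : 4 ≤ w b := by omega
        calc 4 * 4 = 2 * (2 * 4) := by norm_num
          _ ≤ _ := Nat.mul_le_mul_left 2 (Nat.mul_le_mul wa' wb'))
      (C.erase r).card (C.erase r) (by omega) hS rfl
    rwa [hcard] at h
  · have h := prod_ind (q := 2) (δ := 1) (lo := 3) (n₀ := 2) (c := 12) (κ := 2) (w := w)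
      (R := fun p => (p.Prime ∧ 3 ≤ p ∧ w p = p - 1) ∧ p ≠ 3) le_rfl (by
        rintro p ⟨⟨hp, h1, h2⟩, -⟩
        exact ⟨h1, by omega⟩) (by
        intro S hS hcard
        obtain ⟨a, b, ha, hb, hab, hprod⟩ := two_sorted hcard
        rw [hprod, bpr_two_three]
        obtain ⟨⟨pa, ha', wa⟩, na⟩ := hS a ha
        obtain ⟨⟨pb, hb', wb⟩, nb⟩ := hS b hb
        have h4 : a ≠ 4 := by rintro rfl; exact absurd pa (by norm_num)
        have h6 : b ≠ 6 := by rintro rfl; exact absurd pb (by norm_num)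
        have wa' : 4 ≤ w a := by omega
        have wb' : 6 ≤ w b := by omega
        calc 12 * 4 = 2 * (4 * 6) := by norm_num
          _ ≤ _ := Nat.mul_le_mul_left 2 (Nat.mul_le_mul wa' wb'))
      (C.erase r).card (C.erase r) (by omega)
      (fun p hp => ⟨hS p hp, fun h => h3 (h ▸ Finset.mem_of_mem_erase hp)⟩) rfl
    rwa [hcard] at h
  · have h := prod_ind (q := 2) (δ := 1) (lo := 3) (n₀ := 2) (c := 20) (κ := 2) (w := w)
      (R := fun p => (p.Prime ∧ 3 ≤ p ∧ w p = p - 1) ∧ p ≠ 3 ∧ p ≠ 7) le_rfl (by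
        rintro p ⟨⟨hp, h1, h2⟩, -⟩
        exact ⟨h1, by omega⟩) (by
        intro S hS hcard
        obtain ⟨a, b, ha, hb, hab, hprod⟩ := two_sorted hcard
        rw [hprod, bpr_two_three]
        obtain ⟨⟨pa, ha', wa⟩, na, na'⟩ := hS a ha
        obtain ⟨⟨pb, hb', wb⟩, nb, nb'⟩ := hS b hb
        have h4 : a ≠ 4 := by rintro rfl; exact absurd pa (by norm_num)
        have h6 : b ≠ 6 := by rintro rfl; exact absurd pb (by norm_num)
        have h8 : b ≠ 8 := by rintro rfl; exact absurd pb (by norm_num)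
        have h9 : b ≠ 9 := by rintro rfl; exact absurd pb (by norm_num)
        have h10 : b ≠ 10 := by rintro rfl; exact absurd pb (by norm_num)
        have wa' : 4 ≤ w a := by omega
        have wb' : 10 ≤ w b := by omega
        calc 20 * 4 = 2 * (4 * 10) := by norm_num
          _ ≤ _ := Nat.mul_le_mul_left 2 (Nat.mul_le_mul wa' wb'))
      (C.erase r).card (C.erase r) (by omega)
      (fun p hp => ⟨hS p hp, fun h => h3 (h ▸ Finset.mem_of_mem_erase hp),
        fun h => h7 (h ▸ Finset.mem_of_mem_erase hp)⟩) rfl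
    rwa [hcard] at h

end Pool.Agent.Helper606_LC
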