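import Mathlib
import Pool.Agent.Helper606_LC.Ch3
import Pool.Agent.Helper606_LC.Num

/-!
# Characters nontrivial on given subgroups: the minimal obstruction
-/

set_option autoImplicit false
set_option linter.unusedSectionVars false

namespace Pool.Agent.Helper606_LC

/-- `T` is a minimal family such that no character is nontrivial on the `q`-parts of all its
members -/
def Obs {Γ : Type*} [CommGroup Γ] {ι : Type*} (ℓ q : ℕ) (J : ι → Subgroup Γ)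
    (T : Finset ι) [Fact ℓ.Prime] : Prop :=
  (∀ ψ : Γ →* (AlgebraicClosure (ZMod ℓ))ˣ, ∃ i ∈ T, ∀ x ∈ qpt q (J i), ψ x = 1) ∧
    ∀ S ⊂ T, ∃ ψ₀ : Γ →* (AlgebraicClosure (ZMod ℓ))ˣ, ∀ i ∈ S, ∃ x ∈ qpt q (J i), ψ₀ x ≠ 1

section cls

variable {Γ : Type*} [CommGroup Γ] [Finite Γ] {ι : Type*} {ℓ : ℕ} [hℓF : Fact ℓ.Prime]

/-- minimal obstructions -/
lemma exists_obs {q : ℕ} {J : ι → Subgroup Γ} {B : Finset ι}
    (h : ∀ ψ : Γ →* (AlgebraicClosure (ZMod ℓ))ˣ, ∃ i ∈ B, ∀ x ∈ qpt q (J i), ψ x = 1) :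
    ∃ T ⊆ B, Obs ℓ q J T := by
  classical
  obtain ⟨T, hT, hmin⟩ := exists_minimal_le_of_wellFoundedLT
    (fun T : Finset ι => ∀ ψ : Γ →* (AlgebraicClosure (ZMod ℓ))ˣ, ∃ i ∈ T, ∀ x ∈ qpt q (J i),
      ψ x = 1) B h
  refine ⟨T, hT, hmin.1, fun S hS => ?_⟩
  by_contra hcon
  push Not at hcon
  exact absurd (hmin.2 hcon hS.le) (not_le_of_gt hS)

/-- some class is obstructed -/
theorem fail_class {I : Finset ι} {J : ι → Subgroup Γ} {t : ι → ℕ}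
    (ht : ∀ i ∈ I, ¬ ℓ ∣ Nat.card (J i) → (t i).Prime)
    (hfail : ∀ ψ : Γ →* (AlgebraicClosure (ZMod ℓ))ˣ, ∃ i ∈ I, ¬ ℓ ∣ Nat.card (J i) ∧
      ∀ x ∈ J i, ψ x = 1) :
    ∃ (q : ℕ) (T : Finset ι), q.Prime ∧ T ⊆ I ∧ (∀ i ∈ T, ¬ ℓ ∣ Nat.card (J i) ∧ t i = q) ∧
      Obs ℓ q J T := by
  classical
  let B := I.filter fun i => ¬ ℓ ∣ Nat.card (J i)
  have hB : ∀ i ∈ B, i ∈ I ∧ ¬ ℓ ∣ Nat.card (J i) := fun i hi => Finset.mem_filter.mp hi
  by_contra hcon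
  push Not at hcon
  have h1 : ∀ q ∈ B.image t, ∃ ψ : Γ →* (AlgebraicClosure (ZMod ℓ))ˣ, ∀ i ∈ B, t i = q →
      ∃ x ∈ qpt q (J i), ψ x ≠ 1 := by
    intro q hq
    by_contra hq1
    push Not at hq1
    obtain ⟨j, hj, rfl⟩ := Finset.mem_image.mp hq
    obtain ⟨T, hT, hobs⟩ := exists_obs (ℓ := ℓ) (q := t j) (J := J)
      (B := B.filter fun i => t i = t j) (by
        intro ψ
        obtain ⟨i, hi, hi1, hi2⟩ := hq1 ψ
        exact ⟨i, Finset.mem_filter.mpr ⟨hi, hi1⟩, hi2⟩)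
    refine hcon (t j) T (ht j (hB j hj).1 (hB j hj).2) ?_ ?_ hobs
    · intro i hi
      exact (hB i (Finset.mem_filter.mp (hT hi)).1).1
    · intro i hi
      obtain ⟨h2, h3⟩ := Finset.mem_filter.mp (hT hi)
      exact ⟨(hB i h2).2, h3⟩
  choose! ψ hψ using h1
  obtain ⟨i, hi, hiℓ, hi1⟩ := hfail (∏ q ∈ B.image t, ψ q ^ cpl (Nat.card Γ) q)
  have hiB : i ∈ B := Finset.mem_filter.mpr ⟨hi, hiℓ⟩
  have hqi : t i ∈ B.image t := Finset.mem_image_of_mem t hiB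
  have htp := ht i hi hiℓ
  obtain ⟨x, hx, hx1⟩ := hψ (t i) hqi i hiB rfl
  have h2 := hi1 x (qpt_le (J i) hx)
  have hxq := qpt_pow hx
  rw [MonoidHom.finsetProd_apply, Finset.prod_eq_single (t i)] at h2
  · rw [MonoidHom.pow_apply] at h2
    apply hx1
    refine eq_one_of_cpl (Γ := Γ) htp (k := (Nat.card Γ).factorization (t i)) ?_ h2
    rw [← map_pow, hxq, map_one]
  · intro s hs hne
    obtain ⟨j, hj, rfl⟩ := Finset.mem_image.mp hs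
    have htj := ht j (hB j hj).1 (hB j hj).2
    rw [MonoidHom.pow_apply, ← map_pow]
    have h3 : t i ^ (Nat.card Γ).factorization (t i) ∣ cpl (Nat.card Γ) (t j) := by
      have h4 : t i ^ (Nat.card Γ).factorization (t i)
          ∣ t j ^ (Nat.card Γ).factorization (t j) * cpl (Nat.card Γ) (t j) := by
        rw [cpl_mul]
        exact Nat.ordProj_dvd _ _
      refine Nat.Coprime.dvd_of_dvd_mul_left ?_ h4
      exact Nat.Coprime.pow _ _ ((Nat.coprime_primes htp htj).mpr (Ne.symm hne))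
    obtain ⟨m, hm⟩ := h3
    rw [hm, pow_mul, hxq, one_pow, map_one]
  · intro h3
    exact absurd hqi h3

lemma Obs.erase {q : ℕ} {J : ι → Subgroup Γ} {T : Finset ι} [DecidableEq ι] (h : Obs ℓ q J T)
    {r : ι} (hr : r ∈ T) :
    ∃ ψ₀ : Γ →* (AlgebraicClosure (ZMod ℓ))ˣ, ∀ i ∈ T.erase r, ∃ x ∈ J i, ψ₀ x ≠ 1 := by
  obtain ⟨ψ₀, h1⟩ := h.2 (T.erase r) (Finset.erase_ssubset hr)
  refine ⟨ψ₀, fun i hi => ?_⟩
  obtain ⟨x, hx, hx1⟩ := h1 i hi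
  exact ⟨x, qpt_le _ hx, hx1⟩

/-- the relations in an obstructed class -/
lemma Obs.rel {q : ℕ} (hq : q.Prime) (hℓq : ℓ ≠ q) {J : ι → Subgroup Γ} {T : Finset ι}
    (h : Obs ℓ q J T) (hJ : ∀ i ∈ T, q ∣ Nat.card (J i)) :
    q + 1 ≤ T.card ∧ Nat.card ↥(T.sup J) * q ^ (q - 1) ≤ ∏ i ∈ T, Nat.card (J i) := by
  obtain ⟨-, h1, h2⟩ := class_chain hq hℓq J h.1 h.2 hJ
  refine ⟨h2, ?_⟩
  have h3 : min T.card (q - 1) = q - 1 := by omega
  rw [h3] at h1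
  have h4 := card_sup_family (I := T) (A := fun i => qpt q (J i)) (B := J) (fun i _ => qpt_le (J i))
  have hpos : 0 < Nat.card ↥(T.sup fun i => qpt q (J i)) := Nat.card_pos
  have hpos2 : 0 < ∏ i ∈ T, Nat.card (qpt q (J i)) := Finset.prod_pos fun i _ => Nat.card_pos
  refine Nat.le_of_mul_le_mul_right ?_ hpos2
  calc Nat.card ↥(T.sup J) * q ^ (q - 1) * ∏ i ∈ T, Nat.card (qpt q (J i))
      = (Nat.card ↥(T.sup J) * ∏ i ∈ T, Nat.card (qpt q (J i))) * q ^ (q - 1) := by ring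
    _ ≤ (Nat.card ↥(T.sup fun i => qpt q (J i)) * ∏ i ∈ T, Nat.card (J i)) * q ^ (q - 1) :=
        Nat.mul_le_mul_right _ h4
    _ = (Nat.card ↥(T.sup fun i => qpt q (J i)) * q ^ (q - 1)) * ∏ i ∈ T, Nat.card (J i) := by ring
    _ ≤ (∏ i ∈ T, Nat.card (qpt q (J i))) * ∏ i ∈ T, Nat.card (J i) := Nat.mul_le_mul_right _ h1
    _ = _ := mul_comm _ _

/-- the order of the group generated by an obstructed class of `q`-groups -/
lemma Obs.bound {q : ℕ} (hq : q.Prime) (hℓq : ℓ ≠ q) {J : ι → Subgroup Γ} {T : Finset ι}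
    (h : Obs ℓ q J T) (hJ : ∀ i ∈ T, q ∣ Nat.card (J i)) (hJq : ∀ i ∈ T, ∃ k, Nat.card (J i) = q ^ k) :
    q + 1 ≤ T.card ∧ Nat.card ↥(T.sup J) ≤ bpr q T.card := by
  obtain ⟨h1, -, h2⟩ := class_chain hq hℓq J h.1 h.2 hJ
  refine ⟨h2, ?_⟩
  have h3 : T.sup J = T.sup fun i => qpt q (J i) := by
    refine Finset.sup_congr rfl fun i hi => ?_
    obtain ⟨k, hk⟩ := hJq i hi
    exact (qpt_eq hq hk).symm
  rw [h3]
  exact h1

end cls

end Pool.Agent.Helper606_LC
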