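import Mathlib
import Pool.Agent.Helper606_LC.Ch4

/-!
# The combinatorial bound for the degree
-/

set_option autoImplicit false
set_option linter.unusedSectionVars false

namespace Pool.Agent.Helper606_LC

/-- a natural number with a single prime divisor -/
lemma eq_pow_of_unique {n q : ℕ} (hn : n ≠ 0) (h : ∀ p, p.Prime → p ∣ n → p = q) :
    ∃ k, n = q ^ k :=
  ⟨_, Nat.eq_prime_pow_of_unique_prime_dvd hn (fun {d} hd hdn => h d hd hdn)⟩

section comb

variable {Γ : Type*} [CommGroup Γ] [Finite Γ] {I : Finset ℕ} {J : ℕ → Subgroup Γ} {w : ℕ → ℕ}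
  {D : ℕ}

/-- the classes for the prime `ℓ` -/
lemma exists_class {ℓ : ℕ} [hℓF : Fact ℓ.Prime] {s : ℕ} (hs : s.Prime)
    (hls : ∀ q : ℕ, q.Prime → q ≠ ℓ → q ≠ s → 5 ≤ q)
    (hJ : ∀ p ∈ I, J p ≠ ⊥)
    (hno : ∀ ψ : Γ →* (AlgebraicClosure (ZMod ℓ))ˣ, ∃ p ∈ I, ¬ ℓ ∣ Nat.card (J p) ∧
      ∀ x ∈ J p, ψ x = 1) :
    ∃ (q : ℕ) (T : Finset ℕ), q.Prime ∧ q ≠ ℓ ∧ T ⊆ I ∧ Obs ℓ q J T ∧
      (∀ p ∈ T, ¬ ℓ ∣ Nat.card (J p) ∧ q ∣ Nat.card (J p)) ∧
      (5 ≤ q ∨ (q = s ∧ ∀ p ∈ T, ∃ k, Nat.card (J p) = s ^ k)) := by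
  classical
  let t : ℕ → ℕ := fun p => if h : ∃ q, q.Prime ∧ 5 ≤ q ∧ q ∣ Nat.card (J p) then h.choose else s
  have ht : ∀ p, (∃ q, q.Prime ∧ 5 ≤ q ∧ q ∣ Nat.card (J p)) →
      (t p).Prime ∧ 5 ≤ t p ∧ t p ∣ Nat.card (J p) := by
    intro p h
    have h1 : t p = h.choose := dif_pos h
    rw [h1]
    exact h.choose_spec
  have ht' : ∀ p, ¬ (∃ q, q.Prime ∧ 5 ≤ q ∧ q ∣ Nat.card (J p)) → t p = s := fun p h => dif_neg h
  have hpow : ∀ p, ¬ ℓ ∣ Nat.card (J p) → ¬ (∃ q, q.Prime ∧ 5 ≤ q ∧ q ∣ Nat.card (J p)) →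
      ∃ k, Nat.card (J p) = s ^ k := by
    intro p hp h
    push Not at h
    apply eq_pow_of_unique Nat.card_pos.ne'
    intro q hq hqd
    by_contra hqs
    refine h q hq (hls q hq ?_ hqs) hqd
    rintro rfl
    exact hp hqd
  obtain ⟨q, T, hq, hTI, hT, hobs⟩ := fail_class (ℓ := ℓ) (I := I) (J := J) (t := t) (by
    intro p _ _
    by_cases h : ∃ q, q.Prime ∧ 5 ≤ q ∧ q ∣ Nat.card (J p)
    · exact (ht p h).1
    · rw [ht' p h]; exact hs) hno
  have hTne : T.Nonempty := by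
    obtain ⟨i, hi, -⟩ := hobs.1 1
    exact ⟨i, hi⟩
  have hdvd : ∀ p ∈ T, q ∣ Nat.card (J p) := by
    intro p hp
    obtain ⟨h1, h2⟩ := hT p hp
    rw [← h2]
    by_cases h : ∃ q, q.Prime ∧ 5 ≤ q ∧ q ∣ Nat.card (J p)
    · exact (ht p h).2.2
    · rw [ht' p h]
      obtain ⟨k, hk⟩ := hpow p h1 h
      have hk0 : k ≠ 0 := by
        rintro rfl
        rw [pow_zero, Subgroup.card_eq_one] at hk
        exact hJ p (hTI hp) hk
      rw [hk]
      exact dvd_pow_self s hk0
  refine ⟨q, T, hq, ?_, hTI, hobs, fun p hp => ⟨(hT p hp).1, hdvd p hp⟩, ?_⟩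
  · rintro rfl
    obtain ⟨p, hp⟩ := hTne
    exact (hT p hp).1 (hdvd p hp)
  · by_cases h5 : 5 ≤ q
    · exact Or.inl h5
    · right
      have h6 : ∀ p ∈ T, ¬ (∃ q, q.Prime ∧ 5 ≤ q ∧ q ∣ Nat.card (J p)) := by
        intro p hp h
        apply h5
        rw [← (hT p hp).2]
        exact (ht p h).2.1
      refine ⟨?_, fun p hp => hpow p (hT p hp).1 (h6 p hp)⟩
      obtain ⟨p, hp⟩ := hTne
      rw [← (hT p hp).2, ht' p (h6 p hp)]

/-- **The bound for the degree.** -/
theorem comb_bound (hI : ∀ p ∈ I, p.Prime) (hJ : ∀ p ∈ I, J p ≠ ⊥)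
    (htype : ∀ p ∈ I, (Nat.card (J p) ∣ p - 1 ∧ w p = p - 1) ∨
      ((∃ k, Nat.card (J p) = p ^ k) ∧ w p = Nat.card (J p)))
    (hhit : ∀ (ℓ : ℕ) [Fact ℓ.Prime] (ψ : Γ →* (AlgebraicClosure (ZMod ℓ))ˣ) (X : Finset ℕ)
      (r : ℕ), X ⊆ I → r ∈ I → r ∉ X → (∀ p ∈ X, (∃ x ∈ J p, ψ x ≠ 1) ∨ ℓ ∣ Nat.card (J p)) →
      (∏ p ∈ X, w p) * Nat.card (J r) ≤ D * Nat.card ↥((insert r X).sup J))
    (hno : ∀ (ℓ : ℕ) [Fact ℓ.Prime] (ψ : Γ →* (AlgebraicClosure (ZMod ℓ))ˣ), ∃ p ∈ I,
      ¬ ℓ ∣ Nat.card (J p) ∧ ∀ x ∈ J p, ψ x = 1) : 8640 ≤ D := by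
  classical
  have : Fact (Nat.Prime 2) := ⟨Nat.prime_two⟩
  have : Fact (Nat.Prime 3) := ⟨Nat.prime_three⟩
  have hwJ : ∀ p ∈ I, Nat.card (J p) ≤ w p := by
    intro p hp
    rcases htype p hp with ⟨h1, h2⟩ | ⟨-, h2⟩
    · rw [h2]
      refine Nat.le_of_dvd ?_ h1
      rcases Nat.eq_zero_or_pos (p - 1) with h3 | h3
      · have := (hI p hp).two_le
        omega
      · exact h3
    · rw [h2]
  have hcJ : ∀ p ∈ I, 1 < Nat.card (J p) := by
    intro p hp
    exact Finite.one_lt_card_iff_nontrivial.mpr ((Subgroup.nontrivial_iff_ne_bot _).mpr (hJ p hp))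
  -- the prime two
  obtain ⟨q, T, hq, hq2, hTI, hobs, hT, hcase⟩ := exists_class (ℓ := 2) (I := I) (J := J)
    Nat.prime_three (by
      intro q hq h2 h3
      have h4 : q ≠ 4 := by rintro rfl; exact absurd hq (by norm_num)
      have := hq.two_le
      omega) hJ (hno 2)
  rcases hcase with h5 | ⟨rfl, hT3⟩
  · -- a class of a large prime
    obtain ⟨hTc, hrel⟩ := hobs.rel hq hq2.symm (fun p hp => (hT p hp).2)
    have hTne : T.Nonempty := Finset.card_pos.mp (by omega)
    obtain ⟨r, hr⟩ := hTne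
    obtain ⟨ψ, hψ⟩ := hobs.erase hr
    have h1 := hhit 2 ψ (T.erase r) r ((Finset.erase_subset _ _).trans hTI) (hTI hr)
      (Finset.notMem_erase r T) (fun p hp => Or.inl (hψ p hp))
    rw [Finset.insert_erase hr] at h1
    have h2 : 2 ^ (q - 1) * ∏ p ∈ T.erase r, Nat.card (J p) ≤ ∏ p ∈ T.erase r, w p := by
      have h3 : ∀ p ∈ T.erase r, (if p = q then 1 else 2) * Nat.card (J p) ≤ w p := by
        intro p hp
        have hpT := Finset.mem_of_mem_erase hp
        have hpI := hTI hpT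
        split_ifs with hpq
        · rw [one_mul]
          exact hwJ p hpI
        · rcases htype p hpI with ⟨h4, h6⟩ | ⟨⟨k, hk⟩, -⟩
          · obtain ⟨m, hm⟩ := h4
            have h7 : p ≠ 2 := by
              rintro rfl
              have h8 : Nat.card (J 2) = 1 := by
                have h9 : Nat.card (J 2) ∣ 1 := Dvd.intro m hm.symm
                exact Nat.dvd_one.mp h9
              have := hcJ 2 hpI
              omega
            have h8 : p % 2 = 1 := (hI p hpI).eq_two_or_odd.resolve_left h7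
            have h9 : m ≠ 0 := by
              rintro rfl
              rw [mul_zero] at hm
              have := (hI p hpI).two_le
              omega
            have h10 : m ≠ 1 := by
              rintro rfl
              rw [mul_one] at hm
              apply (hT p hpT).1
              rw [← hm]
              omega
            rw [h6, hm, mul_comm]
            exact Nat.mul_le_mul_left _ (by omega)
          · exfalso
            apply hpq
            have h7 := (hT p hpT).2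
            rw [hk] at h7
            exact ((Nat.prime_dvd_prime_iff_eq hq (hI p hpI)).mp (hq.dvd_of_dvd_pow h7)).symm
      have h4 := Finset.prod_le_prod' h3
      rw [Finset.prod_mul_distrib] at h4
      refine le_trans (Nat.mul_le_mul_right _ ?_) h4
      rw [Finset.prod_ite, Finset.prod_const_one, one_mul, Finset.prod_const]
      apply Nat.pow_le_pow_right (by norm_num)
      have h6 : (T.erase r).card ≤ ((T.erase r).filter fun p => ¬ p = q).card + 1 := by
        have h7 : T.erase r ⊆ insert q ((T.erase r).filter fun p => ¬ p = q) := by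
          intro p hp
          by_cases h8 : p = q
          · rw [h8]; exact Finset.mem_insert_self _ _
          · exact Finset.mem_insert_of_mem (Finset.mem_filter.mpr ⟨hp, h8⟩)
        exact (Finset.card_le_card h7).trans (Finset.card_insert_le _ _)
      rw [Finset.card_erase_of_mem hr] at h6
      omega
    have hpos : 0 < ∏ p ∈ T, Nat.card (J p) := Finset.prod_pos fun p _ => Nat.card_pos
    have h3 : (2 * q) ^ (q - 1) ≤ D := by
      refine Nat.le_of_mul_le_mul_right ?_ hpos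
      calc (2 * q) ^ (q - 1) * ∏ p ∈ T, Nat.card (J p)
          = q ^ (q - 1) * (2 ^ (q - 1) * ∏ p ∈ T.erase r, Nat.card (J p)) * Nat.card (J r) := by
            rw [mul_pow, ← Finset.mul_prod_erase T _ hr]
            ring
        _ ≤ q ^ (q - 1) * (∏ p ∈ T.erase r, w p) * Nat.card (J r) :=
            Nat.mul_le_mul_right _ (Nat.mul_le_mul_left _ h2)
        _ = q ^ (q - 1) * ((∏ p ∈ T.erase r, w p) * Nat.card (J r)) := by ring
        _ ≤ q ^ (q - 1) * (D * Nat.card ↥(T.sup J)) := Nat.mul_le_mul_left _ h1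
        _ = D * (Nat.card ↥(T.sup J) * q ^ (q - 1)) := by ring
        _ ≤ D * ∏ p ∈ T, Nat.card (J p) := Nat.mul_le_mul_left _ hrel
    refine le_trans ?_ h3
    calc 8640 ≤ (2 * 5) ^ (5 - 1) := by norm_num
      _ ≤ (2 * q) ^ (5 - 1) := Nat.pow_le_pow_left (by omega) _
      _ ≤ (2 * q) ^ (q - 1) := Nat.pow_le_pow_right (by omega) (by omega)
  -- the class of three
  obtain ⟨hTc, hTb⟩ := hobs.bound Nat.prime_three (by norm_num) (fun p hp => (hT p hp).2) hT3
  have hTnum : ∀ p ∈ T, p.Prime ∧ ((p = 3 ∧ 3 ≤ w p) ∨ (p % 3 = 1 ∧ w p = p - 1)) := by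
    intro p hp
    have hpI := hTI hp
    have hpp := hI p hpI
    refine ⟨hpp, ?_⟩
    have h3 := (hT p hp).2
    rcases htype p hpI with ⟨h4, h5⟩ | ⟨⟨k, hk⟩, h5⟩
    · right
      have h6 : 3 ∣ p - 1 := h3.trans h4
      have := hpp.two_le
      exact ⟨by omega, h5⟩
    · left
      have h6 := h3
      rw [hk] at h6
      have h7 := (Nat.prime_dvd_prime_iff_eq Nat.prime_three hpp).mp
        (Nat.prime_three.dvd_of_dvd_pow h6)
      refine ⟨h7.symm, ?_⟩
      rw [h5]
      exact Nat.le_of_dvd Nat.card_pos h3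
  obtain ⟨hn1, hn2, hn3⟩ := numb_three hTnum hTc
  -- the prime three
  obtain ⟨q', C, hq', hq'3, hCI, hobs', hC, hcase'⟩ := exists_class (ℓ := 3) (I := I) (J := J)
    Nat.prime_two (by
      intro q hq h2 h3
      have h4 : q ≠ 4 := by rintro rfl; exact absurd hq (by norm_num)
      have := hq.two_le
      omega) hJ (hno 3)
  have hdisj : Disjoint T C := by
    rw [Finset.disjoint_left]
    intro p hp hp'
    exact (hC p hp').1 (hT p hp).2
  have hhit' : ∀ r ∈ C, (∏ p ∈ T, w p) * (∏ p ∈ C.erase r, w p) * Nat.card (J r)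
      ≤ D * (Nat.card ↥(T.sup J) * Nat.card ↥(C.sup J)) := by
    intro r hr
    obtain ⟨ψ, hψ⟩ := hobs'.erase hr
    have hd : Disjoint T (C.erase r) := hdisj.mono_right (Finset.erase_subset _ _)
    have h1 := hhit 3 ψ (T ∪ C.erase r) r
      (Finset.union_subset hTI ((Finset.erase_subset _ _).trans hCI)) (hCI hr) (by
        intro h
        rcases Finset.mem_union.mp h with h | h
        · exact (Finset.disjoint_left.mp hdisj) h hr
        · exact Finset.notMem_erase r C h) (by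
        intro p hp
        rcases Finset.mem_union.mp hp with h | h
        · exact Or.inr (hT p h).2
        · exact Or.inl (hψ p h))
    rw [Finset.prod_union hd] at h1
    refine h1.trans (Nat.mul_le_mul_left _ ?_)
    have h2 : (insert r (T ∪ C.erase r)).sup J = T.sup J ⊔ C.sup J := by
      have h3 : insert r (T ∪ C.erase r) = T ∪ C := by
        rw [← Finset.union_insert, Finset.insert_erase hr]
      rw [h3, Finset.sup_union]
    rw [h2]
    have h6 := card_sup_mul (A := T.sup J) (I := C.sup J) (J := ⊥) bot_le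
    rwa [Subgroup.card_bot, mul_one, sup_bot_eq] at h6
  have hTpos : 0 < Nat.card ↥(T.sup J) := Nat.card_pos
  have hCpos : 0 < Nat.card ↥(C.sup J) := Nat.card_pos
  rcases hcase' with h5 | ⟨rfl, hC2⟩
  · -- a class of a large prime
    obtain ⟨hCc, hrel⟩ := hobs'.rel hq' hq'3.symm (fun p hp => (hC p hp).2)
    have hCne : C.Nonempty := Finset.card_pos.mp (by omega)
    obtain ⟨r, hr⟩ := hCne
    have h1 := hhit' r hr
    have h2 : ∏ p ∈ C.erase r, Nat.card (J p) ≤ ∏ p ∈ C.erase r, w p :=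
      Finset.prod_le_prod' fun p hp => hwJ p (hCI (Finset.mem_of_mem_erase hp))
    have hpos : 0 < (∏ p ∈ C, Nat.card (J p)) * Nat.card ↥(T.sup J) :=
      Nat.mul_pos (Finset.prod_pos fun p _ => Nat.card_pos) hTpos
    have h3 : 432 * q' ^ (q' - 1) ≤ D := by
      refine Nat.le_of_mul_le_mul_right ?_ hpos
      calc 432 * q' ^ (q' - 1) * ((∏ p ∈ C, Nat.card (J p)) * Nat.card ↥(T.sup J))
          = q' ^ (q' - 1) * ((432 * Nat.card ↥(T.sup J)) * (∏ p ∈ C.erase r, Nat.card (J p))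
              * Nat.card (J r)) := by
            rw [← Finset.mul_prod_erase C _ hr]
            ring
        _ ≤ q' ^ (q' - 1) * ((∏ p ∈ T, w p) * (∏ p ∈ C.erase r, w p) * Nat.card (J r)) := by
            apply Nat.mul_le_mul_left
            apply Nat.mul_le_mul_right
            exact Nat.mul_le_mul ((Nat.mul_le_mul_left _ hTb).trans hn1) h2
        _ ≤ q' ^ (q' - 1) * (D * (Nat.card ↥(T.sup J) * Nat.card ↥(C.sup J))) :=
            Nat.mul_le_mul_left _ h1
        _ = D * ((Nat.card ↥(C.sup J) * q' ^ (q' - 1)) * Nat.card ↥(T.sup J)) := by ring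
        _ ≤ D * ((∏ p ∈ C, Nat.card (J p)) * Nat.card ↥(T.sup J)) :=
            Nat.mul_le_mul_left _ (Nat.mul_le_mul_right _ hrel)
    refine le_trans ?_ h3
    calc 8640 ≤ 432 * 5 ^ (5 - 1) := by norm_num
      _ ≤ 432 * q' ^ (5 - 1) := Nat.mul_le_mul_left _ (Nat.pow_le_pow_left h5 _)
      _ ≤ 432 * q' ^ (q' - 1) := Nat.mul_le_mul_left _ (Nat.pow_le_pow_right (by omega) (by omega))
  -- the class of two
  obtain ⟨hCc, hCb⟩ := hobs'.bound Nat.prime_two (by norm_num) (fun p hp => (hC p hp).2) hC2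
  have hCnum : ∀ p ∈ C, p.Prime ∧ (p = 2 ∨ w p = p - 1) := by
    intro p hp
    have hpI := hCI hp
    have hpp := hI p hpI
    refine ⟨hpp, ?_⟩
    rcases htype p hpI with ⟨-, h5⟩ | ⟨⟨k, hk⟩, -⟩
    · exact Or.inr h5
    · left
      have h6 := (hC p hp).2
      rw [hk] at h6
      exact ((Nat.prime_dvd_prime_iff_eq Nat.prime_two hpp).mp
        (Nat.prime_two.dvd_of_dvd_pow h6)).symm
  obtain ⟨r, hr, hm1, hm2, hm3⟩ := numb_two hCnum hCc
  have h1 := hhit' r hr
  have hJr : 2 ≤ Nat.card (J r) := hcJ r (hCI hr)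
  have hfin : ∀ a b : ℕ, a * bpr 3 T.card ≤ ∏ p ∈ T, w p →
      b * bpr 2 C.card ≤ 2 * ∏ p ∈ C.erase r, w p → a * b ≤ D := by
    intro a b ha hb
    have hpos : 0 < Nat.card ↥(T.sup J) * Nat.card ↥(C.sup J) := Nat.mul_pos hTpos hCpos
    refine Nat.le_of_mul_le_mul_right ?_ hpos
    calc a * b * (Nat.card ↥(T.sup J) * Nat.card ↥(C.sup J))
        = (a * Nat.card ↥(T.sup J)) * (b * Nat.card ↥(C.sup J)) := by ring
      _ ≤ (∏ p ∈ T, w p) * (2 * ∏ p ∈ C.erase r, w p) :=
          Nat.mul_le_mul ((Nat.mul_le_mul_left _ hTb).trans ha)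
            ((Nat.mul_le_mul_left _ hCb).trans hb)
      _ = (∏ p ∈ T, w p) * (∏ p ∈ C.erase r, w p) * 2 := by ring
      _ ≤ (∏ p ∈ T, w p) * (∏ p ∈ C.erase r, w p) * Nat.card (J r) := Nat.mul_le_mul_left _ hJr
      _ ≤ _ := h1
  by_cases h3T : 3 ∈ T
  · have h3C : 3 ∉ C := (Finset.disjoint_left.mp hdisj) h3T
    by_cases h7C : 7 ∈ C
    · have h7T : 7 ∉ T := (Finset.disjoint_right.mp hdisj) h7C
      exact le_trans (by norm_num) (hfin 1728 12 (hn3 h7T) (hm2 h3C))
    · exact hfin 432 20 hn1 (hm3 h3C h7C)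
  · exact le_trans (by norm_num) (hfin 3456 4 (hn2 h3T) hm1)

end comb

end Pool.Agent.Helper606_LC
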