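import Mathlib
import Pool.Agent.Helper606_LC.Comb2
import Pool.Agent.Helper606_LC.Fin3

/-!
# Characters missing few elements of prime order, real weights
-/

set_option autoImplicit false
set_option linter.unusedSectionVars false

namespace Pool.Agent.Helper606_LC

open Pool.Agent.H541R3.ART Pool.Agent.W446.AS Pool.Agent.R389

section avg

variable {P : Type*} [CommGroup P] {F : Type*} [Field F] {ι : Type*}

/-- characters trivial on one element and nontrivial on another element of the same prime order -/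
lemma card_two [Finite (P →* Fˣ)] (hsep : ∀ x : P, x ≠ 1 → ∃ φ : P →* Fˣ, φ x ≠ 1) {q : ℕ}
    (hq : q.Prime) {x y : P} (hx : orderOf x = q) (hy : orderOf y = q) :
    Nat.card {ψ : P →* Fˣ // ψ x = 1 ∧ ψ y ≠ 1} * q ≤ Nat.card {ψ : P →* Fˣ // ψ y ≠ 1} := by
  classical
  have : Fintype (P →* Fˣ) := Fintype.ofFinite _
  let ev : P → (P →* Fˣ) →* Fˣ := fun z =>
    { toFun := fun ψ => ψ z
      map_one' := rfl
      map_mul' := fun _ _ => rfl }
  have hker : ∀ z, Nat.card (ev z).ker = Nat.card {ψ : P →* Fˣ // ψ z = 1} := fun z =>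
    Nat.card_congr
    { toFun := fun ψ => ⟨ψ.1, ψ.2⟩
      invFun := fun ψ => ⟨ψ.1, ψ.2⟩
      left_inv := fun _ => rfl
      right_inv := fun _ => rfl }
  have hA1 := card_triv hsep hq hx
  have hA2 := card_triv hsep hq hy
  -- the intersection
  let f : (ev x).ker →* Fˣ := (ev y).comp (ev x).ker.subtype
  have h1 := Subgroup.card_eq_card_quotient_mul_card_subgroup f.ker
  have h2 : Nat.card ((ev x).ker ⧸ f.ker) = Nat.card f.range :=
    Nat.card_congr (QuotientGroup.quotientKerEquivRange f).toEquiv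
  have hfr : Finite f.range := Set.finite_range f
  have h3 : Nat.card f.range ≤ q := by
    have h4 : ∀ z : f.range, z ^ q = 1 := by
      rintro ⟨_, ψ, rfl⟩
      apply Subtype.ext
      change (ψ.1 y) ^ q = 1
      rw [← map_pow, ← hy, pow_orderOf_eq_one, map_one]
    have h5 : Nat.card f.range ≤ Nat.card (rootsOfUnity q F) := by
      have hne : NeZero q := ⟨hq.ne_zero⟩
      refine Nat.card_le_card_of_injective (fun z => ⟨(z : Fˣ), ?_⟩) ?_
      · rw [mem_rootsOfUnity]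
        exact congrArg Subtype.val (h4 z)
      · intro a b hab
        exact Subtype.ext (congrArg (fun u => ((u : rootsOfUnity q F) : Fˣ)) hab)
    refine h5.trans ?_
    have hne : NeZero q := ⟨hq.ne_zero⟩
    exact card_rootsOfUnity F q
  have h4 : Nat.card f.ker = Nat.card {ψ : P →* Fˣ // ψ x = 1 ∧ ψ y = 1} := Nat.card_congr
    { toFun := fun ψ => ⟨ψ.1.1, ψ.1.2, ψ.2⟩
      invFun := fun ψ => ⟨⟨ψ.1, ψ.2.1⟩, ψ.2.2⟩
      left_inv := fun _ => rfl
      right_inv := fun _ => rfl }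
  rw [h2, hker x, h4] at h1
  -- counting
  have h5 : Nat.card {ψ : P →* Fˣ // ψ x = 1}
      = Nat.card {ψ : P →* Fˣ // ψ x = 1 ∧ ψ y = 1}
        + Nat.card {ψ : P →* Fˣ // ψ x = 1 ∧ ψ y ≠ 1} := by
    rw [Nat.card_eq_fintype_card, Nat.card_eq_fintype_card, Nat.card_eq_fintype_card,
      Fintype.card_subtype, Fintype.card_subtype, Fintype.card_subtype,
      ← Finset.card_union_of_disjoint]
    · congr 1
      ext ψ
      simp only [Finset.mem_filter, Finset.mem_univ, true_and, Finset.mem_union]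
      tauto
    · rw [Finset.disjoint_filter]
      tauto
  have h6 : Nat.card (P →* Fˣ) = Nat.card {ψ : P →* Fˣ // ψ y = 1}
        + Nat.card {ψ : P →* Fˣ // ψ y ≠ 1} := by
    rw [Nat.card_eq_fintype_card, Nat.card_eq_fintype_card, Nat.card_eq_fintype_card,
      Fintype.card_subtype, Fintype.card_subtype, ← Finset.card_union_of_disjoint,
      ← Finset.card_univ]
    · congr 1
      ext ψ
      simp only [Finset.mem_filter, Finset.mem_univ, true_and, Finset.mem_union]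
      tauto
    · rw [Finset.disjoint_filter]
      tauto
  set a := Nat.card {ψ : P →* Fˣ // ψ x = 1 ∧ ψ y = 1}
  set b := Nat.card {ψ : P →* Fˣ // ψ x = 1 ∧ ψ y ≠ 1}
  set A := Nat.card (P →* Fˣ)
  set X := Nat.card {ψ : P →* Fˣ // ψ x = 1}
  set Y := Nat.card {ψ : P →* Fˣ // ψ y = 1}
  set Z := Nat.card {ψ : P →* Fˣ // ψ y ≠ 1}
  have h7 : X ≤ q * a := by
    rw [h1]
    exact Nat.mul_le_mul_right _ h3
  -- `b = X - a ≤ X (1 - 1 / q)`, `Z = A - Y ≥ A (1 - 1 / q)`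
  obtain ⟨s, hs⟩ : ∃ s, q = s + 1 := ⟨q - 1, by have := hq.pos; omega⟩
  rw [hs] at h7 hA1 hA2 ⊢
  have h8 : b ≤ s * a := by nlinarith
  have h9 : (s + 1) * b ≤ s * X := by nlinarith
  have h10 : s * X * (s + 1) ≤ s * A := by nlinarith
  have h11 : s * A ≤ (s + 1) * Z := by nlinarith
  have h12 : (s + 1) * (b * (s + 1)) ≤ (s + 1) * Z := by nlinarith
  exact Nat.le_of_mul_le_mul_left h12 (Nat.succ_pos s)

/-- averaging over the characters nontrivial on one element -/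
lemma avg_real [Finite (P →* Fˣ)] (hsep : ∀ x : P, x ≠ 1 → ∃ φ : P →* Fˣ, φ x ≠ 1) {q : ℕ}
    (hq : q.Prime) (T : Finset ι) (β : ι → P) (hT : ∀ i ∈ T, orderOf (β i) = q) (w : ι → ℝ)
    (hw : ∀ i ∈ T, 0 ≤ w i) {i₀ : ι} (hi₀ : i₀ ∈ T) [DecidableEq F] :
    ∃ ψ : P →* Fˣ, q * ∑ i ∈ T.filter (fun i => ψ (β i) = 1), w i + w i₀ ≤ ∑ i ∈ T, w i := by
  classical
  by_contra hcon
  push Not at hcon
  have : Fintype (P →* Fˣ) := Fintype.ofFinite _
  set W := ∑ i ∈ T, w i with hWdef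
  have hx1 : β i₀ ≠ 1 := by
    intro h
    have h1 := hT i₀ hi₀
    rw [h, orderOf_one] at h1
    exact hq.one_lt.ne h1
  obtain ⟨φ, hφ⟩ := hsep _ hx1
  let A : Finset (P →* Fˣ) := Finset.univ.filter fun ψ => ψ (β i₀) ≠ 1
  have hA : 0 < (A.card : ℝ) := by
    have : 0 < A.card := Finset.card_pos.mpr ⟨φ, Finset.mem_filter.mpr ⟨Finset.mem_univ _, hφ⟩⟩
    exact_mod_cast this
  have h1 : ∑ ψ ∈ A, ∑ i ∈ T.filter (fun i => ψ (β i) = 1), w i
      = ∑ i ∈ T, w i * (A.filter (fun ψ => ψ (β i) = 1)).card := by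
    have h2 : ∀ ψ : P →* Fˣ, ∑ i ∈ T.filter (fun i => ψ (β i) = 1), w i
        = ∑ i ∈ T, if ψ (β i) = 1 then w i else 0 := fun ψ => Finset.sum_filter _ _
    rw [Finset.sum_congr rfl (fun ψ _ => h2 ψ), Finset.sum_comm]
    refine Finset.sum_congr rfl fun i _ => ?_
    rw [← Finset.sum_filter, Finset.sum_const, nsmul_eq_mul, mul_comm]
  have h3 : ∀ i ∈ T, ((A.filter (fun ψ => ψ (β i) = 1)).card : ℝ) * q ≤ A.card := by
    intro i hi
    have h4 := card_two hsep hq (hT i hi) (hT i₀ hi₀)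
    rw [Nat.card_eq_fintype_card, Nat.card_eq_fintype_card, Fintype.card_subtype,
      Fintype.card_subtype] at h4
    have h5 : (A.filter (fun ψ => ψ (β i) = 1)) = Finset.univ.filter
        (fun ψ : P →* Fˣ => ψ (β i) = 1 ∧ ψ (β i₀) ≠ 1) := by
      ext ψ
      simp only [A, Finset.mem_filter, Finset.mem_univ, true_and]
      tauto
    rw [h5]
    exact_mod_cast h4
  have h0 : (A.filter (fun ψ => ψ (β i₀) = 1)).card = 0 := by
    rw [Finset.card_eq_zero, Finset.filter_eq_empty_iff]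
    intro ψ hψ
    exact (Finset.mem_filter.mp hψ).2
  have h4 : (q : ℝ) * ∑ ψ ∈ A, ∑ i ∈ T.filter (fun i => ψ (β i) = 1), w i
      ≤ (W - w i₀) * A.card := by
    rw [h1, Finset.mul_sum, hWdef, ← Finset.add_sum_erase _ _ hi₀,
      ← Finset.add_sum_erase T w hi₀, h0, add_sub_cancel_left, Finset.sum_mul]
    rw [Nat.cast_zero, mul_zero, mul_zero, zero_add]
    refine Finset.sum_le_sum fun i hi => ?_
    have hiT := Finset.mem_of_mem_erase hi
    have h5 := h3 i hiT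
    calc (q : ℝ) * (w i * (A.filter (fun ψ => ψ (β i) = 1)).card)
        = w i * ((A.filter (fun ψ => ψ (β i) = 1)).card * q) := by ring
      _ ≤ w i * A.card := mul_le_mul_of_nonneg_left h5 (hw i hiT)
  have h5 : ∑ ψ ∈ A, (W - w i₀) < ∑ ψ ∈ A, (q : ℝ) * ∑ i ∈ T.filter (fun i => ψ (β i) = 1), w i := by
    refine Finset.sum_lt_sum_of_nonempty ?_ fun ψ _ => ?_
    · exact ⟨φ, Finset.mem_filter.mpr ⟨Finset.mem_univ _, hφ⟩⟩
    · have := hcon ψ
      linarith
  rw [Finset.sum_const, nsmul_eq_mul, ← Finset.mul_sum] at h5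
  linarith

/-- characters missing few elements of each prime order -/
lemma miss_real [Finite (P →* Fˣ)] (hsep : ∀ x : P, x ≠ 1 → ∃ φ : P →* Fˣ, φ x ≠ 1)
    (T : Finset ι) (β : ι → P) (hT : ∀ i ∈ T, (orderOf (β i)).Prime) (w : ι → ℝ) {m : ℝ}
    (hm : 0 < m) (hw : ∀ i ∈ T, m ≤ w i) [DecidableEq F] :
    ∃ ψ : P →* Fˣ, ∀ q ∈ T.image (fun i => orderOf (β i)),
      q * ∑ i ∈ T.filter (fun i => orderOf (β i) = q ∧ ψ (β i) = 1), w i + m
        ≤ ∑ i ∈ T.filter (fun i => orderOf (β i) = q), w i := by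
  classical
  set Q : Finset ℕ := T.image (fun i => orderOf (β i)) with hQdef
  have hQ : ∀ q ∈ Q, q.Prime := by
    intro q hq
    obtain ⟨t, ht, rfl⟩ := Finset.mem_image.mp hq
    exact hT t ht
  have h1 : ∀ q : ℕ, ∃ ψ : P →* Fˣ, q ∈ Q →
      q * ∑ i ∈ (T.filter (fun i => orderOf (β i) = q)).filter (fun i => ψ (β i) = 1), w i + m
        ≤ ∑ i ∈ T.filter (fun i => orderOf (β i) = q), w i := by
    intro q
    by_cases hq : q ∈ Q
    · obtain ⟨t, ht, htq⟩ := Finset.mem_image.mp hq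
      obtain ⟨ψ, hψ⟩ := avg_real hsep (hQ q hq) (T.filter (fun i => orderOf (β i) = q)) β
        (fun i hi => (Finset.mem_filter.mp hi).2) w
        (fun i hi => hm.le.trans (hw i (Finset.mem_filter.mp hi).1)) (i₀ := t)
        (Finset.mem_filter.mpr ⟨ht, htq⟩)
      exact ⟨ψ, fun _ => (add_le_add_right (hw t ht) _).trans hψ⟩
    · exact ⟨1, fun h => absurd h hq⟩
  choose ψ hψ using h1
  set Ψ : P →* Fˣ := ∏ q ∈ Q, ψ q ^ (∏ r ∈ Q.erase q, r) with hΨ
  have key : ∀ i ∈ T, Ψ (β i) = 1 ↔ ψ (orderOf (β i)) (β i) = 1 := by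
    intro i hi
    set r := orderOf (β i) with hr
    have hrQ : r ∈ Q := Finset.mem_image.mpr ⟨i, hi, rfl⟩
    have hrp := hQ r hrQ
    have h2 : Ψ (β i) = ψ r (β i) ^ (∏ r ∈ Q.erase r, r) := by
      rw [hΨ, MonoidHom.finsetProd_apply, Finset.prod_eq_single r]
      · rfl
      · intro q hq hqr
        obtain ⟨m, hm⟩ : r ∣ ∏ r ∈ Q.erase q, r :=
          Finset.dvd_prod_of_mem _ (Finset.mem_erase.mpr ⟨hqr.symm, hrQ⟩)
        rw [MonoidHom.pow_apply, hm, pow_mul, ← map_pow, hr, pow_orderOf_eq_one, map_one, one_pow]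
      · intro h
        exact absurd hrQ h
    rw [h2]
    constructor
    · intro h4
      have h5 : orderOf (ψ r (β i)) ∣ ∏ r ∈ Q.erase r, r := orderOf_dvd_of_pow_eq_one h4
      have h6 : orderOf (ψ r (β i)) ∣ r := by
        rw [hr]; exact orderOf_map_dvd (ψ (orderOf (β i))) (β i)
      rcases (Nat.dvd_prime hrp).mp h6 with h7 | h7
      · exact orderOf_eq_one_iff.mp h7
      · exfalso
        rw [h7] at h5
        obtain ⟨q, hq, hrq⟩ := (Prime.dvd_finsetProd_iff hrp.prime _).mp h5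
        have hq' := Finset.mem_erase.mp hq
        exact hq'.1 ((Nat.prime_dvd_prime_iff_eq hrp (hQ q hq'.2)).mp hrq).symm
    · intro h4
      rw [h4, one_pow]
  refine ⟨Ψ, fun q hq => ?_⟩
  have h3 : T.filter (fun i => orderOf (β i) = q ∧ Ψ (β i) = 1)
      = (T.filter (fun i => orderOf (β i) = q)).filter (fun i => ψ q (β i) = 1) := by
    ext i
    rw [Finset.mem_filter, Finset.mem_filter, Finset.mem_filter]
    constructor
    · rintro ⟨hi, rfl, h4⟩
      exact ⟨⟨hi, rfl⟩, (key i hi).mp h4⟩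
    · rintro ⟨⟨hi, rfl⟩, h4⟩
      exact ⟨hi, rfl, (key i hi).mpr h4⟩
  rw [h3]
  exact hψ q hq

end avg

/-- the numerical inequality -/
lemma five_real (Q : Finset ℕ) (hQ : ∀ q ∈ Q, q.Prime) {r : ℕ} (hr : r ∈ Q) (W M S : ℕ → ℝ)
    {m : ℝ} (hm : 0 < m) (hW : ∀ q ∈ Q, q * M q + m ≤ W q) (hM0 : ∀ q ∈ Q, 0 ≤ M q)
    (hM : ∀ q ∈ Q, M q ≤ M r) (hS : ∀ q ∈ Q.erase r, S q ≤ M q) :
    Q.erase r = ∅ ∨ 5 * ∑ q ∈ Q.erase r, S q + 2 * m ≤ ∑ q ∈ Q, W q := by
  classical
  rcases (Q.erase r).eq_empty_or_nonempty with he | hne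
  · left; exact he
  right
  let c : ℕ → ℕ := fun q => if q = 2 then 3 else if q = 3 then 2 else 0
  have hc : ∀ q ∈ Q, 5 ≤ q + c q := by
    intro q hq
    have hq' := hQ q hq
    by_cases h2 : q = 2
    · subst h2; simp [c]
    by_cases h3 : q = 3
    · subst h3; simp [c]
    have h4 := hq'.two_le
    have h5 : q ≠ 4 := by
      rintro rfl
      exact absurd hq' (by norm_num)
    omega
  have hcr : ∑ q ∈ Q.erase r, c q ≤ r := by
    have h1 : ∑ q ∈ Q.erase r, c q ≤ ∑ q ∈ ({2, 3} : Finset ℕ).erase r, c q := by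
      have h2 : ∑ q ∈ Q.erase r, c q = ∑ q ∈ (Q.erase r).filter (fun q => q = 2 ∨ q = 3), c q := by
        rw [Finset.sum_filter]
        refine Finset.sum_congr rfl fun q _ => ?_
        by_cases h3 : q = 2 ∨ q = 3
        · rw [if_pos h3]
        · rw [if_neg h3]
          push Not at h3
          simp [c, h3.1, h3.2]
      rw [h2]
      apply Finset.sum_le_sum_of_subset
      intro q hq
      obtain ⟨hq1, hq2⟩ := Finset.mem_filter.mp hq
      rw [Finset.mem_erase]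
      exact ⟨(Finset.mem_erase.mp hq1).1, by simpa using hq2⟩
    refine h1.trans ?_
    by_cases h2 : r = 2
    · subst h2; decide
    by_cases h3 : r = 3
    · subst h3; decide
    have h4 : ({2, 3} : Finset ℕ).erase r = {2, 3} := by
      apply Finset.erase_eq_of_notMem
      simp [h2, h3]
    rw [h4]
    have h5 := (hQ r hr).two_le
    have h6 : r ≠ 4 := by
      rintro rfl
      exact absurd (hQ 4 hr) (by norm_num)
    have h7 : ∑ q ∈ ({2, 3} : Finset ℕ), c q = 5 := by decide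
    rw [h7]
    omega
  have hcr' : (∑ q ∈ Q.erase r, (c q : ℝ)) ≤ r := by exact_mod_cast hcr
  have h1 : 5 * ∑ q ∈ Q.erase r, S q ≤ ∑ q ∈ Q.erase r, (q : ℝ) * M q + r * M r := by
    calc 5 * ∑ q ∈ Q.erase r, S q = ∑ q ∈ Q.erase r, 5 * S q := Finset.mul_sum _ _ _
      _ ≤ ∑ q ∈ Q.erase r, ((q : ℝ) * M q + c q * M r) := by
          refine Finset.sum_le_sum fun q hq => ?_
          have h2 : (5 : ℝ) ≤ q + c q := by exact_mod_cast hc q (Finset.mem_of_mem_erase hq)
          have h3 := hM q (Finset.mem_of_mem_erase hq)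
          have h4 := hS q hq
          have h5 := hM0 q (Finset.mem_of_mem_erase hq)
          have h6 : (0 : ℝ) ≤ c q := Nat.cast_nonneg _
          nlinarith
      _ = ∑ q ∈ Q.erase r, (q : ℝ) * M q + (∑ q ∈ Q.erase r, (c q : ℝ)) * M r := by
          rw [Finset.sum_add_distrib, Finset.sum_mul]
      _ ≤ _ := by
          have h5 := hM0 r hr
          have h6 := mul_le_mul_of_nonneg_right hcr' h5
          linarith
  have h2 : ∑ q ∈ Q.erase r, (q : ℝ) * M q + (Q.erase r).card * m ≤ ∑ q ∈ Q.erase r, W q := by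
    rw [← nsmul_eq_mul, ← Finset.sum_const, ← Finset.sum_add_distrib]
    exact Finset.sum_le_sum fun q hq => hW q (Finset.mem_of_mem_erase hq)
  have h3 := hW r hr
  have h4 := Finset.add_sum_erase Q W hr
  have h5 : (1 : ℝ) ≤ (Q.erase r).card := by exact_mod_cast hne.card_pos
  nlinarith

/-- characters missing few elements, real weights -/
theorem per_real {Γ : Type*} [CommGroup Γ] [Finite Γ] {ι : Type*} {I : Finset ι} {β : ι → Γ}
    (hβ : ∀ i ∈ I, (orderOf (β i)).Prime) (w : ι → ℝ) {μ : ℝ} (hμ : 0 < μ)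
    (hw : ∀ i ∈ I, μ ≤ w i) :
    ∃ ℓ : ℕ, ∃ _ : Fact ℓ.Prime, ∃ (ψ : Γ →* (AlgebraicClosure (ZMod ℓ))ˣ) (E : Finset ι), E ⊆ I ∧
      (∀ i ∈ I, i ∉ E → ψ (β i) ≠ 1 ∨ ℓ ∣ orderOf (β i)) ∧
      (E = ∅ ∨ 5 * ∑ i ∈ E, w i + 2 * μ ≤ ∑ i ∈ I, w i) := by
  classical
  rcases I.eq_empty_or_nonempty with he | hne
  · subst he
    exact ⟨2, ⟨Nat.prime_two⟩, 1, ∅, Finset.Subset.refl _, by simp, Or.inl rfl⟩
  set Q : Finset ℕ := I.image (fun i => orderOf (β i)) with hQdef
  have hQ : ∀ q ∈ Q, q.Prime := by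
    intro q hq
    obtain ⟨t, ht, rfl⟩ := Finset.mem_image.mp hq
    exact hβ t ht
  let W : ℕ → ℝ := fun q => ∑ i ∈ I.filter (fun i => orderOf (β i) = q), w i
  let M : ℕ → ℝ := fun q => (W q - μ) / q
  have hqpos : ∀ q ∈ Q, (0 : ℝ) < q := fun q hq => by exact_mod_cast (hQ q hq).pos
  have hWp : ∀ q ∈ Q, μ ≤ W q := by
    intro q hq
    obtain ⟨t, ht, rfl⟩ := Finset.mem_image.mp hq
    have h1 : t ∈ I.filter (fun i => orderOf (β i) = orderOf (β t)) :=
      Finset.mem_filter.mpr ⟨ht, rfl⟩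
    refine (hw t ht).trans (Finset.single_le_sum (f := w) (fun i hi => ?_) h1)
    exact hμ.le.trans (hw i (Finset.mem_filter.mp hi).1)
  have hWM : ∀ q ∈ Q, q * M q + μ ≤ W q := by
    intro q hq
    have h1 := hqpos q hq
    change (q : ℝ) * ((W q - μ) / q) + μ ≤ W q
    rw [mul_div_cancel₀ _ h1.ne']
    linarith
  have hM0 : ∀ q ∈ Q, 0 ≤ M q := by
    intro q hq
    exact div_nonneg (by have := hWp q hq; linarith) (hqpos q hq).le
  obtain ⟨ℓ, hℓQ, hmax⟩ := Finset.exists_max_image Q M (hne.image _)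
  have hℓ : ℓ.Prime := hQ ℓ hℓQ
  have hℓF : Fact ℓ.Prime := ⟨hℓ⟩
  -- the part of order prime to `ℓ`
  obtain ⟨a, m, hm, ham⟩ := Nat.exists_eq_pow_mul_and_not_dvd (Nat.card_pos (α := Γ)).ne' ℓ
    hℓ.ne_one
  let π : Γ →* Γ := powMonoidHom (ℓ ^ a)
  let P : Subgroup Γ := π.range
  have hPm : ∀ x : P, x ^ m = 1 := by
    rintro ⟨x, y, rfl⟩
    apply Subtype.ext
    change (y ^ (ℓ ^ a)) ^ m = 1
    rw [← pow_mul, ← ham, pow_card_eq_one']
  have hexp : Monoid.exponent P ∣ m := Monoid.exponent_dvd_of_forall_pow_eq_one hPm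
  have hne' : NeZero ((Monoid.exponent P : ℕ) : AlgebraicClosure (ZMod ℓ)) := by
    refine ⟨fun h => hm ?_⟩
    exact ((CharP.cast_eq_zero_iff (AlgebraicClosure (ZMod ℓ)) ℓ _).mp h).trans hexp
  have hsep : ∀ x : P, x ≠ 1 → ∃ φ : P →* (AlgebraicClosure (ZMod ℓ))ˣ, φ x ≠ 1 := by
    intro x hx
    exact CommGroup.exists_apply_ne_one_of_hasEnoughRootsOfUnity P _ hx
  have hfin : Finite (P →* (AlgebraicClosure (ZMod ℓ))ˣ) := Finite.of_equiv P
    (CommGroup.monoidHom_mulEquiv_of_hasEnoughRootsOfUnity P (AlgebraicClosure (ZMod ℓ))).some.symm.toEquiv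
  let J := I.filter (fun i => orderOf (β i) ≠ ℓ)
  have hord : ∀ i ∈ J, orderOf (π.rangeRestrict (β i)) = orderOf (β i) := by
    intro i hi
    obtain ⟨hi, hil⟩ := Finset.mem_filter.mp hi
    have h1 : orderOf (π.rangeRestrict (β i)) ∣ orderOf (β i) := orderOf_map_dvd _ _
    rcases (Nat.dvd_prime (hβ i hi)).mp h1 with h2 | h2
    · exfalso
      have h3 : π.rangeRestrict (β i) = 1 := orderOf_eq_one_iff.mp h2
      have h4 : β i ^ (ℓ ^ a) = 1 := congrArg Subtype.val h3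
      have h5 : orderOf (β i) ∣ ℓ ^ a := orderOf_dvd_of_pow_eq_one h4
      exact hil ((Nat.prime_dvd_prime_iff_eq (hβ i hi) hℓ).mp ((hβ i hi).dvd_of_dvd_pow h5))
    · exact h2
  obtain ⟨ψ, hψ⟩ := miss_real hsep J (fun i => π.rangeRestrict (β i)) (by
    intro i hi
    rw [hord i hi]
    exact hβ i (Finset.mem_filter.mp hi).1) w hμ (fun i hi => hw i (Finset.mem_filter.mp hi).1)
  let E : Finset ι := J.filter (fun i => ψ (π.rangeRestrict (β i)) = 1)
  let S : ℕ → ℝ := fun q => ∑ i ∈ E.filter (fun i => orderOf (β i) = q), w i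
  have hJq : ∀ q, q ≠ ℓ → J.filter (fun i => orderOf (π.rangeRestrict (β i)) = q)
      = I.filter (fun i => orderOf (β i) = q) := by
    intro q hq
    ext i
    constructor
    · intro h0
      obtain ⟨hi, h1⟩ := Finset.mem_filter.mp h0
      rw [hord i hi] at h1
      exact Finset.mem_filter.mpr ⟨(Finset.mem_filter.mp hi).1, h1⟩
    · intro h0
      obtain ⟨hi, h1⟩ := Finset.mem_filter.mp h0
      have h2 : i ∈ J := Finset.mem_filter.mpr ⟨hi, by rw [h1]; exact hq⟩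
      exact Finset.mem_filter.mpr ⟨h2, by rw [hord i h2]; exact h1⟩
  have hS : ∀ q ∈ Q.erase ℓ, S q ≤ M q := by
    intro q hq
    obtain ⟨hqℓ, hqQ⟩ := Finset.mem_erase.mp hq
    obtain ⟨t, ht, htq⟩ := Finset.mem_image.mp hqQ
    have htJ : t ∈ J := Finset.mem_filter.mpr ⟨ht, by rw [htq]; exact hqℓ⟩
    have h1 := hψ q (Finset.mem_image.mpr ⟨t, htJ, by
      change orderOf (π.rangeRestrict (β t)) = q
      rw [hord t htJ]; exact htq⟩)
    rw [hJq q hqℓ] at h1
    have h2 : J.filter (fun i => orderOf (π.rangeRestrict (β i)) = q ∧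
        ψ (π.rangeRestrict (β i)) = 1) = E.filter (fun i => orderOf (β i) = q) := by
      ext i
      constructor
      · intro h0
        obtain ⟨hi, h3, h4⟩ := Finset.mem_filter.mp h0
        rw [hord i hi] at h3
        exact Finset.mem_filter.mpr ⟨Finset.mem_filter.mpr ⟨hi, h4⟩, h3⟩
      · intro h0
        obtain ⟨h5, h3⟩ := Finset.mem_filter.mp h0
        obtain ⟨hi, h4⟩ := Finset.mem_filter.mp h5
        exact Finset.mem_filter.mpr ⟨hi, by rw [hord i hi]; exact h3, h4⟩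
    rw [h2] at h1
    change S q ≤ (W q - μ) / q
    rw [le_div_iff₀ (hqpos q hqQ)]
    have h3 : q * S q + μ ≤ W q := h1
    linarith
  have hfive := five_real Q hQ hℓQ W M S hμ hWM hM0 hmax hS
  have hEsum : ∑ i ∈ E, w i = ∑ q ∈ Q.erase ℓ, S q := by
    rw [← Finset.sum_fiberwise_of_maps_to (s := E) (t := Q.erase ℓ) (g := fun i => orderOf (β i))]
    intro i hi
    obtain ⟨hi1, -⟩ := Finset.mem_filter.mp hi
    obtain ⟨hi2, hi3⟩ := Finset.mem_filter.mp hi1
    exact Finset.mem_erase.mpr ⟨hi3, Finset.mem_image.mpr ⟨i, hi2, rfl⟩⟩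
  have hIsum : ∑ i ∈ I, w i = ∑ q ∈ Q, W q := by
    rw [← Finset.sum_fiberwise_of_maps_to (s := I) (t := Q) (g := fun i => orderOf (β i))]
    intro i hi
    exact Finset.mem_image.mpr ⟨i, hi, rfl⟩
  refine ⟨ℓ, hℓF, ψ.comp π.rangeRestrict, E, ?_, ?_, ?_⟩
  · exact (Finset.filter_subset _ _).trans (Finset.filter_subset _ _)
  · intro i hi hiE
    by_cases hil : orderOf (β i) = ℓ
    · right; rw [hil]
    · left
      intro h1
      exact hiE (Finset.mem_filter.mpr ⟨Finset.mem_filter.mpr ⟨hi, hil⟩, h1⟩)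
  · rcases hfive with h1 | h1
    · left
      rw [Finset.eq_empty_iff_forall_notMem]
      intro i hi
      obtain ⟨hi1, -⟩ := Finset.mem_filter.mp hi
      obtain ⟨hi2, hi3⟩ := Finset.mem_filter.mp hi1
      have h2 : orderOf (β i) ∈ Q.erase ℓ :=
        Finset.mem_erase.mpr ⟨hi3, Finset.mem_image.mpr ⟨i, hi2, rfl⟩⟩
      rw [h1] at h2
      exact Finset.notMem_empty _ h2
    · right
      rw [hEsum, hIsum]
      exact h1

end Pool.Agent.Helper606_LC
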