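import Mathlib
import Pool.Agent.Helper606_LC.Comb4

/-!
# Characters of finite abelian groups missing few elements of order `q`
-/

set_option autoImplicit false
set_option linter.unusedSectionVars false

namespace Pool.Agent.Helper606_LC

section glue

variable {Γ : Type*} [CommGroup Γ]

/-- characters with prescribed behaviour on the elements of each prime order -/
lemma glue_char {F : Type*} [Field F] {ι : Type*} (T : Finset ι) (β : ι → Γ)
    (hT : ∀ i ∈ T, (orderOf (β i)).Prime) (ψ : ℕ → (Γ →* Fˣ)) :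
    ∃ Ψ : Γ →* Fˣ, ∀ i ∈ T, (Ψ (β i) = 1 ↔ ψ (orderOf (β i)) (β i) = 1) := by
  classical
  set Q : Finset ℕ := T.image (fun i => orderOf (β i)) with hQdef
  have hQ : ∀ q ∈ Q, q.Prime := by
    intro q hq
    obtain ⟨t, ht, rfl⟩ := Finset.mem_image.mp hq
    exact hT t ht
  refine ⟨∏ q ∈ Q, ψ q ^ (∏ r ∈ Q.erase q, r), fun i hi => ?_⟩
  set r := orderOf (β i) with hr
  have hrQ : r ∈ Q := Finset.mem_image.mpr ⟨i, hi, rfl⟩
  have hrp := hQ r hrQ
  have h2 : (∏ q ∈ Q, ψ q ^ (∏ r ∈ Q.erase q, r)) (β i) = ψ r (β i) ^ (∏ r ∈ Q.erase r, r) := by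
    rw [MonoidHom.finsetProd_apply, Finset.prod_eq_single r]
    · rfl
    · intro q hq hqr
      obtain ⟨m, hm⟩ : r ∣ ∏ r ∈ Q.erase q, r :=
        Finset.dvd_prod_of_mem _ (Finset.mem_erase.mpr ⟨hqr.symm, hrQ⟩)
      rw [MonoidHom.pow_apply, hm, pow_mul, ← map_pow, hr, pow_orderOf_eq_one, map_one, one_pow]
    · intro h
      exact absurd hrQ h
  rw [h2]
  constructor
  · intro h4
    have h5 : orderOf (ψ r (β i)) ∣ ∏ r ∈ Q.erase r, r := orderOf_dvd_of_pow_eq_one h4
    have h6 : orderOf (ψ r (β i)) ∣ r := by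
      rw [hr]; exact orderOf_map_dvd (ψ (orderOf (β i))) (β i)
    rcases (Nat.dvd_prime hrp).mp h6 with h7 | h7
    · exact orderOf_eq_one_iff.mp h7
    · exfalso
      rw [h7] at h5
      obtain ⟨q, hq, hrq⟩ := (Prime.dvd_finsetProd_iff hrp.prime _).mp h5
      have hq' := Finset.mem_erase.mp hq
      exact hq'.1 ((Nat.prime_dvd_prime_iff_eq hrp (hQ q hq'.2)).mp hrq).symm
  · intro h4
    rw [h4, one_pow]

end glue

section flag

variable {Γ : Type*} [CommGroup Γ] [Finite Γ] {ℓ : ℕ} [hℓF : Fact ℓ.Prime] {q : ℕ}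

/-- separation from a subgroup -/
lemma sep_sub (hq : q.Prime) (hℓq : ℓ ≠ q) (K : Subgroup Γ) {x : Γ} (hx : x ^ q = 1)
    (hxK : x ∉ K) : ∃ φ : Γ →* (AlgebraicClosure (ZMod ℓ))ˣ, φ x ≠ 1 ∧ ∀ y ∈ K, φ y = 1 := by
  have hne : (QuotientGroup.mk' K x) ≠ 1 := by
    intro h
    exact hxK ((QuotientGroup.eq_one_iff x).mp h)
  have hfq : Fact q.Prime := ⟨hq⟩
  have hord : orderOf (QuotientGroup.mk' K x) = q := by
    apply orderOf_eq_prime _ hne
    rw [← map_pow, hx, map_one]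
  obtain ⟨φ, hφ⟩ := sep_char (ℓ := ℓ) hne (by
    rw [hord]
    exact (Nat.coprime_primes hq hℓF.out).mpr hℓq.symm)
  refine ⟨φ.comp (QuotientGroup.mk' K), hφ, fun y hy => ?_⟩
  have h1 : QuotientGroup.mk' K y = 1 := (QuotientGroup.eq_one_iff y).mpr hy
  rw [MonoidHom.comp_apply, h1, map_one]

lemma pow_dvd_of_ne {W : Type*} [Group W] (hq : q.Prime) {y : W} (hy : y ^ q = 1) (hy1 : y ≠ 1)
    {n : ℤ} (hn : y ^ n = 1) : (q : ℤ) ∣ n := by
  have hfq : Fact q.Prime := ⟨hq⟩
  have h1 : orderOf y = q := orderOf_eq_prime hy hy1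
  rw [← h1]
  exact orderOf_dvd_iff_zpow_eq_one.mpr hn

/-- one step -/
lemma flag_step {ι : Type*} (hq : q.Prime) (hℓq : ℓ ≠ q) (K : Subgroup Γ) (T : Finset ι)
    (t : ι → Γ) (ht : ∀ i ∈ T, t i ^ q = 1) (ψ : Γ →* (AlgebraicClosure (ZMod ℓ))ˣ) {i₀ : ι}
    (hi₀ : i₀ ∈ T) (hiK : t i₀ ∉ K) [DecidableEq (AlgebraicClosure (ZMod ℓ))]
    [DecidablePred (fun i => t i ∈ K ⊔ Subgroup.zpowers (t i₀) ∧ t i ∉ K)] :
    ∃ ψ' : Γ →* (AlgebraicClosure (ZMod ℓ))ˣ, (∀ y ∈ K, ψ' y = ψ y) ∧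
      (q - 1) * ((T.filter (fun i => t i ∈ K ⊔ Subgroup.zpowers (t i₀) ∧ t i ∉ K)).filter
        (fun i => ψ' (t i) = 1)).card + 1
        ≤ (T.filter (fun i => t i ∈ K ⊔ Subgroup.zpowers (t i₀) ∧ t i ∉ K)).card := by
  classical
  obtain ⟨ω, hω, hωK⟩ := sep_sub (ℓ := ℓ) hq hℓq K (ht i₀ hi₀) hiK
  set T' := T.filter (fun i => t i ∈ K ⊔ Subgroup.zpowers (t i₀) ∧ t i ∉ K) with hT'
  have hfq : Fact q.Prime := ⟨hq⟩
  have h0 : i₀ ∈ T' := Finset.mem_filter.mpr
    ⟨hi₀, (le_sup_right : Subgroup.zpowers (t i₀) ≤ _) (Subgroup.mem_zpowers _), hiK⟩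
  have h1 : ∀ i ∈ T', ω (t i) ≠ 1 := by
    intro i hi hcon
    obtain ⟨hiT, hi1, hi2⟩ := Finset.mem_filter.mp hi
    obtain ⟨k, hk, y, ⟨n, hn⟩, hky⟩ := Subgroup.mem_sup.mp hi1
    have hn' : t i₀ ^ n = y := hn
    rw [← hky, map_mul, hωK k hk, one_mul, ← hn', map_zpow] at hcon
    have h2 : (q : ℤ) ∣ n := pow_dvd_of_ne hq (by rw [← map_pow, ht i₀ hi₀, map_one]) hω hcon
    obtain ⟨m, rfl⟩ := h2
    rw [zpow_mul, zpow_natCast, ht i₀ hi₀, one_zpow] at hn'
    apply hi2
    rw [← hky, ← hn', mul_one]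
    exact hk
  -- the bad exponents
  have h2 : ∀ i ∈ T', ∀ j < q, ∀ j' < q, ψ (t i) * ω (t i) ^ j = 1 → ψ (t i) * ω (t i) ^ j' = 1 →
      j = j' := by
    intro i hi j hj j' hj' hjj hjj'
    have h3 : ω (t i) ^ j = ω (t i) ^ j' := mul_left_cancel (hjj.trans hjj'.symm)
    have h4 : orderOf (ω (t i)) = q := by
      apply orderOf_eq_prime _ (h1 i hi)
      rw [← map_pow, ht i (Finset.mem_filter.mp hi).1, map_one]
    have h5 := pow_injOn_Iio_orderOf (x := ω (t i))
    rw [h4] at h5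
    exact h5 hj hj' h3
  let bad : ℕ → Finset ι := fun j => T'.filter fun i => ψ (t i) * ω (t i) ^ j = 1
  let J := (Finset.range q).filter fun j => ψ (t i₀) * ω (t i₀) ^ j ≠ 1
  have hJ : q ≤ J.card + 1 := by
    have h3 : Finset.range q ⊆ J ∪ (Finset.range q).filter
        (fun j => ψ (t i₀) * ω (t i₀) ^ j = 1) := by
      intro j hj
      by_cases h : ψ (t i₀) * ω (t i₀) ^ j = 1
      · exact Finset.mem_union_right _ (Finset.mem_filter.mpr ⟨hj, h⟩)
      · exact Finset.mem_union_left _ (Finset.mem_filter.mpr ⟨hj, h⟩)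
    have h4 : ((Finset.range q).filter (fun j => ψ (t i₀) * ω (t i₀) ^ j = 1)).card ≤ 1 := by
      rw [Finset.card_le_one]
      intro a ha b hb
      obtain ⟨ha1, ha2⟩ := Finset.mem_filter.mp ha
      obtain ⟨hb1, hb2⟩ := Finset.mem_filter.mp hb
      exact h2 i₀ h0 a (Finset.mem_range.mp ha1) b (Finset.mem_range.mp hb1) ha2 hb2
    have h5 := (Finset.card_le_card h3).trans (Finset.card_union_le _ _)
    rw [Finset.card_range] at h5
    omega
  have hsum : ∑ j ∈ J, (bad j).card + 1 ≤ T'.card := by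
    have h3 : ∑ j ∈ J, (bad j).card = ∑ i ∈ T', (J.filter (fun j => ψ (t i) * ω (t i) ^ j = 1)).card := by
      simp only [bad, Finset.card_filter]
      rw [Finset.sum_comm]
    rw [h3, ← Finset.add_sum_erase _ _ h0]
    have h4 : (J.filter (fun j => ψ (t i₀) * ω (t i₀) ^ j = 1)).card = 0 := by
      rw [Finset.card_eq_zero, Finset.filter_eq_empty_iff]
      intro j hj
      exact (Finset.mem_filter.mp hj).2
    have h5 : ∑ i ∈ T'.erase i₀, (J.filter (fun j => ψ (t i) * ω (t i) ^ j = 1)).card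
        ≤ ∑ i ∈ T'.erase i₀, 1 := by
      refine Finset.sum_le_sum fun i hi => ?_
      rw [Finset.card_le_one]
      intro a ha b hb
      obtain ⟨ha1, ha2⟩ := Finset.mem_filter.mp ha
      obtain ⟨hb1, hb2⟩ := Finset.mem_filter.mp hb
      exact h2 i (Finset.mem_of_mem_erase hi) a
        (Finset.mem_range.mp (Finset.mem_filter.mp ha1).1) b
        (Finset.mem_range.mp (Finset.mem_filter.mp hb1).1) ha2 hb2
    rw [Finset.sum_const, smul_eq_mul, mul_one, Finset.card_erase_of_mem h0] at h5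
    have h6 : 0 < T'.card := Finset.card_pos.mpr ⟨i₀, h0⟩
    omega
  have hJne : J.Nonempty := by
    rw [← Finset.card_pos]
    have := hq.two_le
    omega
  obtain ⟨j, hj, hmin⟩ := Finset.exists_min_image J (fun j => (bad j).card) hJne
  refine ⟨ψ * ω ^ j, fun y hy => ?_, ?_⟩
  · rw [MonoidHom.mul_apply, MonoidHom.pow_apply, hωK y hy, one_pow, mul_one]
  · have h3 : T'.filter (fun i => (ψ * ω ^ j) (t i) = 1) = bad j := by
      apply Finset.filter_congr
      intro i _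
      rw [MonoidHom.mul_apply, MonoidHom.pow_apply]
    rw [h3]
    have h4 : J.card * (bad j).card ≤ ∑ j ∈ J, (bad j).card := by
      have := Finset.card_nsmul_le_sum J (fun j => (bad j).card) (bad j).card hmin
      simpa using this
    have h5 : (q - 1) * (bad j).card ≤ J.card * (bad j).card := Nat.mul_le_mul_right _ (by omega)
    omega

/-- a character missing few of the elements outside a basis -/
lemma flag_all {ι : Type*} (hq : q.Prime) (hℓq : ℓ ≠ q) (z : Γ) (T : Finset ι) (t : ι → Γ)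
    (ht : ∀ i ∈ T, t i ^ q = 1) [DecidableEq (AlgebraicClosure (ZMod ℓ))] [DecidableEq ι] (n : ℕ) :
    ∀ (B₀ : Finset ι) (ψ : Γ →* (AlgebraicClosure (ZMod ℓ))ˣ) (K : Subgroup Γ)
      [DecidablePred (fun i => t i ∈ K)],
      K = Subgroup.closure (insert z (t '' (B₀ : Set ι))) → B₀ ⊆ T →
      (T.filter (fun i => ¬ t i ∈ K)).card = n → (z ≠ 1 → ψ z ≠ 1) →
      (q - 1) * ((T.filter (fun i => t i ∈ K)).filter (fun i => ψ (t i) = 1)).card + B₀.card
        ≤ (T.filter (fun i => t i ∈ K)).card →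
    ∃ (B₁ : Finset ι) (ψ₁ : Γ →* (AlgebraicClosure (ZMod ℓ))ˣ), B₁ ⊆ T ∧ (z ≠ 1 → ψ₁ z ≠ 1) ∧
      (∀ i ∈ T, t i ∈ Subgroup.closure (insert z (t '' (B₁ : Set ι)))) ∧
      (q - 1) * (T.filter (fun i => ψ₁ (t i) = 1)).card + B₁.card ≤ T.card := by
  classical
  induction n using Nat.strong_induction_on with
  | _ n ih =>
    intro B₀ ψ K _ hK hB₀ hn hz hineq
    rcases (T.filter (fun i => ¬ t i ∈ K)).eq_empty_or_nonempty with he | ⟨i₀, hi₀⟩
    · have hall : ∀ i ∈ T, t i ∈ K := by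
        intro i hi
        by_contra h
        have h1 := Finset.filter_eq_empty_iff.mp he hi
        exact h1 h
      have h1 : T.filter (fun i => t i ∈ K) = T := Finset.filter_true_of_mem hall
      rw [h1] at hineq
      refine ⟨B₀, ψ, hB₀, hz, fun i hi => ?_, hineq⟩
      rw [← hK]
      exact hall i hi
    · obtain ⟨hi₀T, hi₀K⟩ := Finset.mem_filter.mp hi₀
      obtain ⟨ψ', hψK, hψ'⟩ := flag_step hq hℓq K T t ht ψ hi₀T hi₀K
      set K' : Subgroup Γ := K ⊔ Subgroup.zpowers (t i₀) with hK'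
      have hKK' : K ≤ K' := le_sup_left
      have hiK' : t i₀ ∈ K' := (le_sup_right : Subgroup.zpowers (t i₀) ≤ K')
        (Subgroup.mem_zpowers _)
      have hzK : z ∈ K := by
        rw [hK]
        exact Subgroup.subset_closure (Set.mem_insert _ _)
      refine ih _ ?_ (insert i₀ B₀) ψ' K' ?_ ?_ rfl ?_ ?_
      · rw [← hn]
        apply Finset.card_lt_card
        rw [Finset.ssubset_iff_of_subset]
        · exact ⟨i₀, hi₀, fun h => (Finset.mem_filter.mp h).2 hiK'⟩
        · intro i hi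
          obtain ⟨h1, h2⟩ := Finset.mem_filter.mp hi
          exact Finset.mem_filter.mpr ⟨h1, fun h3 => h2 (hKK' h3)⟩
      · rw [hK', Finset.coe_insert, Set.image_insert_eq, Set.insert_comm, Set.insert_eq (t i₀),
          Subgroup.closure_union, ← Subgroup.zpowers_eq_closure, sup_comm, ← hK]
      · intro i hi
        rcases Finset.mem_insert.mp hi with rfl | h
        · exact hi₀T
        · exact hB₀ h
      · intro h
        rw [hψK z hzK]
        exact hz h
      · set T' := T.filter (fun i => t i ∈ K' ∧ t i ∉ K) with hT'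
        have h1 : ((T.filter (fun i => t i ∈ K')).filter (fun i => ψ' (t i) = 1)).card
            ≤ ((T.filter (fun i => t i ∈ K)).filter (fun i => ψ (t i) = 1)).card
              + (T'.filter (fun i => ψ' (t i) = 1)).card := by
          refine (Finset.card_le_card ?_).trans (Finset.card_union_le _ _)
          intro i hi
          obtain ⟨h2, h3⟩ := Finset.mem_filter.mp hi
          obtain ⟨h4, h5⟩ := Finset.mem_filter.mp h2
          by_cases h6 : t i ∈ K
          · apply Finset.mem_union_left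
            exact Finset.mem_filter.mpr ⟨Finset.mem_filter.mpr ⟨h4, h6⟩, by rw [← hψK _ h6]; exact h3⟩
          · apply Finset.mem_union_right
            exact Finset.mem_filter.mpr ⟨Finset.mem_filter.mpr ⟨h4, h5, h6⟩, h3⟩
        have h2 : (T.filter (fun i => t i ∈ K)).card + T'.card
            ≤ (T.filter (fun i => t i ∈ K')).card := by
          rw [← Finset.card_union_of_disjoint]
          · apply Finset.card_le_card
            intro i hi
            rcases Finset.mem_union.mp hi with h | h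
            · obtain ⟨h3, h4⟩ := Finset.mem_filter.mp h
              exact Finset.mem_filter.mpr ⟨h3, hKK' h4⟩
            · obtain ⟨h3, h4, -⟩ := Finset.mem_filter.mp h
              exact Finset.mem_filter.mpr ⟨h3, h4⟩
          · rw [Finset.disjoint_left]
            intro i hi hi'
            exact (Finset.mem_filter.mp hi').2.2 (Finset.mem_filter.mp hi).2
        have h3 := Finset.card_insert_le i₀ B₀
        have h4 := Nat.mul_le_mul_left (q - 1) h1
        rw [mul_add] at h4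
        omega

/-- a character missing few elements of order `q` -/
lemma greedy_pr {ι : Type*} (hq : q.Prime) (hℓq : ℓ ≠ q) (z : Γ) (hz : z ^ q = 1) (T : Finset ι)
    (t : ι → Γ) (ht : ∀ i ∈ T, t i ^ q = 1) (ht1 : ∀ i ∈ T, t i ≠ 1)
    [DecidableEq (AlgebraicClosure (ZMod ℓ))] :
    ∃ (B₁ : Finset ι) (ψ₁ : Γ →* (AlgebraicClosure (ZMod ℓ))ˣ), B₁ ⊆ T ∧ (z ≠ 1 → ψ₁ z ≠ 1) ∧
      (∀ i ∈ T, t i ∈ Subgroup.closure (insert z (t '' (B₁ : Set ι)))) ∧
      (q - 1) * (T.filter (fun i => ψ₁ (t i) = 1)).card + B₁.card ≤ T.card := by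
  classical
  obtain ⟨ψ, hψ⟩ : ∃ ψ : Γ →* (AlgebraicClosure (ZMod ℓ))ˣ, z ≠ 1 → ψ z ≠ 1 := by
    by_cases hz1 : z = 1
    · exact ⟨1, fun h => absurd hz1 h⟩
    · obtain ⟨ψ, h1, -⟩ := sep_sub (ℓ := ℓ) hq hℓq ⊥ hz (by rw [Subgroup.mem_bot]; exact hz1)
      exact ⟨ψ, fun _ => h1⟩
  refine flag_all hq hℓq z T t ht _ ∅ ψ (Subgroup.closure (insert z (t '' ((∅ : Finset ι) : Set ι))))
    rfl (Finset.empty_subset _) rfl hψ ?_
  have h1 : ((T.filter (fun i => t i ∈ Subgroup.closure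
      (insert z (t '' ((∅ : Finset ι) : Set ι))))).filter (fun i => ψ (t i) = 1)) = ∅ := by
    rw [Finset.filter_eq_empty_iff]
    intro i hi hcon
    obtain ⟨h2, h3⟩ := Finset.mem_filter.mp hi
    rw [Finset.coe_empty, Set.image_empty, insert_empty_eq, ← Subgroup.zpowers_eq_closure] at h3
    obtain ⟨n, hn⟩ := h3
    have hn' : z ^ n = t i := hn
    apply ht1 i h2
    by_cases hz1 : z = 1
    · rw [← hn', hz1, one_zpow]
    · rw [← hn', map_zpow] at hcon
      obtain ⟨m, rfl⟩ := pow_dvd_of_ne hq (by rw [← map_pow, hz, map_one]) (hψ hz1) hcon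
      rw [← hn', zpow_mul, zpow_natCast, hz, one_zpow]
  rw [h1]
  simp

end flag

end Pool.Agent.Helper606_LC
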