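import Mathlib
import Pool.Agent.Helper606_LC.HypC
import Pool.Agent.Helper606_LC.Neg
import Pool.Agent.Helper606_LC.Six
import Pool.Agent.Helper606_LC.Ch2

/-!
# Galois orbits of eigenvalues
-/

set_option autoImplicit false
set_option linter.unusedSectionVars false

namespace Pool.Agent.Helper606_LC

open Pool.Agent.H541R3.ART Pool.Agent.W446.AS Pool.Agent.R389 Pool.Agent.H302R3

section ker

variable {N e : ℕ}

lemma mem_kr (hN : 0 < N) (he : e ∣ N) {u : (ZMod N)ˣ} :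
    u ∈ (ZMod.unitsMap he).ker ↔ (u : ZMod N).val ≡ 1 [MOD e] := by
  have hN' : NeZero N := ⟨hN.ne'⟩
  have hval : ((ZMod.unitsMap he u : (ZMod e)ˣ) : ZMod e) = ((u : ZMod N).val : ZMod e) := by
    rw [ZMod.unitsMap_val, ZMod.cast_eq_val]
  rw [MonoidHom.mem_ker, ← ZMod.natCast_eq_natCast_iff, Nat.cast_one, ← hval]
  constructor
  · intro h; rw [h, Units.val_one]
  · intro h; exact Units.ext h

lemma exists_root {e : ℕ} (he : 0 < e) : ∃ z : ℂ, orderOf z = e := by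
  refine ⟨Complex.exp (2 * Real.pi * Complex.I / e), ?_⟩
  exact (Complex.isPrimitiveRoot_exp e he.ne').eq_orderOf.symm

lemma root_pow {e : ℕ} (he : e ∣ N) {z : ℂ} (hz : orderOf z = e) : z ^ N = 1 :=
  orderOf_dvd_iff_pow_eq_one.mp (by rw [hz]; exact he)

/-- the action on a root of unity -/
lemma kr_iff (hN : 0 < N) (he : e ∣ N) {u : (ZMod N)ˣ} {z : ℂ} (hz : orderOf z = e) :
    u ∈ (ZMod.unitsMap he).ker ↔ z ^ (u : ZMod N).val = z := by
  rw [mem_kr hN he]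
  have h1 : z ^ (u : ZMod N).val = z ↔ z ^ (u : ZMod N).val = z ^ 1 := by rw [pow_one]
  have he0 : 0 < e := Nat.pos_of_dvd_of_pos he hN
  have hz0 : z ≠ 0 := by
    rintro rfl
    have h2 := pow_orderOf_eq_one (0 : ℂ)
    rw [hz, zero_pow he0.ne'] at h2
    exact zero_ne_one h2
  rw [h1]
  constructor
  · intro h
    apply pow_eq_of_modEq _ h
    rw [← hz, pow_orderOf_eq_one]
  · intro h
    have h3 : (Units.mk0 z hz0) ^ (u : ZMod N).val = (Units.mk0 z hz0) ^ 1 := Units.ext h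
    rw [pow_eq_pow_iff_modEq] at h3
    rwa [← orderOf_units, Units.val_mk0, hz] at h3

/-- roots of unity of order prime to `r` -/
lemma ug_le_kr (hN : 0 < N) (he : e ∣ N) {r : ℕ} (hr : ¬ r ∣ e) :
    UgS hN r ≤ (ZMod.unitsMap he).ker := by
  intro u hu
  obtain ⟨z, hz⟩ := exists_root (Nat.pos_of_dvd_of_pos he hN)
  rw [kr_iff hN he hz]
  exact hu z (root_pow he hz) (by rw [hz]; exact hr)

lemma kr_index (hN : 0 < N) (he : e ∣ N) : (ZMod.unitsMap he).ker.index = e.totient := by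
  have hN' : NeZero N := ⟨hN.ne'⟩
  have he' : NeZero e := ⟨(Nat.pos_of_dvd_of_pos he hN).ne'⟩
  rw [Subgroup.index_ker, MonoidHom.range_eq_top.mpr (ZMod.unitsMap_surjective he),
    Subgroup.card_top, Nat.card_eq_fintype_card, ZMod.card_units_eq_totient]

/-- pairwise coprime factors -/
lemma kr_prod (hN : 0 < N) {X : Finset ℕ} {a : ℕ → ℕ} (hX : ∀ p ∈ X, p.Prime)
    (he : ∏ p ∈ X, p ^ a p ∣ N) (hp : ∀ p ∈ X, p ^ a p ∣ N) {u : (ZMod N)ˣ}
    (h : ∀ (p : ℕ) (hpX : p ∈ X), u ∈ (ZMod.unitsMap (hp p hpX)).ker) :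
    u ∈ (ZMod.unitsMap he).ker := by
  rw [mem_kr hN he]
  have h1 : ∀ p ∈ X, (u : ZMod N).val ≡ 1 [MOD p ^ a p] := fun p hpX =>
    (mem_kr hN (hp p hpX)).mp (h p hpX)
  have h2 : ∀ p ∈ X, ((p ^ a p : ℕ) : ℤ) ∣ 1 - ((u : ZMod N).val : ℤ) := fun p hpX => by
    have h3 := (Nat.modEq_iff_dvd).mp (h1 p hpX)
    exact_mod_cast h3
  rw [Nat.modEq_iff_dvd]
  push_cast
  have h4 : ∏ p ∈ X, ((p : ℤ) ^ a p) ∣ 1 - ((u : ZMod N).val : ℤ) := by
    apply Finset.prod_dvd_of_coprime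
    · intro p hpX q hqX hpq
      have h5 : Nat.Coprime (p ^ a p) (q ^ a q) :=
        Nat.Coprime.pow _ _ ((Nat.coprime_primes (hX p hpX) (hX q hqX)).mpr hpq)
      have h6 := Nat.isCoprime_iff_coprime.mpr h5
      push_cast at h6
      exact h6
    · intro p hpX
      have h5 := h2 p hpX
      push_cast at h5
      exact h5
  exact h4

/-- the inertia groups generate -/
lemma exists_gsplit (hN : 0 < N) {X : Finset ℕ} {a : ℕ → ℕ} (hX : ∀ p ∈ X, p.Prime)
    (he : ∏ p ∈ X, p ^ a p ∣ N) (u : (ZMod N)ˣ) :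
    ∃ v ∈ X.sup (fun p => UgS hN p), v⁻¹ * u ∈ (ZMod.unitsMap he).ker := by
  classical
  have hex : ∀ p : ℕ, ∃ c : (ZMod N)ˣ →* (ZMod N)ˣ, p.Prime →
      (∀ k, ∀ {X : Type} [Monoid X] (g : X), g ^ N = 1 → IsPi (fun q => q ≠ p) (orderOf g) →
        g ^ (c k : ZMod N).val = g) ∧
      (∀ k, ∀ {X : Type} [Monoid X] (g : X), g ^ N = 1 → IsPi (fun q => q = p) (orderOf g) →
        g ^ (c k : ZMod N).val = g ^ (k : ZMod N).val) ∧
      (∀ a, 0 < a → ∀ w ∈ Ug N (p ^ a), c w = w) ∧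
      ∀ r, r.Prime → r ≠ p → ∀ b, 0 < b → ∀ w ∈ Ug N (r ^ b), c w = 1 := by
    intro p
    by_cases hp : p.Prime
    · obtain ⟨c, h⟩ := exists_comp_prime hN hp
      exact ⟨c, fun _ => h⟩
    · exact ⟨1, fun h => absurd h hp⟩
  choose c hc using hex
  have hcu : ∀ p ∈ X, c p u ∈ Ug N p := by
    intro p hp z hz hpz
    refine (hc p (hX p hp)).1 u z hz ?_
    intro q _ hqz hqp
    subst hqp
    exact hpz hqz
  refine ⟨∏ p ∈ X, c p u, ?_, ?_⟩
  · refine Subgroup.prod_mem _ fun p hp => ?_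
    exact (Finset.le_sup (f := fun p => UgS hN p) hp) (hcu p hp)
  · have hp : ∀ p ∈ X, p ^ a p ∣ N := fun p hp => (Finset.dvd_prod_of_mem _ hp).trans he
    refine kr_prod hN hX he hp fun p hpX => ?_
    have hcv : c p (∏ q ∈ X, c q u) = c p u := by
      rw [map_prod, Finset.prod_eq_single p]
      · exact (hc p (hX p hpX)).2.2.1 1 one_pos _ (by rw [pow_one]; exact hcu p hpX)
      · intro q hq hqp
        exact (hc p (hX p hpX)).2.2.2 q (hX q hq) hqp 1 one_pos _ (by rw [pow_one]; exact hcu q hq)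
      · intro h
        exact absurd hpX h
    obtain ⟨z, hz⟩ := exists_root (pow_pos (hX p hpX).pos (a p))
    rw [kr_iff hN (hp p hpX) hz]
    rw [← (hc p (hX p hpX)).2.1 _ z (root_pow (hp p hpX) hz) (by
      intro q hq hqz
      rw [hz] at hqz
      exact (Nat.prime_dvd_prime_iff_eq hq (hX p hpX)).mp (hq.dvd_of_dvd_pow hqz))]
    rw [map_mul, map_inv, hcv, inv_mul_cancel, pow_val_one hN (root_pow (hp p hpX) hz)]

end ker

section orb

variable {G : Type} [Group G] [Finite G] {N : ℕ} {V : Type} [AddCommGroup V] [Module ℂ V]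
  [FiniteDimensional ℂ V] {ρ : Representation ℂ G V}

/-- the number of conjugates of an eigenvalue over the field of values -/
lemma orbit_le (hN : 0 < N) (hG : Nat.card G ∣ N) {e : ℕ} (he : e ∣ N)
    (h : HasOrd ρ.character e) :
    (ZMod.unitsMap he).ker.relIndex (stb hN hG ρ.character) ≤ Module.finrank ℂ V := by
  classical
  obtain ⟨g₀, z₀, v, hv, hz₀, hd⟩ := (hasOrd_iff ρ e).mp h
  have hz₀1 : 0 < orderOf z₀ := by
    apply orderOf_pos_iff.mpr
    exact isOfFinOrder_iff_pow_eq_one.mpr ⟨orderOf g₀, orderOf_pos g₀, eig_fin hv hz₀⟩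
  obtain ⟨g, z, hz, hzo⟩ : ∃ (g : G) (z : ℂ), ρ g v = z • v ∧ orderOf z = e :=
    ⟨g₀ ^ (orderOf z₀ / e), z₀ ^ (orderOf z₀ / e), eig_pow hz₀ _,
      orderOf_pow_orderOf_div hz₀1.ne' hd⟩
  set S := stb hN hG ρ.character with hS
  set Z := (ZMod.unitsMap he).ker with hZ
  have hN' : NeZero N := ⟨hN.ne'⟩
  have : Finite (S ⧸ Z.subgroupOf S) := inferInstance
  have : Fintype (S ⧸ Z.subgroupOf S) := Fintype.ofFinite _
  have hex : ∀ s : S, ∃ w : V, w ≠ 0 ∧ ρ g w = z ^ ((s : (ZMod N)ˣ) : ZMod N).val • w :=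
    fun s => eig_twist hG hv hz s.2
  choose w hw hw1 using hex
  let μ : (S ⧸ Z.subgroupOf S) → ℂ := fun q => z ^ ((q.out : (ZMod N)ˣ) : ZMod N).val
  have hμ : Function.Injective μ := by
    intro q q' hqq
    rw [← QuotientGroup.out_eq' q, ← QuotientGroup.out_eq' q', QuotientGroup.eq,
      Subgroup.mem_subgroupOf]
    have hzN := root_pow he hzo
    have hzi : (z ^ (((q.out : (ZMod N)ˣ)) : ZMod N).val) ^
        (((q.out : (ZMod N)ˣ)⁻¹ : (ZMod N)ˣ) : ZMod N).val = z := by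
      rw [← pow_val_mul hN hzN, mul_inv_cancel, pow_val_one hN hzN]
    have h1 : z ^ ((((q.out : (ZMod N)ˣ))⁻¹ * (q'.out : (ZMod N)ˣ) : (ZMod N)ˣ) : ZMod N).val
        = z := by
      rw [mul_comm, pow_val_mul hN hzN]
      have h2 : z ^ ((q'.out : (ZMod N)ˣ) : ZMod N).val = z ^ ((q.out : (ZMod N)ˣ) : ZMod N).val :=
        hqq.symm
      rw [h2]
      exact hzi
    exact (kr_iff hN he hzo).mpr h1
  have hli := Module.End.eigenvectors_linearIndependent' (ρ g) μ hμ (fun q => w q.out) (by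
    intro q
    exact ⟨Module.End.mem_eigenspace_iff.mpr (hw1 q.out), hw q.out⟩)
  have h1 := hli.fintype_card_le_finrank
  rw [← Nat.card_eq_fintype_card] at h1
  exact h1

end orb

end Pool.Agent.Helper606_LC
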