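import Mathlib
import Pool.Agent.Helper606_LC.Dg1
import Pool.Agent.Helper606_LC.Ch5

/-!
# Characters of small degree
-/

set_option autoImplicit false
set_option linter.unusedSectionVars false

namespace Pool.Agent.Helper606_LC

open Pool.Agent.H541R3.ART Pool.Agent.W446.AS Pool.Agent.R389 Pool.Agent.H302R3

lemma totient_prod_pow {X : Finset ℕ} {a : ℕ → ℕ} (hX : ∀ p ∈ X, p.Prime) :
    (∏ p ∈ X, p ^ a p).totient = ∏ p ∈ X, (p ^ a p).totient := by
  classical
  induction X using Finset.induction_on with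
  | empty => simp
  | insert q X hq ih =>
    rw [Finset.prod_insert hq, Finset.prod_insert hq, Nat.totient_mul, ih]
    · exact fun p hp => hX p (Finset.mem_insert_of_mem hp)
    · apply Nat.Coprime.prod_right
      intro p hp
      apply Nat.Coprime.pow
      refine (Nat.coprime_primes (hX q (Finset.mem_insert_self q X))
        (hX p (Finset.mem_insert_of_mem hp))).mpr ?_
      rintro rfl
      exact hq hp

section deg

variable {G : Type} [Group G] [Finite G] {N : ℕ} {V : Type} [AddCommGroup V] [Module ℂ V]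
  [FiniteDimensional ℂ V] {ρ : Representation ℂ G V}

/-- the degree and the inertia groups -/
theorem deg_ineq (hN : 0 < N) (hG : Nat.card G ∣ N) {X : Finset ℕ} {a : ℕ → ℕ}
    (hX : ∀ p ∈ X, p.Prime) (he : ∏ p ∈ X, p ^ a p ∣ N)
    (hord : HasOrd ρ.character (∏ p ∈ X, p ^ a p)) {r : ℕ} (hr : r.Prime) (hrX : r ∉ X) :
    (∏ p ∈ X, (p ^ a p).totient) * Nat.card (Dg hN hG ρ.character r)
      ≤ Module.finrank ℂ V * Nat.card ↥((insert r X).sup fun p => Dg hN hG ρ.character p) := by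
  classical
  have hfin := gam_finite hN hG ρ.character
  set Z := (ZMod.unitsMap he).ker with hZ
  set S := stb hN hG ρ.character with hS
  set Θ := gmk hN hG ρ.character with hΘ
  set Z' := Z.map Θ with hZ'
  set II := (insert r X).sup fun p => Dg hN hG ρ.character p with hII
  have hker : Θ.ker = S := QuotientGroup.ker_mk' _
  have hran : Θ.range = ⊤ := MonoidHom.range_eq_top.mpr (gmk_surj hN hG ρ.character)
  have h1 : Z.index = ∏ p ∈ X, (p ^ a p).totient := by
    rw [hZ, kr_index hN he, totient_prod_pow hX]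
  have h2 : Z.relIndex (Z ⊔ S) * (Z ⊔ S).index = Z.index := Subgroup.relIndex_mul_index le_sup_left
  rw [Subgroup.relIndex_sup_left] at h2
  have h4 : Z'.index = (Z ⊔ S).index := by
    rw [hZ', Subgroup.index_map, hker, hran, Subgroup.index_top, mul_one]
  have h5 : II ⊔ Z' = ⊤ := by
    rw [eq_top_iff]
    intro γ _
    obtain ⟨u, rfl⟩ := gmk_surj hN hG ρ.character γ
    obtain ⟨v, hv, hvu⟩ := exists_gsplit hN hX he u
    have h6 : u = v * (v⁻¹ * u) := by rw [mul_inv_cancel_left]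
    rw [h6, map_mul]
    refine Subgroup.mul_mem_sup ?_ (Subgroup.mem_map_of_mem Θ hvu)
    have h7 : (X.sup fun p => UgS hN p).map Θ ≤ II := by
      rw [Finset.apply_sup_eq_sup_comp (fun H : Subgroup (ZMod N)ˣ => H.map Θ)
        (fun a b => Subgroup.map_sup a b _) (Subgroup.map_bot _)]
      exact Finset.sup_mono (Finset.subset_insert r X)
    exact h7 (Subgroup.mem_map_of_mem Θ hv)
  have h6 : Z'.relIndex II = Z'.index := by
    rw [← Subgroup.relIndex_sup_right, h5, Subgroup.relIndex_top_right]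
  have hre : ¬ r ∣ ∏ p ∈ X, p ^ a p := by
    intro h
    obtain ⟨p, hp, hrp⟩ := (Prime.dvd_finsetProd_iff hr.prime _).mp h
    have h7 := (Nat.prime_dvd_prime_iff_eq hr (hX p hp)).mp (hr.dvd_of_dvd_pow hrp)
    rw [h7] at hrX
    exact hrX hp
  have h7 : Dg hN hG ρ.character r ≤ Z' ⊓ II := by
    refine le_inf (Subgroup.map_mono (ug_le_kr hN he hre)) ?_
    exact Finset.le_sup (f := fun p => Dg hN hG ρ.character p) (Finset.mem_insert_self r X)
  have h8 : Nat.card (Dg hN hG ρ.character r) ≤ Nat.card ↥(Z' ⊓ II) :=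
    Nat.le_of_dvd Nat.card_pos (Subgroup.card_dvd_of_le h7)
  have h9 : Nat.card ↥(Z' ⊓ II) * Z'.relIndex II = Nat.card II := by
    have h10 := card_mul_relIdx (inf_le_right : Z' ⊓ II ≤ II)
    rwa [Subgroup.inf_relIndex_right] at h10
  rw [← h1, ← h2, ← h4, ← h6, ← h9]
  calc Z.relIndex S * Z'.relIndex II * Nat.card (Dg hN hG ρ.character r)
      ≤ Module.finrank ℂ V * Z'.relIndex II * Nat.card ↥(Z' ⊓ II) :=
        Nat.mul_le_mul (Nat.mul_le_mul_right _ (orbit_le hN hG he hord)) h8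
    _ = _ := by ring

/-- the orders of the inertia groups -/
lemma dg_dvd (hN : 0 < N) (hG : Nat.card G ∣ N) {χ : G → ℂ} (hχ : χ ∈ Irr G) {n : ℕ}
    (hn : 0 < n) (hnN : n ∣ N) (h : ∀ g, χ g ∈ Qc n) {p : ℕ} (hp : p.Prime) :
    Nat.card (Dg hN hG χ p) ∣ (p ^ n.factorization p).totient := by
  have hpn : p ^ n.factorization p ∣ n := Nat.ordProj_dvd n p
  have hpN : p ^ n.factorization p ∣ N := hpn.trans hnN
  have h1 : (ZMod.unitsMap hpN).ker ⊓ UgS hN p ≤ (gmk hN hG χ).ker := by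
    rintro u ⟨hu1, hu2⟩
    rw [MonoidHom.mem_ker, gmk_eq_one]
    refine pw_of_mem hN hG hχ h hnN fun z hz => ?_
    have hu1' := (mem_kr hN hpN).mp hu1
    have hn' : n / p ^ n.factorization p ∣ N := (Nat.div_dvd_of_dvd hpn).trans hnN
    have hu2' : (u : ZMod N).val ≡ 1 [MOD n / p ^ n.factorization p] :=
      (mem_kr hN hn').mp (ug_le_kr hN hn' (Nat.not_dvd_ordCompl hp hn.ne') hu2)
    have hcop : Nat.Coprime (p ^ n.factorization p) (n / p ^ n.factorization p) :=
      Nat.Coprime.pow_left _ (Nat.coprime_ordCompl hp hn.ne')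
    have h2 : (u : ZMod N).val ≡ 1 [MOD p ^ n.factorization p * (n / p ^ n.factorization p)] :=
      (Nat.modEq_and_modEq_iff_modEq_mul hcop).mp ⟨hu1', hu2'⟩
    rw [Nat.ordProj_mul_ordCompl_eq_self] at h2
    rw [pow_eq_of_modEq hz h2, pow_one]
  have h3 : Nat.card (Dg hN hG χ p) = (gmk hN hG χ).ker.relIndex (UgS hN p) := by
    rw [Dg, ← Subgroup.relIndex_ker]
  have h4 : (gmk hN hG χ).ker.relIndex (UgS hN p)
      ∣ (ZMod.unitsMap hpN).ker.relIndex (UgS hN p) := by
    have h5 := Subgroup.relIndex_dvd_of_le_left (UgS hN p) h1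
    rwa [Subgroup.inf_relIndex_right] at h5
  rw [h3]
  refine h4.trans ?_
  rw [Subgroup.relIndex_ker]
  have hN' : NeZero N := ⟨hN.ne'⟩
  have hp' : NeZero (p ^ n.factorization p) := ⟨(pow_pos hp.pos _).ne'⟩
  have h5 := Subgroup.card_subgroup_dvd_card ((UgS hN p).map (ZMod.unitsMap hpN))
  rwa [Nat.card_eq_fintype_card (α := (ZMod (p ^ n.factorization p))ˣ),
    ZMod.card_units_eq_totient] at h5

/-- the top inertia groups -/
lemma dg_pgroup (hN : 0 < N) (hG : Nat.card G ∣ N) {χ : G → ℂ} {p a : ℕ} (hp : p.Prime)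
    (ha : 2 ≤ a) : ∃ k, Nat.card (Dg hN hG χ (p ^ a)) = p ^ k := by
  have hfin := gam_finite hN hG χ
  apply eq_pow_of_unique Nat.card_pos.ne'
  intro q hq hqd
  have hqF : Fact q.Prime := ⟨hq⟩
  obtain ⟨x, hx⟩ := exists_prime_orderOf_dvd_card' q hqd
  obtain ⟨u, hu, hux⟩ := x.2
  have h1 : orderOf (gmk hN hG χ u) = q := by
    rw [hux, Subgroup.orderOf_coe, hx]
  have h2 := ug_order hN hp (by omega) (Or.inl ha) hu (gmk hN hG χ) (by rw [h1]; exact hq)
  rw [← h1, h2]

/-- **Characters of degree less than 8640.** -/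
theorem small_degree (hρ : ρ.character ∈ Irr G) {n : ℕ} (hn : 0 < n)
    (h : ∀ g, ρ.character g ∈ Qc n)
    (hmin : ∀ m : ℕ, 0 < m → (∀ g, ρ.character g ∈ Qc m) → n ≤ m)
    (hdeg : Module.finrank ℂ V < 8640) : HasOrd ρ.character n := by
  classical
  by_contra hcon
  have hN : 0 < Nat.card G * n := Nat.mul_pos Nat.card_pos hn
  set N := Nat.card G * n with hNdef
  have hG : Nat.card G ∣ N := dvd_mul_right _ _
  have hnN : n ∣ N := dvd_mul_left _ _
  set χ := ρ.character with hχ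
  have hfin := gam_finite hN hG χ
  set I := n.primeFactors with hI
  set a := n.factorization with ha
  have hpr : ∀ p ∈ I, p.Prime := fun p hp => Nat.prime_of_mem_primeFactors hp
  have hpos : ∀ p ∈ I, 0 < a p := fun p hp =>
    (hpr p hp).factorization_pos_of_dvd hn.ne' (Nat.dvd_of_mem_primeFactors hp)
  have hprod : ∏ p ∈ I, p ^ a p = n := Nat.prod_factorization_pow_eq_self hn.ne'
  let J : ℕ → Subgroup (Gam hN hG χ) := fun p => Dg hN hG χ (p ^ a p)
  let w : ℕ → ℕ := fun p => if a p = 1 then p - 1 else Nat.card (J p)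
  have hw1 : ∀ p, a p = 1 → w p = p - 1 := fun p hp => if_pos hp
  have hw2 : ∀ p, a p ≠ 1 → w p = Nat.card (J p) := fun p hp => if_neg hp
  have hJ1 : ∀ p, a p = 1 → J p = Dg hN hG χ p := by
    intro p hp
    change Dg hN hG χ (p ^ a p) = _
    rw [hp, pow_one]
  have hdvd : ∀ p ∈ I, Nat.card (Dg hN hG χ p) ∣ (p ^ a p).totient := fun p hp =>
    dg_dvd hN hG hρ hn hnN h (hpr p hp)
  have hJne : ∀ p ∈ I, J p ≠ ⊥ := by
    intro p hp hbot
    obtain ⟨u, hu, hu1⟩ := exists_mov hN hG hρ hn hnN h hmin (hpr p hp) (hpos p hp)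
      (Nat.ordProj_dvd n p)
    apply hu1
    have h1 : gmk hN hG χ u ∈ J p := ⟨u, hu, rfl⟩
    rw [hbot, Subgroup.mem_bot] at h1
    exact (gmk_eq_one hN hG χ).mp h1
  have hJI : ∀ p ∈ I, J p ≤ Dg hN hG χ p := by
    intro p hp
    refine Subgroup.map_mono ?_
    intro u hu z hz hpz
    exact hu z hz fun h1 => hpz ((dvd_pow_self p (hpos p hp).ne').trans h1)
  have hwφ : ∀ p ∈ I, w p * Nat.card (Dg hN hG χ p) ≤ (p ^ a p).totient * Nat.card (J p) := by
    intro p hp
    by_cases h1 : a p = 1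
    · rw [hw1 p h1, hJ1 p h1, h1, pow_one, Nat.totient_prime (hpr p hp)]
    · rw [hw2 p h1, mul_comm]
      refine Nat.mul_le_mul_right _ (Nat.le_of_dvd ?_ (hdvd p hp))
      exact Nat.totient_pos.mpr (pow_pos (hpr p hp).pos _)
  -- hitting
  have hit : ∀ (ℓ : ℕ) [Fact ℓ.Prime] (ψ : Gam hN hG χ →* (AlgebraicClosure (ZMod ℓ))ˣ)
      (X : Finset ℕ), X ⊆ I → (∀ p ∈ X, (∃ x ∈ J p, ψ x ≠ 1) ∨ ℓ ∣ Nat.card (J p)) →
      HasOrd χ (∏ p ∈ X, p ^ a p) := by
    intro ℓ hℓF ψ X hX hc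
    have h1 : ∀ p ∈ X, ∃ u ∈ Ug N (p ^ a p), ψ (gmk hN hG χ u) ≠ 1 ∨
        ℓ ∣ orderOf (gmk hN hG χ u) := by
      intro p hp
      rcases hc p hp with ⟨x, ⟨u, hu, rfl⟩, hx⟩ | hd
      · exact ⟨u, hu, Or.inl hx⟩
      · obtain ⟨x, hx⟩ := exists_prime_orderOf_dvd_card' ℓ hd
        obtain ⟨u, hu, hux⟩ := x.2
        refine ⟨u, hu, Or.inr ?_⟩
        rw [hux, Subgroup.orderOf_coe, hx]
    choose! v hv hv1 using h1
    have : CharP (AlgebraicClosure (ZMod ℓ)) ℓ := inferInstance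
    obtain ⟨K, μ, h2, h3⟩ := crit hN hG hℓF.out hρ (I := X) (m := fun p => p ^ a p)
      (β := fun p => gmk hN hG χ (v p)) (fun p hp => ⟨v p, hv p hp, rfl⟩) ψ hv1
    exact ⟨K, μ, h2, prod_dvd_of_forall (fun p hp => hpr p (hX hp)) h3⟩
  have hend : 8640 ≤ Module.finrank ℂ V := by
    refine comb_bound (I := I) (J := J) (w := w) hpr hJne ?_ ?_ ?_
    · intro p hp
      by_cases h1 : a p = 1
      · left
        refine ⟨?_, hw1 p h1⟩
        have h2 := hdvd p hp
        rwa [h1, pow_one, Nat.totient_prime (hpr p hp), ← hJ1 p h1] at h2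
      · right
        have h2 := hpos p hp
        exact ⟨dg_pgroup hN hG (hpr p hp) (by omega), hw2 p h1⟩
    · intro ℓ hℓF ψ X r hX hr hrX hc
      have hord := hit ℓ ψ X hX hc
      have hXN : ∏ p ∈ X, p ^ a p ∣ N := by
        refine Dvd.dvd.trans ?_ hnN
        rw [← hprod]
        exact Finset.prod_dvd_prod_of_subset _ _ _ hX
      have h1 := deg_ineq hN hG (fun p hp => hpr p (hX hp)) hXN hord (hpr r hr) hrX
      have hIX : ∀ p ∈ insert r X, p ∈ I := by
        intro p hp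
        rcases Finset.mem_insert.mp hp with rfl | hp
        · exact hr
        · exact hX hp
      have h2 := card_sup_family (I := insert r X) (A := J) (B := fun p => Dg hN hG χ p)
        (fun p hp => hJI p (hIX p hp))
      rw [Finset.prod_insert hrX, Finset.prod_insert hrX] at h2
      have h3 : (∏ p ∈ X, w p) * ∏ p ∈ X, Nat.card (Dg hN hG χ p)
          ≤ (∏ p ∈ X, (p ^ a p).totient) * ∏ p ∈ X, Nat.card (J p) := by
        rw [← Finset.prod_mul_distrib, ← Finset.prod_mul_distrib]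
        exact Finset.prod_le_prod' fun p hp => hwφ p (hX hp)
      have hpos' : 0 < Nat.card (Dg hN hG χ r) * ∏ p ∈ X, Nat.card (Dg hN hG χ p) :=
        Nat.mul_pos Nat.card_pos (Finset.prod_pos fun p _ => Nat.card_pos)
      refine Nat.le_of_mul_le_mul_right ?_ hpos'
      calc (∏ p ∈ X, w p) * Nat.card (J r) *
            (Nat.card (Dg hN hG χ r) * ∏ p ∈ X, Nat.card (Dg hN hG χ p))
          = ((∏ p ∈ X, w p) * ∏ p ∈ X, Nat.card (Dg hN hG χ p)) *
              (Nat.card (J r) * Nat.card (Dg hN hG χ r)) := by ring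
        _ ≤ ((∏ p ∈ X, (p ^ a p).totient) * ∏ p ∈ X, Nat.card (J p)) *
              (Nat.card (J r) * Nat.card (Dg hN hG χ r)) := Nat.mul_le_mul_right _ h3
        _ = ((∏ p ∈ X, (p ^ a p).totient) * Nat.card (Dg hN hG χ r)) *
              (Nat.card (J r) * ∏ p ∈ X, Nat.card (J p)) := by ring
        _ ≤ (Module.finrank ℂ V * Nat.card ↥((insert r X).sup fun p => Dg hN hG χ p)) *
              (Nat.card (J r) * ∏ p ∈ X, Nat.card (J p)) := Nat.mul_le_mul_right _ h1
        _ = Module.finrank ℂ V * (Nat.card ↥((insert r X).sup fun p => Dg hN hG χ p) *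
              (Nat.card (J r) * ∏ p ∈ X, Nat.card (J p))) := by ring
        _ ≤ Module.finrank ℂ V * (Nat.card ↥((insert r X).sup J) *
              (Nat.card (Dg hN hG χ r) * ∏ p ∈ X, Nat.card (Dg hN hG χ p))) :=
            Nat.mul_le_mul_left _ h2
        _ = _ := by ring
    · intro ℓ hℓF ψ
      by_contra hc
      push Not at hc
      apply hcon
      rw [← hprod]
      refine hit ℓ ψ I (Finset.Subset.refl I) fun p hp => ?_
      by_cases hd : ℓ ∣ Nat.card (J p)
      · exact Or.inr hd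
      · exact Or.inl (hc p hp hd)
  omega

end deg

end Pool.Agent.Helper606_LC
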