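import Mathlib
import Pool.Agent.Helper606_LC.Sub
import Pool.Agent.Helper606_LC.Dg1

/-!
# Degrees of subfields of cyclotomic fields
-/

set_option autoImplicit false
set_option linter.unusedSectionVars false

namespace Pool.Agent.Helper606_LC

open Pool.Agent.H541R3.ART Pool.Agent.W446.AS Pool.Agent.R389 Pool.Agent.H302R3

lemma qc_mono {m N : ℕ} (h : m ∣ N) : Qc m ≤ Qc N := by
  refine IntermediateField.adjoin.mono ℚ _ _ ?_
  intro z hz
  obtain ⟨c, rfl⟩ := h
  change z ^ (m * c) = 1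
  rw [pow_mul, show z ^ m = 1 from hz, one_pow]

lemma qc_finite {N : ℕ} (hN : 0 < N) : FiniteDimensional ℚ (Qc N) := by
  have hfin : Finite ({z : ℂ | z ^ N = 1} : Set ℂ) := by
    have h1 : ({z : ℂ | z ^ N = 1} : Set ℂ) ⊆ ((Polynomial.nthRoots N (1 : ℂ)).toFinset : Set ℂ) := by
      intro z hz
      rw [Finset.mem_coe, Multiset.mem_toFinset, Polynomial.mem_nthRoots hN]
      exact hz
    exact (Set.Finite.subset (Finset.finite_toSet _) h1).to_subtype
  refine IntermediateField.finiteDimensional_adjoin fun x hx => ?_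
  refine ⟨Polynomial.X ^ N - 1, Polynomial.monic_X_pow_sub_C (1 : ℚ) hN.ne', ?_⟩
  simp only [Polynomial.eval₂_sub, Polynomial.eval₂_pow, Polynomial.eval₂_X, Polynomial.eval₂_one]
  rw [show x ^ N = 1 from hx, sub_self]

variable {K K' : IntermediateField ℚ ℂ} {N : ℕ}

lemma sub_finite (hN : 0 < N) (hK : K ≤ Qc N) : FiniteDimensional ℚ K := by
  have h1 := qc_finite hN
  exact FiniteDimensional.of_injective (IntermediateField.inclusion hK).toLinearMap
    (IntermediateField.inclusion_injective hK)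

/-- the kernel of the homomorphism to the Galois group -/
lemma mem_ker_Rk (hN : 0 < N) (hK : K ≤ Qc N) {u : (ZMod N)ˣ} {σ : ℂ ≃+* ℂ}
    (hσ : ∀ z : ℂ, z ^ N = 1 → σ z = z ^ (u : ZMod N).val) :
    u ∈ (Rk hN hK).ker ↔ ∀ x ∈ K, σ x = x := by
  rw [MonoidHom.mem_ker]
  constructor
  · intro h x hx
    have h1 := Rk_coe hN hK u hσ ⟨x, hx⟩
    rw [h] at h1
    exact h1.symm
  · intro h
    ext x
    rw [Rk_coe hN hK u hσ x]
    exact h x x.2

/-- **Degrees.** -/
theorem field_deg (hN : 0 < N) (hK : K ≤ Qc N) :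
    Module.finrank ℚ K = (Rk hN hK).ker.index := by
  have hfin := sub_finite hN hK
  have h1 : IntermediateField.fixedField (Rk hN hK).range = ⊥ := by
    rw [eq_bot_iff]
    intro x hx
    have hfix : ∀ u : (ZMod N)ˣ, Rk hN hK u x = x := fun u => by
      have h2 := (IntermediateField.mem_fixedField_iff _ x).mp hx
      exact h2 (Rk hN hK u) ⟨u, rfl⟩
    have hx' : (x : ℂ) ∈ (⊥ : IntermediateField ℚ ℂ) := by
      by_contra hcon
      obtain ⟨σ, h3, h4⟩ := Pool.Agent.TH119.MX.exists_move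
        (F := (⊥ : IntermediateField ℚ ℂ).toSubfield) hcon
      apply h4
      obtain ⟨k, hk⟩ := exists_pow_aut hN σ
      rw [← Rk_coe hN hK k hk x, hfix]
    rw [IntermediateField.mem_bot] at hx' ⊢
    obtain ⟨q, hq⟩ := hx'
    exact ⟨q, Subtype.ext hq⟩
  have h2 := IntermediateField.finrank_fixedField_eq_card (Rk hN hK).range
  rw [h1, IntermediateField.finrank_bot'] at h2
  rw [h2, Subgroup.index_ker]

/-- relative degrees -/
theorem rel_deg (hN : 0 < N) (hK : K ≤ Qc N) (hK' : K' ≤ Qc N) (h : K ≤ K') :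
    IntermediateField.relfinrank K K' = (Rk hN hK').ker.relIndex (Rk hN hK).ker := by
  have h1 := IntermediateField.finrank_bot_mul_relfinrank h
  have h2 : (Rk hN hK').ker ≤ (Rk hN hK).ker := by
    intro u hu
    obtain ⟨σ, hσ⟩ := exists_aut_pow hN u
    rw [mem_ker_Rk hN hK hσ]
    exact fun x hx => (mem_ker_Rk hN hK' hσ).mp hu x (h hx)
  have h3 := Subgroup.relIndex_mul_index h2
  rw [field_deg hN hK, field_deg hN hK', ← h3, mul_comm] at h1
  have hN' : NeZero N := ⟨hN.ne'⟩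
  have h4 : (Rk hN hK).ker.index ≠ 0 := Subgroup.index_ne_zero_of_finite
  exact Nat.eq_of_mul_eq_mul_right (Nat.pos_of_ne_zero h4) h1

lemma ker_qc (hN : 0 < N) {n : ℕ} (hn : n ∣ N) (h : Qc n ≤ Qc N) :
    (Rk hN h).ker = (ZMod.unitsMap hn).ker := by
  ext u
  obtain ⟨σ, hσ⟩ := exists_aut_pow hN u
  obtain ⟨z, hz⟩ := exists_root (Nat.pos_of_dvd_of_pos hn hN)
  rw [mem_ker_Rk hN h hσ, kr_iff hN hn hz]
  constructor
  · intro h1
    rw [← hσ z (root_pow hn hz)]
    refine h1 z (IntermediateField.subset_adjoin ℚ _ ?_)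
    change z ^ n = 1
    rw [← hz, pow_orderOf_eq_one]
  · intro h1 x hx
    refine fix_of_mem (m := n) (fun w hw => ?_) hx
    have hwN : w ^ N = 1 := by
      obtain ⟨c, hc⟩ := hn
      rw [hc, pow_mul, hw, one_pow]
    rw [hσ w hwN]
    have h2 := (kr_iff hN hn hz).mpr h1
    rw [mem_kr hN hn] at h2
    rw [pow_eq_of_modEq hw h2, pow_one]

lemma ker_val {G : Type} [Group G] [Finite G] (hN : 0 < N) (hG : Nat.card G ∣ N) {χ : G → ℂ}
    (hχ : χ ∈ Irr G) (h : IntermediateField.adjoin ℚ (Set.range χ) ≤ Qc N) :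
    (Rk hN h).ker = stb hN hG χ := by
  ext u
  obtain ⟨σ, hσ⟩ := exists_aut_pow hN u
  rw [mem_ker_Rk hN h hσ]
  constructor
  · intro h1
    funext g
    have h2 := h1 (χ g) (IntermediateField.subset_adjoin ℚ _ ⟨g, rfl⟩)
    rw [irr_pow hN hσ hχ (pow_card_dvd hG g)] at h2
    exact h2
  · intro h1 x hx
    induction hx using IntermediateField.adjoin_induction with
    | mem x hx =>
      obtain ⟨g, rfl⟩ := hx
      rw [irr_pow hN hσ hχ (pow_card_dvd hG g)]
      exact congrFun h1 g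
    | algebraMap x =>
      have h1 : (algebraMap ℚ ℂ) x = (x : ℂ) := rfl
      rw [h1, map_ratCast]
    | add a b _ _ ha hb => rw [map_add, ha, hb]
    | inv a _ ha => rw [map_inv₀, ha]
    | mul a b _ _ ha hb => rw [map_mul, ha, hb]

lemma ker_sup (hN : 0 < N) (hK : K ≤ Qc N) (hK' : K' ≤ Qc N) (h : K ⊔ K' ≤ Qc N) :
    (Rk hN h).ker = (Rk hN hK).ker ⊓ (Rk hN hK').ker := by
  ext u
  obtain ⟨σ, hσ⟩ := exists_aut_pow hN u
  rw [Subgroup.mem_inf, mem_ker_Rk hN h hσ, mem_ker_Rk hN hK hσ, mem_ker_Rk hN hK' hσ]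
  constructor
  · intro h1
    exact ⟨fun x hx => h1 x (le_sup_left (a := K) (b := K') hx),
      fun x hx => h1 x (le_sup_right (a := K) (b := K') hx)⟩
  · rintro ⟨h1, h2⟩ x hx
    rw [IntermediateField.sup_def] at hx
    induction hx using IntermediateField.adjoin_induction with
    | mem x hx =>
      rcases hx with hx | hx
      · exact h1 x hx
      · exact h2 x hx
    | algebraMap x =>
      have h1 : (algebraMap ℚ ℂ) x = (x : ℂ) := rfl
      rw [h1, map_ratCast]
    | add a b _ _ ha hb => rw [map_add, ha, hb]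
    | inv a _ ha => rw [map_inv₀, ha]
    | mul a b _ _ ha hb => rw [map_mul, ha, hb]

end Pool.Agent.Helper606_LC
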