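import Mathlib
import Pool.Agent.Helper606_LC.Comb3

/-!
# Divisors of the conductor and missed primes, real weights
-/

set_option autoImplicit false
set_option linter.unusedSectionVars false

namespace Pool.Agent.Helper606_LC

open Pool.Agent.H541R3.ART Pool.Agent.W446.AS Pool.Agent.R389

/-- the universal bound for the missed primes -/
theorem missed4 {N : ℕ} (hN : 0 < N) {G : Type} [Group G] [Finite G] (hG : Nat.card G ∣ N)
    {χ : G → ℂ} (hχ : χ ∈ Irr G) {I : Finset ℕ} {a : ℕ → ℕ} (hI : ∀ p ∈ I, p.Prime)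
    (ha : ∀ p ∈ I, 0 < a p) (hmov : ∀ p ∈ I, ∃ u ∈ Ug N (p ^ a p), pw u χ ≠ χ) (w : ℕ → ℝ)
    {m : ℝ} (hm : 0 < m) (hw : ∀ p ∈ I, m ≤ w p) :
    ∃ E ⊆ wildQ G a I, HasOrd χ (∏ p ∈ I \ E, p ^ a p) ∧
      (E = ∅ ∨ 5 * ∑ p ∈ E, w p + 2 * m ≤ ∑ p ∈ wildQ G a I, w p) := by
  classical
  have hfin := gam_finite hN hG χ
  have h1 : ∀ p ∈ I, ∃ v ∈ Ug N (p ^ a p), (orderOf (gmk hN hG χ v)).Prime := by
    intro p hp
    obtain ⟨u, hu, hu1⟩ := hmov p hp
    exact exists_prime_order hN hG hu hu1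
  choose! v hv hv1 using h1
  have hbI : ∀ p ∈ wildQ G a I, p ∈ I := fun p hp => (Finset.mem_filter.mp hp).1
  obtain ⟨ℓ, hℓF, ψ, E, hEI, hψ, hE⟩ := per_real (I := wildQ G a I)
    (β := fun p => gmk hN hG χ (v p)) (fun p hp => hv1 p (hbI p hp)) w hm
    (fun p hp => hw p (hbI p hp))
  refine ⟨E, hEI, ?_, hE⟩
  refine main_psi3 hN a (ψ.comp (gmk hN hG χ)) _ G hG rfl χ hχ ?_ (I \ E)
    (fun p hp => hI p (Finset.mem_sdiff.mp hp).1) (fun p hp => ha p (Finset.mem_sdiff.mp hp).1)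
    (fun p hp => hmov p (Finset.mem_sdiff.mp hp).1) ?_
  · intro k hk
    rw [MonoidHom.comp_apply, (gmk_eq_one hN hG χ).mpr hk, map_one]
  · intro p hp
    obtain ⟨hp1, hp2⟩ := Finset.mem_filter.mp hp
    obtain ⟨hp3, hp4⟩ := Finset.mem_sdiff.mp hp1
    exact ⟨v p, hv p hp3, hψ p (Finset.mem_filter.mpr ⟨hp3, hp2⟩) hp4⟩

/-- the universal bound, for divisors of the conductor -/
theorem missed_cond4 {G : Type} [Group G] [Finite G] {χ : G → ℂ} (hχ : χ ∈ Irr G) {n : ℕ}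
    (hn : 0 < n) (h : ∀ g, χ g ∈ Qc n)
    (hmin : ∀ m : ℕ, 0 < m → (∀ g, χ g ∈ Qc m) → n ≤ m) {d : ℕ} (hd : d ∣ n) (w : ℕ → ℝ)
    {m : ℝ} (hm : 0 < m) (hw : ∀ p ∈ d.primeFactors, m ≤ w p) :
    ∃ e : ℕ, e ∣ d ∧ Nat.Coprime e (d / e) ∧ HasOrd χ e ∧
      (d / e).primeFactors ⊆ wildQ G d.factorization d.primeFactors ∧
      (e = d ∨ 5 * ∑ p ∈ (d / e).primeFactors, w p + 2 * m
        ≤ ∑ p ∈ wildQ G d.factorization d.primeFactors, w p) := by
  classical
  have hd0 : d ≠ 0 := by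
    rintro rfl
    rw [zero_dvd_iff] at hd
    omega
  have hN : 0 < Nat.card G * n := Nat.mul_pos Nat.card_pos hn
  have hpr : ∀ p ∈ d.primeFactors, p.Prime := fun p hp => Nat.prime_of_mem_primeFactors hp
  have hpos : ∀ p ∈ d.primeFactors, 0 < d.factorization p := fun p hp =>
    (hpr p hp).factorization_pos_of_dvd hd0 (Nat.dvd_of_mem_primeFactors hp)
  obtain ⟨E, hE, h1, h2⟩ := missed4 hN (dvd_mul_right (Nat.card G) n) hχ (I := d.primeFactors)
    (a := d.factorization) hpr hpos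
    (fun p hp => exists_mov hN (dvd_mul_right _ _) hχ hn (dvd_mul_left _ _) h hmin (hpr p hp)
      (hpos p hp) ((Nat.ordProj_dvd d p).trans hd)) w hm hw
  have hEI : E ⊆ d.primeFactors := hE.trans (Finset.filter_subset _ _)
  have hprod : (∏ p ∈ d.primeFactors \ E, p ^ d.factorization p) * ∏ p ∈ E, p ^ d.factorization p
      = d := by
    rw [Finset.prod_sdiff hEI]
    exact Nat.prod_factorization_pow_eq_self hd0
  set e := ∏ p ∈ d.primeFactors \ E, p ^ d.factorization p with he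
  set f := ∏ p ∈ E, p ^ d.factorization p with hf
  have he0 : 0 < e := Finset.prod_pos fun p hp =>
    pow_pos (hpr p (Finset.mem_sdiff.mp hp).1).pos _
  have hdiv : d / e = f := by
    rw [← hprod, Nat.mul_div_cancel_left _ he0]
  have hfac : f.primeFactors = E := by
    ext q
    rw [Nat.mem_primeFactors]
    constructor
    · rintro ⟨hq, hqf, -⟩
      obtain ⟨p, hp, hqp⟩ := (Prime.dvd_finsetProd_iff hq.prime _).mp hqf
      have h3 := (Nat.prime_dvd_prime_iff_eq hq (hpr p (hEI hp))).mp (hq.dvd_of_dvd_pow hqp)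
      rw [h3]; exact hp
    · intro hq
      refine ⟨hpr q (hEI hq), ?_, ?_⟩
      · exact (dvd_pow_self q (hpos q (hEI hq)).ne').trans
          (Finset.dvd_prod_of_mem (fun p => p ^ d.factorization p) hq)
      · exact (Finset.prod_pos fun p hp => pow_pos (hpr p (hEI hp)).pos _).ne'
  have hco : Nat.Coprime e f := by
    rw [he, hf]
    refine Nat.Coprime.prod_left fun p hp => Nat.Coprime.prod_right fun q hq => ?_
    refine Nat.Coprime.pow _ _ ((Nat.coprime_primes (hpr p (Finset.mem_sdiff.mp hp).1)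
      (hpr q (hEI hq))).mpr ?_)
    rintro rfl
    exact (Finset.mem_sdiff.mp hp).2 hq
  refine ⟨e, ⟨f, hprod.symm⟩, by rw [hdiv]; exact hco, h1, by rw [hdiv, hfac]; exact hE, ?_⟩
  rcases h2 with h2 | h2
  · left
    rw [← hprod, hf, h2, Finset.prod_empty, mul_one]
  · right
    rw [hdiv, hfac]
    exact h2

/-- the multiplicative form -/
theorem missed_mul {G : Type} [Group G] [Finite G] {χ : G → ℂ} (hχ : χ ∈ Irr G) {n : ℕ}
    (hn : 0 < n) (h : ∀ g, χ g ∈ Qc n)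
    (hmin : ∀ m : ℕ, 0 < m → (∀ g, χ g ∈ Qc m) → n ≤ m) {d : ℕ} (hd : d ∣ n) (w : ℕ → ℝ)
    {m : ℝ} (hm : 1 < m) (hw : ∀ p ∈ d.primeFactors, m ≤ w p) :
    ∃ e : ℕ, e ∣ d ∧ Nat.Coprime e (d / e) ∧ HasOrd χ e ∧
      (d / e).primeFactors ⊆ wildQ G d.factorization d.primeFactors ∧
      (e = d ∨ m ^ 2 * (∏ p ∈ (d / e).primeFactors, w p) ^ 5
        ≤ ∏ p ∈ wildQ G d.factorization d.primeFactors, w p) := by
  classical
  have hm0 : 0 < m := zero_lt_one.trans hm
  obtain ⟨e, he, hco, ho, hE, hlast⟩ := missed_cond4 hχ hn h hmin hd (fun p => Real.log (w p))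
    (m := Real.log m) (Real.log_pos hm) (fun p hp => Real.log_le_log hm0 (hw p hp))
  refine ⟨e, he, hco, ho, hE, hlast.imp_right fun h5 => ?_⟩
  have hWs : ∀ p ∈ wildQ G d.factorization d.primeFactors, p ∈ d.primeFactors := fun p hp =>
    (Finset.mem_filter.mp hp).1
  have hpos : ∀ p ∈ wildQ G d.factorization d.primeFactors, 0 < w p := fun p hp =>
    hm0.trans_le (hw p (hWs p hp))
  have hEpos : 0 < ∏ p ∈ (d / e).primeFactors, w p := Finset.prod_pos fun p hp => hpos p (hE hp)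
  have hWpos : 0 < ∏ p ∈ wildQ G d.factorization d.primeFactors, w p := Finset.prod_pos hpos
  have hleft : 0 < m ^ 2 * (∏ p ∈ (d / e).primeFactors, w p) ^ 5 := by positivity
  rw [← Real.log_le_log_iff hleft hWpos, Real.log_mul (by positivity) (by positivity),
    Real.log_pow, Real.log_pow, Real.log_prod (fun p hp => (hpos p (hE hp)).ne'),
    Real.log_prod (fun p hp => (hpos p hp).ne')]
  push_cast
  linarith

end Pool.Agent.Helper606_LC
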