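import Mathlib
import Pool.Agent.Helper606_LC.Fd1
import Pool.Agent.Helper606_LC.Fin4

/-!
# Degrees of cyclotomic fields over fields of values
-/

set_option autoImplicit false
set_option linter.unusedSectionVars false

namespace Pool.Agent.Helper606_LC

open Pool.Agent.H541R3.ART Pool.Agent.W446.AS Pool.Agent.R389 Pool.Agent.H302R3

/-- **Supermodular functions** are bounded by products of weights. -/
theorem super_weights {ι : Type*} [DecidableEq ι] (f : Finset ι → ℝ) (hpos : ∀ E, 0 < f E)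
    (hmono : ∀ E F, E ⊆ F → f E ≤ f F)
    (hsup : ∀ E F, f E * f F ≤ f (E ∪ F) * f (E ∩ F)) (W : Finset ι) :
    ∃ w : ι → ℝ, (∀ i, 1 ≤ w i) ∧ (∏ i ∈ W, w i) * f ∅ = f W ∧
      ∀ E ⊆ W, f E ≤ (∏ i ∈ E, w i) * f ∅ := by
  induction W using Finset.induction_on with
  | empty =>
    refine ⟨fun _ => 1, fun _ => le_refl 1, by simp, fun E hE => ?_⟩
    rw [Finset.subset_empty.mp hE]
    simp
  | insert a W ha ih =>
    obtain ⟨w, h1, h2, h3⟩ := ih
    have hq : 1 ≤ f (insert a W) / f W := by
      rw [one_le_div (hpos W)]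
      exact hmono _ _ (Finset.subset_insert a W)
    have hcong : ∀ E : Finset ι, a ∉ E →
        ∏ i ∈ E, Function.update w a (f (insert a W) / f W) i = ∏ i ∈ E, w i := by
      intro E hE
      refine Finset.prod_congr rfl fun i hi => ?_
      rw [Function.update_of_ne]
      rintro rfl
      exact hE hi
    refine ⟨Function.update w a (f (insert a W) / f W), fun i => ?_, ?_, fun E hE => ?_⟩
    · by_cases hi : i = a
      · subst hi
        rwa [Function.update_self]
      · rw [Function.update_of_ne hi]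
        exact h1 i
    · rw [Finset.prod_insert ha, Function.update_self, hcong W ha, mul_assoc, h2,
        div_mul_cancel₀ _ (hpos W).ne']
    · by_cases haE : a ∈ E
      · have hE' : E.erase a ⊆ W := by
          intro i hi
          obtain ⟨hia, hiE⟩ := Finset.mem_erase.mp hi
          exact (Finset.mem_insert.mp (hE hiE)).resolve_left hia
        have h4 := hsup E W
        have h5 : E ∪ W = insert a W := by
          apply Finset.Subset.antisymm
          · exact Finset.union_subset hE (Finset.subset_insert a W)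
          · intro i hi
            rcases Finset.mem_insert.mp hi with rfl | hi
            · exact Finset.mem_union_left _ haE
            · exact Finset.mem_union_right _ hi
        have h6 : E ∩ W = E.erase a := by
          ext i
          rw [Finset.mem_inter, Finset.mem_erase]
          constructor
          · rintro ⟨hi, hiW⟩
            refine ⟨?_, hi⟩
            rintro rfl
            exact ha hiW
          · rintro ⟨hia, hi⟩
            exact ⟨hi, (Finset.mem_insert.mp (hE hi)).resolve_left hia⟩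
        rw [h5, h6] at h4
        have h7 : f E ≤ f (insert a W) / f W * f (E.erase a) := by
          rw [div_mul_eq_mul_div, le_div_iff₀ (hpos W)]
          exact h4
        rw [← Finset.insert_erase haE, Finset.prod_insert (Finset.notMem_erase a E),
          Function.update_self, hcong _ (Finset.notMem_erase a E), mul_assoc,
          Finset.insert_erase haE]
        exact h7.trans (mul_le_mul_of_nonneg_left (h3 _ hE') (zero_le_one.trans hq))
      · rw [hcong E haE]
        refine h3 E fun i hi => ?_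
        refine (Finset.mem_insert.mp (hE hi)).resolve_left ?_
        rintro rfl
        exact haE hi

/-- products of subgroups of abelian groups -/
lemma card_inf_sup {Γ : Type*} [CommGroup Γ] [Finite Γ] (H K : Subgroup Γ) :
    Nat.card H * Nat.card K = Nat.card ↥(H ⊔ K) * Nat.card ↥(H ⊓ K) := by
  have h1 := card_mul_relIdx (le_sup_left : H ≤ H ⊔ K)
  rw [Subgroup.relIndex_sup_left] at h1
  have h2 := card_mul_relIdx (inf_le_right : H ⊓ K ≤ K)
  rw [Subgroup.inf_relIndex_right] at h2
  rw [← h1, ← h2]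
  ring

/-- the choice of a small weight -/
lemma num_fin {c : ℕ} (hc : 0 < c) (K : ℕ) : ∃ m : ℝ, 0 < m ∧ ∀ P : ℝ, 0 < P → ∀ e : ℕ,
    5 * (Real.log P + e * m) + 2 * m ≤ Real.log c + K * m → ∀ t : ℕ, (t : ℝ) ≤ P →
      t ^ 5 ≤ c := by
  have hc' : (0 : ℝ) < c := by exact_mod_cast hc
  have hlog : 0 < Real.log (1 + 1 / (c : ℝ)) := Real.log_pos (by
    have h1 : (0 : ℝ) < 1 / c := div_pos one_pos hc'
    linarith)
  have hK : (0 : ℝ) < (K : ℝ) + 1 := by positivity
  refine ⟨Real.log (1 + 1 / c) / (K + 1), div_pos hlog hK, fun P hP e hE t ht => ?_⟩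
  set m : ℝ := Real.log (1 + 1 / c) / (K + 1) with hm
  have hm0 : 0 < m := div_pos hlog hK
  have h6 : m * (K + 1) = Real.log (1 + 1 / c) := div_mul_cancel₀ _ hK.ne'
  have hEc : (0 : ℝ) ≤ (e : ℝ) * m := by positivity
  have h7 : 5 * Real.log P < Real.log c + Real.log (1 + 1 / c) := by
    have h8 : (K : ℝ) * m = Real.log (1 + 1 / c) - m := by rw [← h6]; ring
    rw [h8] at hE
    linarith
  have h8 : P ^ 5 < c * (1 + 1 / c) := by
    rw [← Real.log_lt_log_iff (pow_pos hP 5) (by positivity), Real.log_pow,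
      Real.log_mul hc'.ne' (by positivity)]
    exact_mod_cast h7
  have h9 : (c : ℝ) * (1 + 1 / c) = c + 1 := by
    rw [mul_add, mul_one, mul_one_div_cancel hc'.ne']
  rw [h9] at h8
  have h10 : (t : ℝ) ^ 5 < (c : ℝ) + 1 := (pow_le_pow_left₀ (by positivity) ht 5).trans_lt h8
  have h11 : t ^ 5 < c + 1 := by exact_mod_cast h10
  omega

section def_

variable {G : Type} [Group G] [Finite G] {V : Type} [AddCommGroup V] [Module ℂ V]
  [FiniteDimensional ℂ V] {ρ : Representation ℂ G V}

/-- the product of the prime power factors of `n` for the primes in a set -/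
def npart (n : ℕ) (X : Finset ℕ) : ℕ := ∏ p ∈ X, p ^ n.factorization p

lemma npart_dvd {n : ℕ} (hn : 0 < n) {X : Finset ℕ} (hX : X ⊆ n.primeFactors) : npart n X ∣ n := by
  have h1 : n = npart n n.primeFactors := (Nat.prod_factorization_pow_eq_self hn.ne').symm
  conv_rhs => rw [h1]
  exact Finset.prod_dvd_prod_of_subset _ _ _ hX

/-- **The universal inequality.** -/
theorem defic_core (hρ : ρ.character ∈ Irr G) {n N : ℕ} (hN : 0 < N) (hG : Nat.card G ∣ N)
    (hn : 0 < n) (hnN : n ∣ N) (h : ∀ g, ρ.character g ∈ Qc n)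
    (hmin : ∀ m : ℕ, 0 < m → (∀ g, ρ.character g ∈ Qc m) → n ≤ m) {W : Finset ℕ}
    (hW : W = wildQ G n.factorization n.primeFactors) {nt : ℕ}
    (hnt : nt = npart n (n.primeFactors \ W)) (hntN : nt ∣ N) :
    ∃ t : ℕ, 0 < t ∧
      (ZMod.unitsMap hnN).ker.relIndex (stb hN hG ρ.character) ≤ t * Module.finrank ℂ V ∧
      t ^ 5 ≤ (ZMod.unitsMap hnN).ker.relIndex
        (stb hN hG ρ.character ⊓ (ZMod.unitsMap hntN).ker) := by
  classical
  have hN' : NeZero N := ⟨hN.ne'⟩
  set S := stb hN hG ρ.character with hS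
  set I := n.primeFactors with hI
  have hpr : ∀ p ∈ I, p.Prime := fun p hp => Nat.prime_of_mem_primeFactors hp
  have hpos : ∀ p ∈ I, 0 < n.factorization p := fun p hp =>
    (hpr p hp).factorization_pos_of_dvd hn.ne' (Nat.dvd_of_mem_primeFactors hp)
  have hWI : W ⊆ I := by
    rw [hW]
    exact fun p hp => (Finset.mem_filter.mp hp).1
  have hdv : ∀ E : Finset ℕ, npart n (I \ E) ∣ N := fun E =>
    (npart_dvd hn Finset.sdiff_subset).trans hnN
  let T : Finset ℕ → Subgroup (ZMod N)ˣ := fun E => S ⊓ (ZMod.unitsMap (hdv E)).ker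
  have hZS : (ZMod.unitsMap hnN).ker ≤ S := by
    intro u hu
    have hu' := (mem_kr hN hnN).mp hu
    change pw u ρ.character = ρ.character
    refine pw_of_mem hN hG hρ h hnN fun z hz => ?_
    rw [pow_eq_of_modEq hz hu', pow_one]
  have hT0 : T ∅ = (ZMod.unitsMap hnN).ker := by
    have h1 : ∀ u : (ZMod N)ˣ, u ∈ (ZMod.unitsMap (hdv ∅)).ker ↔ u ∈ (ZMod.unitsMap hnN).ker := by
      intro u
      rw [mem_kr hN, mem_kr hN]
      have h2 : npart n (I \ ∅) = n := by
        rw [Finset.sdiff_empty]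
        exact Nat.prod_factorization_pow_eq_self hn.ne'
      rw [h2]
    ext u
    rw [Subgroup.mem_inf, h1]
    exact ⟨fun h => h.2, fun h => ⟨hZS h, h⟩⟩
  have hTW : T W = S ⊓ (ZMod.unitsMap hntN).ker := by
    have h1 : ∀ u : (ZMod N)ˣ, u ∈ (ZMod.unitsMap (hdv W)).ker ↔ u ∈ (ZMod.unitsMap hntN).ker := by
      intro u
      rw [mem_kr hN, mem_kr hN, hnt]
    ext u
    rw [Subgroup.mem_inf, Subgroup.mem_inf, h1]
  have hTm : ∀ E F, E ⊆ F → T E ≤ T F := by
    intro E F hEF
    refine inf_le_inf_left S ?_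
    intro u hu
    rw [mem_kr hN] at hu ⊢
    exact hu.of_dvd (Finset.prod_dvd_prod_of_subset _ _ _ (Finset.sdiff_subset_sdiff
      (Finset.Subset.refl I) hEF))
  have hTi : ∀ E F, T E ⊓ T F ≤ T (E ∩ F) := by
    rintro E F u ⟨⟨hu, hu1⟩, -, hu2⟩
    refine ⟨hu, ?_⟩
    have hp : ∀ p ∈ I \ (E ∩ F), p ^ n.factorization p ∣ N := fun p _ =>
      (Nat.ordProj_dvd n p).trans hnN
    refine kr_prod hN (fun p hp => hpr p (Finset.mem_sdiff.mp hp).1) (hdv (E ∩ F)) hp
      fun p hpX => ?_
    obtain ⟨hpI, hpEF⟩ := Finset.mem_sdiff.mp hpX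
    rw [mem_kr hN]
    by_cases hpE : p ∈ E
    · have hpF : p ∉ F := fun hpF => hpEF (Finset.mem_inter.mpr ⟨hpE, hpF⟩)
      exact ((mem_kr hN (hdv F)).mp hu2).of_dvd
        (Finset.dvd_prod_of_mem (fun p => p ^ n.factorization p) (Finset.mem_sdiff.mpr ⟨hpI, hpF⟩))
    · exact ((mem_kr hN (hdv E)).mp hu1).of_dvd
        (Finset.dvd_prod_of_mem (fun p => p ^ n.factorization p) (Finset.mem_sdiff.mpr ⟨hpI, hpE⟩))
  let f : Finset ℕ → ℝ := fun E => (Nat.card (T E) : ℝ)
  have hfpos : ∀ E, 0 < f E := fun E => by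
    change (0 : ℝ) < (Nat.card (T E) : ℝ)
    exact_mod_cast (Nat.card_pos : 0 < Nat.card (T E))
  have hfm : ∀ E F, E ⊆ F → f E ≤ f F := fun E F hEF => by
    change (Nat.card (T E) : ℝ) ≤ (Nat.card (T F) : ℝ)
    exact_mod_cast Nat.le_of_dvd Nat.card_pos (Subgroup.card_dvd_of_le (hTm E F hEF))
  have hfs : ∀ E F, f E * f F ≤ f (E ∪ F) * f (E ∩ F) := fun E F => by
    change (Nat.card (T E) : ℝ) * (Nat.card (T F) : ℝ)
      ≤ (Nat.card (T (E ∪ F)) : ℝ) * (Nat.card (T (E ∩ F)) : ℝ)
    have h1 : Nat.card (T E) * Nat.card (T F)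
        ≤ Nat.card (T (E ∪ F)) * Nat.card (T (E ∩ F)) := by
      rw [card_inf_sup]
      refine Nat.mul_le_mul ?_ ?_
      · exact Nat.le_of_dvd Nat.card_pos (Subgroup.card_dvd_of_le
          (sup_le (hTm _ _ Finset.subset_union_left) (hTm _ _ Finset.subset_union_right)))
      · exact Nat.le_of_dvd Nat.card_pos (Subgroup.card_dvd_of_le (hTi E F))
    exact_mod_cast h1
  obtain ⟨w, hw1, hwW, hwE⟩ := super_weights f hfpos hfm hfs W
  have hidx : ∀ E, Nat.card (T ∅) * (T ∅).relIndex (T E) = Nat.card (T E) := fun E =>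
    card_mul_relIdx (hTm ∅ E (Finset.empty_subset E))
  have hfr : ∀ E, f E = f ∅ * ((T ∅).relIndex (T E) : ℝ) := fun E => by
    change (Nat.card (T E) : ℝ) = (Nat.card (T ∅) : ℝ) * _
    rw [← hidx E, Nat.cast_mul]
  have hrpos : ∀ E, 0 < (T ∅).relIndex (T E) := fun E =>
    Nat.pos_of_ne_zero (by
      intro h0
      have h1 := hidx E
      rw [h0, mul_zero] at h1
      exact Nat.card_pos.ne h1)
  -- the small number
  set c := (T ∅).relIndex (T W) with hc
  have hc0 : 0 < c := hrpos W
  obtain ⟨m, hm0, hfin⟩ := num_fin hc0 W.card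
  obtain ⟨E, hEW, hord, hE⟩ := missed4 hN hG hρ hpr hpos (fun p hp =>
    exists_mov hN hG hρ hn hnN h hmin (hpr p hp) (hpos p hp) (Nat.ordProj_dvd n p))
    (fun p => Real.log (w p) + m) hm0 (fun p _ => le_add_of_nonneg_left (Real.log_nonneg (hw1 p)))
  rw [← hW] at hEW hE
  refine ⟨(T ∅).relIndex (T E), hrpos E, ?_, ?_⟩
  · have h1 := orbit_le hN hG (hdv E) hord
    rw [← hT0]
    have h2 : (T ∅).relIndex (T E) * (T E).relIndex S = (T ∅).relIndex S :=
      Subgroup.relIndex_mul_relIndex _ _ _ (hTm ∅ E (Finset.empty_subset E)) inf_le_left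
    have h3 : (T E).relIndex S = (ZMod.unitsMap (hdv E)).ker.relIndex S := by
      change (S ⊓ (ZMod.unitsMap (hdv E)).ker).relIndex S = _
      rw [Subgroup.inf_relIndex_left]
    rw [← h2, h3]
    exact Nat.mul_le_mul_left _ h1
  · rw [← hT0, ← hTW]
    change (T ∅).relIndex (T E) ^ 5 ≤ c
    rcases hE with rfl | hE
    · have h1 : (T ∅).relIndex (T ∅) = 1 := Subgroup.relIndex_self _
      rw [h1, one_pow]
      exact hc0
    · have hf0 := hfpos ∅
      have h1 : ((T ∅).relIndex (T E) : ℝ) ≤ ∏ i ∈ E, w i := by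
        have h2 := hwE E hEW
        rw [hfr E, mul_comm] at h2
        exact le_of_mul_le_mul_right h2 hf0
      have h3 : ∏ i ∈ W, w i = c := by
        rw [hfr W, mul_comm] at hwW
        exact mul_left_cancel₀ hf0.ne' hwW
      have hwpos : ∀ i, 0 < w i := fun i => zero_lt_one.trans_le (hw1 i)
      have h4 : Real.log (∏ i ∈ E, w i) = ∑ i ∈ E, Real.log (w i) :=
        Real.log_prod (fun i _ => (hwpos i).ne')
      have h5 : Real.log c = ∑ i ∈ W, Real.log (w i) := by
        rw [← h3]
        exact Real.log_prod (fun i _ => (hwpos i).ne')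
      rw [Finset.sum_add_distrib, Finset.sum_add_distrib, Finset.sum_const, Finset.sum_const,
        nsmul_eq_mul, nsmul_eq_mul, ← h4, ← h5] at hE
      exact hfin _ (Finset.prod_pos fun i _ => hwpos i) _ hE _ h1

end def_

end Pool.Agent.Helper606_LC
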