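import Mathlib
import Pool.Agent.Helper606_LC.InvCnt
import Pool.Agent.Helper606_LC.Comb4
import Pool.Agent.Helper606_LC.Neg

/-!
# Automizers of cyclic subgroups of odd order
-/

set_option autoImplicit false
set_option linter.unusedSectionVars false

namespace Pool.Agent.Helper606_LC

open Pool.Agent.H541R3.ART Pool.Agent.W446.AS Pool.Agent.R389 Pool.Agent.H302R3

/-- involutions in the automizer of a cyclic subgroup of odd order -/
theorem fixed_count {N : ℕ} (hN : 0 < N) {G : Type} [Group G] [Finite G] (hG : Nat.card G ∣ N)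
    {χ : G → ℂ} (hχ : χ ∈ Irr G) {P B₀ : Finset ℕ} (hP : ∀ p ∈ P, p.Prime) (hP2 : ∀ p ∈ P, p ≠ 2)
    (cc : ℕ → (ZMod N)ˣ →* (ZMod N)ˣ) (ee : ℕ → (ZMod N)ˣ)
    (he2 : ∀ p, ee p ^ 2 = 1) (heU : ∀ p ∈ P, ee p ∈ Ug N p) (hce : ∀ p ∈ P, cc p (ee p) = ee p)
    (hc1 : ∀ p ∈ P, ∀ r, r.Prime → r ≠ p → ∀ w ∈ Ug N r, cc p w = 1)
    (hcz : ∀ p ∈ P, ∀ k, ∀ z : ℂ, z ^ N = 1 → orderOf z = p →
      z ^ (cc p k : ZMod N).val = z ^ (k : ZMod N).val)
    (hez : ∀ p ∈ P, ∀ z : ℂ, z ^ N = 1 → orderOf z = p → z ^ (ee p : ZMod N).val = z → p = 2)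
    {w : (ZMod N)ˣ} (hw : w ∈ Ug N 2)
    (hcl : ∀ p ∈ P, gmk hN hG χ (ee p) ∈ Subgroup.closure (insert (gmk hN hG χ w)
      ((fun i => gmk hN hG χ (ee i)) '' (B₀ : Set ℕ))))
    (ψ : Gam hN hG χ →* (AlgebraicClosure (ZMod 2))ˣ)
    (hψ : ∀ i ∈ P, ∃ u ∈ Ug N i, ψ (gmk hN hG χ u) ≠ 1 ∨ 2 ∣ orderOf (gmk hN hG χ u)) :
    ∃ c : G, Odd (orderOf c) ∧ 2 ^ P.card ≤ 2 ^ B₀.card *
      Set.ncard {j : ZMod (orderOf c) | j ^ 2 = 1 ∧ IsConj c (c ^ j.val)} := by
  classical
  have hN' : NeZero N := ⟨hN.ne'⟩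
  obtain ⟨s, m, hm, hsm⟩ := Nat.exists_eq_pow_mul_and_not_dvd
    (Nat.card_pos (α := (ZMod N)ˣ)).ne' 2 (by norm_num)
  have hmo : Odd m := by rwa [← Nat.not_even_iff_odd, even_iff_two_dvd]
  let S : Subgroup (ZMod N)ˣ := (stb hN hG χ).map (powMonoidHom m)
  have hS : IsPGroup 2 S := by
    rintro ⟨x, y, -, rfl⟩
    refine ⟨s, Subtype.ext ?_⟩
    change (y ^ m) ^ 2 ^ s = 1
    rw [← pow_mul, mul_comm, ← hsm, pow_card_eq_one']
  have hSχ : ∀ s ∈ S, pw s χ = χ := by
    rintro _ ⟨y, hy, rfl⟩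
    exact (stb hN hG χ).pow_mem hy m
  obtain ⟨H, φ, hyp, hφ, -, hfix, hmv⟩ := crit_fixed hN hG Nat.prime_two hχ (I := P)
    (m := fun i => i) S hS hSχ ψ hψ
  have hHN : Nat.card H ∣ N := H.card_subgroup_dvd_card.trans hG
  obtain ⟨c, ε, hcop, hεo, hconj, hord⟩ := hyp_elt hN hHN Nat.prime_two hyp hφ
  have hcN : orderOf c ∣ N := (orderOf_dvd_natCard c).trans hHN
  have hεN : ε ^ N = 1 := by
    obtain ⟨t, ht⟩ := hcN
    rw [ht, pow_mul, hεo, one_pow]
  have hco : Odd (orderOf c) := (Nat.coprime_two_right).mp hcop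
  have hε2 : ¬ 2 ∣ orderOf ε := by
    intro h
    have h1 : 2 ∣ orderOf c := h.trans (orderOf_dvd_of_pow_eq_one hεo)
    have h2 := Nat.Coprime.eq_one_of_dvd hcop.symm h1
    omega
  have hpε : ∀ p ∈ P, p ∣ orderOf ε := by
    intro p hp
    have h1 := hord p 1 (hP p hp) (hP2 p hp) Nat.one_pos (by rw [pow_one]; exact hmv p hp)
    rwa [pow_one] at h1
  let θ := thTwo P ee he2
  let X : Subgroup (ZMod N)ˣ := stb hN hG χ ⊔ UgS hN 2
  let π : (ZMod N)ˣ →* (ZMod N)ˣ ⧸ X := QuotientGroup.mk' X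
  let f := π.comp θ
  let θE : f.ker →* (ZMod N)ˣ := θ.comp f.ker.subtype
  have hoc : orderOf (c : G) = orderOf c := Subgroup.orderOf_coe c
  refine ⟨(c : G), by rw [hoc]; exact hco, ?_⟩
  have hcount : Nat.card f.ker ≤
      Set.ncard {j : ZMod (orderOf (c : G)) | j ^ 2 = 1 ∧ IsConj (c : G) ((c : G) ^ j.val)} := by
    refine inv_count hN (ε := ε) (by rw [hoc]; exact hεo) hεN θE ?_ ?_ ?_
    · rintro ⟨x, hx⟩
      exact Subtype.ext (two_fun_sq P x)
    · rintro ⟨x, hx⟩ hεx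
      apply Subtype.ext
      change x = 1
      funext i
      obtain ⟨p, hp⟩ := i
      have hpo := hpε p hp
      set z : ℂ := ε ^ (orderOf ε / p) with hz
      have hε0 : orderOf ε ≠ 0 := by
        intro h
        have h1 := orderOf_dvd_of_pow_eq_one hεN
        rw [h, zero_dvd_iff] at h1
        omega
      have hzo : orderOf z = p := orderOf_pow_orderOf_div hε0 hpo
      have hzN : z ^ N = 1 := by
        rw [hz, ← pow_mul, mul_comm, pow_mul, hεN, one_pow]
      have h1 : z ^ (θ x : ZMod N).val = z := by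
        have h2 : ε ^ (θ x : ZMod N).val = ε := hεx
        rw [hz, ← pow_mul, mul_comm, pow_mul, h2]
      rw [← hcz p hp _ z hzN hzo] at h1
      have h2 : cc p (θ x) = ee p ^ (Multiplicative.toAdd (x ⟨p, hp⟩)).val := by
        change cc p (thTwo P ee he2 x) = _
        rw [thTwo_apply, map_prod, Finset.prod_eq_single ⟨p, hp⟩]
        · rw [map_pow, hce p hp]
        · rintro ⟨r, hr⟩ - hrp
          have hrp' : r ≠ p := fun h => hrp (Subtype.ext h)
          rw [map_pow, hc1 p hp r (hP r hr) hrp' _ (heU r hr), one_pow]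
        · intro h
          exact absurd (Finset.mem_univ _) h
      rw [h2] at h1
      have h3 : ∀ y : Multiplicative (ZMod 2), y = 1 ∨ (Multiplicative.toAdd y).val = 1 := by decide
      rcases h3 (x ⟨p, hp⟩) with h4 | h4
      · exact h4
      · exfalso
        rw [h4, pow_one] at h1
        exact hP2 p hp (hez p hp z hzN hzo h1)
    · rintro ⟨x, hx⟩
      have h1 : θ x ∈ X := (QuotientGroup.eq_one_iff (θ x)).mp hx
      obtain ⟨a, ha, b, hb, hab⟩ := Subgroup.mem_sup.mp h1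
      have h2 : (θ x) ^ m = θ x := by
        obtain ⟨t, ht⟩ := hmo
        have h3 : (θ x) ^ 2 = 1 := by rw [← map_pow, two_fun_sq P x, map_one]
        rw [ht, pow_succ, pow_mul, h3, one_pow, one_mul]
      have h3 : pw (a ^ m) φ = φ := hfix (a ^ m) ⟨a, ha, rfl⟩
      obtain ⟨h, j, hj, hεj⟩ := hconj (a ^ m) h3
      refine ⟨(h : G), j, ?_, ?_⟩
      · have h4 := congrArg (fun y : H => (y : G)) hj
        simpa using h4
      · change ε ^ j = ε ^ (θ x : ZMod N).val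
        rw [hεj, ← h2, ← hab, mul_pow, pow_val_mul hN hεN]
        have hz : (ε ^ ((a ^ m : (ZMod N)ˣ) : ZMod N).val) ^ N = 1 := by
          rw [← pow_mul, mul_comm, pow_mul, hεN, one_pow]
        have hbm : b ^ m ∈ Ug N 2 := ug_pow hN hb m
        refine (hbm _ hz fun h5 => hε2 (h5.trans ?_)).symm
        exact orderOf_dvd_of_pow_eq_one (by
          rw [← pow_mul, mul_comm, pow_mul, pow_orderOf_eq_one, one_pow])
  have hrange : Nat.card f.range ≤ 2 ^ B₀.card := by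
    let ρ : Gam hN hG χ →* (ZMod N)ˣ ⧸ X := QuotientGroup.map (stb hN hG χ) X (MonoidHom.id _)
      (by rw [Subgroup.comap_id]; exact le_sup_left)
    have hρ : ∀ u, ρ (gmk hN hG χ u) = π u := fun _ => rfl
    have hsq : ∀ i, (π (ee i)) ^ 2 = 1 := fun i => by rw [← map_pow, he2, map_one]
    let K : Subgroup ((ZMod N)ˣ ⧸ X) := Subgroup.closure ((fun i => π (ee i)) '' (B₀ : Set ℕ))
    have hK : ∀ p ∈ P, π (ee p) ∈ K := by
      intro p hp
      have h1 : (Subgroup.closure (insert (gmk hN hG χ w)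
          ((fun i => gmk hN hG χ (ee i)) '' (B₀ : Set ℕ)))) ≤ K.comap ρ := by
        rw [Subgroup.closure_le]
        rintro y (rfl | ⟨i, hi, rfl⟩)
        · change ρ (gmk hN hG χ w) ∈ K
          rw [hρ]
          have h2 : π w = 1 := (QuotientGroup.eq_one_iff w).mpr
            ((le_sup_right : UgS hN 2 ≤ X) hw)
          rw [h2]
          exact one_mem _
        · exact Subgroup.subset_closure ⟨i, hi, rfl⟩
      exact h1 (hcl p hp)
    have hle : f.range ≤ K := by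
      rintro _ ⟨x, rfl⟩
      change π (thTwo P ee he2 x) ∈ K
      rw [thTwo_apply, map_prod]
      refine Finset.prod_induction _ (fun y => y ∈ K) (fun a b ha hb => K.mul_mem ha hb)
        K.one_mem fun i _ => ?_
      rw [map_pow]
      exact K.pow_mem (hK i i.2) _
    have hfinQ : Finite ((ZMod N)ˣ ⧸ X) := inferInstance
    exact (Nat.le_of_dvd Nat.card_pos (Subgroup.card_dvd_of_le hle)).trans
      (card_closure_two B₀ (fun i => π (ee i)) hsq)
  have hcard := Subgroup.card_eq_card_quotient_mul_card_subgroup f.ker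
  have h4 : Nat.card ((P → Multiplicative (ZMod 2)) ⧸ f.ker) = Nat.card f.range :=
    Nat.card_congr (QuotientGroup.quotientKerEquivRange f).toEquiv
  rw [h4, card_two_fun] at hcard
  rw [hcard]
  exact Nat.mul_le_mul hrange hcount

end Pool.Agent.Helper606_LC
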