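import Mathlib
import Pool.Agent.Helper606_LC.FixC
import Pool.Agent.Helper606_LC.AutQ
import Pool.Agent.Helper606_LC.Comb5
import Pool.Agent.Helper606_LC.Six

/-!
# Missed primes and automizers
-/

set_option autoImplicit false
set_option linter.unusedSectionVars false

namespace Pool.Agent.Helper606_LC

open Pool.Agent.H541R3.ART Pool.Agent.W446.AS Pool.Agent.R389 Pool.Agent.H302R3

lemma ug_two {N a : ℕ} {u : (ZMod N)ˣ} {p : ℕ} (ha : 0 < a) (hu : u ∈ Ug N (p ^ a)) :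
    u ∈ Ug N p := by
  intro z hz h
  exact hu z hz fun h1 => h ((dvd_pow_self p ha.ne').trans h1)

/-- the bound for the missed primes -/
theorem rank_core {N : ℕ} (hN : 0 < N) {G : Type} [Group G] [Finite G] (hG : Nat.card G ∣ N)
    {χ : G → ℂ} (hχ : χ ∈ Irr G) {I : Finset ℕ} {a : ℕ → ℕ} (hI : ∀ p ∈ I, p.Prime)
    (ha : ∀ p ∈ I, 0 < a p) (hmov : ∀ p ∈ I, ∃ u ∈ Ug N (p ^ a p), pw u χ ≠ χ) :
    ∃ E ⊆ I, HasOrd χ (∏ p ∈ I \ E, p ^ a p) ∧
      (E = ∅ ∨ ∃ c : G, Odd (orderOf c) ∧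
        2 ^ (3 * E.card + 1) ≤
          Set.ncard {j : ZMod (orderOf c) | j ^ 2 = 1 ∧ IsConj c (c ^ j.val)}) ∧
      ∃ (Q : Finset ℕ) (M : ℕ → ℕ), E.card ≤ ∑ q ∈ Q, M q ∧ ∀ q ∈ Q, q.Prime ∧ q ≠ 2 ∧
        ∃ c : G, (orderOf c).Coprime q ∧ q ^ ((q - 1) * M q) ≤
          Set.ncard {j : ZMod (orderOf c) | j ^ q = 1 ∧ IsConj c (c ^ j.val)} := by
  classical
  have hfin := gam_finite hN hG χ
  have h1 : ∀ p ∈ I, ∃ v ∈ Ug N (p ^ a p), (orderOf (gmk hN hG χ v)).Prime := by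
    intro p hp
    obtain ⟨u, hu, hu1⟩ := hmov p hp
    exact exists_prime_order hN hG hu hu1
  choose! v hv hv1 using h1
  have hneg : ∀ p : ℕ, ∃ (c : (ZMod N)ˣ →* (ZMod N)ˣ) (e : (ZMod N)ˣ), e ^ 2 = 1 ∧
      (p.Prime → e ∈ Ug N p ∧ c e = e ∧
      (∀ r, r.Prime → r ≠ p → ∀ w ∈ Ug N r, c w = 1) ∧
      (∀ k, ∀ z : ℂ, z ^ N = 1 → orderOf z = p → z ^ (c k : ZMod N).val = z ^ (k : ZMod N).val) ∧
      ∀ z : ℂ, z ^ N = 1 → orderOf z = p → z ^ (e : ZMod N).val = z → p = 2) := by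
    intro p
    by_cases hp : p.Prime
    · obtain ⟨c, e, h1, h2, h3, h4, h5, h6⟩ := exists_neg hN hp
      exact ⟨c, e, h1, fun _ => ⟨h2, h3, h4, h5, h6⟩⟩
    · exact ⟨1, 1, one_pow 2, fun h => absurd h hp⟩
  choose cc ee he2 hprop using hneg
  let R : ℕ → Prop := fun p => p ≠ 2 ∧ a p = 1 ∧ gmk hN hG χ (ee p) ≠ 1
  let v' : ℕ → (ZMod N)ˣ := fun p => if R p then ee p else v p
  let β : ℕ → Gam hN hG χ := fun p => gmk hN hG χ (v' p)
  have hv'R : ∀ p, R p → v' p = ee p := fun p hp => if_pos hp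
  have hv'n : ∀ p, ¬ R p → v' p = v p := fun p hp => if_neg hp
  have hee2 : ∀ p, gmk hN hG χ (ee p) ^ 2 = 1 := fun p => by rw [← map_pow, he2, map_one]
  have hF3 : ∀ p, R p → orderOf (β p) = 2 := by
    intro p hp
    change orderOf (gmk hN hG χ (v' p)) = 2
    rw [hv'R p hp]
    exact orderOf_eq_prime (hee2 p) hp.2.2
  have hF1 : ∀ p ∈ I, v' p ∈ Ug N (p ^ a p) := by
    intro p hp
    by_cases hR : R p
    · rw [hv'R p hR, hR.2.1, pow_one]
      exact (hprop p (hI p hp)).1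
    · rw [hv'n p hR]
      exact hv p hp
  have hF2 : ∀ p ∈ I, (orderOf (β p)).Prime := by
    intro p hp
    by_cases hR : R p
    · rw [hF3 p hR]
      exact Nat.prime_two
    · change (orderOf (gmk hN hG χ (v' p))).Prime
      rw [hv'n p hR]
      exact hv1 p hp
  have hF5 : ∀ p ∈ I, 2 ≤ a p ∨ p = 2 → orderOf (β p) = p := by
    intro p hp h
    exact ug_order hN (hI p hp) (ha p hp) h (hF1 p hp) (gmk hN hG χ) (hF2 p hp)
  -- the classes
  let B := I.filter R
  let A₂ := I.filter fun p => p ≠ 2 ∧ a p = 1 ∧ gmk hN hG χ (ee p) = 1 ∧ orderOf (β p) = 2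
  let O := I.filter fun p => orderOf (β p) ≠ 2
  let O₁ := O.filter fun p => a p = 1
  have hBI : ∀ p ∈ B, p ∈ I ∧ R p := fun p hp => Finset.mem_filter.mp hp
  have hAI : ∀ p ∈ A₂, p ∈ I ∧ p ≠ 2 ∧ a p = 1 ∧ gmk hN hG χ (ee p) = 1 ∧ orderOf (β p) = 2 :=
    fun p hp => Finset.mem_filter.mp hp
  have hOI : ∀ p ∈ O, p ∈ I ∧ orderOf (β p) ≠ 2 := fun p hp => Finset.mem_filter.mp hp
  have hO1 : ∀ p ∈ O₁, p ∈ O ∧ a p = 1 := fun p hp => Finset.mem_filter.mp hp
  have hO2 : ∀ p ∈ O, p ≠ 2 := by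
    rintro p hp rfl
    exact (hOI 2 hp).2 (hF5 2 (hOI 2 hp).1 (Or.inr rfl))
  have hOe : ∀ p ∈ O₁, gmk hN hG χ (ee p) = 1 := by
    intro p hp
    by_contra h
    exact (hOI p (hO1 p hp).1).2 (hF3 p ⟨hO2 p (hO1 p hp).1, (hO1 p hp).2, h⟩)
  -- characters modulo three
  let w : (ZMod N)ˣ := if 2 ∈ I then v 2 else 1
  have hR2 : ¬ R 2 := fun h => h.1 rfl
  have hβ2 : β 2 = gmk hN hG χ (v 2) := by
    change gmk hN hG χ (v' 2) = _
    rw [hv'n 2 hR2]
  have hw : w ∈ Ug N 2 := by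
    by_cases h2 : 2 ∈ I
    · change (if 2 ∈ I then v 2 else 1) ∈ Ug N 2
      rw [if_pos h2]
      exact ug_two (ha 2 h2) (hv 2 h2)
    · change (if 2 ∈ I then v 2 else 1) ∈ Ug N 2
      rw [if_neg h2]
      exact ug_one hN
  have hwI : 2 ∈ I → gmk hN hG χ w = β 2 := by
    intro h2
    rw [hβ2]
    change gmk hN hG χ (if 2 ∈ I then v 2 else 1) = _
    rw [if_pos h2]
  have hz2 : gmk hN hG χ w ^ 2 = 1 := by
    by_cases h2 : 2 ∈ I
    · have h3 := pow_orderOf_eq_one (β 2)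
      rw [hF5 2 h2 (Or.inr rfl)] at h3
      rw [hwI h2]
      exact h3
    · change gmk hN hG χ (if 2 ∈ I then v 2 else 1) ^ 2 = 1
      rw [if_neg h2, map_one, one_pow]
  have : Fact (Nat.Prime 3) := ⟨Nat.prime_three⟩
  obtain ⟨B₀, ψ₂, hB₀, hψz, hψt, hcl⟩ := greedy (ℓ := 3) (by norm_num) (gmk hN hG χ w) hz2 B
    (fun i => gmk hN hG χ (ee i)) (fun i _ => hee2 i)
  let T3 := O.filter fun p => orderOf (β p) ≠ 3
  have hT3 : ∀ p ∈ T3, p ∈ O ∧ orderOf (β p) ≠ 3 := fun p hp => Finset.mem_filter.mp hp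
  obtain ⟨ψ₃, hψ₃⟩ := miss_gam (ℓ := 3) T3 β (fun p hp => hF2 p (hOI p (hT3 p hp).1).1)
    (fun p hp => (hT3 p hp).2)
  obtain ⟨Ψ, hΨo, hΨ2⟩ := combine_two ψ₃ ψ₂
  let E3 := I.filter fun p => orderOf (β p) ≠ 3 ∧ Ψ (β p) = 1
  have hE3 : HasOrd χ (∏ p ∈ I \ E3, p ^ a p) := by
    obtain ⟨K, μ, h2, h3⟩ := crit hN hG Nat.prime_three hχ (I := I \ E3) (m := fun p => p ^ a p)
      (β := β) (fun p hp => ⟨v' p, hF1 p (Finset.mem_sdiff.mp hp).1, rfl⟩) Ψ (by
        intro p hp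
        obtain ⟨hp1, hp2⟩ := Finset.mem_sdiff.mp hp
        by_cases h3 : orderOf (β p) = 3
        · right; rw [h3]
        · left
          intro h4
          exact hp2 (Finset.mem_filter.mpr ⟨hp1, h3, h4⟩))
    exact ⟨K, μ, h2, prod_dvd_of_forall (fun p hp => hI p (Finset.mem_sdiff.mp hp).1) h3⟩
  -- characters modulo two
  let Q : Finset ℕ := O.image fun p => orderOf (β p)
  have hQp : ∀ q ∈ Q, q.Prime ∧ q ≠ 2 := by
    intro q hq
    obtain ⟨p, hp, rfl⟩ := Finset.mem_image.mp hq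
    exact ⟨hF2 p (hOI p hp).1, (hOI p hp).2⟩
  obtain ⟨ψA, hψA⟩ := miss_gam (ℓ := 2) O β (fun p hp => hF2 p (hOI p hp).1)
    (fun p hp => (hOI p hp).2)
  let Tq : ℕ → Finset ℕ := fun q => (O.filter fun p => orderOf (β p) = q).erase q
  have hTq : ∀ q, ∀ p ∈ Tq q, p ∈ O ∧ orderOf (β p) = q ∧ p ≠ q := by
    intro q p hp
    obtain ⟨hp1, hp2⟩ := Finset.mem_erase.mp hp
    obtain ⟨hp3, hp4⟩ := Finset.mem_filter.mp hp2
    exact ⟨hp3, hp4, hp1⟩
  have hβO : ∀ p ∈ O, β p = gmk hN hG χ (v p) := by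
    intro p hp
    change gmk hN hG χ (v' p) = _
    rw [hv'n p fun h => (hOI p hp).2 (hF3 p h)]
  let wq : ℕ → (ZMod N)ˣ := fun q => if q ∈ O ∧ orderOf (β q) = q then v q else 1
  have hwq1 : ∀ q, (q ∈ O ∧ orderOf (β q) = q) → gmk hN hG χ (wq q) = β q := by
    intro q hq
    change gmk hN hG χ (if q ∈ O ∧ orderOf (β q) = q then v q else 1) = _
    rw [if_pos hq, hβO q hq.1]
  have hwq2 : ∀ q, gmk hN hG χ (wq q) ^ q = 1 := by
    intro q
    by_cases hq : q ∈ O ∧ orderOf (β q) = q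
    · have h3 := pow_orderOf_eq_one (β q)
      rw [hq.2] at h3
      rw [hwq1 q hq]
      exact h3
    · change gmk hN hG χ (if q ∈ O ∧ orderOf (β q) = q then v q else 1) ^ q = 1
      rw [if_neg hq, map_one, one_pow]
  have hwq3 : ∀ q, wq q ∈ Ug N q := by
    intro q
    by_cases hq : q ∈ O ∧ orderOf (β q) = q
    · change (if q ∈ O ∧ orderOf (β q) = q then v q else 1) ∈ Ug N q
      rw [if_pos hq]
      exact ug_two (ha q (hOI q hq.1).1) (hv q (hOI q hq.1).1)
    · change (if q ∈ O ∧ orderOf (β q) = q then v q else 1) ∈ Ug N q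
      rw [if_neg hq]
      exact ug_one hN
  have hkey : ∀ q : ℕ, ∃ (ψ : Gam hN hG χ →* (AlgebraicClosure (ZMod 2))ˣ) (B₁ : Finset ℕ), q ∈ Q →
      q * (O.filter fun p => orderOf (β p) = q ∧ ψ (β p) = 1).card + 1
        ≤ (O.filter fun p => orderOf (β p) = q).card ∧ B₁ ⊆ Tq q ∧
      (∀ i ∈ Tq q, β i ∈ Subgroup.closure (insert (gmk hN hG χ (wq q)) (β '' (B₁ : Set ℕ)))) ∧
      (q - 1) * (O.filter fun p => orderOf (β p) = q ∧ ψ (β p) = 1).card + B₁.card
        ≤ (Tq q).card := by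
    intro q
    by_cases hq : q ∈ Q
    swap
    · exact ⟨1, ∅, fun h => absurd h hq⟩
    obtain ⟨hqp, hq2⟩ := hQp q hq
    obtain ⟨B₁, ψb, hB₁, hψbz, hclb, hineq⟩ := greedy_pr (ℓ := 2) hqp hq2.symm
      (gmk hN hG χ (wq q)) (hwq2 q) (Tq q) β (fun i hi => by
        have h3 := pow_orderOf_eq_one (β i)
        rwa [(hTq q i hi).2.1] at h3) (fun i hi h3 => by
        have h4 := (hTq q i hi).2.1
        rw [h3, orderOf_one] at h4
        exact hqp.one_lt.ne h4)
    have hMb : (O.filter fun p => orderOf (β p) = q ∧ ψb (β p) = 1).card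
        ≤ ((Tq q).filter fun i => ψb (β i) = 1).card := by
      apply Finset.card_le_card
      intro p hp
      obtain ⟨hp1, hp2, hp3⟩ := Finset.mem_filter.mp hp
      refine Finset.mem_filter.mpr ⟨Finset.mem_erase.mpr ⟨?_, Finset.mem_filter.mpr ⟨hp1, hp2⟩⟩, hp3⟩
      rintro rfl
      have h3 := hwq1 p ⟨hp1, hp2⟩
      rw [h3] at hψbz
      refine hψbz (fun h4 => ?_) hp3
      rw [h4, orderOf_one] at hp2
      exact hqp.one_lt.ne hp2
    have hMb' := Nat.mul_le_mul_left (q - 1) hMb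
    have hA : q * (O.filter fun p => orderOf (β p) = q ∧ ψA (β p) = 1).card + 1
        ≤ (O.filter fun p => orderOf (β p) = q).card := by
      obtain ⟨p, hp, rfl⟩ := Finset.mem_image.mp hq
      exact hψA p hp
    rcases le_total (O.filter fun p => orderOf (β p) = q ∧ ψA (β p) = 1).card
      (O.filter fun p => orderOf (β p) = q ∧ ψb (β p) = 1).card with h | h
    · have h3 := Nat.mul_le_mul_left (q - 1) h
      exact ⟨ψA, B₁, fun _ => ⟨hA, hB₁, hclb, by omega⟩⟩
    · have h3 := Nat.mul_le_mul_left q h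
      exact ⟨ψb, B₁, fun _ => ⟨by omega, hB₁, hclb, by omega⟩⟩
  choose ψq B₁ hkey using hkey
  obtain ⟨ψE, hψE'⟩ := glue_char O β (fun p hp => hF2 p (hOI p hp).1) ψq
  have hψEq : ∀ q, (O.filter fun p => orderOf (β p) = q ∧ ψE (β p) = 1)
      = O.filter fun p => orderOf (β p) = q ∧ ψq q (β p) = 1 := by
    intro q
    apply Finset.filter_congr
    intro p hp
    constructor
    · rintro ⟨rfl, h3⟩
      exact ⟨rfl, (hψE' p hp).mp h3⟩
    · rintro ⟨rfl, h3⟩
      exact ⟨rfl, (hψE' p hp).mpr h3⟩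
  let E2 := O.filter fun p => ψE (β p) = 1
  have hE2I : E2 ⊆ I := (Finset.filter_subset _ _).trans (Finset.filter_subset _ _)
  have hE2 : HasOrd χ (∏ p ∈ I \ E2, p ^ a p) := by
    obtain ⟨K, μ, h2, h3⟩ := crit hN hG Nat.prime_two hχ (I := I \ E2) (m := fun p => p ^ a p)
      (β := β) (fun p hp => ⟨v' p, hF1 p (Finset.mem_sdiff.mp hp).1, rfl⟩) ψE (by
        intro p hp
        obtain ⟨hp1, hp2⟩ := Finset.mem_sdiff.mp hp
        by_cases h3 : orderOf (β p) = 2
        · right; rw [h3]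
        · left
          intro h4
          exact hp2 (Finset.mem_filter.mpr ⟨Finset.mem_filter.mpr ⟨hp1, h3⟩, h4⟩))
    exact ⟨K, μ, h2, prod_dvd_of_forall (fun p hp => hI p (Finset.mem_sdiff.mp hp).1) h3⟩
  obtain ⟨ψ₁, hψ₁⟩ := miss_gam (ℓ := 2) O₁ β (fun p hp => hF2 p (hOI p (hO1 p hp).1).1)
    (fun p hp => (hOI p (hO1 p hp).1).2)
  let F₁ := O₁.filter fun p => ψ₁ (β p) ≠ 1
  have hF₁ : ∀ p ∈ F₁, p ∈ O₁ ∧ ψ₁ (β p) ≠ 1 := fun p hp => Finset.mem_filter.mp hp
  let P := (A₂ ∪ B) ∪ F₁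
  have hPc : ∀ p ∈ P, p ∈ A₂ ∨ p ∈ B ∨ p ∈ F₁ := by
    intro p hp
    rcases Finset.mem_union.mp hp with h | h
    · rcases Finset.mem_union.mp h with h | h
      · exact Or.inl h
      · exact Or.inr (Or.inl h)
    · exact Or.inr (Or.inr h)
  have hPI : ∀ p ∈ P, p ∈ I ∧ p ≠ 2 ∧ a p = 1 := by
    intro p hp
    rcases hPc p hp with h | h | h
    · exact ⟨(hAI p h).1, (hAI p h).2.1, (hAI p h).2.2.1⟩
    · exact ⟨(hBI p h).1, (hBI p h).2.1, (hBI p h).2.2.1⟩
    · have h2 := hO1 p (hF₁ p h).1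
      exact ⟨(hOI p h2.1).1, hO2 p h2.1, h2.2⟩
  obtain ⟨c, hco, hcard⟩ := fixed_count hN hG hχ (P := P) (B₀ := B₀)
    (fun p hp => hI p (hPI p hp).1) (fun p hp => (hPI p hp).2.1) cc ee he2
    (fun p hp => (hprop p (hI p (hPI p hp).1)).1)
    (fun p hp => (hprop p (hI p (hPI p hp).1)).2.1)
    (fun p hp => (hprop p (hI p (hPI p hp).1)).2.2.1)
    (fun p hp => (hprop p (hI p (hPI p hp).1)).2.2.2.1)
    (fun p hp => (hprop p (hI p (hPI p hp).1)).2.2.2.2) hw (by
      intro p hp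
      rcases hPc p hp with h | h | h
      · rw [(hAI p h).2.2.2.1]
        exact one_mem _
      · exact hcl p h
      · rw [hOe p (hF₁ p h).1]
        exact one_mem _) ψ₁ (by
      intro p hp
      refine ⟨v' p, ?_, ?_⟩
      · have h2 := hF1 p (hPI p hp).1
        rwa [(hPI p hp).2.2, pow_one] at h2
      · rcases hPc p hp with h | h | h
        · right
          change 2 ∣ orderOf (β p)
          rw [(hAI p h).2.2.2.2]
        · right
          change 2 ∣ orderOf (β p)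
          rw [hF3 p (hBI p h).2]
        · left
          exact (hF₁ p h).2)
  -- the numbers
  let K : ℕ → ℕ := fun q => (O.filter fun p => orderOf (β p) = q).card
  let K' : ℕ → ℕ := fun q => (O₁.filter fun p => orderOf (β p) = q).card
  let M' : ℕ → ℕ := fun q => (O₁.filter fun p => orderOf (β p) = q ∧ ψ₁ (β p) = 1).card
  let M₂ : ℕ → ℕ := fun q => (O.filter fun p => orderOf (β p) = q ∧ ψE (β p) = 1).card
  let M₃ : ℕ → ℕ := fun q => (T3.filter fun p => orderOf (β p) = q ∧ ψ₃ (β p) = 1).card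
  have hQ : ∀ q ∈ Q, q = 3 ∨ 5 ≤ q := by
    intro q hq
    obtain ⟨p, hp, rfl⟩ := Finset.mem_image.mp hq
    have h2 := hF2 p (hOI p hp).1
    have h3 := h2.two_le
    have h4 := (hOI p hp).2
    have h5 : orderOf (β p) ≠ 4 := by
      intro h
      rw [h] at h2
      exact absurd h2 (by norm_num)
    change orderOf (β p) = 3 ∨ 5 ≤ orderOf (β p)
    omega
  have h2 : ∀ q ∈ Q, q * M₂ q + 1 ≤ K q := by
    intro q hq
    change q * (O.filter fun p => orderOf (β p) = q ∧ ψE (β p) = 1).card + 1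
      ≤ (O.filter fun p => orderOf (β p) = q).card
    rw [hψEq q]
    exact (hkey q hq).1
  have hodd : ∀ q ∈ Q, q.Prime ∧ q ≠ 2 ∧
      ∃ c : G, (orderOf c).Coprime q ∧ q ^ ((q - 1) * M₂ q) ≤
        Set.ncard {j : ZMod (orderOf c) | j ^ q = 1 ∧ IsConj c (c ^ j.val)} := by
    intro q hq
    obtain ⟨hqp, hq2⟩ := hQp q hq
    obtain ⟨-, hB₁, hclb, hineq⟩ := hkey q hq
    obtain ⟨c, hc1, hc2⟩ := fixed_count_pr hN hG hχ hqp (P := Tq q) (B₀ := B₁ q)
      (fun p hp => hI p (hOI p (hTq q p hp).1).1) (fun p hp => (hTq q p hp).2.2) v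
      (fun p hp => ug_two (ha p (hOI p (hTq q p hp).1).1) (hv p (hOI p (hTq q p hp).1).1))
      (fun p hp => by rw [← hβO p (hTq q p hp).1]; exact (hTq q p hp).2.1) hB₁ (hwq3 q) (by
        intro p hp
        rw [← hβO p (hTq q p hp).1]
        have h3 : (fun i => gmk hN hG χ (v i)) '' (B₁ q : Set ℕ) = β '' (B₁ q : Set ℕ) :=
          Set.image_congr fun i hi => (hβO i (hTq q i (hB₁ (Finset.mem_coe.mp hi))).1).symm
        rw [h3]
        exact hclb p hp)
    refine ⟨hqp, hq2, c, hc1, ?_⟩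
    have h3 : q ^ (B₁ q).card * q ^ ((q - 1) * M₂ q) ≤ q ^ (B₁ q).card *
        Set.ncard {j : ZMod (orderOf c) | j ^ q = 1 ∧ IsConj c (c ^ j.val)} := by
      rw [← pow_add]
      refine (Nat.pow_le_pow_right hqp.pos ?_).trans hc2
      change (B₁ q).card + (q - 1) * (O.filter fun p => orderOf (β p) = q ∧ ψE (β p) = 1).card ≤ _
      rw [hψEq q, add_comm]
      exact hineq
    exact Nat.le_of_mul_le_mul_left h3 (pow_pos hqp.pos _)
  have h3 : ∀ q ∈ Q, q ≠ 3 → q * M₃ q + 1 ≤ K q := by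
    intro q hq hq3
    obtain ⟨p, hp, rfl⟩ := Finset.mem_image.mp hq
    refine (hψ₃ p (Finset.mem_filter.mpr ⟨hp, hq3⟩)).trans ?_
    refine Finset.card_le_card fun i hi => ?_
    obtain ⟨h4, h5⟩ := Finset.mem_filter.mp hi
    exact Finset.mem_filter.mpr ⟨(hT3 i h4).1, h5⟩
  have hK : ∀ q ∈ Q, K q ≤ K' q + 1 := by
    intro q _
    have h4 : (O.filter fun p => orderOf (β p) = q)
        ⊆ (O₁.filter fun p => orderOf (β p) = q) ∪ {q} := by
      intro p hp
      obtain ⟨hp1, hp2⟩ := Finset.mem_filter.mp hp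
      by_cases hap : a p = 1
      · exact Finset.mem_union_left _ (Finset.mem_filter.mpr
          ⟨Finset.mem_filter.mpr ⟨hp1, hap⟩, hp2⟩)
      · apply Finset.mem_union_right
        rw [Finset.mem_singleton]
        have h5 := ha p (hOI p hp1).1
        have h6 := hF5 p (hOI p hp1).1 (Or.inl (by omega))
        rw [← h6, hp2]
    exact (Finset.card_le_card h4).trans ((Finset.card_union_le _ _).trans
      (by rw [Finset.card_singleton]))
  have hM : ∀ q ∈ Q, 0 < K' q → q * M' q + 1 ≤ K' q := by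
    intro q _ hq
    obtain ⟨p, hp⟩ := Finset.card_pos.mp hq
    obtain ⟨hp1, rfl⟩ := Finset.mem_filter.mp hp
    exact hψ₁ p hp1
  have hk2 : E2.card = ∑ q ∈ Q, M₂ q := by
    rw [Finset.card_eq_sum_card_fiberwise (s := E2) (t := Q) (f := fun p => orderOf (β p))]
    · refine Finset.sum_congr rfl fun q _ => ?_
      congr 1
      ext p
      constructor
      · intro hp
        obtain ⟨hp1, hp2⟩ := Finset.mem_filter.mp hp
        obtain ⟨hp3, hp4⟩ := Finset.mem_filter.mp hp1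
        exact Finset.mem_filter.mpr ⟨hp3, hp2, hp4⟩
      · intro hp
        obtain ⟨hp1, hp2, hp3⟩ := Finset.mem_filter.mp hp
        exact Finset.mem_filter.mpr ⟨Finset.mem_filter.mpr ⟨hp1, hp3⟩, hp2⟩
    · intro p hp
      exact Finset.mem_coe.mpr (Finset.mem_image.mpr
        ⟨p, (Finset.mem_filter.mp (Finset.mem_coe.mp hp)).1, rfl⟩)
  have hk3 : E3.card ≤ (A₂.card + (B.card - B₀.card)) + ∑ q ∈ Q.erase 3, M₃ q := by
    let Z := T3.filter fun p => ψ₃ (β p) = 1
    have hsub : E3 ⊆ (A₂ ∪ (B \ B₀)) ∪ Z := by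
      intro p hp
      obtain ⟨hp1, hp2, hp3⟩ := Finset.mem_filter.mp hp
      by_cases ho : orderOf (β p) = 2
      · apply Finset.mem_union_left
        have hp2' : p ≠ 2 := by
          rintro rfl
          have h4 : gmk hN hG χ w ≠ 1 := by
            rw [hwI hp1]
            intro h5
            rw [h5, orderOf_one] at ho
            omega
          apply hψz h4
          rw [← hΨ2 _ hz2, hwI hp1]
          exact hp3
        have hap : a p = 1 := by
          by_contra h4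
          have h5 := ha p hp1
          have h6 := hF5 p hp1 (Or.inl (by omega))
          exact hp2' (h6.symm.trans ho)
        by_cases he : gmk hN hG χ (ee p) = 1
        · exact Finset.mem_union_left _ (Finset.mem_filter.mpr ⟨hp1, hp2', hap, he, ho⟩)
        · apply Finset.mem_union_right
          have hRp : R p := ⟨hp2', hap, he⟩
          refine Finset.mem_sdiff.mpr ⟨Finset.mem_filter.mpr ⟨hp1, hRp⟩, fun h4 => ?_⟩
          apply hψt p h4
          rw [← hΨ2 _ (hee2 p)]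
          have h5 : β p = gmk hN hG χ (ee p) := by
            change gmk hN hG χ (v' p) = _
            rw [hv'R p hRp]
          rw [← h5]
          exact hp3
      · apply Finset.mem_union_right
        refine Finset.mem_filter.mpr ⟨Finset.mem_filter.mpr
          ⟨Finset.mem_filter.mpr ⟨hp1, ho⟩, hp2⟩, ?_⟩
        rw [← hΨo _ ((hF2 p hp1).odd_of_ne_two ho)]
        exact hp3
    have hZ : Z.card = ∑ q ∈ Q.erase 3, M₃ q := by
      rw [Finset.card_eq_sum_card_fiberwise (s := Z) (t := Q.erase 3) (f := fun p => orderOf (β p))]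
      · refine Finset.sum_congr rfl fun q _ => ?_
        congr 1
        ext p
        constructor
        · intro hp
          obtain ⟨hp1, hp2⟩ := Finset.mem_filter.mp hp
          obtain ⟨hp3, hp4⟩ := Finset.mem_filter.mp hp1
          exact Finset.mem_filter.mpr ⟨hp3, hp2, hp4⟩
        · intro hp
          obtain ⟨hp1, hp2, hp3⟩ := Finset.mem_filter.mp hp
          exact Finset.mem_filter.mpr ⟨Finset.mem_filter.mpr ⟨hp1, hp3⟩, hp2⟩
      · intro p hp
        have hp1 := (Finset.mem_filter.mp (Finset.mem_coe.mp hp)).1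
        exact Finset.mem_coe.mpr (Finset.mem_erase.mpr ⟨(hT3 p hp1).2,
          Finset.mem_image.mpr ⟨p, (hT3 p hp1).1, rfl⟩⟩)
    have h4 := Finset.card_le_card hsub
    have h5 := Finset.card_union_le (A₂ ∪ (B \ B₀)) Z
    have h6 := Finset.card_union_le A₂ (B \ B₀)
    have h7 := Finset.card_sdiff_of_subset hB₀
    omega
  have hF₁card : F₁.card = ∑ q ∈ Q, (K' q - M' q) := by
    rw [Finset.card_eq_sum_card_fiberwise (s := F₁) (t := Q) (f := fun p => orderOf (β p))]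
    · refine Finset.sum_congr rfl fun q _ => ?_
      have h4 : (F₁.filter fun p => orderOf (β p) = q).card + M' q = K' q := by
        have h5 : (F₁.filter fun p => orderOf (β p) = q)
            = (O₁.filter fun p => orderOf (β p) = q).filter fun p => ¬ ψ₁ (β p) = 1 := by
          ext p
          constructor
          · intro hp
            obtain ⟨hp1, hp2⟩ := Finset.mem_filter.mp hp
            exact Finset.mem_filter.mpr ⟨Finset.mem_filter.mpr ⟨(hF₁ p hp1).1, hp2⟩, (hF₁ p hp1).2⟩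
          · intro hp
            obtain ⟨hp1, hp2⟩ := Finset.mem_filter.mp hp
            obtain ⟨hp3, hp4⟩ := Finset.mem_filter.mp hp1
            exact Finset.mem_filter.mpr ⟨Finset.mem_filter.mpr ⟨hp3, hp2⟩, hp4⟩
        have h6 : (O₁.filter fun p => orderOf (β p) = q ∧ ψ₁ (β p) = 1)
            = (O₁.filter fun p => orderOf (β p) = q).filter fun p => ψ₁ (β p) = 1 :=
          (Finset.filter_filter _ _ _).symm
        change (F₁.filter fun p => orderOf (β p) = q).card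
          + (O₁.filter fun p => orderOf (β p) = q ∧ ψ₁ (β p) = 1).card
          = (O₁.filter fun p => orderOf (β p) = q).card
        rw [h5, h6, add_comm]
        exact Finset.card_filter_add_card_filter_not _
      omega
    · intro p hp
      exact Finset.mem_coe.mpr (Finset.mem_image.mpr
        ⟨p, (hO1 p (hF₁ p (Finset.mem_coe.mp hp)).1).1, rfl⟩)
  have hPcard : P.card = A₂.card + B.card + F₁.card := by
    have h4 : Disjoint A₂ B := by
      rw [Finset.disjoint_left]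
      intro p hp hp'
      exact (hBI p hp').2.2.2 (hAI p hp).2.2.2.1
    have h5 : Disjoint (A₂ ∪ B) F₁ := by
      rw [Finset.disjoint_left]
      intro p hp hp'
      have h6 := (hOI p (hO1 p (hF₁ p hp').1).1).2
      rcases Finset.mem_union.mp hp with h | h
      · exact h6 (hAI p h).2.2.2.2
      · exact h6 (hF3 p (hBI p h).2)
    change ((A₂ ∪ B) ∪ F₁).card = _
    rw [Finset.card_union_of_disjoint h5, Finset.card_union_of_disjoint h4]
  have hB₀B := Finset.card_le_card hB₀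
  have hend : ∀ k : ℕ, k ≤ E2.card → k ≤ E3.card → 0 < k →
      2 ^ (3 * k + 1) ≤ Set.ncard {j : ZMod (orderOf c) | j ^ 2 = 1 ∧ IsConj c (c ^ j.val)} := by
    intro k hk hk' hk0
    have h4 := num_three Q hQ K K' M' M₂ M₃ h2 h3 hK hM (k := k)
      (dep := A₂.card + (B.card - B₀.card)) hk0 (by rw [← hk2]; exact hk) (hk'.trans hk3)
    have h5 : B₀.card + (3 * k + 1) ≤ P.card := by
      rw [hPcard, hF₁card]
      omega
    have h6 : 2 ^ B₀.card * 2 ^ (3 * k + 1) ≤ 2 ^ B₀.card *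
        Set.ncard {j : ZMod (orderOf c) | j ^ 2 = 1 ∧ IsConj c (c ^ j.val)} := by
      rw [← pow_add]
      exact (Nat.pow_le_pow_right (by norm_num) h5).trans hcard
    exact Nat.le_of_mul_le_mul_left h6 (by positivity)
  rcases le_total E2.card E3.card with h | h
  · refine ⟨E2, hE2I, hE2, ?_, Q, M₂, hk2.le, hodd⟩
    by_cases h0 : E2 = ∅
    · exact Or.inl h0
    · exact Or.inr ⟨c, hco, hend _ le_rfl h
        (Finset.card_pos.mpr (Finset.nonempty_iff_ne_empty.mpr h0))⟩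
  · refine ⟨E3, Finset.filter_subset _ _, hE3, ?_, Q, M₂, h.trans hk2.le, hodd⟩
    by_cases h0 : E3 = ∅
    · exact Or.inl h0
    · exact Or.inr ⟨c, hco, hend _ h le_rfl
        (Finset.card_pos.mpr (Finset.nonempty_iff_ne_empty.mpr h0))⟩

end Pool.Agent.Helper606_LC
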