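import Mathlib
import Pool.Agent.Helper606_LC.Rank

/-!
# Divisors of the conductor and automizers of cyclic subgroups
-/

set_option autoImplicit false
set_option linter.unusedSectionVars false

namespace Pool.Agent.Helper606_LC

open Pool.Agent.H541R3.ART Pool.Agent.W446.AS Pool.Agent.R389

/-- the bounds for the missed primes, for divisors of the conductor -/
theorem rank_cond {G : Type} [Group G] [Finite G] {χ : G → ℂ} (hχ : χ ∈ Irr G) {n : ℕ}
    (hn : 0 < n) (h : ∀ g, χ g ∈ Qc n)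
    (hmin : ∀ m : ℕ, 0 < m → (∀ g, χ g ∈ Qc m) → n ≤ m) {d : ℕ} (hd : d ∣ n) :
    ∃ e : ℕ, e ∣ d ∧ Nat.Coprime e (d / e) ∧ HasOrd χ e ∧
      (e = d ∨ ∃ c : G, Odd (orderOf c) ∧
        2 ^ (3 * (d / e).primeFactors.card + 1) ≤
          Set.ncard {j : ZMod (orderOf c) | j ^ 2 = 1 ∧ IsConj c (c ^ j.val)}) ∧
      ∃ (Q : Finset ℕ) (M : ℕ → ℕ), (d / e).primeFactors.card ≤ ∑ q ∈ Q, M q ∧
        ∀ q ∈ Q, q.Prime ∧ q ≠ 2 ∧
        ∃ c : G, (orderOf c).Coprime q ∧ q ^ ((q - 1) * M q) ≤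
          Set.ncard {j : ZMod (orderOf c) | j ^ q = 1 ∧ IsConj c (c ^ j.val)} := by
  classical
  have hd0 : d ≠ 0 := by
    rintro rfl
    rw [zero_dvd_iff] at hd
    omega
  have hN : 0 < Nat.card G * n := Nat.mul_pos Nat.card_pos hn
  have hpr : ∀ p ∈ d.primeFactors, p.Prime := fun p hp => Nat.prime_of_mem_primeFactors hp
  have hpos : ∀ p ∈ d.primeFactors, 0 < d.factorization p := fun p hp =>
    (hpr p hp).factorization_pos_of_dvd hd0 (Nat.dvd_of_mem_primeFactors hp)
  obtain ⟨E, hEI, h1, h2, h3⟩ := rank_core hN (dvd_mul_right (Nat.card G) n) hχ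
    (I := d.primeFactors) (a := d.factorization) hpr hpos
    (fun p hp => exists_mov hN (dvd_mul_right _ _) hχ hn (dvd_mul_left _ _) h hmin (hpr p hp)
      (hpos p hp) ((Nat.ordProj_dvd d p).trans hd))
  have hprod : (∏ p ∈ d.primeFactors \ E, p ^ d.factorization p) * ∏ p ∈ E, p ^ d.factorization p
      = d := by
    rw [Finset.prod_sdiff hEI]
    exact Nat.prod_factorization_pow_eq_self hd0
  set e := ∏ p ∈ d.primeFactors \ E, p ^ d.factorization p with he
  set f := ∏ p ∈ E, p ^ d.factorization p with hf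
  have he0 : 0 < e := Finset.prod_pos fun p hp =>
    pow_pos (hpr p (Finset.mem_sdiff.mp hp).1).pos _
  have hdiv : d / e = f := by
    rw [← hprod, Nat.mul_div_cancel_left _ he0]
  have hfac : f.primeFactors = E := by
    ext q
    rw [Nat.mem_primeFactors]
    constructor
    · rintro ⟨hq, hqf, -⟩
      obtain ⟨p, hp, hqp⟩ := (Prime.dvd_finsetProd_iff hq.prime _).mp hqf
      have h3 := (Nat.prime_dvd_prime_iff_eq hq (hpr p (hEI hp))).mp (hq.dvd_of_dvd_pow hqp)
      rw [h3]; exact hp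
    · intro hq
      refine ⟨hpr q (hEI hq), ?_, ?_⟩
      · exact (dvd_pow_self q (hpos q (hEI hq)).ne').trans
          (Finset.dvd_prod_of_mem (fun p => p ^ d.factorization p) hq)
      · exact (Finset.prod_pos fun p hp => pow_pos (hpr p (hEI hp)).pos _).ne'
  have hco : Nat.Coprime e f := by
    rw [he, hf]
    refine Nat.Coprime.prod_left fun p hp => Nat.Coprime.prod_right fun q hq => ?_
    refine Nat.Coprime.pow _ _ ((Nat.coprime_primes (hpr p (Finset.mem_sdiff.mp hp).1)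
      (hpr q (hEI hq))).mpr ?_)
    rintro rfl
    exact (Finset.mem_sdiff.mp hp).2 hq
  refine ⟨e, ⟨f, hprod.symm⟩, by rw [hdiv]; exact hco, h1, ?_, by rw [hdiv, hfac]; exact h3⟩
  rcases h2 with h2 | h2
  · left
    rw [← hprod, hf, h2, Finset.prod_empty, mul_one]
  · right
    rw [hdiv, hfac]
    exact h2

/-- a prime which divides the order of an automizer divides the order of the group -/
lemma dvd_of_one_lt_ncard {G : Type} [Group G] [Finite G] {q : ℕ} (hq : q.Prime) {c : G}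
    (h : 1 < Set.ncard {j : ZMod (orderOf c) | j ^ q = 1 ∧ IsConj c (c ^ j.val)}) :
    q ∣ Nat.card G := by
  have hm : 0 < orderOf c := orderOf_pos c
  have hm' : NeZero (orderOf c) := ⟨hm.ne'⟩
  obtain ⟨a, ha, b, hb, hab⟩ := (Set.one_lt_ncard (Set.toFinite _)).mp h
  obtain ⟨j, ⟨hj1, hj2⟩, hj⟩ : ∃ j : ZMod (orderOf c), (j ^ q = 1 ∧ IsConj c (c ^ j.val)) ∧ j ≠ 1 := by
    by_cases h1 : a = 1
    · exact ⟨b, hb, fun h2 => hab (h1.trans h2.symm)⟩
    · exact ⟨a, ha, h1⟩
  obtain ⟨g, hg⟩ := isConj_iff.mp hj2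
  have key : ∀ i : ℕ, g ^ i * c * (g ^ i)⁻¹ = c ^ (j ^ i).val := by
    intro i
    induction i with
    | zero =>
      rw [pow_zero, pow_zero, one_mul, inv_one, mul_one]
      rcases Nat.lt_or_ge 1 (orderOf c) with h2 | h2
      · have : Fact (1 < orderOf c) := ⟨h2⟩
        rw [ZMod.val_one, pow_one]
      · have h3 : orderOf c = 1 := le_antisymm h2 hm
        rw [orderOf_eq_one_iff] at h3
        rw [h3, one_pow]
    | succ i ih =>
      have h2 : g ^ (i + 1) * c * (g ^ (i + 1))⁻¹ = g ^ i * (g * c * g⁻¹) * (g ^ i)⁻¹ := by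
        rw [pow_succ]
        group
      rw [h2, hg, ← conj_pow, ih, ← pow_mul, pow_succ, ZMod.val_mul]
      exact (pow_mod_orderOf c _).symm
  have h2 := key (orderOf g)
  rw [pow_orderOf_eq_one, one_mul, inv_one, mul_one] at h2
  have h3 : j ^ orderOf g = 1 := by
    have h4 : 1 ≡ (j ^ orderOf g).val [MOD orderOf c] := by
      rw [← pow_eq_pow_iff_modEq, pow_one]
      exact h2
    have h5 := (ZMod.natCast_eq_natCast_iff _ _ _).mpr h4
    rw [Nat.cast_one, ZMod.natCast_zmod_val] at h5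
    exact h5.symm
  have hfq : Fact q.Prime := ⟨hq⟩
  have h4 : orderOf j = q := orderOf_eq_prime hj1 hj
  rw [← h4]
  exact (orderOf_dvd_of_pow_eq_one h3).trans (orderOf_dvd_natCard g)

end Pool.Agent.Helper606_LC
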