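import Mathlib
import Pool.Agent.Helper606_LC.Sub
import Pool.Agent.Helper606_LC.Dg1

/-!
# Subfields of the field of values and numbers of conjugates
-/

set_option autoImplicit false
set_option linter.unusedSectionVars false

namespace Pool.Agent.Helper606_LC

open Pool.Agent.H541R3.ART Pool.Agent.W446.AS Pool.Agent.R389 Pool.Agent.H302R3

/-- units acting trivially on the roots of unity of order dividing `gcd n N₁` -/
theorem split_unit {N n : ℕ} (hN : 0 < N) (hnN : n ∣ N) {p a : ℕ} (hp : p.Prime)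
    (ha : 0 < a) (hpa : p ^ a ∣ n) {kσ : (ZMod N)ˣ}
    (hk1 : (kσ : ZMod N).val ≡ 1 [MOD n / p ^ (n.factorization p - a + 1)]) :
    ∃ u ∈ Ug N (p ^ a), ∃ k : (ZMod N)ˣ, (k : ZMod N).val ≡ 1 [MOD n] ∧ kσ = k * u := by
  have hN' : NeZero N := ⟨hN.ne'⟩
  have hn : 0 < n := Nat.pos_of_dvd_of_pos hnN hN
  have hab : a ≤ n.factorization p := (hp.pow_dvd_iff_le_factorization hn.ne').mp hpa
  set b := n.factorization p with hb
  set n' := n / p ^ b with hn'
  have hnn : n = p ^ b * n' := (Nat.ordProj_mul_ordCompl_eq_self n p).symm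
  have hn'p : ¬ p ∣ n' := Nat.not_dvd_ordCompl hp hn.ne'
  have hn₁ : n / p ^ (b - a + 1) = p ^ (a - 1) * n' := by
    have h1 : n = p ^ (b - a + 1) * (p ^ (a - 1) * n') := by
      rw [← mul_assoc, ← pow_add]
      have h2 : b - a + 1 + (a - 1) = b := by omega
      rw [h2]
      exact hnn
    conv_lhs => rw [h1]
    exact Nat.mul_div_cancel_left _ (pow_pos hp.pos _)
  rw [hn₁] at hk1
  -- decompose `N`
  obtain ⟨v, M, hM, hNM⟩ := Nat.exists_eq_pow_mul_and_not_dvd hN.ne' p hp.ne_one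
  let N₁ := p ^ (a - 1) * M
  have hgcd : Nat.gcd n N₁ ∣ p ^ (a - 1) * n' := by
    have h0 : Nat.gcd n N₁ ≠ 0 := Nat.gcd_ne_zero_left hn.ne'
    obtain ⟨c, R, hR, hcR⟩ := Nat.exists_eq_pow_mul_and_not_dvd h0 p hp.ne_one
    rw [hcR]
    have h1 : p ^ c * R ∣ N₁ := by rw [← hcR]; exact Nat.gcd_dvd_right n N₁
    have h2 : p ^ c * R ∣ n := by rw [← hcR]; exact Nat.gcd_dvd_left n N₁
    have h3 : p ^ c ∣ p ^ (a - 1) := by
      have h4 : Nat.Coprime (p ^ c) M :=
        Nat.Coprime.pow_left c ((Nat.Prime.coprime_iff_not_dvd hp).mpr hM)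
      exact h4.dvd_of_dvd_mul_right ((dvd_mul_right _ _).trans h1)
    have h5 : R ∣ n' := by
      have h4 : Nat.Coprime R (p ^ b) :=
        (Nat.Coprime.pow_left b ((Nat.Prime.coprime_iff_not_dvd hp).mpr hR)).symm
      apply h4.dvd_of_dvd_mul_left
      rw [← hnn]
      exact (dvd_mul_left _ _).trans h2
    exact mul_dvd_mul h3 h5
  -- the other factor
  obtain ⟨k, hk1n, hkN₁⟩ := Nat.chineseRemainder' (n := n) (m := N₁) (a := 1)
    (b := (kσ : ZMod N).val) ((hk1.symm).of_dvd hgcd)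
  have hkcop : k.Coprime N := by
    apply Nat.coprime_of_dvd
    intro r hr hrk hrN
    by_cases hrp : r ∣ n
    · have h1 : k ≡ 1 [MOD r] := hk1n.of_dvd hrp
      have h2 : r ∣ 1 := (Nat.ModEq.dvd_iff h1 (dvd_refl r)).mp hrk
      exact hr.one_lt.ne' (Nat.dvd_one.mp h2)
    · have hrN₁ : r ∣ N₁ := by
        have h3 : r ∣ p ^ v * M := by rw [← hNM]; exact hrN
        rcases hr.dvd_mul.mp h3 with h4 | h4
        · exfalso
          apply hrp
          have h5 := (Nat.prime_dvd_prime_iff_eq hr hp).mp (hr.dvd_of_dvd_pow h4)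
          rw [h5]
          exact (dvd_pow_self p ha.ne').trans hpa
        · exact h4.mul_left _
      have h1 : k ≡ (kσ : ZMod N).val [MOD r] := hkN₁.of_dvd hrN₁
      have h2 : r ∣ (kσ : ZMod N).val := (Nat.ModEq.dvd_iff h1 (dvd_refl r)).mp hrk
      have h3 := ZMod.val_coe_unit_coprime kσ
      have h4 : r ∣ 1 := by rw [← h3]; exact Nat.dvd_gcd h2 hrN
      exact hr.one_lt.ne' (Nat.dvd_one.mp h4)
  let kK : (ZMod N)ˣ := ZMod.unitOfCoprime k hkcop
  have hkv : (kK : ZMod N).val ≡ k [MOD N] := by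
    rw [ZMod.coe_unitOfCoprime, ZMod.val_natCast]
    exact Nat.mod_modEq k N
  have hkK : ∀ z : ℂ, z ^ N = 1 → z ^ (kK : ZMod N).val = z ^ k := fun z hz =>
    pow_eq_of_modEq hz hkv
  refine ⟨kK⁻¹ * kσ, ?_, kK, ?_, by rw [mul_inv_cancel_left]⟩
  · intro z hz hpz
    have hz1 : z ^ N₁ = 1 := by
      apply orderOf_dvd_iff_pow_eq_one.mp
      have h3 : orderOf z ∣ N := orderOf_dvd_of_pow_eq_one hz
      have h0 : 0 < orderOf z := Nat.pos_of_dvd_of_pos h3 hN
      obtain ⟨w, R, hR, hzR⟩ := Nat.exists_eq_pow_mul_and_not_dvd h0.ne' p hp.ne_one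
      have hwa : w ≤ a - 1 := by
        by_contra hcon2
        apply hpz
        rw [hzR]
        exact (pow_dvd_pow p (by omega)).mul_right R
      have hRM : R ∣ M := by
        have h4 : R ∣ p ^ v * M := by
          rw [← hNM]
          exact (Dvd.intro_left (p ^ w) hzR.symm).trans h3
        have h5 : Nat.Coprime R (p ^ v) :=
          (Nat.Coprime.pow_left v ((Nat.Prime.coprime_iff_not_dvd hp).mpr hR)).symm
        exact h5.dvd_of_dvd_mul_left h4
      rw [hzR]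
      exact mul_dvd_mul (pow_dvd_pow p hwa) hRM
    have h3 : z ^ (kσ : ZMod N).val = z ^ (kK : ZMod N).val := by
      rw [hkK z hz]
      exact (pow_eq_of_modEq hz1 hkN₁).symm
    rw [mul_comm, pow_val_mul hN hz, h3, ← pow_val_mul hN hz, mul_inv_cancel, pow_val_one hN hz]
  · exact (hkv.of_dvd hnN).trans hk1n

/-- the automorphism fixes the roots of unity of order dividing `m` -/
lemma val_of_fix {N m : ℕ} (hN : 0 < N) (hmN : m ∣ N) {σ : ℂ ≃+* ℂ}
    (hσ : ∀ z : ℂ, z ^ m = 1 → σ z = z) {k : (ZMod N)ˣ}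
    (hk : ∀ z : ℂ, z ^ N = 1 → σ z = z ^ (k : ZMod N).val) : (k : ZMod N).val ≡ 1 [MOD m] := by
  obtain ⟨z, hz⟩ := exists_root (Nat.pos_of_dvd_of_pos hmN hN)
  have h1 : z ^ m = 1 := by rw [← hz, pow_orderOf_eq_one]
  rw [← mem_kr hN hmN, kr_iff hN hmN hz, ← hk z (root_pow hmN hz)]
  exact hσ z h1

lemma low_dvd {n p a : ℕ} (hn : 0 < n) (hp : p.Prime) (ha : 0 < a) (hpa : p ^ a ∣ n) :
    n / p ^ (n.factorization p - a + 1) ∣ n ∧ ¬ p ^ a ∣ n / p ^ (n.factorization p - a + 1) := by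
  have hab : a ≤ n.factorization p := (hp.pow_dvd_iff_le_factorization hn.ne').mp hpa
  have h1 : p ^ (n.factorization p - a + 1) ∣ n :=
    (pow_dvd_pow p (by omega)).trans (Nat.ordProj_dvd n p)
  refine ⟨Nat.div_dvd_of_dvd h1, fun h2 => ?_⟩
  have h3 := Nat.mul_dvd_mul_left (p ^ (n.factorization p - a + 1)) h2
  rw [Nat.mul_div_cancel' h1, ← pow_add] at h3
  have h4 := (hp.pow_dvd_iff_le_factorization hn.ne').mp h3
  omega

/-- numbers of conjugates and inertia groups -/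
theorem ncj_low {G : Type} [Group G] [Finite G] {N : ℕ} (hN : 0 < N) (hG : Nat.card G ∣ N)
    {χ : G → ℂ} (hχ : χ ∈ Irr G) {n : ℕ}
    (hn : 0 < n) (hnN : n ∣ N) (h : ∀ g, χ g ∈ Qc n) {p a : ℕ} (hp : p.Prime) (ha : 0 < a)
    (hpa : p ^ a ∣ n) :
    ncj χ (n / p ^ (n.factorization p - a + 1)) = Nat.card (Dg hN hG χ (p ^ a)) := by
  obtain ⟨hlow, hlow'⟩ := low_dvd hn hp ha hpa
  set n₁ := n / p ^ (n.factorization p - a + 1) with hn₁
  have hn₁N : n₁ ∣ N := hlow.trans hnN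
  have hinj : Function.Injective (cj hN hG χ) := by
    intro γ γ' hγ
    obtain ⟨k, rfl⟩ := gmk_surj hN hG χ γ
    obtain ⟨l, rfl⟩ := gmk_surj hN hG χ γ'
    rw [cj_mk, cj_mk] at hγ
    have h1 : gmk hN hG χ (l⁻¹ * k) = 1 := by
      rw [gmk_eq_one, pw_mul hN hG, hγ, ← pw_mul hN hG, inv_mul_cancel, pw_one hN hG]
    rw [map_mul, map_inv, inv_mul_eq_one] at h1
    exact h1.symm
  have hset : {η : G → ℂ | ∃ σ : ℂ ≃+* ℂ, (∀ z : ℂ, z ^ n₁ = 1 → σ z = z) ∧
      ∀ g, η g = σ (χ g)} = cj hN hG χ '' (Dg hN hG χ (p ^ a) : Set _) := by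
    ext η
    constructor
    · rintro ⟨σ, hσ, hη⟩
      obtain ⟨kσ, hkσ⟩ := exists_pow_aut hN σ
      obtain ⟨u, hu, k, hk, hku⟩ := split_unit hN hnN hp ha hpa (val_of_fix hN hn₁N hσ hkσ)
      have h1 : pw k χ = χ := by
        refine pw_of_mem hN hG hχ h hnN fun z hz => ?_
        rw [pow_eq_of_modEq hz hk, pow_one]
      refine ⟨gmk hN hG χ u, ⟨u, hu, rfl⟩, ?_⟩
      rw [cj_mk]
      funext g
      rw [hη, irr_pow hN hkσ hχ (pow_card_dvd hG g)]
      have h2 : pw kσ χ = pw u χ := by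
        rw [hku, mul_comm, pw_mul hN hG, h1]
      exact (congrFun h2 g).symm
    · rintro ⟨_, ⟨u, hu, rfl⟩, rfl⟩
      obtain ⟨σ, hσ⟩ := exists_aut_pow hN u
      refine ⟨σ, fun z hz => ?_, fun g => ?_⟩
      · have hzN : z ^ N = 1 := by
          obtain ⟨c, hc⟩ := hn₁N
          rw [hc, pow_mul, hz, one_pow]
        rw [hσ z hzN]
        exact hu z hzN fun hd => hlow' (hd.trans (orderOf_dvd_of_pow_eq_one hz))
      · rw [cj_mk]
        exact (irr_pow hN hσ hχ (pow_card_dvd hG g)).symm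
  rw [ncj, hset, Set.ncard_image_of_injective _ hinj]
  exact (Nat.card_coe_set_eq _).symm

variable {K : IntermediateField ℚ ℂ}

/-- fields not contained in a smaller cyclotomic field -/
theorem mov_low {N n : ℕ} (hN : 0 < N) (hnN : n ∣ N) (hK : K ≤ Qc n) (hKN : K ≤ Qc N)
    {p a : ℕ} (hp : p.Prime) (ha : 0 < a) (hpa : p ^ a ∣ n)
    (hnot : ¬ K ≤ Qc (n / p ^ (n.factorization p - a + 1))) :
    ∃ u ∈ Ug N (p ^ a), Rk hN hKN u ≠ 1 := by
  have hn : 0 < n := Nat.pos_of_dvd_of_pos hnN hN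
  obtain ⟨hlow, -⟩ := low_dvd hn hp ha hpa
  by_contra hcon
  push Not at hcon
  apply hnot
  intro x hx
  refine mem_of_fix fun σ hσ => ?_
  obtain ⟨kσ, hkσ⟩ := exists_pow_aut hN σ
  obtain ⟨u, hu, k, hk, hku⟩ := split_unit hN hnN hp ha hpa
    (val_of_fix hN (hlow.trans hnN) hσ hkσ)
  have h5 : Rk hN hKN k = 1 := by
    obtain ⟨τ, hτ⟩ := exists_aut_pow hN k
    ext x
    rw [Rk_coe hN hKN k hτ]
    refine fix_of_mem (m := n) (fun z hz => ?_) (hK x.2)
    have hzN : z ^ N = 1 := by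
      obtain ⟨c, hc⟩ := hnN
      rw [hc, pow_mul, hz, one_pow]
    rw [hτ z hzN, pow_eq_of_modEq hz hk, pow_one]
  have h6 : Rk hN hKN kσ = 1 := by
    rw [hku, map_mul, hcon u hu, h5, one_mul]
  rw [← Rk_coe hN hKN kσ hkσ ⟨x, hx⟩, h6]
  rfl

/-- **Subfields of the field of values and numbers of conjugates.** -/
theorem master_cond {G : Type} [Group G] [Finite G] {χ : G → ℂ} (hχ : χ ∈ Irr G) {n : ℕ}
    (hn : 0 < n) (h : ∀ g, χ g ∈ Qc n)
    (hmin : ∀ m : ℕ, 0 < m → (∀ g, χ g ∈ Qc m) → n ≤ m) {d : ℕ} (hd : d ∣ n)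
    (hKχ : K ≤ IntermediateField.adjoin ℚ (Set.range χ)) {ℓ : ℕ} (hℓ : ℓ.Prime)
    (hdm : ∀ p ∈ wildQ G d.factorization d.primeFactors,
      ¬ K ≤ Qc (n / p ^ (n.factorization p - d.factorization p + 1)) ∨
        ℓ ∣ ncj χ (n / p ^ (n.factorization p - d.factorization p + 1)))
    (hW : ∀ q : ℕ, q.Prime → q ≠ ℓ → ∀ P : Sylow q (K ≃ₐ[ℚ] K), IsCyclic P) :
    HasOrd χ d := by
  classical
  have hd0 : d ≠ 0 := by
    rintro rfl
    rw [zero_dvd_iff] at hd
    omega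
  have hN : 0 < Nat.card G * n := Nat.mul_pos Nat.card_pos hn
  set N := Nat.card G * n with hNdef
  have hG : Nat.card G ∣ N := dvd_mul_right _ _
  have hnN : n ∣ N := dvd_mul_left _ _
  have hKn : K ≤ Qc n := hKχ.trans (by
    rw [IntermediateField.adjoin_le_iff, Set.range_subset_iff]
    exact h)
  have hKN : K ≤ Qc N := by
    refine hKn.trans (IntermediateField.adjoin.mono ℚ _ _ ?_)
    intro z hz
    obtain ⟨c, hc⟩ := hnN
    change z ^ N = 1
    rw [hc, pow_mul, show z ^ n = 1 from hz, one_pow]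
  have hfin := gam_finite hN hG χ
  have hpr : ∀ p ∈ d.primeFactors, p.Prime := fun p hp => Nat.prime_of_mem_primeFactors hp
  have hpos : ∀ p ∈ d.primeFactors, 0 < d.factorization p := fun p hp =>
    (hpr p hp).factorization_pos_of_dvd hd0 (Nat.dvd_of_mem_primeFactors hp)
  have hpd : ∀ p ∈ d.primeFactors, p ^ d.factorization p ∣ n := fun p _ =>
    (Nat.ordProj_dvd d p).trans hd
  have hmov : ∀ p ∈ d.primeFactors, ∃ u ∈ Ug N (p ^ d.factorization p), pw u χ ≠ χ :=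
    fun p hp => exists_mov hN hG hχ hn hnN h hmin (hpr p hp) (hpos p hp) (hpd p hp)
  -- elements fixing `χ` fix `K`
  have hfix : ∀ k : (ZMod N)ˣ, pw k χ = χ → Rk hN hKN k = 1 := by
    intro k hk
    obtain ⟨σ, hσ⟩ := exists_aut_pow hN k
    have h1 : ∀ x ∈ IntermediateField.adjoin ℚ (Set.range χ), σ x = x := by
      intro x hx
      induction hx using IntermediateField.adjoin_induction with
      | mem x hx =>
        obtain ⟨g, rfl⟩ := hx
        rw [irr_pow hN hσ hχ (pow_card_dvd hG g)]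
        exact congrFun hk g
      | algebraMap x =>
        have h1 : (algebraMap ℚ ℂ) x = (x : ℂ) := rfl
        rw [h1, map_ratCast]
      | add a b _ _ ha hb => rw [map_add, ha, hb]
      | inv a _ ha => rw [map_inv₀, ha]
      | mul a b _ _ ha hb => rw [map_mul, ha, hb]
    ext x
    rw [Rk_coe hN hKN k hσ]
    exact h1 x (hKχ x.2)
  have hNz : NeZero N := ⟨hN.ne'⟩
  let Γ := (ZMod N)ˣ ⧸ (Rk hN hKN).ker
  have hΓ : Finite Γ := inferInstanceAs (Finite ((ZMod N)ˣ ⧸ (Rk hN hKN).ker))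
  let mk : (ZMod N)ˣ →* Γ := QuotientGroup.mk' _
  have hmk : ∀ k, mk k = 1 ↔ Rk hN hKN k = 1 := fun k =>
    (QuotientGroup.eq_one_iff k).trans MonoidHom.mem_ker
  have hord : ∀ k, orderOf (mk k) = orderOf (Rk hN hKN k) := by
    intro k
    refine orderOf_eq_orderOf_iff.mpr fun j => ?_
    rw [← map_pow, ← map_pow, hmk]
  have hfac : ∀ k, orderOf (mk k) ∣ orderOf (gmk hN hG χ k) := by
    intro k
    apply orderOf_dvd_of_pow_eq_one
    rw [← map_pow, hmk]
    apply hfix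
    rw [← gmk_eq_one hN hG, map_pow, pow_orderOf_eq_one]
  have hbI : ∀ p ∈ wildQ G d.factorization d.primeFactors, p ∈ d.primeFactors :=
    fun p hp => (Finset.mem_filter.mp hp).1
  have hcard : ∀ p ∈ wildQ G d.factorization d.primeFactors,
      ncj χ (n / p ^ (n.factorization p - d.factorization p + 1))
        = Nat.card (Dg hN hG χ (p ^ d.factorization p)) := fun p hp =>
    ncj_low hN hG hχ hn hnN h (hpr p (hbI p hp)) (hpos p (hbI p hp)) (hpd p (hbI p hp))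
  let B := (wildQ G d.factorization d.primeFactors).filter fun p =>
    ¬ ℓ ∣ Nat.card (Dg hN hG χ (p ^ d.factorization p))
  have hB : ∀ p ∈ B, p ∈ wildQ G d.factorization d.primeFactors ∧
      ¬ ℓ ∣ Nat.card (Dg hN hG χ (p ^ d.factorization p)) := fun p hp => Finset.mem_filter.mp hp
  have h1 : ∀ p ∈ B, ∃ v ∈ Ug N (p ^ d.factorization p), (orderOf (mk v)).Prime := by
    intro p hp
    obtain ⟨hp1, hp2⟩ := hB p hp
    have h3 : ¬ K ≤ Qc (n / p ^ (n.factorization p - d.factorization p + 1)) :=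
      (hdm p hp1).resolve_right (by rw [hcard p hp1]; exact hp2)
    obtain ⟨u, hu, hu1⟩ := mov_low hN hnN hKn hKN (hpr p (hbI p hp1)) (hpos p (hbI p hp1))
      (hpd p (hbI p hp1)) h3
    have h2 : orderOf (mk u) ≠ 1 := fun h2 => hu1 ((hmk u).mp (orderOf_eq_one_iff.mp h2))
    obtain ⟨q, hq, hqd⟩ := Nat.exists_prime_and_dvd h2
    refine ⟨u ^ (orderOf (mk u) / q), ug_pow hN hu _, ?_⟩
    rw [map_pow, orderOf_pow_orderOf_div (orderOf_pos _).ne' hqd]
    exact hq
  choose! v hv hv1 using h1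
  have hvne : ∀ p ∈ B, orderOf (mk (v p)) ≠ ℓ := by
    intro p hp h2
    apply (hB p hp).2
    have h3 : gmk hN hG χ (v p) ∈ Dg hN hG χ (p ^ d.factorization p) := ⟨v p, hv p hp, rfl⟩
    have h4 := orderOf_dvd_natCard (⟨gmk hN hG χ (v p), h3⟩ :
      Dg hN hG χ (p ^ d.factorization p))
    rw [Subgroup.orderOf_mk] at h4
    rw [← h2]
    exact (hfac (v p)).trans h4
  have : Fact ℓ.Prime := ⟨hℓ⟩
  obtain ⟨ψ, hψ⟩ := exists_psi (I := B)
    (β := fun p => mk (v p)) hv1 (ℓ := ℓ) (by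
      intro p hp p' hp' hoo hne
      have hq := hv1 p hp
      have hcomm : Rk hN hKN (v p) * Rk hN hKN (v p') = Rk hN hKN (v p') * Rk hN hKN (v p) := by
        rw [← map_mul, ← map_mul, mul_comm]
      have ho1 : orderOf (Rk hN hKN (v p)) = orderOf (mk (v p)) := (hord _).symm
      have ho2 : orderOf (Rk hN hKN (v p')) = orderOf (mk (v p)) := by
        rw [← hord]; exact hoo.symm
      obtain ⟨t, ht⟩ := pow_of_cyc hq (hW _ hq hne) ho1 ho2 hcomm
      refine ⟨t, ?_⟩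
      have h3 : mk (v p' * ((v p) ^ t)⁻¹) = 1 := by
        rw [hmk, map_mul, map_inv, map_pow, ht, mul_inv_cancel]
      rw [map_mul, map_inv, map_pow, mul_inv_eq_one] at h3
      exact h3)
  have hprod : ∏ p ∈ d.primeFactors, p ^ d.factorization p = d :=
    Nat.prod_factorization_pow_eq_self hd0
  rw [← hprod]
  refine main_psi3 hN d.factorization (ψ.comp mk) _ G hG rfl χ hχ ?_ d.primeFactors
    hpr hpos hmov ?_
  · intro k hk
    rw [MonoidHom.comp_apply, (hmk k).mpr (hfix k hk), map_one]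
  · intro p hp
    by_cases hdv : ℓ ∣ Nat.card (Dg hN hG χ (p ^ d.factorization p))
    · obtain ⟨x, hx⟩ := exists_prime_orderOf_dvd_card' ℓ hdv
      obtain ⟨u, hu, hux⟩ := x.2
      refine ⟨u, hu, Or.inr ?_⟩
      rw [hux, Subgroup.orderOf_coe, hx]
    · have hpB : p ∈ B := Finset.mem_filter.mpr ⟨hp, hdv⟩
      refine ⟨v p, hv p hpB, Or.inl ?_⟩
      rcases hψ p hpB with h2 | h2
      · exact h2
      · exfalso
        exact hvne p hpB ((Nat.prime_dvd_prime_iff_eq hℓ (hv1 p hpB)).mp h2).symm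

end Pool.Agent.Helper606_LC
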