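import Mathlib
import Pool.Agent.Helper606_LC.Fd2
import Pool.Agent.Helper606_LC.Mst
import Pool.Agent.Helper606_LC.Fin5
import Pool.Agent.Helper606_LC.Dg2

/-!
# The cyclotomic deficiency in terms of field degrees
-/

set_option autoImplicit false
set_option linter.unusedSectionVars false

namespace Pool.Agent.Helper606_LC

open Pool.Agent.H541R3.ART Pool.Agent.W446.AS Pool.Agent.R389 Pool.Agent.H302R3

section def_

variable {G : Type} [Group G] [Finite G] {V : Type} [AddCommGroup V] [Module ℂ V]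
  [FiniteDimensional ℂ V] {ρ : Representation ℂ G V}

/-- the field of values -/
noncomputable abbrev Vf (χ : G → ℂ) : IntermediateField ℚ ℂ := IntermediateField.adjoin ℚ (Set.range χ)

lemma vf_le {χ : G → ℂ} {n : ℕ} (h : ∀ g, χ g ∈ Qc n) : Vf χ ≤ Qc n := by
  rw [IntermediateField.adjoin_le_iff]
  rintro _ ⟨g, rfl⟩
  exact h g

/-- the deficiency and the order of a linear constituent -/
theorem defic_of_ord (hρ : ρ.character ∈ Irr G) {n d : ℕ} (hn : 0 < n)
    (h : ∀ g, ρ.character g ∈ Qc n) (hd : d ∣ n) (ho : HasOrd ρ.character d) :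
    IntermediateField.relfinrank (Vf ρ.character) (Qc n)
      ≤ Module.finrank ℂ V * IntermediateField.relfinrank (Vf ρ.character ⊔ Qc d) (Qc n) := by
  classical
  have hN : 0 < Nat.card G * n := Nat.mul_pos Nat.card_pos hn
  set N := Nat.card G * n with hNdef
  have hG : Nat.card G ∣ N := dvd_mul_right _ _
  have hnN : n ∣ N := dvd_mul_left _ _
  have hdN : d ∣ N := hd.trans hnN
  have hV : Vf ρ.character ≤ Qc n := vf_le h
  have hVN : Vf ρ.character ≤ Qc N := hV.trans (qc_mono hnN)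
  have hdn : Qc d ≤ Qc n := qc_mono hd
  have hs : Vf ρ.character ⊔ Qc d ≤ Qc n := sup_le hV hdn
  have hsN : Vf ρ.character ⊔ Qc d ≤ Qc N := hs.trans (qc_mono hnN)
  rw [rel_deg hN hVN (qc_mono hnN) hV, rel_deg hN hsN (qc_mono hnN) hs, ker_qc hN hnN,
    ker_sup hN hVN (qc_mono hdN), ker_val hN hG hρ, ker_qc hN hdN]
  set S := stb hN hG ρ.character with hS
  have h1 := orbit_le hN hG hdN ho
  have hZS : (ZMod.unitsMap hnN).ker ≤ S := by
    intro u hu
    have hu' := (mem_kr hN hnN).mp hu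
    change pw u ρ.character = ρ.character
    refine pw_of_mem hN hG hρ h hnN fun z hz => ?_
    rw [pow_eq_of_modEq hz hu', pow_one]
  have hZd : (ZMod.unitsMap hnN).ker ≤ S ⊓ (ZMod.unitsMap hdN).ker := by
    refine le_inf hZS ?_
    intro u hu
    rw [mem_kr hN] at hu ⊢
    exact hu.of_dvd hd
  have h2 : (ZMod.unitsMap hnN).ker.relIndex (S ⊓ (ZMod.unitsMap hdN).ker) *
      (S ⊓ (ZMod.unitsMap hdN).ker).relIndex S = (ZMod.unitsMap hnN).ker.relIndex S :=
    Subgroup.relIndex_mul_relIndex _ _ _ hZd inf_le_left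
  rw [← h2, Subgroup.inf_relIndex_left, mul_comm]
  exact Nat.mul_le_mul_right _ h1

/-- **The universal inequality in terms of field degrees.** -/
theorem defic_univ (hρ : ρ.character ∈ Irr G) {n : ℕ} (hn : 0 < n)
    (h : ∀ g, ρ.character g ∈ Qc n)
    (hmin : ∀ m : ℕ, 0 < m → (∀ g, ρ.character g ∈ Qc m) → n ≤ m) :
    ∃ t : ℕ, 0 < t ∧
      IntermediateField.relfinrank (Vf ρ.character) (Qc n) ≤ t * Module.finrank ℂ V ∧
      t ^ 5 ≤ IntermediateField.relfinrank (Vf ρ.character ⊔
        Qc (npart n (n.primeFactors \ wildQ G n.factorization n.primeFactors))) (Qc n) := by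
  classical
  have hN : 0 < Nat.card G * n := Nat.mul_pos Nat.card_pos hn
  set N := Nat.card G * n with hNdef
  have hG : Nat.card G ∣ N := dvd_mul_right _ _
  have hnN : n ∣ N := dvd_mul_left _ _
  set d := npart n (n.primeFactors \ wildQ G n.factorization n.primeFactors) with hd'
  have hd : d ∣ n := npart_dvd hn Finset.sdiff_subset
  have hdN : d ∣ N := hd.trans hnN
  have hV : Vf ρ.character ≤ Qc n := vf_le h
  have hVN : Vf ρ.character ≤ Qc N := hV.trans (qc_mono hnN)
  have hdn : Qc d ≤ Qc n := qc_mono hd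
  have hs : Vf ρ.character ⊔ Qc d ≤ Qc n := sup_le hV hdn
  have hsN : Vf ρ.character ⊔ Qc d ≤ Qc N := hs.trans (qc_mono hnN)
  rw [rel_deg hN hVN (qc_mono hnN) hV, rel_deg hN hsN (qc_mono hnN) hs, ker_qc hN hnN,
    ker_sup hN hVN (qc_mono hdN), ker_val hN hG hρ, ker_qc hN hdN]
  exact defic_core hρ hN hG hn hnN h hmin rfl hd' hdN

end def_

end Pool.Agent.Helper606_LC
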