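import Mathlib
import Pool.Agent.Helper606_LC.Fd3

/-!
# Linear characters of proper subgroups
-/

set_option autoImplicit false
set_option linter.unusedSectionVars false

namespace Pool.Agent.Helper606_LC

open Pool.Agent.H541R3.ART Pool.Agent.W446.AS Pool.Agent.R389 Pool.Agent.H302R3

/-- the field of values of a linear character -/
lemma lin_field {K : Type*} [Group K] [Finite K] (μ : K →* ℂˣ) {n : ℕ} (hn : 0 < n)
    (hμ : orderOf μ = n) :
    IntermediateField.adjoin ℚ (Set.range fun h : K => ((μ h : ℂˣ) : ℂ)) = Qc n := by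
  apply le_antisymm
  · rw [IntermediateField.adjoin_le_iff]
    rintro _ ⟨h, rfl⟩
    apply IntermediateField.subset_adjoin
    change ((μ h : ℂˣ) : ℂ) ^ n = 1
    rw [← Units.val_pow_eq_pow_val, ← MonoidHom.pow_apply, ← hμ, pow_orderOf_eq_one,
      MonoidHom.one_apply, Units.val_one]
  · rw [IntermediateField.adjoin_le_iff]
    intro z hz
    obtain ⟨x, hx⟩ := orderOf_hom_dvd μ
    have hx1 : IsPrimitiveRoot ((μ x : ℂˣ) : ℂ) n := by
      rw [IsPrimitiveRoot.coe_units_iff]
      have h1 := IsPrimitiveRoot.orderOf (μ x)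
      rwa [hx, hμ] at h1
    have hne : NeZero n := ⟨hn.ne'⟩
    obtain ⟨i, -, hi⟩ := hx1.eq_pow_of_pow_eq_one (show z ^ n = 1 from hz)
    rw [← hi]
    have h1 : ((μ x : ℂˣ) : ℂ) ∈
        IntermediateField.adjoin ℚ (Set.range fun h : K => ((μ h : ℂˣ) : ℂ)) :=
      IntermediateField.subset_adjoin ℚ _ ⟨x, rfl⟩
    exact pow_mem h1 i

section pr

variable {G : Type} [Group G] [Finite G] {V : Type} [AddCommGroup V] [Module ℂ V]
  [FiniteDimensional ℂ V] {ρ : Representation ℂ G V}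

/-- **Proper subgroups.** -/
theorem proper_of_ord (hirr : Irred ρ) (hρ : ρ.character ∈ Irr G)
    (hdim : 1 < Module.finrank ℂ V) {n : ℕ} (hn : 0 < n)
    (h : ∀ g, ρ.character g ∈ Qc n) (ho : HasOrd ρ.character n) :
    ∃ (H : Subgroup G) (μ : H →* ℂˣ), H ≠ ⊤ ∧
      (∑ᶠ h : H, ρ.character (h : G) * (((μ h)⁻¹ : ℂˣ) : ℂ)) ≠ 0 ∧
      Vf ρ.character ≤ IntermediateField.adjoin ℚ (Set.range fun h : H => ((μ h : ℂˣ) : ℂ)) ∧
      IntermediateField.relfinrank (Vf ρ.character)
        (IntermediateField.adjoin ℚ (Set.range fun h : H => ((μ h : ℂˣ) : ℂ)))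
        ≤ Module.finrank ℂ V := by
  classical
  obtain ⟨H, μ, h1, h2⟩ := exact_ord ρ ho
  refine ⟨H, μ, ?_, h1, ?_, ?_⟩
  · rintro rfl
    obtain ⟨v, hv, hμ⟩ := (mult_ne_iff ρ ⊤ μ).mp h1
    have hinv : ∀ g : G, ∀ w ∈ Submodule.span ℂ {v}, ρ g w ∈ Submodule.span ℂ {v} := by
      intro g w hw
      obtain ⟨a, rfl⟩ := Submodule.mem_span_singleton.mp hw
      rw [map_smul]
      have h3 := hμ ⟨g, Subgroup.mem_top g⟩
      have h4 : ρ g v = ((μ ⟨g, Subgroup.mem_top g⟩ : ℂˣ) : ℂ) • v := h3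
      rw [h4, smul_smul]
      exact Submodule.smul_mem _ _ (Submodule.mem_span_singleton_self v)
    rcases hirr.2 _ hinv with h3 | h3
    · apply hv
      have h4 : v ∈ Submodule.span ℂ {v} := Submodule.mem_span_singleton_self v
      rw [h3] at h4
      exact (Submodule.mem_bot ℂ).mp h4
    · have h4 := finrank_span_singleton (K := ℂ) hv
      rw [h3, finrank_top] at h4
      omega
  · rw [lin_field μ hn h2]
    exact vf_le h
  · rw [lin_field μ hn h2]
    have h3 := defic_of_ord hρ hn h (dvd_refl n) ho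
    have h4 : (Vf ρ.character ⊔ Qc n).relfinrank (Qc n) = 1 :=
      IntermediateField.relfinrank_eq_one_of_le le_sup_right
    rwa [h4, mul_one] at h3

end pr

end Pool.Agent.Helper606_LC
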