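import Mathlib
import Pool.Agent.Helper606_LC.Pr1

/-!
# Existence of conductors
-/

set_option autoImplicit false
set_option linter.unusedSectionVars false

namespace Pool.Agent.Helper606_LC

open Pool.Agent.H541R3.ART Pool.Agent.W446.AS Pool.Agent.R389 Pool.Agent.H302R3

variable {G : Type} [Group G] [Finite G]

lemma val_mem_qc {χ : G → ℂ} (hχ : χ ∈ Irr G) (g : G) : χ g ∈ Qc (Nat.card G) := by
  have hN : 0 < Nat.card G := Nat.card_pos
  refine mem_of_fix fun σ hσ => ?_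
  obtain ⟨k, hk⟩ := exists_pow_aut hN σ
  rw [irr_pow hN hk hχ (pow_card_dvd (dvd_refl _) g)]
  have h1 : (k : ZMod (Nat.card G)).val ≡ 1 [MOD Nat.card G] := val_of_fix hN (dvd_refl _) hσ hk
  rw [pow_eq_of_modEq (pow_card_eq_one' (x := g)) h1, pow_one]

/-- conductors exist -/
lemma exists_cond {χ : G → ℂ} (hχ : χ ∈ Irr G) : ∃ n : ℕ, 0 < n ∧ (∀ g, χ g ∈ Qc n) ∧
    ∀ m : ℕ, 0 < m → (∀ g, χ g ∈ Qc m) → n ≤ m := by
  classical
  have hex : ∃ n : ℕ, 0 < n ∧ ∀ g, χ g ∈ Qc n := ⟨Nat.card G, Nat.card_pos, val_mem_qc hχ⟩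
  exact ⟨Nat.find hex, (Nat.find_spec hex).1, (Nat.find_spec hex).2,
    fun m h1 h2 => Nat.find_min' hex ⟨h1, h2⟩⟩

end Pool.Agent.Helper606_LC
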